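import Mathlib

-- part Pool.Agent.P.MP_85fe51_lc.DDefs
section

set_option autoImplicit false

/-! Definitions for the quadratic lower bound over dihedral type groups. -/

namespace Pool.Agent.P.MP_85fe51_lc.DA

open Finset
open scoped Classical

abbrev F2 : Type := ZMod 2

abbrev Du (V : Type) [AddCommGroup V] [Module F2 V] : Type := V →ₗ[F2] F2

section
variable {V : Type} [AddCommGroup V] [Module F2 V]

/-- `γ` vanishes wherever all forms of `H` vanish. -/
def InSp (H : Finset (Du V)) (γ : Du V) : Prop := ∀ x : V, (∀ χ ∈ H, χ x = 0) → γ x = 0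

/-- every pattern of values on `H` is attained. -/
def Indep (H : Finset (Du V)) : Prop := ∀ c : Du V → F2, ∃ x : V, ∀ χ ∈ H, χ x = c χ

/-- number of coloops. -/
noncomputable def col (T : Finset (Du V)) : ℕ :=
  (T.filter (fun γ => ¬ InSp (T.erase γ) γ)).card

/-- number of forms of `T` outside the closure of `G` that are not coloops modulo `G`. -/
noncomputable def nc (G T : Finset (Du V)) : ℕ :=
  (T.filter (fun γ => ¬ InSp G γ ∧ InSp (G ∪ T.erase γ) γ)).card

/-- forms of `S` outside the closure of `G`. -/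
noncomputable def star (S G : Finset (Du V)) : Finset (Du V) := S.filter (fun γ => ¬ InSp G γ)

/-- forms of `S` that agree with another form of `S` on the kernel of `U`. -/
noncomputable def folded (S U : Finset (Du V)) : Finset (Du V) :=
  S.filter (fun γ => ∃ δ ∈ S, δ ≠ γ ∧ InSp U (γ + δ))

noncomputable def Phi (S : Finset (Du V)) (ζ : Du V → ℂ) (x : V) : ℂ :=
  ∏ χ ∈ S, if χ x = 1 then ζ χ else 1

/-- all phases on `S` are nontrivial `m`-th roots of unity. -/
def Roots (m : ℕ) (S : Finset (Du V)) (ζ : Du V → ℂ) : Prop := ∀ χ ∈ S, ζ χ ^ m = 1 ∧ ζ χ ≠ 1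

def degLt : ℕ → (V → F2) → Prop
  | 0, h => ∀ x, h x = 0
  | j + 1, h => ∀ y, degLt j (fun x => h (x + y) + h x)

noncomputable def sg (a : F2) : ℂ := if a = 1 then -1 else 1

noncomputable def Aset (S : Finset (Du V)) {k : ℕ} (j : ℕ) (y : Fin k → V) : Finset (Du V) :=
  S.filter (fun χ => ∀ i : Fin k, i.val < j → χ (y i) = 1)

def hyb {k : ℕ} (j : ℕ) (y y' : Fin k → V) : Fin k → V := fun i => if i.val < j then y i else y' i

def kerS (U : Finset (Du V)) : Submodule F2 V where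
  carrier := {x | ∀ χ ∈ U, χ x = 0}
  add_mem' := by
    intro a b ha hb χ hχ
    rw [map_add, ha χ hχ, hb χ hχ, add_zero]
  zero_mem' := by
    intro χ _
    exact map_zero χ
  smul_mem' := by
    intro c x hx χ hχ
    rw [map_smul, hx χ hχ, smul_zero]

/-- number of distinct nonzero restrictions of forms of `S` to the kernel of `U`. -/
noncomputable def img (S U : Finset (Du V)) : ℕ :=
  ((S.image (fun χ : Du V => (χ.domRestrict (kerS U) : Du (kerS U)))).erase 0).card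

/-- value of a program whose instructions read linear forms. -/
def prog {G : Type} [Group G] (l : List (Du V × G × G)) (x : V) : G :=
  (l.map (fun p => if p.1 x = 1 then p.2.1 else p.2.2)).prod

/-- a sum of terms `± c` with signs given by forms. -/
def pm {M : Type} [AddCommGroup M] (J : List (Du V × M)) (x : V) : M :=
  (J.map (fun p => if p.1 x = 1 then -p.2 else p.2)).sum

variable [Fintype V]

noncomputable def kerF (H : Finset (Du V)) : Finset V := univ.filter (fun x => ∀ χ ∈ H, χ x = 0)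

noncomputable def oneF (H : Finset (Du V)) : Finset V := univ.filter (fun x => ∀ χ ∈ H, χ x = 1)

noncomputable def cyl {k : ℕ} (Gs : Fin k → Finset (Du V)) : Finset (Fin k → V) :=
  univ.filter (fun y => ∀ i, ∀ χ ∈ Gs i, χ (y i) = 1)

noncomputable def bias (h : V → F2) (S : Finset (Du V)) (ζ : Du V → ℂ) : ℝ :=
  ‖∑ x : V, sg (h x) * Phi S ζ x‖

end

section
variable {V : Type} [AddCommGroup V] [Module F2 V]

theorem mem_star {S G : Finset (Du V)} {γ : Du V} : γ ∈ star S G ↔ γ ∈ S ∧ ¬ InSp G γ := by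
  simp only [star, mem_filter]

theorem mem_folded {S U : Finset (Du V)} {γ : Du V} :
    γ ∈ folded S U ↔ γ ∈ S ∧ ∃ δ ∈ S, δ ≠ γ ∧ InSp U (γ + δ) := by
  simp only [folded, mem_filter]

theorem mem_Aset {S : Finset (Du V)} {k j : ℕ} {y : Fin k → V} {χ : Du V} :
    χ ∈ Aset S j y ↔ χ ∈ S ∧ ∀ i : Fin k, i.val < j → χ (y i) = 1 := by
  simp only [Aset, mem_filter]

theorem mem_kerS {U : Finset (Du V)} {x : V} : x ∈ kerS U ↔ ∀ χ ∈ U, χ x = 0 := Iff.rfl

variable [Fintype V]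

theorem mem_kerF {H : Finset (Du V)} {x : V} : x ∈ kerF H ↔ ∀ χ ∈ H, χ x = 0 := by
  simp only [kerF, mem_filter, mem_univ, true_and]

theorem mem_oneF {H : Finset (Du V)} {x : V} : x ∈ oneF H ↔ ∀ χ ∈ H, χ x = 1 := by
  simp only [oneF, mem_filter, mem_univ, true_and]

theorem mem_cyl {k : ℕ} {Gs : Fin k → Finset (Du V)} {y : Fin k → V} :
    y ∈ cyl Gs ↔ ∀ i, ∀ χ ∈ Gs i, χ (y i) = 1 := by
  simp only [cyl, mem_filter, mem_univ, true_and]

end

section
variable {α : Type}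

/-- expectation over a `ρ`-random subset of `X`. -/
noncomputable def Ex (ρ : ℝ) (X : Finset α) (f : Finset α → ℝ) : ℝ :=
  ∑ W ∈ X.powerset, ρ ^ W.card * (1 - ρ) ^ (X.card - W.card) * f W

/-- expectation over a union of `t` independent `ρ`-random subsets of `X`. -/
noncomputable def ExT (ρ : ℝ) (X : Finset α) : ℕ → (Finset α → ℝ) → ℝ
  | 0, f => f ∅
  | t + 1, f => Ex ρ X (fun W => ExT ρ X t (fun R => f (W ∪ R)))

/-- every cover of `F` by subsets of its members costs at least `c`. -/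
def Costly (q c : ℝ) (F : Finset (Finset α)) : Prop :=
  ∀ U : Finset (Finset α), (∀ H ∈ U, ∃ B ∈ F, H ⊆ B) → (∀ B ∈ F, ∃ H ∈ U, H ⊆ B) →
    c ≤ ∑ H ∈ U, q ^ H.card

end

end Pool.Agent.P.MP_85fe51_lc.DA
end

-- part Pool.Agent.P.MP_85fe51_lc.DEx
section

set_option autoImplicit false

namespace Pool.Agent.P.MP_85fe51_lc.DA

open Finset
open scoped Classical

variable {α : Type}

theorem Ex_const (ρ : ℝ) (X : Finset α) (c : ℝ) : Ex ρ X (fun _ => c) = c := by
  rw [Ex, ← sum_mul, sum_pow_mul_eq_add_pow, add_sub_cancel, one_pow, one_mul]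

theorem Ex_add (ρ : ℝ) (X : Finset α) (f g : Finset α → ℝ) :
    Ex ρ X (fun W => f W + g W) = Ex ρ X f + Ex ρ X g := by
  simp only [Ex, mul_add, sum_add_distrib]

theorem Ex_mul (ρ : ℝ) (X : Finset α) (c : ℝ) (f : Finset α → ℝ) :
    Ex ρ X (fun W => c * f W) = c * Ex ρ X f := by
  simp only [Ex, mul_sum, mul_left_comm c]

theorem Ex_mono {ρ : ℝ} (h0 : 0 ≤ ρ) (h1 : ρ ≤ 1) (X : Finset α) {f g : Finset α → ℝ}
    (h : ∀ W, W ⊆ X → f W ≤ g W) : Ex ρ X f ≤ Ex ρ X g :=
  sum_le_sum fun W hW => mul_le_mul_of_nonneg_left (h W (mem_powerset.1 hW))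
    (mul_nonneg (pow_nonneg h0 _) (pow_nonneg (sub_nonneg.2 h1) _))

theorem dex_insert (ρ : ℝ) {X : Finset α} {a : α} (ha : a ∉ X) (f : Finset α → ℝ) :
    Ex ρ (insert a X) f = (1 - ρ) * Ex ρ X f + ρ * Ex ρ X fun W => f (insert a W) := by
  simp only [Ex, sum_powerset_insert ha, mul_sum, card_insert_of_notMem ha]
  congr 1 <;> refine sum_congr rfl fun W hW => ?_
  · rw [Nat.succ_sub (card_le_card (mem_powerset.1 hW)), pow_succ]
    ring
  · rw [card_insert_of_notMem fun h => ha (mem_powerset.1 hW h), Nat.add_sub_add_right, pow_succ]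
    ring

theorem Ex_card (ρ : ℝ) (X : Finset α) : Ex ρ X (fun W => (W.card : ℝ)) = ρ * X.card := by
  induction X using Finset.induction_on with
  | empty => simp [Ex]
  | insert a X ha ih =>
    have h : Ex ρ X (fun W => ((insert a W).card : ℝ)) = Ex ρ X fun W => (W.card : ℝ) + 1 :=
      sum_congr rfl fun W hW => by
        beta_reduce
        rw [card_insert_of_notMem fun h => ha (mem_powerset.1 hW h), Nat.cast_succ]
    rw [dex_insert ρ ha, h, Ex_add, Ex_const, ih, card_insert_of_notMem ha, Nat.cast_succ]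
    ring

theorem ExT_const (ρ : ℝ) (X : Finset α) (t : ℕ) (c : ℝ) : ExT ρ X t (fun _ => c) = c := by
  induction t with
  | zero => rfl
  | succ t ih => simp only [ExT, ih, Ex_const]

theorem ExT_add (ρ : ℝ) (X : Finset α) (t : ℕ) (f g : Finset α → ℝ) :
    ExT ρ X t (fun W => f W + g W) = ExT ρ X t f + ExT ρ X t g := by
  induction t generalizing f g with
  | zero => rfl
  | succ t ih => simp only [ExT, ih, Ex_add]

theorem ExT_mul (ρ : ℝ) (X : Finset α) (t : ℕ) (c : ℝ) (f : Finset α → ℝ) :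
    ExT ρ X t (fun W => c * f W) = c * ExT ρ X t f := by
  induction t generalizing f with
  | zero => rfl
  | succ t ih => simp only [ExT, ih, Ex_mul]

theorem ExT_sum {ι : Type} (ρ : ℝ) (X : Finset α) (t : ℕ) (I : Finset ι) (f : ι → Finset α → ℝ) :
    ExT ρ X t (fun W => ∑ i ∈ I, f i W) = ∑ i ∈ I, ExT ρ X t (f i) := by
  induction I using Finset.induction_on with
  | empty => simp only [sum_empty, ExT_const]
  | insert a I ha ih => simp only [sum_insert ha, ExT_add, ih]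

theorem ExT_mono {ρ : ℝ} (h0 : 0 ≤ ρ) (h1 : ρ ≤ 1) (X : Finset α) (t : ℕ) {f g : Finset α → ℝ}
    (h : ∀ W, W ⊆ X → f W ≤ g W) : ExT ρ X t f ≤ ExT ρ X t g := by
  induction t generalizing f g with
  | zero => exact h ∅ (empty_subset _)
  | succ t ih => exact Ex_mono h0 h1 X fun W hW => ih fun R hR => h _ (union_subset hW hR)

theorem ExT_card_le {ρ : ℝ} (h0 : 0 ≤ ρ) (h1 : ρ ≤ 1) (X : Finset α) (t : ℕ) :
    ExT ρ X t (fun W => (W.card : ℝ)) ≤ t * ρ * X.card := by
  induction t with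
  | zero => simp [ExT]
  | succ t ih =>
    refine (Ex_mono h0 h1 X (g := fun W => (W.card : ℝ) + t * ρ * X.card) fun W _ => ?_).trans ?_
    · refine (ExT_mono h0 h1 X t (g := fun R => (W.card : ℝ) + R.card) fun R _ => ?_).trans ?_
      · beta_reduce
        exact_mod_cast card_union_le W R
      · rw [ExT_add, ExT_const]
        linarith
    · rw [Ex_add, Ex_const, Ex_card, Nat.cast_succ]
      linarith

/-- selection of one set that meets half of the families. -/
theorem select_of_fail {ι : Type} {ρ : ℝ} (h0 : 0 ≤ ρ) (h1 : ρ ≤ 1) (X : Finset α) (t : ℕ)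
    (Good : Finset ι) (P : ι → Finset α → Prop)
    (hP : ∀ i ∈ Good, ExT ρ X t (fun R => if P i R then 0 else 1) ≤ 1 / 7) :
    ∃ R : Finset α, R ⊆ X ∧ (R.card : ℝ) ≤ 2 * t * ρ * X.card + 2 ∧
      Good.card ≤ 2 * (Good.filter (fun i => P i R)).card := by
  have hX : 0 ≤ t * ρ * X.card := by positivity
  rcases Good.eq_empty_or_nonempty with rfl | hG
  · exact ⟨∅, empty_subset _, by rw [card_empty, Nat.cast_zero]; linarith, by simp⟩
  have hg : (0 : ℝ) < Good.card := Nat.cast_pos.2 hG.card_pos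
  have hc := ExT_card_le h0 h1 X t
  set b := t * ρ * X.card with hb
  have hf : ∀ R, ∑ i ∈ Good, (if P i R then (0 : ℝ) else 1) =
      Good.card - (Good.filter fun i => P i R).card := fun R => by
    rw [eq_sub_iff_add_eq, card_filter, Nat.cast_sum, ← sum_add_distrib, card_eq_sum_ones,
      Nat.cast_sum]
    exact sum_congr rfl fun i _ => by split_ifs <;> simp
  by_contra hn
  have h2 := ExT_mono h0 h1 X t (f := fun _ => 2 * (b + 1) * Good.card)
    (g := fun R => 4 * (b + 1) * ∑ i ∈ Good, (if P i R then (0 : ℝ) else 1) +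
      (Good.card : ℝ) * R.card) fun R hR => by
      have h3 : ((Good.filter fun i => P i R).card : ℝ) ≤ Good.card :=
        Nat.cast_le.2 (card_filter_le _ _)
      rw [hf]
      by_cases h4 : (R.card : ℝ) ≤ 2 * t * ρ * X.card + 2
      · have h5 : (2 * (Good.filter fun i => P i R).card : ℝ) ≤ Good.card := by
          exact_mod_cast (not_le.1 fun h => hn ⟨R, hR, h4, h⟩).le
        have h6 : (0 : ℝ) ≤ Good.card * R.card := by positivity
        nlinarith
      · have h5 : 2 * (b + 1) ≤ R.card := by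
          rw [hb]
          linarith
        nlinarith
  rw [ExT_const, ExT_add, ExT_mul, ExT_mul, ExT_sum] at h2
  have h3 := sum_le_card_nsmul _ _ _ hP
  rw [nsmul_eq_mul] at h3
  nlinarith [mul_le_mul_of_nonneg_left h3 (by linarith : 0 ≤ 4 * (b + 1)),
    mul_le_mul_of_nonneg_left hc hg.le, mul_nonneg hX hg.le]

end Pool.Agent.P.MP_85fe51_lc.DA
end

-- part Pool.Agent.P.MP_85fe51_lc.DPP
section

set_option autoImplicit false

namespace Pool.Agent.P.MP_85fe51_lc.DA

open Finset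
open scoped Classical

variable {α : Type}

/-- least fragments. -/
theorem exists_frag (F : Finset (Finset α)) :
    ∃ T : Finset α → Finset α → Finset α, ∀ W : Finset α, ∀ B ∈ F,
      (∃ S ∈ F, S ⊆ W ∪ B ∧ T W B = S \ W) ∧
      ∀ S ∈ F, S ⊆ W ∪ B → (T W B).card ≤ (S \ W).card := by
  have h : ∀ W B : Finset α, ∃ H : Finset α, B ∈ F →
      ((∃ S ∈ F, S ⊆ W ∪ B ∧ H = S \ W) ∧
        ∀ S ∈ F, S ⊆ W ∪ B → H.card ≤ (S \ W).card) := by
    intro W B
    by_cases hB : B ∈ F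
    · obtain ⟨S, hS, hmin⟩ := Finset.exists_min_image (F.filter (fun S => S ⊆ W ∪ B))
        (fun S => (S \ W).card) ⟨B, mem_filter.2 ⟨hB, subset_union_right⟩⟩
      rw [mem_filter] at hS
      exact ⟨S \ W, fun _ => ⟨⟨S, hS.1, hS.2, rfl⟩,
        fun S' h1 h2 => hmin S' (mem_filter.2 ⟨h1, h2⟩)⟩⟩
    · exact ⟨∅, fun h => absurd h hB⟩
  choose T hT using h
  exact ⟨T, fun W B hB => hT W B hB⟩

theorem dpp_sum_inj {β γ : Type} (s : Finset β) (u : Finset γ) (f : β → ℝ) (g : γ → ℝ)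
    (e : β → γ) (he : Set.InjOn e s) (ht : ∀ i ∈ s, e i ∈ u) (h : ∀ i ∈ s, f i ≤ g (e i))
    (hg : ∀ a ∈ u, 0 ≤ g a) : ∑ i ∈ s, f i ≤ ∑ a ∈ u, g a := by
  refine (sum_le_sum h).trans ?_
  rw [← sum_image (s := s) (g := e) (f := g) he]
  exact sum_le_sum_of_subset_of_nonneg (image_subset_iff.2 ht) (fun a ha _ => hg a ha)

theorem dpp_shat (F : Finset (Finset α)) (n : ℕ) (hF : ∀ B ∈ F, B.card ≤ n) :
    ∃ Sh : Finset α → Finset α, ∀ Z, (Sh Z).card ≤ n ∧
      ((∃ S ∈ F, S ⊆ Z) → Sh Z ∈ F ∧ Sh Z ⊆ Z) := by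
  have h : ∀ Z : Finset α, ∃ Y : Finset α, Y.card ≤ n ∧
      ((∃ S ∈ F, S ⊆ Z) → Y ∈ F ∧ Y ⊆ Z) := by
    intro Z
    by_cases hZ : ∃ S ∈ F, S ⊆ Z
    · obtain ⟨S, h1, h2⟩ := hZ
      exact ⟨S, hF S h1, fun _ => ⟨h1, h2⟩⟩
    · exact ⟨∅, by simp, fun h => absurd h hZ⟩
  choose Sh hSh using h
  exact ⟨Sh, hSh⟩

theorem dpp_tail (t : ℕ) (Y : Finset α) (hY : Y.card ≤ 2 ^ (t + 1)) :
    ∑ H ∈ Y.powerset.filter (fun H => 2 ^ t ≤ H.card), ((1 : ℝ) / 32) ^ H.card
      ≤ (1 / 8) ^ (t + 1) := by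
  have h1 : ∑ H ∈ Y.powerset.filter (fun H => 2 ^ t ≤ H.card), ((1 : ℝ) / 32) ^ H.card
      ≤ (Y.powerset.filter (fun H => 2 ^ t ≤ H.card)).card • ((1 : ℝ) / 32) ^ (2 ^ t) := by
    apply sum_le_card_nsmul
    intro H hH
    exact pow_le_pow_of_le_one (by norm_num) (by norm_num) (mem_filter.1 hH).2
  have h2 : (Y.powerset.filter (fun H => 2 ^ t ≤ H.card)).card ≤ 4 ^ (2 ^ t) := by
    refine (card_filter_le _ _).trans ?_
    rw [card_powerset]
    calc 2 ^ Y.card ≤ 2 ^ (2 ^ (t + 1)) := Nat.pow_le_pow_right (by norm_num) hY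
      _ = 4 ^ (2 ^ t) := by rw [pow_succ', pow_mul]; norm_num
  have h3 : ((Y.powerset.filter (fun H => 2 ^ t ≤ H.card)).card : ℝ) ≤ 4 ^ (2 ^ t) := by
    exact_mod_cast h2
  rw [nsmul_eq_mul] at h1
  calc _ ≤ _ := h1
    _ ≤ 4 ^ (2 ^ t) * ((1 : ℝ) / 32) ^ (2 ^ t) :=
        mul_le_mul_of_nonneg_right h3 (by positivity)
    _ = (1 / 8) ^ (2 ^ t) := by rw [← mul_pow]; norm_num
    _ ≤ (1 / 8) ^ (t + 1) :=
        pow_le_pow_of_le_one (by norm_num) (by norm_num) (Nat.lt_two_pow_self)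

theorem dpp_wt {q : ℝ} (hq : 0 ≤ q) (h1 : 32 * q ≤ 1) (n a b : ℕ) :
    (32 * q) ^ a * (1 - 32 * q) ^ (n - a) * q ^ b ≤
      (32 * q) ^ (a + b) * (1 - 32 * q) ^ (n - (a + b)) * (1 / 32) ^ b := by
  have h0 : 0 ≤ 1 - 32 * q := by linarith
  have h2 : (1 - 32 * q) ^ (n - a) ≤ (1 - 32 * q) ^ (n - (a + b)) :=
    pow_le_pow_of_le_one h0 (by linarith) (by omega)
  have h3 : q ^ b = (32 * q) ^ b * (1 / 32) ^ b := by
    rw [← mul_pow]; congr 1; ring
  rw [h3, pow_add]
  have h4 : 0 ≤ (32 * q) ^ a * (32 * q) ^ b * (1 / 32 : ℝ) ^ b := by positivity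
  calc _ = (32 * q) ^ a * (32 * q) ^ b * (1 / 32 : ℝ) ^ b * (1 - 32 * q) ^ (n - a) := by ring
    _ ≤ (32 * q) ^ a * (32 * q) ^ b * (1 / 32 : ℝ) ^ b * (1 - 32 * q) ^ (n - (a + b)) :=
        mul_le_mul_of_nonneg_left h2 h4
    _ = _ := by ring

theorem frag_cost {q : ℝ} (hq : 0 ≤ q) (h1 : 32 * q ≤ 1) (X : Finset α) (t : ℕ)
    (F : Finset (Finset α)) (hF : ∀ B ∈ F, B ⊆ X ∧ B.card < 2 ^ (t + 1))
    (T : Finset α → Finset α → Finset α)
    (hT : ∀ W : Finset α, ∀ B ∈ F, (∃ S ∈ F, S ⊆ W ∪ B ∧ T W B = S \ W) ∧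
      ∀ S ∈ F, S ⊆ W ∪ B → (T W B).card ≤ (S \ W).card) :
    Ex (32 * q) X (fun W =>
      ∑ H ∈ (F.image (T W)).filter (fun H => 2 ^ t ≤ H.card), q ^ H.card) ≤ (1 / 8) ^ (t + 1) := by
  obtain ⟨Sh, hSh⟩ := dpp_shat F (2 ^ (t + 1)) (fun B hB => (hF B hB).2.le)
  have h0 : 0 ≤ 32 * q := by linarith
  have key : ∀ W H : Finset α, H ∈ F.image (T W) →
      Disjoint W H ∧ H ⊆ X ∧ H ⊆ Sh (W ∪ H) := by
    intro W H hH
    obtain ⟨B, hB, rfl⟩ := mem_image.1 hH
    obtain ⟨⟨S, hS, hSW, e⟩, hmin⟩ := hT W B hB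
    have hZ := (hSh (W ∪ T W B)).2 ⟨S, hS, by rw [e, union_sdiff_self_eq_union]; exact subset_union_right⟩
    have hsub : W ∪ T W B ⊆ W ∪ B := by
      rw [e]
      exact union_subset subset_union_left (sdiff_subset.trans hSW)
    have hc := hmin _ hZ.1 (hZ.2.trans hsub)
    have h2 : Sh (W ∪ T W B) \ W ⊆ T W B := by
      intro x hx
      rw [mem_sdiff] at hx
      exact (mem_union.1 (hZ.2 hx.1)).resolve_left hx.2
    have h3 := eq_of_subset_of_card_le h2 hc
    refine ⟨by rw [e]; exact disjoint_sdiff, by rw [e]; exact sdiff_subset.trans (hF S hS).1, ?_⟩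
    intro x hx
    rw [← h3] at hx
    exact (mem_sdiff.1 hx).1
  have main : Ex (32 * q) X (fun W =>
      ∑ H ∈ (F.image (T W)).filter (fun H => 2 ^ t ≤ H.card), q ^ H.card) ≤
      Ex (32 * q) X (fun Z => ∑ H ∈ (Sh Z).powerset.filter (fun H => 2 ^ t ≤ H.card),
        ((1 : ℝ) / 32) ^ H.card) := by
    simp only [Ex, mul_sum]
    rw [sum_sigma', sum_sigma']
    refine dpp_sum_inj _ _ _ _ (fun p => (⟨p.1 ∪ p.2, p.2⟩ : Σ _ : Finset α, Finset α)) ?_ ?_ ?_ ?_
    · rintro ⟨W, H⟩ hp ⟨W', H'⟩ hp' e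
      rw [mem_coe, mem_sigma, mem_filter] at hp hp'
      have d1 := (key W H hp.2.1).1
      have d2 := (key W' H' hp'.2.1).1
      simp only [Sigma.mk.injEq, heq_eq_eq] at e
      obtain ⟨e1, e2⟩ := e
      subst e2
      have : W = W' := by
        rw [← union_sdiff_cancel_right d1, e1, union_sdiff_cancel_right d2]
      rw [this]
    · rintro ⟨W, H⟩ hp
      rw [mem_sigma, mem_filter, mem_powerset] at hp
      obtain ⟨_, d2, d3⟩ := key W H hp.2.1
      rw [mem_sigma, mem_filter, mem_powerset, mem_powerset]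
      exact ⟨union_subset hp.1 d2, d3, hp.2.2⟩
    · rintro ⟨W, H⟩ hp
      rw [mem_sigma, mem_filter] at hp
      have d1 := (key W H hp.2.1).1
      dsimp only
      rw [card_union_of_disjoint d1]
      exact dpp_wt hq h1 _ _ _
    · intro a _
      have : 0 ≤ 1 - 32 * q := by linarith
      positivity
  refine main.trans ?_
  refine (Ex_mono h0 h1 X (g := fun _ => (1 / 8 : ℝ) ^ (t + 1)) ?_).trans (Ex_const _ _ _).le
  intro Z _
  exact dpp_tail t _ (hSh Z).1

theorem dpp_costly {q c : ℝ} (hq : 0 ≤ q) (t : ℕ) (F : Finset (Finset α)) (hc : Costly q c F)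
    (T : Finset α → Finset α) (W : Finset α)
    (hT : ∀ B ∈ F, ∃ S ∈ F, S ⊆ W ∪ B ∧ T B = S \ W) :
    Costly q (c - ∑ H ∈ (F.image T).filter (fun H => 2 ^ t ≤ H.card), q ^ H.card)
      ((F.image T).filter (fun H => H.card < 2 ^ t)) := by
  intro U hU1 hU2
  have hsub : ∀ H ∈ F.image T, ∃ S ∈ F, H ⊆ S := by
    intro H hH
    obtain ⟨B, hB, rfl⟩ := mem_image.1 hH
    obtain ⟨S, hS, _, e⟩ := hT B hB
    exact ⟨S, hS, by rw [e]; exact sdiff_subset⟩
  have hB : ∀ B ∈ F, T B ⊆ B := by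
    intro B hB x hx
    obtain ⟨S, _, hSW, e⟩ := hT B hB
    rw [e, mem_sdiff] at hx
    exact (mem_union.1 (hSW hx.1)).resolve_left hx.2
  have h := hc (U ∪ (F.image T).filter (fun H => 2 ^ t ≤ H.card)) ?_ ?_
  · have h2 := sum_union_inter (s₁ := U) (s₂ := (F.image T).filter (fun H => 2 ^ t ≤ H.card))
      (f := fun H => q ^ H.card)
    have h3 : 0 ≤ ∑ H ∈ U ∩ (F.image T).filter (fun H => 2 ^ t ≤ H.card), q ^ H.card :=
      sum_nonneg fun _ _ => by positivity
    linarith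
  · intro H hH
    rcases mem_union.1 hH with hH | hH
    · obtain ⟨B, hB, hHB⟩ := hU1 H hH
      obtain ⟨S, hS, hBS⟩ := hsub B (mem_filter.1 hB).1
      exact ⟨S, hS, hHB.trans hBS⟩
    · exact hsub H (mem_filter.1 hH).1
  · intro B hBF
    by_cases hs : (T B).card < 2 ^ t
    · obtain ⟨H, hH, hHB⟩ := hU2 (T B) (mem_filter.2 ⟨mem_image_of_mem _ hBF, hs⟩)
      exact ⟨H, mem_union_left _ hH, hHB.trans (hB B hBF)⟩
    · exact ⟨T B, mem_union_right _ (mem_filter.2 ⟨mem_image_of_mem _ hBF, not_lt.1 hs⟩),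
        hB B hBF⟩

theorem dpp_fail_nonneg {ρ : ℝ} (h0 : 0 ≤ ρ) (h1 : ρ ≤ 1) (X : Finset α) (t : ℕ)
    (F : Finset (Finset α)) :
    0 ≤ ExT ρ X t (fun R => if ∃ B ∈ F, B ⊆ R then 0 else 1) := by
  refine (ExT_const ρ X t 0).symm.le.trans (ExT_mono h0 h1 X t ?_)
  intro W _
  split_ifs <;> norm_num

theorem dpp_fail_le_one {ρ : ℝ} (h0 : 0 ≤ ρ) (h1 : ρ ≤ 1) (X : Finset α) (t : ℕ)
    (F : Finset (Finset α)) :
    ExT ρ X t (fun R => if ∃ B ∈ F, B ⊆ R then 0 else 1) ≤ 1 := by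
  refine le_trans (ExT_mono h0 h1 X t ?_) (ExT_const ρ X t 1).le
  intro W _
  split_ifs <;> norm_num

theorem park_pham {q : ℝ} (hq : 0 ≤ q) (h1 : 32 * q ≤ 1) (X : Finset α) (t : ℕ) :
    ∀ (F : Finset (Finset α)) (c : ℝ), (∀ B ∈ F, B ⊆ X ∧ B.card < 2 ^ t) → Costly q c F →
      c * ExT (32 * q) X t (fun R => if ∃ B ∈ F, B ⊆ R then 0 else 1) ≤ (1 - (1 / 8) ^ t) / 7 := by
  have h0 : 0 ≤ 32 * q := by linarith
  induction t with
  | zero =>
    intro F c hF hc
    simp only [ExT, pow_zero, sub_self, zero_div]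
    split_ifs with h
    · simp
    · have := hc ∅ (by simp) (fun B hB => by
        exfalso
        apply h
        have h2 := (hF B hB).2
        rw [pow_zero, Nat.lt_one_iff, card_eq_zero] at h2
        exact ⟨B, hB, by rw [h2]⟩)
      simpa using this
  | succ t ih =>
    intro F c hF hc
    rcases le_total c 0 with hc0 | hc0
    · refine le_trans (mul_nonpos_of_nonpos_of_nonneg hc0 (dpp_fail_nonneg h0 h1 X _ F)) ?_
      have : ((1 : ℝ) / 8) ^ (t + 1) ≤ 1 := pow_le_one₀ (by norm_num) (by norm_num)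
      linarith
    obtain ⟨T, hT⟩ := exists_frag F
    have hcost := frag_cost hq h1 X t F hF T hT
    rw [ExT, ← Ex_mul]
    have hstep : Ex (32 * q) X (fun W => c * ExT (32 * q) X t
        (fun R => if ∃ B ∈ F, B ⊆ W ∪ R then 0 else 1)) ≤
        Ex (32 * q) X (fun W => (1 - (1 / 8) ^ t) / 7 +
          ∑ H ∈ (F.image (T W)).filter (fun H => 2 ^ t ≤ H.card), q ^ H.card) := by
      apply Ex_mono h0 h1
      intro W _
      have hC := dpp_costly hq t F hc (T W) W (fun B hB => (hT W B hB).1)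
      obtain ⟨FW, hFW⟩ : ∃ FW, FW = (F.image (T W)).filter (fun H => H.card < 2 ^ t) := ⟨_, rfl⟩
      rw [← hFW] at hC
      have hI := ih FW _ (fun H hH => by
        rw [hFW, mem_filter] at hH
        obtain ⟨B, hB, rfl⟩ := mem_image.1 hH.1
        obtain ⟨S, hS, _, e⟩ := (hT W B hB).1
        exact ⟨by rw [e]; exact sdiff_subset.trans (hF S hS).1, hH.2⟩) hC
      have hm : ExT (32 * q) X t (fun R => if ∃ B ∈ F, B ⊆ W ∪ R then 0 else 1) ≤
          ExT (32 * q) X t (fun R => if ∃ B ∈ FW, B ⊆ R then 0 else 1) := by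
        apply ExT_mono h0 h1
        intro R _
        split_ifs with a1 a2 a2
        · exact le_rfl
        · norm_num
        · exfalso
          apply a1
          obtain ⟨H, hH, hR⟩ := a2
          rw [hFW] at hH
          obtain ⟨B, hB, rfl⟩ := mem_image.1 (mem_filter.1 hH).1
          obtain ⟨S, hS, _, e⟩ := (hT W B hB).1
          refine ⟨S, hS, fun x hx => ?_⟩
          by_cases hxW : x ∈ W
          · exact mem_union_left _ hxW
          · exact mem_union_right _ (hR (by rw [e]; exact mem_sdiff.2 ⟨hx, hxW⟩))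
        · exact le_rfl
      have e1 := dpp_fail_le_one h0 h1 X t FW
      have e2 : 0 ≤ ∑ H ∈ (F.image (T W)).filter (fun H => 2 ^ t ≤ H.card), q ^ H.card :=
        sum_nonneg fun _ _ => by positivity
      have e3 := mul_le_mul_of_nonneg_left hm hc0
      have e4 := mul_le_mul_of_nonneg_left e1 e2
      rw [sub_mul] at hI
      linarith
    rw [Ex_add, Ex_const] at hstep
    refine hstep.trans ?_
    rw [pow_succ] at hcost ⊢
    linarith

theorem pp_select {ι : Type} {q : ℝ} (hq : 0 ≤ q) (X : Finset α) (t : ℕ) (ht : 1 ≤ t)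
    (Good : Finset ι) (F : ι → Finset (Finset α))
    (hF : ∀ i ∈ Good, ∀ B ∈ F i, B ⊆ X ∧ B.card < 2 ^ t) (hc : ∀ i ∈ Good, Costly q 1 (F i)) :
    ∃ R : Finset α, R ⊆ X ∧ (R.card : ℝ) ≤ 2 * t * (32 * q) * X.card + 2 ∧
      Good.card ≤ 2 * (Good.filter (fun i => ∃ B ∈ F i, B ⊆ R)).card := by
  have h0 : 0 ≤ 32 * q := by linarith
  rcases le_total (32 * q) 1 with h1 | h1
  · obtain ⟨R, hR, h2, h3⟩ := select_of_fail h0 h1 X t Good (fun i R => ∃ B ∈ F i, B ⊆ R) (by
      intro i hi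
      have h := park_pham hq h1 X t (F i) 1 (hF i hi) (hc i hi)
      have h4 : (0 : ℝ) ≤ (1 / 8) ^ t := by positivity
      refine le_trans (ExT_mono h0 h1 X t
        (g := fun R => if ∃ B ∈ F i, B ⊆ R then 0 else 1) ?_) (by linarith)
      intro W _
      by_cases hW : ∃ B ∈ F i, B ⊆ W
      · simp only [if_pos hW]; exact le_rfl
      · simp only [if_neg hW]; exact le_rfl)
    refine ⟨R, hR, h2, h3.trans (Nat.mul_le_mul_left 2 (card_le_card ?_))⟩
    intro i hi
    simp only [mem_filter] at hi ⊢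
    exact hi
  · refine ⟨X, Subset.rfl, ?_, ?_⟩
    · have ht' : (1 : ℝ) ≤ t := by exact_mod_cast ht
      have h2 : (1 : ℝ) ≤ 2 * t * (32 * q) := by nlinarith
      have h3 : (0 : ℝ) ≤ X.card := by positivity
      nlinarith
    · have : Good ⊆ Good.filter (fun i => ∃ B ∈ F i, B ⊆ X) := by
        intro i hi
        refine mem_filter.2 ⟨hi, ?_⟩
        by_contra hn
        have := hc i hi ∅ (by simp) (fun B hB => absurd ⟨B, hB, (hF i hi B hB).1⟩ hn)
        rw [sum_empty] at this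
        linarith
      have := card_le_card this
      omega

end Pool.Agent.P.MP_85fe51_lc.DA
end
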