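import Mathlib
import Pool.Agent.K.MP_85fe51_lc.C0

-- part Pool.Agent.P.MP_85fe51_lc.ODefs
section

set_option autoImplicit false

/-! Definitions for the superlinear bound over abelian-by-p-groups. -/

namespace Pool.Agent.P.MP_85fe51_lc.OD

open Finset
open scoped Classical

abbrev Vec (p : ℕ) (X : Type) : Type := X → ZMod p

abbrev Sub (p : ℕ) (X : Type) : Type := Submodule (ZMod p) (X → ZMod p)

/-- probability of `P` under the uniform law on `s`. -/
noncomputable def pr {Ω : Type} (s : Finset Ω) (P : Ω → Prop) : ℝ :=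
  s.expect (fun x => if P x then (1 : ℝ) else 0)

/-- expectation under the product of the weights `w i`. -/
noncomputable def Ew {X L : Type} [Fintype X] [DecidableEq X] [Fintype L] (w : X → L → ℝ)
    (F : (X → L) → ℝ) : ℝ :=
  ∑ l : X → L, (∏ i, w i (l i)) * F l

/-- probability under the product of the weights `w i`. -/
noncomputable def Pw {X L : Type} [Fintype X] [DecidableEq X] [Fintype L] (w : X → L → ℝ)
    (P : (X → L) → Prop) : ℝ :=
  Ew w (fun l => if P l then 1 else 0)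

/-- every `w i` is a probability vector. -/
def IsW {X L : Type} [Fintype L] (w : X → L → ℝ) : Prop :=
  (∀ i l, 0 ≤ w i l) ∧ ∀ i, ∑ l, w i l = 1

/-- all `d`-fold differences along disjoint admissible subsets of `Y` lie in `Z`. -/
def DL {ι V : Type} [DecidableEq ι] [AddCommGroup V] (Z : AddSubgroup V) (Kp : Finset ι → Prop) :
    ℕ → Finset ι → (Finset ι → V) → Prop
  | 0, Y, f => ∀ A, A ⊆ Y → Kp A → f A ∈ Z
  | d + 1, Y, f => ∀ B, B ⊆ Y → Kp B → DL Z Kp d (Y \ B) (fun A => f (A ∪ B) - f A)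

def sgn {k : ℕ} (ε : Fin k → Bool) : ℤ := ∏ b, if ε b then -1 else 1

def NoP (p : ℕ) (V : Type) [AddCommGroup V] : Prop := ∀ v : V, p • v = 0 → v = 0

noncomputable def piK (p k : ℕ) : ℝ := (1 - 1 / (p : ℝ)) ^ k

section
variable {p : ℕ} [Fact p.Prime]

noncomputable def ch (s : ZMod p) : ℂ := ZMod.stdAddChar s

def SZ {V : Type} [AddCommGroup V] (w : ZMod p → V) : Prop := ∑ s, w s = 0

variable {X : Type} [Fintype X] [DecidableEq X]

def dot (η : Vec p X) (A : Finset X) : ZMod p := ∑ i ∈ A, η i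

def supp (η : Vec p X) : Finset X := univ.filter (fun i => η i ≠ 0)

def wt (η : Vec p X) : ℕ := (supp η).card

def co (J : Finset X) : Sub p X where
  carrier := {η | ∀ i, i ∉ J → η i = 0}
  add_mem' := by
    intro a b ha hb i hi
    rw [Pi.add_apply, ha i hi, hb i hi, add_zero]
  zero_mem' := by
    intro i _
    rfl
  smul_mem' := by
    intro c x hx i hi
    rw [Pi.smul_apply, hx i hi, smul_zero]

def off (J : Finset X) : Vec p X →ₗ[ZMod p] Vec p X where
  toFun η := fun i => if i ∈ J then 0 else η i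
  map_add' a b := by
    funext i
    by_cases h : i ∈ J <;> simp [h]
  map_smul' c a := by
    funext i
    by_cases h : i ∈ J <;> simp [h]

noncomputable def wtm (H : Sub p X) (v : Vec p X) : ℕ := sInf {n | ∃ η ∈ H, wt (v + η) = n}

noncomputable def dO (H : Sub p X) (J : Finset X) : ℕ := Module.finrank (ZMod p) ↥(H.map (off J))

noncomputable def fC (C : ℕ) (H : Sub p X) (J : Finset X) : ℕ := J.card + C * dO H J

noncomputable def rho (C : ℕ) (H : Sub p X) : ℕ := sInf {n | ∃ J, fC C H J = n}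

noncomputable def Jmax (C : ℕ) (H : Sub p X) : Finset X :=
  univ.filter (fun i => ∃ J, fC C H J = rho C H ∧ i ∈ J)

noncomputable def marg (C : ℕ) (H : Sub p X) (v : Vec p X) : ℕ :=
  rho C (H ⊔ Submodule.span (ZMod p) {v}) - rho C H

def Safe (C : ℕ) (H : Sub p X) : Prop :=
  ∀ J : Finset X, C * Module.finrank (ZMod p) ↥(H ⊓ co J) ≤ J.card

def SafeOn (a : Finset X) (C : ℕ) (H : Sub p X) : Prop :=
  ∀ N : Sub p X, N ≤ H →
    C * Module.finrank (ZMod p) ↥N ≤ (a.filter (fun i => ∃ η ∈ N, η i ≠ 0)).card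

noncomputable def elts (H : Sub p X) : Finset (Vec p X) := univ.filter (fun η => η ∈ H)

noncomputable def cenum (θ : ℝ) (μ : Vec p X) (H : Sub p X) (a : Finset X) : ℝ :=
  ∑ η ∈ elts H, θ ^ (supp (μ + η) ∩ a).card

noncomputable def enum (θ : ℝ) (H : Sub p X) (a : Finset X) : ℝ :=
  ∑ η ∈ elts H, θ ^ (supp η ∩ a).card

def KerP (U : Sub p X) (A : Finset X) : Prop := ∀ η ∈ U, dot η A = 0

noncomputable def Ker (U : Sub p X) (a : Finset X) : Finset (Finset X) :=
  a.powerset.filter (fun A => KerP U A)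

noncomputable def fib (H : Sub p X) (a A0 : Finset X) : Finset (Finset X) :=
  a.powerset.filter (fun A => ∀ η ∈ H, dot η A = dot η A0)

variable {T : Type}

def spn (lam : T → Vec p X) (F : Finset T) : Sub p X :=
  Submodule.span (ZMod p) (lam '' (F : Set T))

def Sf [Fintype T] {V : Type} [AddCommGroup V] (lam : T → Vec p X) (phi : T → ZMod p → V)
    (A : Finset X) : V := ∑ t, phi t (dot (lam t) A)

end

/-- decay of characters on the cube. -/
def ThC (p : ℕ) [Fact p.Prime] (θ : ℝ) : Prop :=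
  0 ≤ θ ∧ θ < 1 ∧ ∀ (X : Type) [Fintype X] [DecidableEq X] (a : Finset X) (μ : Vec p X),
    ‖a.powerset.expect (fun A => ch (dot μ A))‖ ≤ θ ^ (supp μ ∩ a).card

/-- decay of characters twisted by a low degree phase of exponent `m`. -/
def ThB (p : ℕ) [Fact p.Prime] (m c : ℕ) (θ : ℝ) : Prop :=
  0 ≤ θ ∧ θ < 1 ∧ ∀ (X : Type) [Fintype X] [DecidableEq X] (V : Type) [AddCommGroup V],
    (∀ v : V, m • v = 0) → ∀ (τ : AddChar V ℂ) (a : Finset X) (P : Finset X → V) (μ : Vec p X),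
      DL ⊥ (fun _ => True) (c + 1) a P →
      ‖a.powerset.expect (fun A => τ (P A) * ch (dot μ A))‖ ≤ θ ^ (supp μ ∩ a).card

/-- Fourier coefficients of a nonzero sum-zero phase. -/
def Gam (p : ℕ) [Fact p.Prime] (m : ℕ) (γ : ℝ) : Prop :=
  0 ≤ γ ∧ γ < 1 ∧ ∀ (V : Type) [AddCommGroup V], (∀ v : V, m • v = 0) →
    ∀ (ψ : AddChar V ℂ), (∀ v, ψ v = 1 → v = 0) → ∀ w : ZMod p → V, SZ w → w ≠ 0 →
      ∀ i : ZMod p, ‖(univ : Finset (ZMod p)).expect (fun s => ch (-(i * s)) * ψ (w s))‖ ≤ γ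

/-- low degree maps on `j` bits repeat their value at the empty set. -/
def OlsJ (c M0 j : ℕ) : Prop :=
  ∀ (V : Type) [AddCommGroup V] [Fintype V], Fintype.card V ≤ M0 →
    ∀ (Z : AddSubgroup V) (ι : Type) [DecidableEq ι] (I : Finset ι) (f : Finset ι → V),
      j ≤ I.card → DL Z (fun _ => True) (c + 1) I f → ∃ g, g ⊆ I ∧ g.Nonempty ∧ f g - f ∅ ∈ Z

abbrev Atom (k j : ℕ) : Type := Fin (k + 1) × Fin j

abbrev Lab (k j : ℕ) : Type := Option (Atom k j × Bool)

abbrev Cp (k j : ℕ) : Type := Atom k j ⊕ Fin k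

/-- a set of atoms with a chosen member in every batch. -/
structure Pat (k j : ℕ) where
  g : Finset (Atom k j)
  ix : Fin (k + 1) → Fin j
  mem : ∀ b, (b, ix b) ∈ g

namespace Pat
variable {k j : ℕ} (P : Pat k j)

def a0 : Atom k j := (0, P.ix 0)

def ab (b : Fin k) : Atom k j := (b.succ, P.ix b.succ)

def Sg : Finset (Atom k j) := P.g.filter (fun a => ∀ b, a ≠ P.ab b)

def cp (b : Fin k) (e : Bool) : Cp k j := if e then Sum.inr b else Sum.inl (P.ab b)

def atm : Cp k j → Atom k j := Sum.elim id P.ab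

end Pat

noncomputable def nu (k j : ℕ) (τ : ℝ) : Lab k j → ℝ
  | none => 1 / 2
  | some (a, e) => (if a.1 = 0 then 1 / (4 * j : ℝ) else 1 / (4 * j * k : ℝ)) *
      (if e then τ else 1 - τ)

/-- second copies replace the first ones where `ε` is true. -/
noncomputable def mix {A Ω : Type} {k : ℕ} (ab : Fin k → A) (ω : A ⊕ Fin k → Ω)
    (ε : Fin k → Bool) : A → Ω :=
  fun a => if h : ∃ b, ab b = a ∧ ε b = true then ω (Sum.inr h.choose) else ω (Sum.inl a)

section
variable {p : ℕ} [Fact p.Prime] {X : Type} [Fintype X] [DecidableEq X] {T : Type} {k j : ℕ}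

def atomSet (Y : Finset X) (l : X → Lab k j) (a : Atom k j) : Finset X :=
  Y.filter (fun i => l i = some (a, false) ∨ l i = some (a, true))

def subSet (Y : Finset X) (l : X → Lab k j) (a : Atom k j) : Finset X :=
  Y.filter (fun i => l i = some (a, true))

def cset (P : Pat k j) (Y : Finset X) (l : X → Lab k j) (κ : Cp k j) : Finset X :=
  atomSet Y l (P.atm κ)

def sval (P : Pat k j) (s : Cp k j → ZMod p) (ε : Fin k → Bool) : ZMod p :=
  ∑ a ∈ P.Sg, s (Sum.inl a) + ∑ b, s (P.cp b (ε b))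

def val (P : Pat k j) (v : Vec p X) (x : Cp k j → Finset X) (ε : Fin k → Bool) : ZMod p :=
  sval P (fun κ => dot v (x κ)) ε

def Surv (P : Pat k j) (v : Vec p X) (x : Cp k j → Finset X) : Prop :=
  ∀ b, dot v (x (P.cp b false)) ≠ dot v (x (P.cp b true))

def Phi {V : Type} [AddCommGroup V] (P : Pat k j) (phi : T → ZMod p → V) (Tt : Finset T)
    (u : T → ZMod p) (d : T → Vec p X) (ω : Cp k j → Finset X × ZMod p) (y : ZMod p) : V :=
  ∑ ε : Fin k → Bool, sgn ε • ∑ t ∈ Tt,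
    phi t (u t * (y + sval P (fun κ => (ω κ).2) ε) + val P (d t) (fun κ => (ω κ).1) ε)

/-- the sample space of the free model. -/
def FSp (p : ℕ) [Fact p.Prime] (a : Cp k j → Finset X) : Finset (Cp k j → Finset X × ZMod p) :=
  Fintype.piFinset (fun κ => (a κ).powerset ×ˢ (univ : Finset (ZMod p)))

def FSurv (P : Pat k j) (δ : Vec p X) (ω : Cp k j → Finset X × ZMod p) : Prop :=
  ∀ b, (ω (P.cp b false)).2 + dot δ (ω (P.cp b false)).1 ≠
    (ω (P.cp b true)).2 + dot δ (ω (P.cp b true)).1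

def useSet (P : Pat k j) (x : Cp k j → Finset X) (ε : Fin k → Bool) : Finset X :=
  P.Sg.biUnion (fun a => x (Sum.inl a)) ∪ univ.biUnion (fun b => x (P.cp b (ε b)))

/-- the free probability of a cluster. -/
noncomputable def pf {V : Type} [AddCommGroup V] (P : Pat k j) (phi : T → ZMod p → V)
    (Tt : Finset T) (u : T → ZMod p) (d : T → Vec p X) (a : Cp k j → Finset X) : ℝ :=
  pr (FSp p a)
    (fun ω => (∀ b, (ω (P.cp b false)).2 ≠ (ω (P.cp b true)).2) ∧ ∃ y, Phi P phi Tt u d ω y ≠ 0)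

variable [Fintype T]

def DS {V : Type} [AddCommGroup V] (P : Pat k j) (lam : T → Vec p X) (phi : T → ZMod p → V)
    (x : Cp k j → Finset X) : V :=
  ∑ ε : Fin k → Bool, sgn ε • ∑ t, phi t (val P (lam t) x ε)

noncomputable def Rs (P : Pat k j) (lam : T → Vec p X) (x : Cp k j → Finset X) : Finset T :=
  univ.filter (fun t => Surv P (lam t) x)

noncomputable def MidS (U : Sub p X) (lam : T → Vec p X) (CH : ℕ) (e : T) : Finset T :=
  univ.filter (fun t => ∃ u : ZMod p, u ≠ 0 ∧ wtm U (lam t - u • lam e) ≤ 4 * CH)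

noncomputable def JtS (U : Sub p X) (lam : T → Vec p X) (CH : ℕ) (Γ : Finset T) : Finset X :=
  Jmax (2 * CH) (U ⊔ spn lam Γ)

noncomputable def HtS (U : Sub p X) (lam : T → Vec p X) (CH : ℕ) (Γ : Finset T) : Sub p X :=
  (U ⊔ spn lam Γ) ⊔ co (JtS U lam CH Γ)

def MovedS (U : Sub p X) (lam : T → Vec p X) (CH : ℕ) (Γ : Finset T) (e : T) : Prop :=
  wtm (HtS U lam CH Γ) (lam e) < 9 * CH ∨ ∃ t, ∃ u : ZMod p, u ≠ 0 ∧
    min (4 * CH + 1) (wtm (HtS U lam CH Γ) (lam t - u • lam e)) <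
      min (4 * CH + 1) (wtm U (lam t - u • lam e))

end

/-- an extremal state. -/
structure Ext (p : ℕ) [Fact p.Prime] (X : Type) [Fintype X] [DecidableEq X] (T : Type)
    [Fintype T] where
  lam : T → Vec p X
  Y : Finset X
  U : Sub p X
  CH : ℕ
  r : ℕ
  M4 : ℕ
  K1 : ℕ
  K : ℕ
  uu : T → T → ZMod p
  dd : T → T → Vec p X
  dl : T → Vec p X
  hr : 8 * r < CH
  hY : co Yᶜ ≤ U
  safe : Safe (4 * CH) (U.map (off Yᶜ))
  mid : ∀ e, 9 * CH ≤ wtm U (lam e) → (MidS U lam CH e).card ≤ M4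
  e2 : ∀ Γ : Finset T,
    (univ.filter (fun t => marg CH (U ⊔ spn lam Γ) (lam t) < marg CH U (lam t))).card ≤ K1 * Γ.card
  e3 : ∀ Γ : Finset T,
    (univ.filter (fun e => 9 * CH ≤ wtm U (lam e) ∧ MovedS U lam CH Γ e)).card ≤ K * Γ.card
  rep : ∀ e, ∀ t ∈ MidS U lam CH e, uu e t ≠ 0 ∧ lam t - uu e t • lam e - dd e t ∈ U ∧
    supp (dd e t) ⊆ Y ∧ wt (dd e t) = wtm U (lam t - uu e t • lam e) ∧ wt (dd e t) ≤ 4 * CH
  repl : ∀ t, lam t - dl t ∈ U ∧ supp (dl t) ⊆ Y ∧ wt (dl t) = wtm U (lam t)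

namespace Ext
variable {p : ℕ} [Fact p.Prime] {X : Type} [Fintype X] [DecidableEq X] {T : Type} [Fintype T]
  (σ : Ext p X T)

def Heavy (e : T) : Prop := 9 * σ.CH ≤ wtm σ.U (σ.lam e)

noncomputable def Mid (e : T) : Finset T := MidS σ.U σ.lam σ.CH e

noncomputable def Jt (Γ : Finset T) : Finset X := JtS σ.U σ.lam σ.CH Γ

noncomputable def Ht (Γ : Finset T) : Sub p X := HtS σ.U σ.lam σ.CH Γ

def Moved (Γ : Finset T) (e : T) : Prop := MovedS σ.U σ.lam σ.CH Γ e

noncomputable def LCl (e : T) : Finset T := (σ.Mid e).filter (fun t => wt (σ.dd e t) ≤ σ.r)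

noncomputable def Qs (e : T) : Finset X := (σ.LCl e).biUnion (fun t => supp (σ.dd e t))

def Free (F : Finset T) : Prop :=
  rho σ.CH (σ.U ⊔ spn σ.lam F) = rho σ.CH σ.U + ∑ t ∈ F, marg σ.CH σ.U (σ.lam t)

def Lt (t : T) : Prop := wtm σ.U (σ.lam t) < σ.CH

noncomputable def JF (F : Finset T) : Finset X :=
  σ.Yᶜ ∪ (F.filter σ.Lt).biUnion (fun t => supp (σ.dl t))

noncomputable def HF (F : Finset T) : Sub p X := (σ.U ⊔ spn σ.lam F).map (off (σ.JF F))

noncomputable def U' : Sub p X := σ.U.map (off σ.Yᶜ)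

/-- a separated family of heavy terms. -/
def SeqOK (Seq : Finset T) : Prop :=
  ∀ e ∈ Seq, σ.Heavy e ∧ ¬ σ.Moved ((Seq.erase e).biUnion σ.Mid) e

noncomputable def past (Seq : Finset T) (i : T) : Finset T :=
  (Seq.filter (fun e => Fintype.equivFin T e < Fintype.equivFin T i)).biUnion σ.Mid

def Hit (a : Finset X) (C' : ℕ) (e : T) (H : Sub p X) : Prop :=
  marg C' (H ⊔ co aᶜ) (σ.lam e) < C' ∨ ¬ Disjoint (σ.Qs e ∩ a) (Jmax C' (H ⊔ co aᶜ))

variable {k j : ℕ} {V : Type} [AddCommGroup V]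

noncomputable def pfe (P : Pat k j) (phi : T → ZMod p → V) (e : T) (l : X → Lab k j) : ℝ :=
  pf P phi (σ.LCl e) (σ.uu e) (σ.dd e) (cset P σ.Y l)

noncomputable def abar (P : Pat k j) (phi : T → ZMod p → V) (τ : ℝ) (e : T) : ℝ :=
  Ew (fun _ => nu k j τ) (σ.pfe P phi e)

def Good (c1 : ℕ) (l : X → Lab k j) (e : T) : Prop :=
  ∀ t ∈ σ.LCl e, ∀ a : Atom k j, (supp (σ.dd e t) ∩ subSet σ.Y l a).card ≤ c1

noncomputable def Om (P : Pat k j) (l : X → Lab k j) : Finset (Cp k j → Finset X) :=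
  Fintype.piFinset (fun κ => Ker σ.U (cset P σ.Y l κ))

def Act (P : Pat k j) (phi : T → ZMod p → V) (c1 : ℕ) (l : X → Lab k j) (e : T)
    (x : Cp k j → Finset X) : Prop :=
  σ.Good c1 l e ∧ Surv P (σ.lam e) x ∧
    (∀ t ∈ σ.Mid e, t ∉ σ.LCl e → ¬ Surv P (σ.lam t) x) ∧
    ∃ y, Phi P phi (σ.LCl e) (σ.uu e) (σ.dd e) (fun κ => (x κ, dot (σ.lam e) (x κ))) y ≠ 0

noncomputable def inner (P : Pat k j) (phi : T → ZMod p → V) (ψ : AddChar V ℂ)
    (l : X → Lab k j) (x : Cp k j → Finset X) : ℂ :=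
  (fib (σ.U ⊔ co (subSet σ.Y l P.a0)ᶜ) (atomSet σ.Y l P.a0) (x (Sum.inl P.a0))).expect
    (fun A => ψ (DS P σ.lam phi (Function.update x (Sum.inl P.a0) A)))

noncomputable def de (e t : T) : Vec p X := (σ.uu e t)⁻¹ • σ.dd e t

/-- a functional supported in `Tp` that sees the cluster of `t0` only. -/
def Cert (phi : T → ZMod p → V) (Tp : Finset X) (t0 : T) : Prop :=
  ∃ (Λ : Type) (_ : Fintype Λ) (n : Λ → ℤ) (s : Λ → ZMod p) (z : Λ → Finset X),
    (∀ l, z l ⊆ Tp ∩ σ.Y) ∧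
    (∃ y, ∑ l, n l • ∑ t ∈ σ.LCl t0,
      phi t (σ.uu t0 t * (y + s l) + dot (σ.dd t0 t) (z l)) ≠ 0) ∧
    ∀ t ∈ σ.Mid t0, t ∉ σ.LCl t0 → ∀ y,
      ∑ l, n l • phi t (σ.uu t0 t * (y + s l) + dot (σ.dd t0 t) (z l)) = 0

/-- typical labels. -/
structure Typ (P : Pat k j) (phi : T → ZMod p → V) (Seq : Finset T) (θ ε μ : ℝ) (c1 C' : ℕ)
    (l : X → Lab k j) : Prop where
  t1 : ∀ a, enum θ σ.U' (subSet σ.Y l a) ≤ 1 + ε
  t2 : ∀ i ∈ Seq, ∀ a, enum θ ((σ.Ht (σ.past Seq i) ⊔ Submodule.span (ZMod p) {σ.lam i}).map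
    (off (σ.Jt (σ.past Seq i)))) (subSet σ.Y l a) ≤ 1 + ε
  t3 : ∀ i ∈ Seq, ∀ t ∈ σ.Mid i, t ∉ σ.LCl i → ∀ u u' : ZMod p, (u ≠ 0 ∨ u' ≠ 0) → ∀ b,
    cenum θ (off (σ.Jt (σ.past Seq i)) (u • σ.lam i + u' • σ.lam t))
      ((σ.Ht (σ.past Seq i)).map (off (σ.Jt (σ.past Seq i)))) (atomSet σ.Y l (P.ab b)) ≤ ε
  t4 : ∀ F : Finset T, σ.Free F → F.Nonempty → ∀ b,
    enum θ (σ.HF F) (atomSet σ.Y l (P.ab b)) ^ (4 * k) ≤ 2 ^ F.card
  t5 : SafeOn (subSet σ.Y l P.a0) (2 * C') ((σ.U ⊔ spn σ.lam Seq).map (off σ.Yᶜ))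
  t6 : ∏ i ∈ Seq, (1 - (if σ.Good c1 l i then σ.pfe P phi i l else 0) / 2) ≤ Real.exp (-μ / 8)

end Ext

def prog {X G : Type} [DecidableEq X] [Group G] (l : List (X × G × G)) (A : Finset X) : G :=
  (l.map (fun q => if q.1 ∈ A then q.2.1 else q.2.2)).prod

end Pool.Agent.P.MP_85fe51_lc.OD
end

-- part Pool.Agent.P.MP_85fe51_lc.ORho
section

set_option autoImplicit false

namespace Pool.Agent.P.MP_85fe51_lc.OD

open Finset
open scoped Classical

variable {p : ℕ} [Fact p.Prime] {X : Type} [Fintype X] [DecidableEq X]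

theorem mem_supp {η : Vec p X} {i : X} : i ∈ supp η ↔ η i ≠ 0 := by
  simp [supp]

theorem mem_co {J : Finset X} {η : Vec p X} : η ∈ (co J : Sub p X) ↔ ∀ i, i ∉ J → η i = 0 := Iff.rfl

theorem mem_co_iff {J : Finset X} {η : Vec p X} : η ∈ (co J : Sub p X) ↔ supp η ⊆ J := by
  rw [mem_co]
  constructor
  · intro h i hi
    by_contra hj
    exact mem_supp.1 hi (h i hj)
  · intro h i hi
    by_contra hne
    exact hi (h (mem_supp.2 hne))

theorem off_apply (J : Finset X) (η : Vec p X) (i : X) : off J η i = if i ∈ J then 0 else η i := rfl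

theorem supp_off (J : Finset X) (η : Vec p X) : supp (off J η) = supp η \ J := by
  ext i
  rw [mem_sdiff, mem_supp, mem_supp, off_apply]
  by_cases h : i ∈ J <;> simp [h]

theorem sub_off_mem (J : Finset X) (η : Vec p X) : η - off J η ∈ (co J : Sub p X) := by
  intro i hi
  rw [Pi.sub_apply, off_apply, if_neg hi, sub_self]

theorem co_mono {J J' : Finset X} (h : J ⊆ J') : (co J : Sub p X) ≤ co J' := by
  intro η hη i hi
  exact hη i (fun hj => hi (h hj))

theorem co_union (J J' : Finset X) : (co (J ∪ J') : Sub p X) = co J ⊔ co J' := by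
  apply le_antisymm
  · intro η hη
    have e : η = (η - off J η) + off J η := by abel
    rw [e]
    refine Submodule.add_mem_sup (sub_off_mem J η) ?_
    intro i hi
    rw [off_apply]
    by_cases h : i ∈ J
    · rw [if_pos h]
    · rw [if_neg h]
      exact hη i (by simp [h, hi])
  · exact sup_le (co_mono subset_union_left) (co_mono subset_union_right)

theorem finrank_co (J : Finset X) : Module.finrank (ZMod p) ↥(co J : Sub p X) = J.card := by
  let e : ↥(co J : Sub p X) ≃ₗ[ZMod p] (↥J → ZMod p) :=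
    { toFun := fun η i => η.1 i.1
      map_add' := fun _ _ => rfl
      map_smul' := fun _ _ => rfl
      invFun := fun f => ⟨fun i => if h : i ∈ J then f ⟨i, h⟩ else 0, fun i hi => dif_neg hi⟩
      left_inv := by
        intro η
        apply Subtype.ext
        funext i
        by_cases h : i ∈ J
        · exact dif_pos h
        · exact (dif_neg h).trans (η.2 i h).symm
      right_inv := by
        intro f
        funext i
        exact dif_pos i.2 }
  rw [e.finrank_eq, Module.finrank_fintype_fun_eq_card, Fintype.card_coe]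

theorem orho_ker (J : Finset X) : LinearMap.ker (off J) = (co J : Sub p X) := by
  ext η
  rw [LinearMap.mem_ker, mem_co]
  constructor
  · intro h i hi
    have := congrFun h i
    rwa [off_apply, if_neg hi] at this
  · intro h
    funext i
    rw [off_apply]
    by_cases hi : i ∈ J
    · rw [if_pos hi]; rfl
    · rw [if_neg hi, h i hi]; rfl

theorem orho_rank (H : Sub p X) (J : Finset X) :
    Module.finrank (ZMod p) ↥(H.map (off J)) + Module.finrank (ZMod p) ↥(H ⊓ co J) =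
      Module.finrank (ZMod p) ↥H := by
  have h := LinearMap.finrank_range_add_finrank_ker ((off J).domRestrict H)
  rw [LinearMap.range_domRestrict, LinearMap.ker_domRestrict, orho_ker,
    ← Submodule.finrank_map_subtype_eq H, Submodule.map_comap_subtype] at h
  exact h

theorem orho_off_off (J J' : Finset X) :
    (off (J ∪ J') : Vec p X →ₗ[ZMod p] Vec p X) = (off J').comp (off J) := by
  apply LinearMap.ext
  intro η
  funext i
  rw [LinearMap.comp_apply, off_apply, off_apply, off_apply]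
  by_cases h : i ∈ J <;> by_cases h' : i ∈ J' <;> simp [h, h']

theorem orho_co_inter (J J' : Finset X) : (co (J ∩ J') : Sub p X) = co J ⊓ co J' :=
  le_antisymm (le_inf (co_mono inter_subset_left) (co_mono inter_subset_right)) (by
    intro η hη i hi
    by_cases h : i ∈ J
    · exact hη.2 i (fun h' => hi (mem_inter.2 ⟨h, h'⟩))
    · exact hη.1 i h)

theorem map_off_sup_co (H : Sub p X) (J : Finset X) :
    (H ⊔ co J).map (off J) = H.map (off J) := by
  rw [Submodule.map_sup]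
  have h : (co J : Sub p X).map (off J) = ⊥ := by
    rw [← orho_ker J]
    exact (Submodule.map_le_iff_le_comap.2 (le_of_eq (Submodule.comap_bot _).symm)).antisymm bot_le
  rw [h, sup_bot_eq]

theorem map_off_le (H : Sub p X) (J : Finset X) : H.map (off J) ≤ co Jᶜ := by
  rintro _ ⟨η, -, rfl⟩ i hi
  rw [off_apply, if_pos (by simpa using hi)]

theorem off_mem_map_iff {H : Sub p X} {J : Finset X} {v : Vec p X} :
    off J v ∈ H.map (off J) ↔ v ∈ H ⊔ co J := by
  rw [← orho_ker J, ← Submodule.comap_map_eq]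
  rfl

theorem dO_add_card (H : Sub p X) (J : Finset X) :
    dO H J + J.card = Module.finrank (ZMod p) ↥(H ⊔ co J) := by
  have h := orho_rank (H ⊔ co J) J
  rw [map_off_sup_co, inf_eq_right.2 le_sup_right, finrank_co] at h
  exact h

theorem dO_mono {H H' : Sub p X} (h : H ≤ H') (J : Finset X) : dO H J ≤ dO H' J := 
  Submodule.finrank_mono (Submodule.map_mono h)

theorem dO_anti (H : Sub p X) {J J' : Finset X} (h : J ⊆ J') : dO H J' ≤ dO H J := by
  have e : J' = J ∪ J' := (union_eq_right.2 h).symm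
  unfold dO
  rw [e, orho_off_off, Submodule.map_comp]
  exact Submodule.finrank_map_le _ _

theorem dO_le_card (H : Sub p X) (J : Finset X) : dO H J ≤ Fintype.card X := by
  have h := Submodule.finrank_le (H.map (off J))
  rw [Module.finrank_fintype_fun_eq_card] at h
  exact h

theorem dO_sup_co (H : Sub p X) {J J' : Finset X} (h : J' ⊆ J) : dO (H ⊔ co J') J = dO H J := by
  unfold dO
  rw [← map_off_sup_co (H ⊔ co J') J, sup_assoc,
    (sup_eq_right.2 (co_mono h) : (co J' : Sub p X) ⊔ co J = co J), map_off_sup_co]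

theorem dO_sup_span (H : Sub p X) (v : Vec p X) (J : Finset X) :
    dO (H ⊔ Submodule.span (ZMod p) {v}) J ≤ dO H J + 1 := by
  unfold dO
  rw [Submodule.map_sup, Submodule.map_span, Set.image_singleton]
  refine (Submodule.finrank_add_le_finrank_add_finrank _ _).trans ?_
  refine Nat.add_le_add_left ?_ _
  have h := finrank_span_le_card (R := ZMod p) ({off J v} : Set (Vec p X))
  simpa using h

theorem dO_sup_span_of_mem {H : Sub p X} {v : Vec p X} {J : Finset X} (h : v ∈ H ⊔ co J) :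
    dO (H ⊔ Submodule.span (ZMod p) {v}) J = dO H J := by
  unfold dO
  rw [Submodule.map_sup, Submodule.map_span, Set.image_singleton,
    sup_eq_left.2 ((Submodule.span_singleton_le_iff_mem _ _).2 (off_mem_map_iff.2 h))]

theorem dO_sup_span_of_not_mem {H : Sub p X} {v : Vec p X} {J : Finset X} (h : v ∉ H ⊔ co J) :
    dO (H ⊔ Submodule.span (ZMod p) {v}) J = dO H J + 1 := by
  refine le_antisymm (dO_sup_span H v J) ?_
  have hlt : H.map (off J) < (H ⊔ Submodule.span (ZMod p) {v}).map (off J) := by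
    refine lt_of_le_of_ne (Submodule.map_mono le_sup_left) ?_
    intro e
    apply h
    rw [← off_mem_map_iff, e]
    exact Submodule.mem_map_of_mem (Submodule.mem_sup_right (Submodule.mem_span_singleton_self v))
  exact Submodule.finrank_lt_finrank_of_lt hlt

theorem dO_union (H : Sub p X) (J J' : Finset X) :
    dO H (J ∪ J') + Module.finrank (ZMod p) ↥(H.map (off J) ⊓ co J') = dO H J := by
  unfold dO
  rw [orho_off_off, Submodule.map_comp]
  exact orho_rank _ _

section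
variable {T : Type}

theorem spn_empty (lam : T → Vec p X) : spn lam ∅ = ⊥ := by
  simp [spn]

theorem spn_insert (lam : T → Vec p X) (t : T) (F : Finset T) :
    spn lam (insert t F) = spn lam F ⊔ Submodule.span (ZMod p) {lam t} := by
  unfold spn
  rw [coe_insert, Set.image_insert_eq, Submodule.span_insert, sup_comm]

theorem spn_mono (lam : T → Vec p X) {F F' : Finset T} (h : F ⊆ F') : spn lam F ≤ spn lam F' := 
  Submodule.span_mono (Set.image_mono (coe_subset.2 h))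

theorem mem_spn (lam : T → Vec p X) {F : Finset T} {t : T} (h : t ∈ F) : lam t ∈ spn lam F := 
  Submodule.subset_span ⟨t, mem_coe.2 h, rfl⟩

theorem spn_le {lam : T → Vec p X} {F : Finset T} {H : Sub p X} (h : ∀ t ∈ F, lam t ∈ H) :
    spn lam F ≤ H := by
  refine Submodule.span_le.2 ?_
  rintro _ ⟨t, ht, rfl⟩
  exact h t (mem_coe.1 ht)

theorem dO_sup_spn (H : Sub p X) (lam : T → Vec p X) (F : Finset T) (J : Finset X) :
    dO (H ⊔ spn lam F) J ≤ dO H J + F.card := by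
  induction F using Finset.induction_on with
  | empty => rw [spn_empty, sup_bot_eq, card_empty, add_zero]
  | insert t F ht ih =>
    rw [spn_insert, ← sup_assoc, card_insert_of_notMem ht]
    have := dO_sup_span (H ⊔ spn lam F) (lam t) J
    omega

end

theorem fC_submod (C : ℕ) {H0 H1 H2 : Sub p X} (h1 : H0 ≤ H1) (h2 : H0 ≤ H2) (J1 J2 : Finset X) :
    fC C (H1 ⊔ H2) (J1 ∪ J2) + fC C H0 (J1 ∩ J2) ≤ fC C H1 J1 + fC C H2 J2 := by
  have a1 := dO_add_card H1 J1
  have a2 := dO_add_card H2 J2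
  have a3 := dO_add_card (H1 ⊔ H2) (J1 ∪ J2)
  have a0 := dO_add_card H0 (J1 ∩ J2)
  have hs := Submodule.finrank_sup_add_finrank_inf_eq (H1 ⊔ co J1) (H2 ⊔ co J2)
  have e : (H1 ⊔ co J1) ⊔ (H2 ⊔ co J2) = (H1 ⊔ H2) ⊔ co (J1 ∪ J2) := by
    rw [co_union, sup_sup_sup_comm]
  have hle : H0 ⊔ co (J1 ∩ J2) ≤ (H1 ⊔ co J1) ⊓ (H2 ⊔ co J2) :=
    le_inf (sup_le_sup h1 (co_mono inter_subset_left)) (sup_le_sup h2 (co_mono inter_subset_right))
  have hf := Submodule.finrank_mono hle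
  have hc := card_union_add_card_inter J1 J2
  rw [e] at hs
  have hd : dO (H1 ⊔ H2) (J1 ∪ J2) + dO H0 (J1 ∩ J2) ≤ dO H1 J1 + dO H2 J2 := by omega
  have hm := Nat.mul_le_mul_left C hd
  rw [mul_add, mul_add] at hm
  unfold fC
  omega

theorem rho_le (C : ℕ) (H : Sub p X) (J : Finset X) : rho C H ≤ fC C H J := 
  Nat.sInf_le ⟨J, rfl⟩

theorem exists_rho (C : ℕ) (H : Sub p X) : ∃ J, fC C H J = rho C H := 
  Nat.sInf_mem (s := {n | ∃ J, fC C H J = n}) ⟨fC C H ∅, ∅, rfl⟩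

theorem orho_fC_mono (C : ℕ) {H H' : Sub p X} (h : H ≤ H') (J : Finset X) :
    fC C H J ≤ fC C H' J :=
  Nat.add_le_add_left (Nat.mul_le_mul_left C (dO_mono h J)) _

theorem rho_mono (C : ℕ) {H H' : Sub p X} (h : H ≤ H') : rho C H ≤ rho C H' := by
  obtain ⟨J, hJ⟩ := exists_rho C H'
  rw [← hJ]
  exact (rho_le C H J).trans (orho_fC_mono C h J)

theorem rho_submod (C : ℕ) {H0 H1 H2 : Sub p X} (h1 : H0 ≤ H1) (h2 : H0 ≤ H2) :
    rho C (H1 ⊔ H2) + rho C H0 ≤ rho C H1 + rho C H2 := by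
  obtain ⟨J1, e1⟩ := exists_rho C H1
  obtain ⟨J2, e2⟩ := exists_rho C H2
  have h := fC_submod C h1 h2 J1 J2
  have a := rho_le C (H1 ⊔ H2) (J1 ∪ J2)
  have b := rho_le C H0 (J1 ∩ J2)
  omega

theorem marg_add (C : ℕ) (H : Sub p X) (v : Vec p X) :
    rho C H + marg C H v = rho C (H ⊔ Submodule.span (ZMod p) {v}) := by
  have h := rho_mono C (le_sup_left : H ≤ H ⊔ Submodule.span (ZMod p) {v})
  unfold marg
  omega

theorem marg_anti (C : ℕ) {H H' : Sub p X} (h : H ≤ H') (v : Vec p X) :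
    marg C H' v ≤ marg C H v := by
  have a := marg_add C H v
  have b := marg_add C H' v
  have s := rho_submod C h (le_sup_left : H ≤ H ⊔ Submodule.span (ZMod p) {v})
  rw [← sup_assoc, sup_eq_left.2 h] at s
  omega

theorem marg_le (C : ℕ) (H : Sub p X) (v : Vec p X) : marg C H v ≤ C := by
  obtain ⟨J, e⟩ := exists_rho C H
  have a := marg_add C H v
  have b := rho_le C (H ⊔ Submodule.span (ZMod p) {v}) J
  have c := Nat.mul_le_mul_left C (dO_sup_span H v J)
  rw [mul_add, mul_one] at c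
  unfold fC at b e
  omega

theorem rho_spn_le {T : Type} (C : ℕ) (H : Sub p X) (lam : T → Vec p X) (E : Finset T) :
    rho C (H ⊔ spn lam E) ≤ rho C H + ∑ e ∈ E, marg C H (lam e) := by
  induction E using Finset.induction_on with
  | empty => rw [spn_empty, sup_bot_eq, sum_empty, add_zero]
  | insert t E ht ih =>
    rw [spn_insert, ← sup_assoc, sum_insert ht, ← marg_add]
    have := marg_anti C (le_sup_left : H ≤ H ⊔ spn lam E) (lam t)
    omega

theorem rho_spn_ge {T : Type} (C : ℕ) (H : Sub p X) (lam : T → Vec p X) (E : Finset T)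
    (h : ∀ e ∈ E, C ≤ marg C (H ⊔ spn lam (E.erase e)) (lam e)) :
    rho C H + C * E.card ≤ rho C (H ⊔ spn lam E) := by
  induction E using Finset.induction_on with
  | empty => rw [spn_empty, sup_bot_eq, card_empty, mul_zero, add_zero]
  | insert t E ht ih =>
    have h1 := h t (mem_insert_self t E)
    rw [erase_insert ht] at h1
    have h2 := ih (by
      intro e he
      refine (h e (mem_insert_of_mem he)).trans (marg_anti C ?_ _)
      exact sup_le_sup_left (spn_mono lam (erase_subset_erase e (subset_insert t E))) H)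
    rw [spn_insert, ← sup_assoc, card_insert_of_notMem ht, ← marg_add, mul_add, mul_one]
    omega

theorem min_union (C : ℕ) {H1 H2 : Sub p X} (h : H1 ≤ H2) {J1 J2 : Finset X}
    (h1 : fC C H1 J1 = rho C H1) (h2 : fC C H2 J2 = rho C H2) :
    fC C H2 (J1 ∪ J2) = rho C H2 := by
  have s := fC_submod C (le_refl H1) h J1 J2
  rw [sup_eq_right.2 h] at s
  have a := rho_le C H2 (J1 ∪ J2)
  have b := rho_le C H1 (J1 ∩ J2)
  omega

theorem orho_mem_Jmax {C : ℕ} {H : Sub p X} {i : X} :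
    i ∈ Jmax C H ↔ ∃ J, fC C H J = rho C H ∧ i ∈ J := by
  unfold Jmax
  rw [mem_filter]
  exact ⟨fun h => h.2, fun h => ⟨mem_univ i, h⟩⟩

theorem fC_Jmax (C : ℕ) (H : Sub p X) : fC C H (Jmax C H) = rho C H := by
  have key : ∀ S : Finset X, S ⊆ Jmax C H → ∃ J, fC C H J = rho C H ∧ S ⊆ J := by
    intro S
    induction S using Finset.induction_on with
    | empty =>
      intro _
      obtain ⟨J, hJ⟩ := exists_rho C H
      exact ⟨J, hJ, empty_subset _⟩
    | insert i S _ ih =>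
      intro hS
      obtain ⟨J, hJ, hSJ⟩ := ih ((subset_insert i S).trans hS)
      obtain ⟨J', hJ', hi⟩ := orho_mem_Jmax.1 (hS (mem_insert_self i S))
      refine ⟨J ∪ J', min_union C le_rfl hJ hJ', ?_⟩
      exact insert_subset (mem_union_right _ hi) (hSJ.trans subset_union_left)
  obtain ⟨J, hJ, hs⟩ := key _ subset_rfl
  have e : Jmax C H = J := subset_antisymm hs (fun i hi => orho_mem_Jmax.2 ⟨J, hJ, hi⟩)
  rw [e, hJ]

theorem Jmax_mono (C : ℕ) {H H' : Sub p X} (h : H ≤ H') : Jmax C H ⊆ Jmax C H' := by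
  intro i hi
  exact orho_mem_Jmax.2 ⟨_, min_union C h (fC_Jmax C H) (fC_Jmax C H'), mem_union_left _ hi⟩

theorem subset_Jmax {C : ℕ} (hC : 1 ≤ C) {H : Sub p X} {J0 : Finset X} (h : co J0 ≤ H) :
    J0 ⊆ Jmax C H := by
  intro i hi
  by_contra hn
  apply hn
  refine orho_mem_Jmax.2 ⟨Jmax C H ∪ {i}, ?_, mem_union_right _ (mem_singleton_self i)⟩
  have hu := dO_union H (Jmax C H) {i}
  have hle : (co {i} : Sub p X) ≤ H.map (off (Jmax C H)) ⊓ co {i} := by
    refine le_inf ?_ le_rfl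
    intro η hη
    refine ⟨η, h (co_mono (singleton_subset_iff.2 hi) hη), ?_⟩
    funext k
    rw [off_apply]
    by_cases hk : k ∈ Jmax C H
    · rw [if_pos hk]
      refine (hη k ?_).symm
      rw [mem_singleton]
      rintro rfl
      exact hn hk
    · rw [if_neg hk]
  have hf : Module.finrank (ZMod p) ↥(co {i} : Sub p X) ≤
      Module.finrank (ZMod p) ↥(H.map (off (Jmax C H)) ⊓ co {i}) := Submodule.finrank_mono hle
  rw [finrank_co, card_singleton] at hf
  have hc := card_union_le (Jmax C H) {i}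
  rw [card_singleton] at hc
  have a := rho_le C H (Jmax C H ∪ {i})
  have b := fC_Jmax C H
  have hd : dO H (Jmax C H ∪ {i}) + 1 ≤ dO H (Jmax C H) := by omega
  have hm := Nat.mul_le_mul_left C hd
  rw [mul_add, mul_one] at hm
  unfold fC at a b ⊢
  omega

end Pool.Agent.P.MP_85fe51_lc.OD
end

-- part Pool.Agent.P.MP_85fe51_lc.OSafe
section

set_option autoImplicit false

namespace Pool.Agent.P.MP_85fe51_lc.OD

open Finset
open scoped Classical

variable {p : ℕ} [Fact p.Prime] {X : Type} [Fintype X] [DecidableEq X]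

theorem Safe.mono {C C' : ℕ} {H : Sub p X} (h : Safe C H) (hC : C' ≤ C) : Safe C' H := by
  intro J
  exact le_trans (Nat.mul_le_mul_right _ hC) (h J)

theorem Safe.sub {C : ℕ} {H H' : Sub p X} (h : Safe C H) (hH : H' ≤ H) : Safe C H' := by
  intro J
  exact le_trans (Nat.mul_le_mul_left _ (Submodule.finrank_mono (inf_le_inf_right _ hH))) (h J)

theorem Safe.le_wt {C : ℕ} {H : Sub p X} (h : Safe C H) {η : Vec p X} (hη : η ∈ H) (h0 : η ≠ 0) :
    C ≤ wt η := by
  have h1 := h (supp η)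
  have hm : η ∈ H ⊓ co (supp η) := ⟨hη, mem_co_iff.2 (Subset.refl _)⟩
  have h2 : 1 ≤ Module.finrank (ZMod p) ↥(H ⊓ co (supp η)) := by
    rw [Submodule.one_le_finrank_iff]
    intro hb
    rw [hb] at hm
    exact h0 ((Submodule.mem_bot _).1 hm)
  calc C = C * 1 := (Nat.mul_one C).symm
    _ ≤ C * Module.finrank (ZMod p) ↥(H ⊓ co (supp η)) := Nat.mul_le_mul_left _ h2
    _ ≤ wt η := h1

theorem osafe_of_le {C : ℕ} {H : Sub p X} {J : Finset X}
    (h : ∀ J', J ⊆ J' → fC C H J ≤ fC C H J') : Safe C (H.map (off J)) := by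
  intro J'
  have h1 := h (J ∪ J') subset_union_left
  have h2 := dO_union H J J'
  have h3 := card_union_le J J'
  unfold fC at h1
  rw [← h2, Nat.mul_add] at h1
  have h4 : C * Module.finrank (ZMod p) ↥(H.map (off J) ⊓ co J') ≤ J'.card := by omega
  exact h4

theorem safe_of_min {C : ℕ} {H : Sub p X} {J : Finset X} (h : fC C H J = rho C H) :
    Safe C (H.map (off J)) := by
  exact osafe_of_le (fun J' _ => h ▸ rho_le C H J')

theorem safe_of_le {C : ℕ} {H : Sub p X} {J : Finset X}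
    (h : ∀ J', J ⊆ J' → fC C H J ≤ fC C H J') : Safe C (H.map (off J)) := by
  exact osafe_of_le h

theorem osafe_card (J J' : Finset X) : (J ∪ J').card = J.card + (J' \ J).card := by
  rw [← card_union_of_disjoint disjoint_sdiff, union_sdiff_self_eq_union]

theorem osafe_drop {C : ℕ} {H : Sub p X} {J : Finset X} (h : Safe C (H.map (off J)))
    (J' : Finset X) : ∃ f, dO H (J ∪ J') + f = dO H J ∧ C * f ≤ (J' \ J).card := by
  refine ⟨_, ?_, h (J' \ J)⟩
  have := dO_union H J (J' \ J)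
  rwa [union_sdiff_self_eq_union] at this

theorem osafe_union_le {C : ℕ} (hC : 1 ≤ C) {H : Sub p X} {J : Finset X} (hJ : co J ≤ H)
    (J' : Finset X) : fC C H (J ∪ J') ≤ fC C H J' := by
  have h1 := dO_add_card H (J ∪ J')
  have h2 := dO_add_card H J'
  have h3 : H ⊔ co (J ∪ J') = H ⊔ co J' := by
    rw [co_union, ← sup_assoc, sup_eq_left.2 hJ]
  rw [h3, ← h2] at h1
  have h4 : J'.card ≤ (J ∪ J').card := card_le_card subset_union_right
  obtain ⟨m, hm⟩ := Nat.exists_eq_add_of_le h4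
  have h5 : dO H J' = dO H (J ∪ J') + m := by omega
  have h6 : m ≤ C * m := Nat.le_mul_of_pos_left m hC
  unfold fC
  rw [h5, Nat.mul_add]
  omega

theorem min_of_safe {C : ℕ} (hC : 1 ≤ C) {H : Sub p X} {J : Finset X} (hJ : co J ≤ H)
    (h : Safe C (H.map (off J))) : fC C H J = rho C H := by
  apply le_antisymm _ (rho_le C H J)
  obtain ⟨J', hJ'⟩ := exists_rho C H
  rw [← hJ']
  refine le_trans ?_ (osafe_union_le hC hJ J')
  obtain ⟨f, h1, h2⟩ := osafe_drop h J'
  have h3 := osafe_card J J'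
  unfold fC
  rw [← h1, Nat.mul_add]
  omega

theorem two_fC {C : ℕ} {H : Sub p X} {J : Finset X} (h : Safe (2 * C) (H.map (off J)))
    (J' : Finset X) : 2 * fC C H J + (J' \ J).card ≤ 2 * fC C H (J ∪ J') := by
  obtain ⟨f, h1, h2⟩ := osafe_drop h J'
  have h3 := osafe_card J J'
  unfold fC
  rw [← h1, Nat.mul_add C]
  rw [Nat.mul_assoc] at h2
  omega

theorem card_Jmax {C : ℕ} (hC : 1 ≤ C) {U H : Sub p X} {J0 : Finset X} (hJ : co J0 ≤ U)
    (hs : Safe (2 * C) (U.map (off J0))) (hUH : U ≤ H) {y : ℕ} (hy : dO H J0 ≤ dO U J0 + y) :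
    (Jmax C H \ J0).card ≤ 2 * C * y := by
  have h0 : J0 ⊆ Jmax C H := subset_Jmax hC (hJ.trans hUH)
  have h1 := two_fC hs (Jmax C H)
  rw [union_eq_right.2 h0] at h1
  have h2 := fC_Jmax C H
  have h3 := rho_le C H J0
  have h4 : C * dO U (Jmax C H) ≤ C * dO H (Jmax C H) := Nat.mul_le_mul_left _ (dO_mono hUH _)
  have h5 : C * dO H J0 ≤ C * dO U J0 + C * y := by
    rw [← Nat.mul_add]
    exact Nat.mul_le_mul_left _ hy
  unfold fC at h1 h2 h3
  rw [Nat.mul_assoc]
  omega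

theorem wt_add_le (a b : Vec p X) : wt (a + b) ≤ wt a + wt b := by
  refine le_trans (card_le_card ?_) (card_union_le (supp a) (supp b))
  intro i hi
  rw [mem_union, mem_supp, mem_supp]
  rw [mem_supp] at hi
  by_contra hc
  rw [not_or, not_not, not_not] at hc
  exact hi (by rw [Pi.add_apply, hc.1, hc.2, add_zero])

theorem osafe_supp_smul {u : ZMod p} (hu : u ≠ 0) (a : Vec p X) : supp (u • a) = supp a := by
  ext i
  rw [mem_supp, mem_supp, Pi.smul_apply, smul_eq_mul, mul_ne_zero_iff]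
  exact ⟨fun h => h.2, fun h => ⟨hu, h⟩⟩

theorem wt_smul {u : ZMod p} (hu : u ≠ 0) (a : Vec p X) : wt (u • a) = wt a := by
  unfold wt
  rw [osafe_supp_smul hu]

theorem supp_smul {u : ZMod p} (hu : u ≠ 0) (a : Vec p X) : supp (u • a) = supp a := by
  exact osafe_supp_smul hu a

theorem wt_neg (a : Vec p X) : wt (-a) = wt a := by
  rw [← neg_one_smul (ZMod p) a]
  exact wt_smul (neg_ne_zero.2 one_ne_zero) a

theorem wt_sub_le (a b : Vec p X) : wt (a - b) ≤ wt a + wt b := by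
  rw [sub_eq_add_neg, ← wt_neg b]
  exact wt_add_le a (-b)

theorem wtm_le {H : Sub p X} {v d : Vec p X} (h : v - d ∈ H) : wtm H v ≤ wt d := by
  refine Nat.sInf_le ⟨-(v - d), H.neg_mem h, ?_⟩
  congr 1
  abel

theorem osafe_rep (H : Sub p X) (v : Vec p X) : ∃ d, v - d ∈ H ∧ wt d = wtm H v := by
  have hne : ({n | ∃ η ∈ H, wt (v + η) = n} : Set ℕ).Nonempty := ⟨_, 0, H.zero_mem, rfl⟩
  obtain ⟨η, hη, hw⟩ := Nat.sInf_mem hne
  refine ⟨v + η, ?_, hw⟩
  have : v - (v + η) = -η := by abel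
  rw [this]
  exact H.neg_mem hη

theorem osafe_off {H : Sub p X} {J : Finset X} (hJ : co J ≤ H) {v d : Vec p X} (h : v - d ∈ H) :
    v - off J d ∈ H := by
  have : v - off J d = (v - d) + (d - off J d) := by abel
  rw [this]
  exact H.add_mem h (hJ (sub_off_mem J d))

theorem exists_rep {H : Sub p X} {J : Finset X} (hJ : co J ≤ H) (v : Vec p X) :
    ∃ d, v - d ∈ H ∧ Disjoint (supp d) J ∧ wt d = wtm H v := by
  obtain ⟨d, hd, hw⟩ := osafe_rep H v
  have h1 : v - off J d ∈ H := osafe_off hJ hd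
  refine ⟨off J d, h1, ?_, le_antisymm ?_ (wtm_le h1)⟩
  · rw [supp_off]
    exact sdiff_disjoint
  · rw [← hw]
    unfold wt
    rw [supp_off]
    exact card_le_card sdiff_subset

theorem wtm_anti {H H' : Sub p X} (h : H ≤ H') (v : Vec p X) : wtm H' v ≤ wtm H v := by
  obtain ⟨d, hd, hw⟩ := osafe_rep H v
  rw [← hw]
  exact wtm_le (h hd)

theorem osafe_smul_le (H : Sub p X) {u : ZMod p} (hu : u ≠ 0) (v : Vec p X) :
    wtm H (u • v) ≤ wtm H v := by
  obtain ⟨d, hd, hw⟩ := osafe_rep H v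
  rw [← hw, ← wt_smul hu d]
  apply wtm_le
  rw [← smul_sub]
  exact H.smul_mem u hd

theorem wtm_smul (H : Sub p X) {u : ZMod p} (hu : u ≠ 0) (v : Vec p X) :
    wtm H (u • v) = wtm H v := by
  apply le_antisymm (osafe_smul_le H hu v)
  have := osafe_smul_le H (inv_ne_zero hu) (u • v)
  rwa [smul_smul, inv_mul_cancel₀ hu, one_smul] at this

theorem wtm_add_le (H : Sub p X) (v v' : Vec p X) : wtm H (v + v') ≤ wtm H v + wtm H v' := by
  obtain ⟨d, hd, hw⟩ := osafe_rep H v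
  obtain ⟨d', hd', hw'⟩ := osafe_rep H v'
  rw [← hw, ← hw']
  refine le_trans (wtm_le ?_) (wt_add_le d d')
  have : v + v' - (d + d') = (v - d) + (v' - d') := by abel
  rw [this]
  exact H.add_mem hd hd'

theorem osafe_congr {H : Sub p X} {v v' : Vec p X} (h : v - v' ∈ H) : wtm H v ≤ wtm H v' := by
  obtain ⟨d, hd, hw⟩ := osafe_rep H v'
  rw [← hw]
  apply wtm_le
  have : v - d = (v - v') + (v' - d) := by abel
  rw [this]
  exact H.add_mem h hd

theorem wtm_congr {H : Sub p X} {v v' : Vec p X} (h : v - v' ∈ H) : wtm H v = wtm H v' := by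
  apply le_antisymm (osafe_congr h)
  apply osafe_congr
  rw [← neg_sub]
  exact H.neg_mem h

theorem wtm_eq_zero {H : Sub p X} {v : Vec p X} : wtm H v = 0 ↔ v ∈ H := by
  constructor
  · intro h
    obtain ⟨d, hd, hw⟩ := osafe_rep H v
    rw [h] at hw
    have h0 : d = 0 := by
      funext i
      by_contra hi
      have hm : i ∈ supp d := mem_supp.2 hi
      rw [card_eq_zero.1 hw] at hm
      exact notMem_empty i hm
    rwa [h0, sub_zero] at hd
  · intro h
    have h1 : wtm H v ≤ wt (0 : Vec p X) := wtm_le (by rwa [sub_zero])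
    have h2 : wt (0 : Vec p X) = 0 := by
      unfold wt
      rw [card_eq_zero, eq_empty_iff_forall_notMem]
      intro i hi
      exact mem_supp.1 hi rfl
    omega

theorem wtm_le_off {H : Sub p X} {J : Finset X} (hJ : co J ≤ H) (v : Vec p X) {η : Vec p X}
    (hη : η ∈ H.map (off J)) : wtm H v ≤ wt (off J v + η) := by
  obtain ⟨η0, h0, rfl⟩ := Submodule.mem_map.1 hη
  rw [← map_add]
  apply wtm_le
  apply osafe_off hJ
  have : v - (v + η0) = -η0 := by abel
  rw [this]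
  exact H.neg_mem h0

theorem wtm_drop {H : Sub p X} {J : Finset X} (hJ : co J ≤ H) {v d : Vec p X} (h : v - d ∈ H)
    (hd : ¬ Disjoint (supp d) J) : wtm H v < wt d := by
  refine lt_of_le_of_lt (wtm_le (osafe_off hJ h)) ?_
  unfold wt
  rw [supp_off]
  apply card_lt_card
  refine ⟨sdiff_subset, fun hc => hd ?_⟩
  rw [disjoint_left]
  intro i hi
  exact (mem_sdiff.1 (hc hi)).2

theorem osafe_wtm {H : Sub p X} {J J' : Finset X} (hJ : co J ≤ H) {v : Vec p X}
    (hv : v ∈ H ⊔ co (J ∪ J')) : wtm H v ≤ (J' \ J).card := by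
  obtain ⟨a, ha, c, hc, rfl⟩ := Submodule.mem_sup.1 hv
  have h1 : a + c - c ∈ H := by rwa [add_sub_cancel_right]
  refine le_trans (wtm_le (osafe_off hJ h1)) ?_
  unfold wt
  rw [supp_off]
  apply card_le_card
  intro i hi
  rw [mem_sdiff] at hi ⊢
  exact ⟨(mem_union.1 (mem_co_iff.1 hc hi.1)).resolve_left hi.2, hi.2⟩

theorem marg_eq_min {C : ℕ} (hC : 1 ≤ C) {H : Sub p X} {J : Finset X} (hJ : co J ≤ H)
    (hs : Safe (2 * C) (H.map (off J))) (v : Vec p X) : marg C H v = min C (wtm H v) := by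
  have hs1 : Safe C (H.map (off J)) := hs.mono (by omega)
  have hr := min_of_safe hC hJ hs1
  have ha := marg_add C H v
  apply le_antisymm
  · refine le_min (marg_le C H v) ?_
    obtain ⟨d, hd, -, hw⟩ := exists_rep hJ v
    have hv : v ∈ H ⊔ co (J ∪ supp d) := by
      have : v = (v - d) + d := by abel
      rw [this]
      exact Submodule.add_mem_sup hd (mem_co_iff.2 subset_union_right)
    have h1 := rho_le C (H ⊔ Submodule.span (ZMod p) {v}) (J ∪ supp d)
    have h2 := dO_sup_span_of_mem hv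
    have h3 : C * dO H (J ∪ supp d) ≤ C * dO H J :=
      Nat.mul_le_mul_left _ (dO_anti H subset_union_left)
    have h4 := card_union_le J (supp d)
    unfold fC at h1 hr
    unfold wt at hw
    rw [h2] at h1
    omega
  · obtain ⟨J1, hJ1⟩ := exists_rho C (H ⊔ Submodule.span (ZMod p) {v})
    have hm := min_union C (le_sup_left : H ≤ H ⊔ Submodule.span (ZMod p) {v}) hr hJ1
    by_cases hv : v ∈ H ⊔ co (J ∪ J1)
    · have h2 := dO_sup_span_of_mem hv
      have h3 := osafe_wtm hJ hv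
      obtain ⟨f, h4, h5⟩ := osafe_drop hs J1
      have h6 := osafe_card J J1
      unfold fC at hm hr
      rw [h2] at hm
      rw [← h4, Nat.mul_add] at hr
      rw [Nat.mul_assoc] at h5
      rcases Nat.eq_zero_or_pos f with h0 | h0
      · subst h0
        refine le_trans (min_le_right _ _) ?_
        omega
      · have h7 : C ≤ C * f := Nat.le_mul_of_pos_right C h0
        refine le_trans (min_le_left _ _) ?_
        omega
    · have h2 := dO_sup_span_of_not_mem hv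
      have h3 := rho_le C H (J ∪ J1)
      unfold fC at hm h3
      rw [h2, Nat.mul_add] at hm
      refine le_trans (min_le_left _ _) ?_
      omega

theorem marg_nbhd {C : ℕ} (hC : 1 ≤ C) {H : Sub p X} {J : Finset X} (hJ : co J ≤ H)
    (hs : Safe (2 * C) (H.map (off J))) (v v' : Vec p X)
    (h : ∀ i : ZMod p, 4 * C ≤ wtm H (v + i • v')) :
    marg C (H ⊔ Submodule.span (ZMod p) {v'}) v = C := by
  have hs1 : Safe C (H.map (off J)) := hs.mono (by omega)
  have hr := min_of_safe hC hJ hs1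
  have ha := marg_add C (H ⊔ Submodule.span (ZMod p) {v'}) v
  have ha' := marg_add C H v'
  have hl := marg_le C H v'
  apply le_antisymm (marg_le C _ v)
  obtain ⟨J1, hJ1⟩ := exists_rho C
    ((H ⊔ Submodule.span (ZMod p) {v'}) ⊔ Submodule.span (ZMod p) {v})
  have hle : H ≤ (H ⊔ Submodule.span (ZMod p) {v'}) ⊔ Submodule.span (ZMod p) {v} :=
    le_sup_left.trans le_sup_left
  have hm := min_union C hle hr hJ1
  by_cases hv : v ∈ (H ⊔ Submodule.span (ZMod p) {v'}) ⊔ co (J ∪ J1)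
  · obtain ⟨a, ha1, c, hc, hac⟩ := Submodule.mem_sup.1 hv
    obtain ⟨b, hb, e, he, hbe⟩ := Submodule.mem_sup.1 ha1
    obtain ⟨u, hu⟩ := Submodule.mem_span_singleton.1 he
    have hv' : v + (-u) • v' ∈ H ⊔ co (J ∪ J1) := by
      have : v + (-u) • v' = b + c := by
        rw [← hac, ← hbe, ← hu, neg_smul]
        abel
      rw [this]
      exact Submodule.add_mem_sup hb hc
    have h3 := osafe_wtm hJ hv'
    have h4 := h (-u)
    have h5 := two_fC hs J1
    have h6 := Nat.mul_le_mul_left C (dO_mono hle (J ∪ J1))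
    unfold fC at hm hr h5
    omega
  · have h2 := dO_sup_span_of_not_mem hv
    have h3 := rho_le C (H ⊔ Submodule.span (ZMod p) {v'}) (J ∪ J1)
    unfold fC at hm h3
    rw [h2, Nat.mul_add] at hm
    omega

theorem safe_sup_span {C : ℕ} {H : Sub p X} {J : Finset X} (hJ : co J ≤ H)
    (hs : Safe (2 * C) (H.map (off J))) {v : Vec p X} (h : 2 * C ≤ wtm H v) :
    Safe C ((H ⊔ Submodule.span (ZMod p) {v}).map (off J)) := by
  apply safe_of_le
  intro J' hJJ
  have h1 := Nat.mul_le_mul_left C (dO_sup_span H v J)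
  have h2 := two_fC hs J'
  rw [union_eq_right.2 hJJ] at h2
  rw [Nat.mul_add] at h1
  by_cases hv : v ∈ H ⊔ co J'
  · have h3 := dO_sup_span_of_mem hv
    have h4 : wtm H v ≤ (J' \ J).card := osafe_wtm hJ (by rwa [union_eq_right.2 hJJ])
    unfold fC at h2 ⊢
    rw [h3]
    omega
  · have h3 := dO_sup_span_of_not_mem hv
    unfold fC at h2 ⊢
    rw [h3, Nat.mul_add C]
    omega

theorem SafeOn.sub {a : Finset X} {C : ℕ} {H H' : Sub p X} (h : SafeOn a C H) (hH : H' ≤ H) :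
    SafeOn a C H' := by
  intro N hN
  exact h N (hN.trans hH)

/-- restriction to `a` of a space that is safe on `a`. -/
theorem SafeOn.restrict {a J : Finset X} {C : ℕ} (hC : 1 ≤ C) {H : Sub p X} (hJ : J ⊆ aᶜ)
    (h : SafeOn a C (H.map (off J))) : Safe C (H.map (off aᶜ)) ∧ dO H aᶜ = dO H J := by
  constructor
  · intro J'
    have h1 := h (H.map (off J) ⊓ (co J').comap (off aᶜ)) inf_le_left
    have h2 : H.map (off aᶜ) ⊓ co J' ≤
        (H.map (off J) ⊓ (co J').comap (off aᶜ)).map (off aᶜ) := by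
      rintro η ⟨hη, hc⟩
      obtain ⟨g, hg, rfl⟩ := Submodule.mem_map.1 hη
      have he : off aᶜ (off J g) = off aᶜ g := by
        funext i
        rw [off_apply, off_apply, off_apply]
        by_cases hi : i ∈ aᶜ
        · rw [if_pos hi, if_pos hi]
        · rw [if_neg hi, if_neg hi, if_neg (fun hj => hi (hJ hj))]
      refine Submodule.mem_map.2 ⟨off J g, ⟨Submodule.mem_map_of_mem hg, ?_⟩, he⟩
      show off aᶜ (off J g) ∈ (co J' : Sub p X)
      rw [he]
      exact hc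
    have h3 := (Submodule.finrank_mono h2).trans (Submodule.finrank_map_le _ _)
    refine le_trans (Nat.mul_le_mul_left C h3) (h1.trans (card_le_card ?_))
    intro i hi
    obtain ⟨hia, η, hη, hne⟩ := mem_filter.1 hi
    have h4 : off aᶜ η ∈ (co J' : Sub p X) := hη.2
    by_contra hc
    have h5 := mem_co.1 h4 i hc
    rw [off_apply, if_neg (fun hj => mem_compl.1 hj hia)] at h5
    exact hne h5
  · have h1 := h (H.map (off J) ⊓ co aᶜ) inf_le_left
    have h2 := dO_union H J aᶜ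
    rw [union_eq_right.2 hJ] at h2
    have h3 : C * Module.finrank (ZMod p) ↥(H.map (off J) ⊓ co aᶜ) ≤ 0 := by
      refine h1.trans (le_of_eq ?_)
      rw [card_eq_zero, eq_empty_iff_forall_notMem]
      intro i hi
      obtain ⟨hia, η, hη, hne⟩ := mem_filter.1 hi
      exact hne (mem_co.1 hη.2 i (fun hj => mem_compl.1 hj hia))
    have h4 := Nat.le_mul_of_pos_left
      (Module.finrank (ZMod p) ↥(H.map (off J) ⊓ co aᶜ)) hC
    omega

end Pool.Agent.P.MP_85fe51_lc.OD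
end

-- part Pool.Agent.P.MP_85fe51_lc.OFree
section

set_option autoImplicit false

namespace Pool.Agent.P.MP_85fe51_lc.OD

open Finset
open scoped Classical

variable {p : ℕ} [Fact p.Prime] {X : Type} [Fintype X] [DecidableEq X] {T : Type} [Fintype T]

namespace Ext
variable (σ : Ext p X T)

theorem one_le_CH : 1 ≤ σ.CH := by
  have := σ.hr
  omega

theorem rho_U : rho σ.CH σ.U = fC σ.CH σ.U σ.Yᶜ :=
  (min_of_safe σ.one_le_CH σ.hY (σ.safe.mono (by omega))).symm

theorem marg_U (t : T) : marg σ.CH σ.U (σ.lam t) = min σ.CH (wtm σ.U (σ.lam t)) :=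
  marg_eq_min σ.one_le_CH σ.hY (σ.safe.mono (by omega)) _

theorem U'_le : σ.U' ≤ co σ.Y := by
  have := map_off_le σ.U σ.Yᶜ
  rwa [compl_compl] at this

theorem free_empty : σ.Free ∅ := by
  unfold Free
  rw [spn_empty, sup_bot_eq, sum_empty, add_zero]

theorem free_subset {F F' : Finset T} (h : σ.Free F) (hF : F' ⊆ F) : σ.Free F' := by
  unfold Free at h ⊢
  have h1 := rho_spn_le σ.CH σ.U σ.lam F'
  have h2 := rho_spn_le σ.CH (σ.U ⊔ spn σ.lam F') σ.lam (F \ F')
  have h3 : rho σ.CH (σ.U ⊔ spn σ.lam F) ≤ rho σ.CH (σ.U ⊔ spn σ.lam F' ⊔ spn σ.lam (F \ F')) := by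
    refine rho_mono _ (sup_le (le_sup_left.trans le_sup_left) (spn_le fun t ht => ?_))
    by_cases c : t ∈ F'
    · exact Submodule.mem_sup_left (Submodule.mem_sup_right (mem_spn _ c))
    · exact Submodule.mem_sup_right (mem_spn _ (mem_sdiff.mpr ⟨ht, c⟩))
  have h4 : ∑ e ∈ F \ F', marg σ.CH (σ.U ⊔ spn σ.lam F') (σ.lam e) ≤
      ∑ e ∈ F \ F', marg σ.CH σ.U (σ.lam e) :=
    sum_le_sum fun e _ => marg_anti _ le_sup_left _
  have h5 := sum_sdiff (f := fun e => marg σ.CH σ.U (σ.lam e)) hF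
  omega

theorem free_insert_iff {F : Finset T} (h : σ.Free F) {t : T} (ht : t ∉ F) :
    σ.Free (insert t F) ↔
      marg σ.CH (σ.U ⊔ spn σ.lam F) (σ.lam t) = marg σ.CH σ.U (σ.lam t) := by
  unfold Free at h ⊢
  rw [spn_insert, ← sup_assoc, ← marg_add, sum_insert ht, h]
  omega

theorem ofree_disj {ι : Type} (L : Finset ι) (f : ι → Finset X)
    (h : ∑ t ∈ L, (f t).card ≤ (L.biUnion f).card) {t t' : ι} (ht : t ∈ L) (ht' : t' ∈ L)
    (hne : t ≠ t') : Disjoint (f t) (f t') := by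
  have h1 : t' ∈ L.erase t := mem_erase.mpr ⟨hne.symm, ht'⟩
  have h2 := add_sum_erase L (fun t => (f t).card) ht
  have h3 := add_sum_erase (L.erase t) (fun t => (f t).card) h1
  have h4 : L.biUnion f ⊆ (f t ∪ f t') ∪ ((L.erase t).erase t').biUnion f := by
    intro i hi
    obtain ⟨s, hs, c⟩ := mem_biUnion.mp hi
    by_cases e : s = t
    · exact mem_union_left _ (mem_union_left _ (e ▸ c))
    · by_cases e' : s = t'
      · exact mem_union_left _ (mem_union_right _ (e' ▸ c))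
      · exact mem_union_right _
          (mem_biUnion.mpr ⟨s, mem_erase.mpr ⟨e', mem_erase.mpr ⟨e, hs⟩⟩, c⟩)
  have h5 := (card_le_card h4).trans (card_union_le _ _)
  have h6 := card_biUnion_le (s := (L.erase t).erase t') (t := f)
  have h7 := card_union_add_card_inter (f t) (f t')
  rw [disjoint_iff_inter_eq_empty, ← card_eq_zero]
  omega

theorem free_struct {F : Finset T} (h : σ.Free F) :
    (∀ t ∈ F, ∀ t' ∈ F, σ.Lt t → σ.Lt t' → t ≠ t' → Disjoint (supp (σ.dl t)) (supp (σ.dl t'))) ∧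
      Safe σ.CH (σ.HF F) ∧
      dO (σ.U ⊔ spn σ.lam F) (σ.JF F) = dO σ.U σ.Yᶜ + (F.filter (fun t => ¬ σ.Lt t)).card := by
  have hC := σ.one_le_CH
  have h1 : (σ.JF F).card ≤
      σ.Yᶜ.card + ((F.filter σ.Lt).biUnion (fun t => supp (σ.dl t))).card := card_union_le _ _
  have h1' : ((F.filter σ.Lt).biUnion (fun t => supp (σ.dl t))).card ≤
      ∑ t ∈ F.filter σ.Lt, (supp (σ.dl t)).card := card_biUnion_le
  have h2 : dO (σ.U ⊔ spn σ.lam F) (σ.JF F) ≤
      dO σ.U σ.Yᶜ + (F.filter (fun t => ¬ σ.Lt t)).card := by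
    have a1 : σ.U ⊔ spn σ.lam F ≤
        (σ.U ⊔ spn σ.lam (F.filter (fun t => ¬ σ.Lt t))) ⊔ co (σ.JF F) := by
      refine sup_le (le_sup_left.trans le_sup_left) (spn_le fun t ht => ?_)
      by_cases c : σ.Lt t
      · have a2 : σ.dl t ∈ (co (σ.JF F) : Sub p X) := mem_co_iff.mpr fun i hi =>
          mem_union_right _ (mem_biUnion.mpr ⟨t, mem_filter.mpr ⟨ht, c⟩, hi⟩)
        have := Submodule.add_mem_sup
          (Submodule.mem_sup_left (T := spn σ.lam (F.filter (fun t => ¬ σ.Lt t))) (σ.repl t).1) a2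
        rwa [sub_add_cancel] at this
      · exact Submodule.mem_sup_left (Submodule.mem_sup_right (mem_spn _ (mem_filter.mpr ⟨ht, c⟩)))
    have a2 := dO_mono a1 (σ.JF F)
    rw [dO_sup_co _ subset_rfl] at a2
    have a3 := dO_sup_spn σ.U σ.lam (F.filter (fun t => ¬ σ.Lt t)) (σ.JF F)
    have a4 : dO σ.U (σ.JF F) ≤ dO σ.U σ.Yᶜ := dO_anti _ subset_union_left
    omega
  have h3 : ∑ t ∈ F, marg σ.CH σ.U (σ.lam t) = ∑ t ∈ F.filter σ.Lt, (supp (σ.dl t)).card +
      σ.CH * (F.filter (fun t => ¬ σ.Lt t)).card := by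
    rw [← sum_filter_add_sum_filter_not F σ.Lt]
    congr 1
    · refine sum_congr rfl fun t ht => ?_
      have a1 : wtm σ.U (σ.lam t) < σ.CH := (mem_filter.mp ht).2
      rw [σ.marg_U, min_eq_right a1.le, ← (σ.repl t).2.2]
      rfl
    · rw [mul_comm, ← smul_eq_mul, ← sum_const]
      refine sum_congr rfl fun t ht => ?_
      have a1 : ¬ wtm σ.U (σ.lam t) < σ.CH := (mem_filter.mp ht).2
      rw [σ.marg_U, min_eq_left (not_lt.mp a1)]
  have h4 := rho_le σ.CH (σ.U ⊔ spn σ.lam F) (σ.JF F)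
  have h5 : rho σ.CH (σ.U ⊔ spn σ.lam F) = _ := h
  have h6 := Nat.mul_le_mul_left σ.CH h2
  rw [σ.rho_U, h3] at h5
  rw [mul_add] at h6
  have h7 : fC σ.CH (σ.U ⊔ spn σ.lam F) (σ.JF F) = rho σ.CH (σ.U ⊔ spn σ.lam F) := by
    unfold fC at h4 h5 ⊢
    omega
  unfold fC at h4 h5
  refine ⟨fun t ht t' ht' c c' hne => ofree_disj (F.filter σ.Lt) (fun t => supp (σ.dl t))
    (by omega) (mem_filter.mpr ⟨ht, c⟩) (mem_filter.mpr ⟨ht', c'⟩) hne, safe_of_min h7, ?_⟩
  refine Nat.eq_of_mul_eq_mul_left hC ?_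
  rw [mul_add]
  omega

theorem HF_le (F : Finset T) : σ.HF F ≤ co σ.Y := by
  refine (map_off_le _ _).trans (co_mono fun i hi => ?_)
  by_contra c
  exact mem_compl.mp hi (mem_union_left _ (mem_compl.mpr c))

theorem self_mem_Mid (e : T) : e ∈ σ.Mid e := by
  refine mem_filter.mpr ⟨mem_univ _, 1, one_ne_zero, ?_⟩
  rw [one_smul, sub_self, wtm_eq_zero.mpr (Submodule.zero_mem _)]
  exact Nat.zero_le _

/-- short representatives along the line of a heavy term are unique. -/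
theorem rep_unique {e t : T} (he : σ.Heavy e) {u : ZMod p} (hu : u ≠ 0) {d : Vec p X}
    (hd : σ.lam t - u • σ.lam e - d ∈ σ.U) (hY : supp d ⊆ σ.Y) (hw : wt d < 2 * σ.CH) :
    t ∈ σ.Mid e ∧ σ.uu e t = u ∧ σ.dd e t = d := by
  have h0 := wtm_le hd
  have hm : t ∈ σ.Mid e := mem_filter.mpr ⟨mem_univ _, u, hu, by omega⟩
  obtain ⟨-, r2, r3, r4, r5⟩ := σ.rep e t hm
  have h1 : (σ.uu e t - u) • σ.lam e - (d - σ.dd e t) ∈ σ.U := by
    have := σ.U.sub_mem hd r2
    have e1 : σ.lam t - u • σ.lam e - d - (σ.lam t - σ.uu e t • σ.lam e - σ.dd e t) =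
        (σ.uu e t - u) • σ.lam e - (d - σ.dd e t) := by
      rw [sub_smul]
      abel
    rwa [e1] at this
  have h2 : σ.uu e t = u := by
    by_contra c
    have a1 := wtm_le h1
    rw [wtm_smul _ (sub_ne_zero.mpr c)] at a1
    have a2 := wt_sub_le d (σ.dd e t)
    have a3 : 9 * σ.CH ≤ wtm σ.U (σ.lam e) := he
    omega
  refine ⟨hm, h2, ?_⟩
  rw [h2, sub_self, zero_smul, zero_sub, neg_sub] at h1
  rw [h2] at r4
  by_contra c
  have a1 : off σ.Yᶜ (σ.dd e t - d) = σ.dd e t - d := by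
    funext i
    rw [off_apply]
    split_ifs with hi
    · have b1 : σ.dd e t i = 0 := by
        by_contra b
        exact mem_compl.mp hi (r3 (mem_supp.mpr b))
      have b2 : d i = 0 := by
        by_contra b
        exact mem_compl.mp hi (hY (mem_supp.mpr b))
      rw [Pi.sub_apply, b1, b2, sub_zero]
    · rfl
  have a2 := σ.safe.le_wt (Submodule.mem_map_of_mem (f := off σ.Yᶜ) h1)
    (by rw [a1]; exact sub_ne_zero.mpr c)
  rw [a1] at a2
  have a3 := wt_sub_le (σ.dd e t) d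
  omega

theorem LCl_subset (e : T) : σ.LCl e ⊆ σ.Mid e := filter_subset _ _

theorem Qs_subset (e : T) : σ.Qs e ⊆ σ.Y :=
  biUnion_subset.mpr fun t ht => (σ.rep e t (σ.LCl_subset e ht)).2.2.1

theorem U_le_Ht (Γ : Finset T) : σ.U ⊔ spn σ.lam Γ ≤ σ.Ht Γ := le_sup_left

theorem co_Jt_le (Γ : Finset T) : co (σ.Jt Γ) ≤ σ.Ht Γ := le_sup_right

theorem compl_subset_Jt (Γ : Finset T) : σ.Yᶜ ⊆ σ.Jt Γ :=
  subset_Jmax (by have := σ.one_le_CH; omega) (σ.hY.trans le_sup_left)

theorem safe_Ht (Γ : Finset T) : Safe (2 * σ.CH) ((σ.Ht Γ).map (off (σ.Jt Γ))) := by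
  have h := safe_of_min (fC_Jmax (2 * σ.CH) (σ.U ⊔ spn σ.lam Γ))
  rw [← map_off_sup_co] at h
  exact h

theorem Ht_mono {Γ Γ' : Finset T} (h : Γ ⊆ Γ') : σ.Ht Γ ≤ σ.Ht Γ' :=
  sup_le_sup (sup_le_sup_left (spn_mono _ h) _)
    (co_mono (Jmax_mono _ (sup_le_sup_left (spn_mono _ h) _)))

theorem moved_mono {Γ Γ' : Finset T} (h : Γ ⊆ Γ') {e : T} (he : σ.Moved Γ e) : σ.Moved Γ' e := by
  rcases he with h1 | ⟨t, u, hu, h2⟩
  · exact Or.inl ((wtm_anti (σ.Ht_mono h) _).trans_lt h1)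
  · exact Or.inr ⟨t, u, hu, (min_le_min_left _ (wtm_anti (σ.Ht_mono h) _)).trans_lt h2⟩

theorem Qs_subset_Jt {Γ : Finset T} {e : T} (h : σ.Mid e ⊆ Γ) : σ.Qs e ⊆ σ.Jt Γ := by
  refine biUnion_subset.mpr fun t ht => ?_
  have hm := σ.LCl_subset e ht
  have hr : wt (σ.dd e t) ≤ σ.r := (mem_filter.mp ht).2
  have h1 : σ.dd e t ∈ σ.Ht Γ := by
    have a1 : σ.lam t ∈ σ.Ht Γ := σ.U_le_Ht Γ (Submodule.mem_sup_right (mem_spn _ (h hm)))
    have a2 : σ.lam e ∈ σ.Ht Γ :=
      σ.U_le_Ht Γ (Submodule.mem_sup_right (mem_spn _ (h (σ.self_mem_Mid e))))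
    have a3 := σ.U_le_Ht Γ (Submodule.mem_sup_left (σ.rep e t hm).2.1)
    have := (σ.Ht Γ).sub_mem ((σ.Ht Γ).sub_mem a1 ((σ.Ht Γ).smul_mem (σ.uu e t) a2)) a3
    rwa [sub_sub_cancel] at this
  have h2 : off (σ.Jt Γ) (σ.dd e t) = 0 := by
    by_contra c
    have a1 := (σ.safe_Ht Γ).le_wt (Submodule.mem_map_of_mem (f := off (σ.Jt Γ)) h1) c
    have a2 : wt (off (σ.Jt Γ) (σ.dd e t)) ≤ wt (σ.dd e t) := by
      unfold wt
      rw [supp_off]
      exact card_le_card sdiff_subset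
    have := σ.hr
    omega
  intro i hi
  by_contra c
  have a1 := congrFun h2 i
  rw [off_apply, if_neg c] at a1
  exact mem_supp.mp hi a1

theorem heavy_Ht {Γ : Finset T} {e : T} (h : ¬ σ.Moved Γ e) :
    9 * σ.CH ≤ wtm (σ.Ht Γ) (σ.lam e) :=
  not_lt.mp fun c => h (Or.inl c)

theorem ofree_keep {Γ : Finset T} {e : T} (h : ¬ σ.Moved Γ e) (t : T) {u : ZMod p} (hu : u ≠ 0) :
    min (4 * σ.CH + 1) (wtm σ.U (σ.lam t - u • σ.lam e)) ≤
      wtm (σ.Ht Γ) (σ.lam t - u • σ.lam e) :=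
  (not_lt.mp fun c => h (Or.inr ⟨t, u, hu, c⟩)).trans (min_le_right _ _)

theorem disjoint_Qs_Jt {Γ : Finset T} {e : T} (h : ¬ σ.Moved Γ e) :
    Disjoint (σ.Qs e) (σ.Jt Γ) := by
  refine (disjoint_biUnion_left _ _ _).mpr fun t ht => ?_
  obtain ⟨r1, r2, -, r4, r5⟩ := σ.rep e t (σ.LCl_subset e ht)
  by_contra c
  have a1 := wtm_drop (σ.co_Jt_le Γ) (σ.U_le_Ht Γ (Submodule.mem_sup_left r2)) c
  have a2 := σ.ofree_keep h t r1
  omega

theorem far_Ht {Γ : Finset T} {e t : T} (he : σ.Heavy e) (h : ¬ σ.Moved Γ e) (ht : t ∈ σ.Mid e)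
    (ht' : t ∉ σ.LCl e) (u u' : ZMod p) (hu : u ≠ 0 ∨ u' ≠ 0) :
    σ.r < wtm (σ.Ht Γ) (u • σ.lam e + u' • σ.lam t) := by
  have hH := σ.heavy_Ht h
  have hr := σ.hr
  obtain ⟨r1, r2, -, r4, r5⟩ := σ.rep e t ht
  have h1 : σ.r < wt (σ.dd e t) := not_le.mp fun c => ht' (mem_filter.mpr ⟨ht, c⟩)
  by_cases c : u' = 0
  · rw [c, zero_smul, add_zero, wtm_smul _ (hu.resolve_right (not_not.mpr c))]
    omega
  have e1 : u • σ.lam e + u' • σ.lam t = u' • (σ.lam t - (-(u'⁻¹ * u)) • σ.lam e) := by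
    rw [neg_smul, sub_neg_eq_add, smul_add, smul_smul, ← mul_assoc, mul_inv_cancel₀ c, one_mul,
      add_comm]
  rw [e1, wtm_smul _ c]
  generalize -(u'⁻¹ * u) = v
  by_cases c' : σ.uu e t = v
  · have a2 := σ.ofree_keep h t r1
    rw [← c']
    omega
  · have a1 : wtm (σ.Ht Γ) (-(σ.lam t - σ.uu e t • σ.lam e)) ≤ wt (-σ.dd e t) := by
      refine wtm_le ?_
      rw [← neg_sub', neg_mem_iff]
      exact σ.U_le_Ht Γ (Submodule.mem_sup_left r2)
    have a2 := wtm_add_le (σ.Ht Γ) (σ.lam t - v • σ.lam e) (-(σ.lam t - σ.uu e t • σ.lam e))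
    have e2 : σ.lam t - v • σ.lam e + -(σ.lam t - σ.uu e t • σ.lam e) =
        (σ.uu e t - v) • σ.lam e := by
      rw [sub_smul]
      abel
    rw [e2, wtm_smul _ (sub_ne_zero.mpr c')] at a2
    rw [wt_neg] at a1
    omega

/-- an unmoved term keeps its full margin. -/
theorem marg_unmoved {Γ : Finset T} {e : T} (h : ¬ σ.Moved Γ e) :
    marg σ.CH (σ.U ⊔ spn σ.lam Γ) (σ.lam e) = σ.CH := by
  have h1 := marg_anti σ.CH (σ.U_le_Ht Γ) (σ.lam e)
  have h2 := marg_le σ.CH (σ.U ⊔ spn σ.lam Γ) (σ.lam e)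
  have h3 := σ.heavy_Ht h
  rw [marg_eq_min σ.one_le_CH (σ.co_Jt_le Γ) (σ.safe_Ht Γ)] at h1
  omega

theorem marg_unmoved_insert {Γ : Finset T} {e t : T} (h : ¬ σ.Moved Γ e) (ht : t ∉ σ.Mid e) :
    marg σ.CH (σ.U ⊔ spn σ.lam (insert t Γ)) (σ.lam e) = σ.CH := by
  have h0 : σ.U ⊔ spn σ.lam (insert t Γ) ≤ σ.Ht Γ ⊔ Submodule.span (ZMod p) {σ.lam t} := by
    rw [spn_insert, ← sup_assoc]
    exact sup_le_sup_right (σ.U_le_Ht Γ) _
  have h1 := marg_anti σ.CH h0 (σ.lam e)
  have h2 := marg_le σ.CH (σ.U ⊔ spn σ.lam (insert t Γ)) (σ.lam e)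
  have h3 := σ.heavy_Ht h
  rw [marg_nbhd σ.one_le_CH (σ.co_Jt_le Γ) (σ.safe_Ht Γ) (σ.lam e) (σ.lam t) fun i => ?_] at h1
  · omega
  by_cases c : i = 0
  · rw [c, zero_smul, add_zero]
    omega
  have e1 : σ.lam e + i • σ.lam t = i • (σ.lam t - (-i⁻¹) • σ.lam e) := by
    rw [neg_smul, sub_neg_eq_add, smul_add, smul_smul, mul_inv_cancel₀ c, one_smul, add_comm]
  have hu : -i⁻¹ ≠ 0 := neg_ne_zero.mpr (inv_ne_zero c)
  have a1 := σ.ofree_keep h t hu
  have a2 : ¬ wtm σ.U (σ.lam t - (-i⁻¹) • σ.lam e) ≤ 4 * σ.CH := fun b =>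
    ht (mem_filter.mpr ⟨mem_univ _, _, hu, b⟩)
  rw [e1, wtm_smul _ c]
  omega

theorem hit_mono (a : Finset X) (C' : ℕ) (e : T) {H H' : Sub p X} (h : H ≤ H')
    (hh : σ.Hit a C' e H) : σ.Hit a C' e H' := by
  have h1 : H ⊔ co aᶜ ≤ H' ⊔ co aᶜ := sup_le_sup_right h _
  rcases hh with c | c
  · exact Or.inl ((marg_anti _ h1 _).trans_lt c)
  · exact Or.inr fun b => c (b.mono_right (Jmax_mono _ h1))

end Ext

end Pool.Agent.P.MP_85fe51_lc.OD
end

-- part Pool.Agent.P.MP_85fe51_lc.OProb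
section

set_option autoImplicit false

namespace Pool.Agent.P.MP_85fe51_lc.OD

open Finset
open scoped Classical

section
variable {Ω : Type}

theorem pr_nonneg (s : Finset Ω) (P : Ω → Prop) : 0 ≤ pr s P :=
  expect_nonneg fun x _ => by split_ifs <;> norm_num

theorem pr_le_one (s : Finset Ω) (P : Ω → Prop) : pr s P ≤ 1 := by
  rcases s.eq_empty_or_nonempty with rfl | hs
  · simp [pr]
  · exact expect_le hs fun x _ => by split_ifs <;> norm_num

theorem pr_mono (s : Finset Ω) {P Q : Ω → Prop} (h : ∀ x ∈ s, P x → Q x) : pr s P ≤ pr s Q := by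
  refine expect_le_expect fun x hx => ?_
  by_cases hP : P x
  · simp [hP, h x hx hP]
  · rw [if_neg hP]
    split_ifs <;> norm_num

theorem pr_eq_card (s : Finset Ω) (P : Ω → Prop) :
    pr s P = ((s.filter P).card : ℝ) / s.card := by
  rw [pr, expect_eq_sum_div_card, sum_boole]

theorem pr_or_le (s : Finset Ω) (P Q : Ω → Prop) :
    pr s (fun x => P x ∨ Q x) ≤ pr s P + pr s Q := by
  rw [pr, pr, pr, ← expect_add_distrib]
  refine expect_le_expect fun x _ => ?_
  by_cases hP : P x <;> by_cases hQ : Q x <;> simp [hP, hQ]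

theorem pr_exists_le {ι : Type} (s : Finset Ω) (I : Finset ι) (P : ι → Ω → Prop) :
    pr s (fun x => ∃ i ∈ I, P i x) ≤ ∑ i ∈ I, pr s (P i) := by
  unfold pr
  rw [← expect_sum_comm]
  refine expect_le_expect fun x _ => ?_
  have h0 : ∀ i ∈ I, (0 : ℝ) ≤ if P i x then 1 else 0 := fun i _ => by split_ifs <;> norm_num
  split_ifs with h
  · obtain ⟨i, hi, hP⟩ := h
    simpa [hP] using single_le_sum h0 hi
  · exact sum_nonneg h0

theorem pr_not (s : Finset Ω) (hs : s.Nonempty) (P : Ω → Prop) :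
    pr s (fun x => ¬ P x) = 1 - pr s P := by
  rw [eq_sub_iff_add_eq, pr, pr, ← expect_add_distrib]
  refine Eq.trans (expect_congr rfl fun x _ => ?_) (expect_const hs (1 : ℝ))
  by_cases hP : P x <;> simp [hP]

/-- Markov. -/
theorem pr_markov (s : Finset Ω) (f : Ω → ℝ) (hf : ∀ x ∈ s, 0 ≤ f x) (y : ℝ) :
    y * pr s (fun x => y ≤ f x) ≤ s.expect f := by
  rw [pr, mul_expect]
  refine expect_le_expect fun x hx => ?_
  split_ifs with h
  · simpa using h
  · simpa using hf x hx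

theorem pr_filter (s : Finset Ω) (P Q : Ω → Prop) :
    pr s (fun x => P x ∧ Q x) = pr s P * pr (s.filter P) Q := by
  rw [pr_eq_card, pr_eq_card, pr_eq_card, filter_filter]
  rcases eq_or_ne ((s.filter P).card : ℝ) 0 with h | h
  · have h1 : s.filter P = ∅ := by simpa using h
    have h2 : s.filter (fun x => P x ∧ Q x) = ∅ := by
      rw [← filter_filter, h1, filter_empty]
    rw [h]
    simp only [zero_div, zero_mul, div_eq_zero_iff, Nat.cast_eq_zero, card_eq_zero]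
    left
    simpa using h2
  · rw [div_mul_div_comm, mul_comm (s.card : ℝ), mul_div_mul_left _ _ h]
    congr

/-- conditioning on the value of `D`. -/
theorem expect_cond {E Δ : Type} [RCLike E] (s : Finset Ω) (D : Ω → Δ) (F : Ω → E) :
    s.expect F = s.expect (fun x => (s.filter (fun y => D y = D x)).expect F) := by
  simp only [expect_eq_sum_div_card]
  congr 1
  simp only [sum_div, sum_filter]
  rw [sum_comm]
  refine sum_congr rfl fun y hy => ?_
  have h1 : ∀ x ∈ s, (if D y = D x then F y else 0) / ((s.filter (fun z => D z = D x)).card : E) =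
      if D x = D y then F y / ((s.filter (fun z => D z = D y)).card : E) else 0 := by
    intro x _
    by_cases h : D x = D y
    · simp [h]
    · simp [h, Ne.symm h]
  rw [sum_congr rfl h1, ← sum_filter, sum_const, nsmul_eq_mul, mul_div_cancel₀]
  exact Nat.cast_ne_zero.2 (card_ne_zero.2 ⟨y, mem_filter.2 ⟨hy, rfl⟩⟩)

/-- a factor that is constant on the classes of `D`. -/
theorem expect_cond_mul {Δ : Type} (s : Finset Ω) (D : Ω → Δ) (F G : Ω → ℝ)
    (hF : ∀ x ∈ s, ∀ y ∈ s, D x = D y → F x = F y) :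
    s.expect (fun x => F x * G x) =
      s.expect (fun x => F x * (s.filter (fun y => D y = D x)).expect G) := by
  rw [expect_cond s D]
  refine expect_congr rfl fun x hx => ?_
  rw [mul_expect]
  refine expect_congr rfl fun y hy => ?_
  rw [hF y (mem_filter.1 hy).1 x hx (mem_filter.1 hy).2]

variable {κ : Type} [Fintype κ] [DecidableEq κ]

theorem expect_update {E : Type} [RCLike E] (K : κ → Finset Ω) (i : κ) (F : (κ → Ω) → E) :
    (Fintype.piFinset K).expect F =
      (Fintype.piFinset K).expect (fun x => (K i).expect (fun y => F (Function.update x i y))) := by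
  rcases (K i).eq_empty_or_nonempty with h | h
  · have : Fintype.piFinset K = ∅ := Fintype.piFinset_eq_empty.2 ⟨i, h⟩
    simp [this]
  have hm : ∀ z ∈ Fintype.piFinset K ×ˢ K i,
      (Function.update z.1 i z.2, z.1 i) ∈ Fintype.piFinset K ×ˢ K i := by
    intro z hz
    obtain ⟨h1, h2⟩ := mem_product.1 hz
    rw [Fintype.mem_piFinset] at h1
    refine mem_product.2 ⟨Fintype.mem_piFinset.2 fun l => ?_, h1 i⟩
    by_cases e : l = i
    · subst e
      simpa using h2
    · simpa [e] using h1 l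
  rw [← expect_product' (Fintype.piFinset K) (K i) fun x y => F (Function.update x i y)]
  calc (Fintype.piFinset K).expect F
      = (Fintype.piFinset K).expect (fun x => (K i).expect (fun _ => F x)) :=
        expect_congr rfl fun x _ => (expect_const h _).symm
    _ = (Fintype.piFinset K ×ˢ K i).expect (fun z => F z.1) :=
        (expect_product' (Fintype.piFinset K) (K i) fun x _ => F x).symm
    _ = _ := by
        refine expect_nbij' (fun z => (Function.update z.1 i z.2, z.1 i))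
          (fun z => (Function.update z.1 i z.2, z.1 i)) hm hm (fun z _ => by simp)
          (fun z _ => by simp) (fun z _ => by simp)

theorem oprob_pi_prod {Ω₁ Ω₂ : Type} (S : κ → Finset Ω₁) (S' : κ → Finset Ω₂)
    (H : (κ → Ω₁) → (κ → Ω₂) → ℂ) :
    (Fintype.piFinset fun i => S i ×ˢ S' i).expect
        (fun z => H (fun i => (z i).1) (fun i => (z i).2)) =
      (Fintype.piFinset S).expect (fun x => (Fintype.piFinset S').expect (fun x' => H x x')) := by
  rw [← expect_product']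
  refine expect_nbij' (fun z => (fun i => (z i).1, fun i => (z i).2))
    (fun w i => (w.1 i, w.2 i)) ?_ ?_ (fun _ _ => rfl) (fun _ _ => rfl) (fun _ _ => rfl)
  · intro z hz
    rw [Fintype.mem_piFinset] at hz
    exact mem_product.2 ⟨Fintype.mem_piFinset.2 fun i => (mem_product.1 (hz i)).1,
      Fintype.mem_piFinset.2 fun i => (mem_product.1 (hz i)).2⟩
  · intro w hw
    obtain ⟨h1, h2⟩ := mem_product.1 hw
    rw [Fintype.mem_piFinset] at h1 h2
    exact Fintype.mem_piFinset.2 fun i => mem_product.2 ⟨h1 i, h2 i⟩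

/-- hybrid argument over the coordinates. -/
theorem hybrid {Ω₁ Ω₂ : Type} (S : κ → Finset Ω₁) (S' : κ → Finset Ω₂)
    (hS : ∀ i, (S i).Nonempty) (hS' : ∀ i, (S' i).Nonempty)
    (f : κ → Ω₁ → Ω) (g : κ → Ω₂ → Ω) (G : (κ → Ω) → ℂ) (δ : ℝ)
    (h : ∀ i, ∀ y : κ → Ω, ‖(S i).expect (fun a => G (Function.update y i (f i a))) -
      (S' i).expect (fun a => G (Function.update y i (g i a)))‖ ≤ δ) :
    ‖(Fintype.piFinset S).expect (fun x => G (fun i => f i (x i))) -
      (Fintype.piFinset S').expect (fun x => G (fun i => g i (x i)))‖ ≤ Fintype.card κ * δ := by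
  let m : Finset κ → (κ → Ω₁ × Ω₂) → κ → Ω := fun J z i =>
    if i ∈ J then g i (z i).2 else f i (z i).1
  let A : Finset κ → ℂ := fun J =>
    (Fintype.piFinset fun i => S i ×ˢ S' i).expect (fun z => G (m J z))
  have hne : (Fintype.piFinset fun i => S i ×ˢ S' i).Nonempty :=
    Fintype.piFinset_nonempty.2 fun i => (hS i).product (hS' i)
  have step : ∀ J i, i ∉ J → ‖A J - A (insert i J)‖ ≤ δ := by
    intro J i hi
    have e1 : ∀ z y, m J (Function.update z i y) = Function.update (m J z) i (f i y.1) := by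
      intro z y
      funext l
      by_cases e : l = i
      · subst e
        simp [m, hi]
      · simp [m, e]
    have e2 : ∀ z y,
        m (insert i J) (Function.update z i y) = Function.update (m J z) i (g i y.2) := by
      intro z y
      funext l
      by_cases e : l = i
      · subst e
        simp [m]
      · simp [m, e]
    have e3 : ∀ φ : Ω₁ → ℂ, (S i ×ˢ S' i).expect (fun y => φ y.1) = (S i).expect φ := by
      intro φ
      rw [expect_product' (S i) (S' i) fun a _ => φ a]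
      exact expect_congr rfl fun a _ => expect_const (hS' i) _
    have e4 : ∀ φ : Ω₂ → ℂ, (S i ×ˢ S' i).expect (fun y => φ y.2) = (S' i).expect φ := by
      intro φ
      rw [expect_product' (S i) (S' i) fun _ a => φ a]
      exact expect_const (hS i) _
    simp only [A]
    rw [expect_update _ i, expect_update _ i fun z => G (m (insert i J) z), ← expect_sub_distrib]
    refine (RCLike.norm_expect_le (K := ℂ)).trans (expect_le hne fun z _ => ?_)
    simp only [e1, e2]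
    rw [e3 fun a => G (Function.update (m J z) i (f i a)),
      e4 fun a => G (Function.update (m J z) i (g i a))]
    exact h i _
  have all : ∀ J : Finset κ, ‖A ∅ - A J‖ ≤ J.card * δ := by
    intro J
    induction J using Finset.induction_on with
    | empty => simp
    | insert i J hi ih =>
      rw [card_insert_of_notMem hi, Nat.cast_succ, add_mul, one_mul]
      exact (norm_sub_le_norm_sub_add_norm_sub _ (A J) _).trans (add_le_add ih (step J i hi))
  have a0 : A ∅ = (Fintype.piFinset S).expect (fun x => G (fun i => f i (x i))) := by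
    refine Eq.trans ?_ ((oprob_pi_prod S S' fun x _ => G (fun i => f i (x i))).trans ?_)
    · simp [A, m]
    · exact expect_congr rfl fun x _ => expect_const (Fintype.piFinset_nonempty.2 hS') _
  have a1 : A univ = (Fintype.piFinset S').expect (fun x => G (fun i => g i (x i))) := by
    refine Eq.trans ?_ ((oprob_pi_prod S S' fun _ x => G (fun i => g i (x i))).trans ?_)
    · simp [A, m]
    · exact expect_const (Fintype.piFinset_nonempty.2 hS) _
  rw [← a0, ← a1]
  exact all univ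

/-- independence of disjoint pairs of coordinates. -/
theorem expect_prod_pairs {B : Type} [Fintype B] (K : κ → Finset Ω) (hK : ∀ i, (K i).Nonempty)
    (i0 i1 : B → κ) (h0 : Function.Injective i0) (h1 : Function.Injective i1)
    (h01 : ∀ b b', i0 b ≠ i1 b') (G : B → Ω → Ω → ℝ) :
    (Fintype.piFinset K).expect (fun x => ∏ b, G b (x (i0 b)) (x (i1 b))) =
      ∏ b, (K (i0 b)).expect (fun y => (K (i1 b)).expect (fun y' => G b y y')) := by
  have all : ∀ I : Finset B,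
      (Fintype.piFinset K).expect (fun x => ∏ b ∈ I, G b (x (i0 b)) (x (i1 b))) =
        ∏ b ∈ I, (K (i0 b)).expect (fun y => (K (i1 b)).expect (fun y' => G b y y')) := by
    intro I
    induction I using Finset.induction_on with
    | empty => simpa using expect_const (Fintype.piFinset_nonempty.2 hK) (1 : ℝ)
    | insert b I hb ih =>
      have r0 : ∀ (x : κ → Ω) y, ∏ c ∈ I, G c (Function.update x (i0 b) y (i0 c))
          (Function.update x (i0 b) y (i1 c)) = ∏ c ∈ I, G c (x (i0 c)) (x (i1 c)) := by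
        intro x y
        refine prod_congr rfl fun c hc => ?_
        rw [Function.update_of_ne (h01 b c).symm,
          Function.update_of_ne (h0.ne (ne_of_mem_of_not_mem hc hb))]
      have r1 : ∀ (x : κ → Ω) y, ∏ c ∈ I, G c (Function.update x (i1 b) y (i0 c))
          (Function.update x (i1 b) y (i1 c)) = ∏ c ∈ I, G c (x (i0 c)) (x (i1 c)) := by
        intro x y
        refine prod_congr rfl fun c hc => ?_
        rw [Function.update_of_ne (h01 c b), Function.update_of_ne (h1.ne (ne_of_mem_of_not_mem hc hb))]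
      simp only [prod_insert hb]
      rw [expect_update K (i1 b)]
      simp only [r1, Function.update_self, Function.update_of_ne (h01 b b), ← expect_mul]
      rw [expect_update K (i0 b)]
      simp only [r0, Function.update_self, ← expect_mul, ← mul_expect]
      rw [ih]
  exact all univ

end

section
variable {X : Type} [DecidableEq X]

theorem expect_powerset_union {E : Type} [RCLike E] {a b : Finset X} (h : Disjoint a b)
    (F : Finset X → E) :
    (a ∪ b).powerset.expect F =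
      a.powerset.expect (fun A => b.powerset.expect (fun B => F (A ∪ B))) := by
  rw [← expect_product' a.powerset b.powerset fun A B => F (A ∪ B)]
  have hu : ∀ C ∈ (a ∪ b).powerset, C ∩ a ∪ C ∩ b = C := fun C hC => by
    rw [← inter_union_distrib_left, inter_eq_left.2 (mem_powerset.1 hC)]
  refine expect_nbij' (fun C => (C ∩ a, C ∩ b)) (fun w => w.1 ∪ w.2) ?_ ?_ hu ?_
    (fun C hC => by rw [hu C hC])
  · intro C _
    exact mem_product.2 ⟨mem_powerset.2 inter_subset_right, mem_powerset.2 inter_subset_right⟩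
  · intro w hw
    obtain ⟨h1, h2⟩ := mem_product.1 hw
    exact mem_powerset.2 (union_subset_union (mem_powerset.1 h1) (mem_powerset.1 h2))
  · intro w hw
    obtain ⟨h1, h2⟩ := mem_product.1 hw
    rw [mem_powerset] at h1 h2
    have d1 : w.2 ∩ a = ∅ := disjoint_iff_inter_eq_empty.1 (h.symm.mono_left h2)
    have d2 : w.1 ∩ b = ∅ := disjoint_iff_inter_eq_empty.1 (h.mono_left h1)
    refine Prod.ext ?_ ?_
    · simp only [union_inter_distrib_right, d1, union_empty, inter_eq_left.2 h1]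
    · simp only [union_inter_distrib_right, d2, empty_union, inter_eq_left.2 h2]

theorem oprob_split {E : Type} [RCLike E] (a Q : Finset X) (F : Finset X → E) :
    a.powerset.expect F =
      (a ∩ Q).powerset.expect (fun A => (a \ Q).powerset.expect (fun B => F (A ∪ B))) := by
  rw [← expect_powerset_union (disjoint_sdiff_inter a Q).symm, union_comm, sdiff_union_inter]

theorem oprob_facts {a Q A B : Finset X} (hA : A ∈ (a ∩ Q).powerset) (hB : B ∈ (a \ Q).powerset) :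
    A ∪ B ⊆ a ∧ (A ∪ B) ∩ Q = A ∧ (A ∪ B) ∩ (a \ Q) = B := by
  rw [mem_powerset] at hA hB
  refine ⟨union_subset (hA.trans inter_subset_left) (hB.trans sdiff_subset), ?_, ?_⟩
  · ext x
    have h1 := @hA x
    have h2 := @hB x
    simp only [mem_inter, mem_union, mem_sdiff] at h1 h2 ⊢
    tauto
  · ext x
    have h1 := @hA x
    have h2 := @hB x
    simp only [mem_inter, mem_union, mem_sdiff] at h1 h2 ⊢
    tauto

theorem expect_powerset_inter {E : Type} [RCLike E] (a Q : Finset X) (F : Finset X → E)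
    (hF : ∀ A, A ⊆ a → F A = F (A ∩ Q)) :
    a.powerset.expect F = (a ∩ Q).powerset.expect F := by
  rw [oprob_split a Q]
  refine expect_congr rfl fun A hA => ?_
  rw [← expect_const (powerset_nonempty (a \ Q)) (F A)]
  refine expect_congr rfl fun B hB => ?_
  obtain ⟨h1, h2, -⟩ := oprob_facts hA hB
  rw [hF _ h1, h2]

theorem oprob_two (a Q : Finset X) (F R : Finset X → ℝ) (hF : ∀ A, A ⊆ a → F A = F (A ∩ Q))
    (hR : ∀ A, A ⊆ a → R A = R (A ∩ (a \ Q))) :
    a.powerset.expect (fun A => F A * R A) = a.powerset.expect F * a.powerset.expect R := by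
  rw [oprob_split a Q, expect_powerset_inter a Q F hF, expect_powerset_inter a _ R hR,
    inter_eq_right.2 sdiff_subset, expect_mul_expect]
  refine expect_congr rfl fun A hA => expect_congr rfl fun B hB => ?_
  obtain ⟨h1, h2, h3⟩ := oprob_facts hA hB
  rw [hF _ h1, hR _ h1, h2, h3]

theorem expect_powerset_prod {ι : Type} (a : Finset X) (I : Finset ι) (Q : ι → Finset X)
    (hQ : ∀ i ∈ I, ∀ i' ∈ I, i ≠ i' → Disjoint (Q i) (Q i')) (F : ι → Finset X → ℝ)
    (hF : ∀ i ∈ I, ∀ A, A ⊆ a → F i A = F i (A ∩ Q i)) :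
    a.powerset.expect (fun A => ∏ i ∈ I, F i A) = ∏ i ∈ I, a.powerset.expect (F i) := by
  induction I using Finset.induction_on with
  | empty => simpa using expect_const (powerset_nonempty a) (1 : ℝ)
  | insert i I hi ih =>
    simp only [prod_insert hi]
    rw [oprob_two a (Q i) (F i) (fun A => ∏ l ∈ I, F l A) (hF i (mem_insert_self _ _)),
      ih (fun l hl l' hl' => hQ l (mem_insert_of_mem hl) l' (mem_insert_of_mem hl'))
        fun l hl => hF l (mem_insert_of_mem hl)]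
    intro A hA
    refine prod_congr rfl fun l hl => ?_
    have hd := hQ i (mem_insert_self _ _) l (mem_insert_of_mem hl) fun e => hi (e ▸ hl)
    rw [hF l (mem_insert_of_mem hl) A hA,
      hF l (mem_insert_of_mem hl) (A ∩ (a \ Q i)) (inter_subset_left.trans hA)]
    congr 1
    ext x
    have h1 := @hA x
    have h2 := @disjoint_left.1 hd x
    simp only [mem_inter, mem_sdiff]
    tauto

end

end Pool.Agent.P.MP_85fe51_lc.OD
end

-- part Pool.Agent.P.MP_85fe51_lc.ODot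
section

set_option autoImplicit false
set_option linter.unusedSectionVars false

namespace Pool.Agent.P.MP_85fe51_lc.OD

open Finset
open scoped Classical

variable {p : ℕ} [Fact p.Prime]

theorem ch_add (a b : ZMod p) : ch (a + b) = ch a * ch b :=
  AddChar.map_add_eq_mul _ a b

theorem ch_zero : ch (0 : ZMod p) = 1 := AddChar.map_zero_eq_one _

theorem norm_ch (a : ZMod p) : ‖ch a‖ = 1 := by
  unfold ch
  rw [ZMod.stdAddChar_apply]
  exact Circle.norm_coe _

theorem ch_eq_one {a : ZMod p} : ch a = 1 ↔ a = 0 := by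
  constructor
  · intro h
    apply ZMod.injective_stdAddChar
    rw [AddChar.map_zero_eq_one]
    exact h
  · rintro rfl
    exact ch_zero

theorem sum_ch_mul (a : ZMod p) : ∑ i : ZMod p, ch (i * a) = if a = 0 then (p : ℂ) else 0 := by
  have h := AddChar.sum_mulShift a (ZMod.isPrimitive_stdAddChar p)
  unfold ch
  rw [h, ZMod.card]
  split_ifs <;> simp

/-- Fourier inversion on the prime field. -/
theorem fourier_inv (g : ZMod p → ℂ) (s : ZMod p) :
    g s = ∑ i : ZMod p, ch (i * s) *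
      (univ : Finset (ZMod p)).expect (fun s' => ch (-(i * s')) * g s') := by
  have hp : (p : ℂ) ≠ 0 := Nat.cast_ne_zero.mpr (Fact.out : p.Prime).ne_zero
  simp only [Finset.expect_eq_sum_div_card, Finset.card_univ, ZMod.card]
  have h1 : ∀ i : ZMod p, ch (i * s) * ((∑ s' : ZMod p, ch (-(i * s')) * g s') / (p : ℂ)) =
      ∑ s' : ZMod p, ch (i * (s - s')) * g s' / (p : ℂ) := by
    intro i
    rw [Finset.sum_div, Finset.mul_sum]
    refine Finset.sum_congr rfl (fun s' _ => ?_)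
    rw [show i * (s - s') = i * s + -(i * s') by ring, ch_add]
    ring
  rw [Finset.sum_congr rfl (fun i _ => h1 i), Finset.sum_comm]
  have h2 : ∀ s' : ZMod p, ∑ i : ZMod p, ch (i * (s - s')) * g s' / (p : ℂ) =
      if s = s' then g s' else 0 := by
    intro s'
    rw [← Finset.sum_div, ← Finset.sum_mul, sum_ch_mul]
    by_cases h : s = s'
    · rw [if_pos (sub_eq_zero.mpr h), if_pos h]
      field_simp
    · rw [if_neg (fun h' => h (sub_eq_zero.mp h')), if_neg h]
      simp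
  rw [Finset.sum_congr rfl (fun s' _ => h2 s')]
  simp

theorem piK_pos (k : ℕ) : 0 < piK p k := by
  have h : (1 : ℝ) < p := by exact_mod_cast (Fact.out : p.Prime).one_lt
  unfold piK
  apply pow_pos
  rw [sub_pos, div_lt_one (by linarith)]
  exact h

theorem piK_le_one (k : ℕ) : piK p k ≤ 1 := by
  have h : (1 : ℝ) < p := by exact_mod_cast (Fact.out : p.Prime).one_lt
  unfold piK
  apply pow_le_one₀
  · rw [sub_nonneg, div_le_one (by linarith)]
    exact h.le
  · have : (0 : ℝ) ≤ 1 / (p : ℝ) := by positivity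
    linarith

theorem noP_of_coprime {V : Type} [AddCommGroup V] {m : ℕ} (hm : Nat.Coprime m p)
    (hV : ∀ v : V, m • v = 0) : NoP p V := by
  intro v hv
  have h1 : addOrderOf v ∣ m := addOrderOf_dvd_of_nsmul_eq_zero (hV v)
  have h2 : addOrderOf v ∣ p := addOrderOf_dvd_of_nsmul_eq_zero hv
  have h3 : addOrderOf v = 1 := Nat.eq_one_of_dvd_coprimes hm h1 h2
  exact AddMonoid.addOrderOf_eq_one_iff.mp h3

variable {X : Type} [Fintype X] [DecidableEq X]

theorem dot_empty (η : Vec p X) : dot η ∅ = 0 := Finset.sum_empty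

theorem dot_zero (A : Finset X) : dot (0 : Vec p X) A = 0 := by
  simp [dot]

theorem dot_add (η η' : Vec p X) (A : Finset X) : dot (η + η') A = dot η A + dot η' A := by
  simp [dot, Finset.sum_add_distrib]

theorem dot_sub (η η' : Vec p X) (A : Finset X) : dot (η - η') A = dot η A - dot η' A := by
  simp [dot, Finset.sum_sub_distrib]

theorem dot_smul (u : ZMod p) (η : Vec p X) (A : Finset X) : dot (u • η) A = u * dot η A := by
  simp [dot, Finset.mul_sum]

theorem dot_sum {ι : Type} (I : Finset ι) (η : ι → Vec p X) (A : Finset X) :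
    dot (∑ i ∈ I, η i) A = ∑ i ∈ I, dot (η i) A := by
  simp only [dot, Finset.sum_apply]
  exact Finset.sum_comm

theorem dot_union (η : Vec p X) {A B : Finset X} (h : Disjoint A B) :
    dot η (A ∪ B) = dot η A + dot η B := Finset.sum_union h

theorem dot_biUnion {ι : Type} (η : Vec p X) (I : Finset ι) (x : ι → Finset X)
    (h : ∀ a ∈ I, ∀ b ∈ I, a ≠ b → Disjoint (x a) (x b)) :
    dot η (I.biUnion x) = ∑ a ∈ I, dot η (x a) :=
  Finset.sum_biUnion (fun a ha b hb hab => h a ha b hb hab)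

theorem dot_inter {η : Vec p X} {Q A : Finset X} (h : supp η ∩ A ⊆ Q) :
    dot η (A ∩ Q) = dot η A := by
  unfold dot
  refine Finset.sum_subset Finset.inter_subset_left (fun i hi hn => ?_)
  by_contra h0
  have h1 : i ∈ supp η := by
    simp only [supp, mem_filter, mem_univ, true_and]
    exact h0
  exact hn (mem_inter.mpr ⟨hi, h (mem_inter.mpr ⟨h1, hi⟩)⟩)

theorem dot_off (J : Finset X) (η : Vec p X) (A : Finset X) : dot (off J η) A = dot η (A \ J) := by
  unfold dot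
  rw [Finset.sdiff_eq_filter, Finset.sum_filter]
  refine Finset.sum_congr rfl (fun i _ => ?_)
  rw [off_apply]
  by_cases h : i ∈ J <;> simp [h]

theorem dot_of_disjoint {η : Vec p X} {A : Finset X} (h : Disjoint (supp η) A) : dot η A = 0 := by
  unfold dot
  refine Finset.sum_eq_zero (fun i hi => ?_)
  by_contra h0
  have h1 : i ∈ supp η := by
    simp only [supp, mem_filter, mem_univ, true_and]
    exact h0
  exact Finset.disjoint_left.mp h h1 hi

theorem mem_Ker {U : Sub p X} {a A : Finset X} : A ∈ Ker U a ↔ A ⊆ a ∧ KerP U A := by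
  simp only [Ker, mem_filter, mem_powerset]

theorem mem_fib {H : Sub p X} {a A0 A : Finset X} :
    A ∈ fib H a A0 ↔ A ⊆ a ∧ ∀ η ∈ H, dot η A = dot η A0 := by
  simp only [fib, mem_filter, mem_powerset]

theorem empty_mem_Ker (U : Sub p X) (a : Finset X) : ∅ ∈ Ker U a :=
  mem_Ker.mpr ⟨Finset.empty_subset _, fun η _ => dot_empty η⟩

theorem Ker_eq_fib (U : Sub p X) (a : Finset X) : Ker U a = fib U a ∅ := by
  ext A
  rw [mem_Ker, mem_fib]
  simp only [KerP, dot_empty]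

theorem kerP_empty (U : Sub p X) : KerP U ∅ := fun η _ => dot_empty η

theorem kerP_union {U : Sub p X} {A B : Finset X} (h : Disjoint A B) (hA : KerP U A)
    (hB : KerP U B) : KerP U (A ∪ B) := by
  intro η hη
  rw [dot_union η h, hA η hη, hB η hη, add_zero]

theorem KerP.dot_rep {U : Sub p X} {A : Finset X} (hA : KerP U A) {v v' d : Vec p X} {u : ZMod p}
    (h : v - u • v' - d ∈ U) : dot v A = u * dot v' A + dot d A := by
  have h1 := hA _ h
  rw [dot_sub, dot_sub, dot_smul] at h1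
  linear_combination h1

theorem odot_split (η : Vec p X) (A J : Finset X) :
    dot η A = dot η (A ∩ J) + dot η (A \ J) := by
  rw [← dot_union η (Finset.disjoint_sdiff_inter A J).symm]
  congr 1
  ext i
  by_cases h : i ∈ J <;> simp [h]

theorem odot_single (i : X) (A : Finset X) :
    dot (Pi.single i (1 : ZMod p) : Vec p X) A = if i ∈ A then 1 else 0 := by
  unfold dot
  simp [Finset.sum_pi_single']

theorem odot_inter_eq {H : Sub p X} {J a A0 A : Finset X} (hJ : co J ≤ H)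
    (h : A ∈ fib H a A0) : A ∩ J = A0 ∩ J := by
  have key : ∀ i ∈ J, (i ∈ A ↔ i ∈ A0) := by
    intro i hi
    have h1 : (Pi.single i (1 : ZMod p) : Vec p X) ∈ (co J : Sub p X) := by
      intro j hj
      have : j ≠ i := fun e => hj (e ▸ hi)
      exact Pi.single_eq_of_ne this _
    have h2 := (mem_fib.mp h).2 _ (hJ h1)
    rw [odot_single, odot_single] at h2
    by_cases hA : i ∈ A <;> by_cases hB : i ∈ A0 <;> simp_all
  ext i
  simp only [mem_inter]
  exact ⟨fun x => ⟨(key i x.2).mp x.1, x.2⟩, fun x => ⟨(key i x.2).mpr x.1, x.2⟩⟩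

theorem odot_fwd {H : Sub p X} {J a A0 A : Finset X} (hJ : co J ≤ H) (h : A ∈ fib H a A0) :
    A \ J ∈ fib (H.map (off J)) (a \ J) (A0 \ J) := by
  have e := odot_inter_eq hJ h
  rw [mem_fib] at h ⊢
  refine ⟨Finset.sdiff_subset_sdiff h.1 (subset_refl _), ?_⟩
  rintro _ ⟨η, hη, rfl⟩
  rw [dot_off, dot_off, Finset.sdiff_idem, Finset.sdiff_idem]
  have h1 := h.2 η hη
  rw [odot_split η A J, odot_split η A0 J, e] at h1
  exact add_left_cancel h1

theorem odot_disj {J a A0 B : Finset X} (h : B ⊆ a \ J) : Disjoint (A0 ∩ J) B :=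
  Finset.disjoint_left.mpr (fun _ hi hb => (mem_sdiff.mp (h hb)).2 (mem_inter.mp hi).2)

theorem odot_bwd {H : Sub p X} {J a A0 B : Finset X} (hA : A0 ⊆ a)
    (h : B ∈ fib (H.map (off J)) (a \ J) (A0 \ J)) : A0 ∩ J ∪ B ∈ fib H a A0 := by
  rw [mem_fib] at h ⊢
  refine ⟨Finset.union_subset (Finset.inter_subset_left.trans hA)
    (h.1.trans Finset.sdiff_subset), fun η hη => ?_⟩
  have h1 := h.2 (off J η) ⟨η, hη, rfl⟩
  have h2 : B \ J = B := by
    ext i
    simp only [mem_sdiff]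
    exact ⟨fun x => x.1, fun x => ⟨x, (mem_sdiff.mp (h.1 x)).2⟩⟩
  rw [dot_off, dot_off, Finset.sdiff_idem, h2] at h1
  rw [dot_union η (odot_disj h.1), h1, ← odot_split]

theorem odot_left {H : Sub p X} {J a A0 A : Finset X} (hJ : co J ≤ H) (h : A ∈ fib H a A0) :
    A0 ∩ J ∪ A \ J = A := by
  rw [← odot_inter_eq hJ h]
  ext i
  by_cases h : i ∈ J <;> simp [h]

theorem odot_right {J a A0 B : Finset X} (h : B ⊆ a \ J) : (A0 ∩ J ∪ B) \ J = B := by
  ext i
  simp only [mem_sdiff, mem_union, mem_inter]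
  constructor
  · rintro ⟨h1 | h1, h2⟩
    · exact absurd h1.2 h2
    · exact h1
  · intro x
    exact ⟨Or.inr x, (mem_sdiff.mp (h x)).2⟩

/-- a class of a space containing `co J` is a class off `J`. -/
theorem expect_fib_off {E : Type} [RCLike E] {H : Sub p X} {J a A0 : Finset X} (hJ : co J ≤ H)
    (hA : A0 ⊆ a) (g : Finset X → E) :
    (fib H a A0).expect g =
      (fib (H.map (off J)) (a \ J) (A0 \ J)).expect (fun B => g (A0 ∩ J ∪ B)) := by
  refine Finset.expect_nbij' (fun A => A \ J) (fun B => A0 ∩ J ∪ B) ?_ ?_ ?_ ?_ ?_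
  · exact fun A hA' => odot_fwd hJ hA'
  · exact fun B hB => odot_bwd hA hB
  · exact fun A hA' => odot_left hJ hA'
  · exact fun B hB => odot_right (mem_fib.mp hB).1
  · intro A hA'
    rw [odot_left hJ hA']

theorem card_fib_off {H : Sub p X} {J a A0 : Finset X} (hJ : co J ≤ H) (hA : A0 ⊆ a) :
    (fib H a A0).card = (fib (H.map (off J)) (a \ J) (A0 \ J)).card := by
  refine Finset.card_nbij' (fun A => A \ J) (fun B => A0 ∩ J ∪ B) ?_ ?_ ?_ ?_
  · exact fun A hA' => odot_fwd hJ hA'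
  · exact fun B hB => odot_bwd hA hB
  · exact fun A hA' => odot_left hJ hA'
  · exact fun B hB => odot_right (mem_fib.mp hB).1

/-- conditioning a class on the class of a larger space. -/
theorem expect_fib_cond {E : Type} [RCLike E] {H H' : Sub p X} (h : H ≤ H') (a A0 : Finset X)
    (g : Finset X → E) :
    (fib H a A0).expect g = (fib H a A0).expect (fun A => (fib H' a A).expect g) := by
  rw [expect_cond (fib H a A0) (fun A => fun η : H' => dot (η : Vec p X) A) g]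
  refine Finset.expect_congr rfl (fun A hA => ?_)
  congr 1
  ext B
  simp only [mem_filter, mem_fib]
  constructor
  · rintro ⟨h1, h2⟩
    exact ⟨h1.1, fun η hη => congrFun h2 ⟨η, hη⟩⟩
  · rintro ⟨h1, h2⟩
    refine ⟨⟨h1, fun η hη => ?_⟩, funext (fun η => h2 η.1 η.2)⟩
    rw [h2 η (h hη)]
    exact (mem_fib.mp hA).2 η hη

end Pool.Agent.P.MP_85fe51_lc.OD
end

-- part Pool.Agent.P.MP_85fe51_lc.OEw
section

set_option autoImplicit false

namespace Pool.Agent.P.MP_85fe51_lc.OD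

open Finset
open scoped Classical

variable {X L : Type} [Fintype X] [DecidableEq X] [Fintype L]

theorem Ew_prod (w g : X → L → ℝ) :
    Ew w (fun l => ∏ i, g i (l i)) = ∏ i, ∑ a, w i a * g i a := by
  unfold Ew
  rw [Finset.prod_univ_sum, Fintype.piFinset_univ]
  exact Finset.sum_congr rfl fun l _ => (Finset.prod_mul_distrib).symm

theorem oew_one {w : X → L → ℝ} (hw : IsW w) : ∑ l : X → L, ∏ i, w i (l i) = 1 := by
  have h := Ew_prod w fun _ _ => 1
  simpa [Ew, hw.2] using h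

theorem oew_nonneg {w : X → L → ℝ} (hw : IsW w) (l : X → L) : 0 ≤ ∏ i, w i (l i) :=
  Finset.prod_nonneg fun i _ => hw.1 i _

theorem Ew_const {w : X → L → ℝ} (hw : IsW w) (c : ℝ) : Ew w (fun _ => c) = c := by
  unfold Ew
  rw [← Finset.sum_mul, oew_one hw, one_mul]

theorem Ew_mono {w : X → L → ℝ} (hw : IsW w) {F G : (X → L) → ℝ}
    (h : ∀ l, (∀ i, w i (l i) ≠ 0) → F l ≤ G l) : Ew w F ≤ Ew w G := by
  refine Finset.sum_le_sum fun l _ => ?_
  by_cases a : ∀ i, w i (l i) ≠ 0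
  · exact mul_le_mul_of_nonneg_left (h l a) (oew_nonneg hw l)
  · push Not at a
    obtain ⟨i, a⟩ := a
    rw [Finset.prod_eq_zero (Finset.mem_univ i) a, zero_mul, zero_mul]

theorem Ew_add (w : X → L → ℝ) (F G : (X → L) → ℝ) :
    Ew w (fun l => F l + G l) = Ew w F + Ew w G := by
  simp only [Ew, mul_add, Finset.sum_add_distrib]

theorem Ew_sub (w : X → L → ℝ) (F G : (X → L) → ℝ) :
    Ew w (fun l => F l - G l) = Ew w F - Ew w G := by
  simp only [Ew, mul_sub, Finset.sum_sub_distrib]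

theorem Ew_mul (w : X → L → ℝ) (c : ℝ) (F : (X → L) → ℝ) :
    Ew w (fun l => c * F l) = c * Ew w F := by
  simp only [Ew, Finset.mul_sum, mul_left_comm]

theorem Ew_sum {ι : Type} (w : X → L → ℝ) (I : Finset ι) (F : ι → (X → L) → ℝ) :
    Ew w (fun l => ∑ i ∈ I, F i l) = ∑ i ∈ I, Ew w (F i) := by
  simp only [Ew, Finset.mul_sum]
  exact Finset.sum_comm

theorem Ew_nonneg {w : X → L → ℝ} (hw : IsW w) {F : (X → L) → ℝ} (h : ∀ l, 0 ≤ F l) :
    0 ≤ Ew w F :=   Finset.sum_nonneg fun l _ => mul_nonneg (oew_nonneg hw l) (h l)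

theorem Pw_nonneg {w : X → L → ℝ} (hw : IsW w) (P : (X → L) → Prop) : 0 ≤ Pw w P :=   Ew_nonneg hw fun l => by split_ifs <;> norm_num

theorem Pw_le_one {w : X → L → ℝ} (hw : IsW w) (P : (X → L) → Prop) : Pw w P ≤ 1 :=   (Ew_mono hw fun l _ => by split_ifs <;> norm_num).trans (Ew_const hw 1).le

theorem Pw_mono {w : X → L → ℝ} (hw : IsW w) {P Q : (X → L) → Prop}
    (h : ∀ l, (∀ i, w i (l i) ≠ 0) → P l → Q l) : Pw w P ≤ Pw w Q := by
  refine Ew_mono hw fun l a => ?_
  by_cases b : P l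
  · rw [if_pos b, if_pos (h l a b)]
  · rw [if_neg b]
    split_ifs <;> norm_num

theorem Pw_or_le {w : X → L → ℝ} (hw : IsW w) (P Q : (X → L) → Prop) :
    Pw w (fun l => P l ∨ Q l) ≤ Pw w P + Pw w Q := by
  unfold Pw
  rw [← Ew_add]
  refine Ew_mono hw fun l _ => ?_
  by_cases a : P l <;> by_cases b : Q l <;> simp [a, b]

theorem Pw_exists_le {ι : Type} {w : X → L → ℝ} (hw : IsW w) (I : Finset ι)
    (P : ι → (X → L) → Prop) : Pw w (fun l => ∃ i ∈ I, P i l) ≤ ∑ i ∈ I, Pw w (P i) := by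
  unfold Pw
  rw [← Ew_sum]
  refine Ew_mono hw fun l _ => ?_
  have h0 : ∀ i ∈ I, (0 : ℝ) ≤ if P i l then 1 else 0 := fun i _ => by split_ifs <;> norm_num
  split_ifs with a
  · obtain ⟨i, hi, a⟩ := a
    exact le_trans (if_pos a).ge (Finset.single_le_sum h0 hi)
  · exact Finset.sum_nonneg h0

theorem Pw_exists_not {w : X → L → ℝ} (hw : IsW w) {P : (X → L) → Prop} (h : Pw w P < 1) :
    ∃ l, ¬ P l := by
  by_contra a
  push Not at a
  have e : Pw w P = 1 := by
    unfold Pw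
    simp only [a, if_true]
    exact Ew_const hw 1
  exact h.ne e

theorem Ew_markov {w : X → L → ℝ} (hw : IsW w) (F : (X → L) → ℝ) (hF : ∀ l, 0 ≤ F l) (y : ℝ) :
    y * Pw w (fun l => y ≤ F l) ≤ Ew w F := by
  unfold Pw
  rw [← Ew_mul]
  refine Ew_mono hw fun l _ => ?_
  split_ifs with a
  · rwa [mul_one]
  · rw [mul_zero]
    exact hF l

/-- a bounded function with a large mean is large off a rare event. -/
theorem Ew_exists_off {w : X → L → ℝ} (hw : IsW w) (F : (X → L) → ℝ) (hF : ∀ l, F l ≤ 1)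
    (P : (X → L) → Prop) {β : ℝ} (hβ : β ≤ Ew w F) (hP : Pw w P < β / 2) :
    ∃ l, β / 2 ≤ F l ∧ ¬ P l := by
  by_contra a
  push Not at a
  have h0 := Pw_nonneg hw P
  have h1 : Ew w F ≤ Ew w fun l => β / 2 + if P l then 1 else 0 := by
    refine Ew_mono hw fun l _ => ?_
    split_ifs with b
    · linarith [hF l]
    · have := mt (a l) b
      linarith [not_le.1 this]
  rw [Ew_add, Ew_const hw] at h1
  change Ew w F ≤ β / 2 + Pw w P at h1
  linarith

theorem Ew_exists {w : X → L → ℝ} (hw : IsW w) (F G : (X → L) → ℝ) (h : Ew w F < Ew w G) :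
    ∃ l, (∀ i, w i (l i) ≠ 0) ∧ F l < G l := by
  by_contra a
  push Not at a
  exact h.not_ge (Ew_mono hw a)

theorem oew_two {w : X → L → ℝ} (hw : IsW w) (Q : Finset X) (F G : (X → L) → ℝ)
    (hF : ∀ l l', (∀ x ∈ Q, l x = l' x) → F l = F l')
    (hG : ∀ l l', (∀ x ∉ Q, l x = l' x) → G l = G l') :
    Ew w (fun l => F l * G l) = Ew w F * Ew w G := by
  let σ : (X → L) × (X → L) → (X → L) × (X → L) := fun a =>
    (fun x => if x ∈ Q then a.1 x else a.2 x, fun x => if x ∈ Q then a.2 x else a.1 x)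
  have hσ : Function.Involutive σ := fun a => by
    refine Prod.ext (funext fun x => ?_) (funext fun x => ?_) <;>
      by_cases h : x ∈ Q <;> simp [σ, h]
  rw [← mul_one (Ew w fun l => F l * G l), ← oew_one hw]
  unfold Ew
  rw [Finset.sum_mul_sum, Finset.sum_mul_sum, ← Fintype.sum_prod_type',
    ← Fintype.sum_prod_type', ← Equiv.sum_comp (hσ.toPerm σ)]
  refine Finset.sum_congr rfl fun a _ => ?_
  change (∏ i, w i ((σ a).1 i)) * (F (σ a).1 * G (σ a).1) * ∏ i, w i ((σ a).2 i) = _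
  have e : (∏ i, w i ((σ a).1 i)) * ∏ i, w i ((σ a).2 i) =
      (∏ i, w i (a.1 i)) * ∏ i, w i (a.2 i) := by
    rw [← Finset.prod_mul_distrib, ← Finset.prod_mul_distrib]
    refine Finset.prod_congr rfl fun x _ => ?_
    by_cases h : x ∈ Q <;> simp [σ, h, mul_comm]
  rw [hF (σ a).1 a.1 fun x h => if_pos h, hG (σ a).1 a.2 fun x h => if_neg h]
  linear_combination (F a.1 * G a.2) * e

/-- independence of functions of disjoint coordinate sets. -/
theorem Ew_indep {ι : Type} {w : X → L → ℝ} (hw : IsW w) (I : Finset ι) (Q : ι → Finset X)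
    (hQ : ∀ i ∈ I, ∀ i' ∈ I, i ≠ i' → Disjoint (Q i) (Q i')) (F : ι → (X → L) → ℝ)
    (hF : ∀ i ∈ I, ∀ l l', (∀ x ∈ Q i, l x = l' x) → F i l = F i l') :
    Ew w (fun l => ∏ i ∈ I, F i l) = ∏ i ∈ I, Ew w (F i) := by
  induction I using Finset.induction_on with
  | empty => simpa using Ew_const hw 1
  | insert a I ha ih =>
    simp only [Finset.prod_insert ha]
    rw [oew_two hw (Q a) (F a) _ (hF a (Finset.mem_insert_self _ _)) fun l l' h =>
      Finset.prod_congr rfl fun i hi => hF i (Finset.mem_insert_of_mem hi) l l' fun x hx =>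
        h x (Finset.disjoint_right.1 (hQ a (Finset.mem_insert_self _ _) i
          (Finset.mem_insert_of_mem hi) fun e => ha (e ▸ hi)) hx),
      ih (fun i hi i' hi' => hQ i (Finset.mem_insert_of_mem hi) i' (Finset.mem_insert_of_mem hi'))
        fun i hi => hF i (Finset.mem_insert_of_mem hi)]

theorem Ew_mix (α : ℝ) (w₁ w₀ : L → ℝ) (F : (X → L) → ℝ) :
    Ew (fun _ a => α * w₁ a + (1 - α) * w₀ a) F =
      Ew (fun (_ : X) (b : Bool) => if b then α else 1 - α)
        (fun β => Ew (fun i => if β i then w₁ else w₀) F) := by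
  unfold Ew
  simp only [Finset.mul_sum]
  rw [Finset.sum_comm]
  refine Finset.sum_congr rfl fun l _ => ?_
  have e : ∀ i, α * w₁ (l i) + (1 - α) * w₀ (l i) =
      ∑ b : Bool, (if b then α else 1 - α) * (if b then w₁ else w₀) (l i) := fun i => by simp
  simp only [e]
  rw [Finset.prod_univ_sum, Fintype.piFinset_univ, Finset.sum_mul]
  exact Finset.sum_congr rfl fun β _ => by rw [Finset.prod_mul_distrib, mul_assoc]

theorem Ew_swap {L' : Type} [Fintype L'] (w : X → L → ℝ) (w' : X → L' → ℝ)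
    (F : (X → L) → (X → L') → ℝ) :
    Ew w (fun l => Ew w' (fun l' => F l l')) = Ew w' (fun l' => Ew w (fun l => F l l')) := by
  simp only [Ew, Finset.mul_sum]
  rw [Finset.sum_comm]
  exact Finset.sum_congr rfl fun _ _ => Finset.sum_congr rfl fun _ _ => mul_left_comm _ _ _

theorem Ew_pair {L' : Type} [Fintype L'] (w : X → L → ℝ) (w' : X → L' → ℝ)
    (F : (X → L) → (X → L') → ℝ) :
    Ew w (fun l => Ew w' (fun l' => F l l')) =
      Ew (fun i (a : L × L') => w i a.1 * w' i a.2)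
        (fun l => F (fun i => (l i).1) (fun i => (l i).2)) := by
  simp only [Ew, Finset.mul_sum]
  rw [← Fintype.sum_prod_type', ← Equiv.sum_comp (Equiv.arrowProdEquivProdArrow X
    (fun _ => L) fun _ => L')]
  exact Finset.sum_congr rfl fun l _ => by rw [Finset.prod_mul_distrib, mul_assoc]; rfl

theorem isW_pair {L' : Type} [Fintype L'] {w : X → L → ℝ} {w' : X → L' → ℝ} (hw : IsW w)
    (hw' : IsW w') : IsW (fun i (a : L × L') => w i a.1 * w' i a.2) :=   ⟨fun i a => mul_nonneg (hw.1 i _) (hw'.1 i _), fun i => by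
    rw [Fintype.sum_prod_type' fun a b => w i a * w' i b, ← Finset.sum_mul_sum, hw.2, hw'.2,
      one_mul]⟩

theorem oew_on {w : X → L → ℝ} (hw : IsW w) (I : Finset X) (g : L → ℝ) :
    Ew w (fun l => ∏ i ∈ I, g (l i)) = ∏ i ∈ I, ∑ a, w i a * g a := by
  have h := Ew_prod w fun i a => if i ∈ I then g a else 1
  simp only [Finset.prod_ite_mem, Finset.univ_inter] at h
  rw [h, ← Finset.univ_inter I, ← Finset.prod_ite_mem, Finset.univ_inter]
  refine Finset.prod_congr rfl fun i _ => ?_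
  split_ifs
  · rfl
  · simp [hw.2]

theorem oew_p0 {w : X → L → ℝ} (hw : IsW w) (S : L → Prop) (i : X) :
    0 ≤ ∑ a ∈ univ.filter S, w i a := Finset.sum_nonneg fun a _ => hw.1 i a

theorem oew_p1 {w : X → L → ℝ} (hw : IsW w) (S : L → Prop) (i : X) :
    ∑ a ∈ univ.filter S, w i a ≤ 1 :=
  (Finset.sum_le_sum_of_subset_of_nonneg (Finset.filter_subset _ _)
    fun a _ _ => hw.1 i a).trans (hw.2 i).le

/-- all coordinates of `I` get a label in `S`. -/
theorem Pw_all {w : X → L → ℝ} (hw : IsW w) (I : Finset X) (S : L → Prop) :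
    Pw w (fun l => ∀ i ∈ I, S (l i)) = ∏ i ∈ I, ∑ a ∈ univ.filter S, w i a := by
  have h := oew_on hw I fun a => if S a then 1 else 0
  simp only [mul_ite, mul_one, mul_zero, ← Finset.sum_filter] at h
  rw [← h]
  unfold Pw
  congr 1
  funext l
  rw [Finset.prod_boole]
  congr

/-- many points of `D` get a label in `S`. -/
theorem Pw_many {w : X → L → ℝ} (hw : IsW w) (D : Finset X) (S : L → Prop) {ρ : ℝ} (hρ : 0 ≤ ρ)
    (h : ∀ i ∈ D, ∑ a ∈ univ.filter S, w i a ≤ ρ) (c : ℕ) :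
    Pw w (fun l => c ≤ (D.filter (fun i => S (l i))).card) ≤ (D.card * ρ) ^ c := by
  calc _ ≤ Pw w (fun l => ∃ J ∈ D.powersetCard c, ∀ i ∈ J, S (l i)) := by
        refine Pw_mono hw fun l _ a => ?_
        obtain ⟨J, h1, h2⟩ := Finset.exists_subset_card_eq a
        exact ⟨J, Finset.mem_powersetCard.2 ⟨h1.trans (Finset.filter_subset _ _), h2⟩,
          fun i hi => (Finset.mem_filter.1 (h1 hi)).2⟩
    _ ≤ ∑ J ∈ D.powersetCard c, Pw w (fun l => ∀ i ∈ J, S (l i)) := Pw_exists_le hw _ _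
    _ ≤ ∑ _J ∈ D.powersetCard c, ρ ^ c := by
        refine Finset.sum_le_sum fun J hJ => ?_
        obtain ⟨h1, h2⟩ := Finset.mem_powersetCard.1 hJ
        rw [Pw_all hw, ← h2, ← Finset.prod_const]
        exact Finset.prod_le_prod (fun i _ => oew_p0 hw S i) fun i hi => h i (h1 hi)
    _ ≤ (D.card * ρ) ^ c := by
        rw [Finset.sum_const, Finset.card_powersetCard, nsmul_eq_mul, mul_pow]
        refine mul_le_mul_of_nonneg_right ?_ (pow_nonneg hρ c)
        exact_mod_cast Nat.choose_le_pow _ _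

theorem oew_pow {w : X → L → ℝ} (hw : IsW w) (D : Finset X) (S : L → Prop) (θ : ℝ) :
    Ew w (fun l => θ ^ (D.filter (fun i => S (l i))).card) =
      ∏ i ∈ D, (1 + (∑ a ∈ univ.filter S, w i a) * (θ - 1)) := by
  have h := oew_on hw D fun a => if S a then θ else 1
  simp only [← Finset.prod_filter, Finset.prod_const] at h
  rw [h]
  refine Finset.prod_congr rfl fun i _ => ?_
  rw [Finset.sum_filter, Finset.sum_mul]
  nth_rewrite 2 [← hw.2 i]
  rw [← Finset.sum_add_distrib]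
  refine Finset.sum_congr rfl fun a _ => ?_
  split_ifs <;> ring

theorem Ew_pow_card_le {w : X → L → ℝ} (hw : IsW w) (D : Finset X) (S : L → Prop) {ρ θ : ℝ}
    (hθ0 : 0 ≤ θ) (hθ1 : θ ≤ 1) (h : ∀ i ∈ D, ρ ≤ ∑ a ∈ univ.filter S, w i a) :
    Ew w (fun l => θ ^ (D.filter (fun i => S (l i))).card) ≤
      Real.exp (-(ρ * (1 - θ)) * D.card) := by
  rw [oew_pow hw, mul_comm, Real.exp_nat_mul, ← Finset.prod_const]
  refine Finset.prod_le_prod (fun i _ => ?_) fun i hi => ?_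
  · nlinarith [oew_p0 hw S i, oew_p1 hw S i]
  · nlinarith [h i hi, Real.add_one_le_exp (-(ρ * (1 - θ)))]

theorem Ew_pow_card_ge_one {w : X → L → ℝ} (hw : IsW w) (D : Finset X) (S : L → Prop) {ρ θ : ℝ}
    (hθ : 1 ≤ θ) (h : ∀ i ∈ D, ∑ a ∈ univ.filter S, w i a ≤ ρ) :
    Ew w (fun l => θ ^ (D.filter (fun i => S (l i))).card) ≤ (1 + ρ * (θ - 1)) ^ D.card := by
  rw [oew_pow hw, ← Finset.prod_const]
  refine Finset.prod_le_prod (fun i _ => ?_) fun i hi => ?_
  · nlinarith [oew_p0 hw S i]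
  · nlinarith [h i hi]

/-- few points of `D` get a label in `S`. -/
theorem Pw_few {w : X → L → ℝ} (hw : IsW w) (D : Finset X) (S : L → Prop) {ρ : ℝ}
    (h : ∀ i ∈ D, ρ ≤ ∑ a ∈ univ.filter S, w i a) :
    Pw w (fun l => ((D.filter (fun i => S (l i))).card : ℝ) < ρ * D.card / 4) ≤
      Real.exp (-(ρ * D.card / 4)) := by
  have hD : (0 : ℝ) ≤ D.card := Nat.cast_nonneg _
  rcases le_total ρ 0 with hρ | hρ
  · exact (Pw_le_one hw _).trans (Real.one_le_exp (by nlinarith))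
  have h1 : Real.exp (-1) ≤ 1 / 2 := by
    rw [Real.exp_neg, one_div]
    exact inv_anti₀ two_pos (by linarith [Real.add_one_le_exp 1])
  have h2 := Ew_pow_card_le hw D S (Real.exp_pos (-1)).le (by linarith) h
  have h3 := Ew_markov hw (fun l => Real.exp (-1) ^ (D.filter (fun i => S (l i))).card)
    (fun l => by positivity) (Real.exp (-(ρ * D.card / 4)))
  have h4 : Pw w (fun l => ((D.filter (fun i => S (l i))).card : ℝ) < ρ * D.card / 4) ≤
      Pw w (fun l => Real.exp (-(ρ * D.card / 4)) ≤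
        Real.exp (-1) ^ (D.filter (fun i => S (l i))).card) := by
    refine Pw_mono hw fun l _ a => ?_
    rw [← Real.exp_nat_mul]
    exact Real.exp_le_exp.2 (by linarith)
  refine h4.trans (le_of_mul_le_mul_left ((h3.trans h2).trans ?_) (Real.exp_pos _))
  rw [← Real.exp_add]
  exact Real.exp_le_exp.2 (by nlinarith [mul_nonneg hρ hD])

/-- half of `D` gets a rare label. -/
theorem Pw_half {w : X → L → ℝ} (hw : IsW w) (D : Finset X) (S : L → Prop)
    (h : ∀ i ∈ D, ∑ a ∈ univ.filter S, w i a ≤ 1 / 16) :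
    Pw w (fun l => D.card ≤ 2 * (D.filter (fun i => S (l i))).card) ≤
      Real.exp (-(D.card / 2 : ℝ)) := by
  have h2 := Ew_pow_card_ge_one hw D S (θ := 4) (by norm_num) h
  have h3 := Ew_markov hw (fun l => (4 : ℝ) ^ (D.filter (fun i => S (l i))).card)
    (fun l => by positivity) (2 ^ D.card)
  have h4 : Pw w (fun l => D.card ≤ 2 * (D.filter (fun i => S (l i))).card) ≤
      Pw w (fun l => (2 : ℝ) ^ D.card ≤ 4 ^ (D.filter (fun i => S (l i))).card) := by
    refine Pw_mono hw fun l _ a => ?_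
    rw [show (4 : ℝ) = 2 ^ 2 by norm_num, ← pow_mul]
    exact pow_le_pow_right₀ one_le_two a
  have h5 : (19 / 32 : ℝ) ≤ Real.exp (-(1 / 2)) := by
    refine le_of_pow_le_pow_left₀ (n := 2) two_ne_zero (Real.exp_pos _).le ?_
    rw [← Real.exp_nat_mul, show ((2 : ℕ) : ℝ) * -(1 / 2) = -1 by norm_num]
    linarith [Real.exp_neg_one_gt_d9]
  refine h4.trans (le_of_mul_le_mul_left ((h3.trans h2).trans ?_)
    (by positivity : (0 : ℝ) < 2 ^ D.card))
  rw [show (-(D.card / 2) : ℝ) = D.card * -(1 / 2) by ring, Real.exp_nat_mul, ← mul_pow]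
  exact pow_le_pow_left₀ (by norm_num) (by linarith) _

theorem oew_coef {k j : ℕ} (hk : 1 ≤ k) (hj : 1 ≤ j) :
    ∑ a : Atom k j, (if a.1 = 0 then 1 / (4 * j : ℝ) else 1 / (4 * j * k : ℝ)) = 1 / 2 := by
  have h1 : (k : ℝ) ≠ 0 := by positivity
  have h2 : (j : ℝ) ≠ 0 := by positivity
  rw [Fintype.sum_prod_type, Fin.sum_univ_succ]
  simp only [if_true, Fin.succ_ne_zero, if_false, Finset.sum_const, Finset.card_univ,
    Fintype.card_fin, nsmul_eq_mul]
  field_simp
  ring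

theorem oew_coef_ge {k j : ℕ} (hk : 1 ≤ k) (hj : 1 ≤ j) (a : Atom k j) :
    1 / (4 * j * k : ℝ) ≤ if a.1 = 0 then 1 / (4 * j : ℝ) else 1 / (4 * j * k : ℝ) := by
  have h1 : (1 : ℝ) ≤ k := by exact_mod_cast hk
  have h2 : (0 : ℝ) < j := by exact_mod_cast hj
  split_ifs
  · exact one_div_le_one_div_of_le (by positivity) (by nlinarith)
  · exact le_rfl

theorem isW_nu (X : Type) {k j : ℕ} (hk : 1 ≤ k) (hj : 1 ≤ j) {τ : ℝ} (h0 : 0 ≤ τ) (h1 : τ ≤ 1) :
    IsW (fun _ : X => nu k j τ) := by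
  refine ⟨fun _ l => ?_, fun _ => ?_⟩
  · rcases l with _ | ⟨a, e⟩
    · simp [nu]
    · exact mul_nonneg (by split_ifs <;> positivity) (by split_ifs <;> linarith)
  · rw [Fintype.sum_option, Fintype.sum_prod_type]
    have e : ∀ a : Atom k j, ∑ e : Bool, nu k j τ (some (a, e)) =
        if a.1 = 0 then 1 / (4 * j : ℝ) else 1 / (4 * j * k : ℝ) := fun a => by
      simp only [Fintype.sum_bool, nu, if_true, Bool.false_eq_true, if_false]
      ring
    simp only [e]
    rw [oew_coef hk hj]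
    norm_num [nu]

theorem nu_sub {k j : ℕ} (hk : 1 ≤ k) (hj : 1 ≤ j) {τ : ℝ} (h0 : 0 ≤ τ) (a : Atom k j) :
    τ / (4 * j * k) ≤ ∑ b ∈ univ.filter (fun b : Lab k j => b = some (a, true)), nu k j τ b := by
  rw [Finset.sum_eq_single_of_mem (some (a, true)) (by simp) fun b hb h =>
    (h (Finset.mem_filter.1 hb).2).elim]
  simp only [nu, if_true]
  rw [div_eq_inv_mul, ← one_div]
  exact mul_le_mul_of_nonneg_right (oew_coef_ge hk hj a) h0

theorem nu_atom {k j : ℕ} (hk : 1 ≤ k) (hj : 1 ≤ j) (τ : ℝ) (a : Atom k j) :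
    1 / (4 * j * k : ℝ) ≤
      ∑ b ∈ univ.filter (fun b : Lab k j => b = some (a, false) ∨ b = some (a, true)),
        nu k j τ b := by
  have e : (univ.filter fun b : Lab k j => b = some (a, false) ∨ b = some (a, true)) =
      {some (a, false), some (a, true)} := by
    ext b
    simp
  rw [e, Finset.sum_pair (by simp)]
  simp only [nu, if_true, Bool.false_eq_true, if_false]
  rw [← mul_add, sub_add_cancel, mul_one]
  exact oew_coef_ge hk hj a

theorem nu_sub_all {k j : ℕ} (hk : 1 ≤ k) (hj : 1 ≤ j) {τ : ℝ} (h0 : 0 ≤ τ) :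
    ∑ b ∈ univ.filter (fun b : Lab k j => ∃ a, b = some (a, true)), nu k j τ b ≤ τ := by
  rw [Finset.sum_filter, Fintype.sum_option, Fintype.sum_prod_type]
  have e : ∀ a : Atom k j, (∑ e : Bool, if ∃ a', (some (a, e) : Lab k j) = some (a', true) then
      nu k j τ (some (a, e)) else 0) =
        (if a.1 = 0 then 1 / (4 * j : ℝ) else 1 / (4 * j * k : ℝ)) * τ := fun a => by
    rw [Fintype.sum_bool, if_pos ⟨a, rfl⟩, if_neg (by simp), add_zero]
    simp only [nu, if_true]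
  simp only [e]
  rw [← Finset.sum_mul, oew_coef hk hj, if_neg (by simp)]
  linarith

end Pool.Agent.P.MP_85fe51_lc.OD
end

-- part Pool.Agent.P.MP_85fe51_lc.OCount
section

set_option autoImplicit false

namespace Pool.Agent.P.MP_85fe51_lc.OD

open Finset
open scoped Classical

variable {p : ℕ} [Fact p.Prime] {X : Type} [Fintype X] [DecidableEq X]

theorem mem_elts {H : Sub p X} {η : Vec p X} : η ∈ elts H ↔ η ∈ H := by
  simp [elts]

theorem card_elts (H : Sub p X) : (elts H).card = p ^ Module.finrank (ZMod p) ↥H := by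
  have h1 := Module.natCard_eq_pow_finrank (K := ZMod p) (V := ↥H)
  rw [Nat.card_zmod] at h1
  rw [← h1, ← Nat.card_eq_finsetCard]
  exact Nat.card_congr (Equiv.subtypeEquivRight fun η => mem_elts)

theorem ocount_low (C t d : ℕ) : ∀ H : Sub p X, Safe C H → Module.finrank (ZMod p) ↥H ≤ d →
    ((elts H).filter (fun η => wt η ≤ C * t)).card ≤ p ^ t * (max d t).choose t := by
  have hp : 1 ≤ p := (Fact.out : p.Prime).one_le
  have base : ∀ d, d ≤ t → ∀ H : Sub p X, Module.finrank (ZMod p) ↥H ≤ d →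
      ((elts H).filter (fun η => wt η ≤ C * t)).card ≤ p ^ t * (max d t).choose t := by
    intro d hd H hH
    rw [max_eq_right hd, Nat.choose_self, mul_one]
    refine (card_filter_le _ _).trans ?_
    rw [card_elts]
    exact Nat.pow_le_pow_right hp (hH.trans hd)
  induction d with
  | zero => exact fun H _ hH => base 0 (Nat.zero_le _) H hH
  | succ d ih =>
    intro H hs hH
    by_cases hd : d + 1 ≤ t
    · exact base _ hd H hH
    have htd : t ≤ d := by omega
    rw [max_eq_left htd] at ih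
    rw [max_eq_left (by omega)]
    by_cases hH' : Module.finrank (ZMod p) ↥H ≤ d
    · exact (ih H hs hH').trans (Nat.mul_le_mul_left _ (Nat.choose_le_choose _ (Nat.le_succ _)))
    have hD : Module.finrank (ZMod p) ↥H = d + 1 := by omega
    obtain ⟨S, hS⟩ : ∃ S : Finset X, ∀ i, i ∈ S ↔ ∃ η ∈ H, η i ≠ 0 :=
      ⟨univ.filter (fun i => ∃ η ∈ H, η i ≠ 0), fun i => by simp⟩
    obtain ⟨A, hA⟩ : ∃ A, A = (elts H).filter (fun η => wt η ≤ C * t) := ⟨_, rfl⟩
    rw [← hA]
    have hle : H ≤ co S := fun η hη i hi => by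
      by_contra h0
      exact hi ((hS i).2 ⟨η, hη, h0⟩)
    have hCS : C * (d + 1) ≤ S.card := by
      have := hs S
      rwa [inf_eq_left.2 hle, hD] at this
    have hpos : 0 < S.card := by
      rw [card_pos]
      by_contra hn
      have : H = ⊥ := by
        refine eq_bot_iff.2 fun η hη => ?_
        rw [Submodule.mem_bot]
        funext i
        exact hle hη i fun hi => hn ⟨i, hi⟩
      rw [this, finrank_bot] at hD
      omega
    have h1 : ∀ i ∈ S, (A.filter (fun η => η i = 0)).card ≤ p ^ t * d.choose t := by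
      intro i hi
      have hlt : H ⊓ co {i}ᶜ < H := by
        refine lt_of_le_of_ne inf_le_left fun e => ?_
        obtain ⟨η, hη, h0⟩ := (hS i).1 hi
        rw [← e] at hη
        exact h0 (hη.2 i (by simp))
      have h2 := Submodule.finrank_lt_finrank_of_lt hlt
      refine le_trans (card_le_card fun η hη => ?_)
        (ih (H ⊓ co {i}ᶜ) (hs.sub inf_le_left) (by omega))
      rw [hA, mem_filter, mem_filter, mem_elts] at hη
      rw [mem_filter, mem_elts]
      refine ⟨⟨hη.1.1, fun j hj => ?_⟩, hη.1.2⟩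
      have : j = i := by simpa using hj
      rw [this]; exact hη.2
    have h2 : ∀ η ∈ A, S.card ≤ (S.filter (fun i => η i = 0)).card + C * t := by
      intro η hη
      rw [hA, mem_filter] at hη
      have h3 := card_filter_add_card_filter_not (s := S) (fun i => η i = 0)
      have h4 : (S.filter (fun i => ¬ η i = 0)).card ≤ wt η :=
        card_le_card fun i hi => mem_supp.2 (mem_filter.1 hi).2
      omega
    have h3 : ∑ η ∈ A, (S.filter (fun i => η i = 0)).card =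
        ∑ i ∈ S, (A.filter (fun η => η i = 0)).card := by
      simp only [card_filter]
      exact sum_comm
    have h4 := sum_le_sum h2
    rw [sum_add_distrib, h3, sum_const, sum_const, smul_eq_mul, smul_eq_mul] at h4
    have h5 := sum_le_sum h1
    rw [sum_const, smul_eq_mul] at h5
    have h6 := Nat.choose_mul_succ_eq d t
    obtain ⟨e, he⟩ : ∃ e, d + 1 = t + (e + 1) := ⟨d - t, by omega⟩
    rw [show d + 1 - t = e + 1 by omega] at h6
    generalize (d + 1).choose t = c' at h6 ⊢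
    generalize d.choose t = c at h5 h6
    generalize p ^ t = P at h5 ⊢
    generalize A.card = a at h4 ⊢
    generalize S.card = s at h4 h5 hCS hpos
    have h7 : a * s ≤ s * (P * c) + a * (C * t) := by omega
    have h8 : s * (a * (d + 1)) ≤ s * (P * c * (d + 1) + a * t) := by
      have h9 := Nat.mul_le_mul_right (d + 1) h7
      have h10 := Nat.mul_le_mul_left (a * t) hCS
      nlinarith
    have h9 := Nat.le_of_mul_le_mul_left h8 hpos
    rw [mul_assoc, h6, he] at h9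
    refine Nat.le_of_mul_le_mul_right (c := e + 1) ?_ (Nat.succ_pos _)
    nlinarith

theorem card_low {C : ℕ} {H : Sub p X} (h : Safe C H) (t : ℕ) :
    ((elts H).filter (fun η => wt η ≤ C * t)).card ≤ (p * (Fintype.card X + 1)) ^ t := by
  have h1 : Module.finrank (ZMod p) ↥H ≤ Fintype.card X := by
    have := Submodule.finrank_le H
    rwa [Module.finrank_fintype_fun_eq_card] at this
  refine (ocount_low C t _ H h h1).trans ?_
  rw [mul_pow]
  refine Nat.mul_le_mul_left _ ?_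
  rcases le_total (Fintype.card X) t with h2 | h2
  · rw [max_eq_right h2, Nat.choose_self]
    exact Nat.one_le_pow _ _ (Nat.succ_pos _)
  · rw [max_eq_left h2]
    exact (Nat.choose_le_pow _ _).trans (Nat.pow_le_pow_left (Nat.le_succ _) _)

theorem ocount_tail {C : ℕ} (hC : 1 ≤ C) {H : Sub p X} (h : Safe C H) {θ : ℝ} (h0 : 0 ≤ θ)
    (h1 : θ ≤ 1) (hQ : (p * (Fintype.card X + 1) : ℝ) * θ ^ C ≤ 1 / 2) :
    ∑ η ∈ (elts H).erase 0, θ ^ wt η ≤ 2 * (p * (Fintype.card X + 1) : ℝ) ^ 2 * θ ^ C := by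
  obtain ⟨Q, hQ'⟩ : ∃ Q : ℝ, Q = p * (Fintype.card X + 1) := ⟨_, rfl⟩
  rw [← hQ'] at hQ ⊢
  have hQ0 : 0 ≤ Q := by rw [hQ']; positivity
  have hm : ∀ η ∈ (elts H).erase 0, wt η / C ∈ Ico 1 (Fintype.card X + 1) := by
    intro η hη
    rw [mem_erase, mem_elts] at hη
    rw [mem_Ico]
    refine ⟨(Nat.one_le_div_iff hC).2 (h.le_wt hη.2 hη.1), Nat.lt_succ_of_le ?_⟩
    exact (Nat.div_le_self _ _).trans (card_le_univ _)
  rw [← sum_fiberwise_of_maps_to hm]
  have h2 : ∀ t ∈ Ico 1 (Fintype.card X + 1),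
      ∑ η ∈ ((elts H).erase 0).filter (fun η => wt η / C = t), θ ^ wt η ≤
        Q * (Q * θ ^ C) ^ t := by
    intro t _
    have h3 : ∀ η ∈ ((elts H).erase 0).filter (fun η => wt η / C = t),
        θ ^ wt η ≤ θ ^ (C * t) := fun η hη =>
      pow_le_pow_of_le_one h0 h1 ((mem_filter.1 hη).2 ▸ Nat.mul_div_le _ _)
    refine (sum_le_card_nsmul _ _ _ h3).trans ?_
    have h4 : (((elts H).erase 0).filter (fun η => wt η / C = t)).card ≤
        (p * (Fintype.card X + 1)) ^ (t + 1) := by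
      refine le_trans (card_le_card fun η hη => ?_) (card_low h (t + 1))
      rw [mem_filter] at hη ⊢
      refine ⟨mem_of_mem_erase hη.1, ?_⟩
      rw [← hη.2]
      exact (Nat.lt_mul_div_succ _ hC).le
    have h5 : ((((elts H).erase 0).filter (fun η => wt η / C = t)).card : ℝ) ≤ Q ^ (t + 1) := by
      rw [hQ']; exact_mod_cast h4
    rw [nsmul_eq_mul, mul_pow, ← pow_mul, ← mul_assoc, ← pow_succ']
    exact mul_le_mul_of_nonneg_right h5 (pow_nonneg h0 _)
  refine (sum_le_sum h2).trans ?_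
  rw [← mul_sum]
  have hx : 0 ≤ Q * θ ^ C := mul_nonneg hQ0 (pow_nonneg h0 _)
  have h3 := geom_sum_Ico_le_of_lt_one (m := 1) (n := Fintype.card X + 1) hx (by linarith)
  have h4 : (Q * θ ^ C) ^ 1 / (1 - Q * θ ^ C) ≤ 2 * (Q * θ ^ C) := by
    rw [div_le_iff₀ (by linarith)]
    nlinarith
  have h5 := mul_le_mul_of_nonneg_left (h3.trans h4) hQ0
  linarith

theorem sum_pow_wt {C : ℕ} (hC : 1 ≤ C) {H : Sub p X} (h : Safe C H) {θ : ℝ} (h0 : 0 ≤ θ)
    (h1 : θ ≤ 1) (hQ : (p * (Fintype.card X + 1) : ℝ) * θ ^ C ≤ 1 / 2) :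
    ∑ η ∈ elts H, θ ^ wt η ≤ 1 + 2 * (p * (Fintype.card X + 1) : ℝ) ^ 2 * θ ^ C := by
  rw [← add_sum_erase _ _ (mem_elts.2 H.zero_mem)]
  have h2 : wt (0 : Vec p X) = 0 := by simp [wt, supp]
  rw [h2, pow_zero]
  exact add_le_add le_rfl (ocount_tail hC h h0 h1 hQ)

theorem sum_pow_coset {C : ℕ} (hC : 1 ≤ C) {H : Sub p X} (h : Safe C H) {θ : ℝ} (h0 : 0 ≤ θ)
    (h1 : θ ≤ 1) (hQ : (p * (Fintype.card X + 1) : ℝ) * θ ^ C ≤ 1 / 2) (μ : Vec p X) (w0 : ℕ)
    (hw : ∀ η ∈ H, w0 ≤ wt (μ + η)) :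
    ∑ η ∈ elts H, (θ ^ 2) ^ wt (μ + η) ≤
      (θ ^ 2) ^ w0 + 2 * (p * (Fintype.card X + 1) : ℝ) ^ 2 * θ ^ C := by
  obtain ⟨η0, h2, h3⟩ := exists_min_image (elts H) (fun η => wt (μ + η)) ⟨0, mem_elts.2 H.zero_mem⟩
  rw [← add_sum_erase _ _ h2]
  refine add_le_add (pow_le_pow_of_le_one (pow_nonneg h0 _) (pow_le_one₀ h0 h1)
    (hw _ (mem_elts.1 h2))) (le_trans ?_ (ocount_tail hC h h0 h1 hQ))
  have h4 : ∑ η ∈ (elts H).erase η0, θ ^ wt (η - η0) = ∑ η ∈ (elts H).erase 0, θ ^ wt η := by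
    refine sum_equiv (Equiv.subRight η0) (fun η => ?_) fun η _ => rfl
    rw [mem_erase, mem_erase, mem_elts, mem_elts, Equiv.subRight_apply, Ne, Ne, sub_eq_zero,
      H.sub_mem_iff_left (mem_elts.1 h2)]
  rw [← h4]
  refine sum_le_sum fun η hη => ?_
  rw [← pow_mul]
  refine pow_le_pow_of_le_one h0 h1 ?_
  have h5 := wt_sub_le (μ + η) (μ + η0)
  have h6 := h3 η (mem_of_mem_erase hη)
  rw [add_sub_add_left_eq_sub] at h5
  omega

theorem one_le_enum {θ : ℝ} (h0 : 0 ≤ θ) (H : Sub p X) (a : Finset X) : 1 ≤ enum θ H a := by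
  have h1 := single_le_sum (f := fun η : Vec p X => θ ^ (supp η ∩ a).card)
    (fun η _ => pow_nonneg h0 _) (mem_elts.2 H.zero_mem)
  have h2 : supp (0 : Vec p X) = ∅ := by simp [supp]
  simp only [h2, empty_inter, card_empty, pow_zero] at h1
  exact h1

theorem cenum_nonneg {θ : ℝ} (h0 : 0 ≤ θ) (μ : Vec p X) (H : Sub p X) (a : Finset X) :
    0 ≤ cenum θ μ H a := sum_nonneg fun _ _ => pow_nonneg h0 _

theorem enum_anti {θ : ℝ} (h0 : 0 ≤ θ) (h1 : θ ≤ 1) (H : Sub p X) {a a' : Finset X} (h : a ⊆ a') :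
    enum θ H a' ≤ enum θ H a :=
  sum_le_sum fun _ _ => pow_le_pow_of_le_one h0 h1 (card_le_card (inter_subset_inter_left h))

theorem enum_mono {θ : ℝ} (h0 : 0 ≤ θ) {H H' : Sub p X} (h : H ≤ H') (a : Finset X) :
    enum θ H a ≤ enum θ H' a :=
  sum_le_sum_of_subset_of_nonneg (fun _ hη => mem_elts.2 (h (mem_elts.1 hη)))
    fun _ _ _ => pow_nonneg h0 _

theorem ocount_off (J a : Finset X) (η : Vec p X) :
    supp (off J η) ∩ (a \ J) = supp (off J η) ∩ a := by
  rw [supp_off]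
  ext i
  simp only [mem_inter, mem_sdiff]
  tauto

theorem enum_sdiff (θ : ℝ) (H : Sub p X) (J a : Finset X) :
    enum θ (H.map (off J)) (a \ J) = enum θ (H.map (off J)) a := by
  refine sum_congr rfl fun η hη => ?_
  obtain ⟨η, -, rfl⟩ := mem_elts.1 hη
  rw [ocount_off]

theorem cenum_sdiff (θ : ℝ) (μ : Vec p X) (H : Sub p X) (J a : Finset X) :
    cenum θ (off J μ) (H.map (off J)) (a \ J) = cenum θ (off J μ) (H.map (off J)) a := by
  refine sum_congr rfl fun η hη => ?_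
  obtain ⟨η, -, rfl⟩ := mem_elts.1 hη
  rw [← map_add, ocount_off]

theorem safeOn_of_enum {C : ℕ} {θ : ℝ} (h0 : 0 ≤ θ) (h1 : θ ≤ 1) (hθ : 3 / 4 ≤ θ ^ C)
    {H : Sub p X} {a : Finset X} (h : enum θ H a < 3 / 2) : SafeOn a C H := by
  intro N hN
  by_contra hn
  rw [not_le] at hn
  obtain ⟨d, hd⟩ : ∃ d, Module.finrank (ZMod p) ↥N = d + 1 :=
    Nat.exists_eq_succ_of_ne_zero fun e => by rw [e] at hn; omega
  have h2 : ∀ η ∈ elts N, θ ^ (C * (d + 1)) ≤ θ ^ (supp η ∩ a).card := by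
    intro η hη
    refine pow_le_pow_of_le_one h0 h1 (le_trans (card_le_card fun i hi => ?_) (hd ▸ hn.le))
    rw [mem_inter, mem_supp] at hi
    exact mem_filter.2 ⟨hi.2, η, mem_elts.1 hη, hi.1⟩
  have h3 := card_nsmul_le_sum _ _ _ h2
  rw [card_elts, hd, nsmul_eq_mul, pow_mul, Nat.cast_pow, ← mul_pow] at h3
  have hp : (2 : ℝ) ≤ p := by exact_mod_cast (Fact.out : p.Prime).two_le
  have h4 : (3 / 2 : ℝ) ≤ p * θ ^ C := by nlinarith
  have h5 : p * θ ^ C ≤ (p * θ ^ C) ^ (d + 1) := le_self_pow₀ (by linarith) (Nat.succ_ne_zero _)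
  have h6 := enum_mono h0 hN a
  unfold enum at h h6
  linarith

variable {L : Type} [Fintype L]

theorem ocount_term {w : X → L → ℝ} (hw : IsW w) (Y : Finset X) (S : L → Prop) {ρ θ : ℝ}
    (hθ0 : 0 ≤ θ) (hθ1 : θ ≤ 1) (hρ : ∀ i ∈ Y, ρ ≤ ∑ a ∈ univ.filter S, w i a)
    {η : Vec p X} (hη : supp η ⊆ Y) :
    Ew w (fun l => θ ^ (supp η ∩ Y.filter (fun i => S (l i))).card) ≤
      Real.exp (-(ρ * (1 - θ)) * wt η) := by
  have h1 : ∀ l : X → L, supp η ∩ Y.filter (fun i => S (l i)) =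
      (supp η).filter (fun i => S (l i)) := fun l => by
    ext i
    simp only [mem_inter, mem_filter]
    exact ⟨fun h => ⟨h.1, h.2.2⟩, fun h => ⟨h.1, hη h.1, h.2⟩⟩
  simp only [h1]
  exact Ew_pow_card_le hw (supp η) S hθ0 hθ1 fun i hi => hρ i (hη hi)

theorem ocount_exp {ρ θ : ℝ} (hρ0 : 0 ≤ ρ) (hθ1 : θ ≤ 1) {m : ℝ} (hm : 0 ≤ m) :
    Real.exp (-(ρ * (1 - θ)) / m) ≤ 1 := by
  rw [Real.exp_le_one_iff]
  exact div_nonpos_of_nonpos_of_nonneg (neg_nonpos.2 (mul_nonneg hρ0 (by linarith))) hm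

theorem ocount_pow (κ m : ℝ) (n : ℕ) : Real.exp (κ / m) ^ n = Real.exp (κ * n / m) := by
  rw [← Real.exp_nat_mul]
  congr 1
  ring

/-- mean enumerator on a random part of `Y`. -/
theorem Ew_enum {w : X → L → ℝ} (hw : IsW w) (Y : Finset X) (S : L → Prop) {ρ θ : ℝ}
    (hρ0 : 0 ≤ ρ) (hθ0 : 0 ≤ θ) (hθ1 : θ ≤ 1) (hρ : ∀ i ∈ Y, ρ ≤ ∑ a ∈ univ.filter S, w i a)
    {C : ℕ} (hC : 1 ≤ C) {H : Sub p X} (hs : Safe C H) (hY : H ≤ co Y)
    (hQ : (p * (Fintype.card X + 1) : ℝ) * Real.exp (-(ρ * (1 - θ)) * C) ≤ 1 / 2) :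
    Ew w (fun l => enum θ H (Y.filter (fun i => S (l i))) - 1) ≤
      2 * (p * (Fintype.card X + 1) : ℝ) ^ 2 * Real.exp (-(ρ * (1 - θ)) * C) := by
  have h1 := sum_pow_wt hC hs (Real.exp_pos _).le (ocount_exp hρ0 hθ1 zero_le_one)
    (by rw [ocount_pow, div_one]; exact hQ)
  simp only [ocount_pow] at h1
  simp only [div_one] at h1
  unfold enum
  rw [Ew_sub, Ew_const hw, Ew_sum]
  have h2 := sum_le_sum fun η (hη : η ∈ elts H) =>
    ocount_term hw Y S hθ0 hθ1 hρ (mem_co_iff.1 (hY (mem_elts.1 hη)))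
  linarith

theorem Ew_cenum {w : X → L → ℝ} (hw : IsW w) (Y : Finset X) (S : L → Prop) {ρ θ : ℝ}
    (hρ0 : 0 ≤ ρ) (hθ0 : 0 ≤ θ) (hθ1 : θ ≤ 1) (hρ : ∀ i ∈ Y, ρ ≤ ∑ a ∈ univ.filter S, w i a)
    {C : ℕ} (hC : 1 ≤ C) {H : Sub p X} (hs : Safe C H) (hY : H ≤ co Y)
    (hQ : (p * (Fintype.card X + 1) : ℝ) * Real.exp (-(ρ * (1 - θ)) * C / 2) ≤ 1 / 2)
    (μ : Vec p X) (hμ : supp μ ⊆ Y) (w0 : ℕ) (hw0 : ∀ η ∈ H, w0 ≤ wt (μ + η)) :
    Ew w (fun l => cenum θ μ H (Y.filter (fun i => S (l i)))) ≤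
      Real.exp (-(ρ * (1 - θ)) * w0) +
        2 * (p * (Fintype.card X + 1) : ℝ) ^ 2 * Real.exp (-(ρ * (1 - θ)) * C / 2) := by
  have h1 := sum_pow_coset hC hs (Real.exp_pos _).le (ocount_exp hρ0 hθ1 zero_le_two)
    (by rw [ocount_pow]; exact hQ) μ w0 hw0
  have h0 : ∀ n : ℕ, (Real.exp (-(ρ * (1 - θ)) / 2) ^ 2) ^ n = Real.exp (-(ρ * (1 - θ)) * n) := by
    intro n
    rw [← pow_mul, ocount_pow]
    congr 1
    push_cast
    ring
  simp only [h0] at h1
  rw [ocount_pow] at h1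
  unfold cenum
  rw [Ew_sum]
  refine le_trans (sum_le_sum fun η hη => ocount_term hw Y S hθ0 hθ1 hρ ?_) h1
  exact mem_co_iff.1 ((co Y).add_mem (mem_co_iff.2 hμ) (hY (mem_elts.1 hη)))

theorem Ew_enum_pow {w : X → L → ℝ} (hw : IsW w) (Y : Finset X) (S : L → Prop) {ρ θ : ℝ}
    (hρ0 : 0 ≤ ρ) (hθ0 : 0 ≤ θ) (hθ1 : θ ≤ 1) (hρ : ∀ i ∈ Y, ρ ≤ ∑ a ∈ univ.filter S, w i a)
    {C : ℕ} (hC : 1 ≤ C) {H : Sub p X} (hs : Safe C H) (hY : H ≤ co Y) {m : ℕ} (hm : 1 ≤ m)
    (hQ : 2 * (p * (Fintype.card X + 1) : ℝ) ^ 2 * Real.exp (-(ρ * (1 - θ)) * C / m) ≤ 1 / m) :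
    Ew w (fun l => enum θ H (Y.filter (fun i => S (l i))) ^ m) ≤ 3 := by
  have hm1 : (1 : ℝ) ≤ m := by exact_mod_cast hm
  have hm0 : (0 : ℝ) < m := by linarith
  have hp : (2 : ℝ) ≤ p := by exact_mod_cast (Fact.out : p.Prime).two_le
  have hn : (0 : ℝ) ≤ Fintype.card X := Nat.cast_nonneg _
  have hQ1 : (1 : ℝ) ≤ p * (Fintype.card X + 1) := by nlinarith
  have hmi : 1 / (m : ℝ) ≤ 1 := by rw [div_le_one hm0]; exact hm1
  have h1 := sum_pow_wt hC hs (Real.exp_pos _).le (ocount_exp hρ0 hθ1 hm0.le) (by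
    rw [ocount_pow]
    have := mul_le_mul_of_nonneg_right hQ1 (mul_nonneg (zero_le_one.trans hQ1)
      (Real.exp_pos (-(ρ * (1 - θ)) * C / m)).le)
    nlinarith)
  rw [ocount_pow] at h1
  obtain ⟨c, hc⟩ : ∃ c : Vec p X → ℝ, ∀ η, c η = Real.exp (-(ρ * (1 - θ)) / m) ^ wt η :=
    ⟨_, fun _ => rfl⟩
  have hc0 : ∀ η, 0 < c η := fun η => by rw [hc]; positivity
  have hcm : ∀ η, c η ^ m = Real.exp (-(ρ * (1 - θ)) * wt η) := fun η => by
    rw [hc, ← pow_mul, ocount_pow]
    congr 1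
    push_cast
    field_simp
  simp only [← hc] at h1
  obtain ⟨Sc, hSc⟩ : ∃ Sc, Sc = ∑ η ∈ elts H, c η := ⟨_, rfl⟩
  have hS0 : 0 < Sc := hSc ▸ sum_pos (fun η _ => hc0 η) ⟨0, mem_elts.2 H.zero_mem⟩
  have hS1 : ∑ η ∈ elts H, c η / Sc = 1 := by rw [← sum_div, ← hSc, div_self hS0.ne']
  have h2 : ∀ l : X → L, enum θ H (Y.filter (fun i => S (l i))) ^ m ≤
      ∑ η ∈ elts H, c η / Sc * (Sc / c η) ^ m *
        θ ^ (supp η ∩ Y.filter (fun i => S (l i))).card := by
    intro l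
    have h3 := Real.pow_arith_mean_le_arith_mean_pow (elts H) (fun η => c η / Sc)
      (fun η => Sc / c η * θ ^ (supp η ∩ Y.filter (fun i => S (l i))).card)
      (fun η _ => (div_pos (hc0 η) hS0).le) hS1
      (fun η _ => mul_nonneg (div_pos hS0 (hc0 η)).le (pow_nonneg hθ0 _)) m
    have h4 : enum θ H (Y.filter (fun i => S (l i))) = ∑ η ∈ elts H, c η / Sc *
        (Sc / c η * θ ^ (supp η ∩ Y.filter (fun i => S (l i))).card) := by
      refine sum_congr rfl fun η _ => ?_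
      have := (hc0 η).ne'
      field_simp
    rw [h4]
    refine h3.trans (sum_le_sum fun η _ => ?_)
    rw [mul_pow, mul_assoc]
    refine mul_le_mul_of_nonneg_left (mul_le_mul_of_nonneg_left ?_
      (pow_nonneg (div_pos hS0 (hc0 η)).le _)) (div_pos (hc0 η) hS0).le
    exact pow_le_of_le_one (pow_nonneg hθ0 _) (pow_le_one₀ hθ0 hθ1) (by omega)
  refine (Ew_mono hw fun l _ => h2 l).trans ?_
  rw [Ew_sum]
  have h5 : ∀ η ∈ elts H, Ew w (fun l => c η / Sc * (Sc / c η) ^ m *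
      θ ^ (supp η ∩ Y.filter (fun i => S (l i))).card) ≤ c η / Sc * Sc ^ m := by
    intro η hη
    rw [Ew_mul]
    refine (mul_le_mul_of_nonneg_left
      (ocount_term hw Y S hθ0 hθ1 hρ (mem_co_iff.1 (hY (mem_elts.1 hη))))
      (mul_nonneg (div_pos (hc0 η) hS0).le (pow_nonneg (div_pos hS0 (hc0 η)).le _))).trans ?_
    rw [← hcm, mul_assoc, ← mul_pow, div_mul_cancel₀ _ (hc0 η).ne']
  refine (sum_le_sum h5).trans ?_
  rw [← sum_mul, hS1, one_mul]
  have h6 : Sc ≤ Real.exp (1 / m) := by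
    have := Real.add_one_le_exp (1 / (m : ℝ))
    rw [hSc]; linarith
  refine (pow_le_pow_left₀ hS0.le h6 m).trans ?_
  rw [ocount_pow, one_mul, div_self hm0.ne']
  exact Real.exp_one_lt_three.le

end Pool.Agent.P.MP_85fe51_lc.OD
end

-- part Pool.Agent.P.MP_85fe51_lc.ODL
section

set_option autoImplicit false

namespace Pool.Agent.P.MP_85fe51_lc.OD

open Finset
open scoped Classical

variable {ι V : Type} [DecidableEq ι] [AddCommGroup V]

/-- admissible sets are closed under disjoint unions. -/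
def Clo (Kp : Finset ι → Prop) : Prop := ∀ A B, Disjoint A B → Kp A → Kp B → Kp (A ∪ B)

theorem clo_true : Clo (fun _ : Finset ι => True) := fun _ _ _ _ _ => trivial

variable {Z : AddSubgroup V} {Kp : Finset ι → Prop} {d : ℕ} {Y : Finset ι} {f g : Finset ι → V}

theorem DL.mono_set (h : DL Z Kp d Y f) {Y' : Finset ι} (hY : Y' ⊆ Y) : DL Z Kp d Y' f := by
  induction d generalizing Y Y' f with
  | zero => exact fun A hA hKA => h A (hA.trans hY) hKA
  | succ d ih =>
    exact fun B hB hKB => ih (h B (hB.trans hY) hKB) (sdiff_subset_sdiff hY (Subset.refl _))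

theorem DL.mono_pred (h : DL Z Kp d Y f) {Kp' : Finset ι → Prop} (hK : ∀ A, Kp' A → Kp A) :
    DL Z Kp' d Y f := by
  induction d generalizing Y f with
  | zero => exact fun A hA hKA => h A hA (hK A hKA)
  | succ d ih => exact fun B hB hKB => ih (h B hB (hK B hKB))

theorem DL.mono_grp (h : DL Z Kp d Y f) {Z' : AddSubgroup V} (hZ : Z ≤ Z') : DL Z' Kp d Y f := by
  induction d generalizing Y f with
  | zero => exact fun A hA hKA => hZ (h A hA hKA)
  | succ d ih => exact fun B hB hKB => ih (h B hB hKB)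

theorem odl_disj {A B Y : Finset ι} (hA : A ⊆ Y \ B) : Disjoint A B :=
  Finset.disjoint_of_subset_left hA sdiff_disjoint

theorem odl_union_sub {A B Y : Finset ι} (hA : A ⊆ Y \ B) (hB : B ⊆ Y) : A ∪ B ⊆ Y :=
  union_subset (hA.trans sdiff_subset) hB

theorem odl_zero (hf : ∀ A, f A = 0) : DL Z Kp d Y f := by
  induction d generalizing Y f with
  | zero =>
    intro A _ _
    rw [hf A]
    exact Z.zero_mem
  | succ d ih => exact fun B _ _ => ih (fun A => by rw [hf, hf, sub_zero])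

theorem odl_sub (h : DL Z Kp d Y f) (h' : DL Z Kp d Y g) : DL Z Kp d Y (fun A => f A - g A) := by
  induction d generalizing Y f g with
  | zero => exact fun A hA hKA => Z.sub_mem (h A hA hKA) (h' A hA hKA)
  | succ d ih =>
    intro B hB hKB
    have e : (fun A => (f (A ∪ B) - g (A ∪ B)) - (f A - g A)) =
        fun A => (f (A ∪ B) - f A) - (g (A ∪ B) - g A) := by
      funext A
      abel
    have h1 := ih (h B hB hKB) (h' B hB hKB)
    rw [← e] at h1
    exact h1

theorem odl_shift (hK : Clo Kp) (h : DL Z Kp d Y f) {B : Finset ι} (hB : B ⊆ Y) (hKB : Kp B) :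
    DL Z Kp d (Y \ B) (fun A => f (A ∪ B)) := by
  induction d generalizing Y f with
  | zero => exact fun A hA hKA => h _ (odl_union_sub hA hB) (hK A B (odl_disj hA) hKA hKB)
  | succ d ih =>
    intro C hC hKC
    have hBC : B ⊆ Y \ C := subset_sdiff.2 ⟨hB, (odl_disj hC).symm⟩
    have h1 := ih (h C (hC.trans sdiff_subset) hKC) hBC
    have e1 : (Y \ C) \ B = (Y \ B) \ C := sdiff_right_comm _ _ _
    have e2 : (fun A => f (A ∪ B ∪ C) - f (A ∪ B)) = fun A => f (A ∪ C ∪ B) - f (A ∪ B) := by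
      funext A
      rw [union_right_comm]
    rw [e1] at h1
    have h2 : DL Z Kp d ((Y \ B) \ C) (fun A => f (A ∪ B ∪ C) - f (A ∪ B)) := h1
    rw [e2] at h2
    exact h2

theorem DL_of_mem (hK : Clo Kp) (h : ∀ A, A ⊆ Y → Kp A → f A ∈ Z) : DL Z Kp d Y f := by
  induction d generalizing Y f with
  | zero => exact h
  | succ d ih =>
    intro B hB hKB
    exact ih (fun A hA hKA => Z.sub_mem
      (h _ (odl_union_sub hA hB) (hK A B (odl_disj hA) hKA hKB)) (h A (hA.trans sdiff_subset) hKA))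

theorem DL.succ (hK : Clo Kp) (h : DL Z Kp d Y f) : DL Z Kp (d + 1) Y f :=
  fun _ hB hKB => odl_sub (odl_shift hK h hB hKB) (h.mono_set sdiff_subset)

theorem DL.of_le (hK : Clo Kp) (h : DL Z Kp d Y f) {d' : ℕ} (hd : d ≤ d') : DL Z Kp d' Y f := by
  induction hd with
  | refl => exact h
  | step _ ih => exact ih.succ hK

theorem DL.congr (hK : Clo Kp) (h : DL Z Kp d Y f) (hfg : ∀ A, A ⊆ Y → Kp A → f A = g A) :
    DL Z Kp d Y g := by
  induction d generalizing Y f g with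
  | zero =>
    intro A hA hKA
    rw [← hfg A hA hKA]
    exact h A hA hKA
  | succ d ih =>
    intro B hB hKB
    refine ih (h B hB hKB) (fun A hA hKA => ?_)
    show f (A ∪ B) - f A = g (A ∪ B) - g A
    rw [hfg _ (odl_union_sub hA hB) (hK A B (odl_disj hA) hKA hKB),
      hfg A (hA.trans sdiff_subset) hKA]

theorem DL_const (c : V) : DL Z Kp (d + 1) Y (fun _ => c) :=
  fun _ _ _ => odl_zero (fun _ => sub_self c)

theorem DL.add (h : DL Z Kp d Y f) (h' : DL Z Kp d Y g) : DL Z Kp d Y (fun A => f A + g A) := by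
  induction d generalizing Y f g with
  | zero => exact fun A hA hKA => Z.add_mem (h A hA hKA) (h' A hA hKA)
  | succ d ih =>
    intro B hB hKB
    have e : (fun A => (f (A ∪ B) + g (A ∪ B)) - (f A + g A)) =
        fun A => (f (A ∪ B) - f A) + (g (A ∪ B) - g A) := by
      funext A
      abel
    have h1 := ih (h B hB hKB) (h' B hB hKB)
    rw [← e] at h1
    exact h1

theorem DL.sub (h : DL Z Kp d Y f) (h' : DL Z Kp d Y g) : DL Z Kp d Y (fun A => f A - g A) :=
  odl_sub h h'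

theorem DL.zsmul (h : DL Z Kp d Y f) (n : ℤ) : DL Z Kp d Y (fun A => n • f A) := by
  induction d generalizing Y f with
  | zero => exact fun A hA hKA => Z.zsmul_mem (h A hA hKA) n
  | succ d ih =>
    intro B hB hKB
    have e : (fun A => n • f (A ∪ B) - n • f A) = fun A => n • (f (A ∪ B) - f A) := by
      funext A
      rw [smul_sub]
    have h1 := ih (h B hB hKB)
    rw [← e] at h1
    exact h1

theorem DL_sum {α : Type} (I : Finset α) (F : α → Finset ι → V) (h : ∀ i ∈ I, DL Z Kp d Y (F i)) :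
    DL Z Kp d Y (fun A => ∑ i ∈ I, F i A) := by
  induction I using Finset.induction_on with
  | empty => exact odl_zero (fun _ => sum_empty)
  | insert a I ha ih =>
    have e : (fun A => ∑ i ∈ insert a I, F i A) = fun A => F a A + ∑ i ∈ I, F i A := by
      funext A
      rw [sum_insert ha]
    rw [e]
    exact (h a (mem_insert_self _ _)).add (ih (fun i hi => h i (mem_insert_of_mem hi)))

theorem DL.map {W : Type} [AddCommGroup W] (q : V →+ W) {Z' : AddSubgroup W}
    (hq : ∀ z ∈ Z, q z ∈ Z') (h : DL Z Kp d Y f) : DL Z' Kp d Y (fun A => q (f A)) := by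
  induction d generalizing Y f with
  | zero => exact fun A hA hKA => hq _ (h A hA hKA)
  | succ d ih =>
    intro B hB hKB
    have e : (fun A => q (f (A ∪ B)) - q (f A)) = fun A => q (f (A ∪ B) - f A) := by
      funext A
      rw [map_sub]
    have h1 := ih (h B hB hKB)
    rw [← e] at h1
    exact h1

theorem DL.ker {W : Type} [AddCommGroup W] (q : V →+ W) (h : DL ⊥ Kp d Y (fun A => q (f A))) :
    DL q.ker Kp d Y f := by
  induction d generalizing Y f with
  | zero => exact fun A hA hKA => (AddMonoidHom.mem_ker).2 (AddSubgroup.mem_bot.1 (h A hA hKA))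
  | succ d ih =>
    intro B hB hKB
    have e : (fun A => q (f (A ∪ B)) - q (f A)) = fun A => q (f (A ∪ B) - f A) := by
      funext A
      rw [map_sub]
    have h1 : DL ⊥ Kp d (Y \ B) (fun A => q (f (A ∪ B)) - q (f A)) := h B hB hKB
    rw [e] at h1
    exact ih h1

theorem DL.inf {Z' : AddSubgroup V} (h : DL Z Kp d Y f) (h' : DL Z' Kp d Y f) :
    DL (Z ⊓ Z') Kp d Y f := by
  induction d generalizing Y f with
  | zero => exact fun A hA hKA => AddSubgroup.mem_inf.2 ⟨h A hA hKA, h' A hA hKA⟩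
  | succ d ih => exact fun B hB hKB => ih (h B hB hKB) (h' B hB hKB)

theorem DL.prod {W : Type} [AddCommGroup W] {Z' : AddSubgroup W} {f' : Finset ι → W}
    (h : DL Z Kp d Y f) (h' : DL Z' Kp d Y f') :
    DL (Z.prod Z') Kp d Y (fun A => (f A, f' A)) := by
  induction d generalizing Y f f' with
  | zero => exact fun A hA hKA => AddSubgroup.mem_prod.2 ⟨h A hA hKA, h' A hA hKA⟩
  | succ d ih => exact fun B hB hKB => ih (h B hB hKB) (h' B hB hKB)

theorem DL.shift (hK : Clo Kp) (h : DL Z Kp d Y f) {B : Finset ι} (hB : B ⊆ Y) (hKB : Kp B) :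
    DL Z Kp d (Y \ B) (fun A => f (A ∪ B)) :=
  odl_shift hK h hB hKB

theorem odl_junta0 (Q : Finset ι) (hf : ∀ A, A ⊆ Y → f A = f (A ∩ Q)) {B : Finset ι} (hB : B ⊆ Y)
    (hQB : Disjoint Q B) : DL Z (fun _ => True) d (Y \ B) (fun A => f (A ∪ B) - f A) := by
  refine DL_of_mem clo_true (fun A hA _ => ?_)
  have e : (A ∪ B) ∩ Q = A ∩ Q := by
    rw [union_inter_distrib_right, disjoint_iff_inter_eq_empty.1 hQB.symm, union_empty]
  show f (A ∪ B) - f A ∈ Z
  rw [hf _ (odl_union_sub hA hB), hf A (hA.trans sdiff_subset), e, sub_self]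
  exact Z.zero_mem

/-- a function of at most `c` coordinates has degree at most `c`. -/
theorem DL_junta {c : ℕ} (Q : Finset ι) (hf : ∀ A, A ⊆ Y → f A = f (A ∩ Q))
    (hc : (Q ∩ Y).card ≤ c) : DL Z (fun _ => True) (c + 1) Y f := by
  induction c generalizing Y f with
  | zero =>
    intro B hB _
    refine odl_junta0 Q hf hB ?_
    have h0 : Q ∩ Y = ∅ := card_eq_zero.1 (Nat.le_zero.1 hc)
    exact Finset.disjoint_of_subset_right hB (disjoint_iff_inter_eq_empty.2 h0)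
  | succ c ih =>
    intro B hB _
    by_cases hQB : Disjoint Q B
    · exact odl_junta0 Q hf hB hQB
    · obtain ⟨x, hxQ, hxB⟩ := not_disjoint_iff.1 hQB
      refine ih (fun A hA => ?_) ?_
      · have hA' : A ∩ Q ⊆ Y \ B := inter_subset_left.trans hA
        have e : (A ∩ Q ∪ B) ∩ Q = (A ∪ B) ∩ Q := by
          rw [union_inter_distrib_right, union_inter_distrib_right, inter_assoc, inter_self]
        show f (A ∪ B) - f A = f (A ∩ Q ∪ B) - f (A ∩ Q)
        rw [hf _ (odl_union_sub hA hB), hf A (hA.trans sdiff_subset),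
          hf _ (odl_union_sub hA' hB), e]
      · have hss : Q ∩ (Y \ B) ⊂ Q ∩ Y := by
          refine ⟨inter_subset_inter (Subset.refl _) sdiff_subset, fun hs => ?_⟩
          have := hs (mem_inter.2 ⟨hxQ, hB hxB⟩)
          exact (mem_sdiff.1 (mem_inter.1 this).2).2 hxB
        have := card_lt_card hss
        omega

theorem DL.ite_mem (h : DL Z (fun _ => True) d Y f) (i : ι) :
    DL Z (fun _ => True) (d + 1) Y (fun A => if i ∈ A then f A else 0) := by
  induction d generalizing Y f with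
  | zero =>
    have h0 : ∀ A, A ⊆ Y → (if i ∈ A then f A else 0) ∈ Z := by
      intro A hA
      split_ifs
      · exact h A hA trivial
      · exact Z.zero_mem
    exact DL_of_mem clo_true (fun A hA _ => h0 A hA)
  | succ d ih =>
    intro B hB _
    by_cases hi : i ∈ B
    · refine (odl_shift clo_true h hB trivial).congr clo_true (fun A hA _ => ?_)
      have hiA : i ∉ A := fun h' => (mem_sdiff.1 (hA h')).2 hi
      show f (A ∪ B) = (if i ∈ A ∪ B then f (A ∪ B) else 0) - (if i ∈ A then f A else 0)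
      rw [if_pos (mem_union_right _ hi), if_neg hiA, sub_zero]
    · refine (ih (h B hB trivial)).congr clo_true (fun A _ _ => ?_)
      show (if i ∈ A then f (A ∪ B) - f A else 0) =
        (if i ∈ A ∪ B then f (A ∪ B) else 0) - (if i ∈ A then f A else 0)
      by_cases hiA : i ∈ A
      · rw [if_pos hiA, if_pos hiA, if_pos (mem_union_left _ hiA)]
      · have : i ∉ A ∪ B := fun h' => (mem_union.1 h').elim hiA hi
        rw [if_neg hiA, if_neg hiA, if_neg this, sub_zero]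

theorem odl_biUnion {α : Type} [DecidableEq α] (hK0 : Kp ∅) (hK : Clo Kp)
    (I : Finset α) (x : α → Finset ι) (hx : ∀ a ∈ I, Kp (x a))
    (hd : ∀ a ∈ I, ∀ b ∈ I, a ≠ b → Disjoint (x a) (x b)) : Kp (I.biUnion x) := by
  induction I using Finset.induction_on with
  | empty => exact hK0
  | insert a I ha ih =>
    rw [biUnion_insert]
    refine hK _ _ ?_ (hx a (mem_insert_self _ _)) (ih (fun b hb => hx b (mem_insert_of_mem hb))
      (fun b hb c hc => hd b (mem_insert_of_mem hb) c (mem_insert_of_mem hc)))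
    rw [disjoint_biUnion_right]
    exact fun b hb => hd a (mem_insert_self _ _) b (mem_insert_of_mem hb)
      (fun e => ha (e ▸ hb))

theorem DL_atoms {α : Type} [DecidableEq α] (hK0 : Kp ∅) (hK : Clo Kp) (h : DL Z Kp d Y f)
    (I : Finset α) (x : α → Finset ι) (hx : ∀ a ∈ I, x a ⊆ Y ∧ Kp (x a))
    (hd : ∀ a ∈ I, ∀ b ∈ I, a ≠ b → Disjoint (x a) (x b)) :
    DL Z (fun _ => True) d I (fun G => f (G.biUnion x)) := by
  have hsub : ∀ (Y : Finset ι) (I G : Finset α), (∀ a ∈ I, x a ⊆ Y ∧ Kp (x a)) →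
      (∀ a ∈ I, ∀ b ∈ I, a ≠ b → Disjoint (x a) (x b)) → G ⊆ I →
      G.biUnion x ⊆ Y ∧ Kp (G.biUnion x) := fun Y I G hx hd hG =>
    ⟨biUnion_subset.2 (fun a ha => (hx a (hG ha)).1), odl_biUnion hK0 hK G x
      (fun a ha => (hx a (hG ha)).2) (fun a ha b hb => hd a (hG ha) b (hG hb))⟩
  induction d generalizing Y f I with
  | zero => exact fun G hG _ => h _ (hsub Y I G hx hd hG).1 (hsub Y I G hx hd hG).2
  | succ d ih =>
    intro H hH _
    have h1 := ih (h _ (hsub Y I H hx hd hH).1 (hsub Y I H hx hd hH).2) (I \ H) (fun a ha => by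
      obtain ⟨haI, haH⟩ := mem_sdiff.1 ha
      refine ⟨subset_sdiff.2 ⟨(hx a haI).1, ?_⟩, (hx a haI).2⟩
      rw [disjoint_biUnion_right]
      exact fun b hb => hd a haI b (hH hb) (fun e => haH (e ▸ hb)))
      (fun a ha b hb => hd a (mem_sdiff.1 ha).1 b (mem_sdiff.1 hb).1)
    have e : (fun G : Finset α => f (G.biUnion x ∪ H.biUnion x) - f (G.biUnion x)) =
        fun G => f ((G ∪ H).biUnion x) - f (G.biUnion x) := by
      funext G
      rw [union_biUnion]
    have h2 : DL Z (fun _ => True) d (I \ H)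
        (fun G : Finset α => f (G.biUnion x ∪ H.biUnion x) - f (G.biUnion x)) := h1
    rw [e] at h2
    exact h2

theorem odl_sgn_cons {k : ℕ} (e : Bool) (ε : Fin k → Bool) :
    sgn (Fin.cons e ε : Fin (k + 1) → Bool) = (if e then -1 else 1) * sgn ε := by
  simp only [sgn, Fin.prod_univ_succ, Fin.cons_zero, Fin.cons_succ]

theorem odl_biUnion_cons {k : ℕ} (y : Fin (k + 1) → Bool → Finset ι) (e : Bool)
    (ε : Fin k → Bool) (B : Finset ι) :
    B ∪ univ.biUnion (fun b => y b ((Fin.cons e ε : Fin (k + 1) → Bool) b)) =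
      B ∪ univ.biUnion (fun b : Fin k => y b.succ (ε b)) ∪ y 0 e := by
  ext i
  simp only [mem_union, mem_biUnion, mem_univ, true_and, Fin.exists_fin_succ, Fin.cons_zero,
    Fin.cons_succ]
  tauto

theorem odl_pairs {k : ℕ} (h : DL Z (fun _ => True) k Y f) (a : Fin k → Finset ι)
    (ha : ∀ b, a b ⊆ Y) (hd : ∀ b b', b ≠ b' → Disjoint (a b) (a b'))
    (y : Fin k → Bool → Finset ι) (hy : ∀ b e, y b e ⊆ a b) (B : Finset ι) (hB : B ⊆ Y)
    (hBa : ∀ b, Disjoint B (a b)) :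
    ∑ ε : Fin k → Bool, sgn ε • f (B ∪ univ.biUnion (fun b => y b (ε b))) ∈ Z := by
  induction k generalizing Y f with
  | zero =>
    refine Z.sum_mem (fun ε _ => Z.zsmul_mem (h _ (union_subset hB ?_) trivial) _)
    exact biUnion_subset.2 (fun b _ => (hy b _).trans (ha b))
  | succ k ih =>
    have hg : ∀ e, DL Z (fun _ => True) k (Y \ a 0) (fun A => f (A ∪ y 0 e) - f A) := fun e =>
      DL.mono_set (h (y 0 e) ((hy 0 e).trans (ha 0)) trivial)
        (sdiff_subset_sdiff (Subset.refl _) (hy 0 e))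
    have h1 := ih (odl_sub (hg false) (hg true)) (fun b => a b.succ)
      (fun b => subset_sdiff.2 ⟨ha _, hd _ _ (Fin.succ_ne_zero b)⟩)
      (fun b b' hb => hd _ _ (fun e => hb (Fin.succ_injective _ e))) (fun b => y b.succ)
      (fun b e => hy _ e) (subset_sdiff.2 ⟨hB, hBa 0⟩) (fun b => hBa _)
    rw [← (Fin.consEquiv (fun _ : Fin (k + 1) => Bool)).sum_comp, Fintype.sum_prod_type,
      Fintype.sum_bool, ← sum_add_distrib]
    refine (congrArg (· ∈ Z) (sum_congr rfl (fun ε _ => ?_))).mp h1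
    show _ = sgn (Fin.cons true ε : Fin (k + 1) → Bool) •
        f (B ∪ univ.biUnion (fun b => y b ((Fin.cons true ε : Fin (k + 1) → Bool) b))) +
      sgn (Fin.cons false ε : Fin (k + 1) → Bool) •
        f (B ∪ univ.biUnion (fun b => y b ((Fin.cons false ε : Fin (k + 1) → Bool) b)))
    rw [odl_sgn_cons, odl_sgn_cons, odl_biUnion_cons, odl_biUnion_cons]
    simp only [if_true, Bool.false_eq_true, if_false, one_mul, neg_mul, neg_smul, smul_sub]
    abel

/-- alternating sums over pairs of subsets of `k` disjoint blocks. -/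
theorem DL_pairs {k : ℕ} (hk : d ≤ k) (h : DL Z (fun _ => True) d Y f) (a : Fin k → Finset ι)
    (ha : ∀ b, a b ⊆ Y) (hd : ∀ b b', b ≠ b' → Disjoint (a b) (a b'))
    (y : Fin k → Bool → Finset ι) (hy : ∀ b e, y b e ⊆ a b) (B : Finset ι) (hB : B ⊆ Y)
    (hBa : ∀ b, Disjoint B (a b)) :
    ∑ ε : Fin k → Bool, sgn ε • f (B ∪ univ.biUnion (fun b => y b (ε b))) ∈ Z :=
  odl_pairs (h.of_le clo_true hk) a ha hd y hy B hB hBa

/-- a functional that separates `f` from all maps of low degree. -/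
theorem DL_cert (hK : Clo Kp) (h : ¬ DL ⊥ Kp d Y f) :
    ∃ (Λ : Type) (_ : Fintype Λ) (n : Λ → ℤ) (z : Λ → Finset ι), (∀ l, z l ⊆ Y ∧ Kp (z l)) ∧
      ∑ l, n l • f (z l) ≠ 0 ∧
      ∀ g : Finset ι → V, DL ⊥ Kp d Y g → ∑ l, n l • g (z l) = 0 := by
  induction d generalizing Y f with
  | zero =>
    have h' : ∃ A, A ⊆ Y ∧ Kp A ∧ f A ≠ 0 := by
      by_contra hc
      refine h (fun A hA hKA => AddSubgroup.mem_bot.2 ?_)
      by_contra h0
      exact hc ⟨A, hA, hKA, h0⟩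
    obtain ⟨A, hA, hKA, h0⟩ := h'
    refine ⟨Unit, inferInstance, fun _ => 1, fun _ => A, fun _ => ⟨hA, hKA⟩, ?_, fun g hg => ?_⟩
    · simpa using h0
    · simpa using AddSubgroup.mem_bot.1 (hg A hA hKA)
  | succ d ih =>
    have h' : ∃ B, B ⊆ Y ∧ Kp B ∧ ¬ DL ⊥ Kp d (Y \ B) (fun A => f (A ∪ B) - f A) := by
      by_contra hc
      refine h (fun B hB hKB => ?_)
      by_contra h0
      exact hc ⟨B, hB, hKB, h0⟩
    obtain ⟨B, hB, hKB, h0⟩ := h'
    obtain ⟨Λ, hΛ, n, z, hz, hne, hall⟩ := ih h0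
    have key : ∀ g : Finset ι → V,
        ∑ l : Λ ⊕ Λ, Sum.elim n (fun l => -n l) l • g (Sum.elim (fun l => z l ∪ B) z l) =
          ∑ l, n l • (g (z l ∪ B) - g (z l)) := by
      intro g
      rw [Fintype.sum_sum_type, ← sum_add_distrib]
      refine sum_congr rfl (fun l _ => ?_)
      simp only [Sum.elim_inl, Sum.elim_inr, neg_smul, smul_sub]
      abel
    refine ⟨Λ ⊕ Λ, inferInstance, Sum.elim n (fun l => -n l), Sum.elim (fun l => z l ∪ B) z,
      ?_, ?_, fun g hg => ?_⟩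
    · rintro (l | l)
      · exact ⟨odl_union_sub (hz l).1 hB, hK _ _ (odl_disj (hz l).1) (hz l).2 hKB⟩
      · exact ⟨(hz l).1.trans sdiff_subset, (hz l).2⟩
    · rw [key]
      exact hne
    · rw [key]
      exact hall _ (hg B hB hKB)

end Pool.Agent.P.MP_85fe51_lc.OD
end

-- part Pool.Agent.P.MP_85fe51_lc.OFour
section

set_option autoImplicit false

namespace Pool.Agent.P.MP_85fe51_lc.OD

open Finset
open scoped Classical

variable {p : ℕ} [Fact p.Prime]

theorem ThB.thC {m c : ℕ} {θ : ℝ} (h : ThB p m c θ) : ThC p θ := by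
  refine ⟨h.1, h.2.1, fun X _ _ a μ => ?_⟩
  have h1 := h.2.2 X PUnit (fun v => Subsingleton.elim _ _) 0 a (fun _ => 0) μ (DL_const _)
  simpa using h1

variable {X : Type} [Fintype X] [DecidableEq X]

theorem ofour_orth (H : Sub p X) (A A0 : Finset X) :
    ∑ η ∈ elts H, ch (-dot η A0) * ch (dot η A) =
      if (∀ η ∈ H, dot η A = dot η A0) then (p : ℂ) ^ Module.finrank (ZMod p) ↥H else 0 := by
  split_ifs with h
  · rw [sum_congr rfl (g := fun _ => (1 : ℂ))]
    · rw [sum_const, card_elts, nsmul_eq_mul, mul_one, Nat.cast_pow]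
    · intro η hη
      rw [← ch_add, h η (mem_elts.1 hη), neg_add_cancel, ch_zero]
  · push Not at h
    obtain ⟨η0, h0, hne⟩ := h
    have key : ∑ η ∈ elts H, ch (-dot η A0) * ch (dot η A) =
        ∑ η ∈ elts H, ch (-dot (η0 + η) A0) * ch (dot (η0 + η) A) := by
      symm
      refine sum_bij' (fun η _ => η0 + η) (fun η _ => η - η0) ?_ ?_ ?_ ?_ ?_
      · intro η hη
        exact mem_elts.2 (H.add_mem h0 (mem_elts.1 hη))
      · intro η hη
        exact mem_elts.2 (H.sub_mem (mem_elts.1 hη) h0)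
      · intro η _
        exact add_sub_cancel_left _ _
      · intro η _
        exact add_sub_cancel _ _
      · intro η _
        rfl
    have key2 : ∑ η ∈ elts H, ch (-dot (η0 + η) A0) * ch (dot (η0 + η) A) =
        ch (dot η0 A - dot η0 A0) * ∑ η ∈ elts H, ch (-dot η A0) * ch (dot η A) := by
      rw [mul_sum]
      refine sum_congr rfl fun η _ => ?_
      rw [← ch_add, ← ch_add, ← ch_add, dot_add, dot_add]
      congr 1
      ring
    have hc : ch (dot η0 A - dot η0 A0) ≠ 1 := fun e => hne (sub_eq_zero.1 (ch_eq_one.1 e))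
    rw [key2] at key
    have h3 : (1 - ch (dot η0 A - dot η0 A0)) * ∑ η ∈ elts H, ch (-dot η A0) * ch (dot η A) = 0 := by
      linear_combination key
    rcases mul_eq_zero.1 h3 with h4 | h4
    · exact absurd (sub_eq_zero.1 h4).symm hc
    · exact h4

omit [Fintype X] [DecidableEq X] in
theorem ofour_sum_pow (a : Finset X) (F : Finset X → ℂ) :
    2 ^ a.card * a.powerset.expect F = ∑ A ∈ a.powerset, F A := by
  rw [expect_eq_sum_div_card, card_powerset]
  push_cast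
  field_simp

theorem sum_fib (H : Sub p X) (a A0 : Finset X) (g : Finset X → ℂ) :
    (p : ℂ) ^ Module.finrank (ZMod p) ↥H * ∑ A ∈ fib H a A0, g A =
      2 ^ a.card * ∑ η ∈ elts H,
        ch (-dot η A0) * a.powerset.expect (fun A => g A * ch (dot η A)) := by
  have h1 : ∀ η : Vec p X, (2 : ℂ) ^ a.card *
      (ch (-dot η A0) * a.powerset.expect (fun A => g A * ch (dot η A))) =
      ∑ A ∈ a.powerset, g A * (ch (-dot η A0) * ch (dot η A)) := by
    intro η
    rw [mul_left_comm, ofour_sum_pow, mul_sum]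
    exact sum_congr rfl fun A _ => by ring
  rw [mul_sum (elts H), sum_congr rfl (fun η _ => h1 η), sum_comm, fib, sum_filter, mul_sum]
  refine sum_congr rfl fun A _ => ?_
  rw [← mul_sum, ofour_orth]
  split_ifs <;> ring

variable {θ : ℝ}

theorem ofour_card (H : Sub p X) (a A0 : Finset X) :
    (((p : ℝ) ^ Module.finrank (ZMod p) ↥H * (fib H a A0).card : ℝ) : ℂ) =
      2 ^ a.card * ∑ η ∈ elts H, ch (-dot η A0) * a.powerset.expect (fun A => ch (dot η A)) := by
  have h := sum_fib H a A0 (fun _ => 1)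
  simp only [one_mul, sum_const, nsmul_eq_mul, mul_one] at h
  rw [← h]
  push_cast
  rfl

theorem ofour_term (hθ : ThC p θ) (a A0 : Finset X) (η : Vec p X) :
    ‖ch (-dot η A0) * a.powerset.expect (fun A => ch (dot η A))‖ ≤ θ ^ (supp η ∩ a).card := by
  rw [norm_mul, norm_ch, one_mul]
  exact hθ.2.2 X a η

theorem card_fib_le (hθ : ThC p θ) (H : Sub p X) (a A0 : Finset X) :
    (p : ℝ) ^ Module.finrank (ZMod p) ↥H * (fib H a A0).card ≤ enum θ H a * 2 ^ a.card := by
  have h := congrArg norm (ofour_card H a A0)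
  rw [Complex.norm_real, Real.norm_of_nonneg (by positivity), norm_mul, norm_pow,
    Complex.norm_ofNat] at h
  rw [h, mul_comm]
  refine mul_le_mul_of_nonneg_right ?_ (by positivity)
  exact (norm_sum_le _ _).trans (sum_le_sum fun η _ => ofour_term hθ a A0 η)

theorem card_fib_ge (hθ : ThC p θ) (H : Sub p X) (a A0 : Finset X) :
    (2 - enum θ H a) * 2 ^ a.card ≤ (p : ℝ) ^ Module.finrank (ZMod p) ↥H * (fib H a A0).card := by
  have h := congrArg norm (ofour_card H a A0)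
  rw [Complex.norm_real, Real.norm_of_nonneg (by positivity), norm_mul, norm_pow,
    Complex.norm_ofNat] at h
  rw [h, mul_comm]
  refine mul_le_mul_of_nonneg_left ?_ (by positivity)
  have h0 : (0 : Vec p X) ∈ elts H := mem_elts.2 H.zero_mem
  have e0 : ch (-dot (0 : Vec p X) A0) *
      a.powerset.expect (fun A => ch (dot (0 : Vec p X) A)) = 1 := by
    simp only [dot_zero, neg_zero, ch_zero, one_mul]
    exact expect_const ⟨∅, empty_mem_powerset a⟩ _
  have e1 : θ ^ (supp (0 : Vec p X) ∩ a).card = 1 := by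
    have : supp (0 : Vec p X) = ∅ := by
      ext i
      simp [supp]
    rw [this, empty_inter, card_empty, pow_zero]
  rw [enum, ← add_sum_erase _ _ h0, ← add_sum_erase _ _ h0, e0, e1]
  have h2 : ‖∑ η ∈ (elts H).erase 0,
      ch (-dot η A0) * a.powerset.expect (fun A => ch (dot η A))‖ ≤
      ∑ η ∈ (elts H).erase 0, θ ^ (supp η ∩ a).card :=
    (norm_sum_le _ _).trans (sum_le_sum fun η _ => ofour_term hθ a A0 η)
  have h3 := norm_sub_le (1 + ∑ η ∈ (elts H).erase 0,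
      ch (-dot η A0) * a.powerset.expect (fun A => ch (dot η A)))
      (∑ η ∈ (elts H).erase 0, ch (-dot η A0) * a.powerset.expect (fun A => ch (dot η A)))
  rw [add_sub_cancel_right, norm_one] at h3
  linarith

theorem card_Ker_ge (hθ : ThC p θ) {U : Sub p X} {Y a : Finset X} (hY : co Yᶜ ≤ U) (ha : a ⊆ Y) :
    (2 - enum θ (U.map (off Yᶜ)) a) * 2 ^ a.card ≤ (p : ℝ) ^ dO U Yᶜ * (Ker U a).card := by
  have e : a \ Yᶜ = a := by
    ext i
    simp only [mem_sdiff, mem_compl, not_not]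
    exact ⟨fun h => h.1, fun h => ⟨h, ha h⟩⟩
  rw [Ker_eq_fib, card_fib_off hY (empty_subset a), e]
  exact card_fib_ge hθ _ a _

theorem norm_expect_fib (hθ : ThC p θ) {H : Sub p X} {a : Finset X} (he : enum θ H a ≤ 3 / 2)
    (A0 : Finset X) (g : Finset X → ℂ) :
    ‖(fib H a A0).expect g‖ ≤
      2 * ∑ η ∈ elts H, ‖a.powerset.expect (fun A => g A * ch (dot η A))‖ := by
  have h1 := card_fib_ge hθ H a A0
  have h2 := congrArg norm (sum_fib H a A0 g)
  rw [norm_mul, norm_mul, norm_pow, norm_pow, Complex.norm_natCast, Complex.norm_ofNat] at h2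
  have h3 : ‖∑ η ∈ elts H, ch (-dot η A0) * a.powerset.expect (fun A => g A * ch (dot η A))‖ ≤
      ∑ η ∈ elts H, ‖a.powerset.expect (fun A => g A * ch (dot η A))‖ :=
    (norm_sum_le _ _).trans (sum_le_sum fun η _ => by rw [norm_mul, norm_ch, one_mul])
  have hS : 0 ≤ ∑ η ∈ elts H, ‖a.powerset.expect (fun A => g A * ch (dot η A))‖ :=
    sum_nonneg fun _ _ => norm_nonneg _
  have hp : (0 : ℝ) < (p : ℝ) ^ Module.finrank (ZMod p) ↥H :=
    pow_pos (Nat.cast_pos.2 (Fact.out : p.Prime).pos) _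
  have h2p : (0 : ℝ) < 2 ^ a.card := by positivity
  have h4 : (2 : ℝ) ^ a.card ≤ 2 * ((p : ℝ) ^ Module.finrank (ZMod p) ↥H * (fib H a A0).card) := by
    nlinarith
  have hc : (0 : ℝ) < (fib H a A0).card := by
    by_contra hc
    have : ((fib H a A0).card : ℝ) = 0 := le_antisymm (not_lt.1 hc) (Nat.cast_nonneg _)
    rw [this] at h4
    linarith
  rw [expect_eq_sum_div_card, norm_div, Complex.norm_natCast, div_le_iff₀ hc]
  refine le_of_mul_le_mul_left ?_ hp
  rw [h2]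
  calc _ ≤ (2 : ℝ) ^ a.card * ∑ η ∈ elts H, ‖a.powerset.expect (fun A => g A * ch (dot η A))‖ :=
        mul_le_mul_of_nonneg_left h3 h2p.le
    _ ≤ (2 * ((p : ℝ) ^ Module.finrank (ZMod p) ↥H * (fib H a A0).card)) *
          ∑ η ∈ elts H, ‖a.powerset.expect (fun A => g A * ch (dot η A))‖ :=
        mul_le_mul_of_nonneg_right h4 hS
    _ = _ := by ring

theorem norm_expect_ch (hθ : ThC p θ) {H : Sub p X} {J a A0 : Finset X} (hJ : co J ≤ H)
    (hA : A0 ⊆ a) (he : enum θ (H.map (off J)) a ≤ 3 / 2) (μ : Vec p X) :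
    ‖(fib H a A0).expect (fun A => ch (dot μ A))‖ ≤ 2 * cenum θ (off J μ) (H.map (off J)) a := by
  rw [expect_fib_off hJ hA, ← cenum_sdiff]
  rw [← enum_sdiff] at he
  refine (norm_expect_fib hθ he _ _).trans ?_
  refine mul_le_mul_of_nonneg_left (sum_le_sum fun η _ => ?_) (by norm_num)
  have e : (a \ J).powerset.expect (fun B => ch (dot μ (A0 ∩ J ∪ B)) * ch (dot η B)) =
      ch (dot μ (A0 ∩ J)) * (a \ J).powerset.expect (fun B => ch (dot (off J μ + η) B)) := by
    rw [mul_expect]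
    refine expect_congr rfl fun B hB => ?_
    have hBJ : Disjoint B J := by
      refine disjoint_left.2 fun i hi hj => ?_
      exact (mem_sdiff.1 (mem_powerset.1 hB hi)).2 hj
    have hd : Disjoint (A0 ∩ J) B := (hBJ.mono_right inter_subset_right).symm
    rw [dot_union μ hd, dot_add, dot_off, sdiff_eq_self_of_disjoint hBJ, ch_add, ch_add, mul_assoc]
  rw [e, norm_mul, norm_ch, one_mul]
  exact hθ.2.2 X _ _

omit [Fintype X] [DecidableEq X] in
/-- a probability from a character expansion of the indicator. -/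
theorem ofour_pr_le {ι : Type} (I : Finset ι) (s : Finset (Finset X)) (P : Finset X → Prop)
    (c : ι → ℂ) (w : ι → Vec p X)
    (h : ∀ A, (if P A then (1 : ℂ) else 0) = ∑ i ∈ I, c i * ch (dot (w i) A)) :
    pr s P ≤ ∑ i ∈ I, ‖c i‖ * ‖s.expect (fun A => ch (dot (w i) A))‖ := by
  have e : ((pr s P : ℝ) : ℂ) = ∑ i ∈ I, c i * s.expect (fun A => ch (dot (w i) A)) := by
    rw [pr, Complex.ofReal_expect]
    have e1 : ∀ A, (((if P A then (1 : ℝ) else 0 : ℝ)) : ℂ) =
        ∑ i ∈ I, c i * ch (dot (w i) A) := by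
      intro A
      rw [← h A]
      split_ifs <;> simp
    rw [expect_congr rfl (fun A _ => e1 A), expect_sum_comm]
    exact sum_congr rfl fun i _ => (mul_expect _ _ _).symm
  have e2 := congrArg norm e
  rw [Complex.norm_real, Real.norm_of_nonneg (pr_nonneg s P)] at e2
  rw [e2]
  exact (norm_sum_le _ _).trans (sum_le_sum fun i _ => (norm_mul _ _).le)

theorem ofour_zero (s : Finset (Finset X)) :
    ‖s.expect (fun A => ch (dot (0 : Vec p X) A))‖ ≤ 1 := by
  simp only [dot_zero, ch_zero]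
  rcases s.eq_empty_or_nonempty with rfl | hs
  · simp
  · rw [expect_const hs, norm_one]

theorem ofour_ind (x c : ZMod p) :
    (if x = c then (1 : ℂ) else 0) = ∑ u : ZMod p, (1 / p * ch (-(u * c))) * ch (u * x) := by
  have hp : (p : ℂ) ≠ 0 := Nat.cast_ne_zero.2 (Fact.out : p.Prime).ne_zero
  have e : ∀ u : ZMod p, (1 / (p : ℂ) * ch (-(u * c))) * ch (u * x) = 1 / p * ch (u * (x - c)) := by
    intro u
    rw [mul_assoc, ← ch_add]
    congr 2
    ring
  rw [sum_congr rfl (fun u _ => e u), ← mul_sum, sum_ch_mul]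
  by_cases h : x = c
  · rw [if_pos h, if_pos (sub_eq_zero.2 h)]
    field_simp
  · rw [if_neg h, if_neg (fun e => h (sub_eq_zero.1 e)), mul_zero]

/-- coefficients of the indicator of `x ≠ c`. -/
noncomputable def ofour_co (c u : ZMod p) : ℂ :=
  (if u = 0 then 1 else 0) - 1 / p * ch (-(u * c))

theorem ofour_ind_ne (x c : ZMod p) :
    (if x ≠ c then (1 : ℂ) else 0) = ∑ u : ZMod p, ofour_co c u * ch (u * x) := by
  have e : ∀ u : ZMod p, ofour_co c u * ch (u * x) =
      (if u = 0 then ch (u * x) else 0) - (1 / p * ch (-(u * c))) * ch (u * x) := by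
    intro u
    unfold ofour_co
    split_ifs <;> ring
  rw [sum_congr rfl (fun u _ => e u), sum_sub_distrib, ← ofour_ind, sum_ite_eq' univ (0 : ZMod p),
    if_pos (mem_univ _), zero_mul, ch_zero]
  by_cases h : x = c
  · rw [if_neg (not_not.2 h), if_pos h, sub_self]
  · rw [if_pos h, if_neg h, sub_zero]

theorem ofour_co_le (c u : ZMod p) : ‖ofour_co c u‖ ≤ 1 - 1 / (p : ℝ) := by
  have hp2 : (2 : ℝ) ≤ p := by exact_mod_cast (Fact.out : p.Prime).two_le
  have h1 : 1 / (p : ℝ) ≤ 1 / 2 := one_div_le_one_div_of_le (by norm_num) hp2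
  unfold ofour_co
  split_ifs with h
  · rw [h, zero_mul, neg_zero, ch_zero, mul_one]
    have e : (1 : ℂ) - 1 / p = ((1 - 1 / (p : ℝ) : ℝ) : ℂ) := by push_cast; rfl
    rw [e, Complex.norm_real, Real.norm_of_nonneg (by linarith)]
  · rw [zero_sub, norm_neg, norm_mul, norm_ch, mul_one, norm_div, norm_one, Complex.norm_natCast]
    linarith

theorem single_le (hθ : ThC p θ) {H : Sub p X} {J a A0 : Finset X} (hJ : co J ≤ H)
    (hA : A0 ⊆ a) (he : enum θ (H.map (off J)) a ≤ 3 / 2) (v : Vec p X) {ε : ℝ}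
    (hc : ∀ u : ZMod p, u ≠ 0 → cenum θ (off J (u • v)) (H.map (off J)) a ≤ ε) (c : ZMod p) :
    pr (fib H a A0) (fun A => dot v A = c) ≤ 1 / p + 2 * ε := by
  have hp : (0 : ℝ) < p := Nat.cast_pos.2 (Fact.out : p.Prime).pos
  have hε : 0 ≤ ε := (cenum_nonneg hθ.1 _ _ _).trans (hc 1 one_ne_zero)
  have h := ofour_pr_le univ (fib H a A0) (fun A => dot v A = c)
    (fun u : ZMod p => 1 / (p : ℂ) * ch (-(u * c))) (fun u => u • v) (fun A => by
      have := ofour_ind (dot v A) c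
      simp only [dot_smul]
      rw [← this]
      congr)
  refine h.trans ?_
  have hb : ∀ u : ZMod p, ‖1 / (p : ℂ) * ch (-(u * c))‖ *
      ‖(fib H a A0).expect (fun A => ch (dot (u • v) A))‖ ≤
      (if u = 0 then 1 / (p : ℝ) else 0) + 1 / p * (2 * ε) := by
    intro u
    rw [norm_mul, norm_ch, mul_one, norm_div, norm_one, Complex.norm_natCast]
    have h0 : (0 : ℝ) ≤ 1 / p := by positivity
    split_ifs with hu
    · rw [hu, zero_smul]
      have h1 := mul_le_mul_of_nonneg_left (ofour_zero (p := p) (fib H a A0)) h0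
      have h2 : 0 ≤ 1 / (p : ℝ) * (2 * ε) := by positivity
      linarith
    · rw [zero_add]
      refine mul_le_mul_of_nonneg_left ((norm_expect_ch hθ hJ hA he _).trans ?_) h0
      have := hc u hu
      linarith
  refine (sum_le_sum fun u _ => hb u).trans (le_of_eq ?_)
  rw [sum_add_distrib, sum_ite_eq' univ (0 : ZMod p), if_pos (mem_univ _), sum_const, card_univ,
    ZMod.card, nsmul_eq_mul]
  field_simp

theorem pair_le (hθ : ThC p θ) {H : Sub p X} {J a A0 : Finset X} (hJ : co J ≤ H)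
    (hA : A0 ⊆ a) (he : enum θ (H.map (off J)) a ≤ 3 / 2) (v v' : Vec p X) {ε : ℝ}
    (hc : ∀ u u' : ZMod p, (u ≠ 0 ∨ u' ≠ 0) →
      cenum θ (off J (u • v + u' • v')) (H.map (off J)) a ≤ ε) (c c' : ZMod p) :
    pr (fib H a A0) (fun A => dot v A ≠ c ∧ dot v' A ≠ c') ≤
      (1 - 1 / (p : ℝ)) ^ 2 * (1 + 2 * (p : ℝ) ^ 2 * ε) := by
  have hε : 0 ≤ ε := (cenum_nonneg hθ.1 _ _ _).trans (hc 1 0 (Or.inl one_ne_zero))
  have h := ofour_pr_le univ (fib H a A0) (fun A => dot v A ≠ c ∧ dot v' A ≠ c')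
    (fun u : ZMod p × ZMod p => ofour_co c u.1 * ofour_co c' u.2)
    (fun u => u.1 • v + u.2 • v') (fun A => by
      have e : ∀ u : ZMod p × ZMod p,
          ofour_co c u.1 * ofour_co c' u.2 * ch (dot (u.1 • v + u.2 • v') A) =
          (ofour_co c u.1 * ch (u.1 * dot v A)) * (ofour_co c' u.2 * ch (u.2 * dot v' A)) := by
        intro u
        rw [dot_add, dot_smul, dot_smul, ch_add]
        ring
      rw [sum_congr rfl (fun u _ => e u), Fintype.sum_prod_type]
      dsimp only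
      rw [← sum_mul_sum, ← ofour_ind_ne, ← ofour_ind_ne]
      by_cases h1 : dot v A = c <;> by_cases h2 : dot v' A = c' <;> simp [h1, h2])
  refine h.trans ?_
  have hq : 0 ≤ 1 - 1 / (p : ℝ) := (norm_nonneg _).trans (ofour_co_le c 0)
  have hb : ∀ u : ZMod p × ZMod p, ‖ofour_co c u.1 * ofour_co c' u.2‖ *
      ‖(fib H a A0).expect (fun A => ch (dot (u.1 • v + u.2 • v') A))‖ ≤
      (1 - 1 / (p : ℝ)) ^ 2 * ((if u = 0 then 1 else 0) + 2 * ε) := by
    intro u
    have h1 : ‖ofour_co c u.1 * ofour_co c' u.2‖ ≤ (1 - 1 / (p : ℝ)) ^ 2 := by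
      rw [norm_mul, sq]
      exact mul_le_mul (ofour_co_le _ _) (ofour_co_le _ _) (norm_nonneg _) hq
    refine mul_le_mul h1 ?_ (norm_nonneg _) (sq_nonneg _)
    split_ifs with hu
    · rw [hu, Prod.fst_zero, Prod.snd_zero, zero_smul, zero_smul, add_zero]
      have := ofour_zero (p := p) (fib H a A0)
      linarith
    · have hu' : u.1 ≠ 0 ∨ u.2 ≠ 0 := by
        by_contra hh
        push Not at hh
        exact hu (Prod.ext hh.1 hh.2)
      have h2 := hc u.1 u.2 hu'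
      have h3 := norm_expect_ch hθ hJ hA he (u.1 • v + u.2 • v')
      linarith
  refine (sum_le_sum fun u _ => hb u).trans (le_of_eq ?_)
  rw [← mul_sum, sum_add_distrib, sum_ite_eq' univ (0 : ZMod p × ZMod p), if_pos (mem_univ _),
    sum_const, card_univ, Fintype.card_prod, ZMod.card, nsmul_eq_mul]
  push_cast
  ring

end Pool.Agent.P.MP_85fe51_lc.OD
end

-- part Pool.Agent.P.MP_85fe51_lc.OSt0
section

set_option autoImplicit false

namespace Pool.Agent.P.MP_85fe51_lc.OD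

open Finset
open scoped Classical

variable {p : ℕ} [Fact p.Prime] {V : Type} [AddCommGroup V]

theorem ost_sgn_flip {k : ℕ} (ε : Fin k → Bool) (b : Fin k) :
    sgn (Function.update ε b (!ε b)) = - sgn ε := by
  unfold sgn
  rw [← Finset.mul_prod_erase univ _ (mem_univ b),
    ← Finset.mul_prod_erase univ (fun b => if ε b then (-1 : ℤ) else 1) (mem_univ b)]
  have e : ∏ x ∈ univ.erase b, (if Function.update ε b (!ε b) x then (-1 : ℤ) else 1) =
      ∏ x ∈ univ.erase b, (if ε x then (-1 : ℤ) else 1) := by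
    refine Finset.prod_congr rfl fun x hx => ?_
    rw [Function.update_of_ne (Finset.ne_of_mem_erase hx)]
  rw [e, Function.update_self]
  cases ε b <;> simp

theorem ost_sgn_cons {k : ℕ} (c : Bool) (ε : Fin k → Bool) :
    sgn (Fin.cons c ε : Fin (k + 1) → Bool) = (if c then -1 else 1) * sgn ε := by
  unfold sgn
  rw [Fin.prod_univ_succ]
  simp only [Fin.cons_zero, Fin.cons_succ]

theorem ost_sz_add {w : ZMod p → V} (hw : SZ w) (c : ZMod p) : SZ (fun s => w (s + c)) := by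
  unfold SZ at *
  rw [← hw]
  exact Equiv.sum_comp (Equiv.addRight c) w

theorem ost_sz_sub {w w' : ZMod p → V} (hw : SZ w) (hw' : SZ w') :
    SZ (fun s => w s - w' s) := by
  unfold SZ at *
  rw [Finset.sum_sub_distrib, hw, hw', sub_zero]

theorem ost_pr_cons {Z : Type} [Fintype Z] [DecidableEq Z] {n : ℕ}
    (P : (Fin (n + 1) → Z) → Prop) :
    pr univ P = (∑ a : Z, pr univ (fun s : Fin n → Z => P (Fin.cons a s))) / Fintype.card Z := by
  unfold pr
  rw [← Fintype.expect_equiv (Fin.consEquiv (fun _ : Fin (n + 1) => Z))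
    (fun x => if P (Fin.cons x.1 x.2) then (1 : ℝ) else 0) _ (fun _ => rfl),
    ← Finset.univ_product_univ, Finset.expect_product, Finset.expect_eq_sum_div_card,
    Finset.card_univ]

variable {X : Type} [Fintype X] [DecidableEq X] {T : Type}

omit [Fintype X] in
theorem ost_dot_insert (η : Vec p X) {i : X} {A : Finset X} (hi : i ∉ A) :
    dot η (insert i A) = η i + dot η A := Finset.sum_insert hi

theorem ost_popular (Tt : Finset T) (d : T → ZMod p) :
    ∃ a, p * (Tt.filter (fun t => d t ≠ a)).card ≤ (p - 1) * Tt.card := by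
  have hsum : ∑ a : ZMod p, (Tt.filter (fun t => d t = a)).card = Tt.card :=
    (Finset.card_eq_sum_card_fiberwise (f := d) (t := univ) (fun _ _ => mem_univ _)).symm
  have hex : ∃ a : ZMod p, Tt.card ≤ p * (Tt.filter (fun t => d t = a)).card := by
    by_contra hcon
    push Not at hcon
    have := Finset.sum_lt_sum_of_nonempty (s := (univ : Finset (ZMod p))) univ_nonempty
      (fun a _ => hcon a)
    rw [← Finset.mul_sum, hsum, Finset.sum_const, Finset.card_univ, ZMod.card, smul_eq_mul] at this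
    exact lt_irrefl _ this
  obtain ⟨a, ha⟩ := hex
  refine ⟨a, ?_⟩
  have hc := Finset.card_filter_add_card_filter_not (s := Tt) (fun t => d t = a)
  have hp1 : 1 ≤ p := (Fact.out : p.Prime).one_lt.le
  obtain ⟨q, rfl⟩ : ∃ q, p = q + 1 := ⟨p - 1, by omega⟩
  rw [Nat.add_sub_cancel]
  have e : (Tt.filter (fun t => d t ≠ a)).card = (Tt.filter (fun t => ¬ d t = a)).card := rfl
  rw [e]
  nlinarith

omit [Fintype X] in
theorem ost_diff (Tt : Finset T) (w : T → ZMod p → V) (δ : T → Vec p X) {i : X} (a : ZMod p)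
    {A : Finset X} (hi : i ∉ A) (y : ZMod p) :
    ∑ t ∈ Tt.filter (fun t => δ t i ≠ a),
        (w t (y + dot (δ t) A + δ t i) - w t (y + dot (δ t) A + a)) =
      ∑ t ∈ Tt, w t (y + dot (δ t) (insert i A)) - ∑ t ∈ Tt, w t (y + a + dot (δ t) A) := by
  rw [← Finset.sum_sub_distrib, Finset.sum_filter]
  refine Finset.sum_congr rfl fun t _ => ?_
  rw [ost_dot_insert _ hi]
  have e1 : y + (δ t i + dot (δ t) A) = y + dot (δ t) A + δ t i := by ring
  have e2 : y + a + dot (δ t) A = y + dot (δ t) A + a := by ring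
  rw [e1, e2]
  by_cases h : δ t i = a
  · rw [if_neg (not_not.mpr h), h, sub_self]
  · rw [if_pos h]

omit [Fintype X] in
theorem ost_struct (X0 : Finset X) (Tt : Finset T) (w : T → ZMod p → V)
    (hw : ∀ t ∈ Tt, SZ (w t)) (δ : T → Vec p X)
    (h : ∃ A, A ⊆ X0 ∧ ∃ y, ∑ t ∈ Tt, w t (y + dot (δ t) A) ≠ 0) :
    ∃ (I : Finset X) (μ : Vec p X) (w0 : ZMod p → V), I ⊆ X0 ∧ SZ w0 ∧ w0 ≠ 0 ∧
      p ^ I.card ≤ (p - 1) ^ I.card * Tt.card ∧
      ∀ (Λ : Type) [Fintype Λ] (n : Λ → ℤ) (s : Λ → ZMod p) (A : Λ → Finset X),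
        (∀ l, A l ⊆ X0 \ I) →
        (∀ β, β ⊆ I → ∀ y, ∑ l, n l • ∑ t ∈ Tt, w t (y + s l + dot (δ t) (A l ∪ β)) = 0) →
        ∀ y, ∑ l, n l • w0 (y + s l + dot μ (A l)) = 0 := by
  induction X0 using Finset.induction_on generalizing Tt w with
  | empty =>
    obtain ⟨A, hA, y, hy⟩ := h
    rw [Finset.subset_empty.mp hA] at hy
    refine ⟨∅, 0, fun y => ∑ t ∈ Tt, w t y, Finset.Subset.refl _, ?_, ?_, ?_, ?_⟩
    · unfold SZ
      rw [Finset.sum_comm]
      exact Finset.sum_eq_zero fun t ht => hw t ht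
    · intro hz
      apply hy
      have := congrFun hz y
      simpa [dot] using this
    · have : Tt.Nonempty := Finset.nonempty_of_sum_ne_zero hy
      simpa using this
    · intro Λ _ n s A hA hβ y
      have h1 := hβ ∅ (Finset.Subset.refl _) y
      have hA' : ∀ l, A l = ∅ := fun l => by simpa using hA l
      simpa [hA', dot] using h1
  | insert i X1 hi ih =>
    obtain ⟨a, ha⟩ := ost_popular Tt (fun t => δ t i)
    by_cases hc : ∃ A, A ⊆ X1 ∧ ∃ y, ∑ t ∈ Tt.filter (fun t => δ t i ≠ a),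
        (w t (y + dot (δ t) A + δ t i) - w t (y + dot (δ t) A + a)) ≠ 0
    · obtain ⟨I, μ, w0, hI, hs, h0, hcard, hfin⟩ := ih (Tt.filter (fun t => δ t i ≠ a))
        (fun t z => w t (z + δ t i) - w t (z + a))
        (fun t ht => ost_sz_sub (ost_sz_add (hw t (Finset.mem_filter.mp ht).1) _)
          (ost_sz_add (hw t (Finset.mem_filter.mp ht).1) _)) hc
      have hiI : i ∉ I := fun hx => hi (hI hx)
      refine ⟨insert i I, μ, w0, Finset.insert_subset_insert i hI, hs, h0, ?_, ?_⟩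
      · rw [Finset.card_insert_of_notMem hiI, pow_succ, pow_succ]
        calc p ^ I.card * p ≤ (p - 1) ^ I.card * (Tt.filter (fun t => δ t i ≠ a)).card * p :=
              Nat.mul_le_mul_right _ hcard
          _ = (p - 1) ^ I.card * (p * (Tt.filter (fun t => δ t i ≠ a)).card) := by ring
          _ ≤ (p - 1) ^ I.card * ((p - 1) * Tt.card) := Nat.mul_le_mul_left _ ha
          _ = (p - 1) ^ I.card * (p - 1) * Tt.card := by ring
      · intro Λ _ n s A hA hβ
        have hA1 : ∀ l, A l ⊆ X1 \ I := by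
          intro l x hx
          have := hA l hx
          simp only [Finset.mem_sdiff, Finset.mem_insert, not_or] at this ⊢
          exact ⟨this.1.resolve_left this.2.1, this.2.2⟩
        refine hfin Λ n s A hA1 fun β hb y => ?_
        have hni : ∀ l, i ∉ A l ∪ β := by
          intro l hx
          rcases Finset.mem_union.mp hx with hx | hx
          · exact hi (Finset.mem_sdiff.mp (hA1 l hx)).1
          · exact hiI (hb hx)
        have e1 := hβ (insert i β) (Finset.insert_subset_insert i hb) y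
        have e2 := hβ β (hb.trans (Finset.subset_insert i I)) (y + a)
        rw [← sub_self (0 : V)]
        nth_rewrite 1 [← e1]
        rw [← e2, ← Finset.sum_sub_distrib]
        refine Finset.sum_congr rfl fun l _ => ?_
        rw [← smul_sub, ost_diff Tt w δ a (hni l) (y + s l), Finset.union_insert]
        have e3 : y + s l + a = y + a + s l := by ring
        rw [e3]
    · have hz : ∀ A, A ⊆ X1 → ∀ y, ∑ t ∈ Tt, w t (y + dot (δ t) (insert i A)) =
          ∑ t ∈ Tt, w t (y + a + dot (δ t) A) := by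
        intro A hA y
        rw [← sub_eq_zero, ← ost_diff Tt w δ a (fun hx => hi (hA hx)) y]
        by_contra hne
        exact hc ⟨A, hA, y, hne⟩
      have hz' : ∀ A, A ⊆ insert i X1 → ∀ y, ∑ t ∈ Tt, w t (y + dot (δ t) A) =
          ∑ t ∈ Tt, w t (y + (if i ∈ A then a else 0) + dot (δ t) (A.erase i)) := by
        intro A hA y
        by_cases hx : i ∈ A
        · rw [if_pos hx, ← hz (A.erase i) (Finset.subset_insert_iff.mp hA) y,
            Finset.insert_erase hx]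
        · rw [if_neg hx, add_zero, Finset.erase_eq_of_notMem hx]
      obtain ⟨I, μ, w0, hI, hs, h0, hcard, hfin⟩ := ih Tt w hw (by
        obtain ⟨A, hA, y, hy⟩ := h
        rw [hz' A hA y] at hy
        exact ⟨A.erase i, Finset.subset_insert_iff.mp hA, _, hy⟩)
      have hiI : i ∉ I := fun hx => hi (hI hx)
      refine ⟨I, Function.update μ i a, w0, hI.trans (Finset.subset_insert i X1), hs, h0, hcard, ?_⟩
      intro Λ _ n s A hA hβ y
      have hA1 : ∀ l, (A l).erase i ⊆ X1 \ I := by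
        intro l x hx
        have h1 := Finset.mem_erase.mp hx
        have := hA l h1.2
        simp only [Finset.mem_sdiff, Finset.mem_insert] at this ⊢
        exact ⟨this.1.resolve_left h1.1, this.2⟩
      have key := hfin Λ n (fun l => s l + if i ∈ A l then a else 0) (fun l => (A l).erase i) hA1
        (by
          intro β hb y
          rw [← hβ β hb y]
          refine Finset.sum_congr rfl fun l _ => ?_
          have hsub : A l ∪ β ⊆ insert i X1 :=
            Finset.union_subset ((hA l).trans Finset.sdiff_subset)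
              ((hb.trans hI).trans (Finset.subset_insert i X1))
          have hiβ : i ∉ β := fun hx => hiI (hb hx)
          have e1 : (A l ∪ β).erase i = (A l).erase i ∪ β := by
            rw [Finset.erase_union_distrib, Finset.erase_eq_of_notMem hiβ]
          have e2 : (i ∈ A l ∪ β) ↔ i ∈ A l := by simp [hiβ]
          rw [hz' _ hsub, e1]
          simp only [e2, add_assoc]) y
      rw [← key]
      refine Finset.sum_congr rfl fun l _ => ?_
      have e1 : dot μ ((A l).erase i) = dot (Function.update μ i a) ((A l).erase i) :=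
        Finset.sum_congr rfl fun x hx => by
          rw [Function.update_of_ne (Finset.ne_of_mem_erase hx)]
      have e2 : dot (Function.update μ i a) (A l) =
          (if i ∈ A l then a else 0) + dot μ ((A l).erase i) := by
        rw [e1]
        by_cases hx : i ∈ A l
        · rw [if_pos hx]
          nth_rewrite 1 [← Finset.insert_erase hx]
          rw [ost_dot_insert _ (Finset.notMem_erase i _), Function.update_self]
        · rw [if_neg hx, zero_add, Finset.erase_eq_of_notMem hx]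
      rw [e2]
      simp only [add_assoc]

end Pool.Agent.P.MP_85fe51_lc.OD
end

-- part Pool.Agent.P.MP_85fe51_lc.OSt
section

set_option autoImplicit false

namespace Pool.Agent.P.MP_85fe51_lc.OD

open Finset
open scoped Classical

variable {p : ℕ} [Fact p.Prime] {V : Type} [AddCommGroup V]

theorem sum_sgn_eq_zero {k : ℕ} (F : (Fin k → Bool) → V) (b : Fin k)
    (h : ∀ ε, F (Function.update ε b true) = F (Function.update ε b false)) :
    ∑ ε, sgn ε • F ε = 0 := by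
  refine Finset.sum_involution (fun ε _ => Function.update ε b (!ε b)) ?_ ?_ ?_ ?_
  · intro ε _
    have hF : F (Function.update ε b (!ε b)) = F ε := by
      have h1 := h ε
      cases hb : ε b
      · have e : Function.update ε b false = ε := by rw [← hb]; exact Function.update_eq_self b ε
        rw [e] at h1
        simpa using h1
      · have e : Function.update ε b true = ε := by rw [← hb]; exact Function.update_eq_self b ε
        rw [e] at h1
        simpa using h1.symm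
    rw [ost_sgn_flip, hF, neg_smul, add_neg_cancel]
  · intro ε _ _ he
    have := congrFun he b
    rw [Function.update_self] at this
    cases hb : ε b <;> simp [hb] at this
  · intro ε _
    exact mem_univ _
  · intro ε _
    funext x
    by_cases hx : x = b
    · subst hx
      simp
    · simp [Function.update_of_ne hx]

theorem sum_sgn_succ {k : ℕ} (F : (Fin (k + 1) → Bool) → V) :
    ∑ ε, sgn ε • F ε = ∑ ε : Fin k → Bool, sgn ε • (F (Fin.cons false ε) - F (Fin.cons true ε)) := by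
  rw [← (Fin.consEquiv (fun _ : Fin (k + 1) => Bool)).sum_comp, Fintype.sum_prod_type,
    Finset.sum_comm]
  refine Finset.sum_congr rfl fun ε _ => ?_
  rw [Fintype.sum_bool]
  have e : ∀ c : Bool, (Fin.consEquiv (fun _ : Fin (k + 1) => Bool)) (c, ε) = Fin.cons c ε :=
    fun _ => rfl
  rw [e, e, ost_sgn_cons, ost_sgn_cons, smul_sub]
  simp only [if_true, Bool.false_eq_true, if_false, neg_mul, one_mul, neg_smul]
  abel

theorem SZ.shift {w : ZMod p → V} (hw : SZ w) {u : ZMod p} (hu : u ≠ 0) (c : ZMod p) :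
    SZ (fun s => w (u * s + c)) := by
  unfold SZ at *
  rw [← hw]
  exact ((Equiv.mulLeft₀ u hu).trans (Equiv.addRight c)).sum_comp w

theorem shift_inj (hV : NoP p V) {w : ZMod p → V} (hw : SZ w) {a b : ZMod p} (hab : a ≠ b)
    (h : ∀ y, w (y + a) = w (y + b)) : w = 0 := by
  have hd : a - b ≠ 0 := sub_ne_zero.mpr hab
  have h1 : ∀ y, w (y + (a - b)) = w y := by
    intro y
    have := h (y - b)
    rw [sub_add_cancel] at this
    rw [← this]
    congr 1
    ring
  have h2 : ∀ n : ℕ, w ((n : ZMod p) * (a - b)) = w 0 := by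
    intro n
    induction n with
    | zero => simp
    | succ n ih => rw [Nat.cast_succ, add_mul, one_mul, h1, ih]
  have h3 : ∀ y, w y = w 0 := by
    intro y
    have := h2 (y * (a - b)⁻¹).val
    rwa [ZMod.natCast_zmod_val, mul_assoc, inv_mul_cancel₀ hd, mul_one] at this
  have h4 : p • w 0 = 0 := by
    have := hw
    unfold SZ at this
    rw [Finset.sum_congr rfl (fun y _ => h3 y), Finset.sum_const, Finset.card_univ,
      ZMod.card] at this
    exact this
  funext y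
  rw [h3 y]
  exact hV _ h4

theorem pd_zero {k : ℕ} (w : ZMod p → V) (α β : Fin k → ZMod p) {b : Fin k} (h : α b = β b)
    (u : ZMod p) : ∑ ε : Fin k → Bool, sgn ε • w (u + ∑ b, if ε b then β b else α b) = 0 := by
  refine sum_sgn_eq_zero (fun ε => w (u + ∑ b, if ε b then β b else α b)) b fun ε => ?_
  have e : (∑ x, if Function.update ε b true x then β x else α x) =
      ∑ x, if Function.update ε b false x then β x else α x := by
    refine Finset.sum_congr rfl fun x _ => ?_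
    by_cases hx : x = b
    · subst hx
      simp [h]
    · rw [Function.update_of_ne hx, Function.update_of_ne hx]
  simp only [e]

theorem pd_ne (hV : NoP p V) {k : ℕ} {w : ZMod p → V} (hw : SZ w) (h0 : w ≠ 0)
    (α β : Fin k → ZMod p) (h : ∀ b, α b ≠ β b) :
    ∃ u, ∑ ε : Fin k → Bool, sgn ε • w (u + ∑ b, if ε b then β b else α b) ≠ 0 := by
  induction k generalizing w with
  | zero =>
    obtain ⟨u, hu⟩ := Function.ne_iff.mp h0
    refine ⟨u, ?_⟩
    simpa [sgn] using hu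
  | succ k ih =>
    have hw' : SZ (fun y => w (y + α 0) - w (y + β 0)) :=
      ost_sz_sub (ost_sz_add hw _) (ost_sz_add hw _)
    have h0' : (fun y => w (y + α 0) - w (y + β 0)) ≠ 0 := by
      intro hz
      exact h0 (shift_inj hV hw (h 0) fun y => sub_eq_zero.mp (congrFun hz y))
    obtain ⟨u, hu⟩ := ih hw' h0' (fun b => α b.succ) (fun b => β b.succ) (fun b => h b.succ)
    refine ⟨u, ?_⟩
    rw [sum_sgn_succ]
    intro hz
    apply hu
    rw [← hz]
    refine Finset.sum_congr rfl fun ε _ => ?_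
    simp only [Fin.sum_univ_succ, Fin.cons_zero, Fin.cons_succ, if_true, Bool.false_eq_true,
      if_false]
    congr 2 <;> congr 1 <;> ring

theorem min_dist (hV : NoP p V) {n : ℕ} (f : (Fin n → Bool) → ZMod p → V) (hf : ∀ ε, SZ (f ε))
    (h0 : f ≠ 0) :
    piK p n ≤ pr univ (fun s : Fin n → ZMod p =>
      ∃ y, ∑ ε, sgn ε • f ε (y + ∑ b, if ε b then s b else 0) ≠ 0) := by
  induction n with
  | zero =>
    obtain ⟨ε, hε⟩ := Function.ne_iff.mp h0
    obtain ⟨y, hy⟩ := Function.ne_iff.mp hε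
    have hall : ∀ s : Fin 0 → ZMod p,
        ∃ y, ∑ ε, sgn ε • f ε (y + ∑ b, if ε b then s b else 0) ≠ 0 := by
      intro s
      refine ⟨y, ?_⟩
      rw [Fintype.sum_eq_single ε (fun x hx => (hx (Subsingleton.elim _ _)).elim)]
      simpa [sgn] using hy
    unfold pr piK
    rw [pow_zero]
    exact Finset.le_expect univ_nonempty fun s _ => (if_pos (hall s)).ge
  | succ n ih =>
    let g : ZMod p → (Fin n → Bool) → ZMod p → V :=
      fun a ε y => f (Fin.cons false ε) y - f (Fin.cons true ε) (y + a)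
    have hg : ∀ a ε, SZ (g a ε) := fun a ε => ost_sz_sub (hf _) (ost_sz_add (hf _) a)
    have hone : ∃ a0, ∀ a, a ≠ a0 → g a ≠ 0 := by
      by_cases hex : ∃ a0, g a0 = 0
      · obtain ⟨a0, ha0⟩ := hex
        refine ⟨a0, fun a hne ha => h0 ?_⟩
        have ht : ∀ ε, f (Fin.cons true ε) = 0 := by
          intro ε
          refine shift_inj hV (hf _) hne fun y => ?_
          have e1 : f (Fin.cons false ε) y - f (Fin.cons true ε) (y + a) = 0 :=
            congrFun (congrFun ha ε) y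
          have e2 : f (Fin.cons false ε) y - f (Fin.cons true ε) (y + a0) = 0 :=
            congrFun (congrFun ha0 ε) y
          rw [← sub_eq_zero.mp e1, ← sub_eq_zero.mp e2]
        have hfl : ∀ ε, f (Fin.cons false ε) = 0 := by
          intro ε
          funext y
          have e1 : f (Fin.cons false ε) y - f (Fin.cons true ε) (y + a) = 0 :=
            congrFun (congrFun ha ε) y
          rw [ht ε] at e1
          simpa using e1
        funext ε
        rw [← Fin.cons_self_tail ε]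
        cases ε 0
        · exact hfl _
        · exact ht _
      · exact ⟨0, fun a _ ha => hex ⟨a, ha⟩⟩
    obtain ⟨a0, ha0⟩ := hone
    rw [ost_pr_cons, ZMod.card]
    have hp : (1 : ℝ) ≤ p := by exact_mod_cast (Fact.out : p.Prime).one_lt.le
    have hstep : ∀ a ∈ univ.erase a0, piK p n ≤ pr univ (fun s : Fin n → ZMod p =>
        ∃ y, ∑ ε, sgn ε • f ε (y + ∑ b, if ε b then (Fin.cons a s : Fin (n + 1) → ZMod p) b
          else 0) ≠ 0) := by
      intro a ha
      refine (ih (g a) (hg a) (ha0 a (Finset.ne_of_mem_erase ha))).trans (pr_mono _ ?_)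
      rintro s - ⟨y, hy⟩
      refine ⟨y, ?_⟩
      rw [sum_sgn_succ]
      intro hz
      apply hy
      rw [← hz]
      refine Finset.sum_congr rfl fun ε _ => ?_
      simp only [g, Fin.sum_univ_succ, Fin.cons_zero, Fin.cons_succ, if_true, Bool.false_eq_true,
        if_false, zero_add]
      congr 3
      ring
    have hsum := Finset.card_nsmul_le_sum _ _ _ hstep
    rw [Finset.card_erase_of_mem (mem_univ _), Finset.card_univ, ZMod.card, nsmul_eq_mul,
      Nat.cast_sub (Fact.out : p.Prime).one_lt.le, Nat.cast_one] at hsum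
    have hle := Finset.sum_le_sum_of_subset_of_nonneg (Finset.erase_subset a0 univ)
      (f := fun a => pr univ (fun s : Fin n → ZMod p =>
        ∃ y, ∑ ε, sgn ε • f ε (y + ∑ b, if ε b then (Fin.cons a s : Fin (n + 1) → ZMod p) b
          else 0) ≠ 0)) (fun a _ _ => pr_nonneg _ _)
    rw [le_div_iff₀ (by linarith)]
    refine le_trans (le_of_eq ?_) (hsum.trans hle)
    unfold piK
    rw [pow_succ]
    field_simp

theorem pow_le_of_struct {i n E1 : ℕ} {c : ℝ} (hc0 : 0 ≤ c) (h : p ^ i ≤ (p - 1) ^ i * n)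
    (hc : c * ((p : ℝ) - 1) ^ E1 ≤ (p : ℝ) ^ E1) : c ^ i ≤ (n : ℝ) ^ E1 := by
  have hp1 : 1 < p := (Fact.out : p.Prime).one_lt
  have hp : (0 : ℝ) < (p : ℝ) - 1 := by
    have : (1 : ℝ) < p := by exact_mod_cast hp1
    linarith
  have h' : (p : ℝ) ^ i ≤ ((p : ℝ) - 1) ^ i * n := by
    have : ((p ^ i : ℕ) : ℝ) ≤ (((p - 1) ^ i * n : ℕ) : ℝ) := by exact_mod_cast h
    rwa [Nat.cast_pow, Nat.cast_mul, Nat.cast_pow, Nat.cast_sub hp1.le, Nat.cast_one] at this
  have h1 : (c * ((p : ℝ) - 1) ^ E1) ^ i ≤ ((p : ℝ) ^ E1) ^ i :=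
    pow_le_pow_left₀ (by positivity) hc i
  have h2 : ((p : ℝ) ^ i) ^ E1 ≤ (((p : ℝ) - 1) ^ i * n) ^ E1 :=
    pow_le_pow_left₀ (by positivity) h' E1
  rw [mul_pow, ← pow_mul, ← pow_mul] at h1
  rw [mul_pow, ← pow_mul, ← pow_mul, mul_comm i E1] at h2
  have h3 := h1.trans h2
  rw [mul_comm] at h3
  exact le_of_mul_le_mul_left h3 (by positivity)

variable {X : Type} [Fintype X] [DecidableEq X] {T : Type}

/-- a nonzero sum of few shifted terms is controlled by one term and few coordinates. -/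
theorem struct_lemma (hV : NoP p V) (X0 : Finset X) (Tt : Finset T) (w : T → ZMod p → V)
    (hw : ∀ t ∈ Tt, SZ (w t)) (δ : T → Vec p X)
    (h : ∃ A, A ⊆ X0 ∧ ∃ y, ∑ t ∈ Tt, w t (y + dot (δ t) A) ≠ 0) :
    ∃ (I : Finset X) (μ : Vec p X) (w0 : ZMod p → V), I ⊆ X0 ∧ SZ w0 ∧ w0 ≠ 0 ∧
      p ^ I.card ≤ (p - 1) ^ I.card * Tt.card ∧
      ∀ (Λ : Type) [Fintype Λ] (n : Λ → ℤ) (s : Λ → ZMod p) (A : Λ → Finset X),
        (∀ l, A l ⊆ X0 \ I) →
        (∀ β, β ⊆ I → ∀ y, ∑ l, n l • ∑ t ∈ Tt, w t (y + s l + dot (δ t) (A l ∪ β)) = 0) →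
        ∀ y, ∑ l, n l • w0 (y + s l + dot μ (A l)) = 0 :=
  ost_struct X0 Tt w hw δ h

theorem uncert (hV : NoP p V) (X0 : Finset X) (Tt : Finset T) (w : T → ZMod p → V)
    (hw : ∀ t ∈ Tt, SZ (w t)) (δ : T → Vec p X)
    (h : ∃ A, A ⊆ X0 ∧ ∃ y, ∑ t ∈ Tt, w t (y + dot (δ t) A) ≠ 0) {M E1 : ℕ} (hM : Tt.card ≤ M)
    (hE : 2 * ((p : ℝ) - 1) ^ E1 ≤ (p : ℝ) ^ E1) :
    1 / (M : ℝ) ^ E1 ≤
      pr X0.powerset (fun A => ∃ y, ∑ t ∈ Tt, w t (y + dot (δ t) A) ≠ 0) := by
  obtain ⟨I, μ, w0, hI, -, h0, hcard, hfin⟩ := struct_lemma hV X0 Tt w hw δ h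
  have h2 : (2 : ℝ) ^ I.card ≤ (M : ℝ) ^ E1 :=
    (pow_le_of_struct (by norm_num) hcard hE).trans
      (pow_le_pow_left₀ (by positivity) (by exact_mod_cast hM) E1)
  refine (one_div_le_one_div_of_le (by positivity) h2).trans ?_
  have hX : X0 = (X0 \ I) ∪ I := (Finset.sdiff_union_of_subset hI).symm
  unfold pr
  rw [hX, expect_powerset_union Finset.sdiff_disjoint]
  refine Finset.le_expect ⟨∅, Finset.empty_mem_powerset _⟩ fun A hA => ?_
  have hex : ∃ β, β ⊆ I ∧ ∃ y, ∑ t ∈ Tt, w t (y + dot (δ t) (A ∪ β)) ≠ 0 := by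
    by_contra hcon
    push Not at hcon
    have := hfin Unit (fun _ => 1) (fun _ => 0) (fun _ => A)
      (fun _ => Finset.mem_powerset.mp hA) (fun β hb y => by simpa using hcon β hb y)
    apply h0
    funext y
    simpa using this (y - dot μ A)
  obtain ⟨β, hb, hy⟩ := hex
  rw [Finset.expect_eq_sum_div_card, Finset.card_powerset, Nat.cast_pow, Nat.cast_ofNat]
  refine div_le_div_of_nonneg_right ?_ (by positivity)
  refine le_trans ?_ (Finset.single_le_sum (fun B _ => ?_) (Finset.mem_powerset.mpr hb))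
  · exact (if_pos hy).ge
  · split_ifs <;> norm_num

end Pool.Agent.P.MP_85fe51_lc.OD
end

-- part Pool.Agent.P.MP_85fe51_lc.OVal
section

set_option autoImplicit false

namespace Pool.Agent.P.MP_85fe51_lc.OD

open Finset
open scoped Classical

variable {k j : ℕ}

namespace Pat
variable (P : Pat k j)

theorem ab_inj : Function.Injective P.ab := by
  intro b b' h
  exact Fin.succ_injective _ (congrArg Prod.fst h)

theorem a0_ne_ab (b : Fin k) : P.a0 ≠ P.ab b := by
  intro h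
  exact Fin.succ_ne_zero b (congrArg Prod.fst h).symm

theorem a0_mem_Sg : P.a0 ∈ P.Sg := by
  unfold Pat.Sg
  rw [mem_filter]
  exact ⟨P.mem 0, P.a0_ne_ab⟩

theorem a0_mem_g : P.a0 ∈ P.g := P.mem 0

theorem ab_not_mem_Sg (b : Fin k) : P.ab b ∉ P.Sg := by
  unfold Pat.Sg
  rw [mem_filter]
  exact fun h => h.2 b rfl

theorem cp_inj {b b' : Fin k} {e e' : Bool} (h : P.cp b e = P.cp b' e') : b = b' ∧ e = e' := by
  cases e <;> cases e'
  · exact ⟨P.ab_inj (Sum.inl_injective h), rfl⟩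
  · exact absurd h Sum.inl_ne_inr
  · exact absurd h Sum.inr_ne_inl
  · exact ⟨Sum.inr_injective h, rfl⟩

theorem cp_ne_inl (b : Fin k) (e : Bool) {a : Atom k j} (ha : a ∈ P.Sg) :
    P.cp b e ≠ Sum.inl a := by
  intro h
  cases e
  · have h' : P.ab b = a := Sum.inl_injective h
    exact P.ab_not_mem_Sg b (h' ▸ ha)
  · exact absurd h Sum.inr_ne_inl

theorem atm_cp (b : Fin k) (e : Bool) : P.atm (P.cp b e) = P.ab b := by
  cases e <;> rfl

end Pat

variable {p : ℕ} [Fact p.Prime] {X : Type} [Fintype X] [DecidableEq X]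

theorem atomSet_subset (Y : Finset X) (l : X → Lab k j) (a : Atom k j) : atomSet Y l a ⊆ Y :=
  filter_subset _ _

theorem subSet_subset (Y : Finset X) (l : X → Lab k j) (a : Atom k j) :
    subSet Y l a ⊆ atomSet Y l a := by
  intro i hi
  unfold subSet at hi
  unfold atomSet
  rw [mem_filter] at hi ⊢
  exact ⟨hi.1, Or.inr hi.2⟩

theorem atomSet_disjoint (Y : Finset X) (l : X → Lab k j) {a a' : Atom k j} (h : a ≠ a') :
    Disjoint (atomSet Y l a) (atomSet Y l a') := by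
  rw [disjoint_left]
  intro i hi hi'
  unfold atomSet at hi hi'
  rw [mem_filter] at hi hi'
  apply h
  rcases hi.2 with h1 | h1 <;> rcases hi'.2 with h2 | h2 <;>
    exact congrArg Prod.fst (Option.some_injective _ (h1.symm.trans h2))

variable (P : Pat k j)

theorem sval_add (s s' : Cp k j → ZMod p) (ε : Fin k → Bool) :
    sval P (fun κ => s κ + s' κ) ε = sval P s ε + sval P s' ε := by
  unfold sval
  rw [sum_add_distrib, sum_add_distrib]
  ring

theorem sval_mul (u : ZMod p) (s : Cp k j → ZMod p) (ε : Fin k → Bool) :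
    sval P (fun κ => u * s κ) ε = u * sval P s ε := by
  unfold sval
  rw [mul_add, mul_sum, mul_sum]

theorem sval_eq (s : Cp k j → ZMod p) (ε : Fin k → Bool) :
    sval P s ε = ∑ a ∈ P.Sg, s (Sum.inl a) +
      ∑ b, if ε b then s (P.cp b true) else s (P.cp b false) := by
  unfold sval
  refine congrArg _ (sum_congr rfl (fun b _ => ?_))
  cases ε b <;> simp

theorem sval_update_a0 (s : Cp k j → ZMod p) (c : ZMod p) (ε : Fin k → Bool) :
    sval P (Function.update s (Sum.inl P.a0) c) ε =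
      c + sval P (Function.update s (Sum.inl P.a0) 0) ε := by
  have h1 : ∀ c' : ZMod p, ∑ b, Function.update s (Sum.inl P.a0) c' (P.cp b (ε b)) =
      ∑ b, s (P.cp b (ε b)) := fun c' =>
    sum_congr rfl (fun b _ => Function.update_of_ne (P.cp_ne_inl b _ P.a0_mem_Sg) _ _)
  have h2 : ∀ c' : ZMod p, ∑ a ∈ P.Sg, Function.update s (Sum.inl P.a0) c' (Sum.inl a) =
      c' + ∑ a ∈ P.Sg.erase P.a0, s (Sum.inl a) := by
    intro c'
    rw [← add_sum_erase _ _ P.a0_mem_Sg, Function.update_self]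
    refine congrArg _ (sum_congr rfl (fun a ha => Function.update_of_ne ?_ _ _))
    exact fun h => (mem_erase.1 ha).1 (Sum.inl_injective h)
  unfold sval
  rw [h1, h1, h2, h2]
  ring

theorem oval_dot_update (v : Vec p X) (x : Cp k j → Finset X) (κ0 : Cp k j) (A : Finset X) :
    (fun κ => dot v (Function.update x κ0 A κ)) =
      Function.update (fun κ => dot v (x κ)) κ0 (dot v A) := by
  funext κ
  by_cases h : κ = κ0
  · subst h
    rw [Function.update_self, Function.update_self]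
  · rw [Function.update_of_ne h, Function.update_of_ne h]

theorem val_update_a0 (v : Vec p X) (x : Cp k j → Finset X) (A : Finset X) (ε : Fin k → Bool) :
    val P v (Function.update x (Sum.inl P.a0) A) ε =
      dot v A + val P v (Function.update x (Sum.inl P.a0) ∅) ε := by
  unfold val
  rw [oval_dot_update, oval_dot_update, dot_empty, sval_update_a0]

theorem surv_update_a0 (v : Vec p X) (x : Cp k j → Finset X) (A : Finset X) :
    Surv P v (Function.update x (Sum.inl P.a0) A) ↔ Surv P v x := by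
  unfold Surv
  refine forall_congr' (fun b => ?_)
  rw [Function.update_of_ne (P.cp_ne_inl b _ P.a0_mem_Sg),
    Function.update_of_ne (P.cp_ne_inl b _ P.a0_mem_Sg)]

theorem val_eq_dot (Y : Finset X) (l : X → Lab k j) (v : Vec p X) {x : Cp k j → Finset X}
    (hx : ∀ κ, x κ ⊆ cset P Y l κ) (ε : Fin k → Bool) : val P v x ε = dot v (useSet P x ε) := by
  have hd : ∀ κ κ', P.atm κ ≠ P.atm κ' → Disjoint (x κ) (x κ') := fun κ κ' h =>
    (atomSet_disjoint Y l h).mono (hx κ) (hx κ')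
  unfold val sval useSet
  rw [dot_union, dot_biUnion, dot_biUnion]
  · intro b _ b' _ hb
    apply hd
    rw [P.atm_cp, P.atm_cp]
    exact fun h => hb (P.ab_inj h)
  · intro a _ a' _ ha
    exact hd _ _ ha
  · rw [disjoint_biUnion_left]
    intro a ha
    rw [disjoint_biUnion_right]
    intro b _
    apply hd
    rw [P.atm_cp]
    intro h
    have h' : a = P.ab b := h
    exact P.ab_not_mem_Sg b (h' ▸ ha)

theorem oval_mix_ab (x : Cp k j → Finset X) (ε : Fin k → Bool) (b : Fin k) :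
    mix P.ab x ε (P.ab b) = x (P.cp b (ε b)) := by
  unfold mix
  by_cases h : ∃ b', P.ab b' = P.ab b ∧ ε b' = true
  · rw [dif_pos h]
    have h1 := h.choose_spec
    have h2 : h.choose = b := P.ab_inj h1.1
    have h3 : ε b = true := h2 ▸ h1.2
    rw [h2, h3]
    rfl
  · rw [dif_neg h]
    have h3 : ε b = false := by
      by_contra h4
      exact h ⟨b, rfl, by simpa using h4⟩
    rw [h3]
    rfl

theorem oval_mix_Sg (x : Cp k j → Finset X) (ε : Fin k → Bool) {a : Atom k j} (ha : a ∈ P.Sg) :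
    mix P.ab x ε a = x (Sum.inl a) := by
  unfold mix
  rw [dif_neg]
  rintro ⟨b, hb, -⟩
  exact P.ab_not_mem_Sg b (hb ▸ ha)

theorem biUnion_mix (x : Cp k j → Finset X) (ε : Fin k → Bool) :
    P.g.biUnion (mix P.ab x ε) = useSet P x ε := by
  ext i
  unfold useSet
  rw [mem_union, mem_biUnion, mem_biUnion, mem_biUnion]
  constructor
  · rintro ⟨a, ha, hi⟩
    by_cases h : ∃ b, a = P.ab b
    · obtain ⟨b, rfl⟩ := h
      rw [oval_mix_ab] at hi
      exact Or.inr ⟨b, mem_univ _, hi⟩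
    · have hS : a ∈ P.Sg := by
        unfold Pat.Sg
        rw [mem_filter]
        exact ⟨ha, fun b hb => h ⟨b, hb⟩⟩
      rw [oval_mix_Sg P x ε hS] at hi
      exact Or.inl ⟨a, hS, hi⟩
  · rintro (⟨a, ha, hi⟩ | ⟨b, -, hi⟩)
    · refine ⟨a, filter_subset _ _ ha, ?_⟩
      rw [oval_mix_Sg P x ε ha]
      exact hi
    · refine ⟨P.ab b, P.mem b.succ, ?_⟩
      rw [oval_mix_ab]
      exact hi

/-- a term with equal values on the two copies of a batch is killed. -/
theorem sum_sgn_sval {V : Type} [AddCommGroup V] (w : ZMod p → V) (s : Cp k j → ZMod p)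
    {b : Fin k} (h : s (P.cp b false) = s (P.cp b true)) (y : ZMod p) :
    ∑ ε : Fin k → Bool, sgn ε • w (y + sval P s ε) = 0 := by
  have := pd_zero w (fun b => s (P.cp b false)) (fun b => s (P.cp b true)) h
    (y + ∑ a ∈ P.Sg, s (Sum.inl a))
  simpa only [sval_eq, add_assoc] using this

theorem sum_sgn_sval_ne {V : Type} [AddCommGroup V] (hV : NoP p V) {w : ZMod p → V} (hw : SZ w)
    (h0 : w ≠ 0) (s : Cp k j → ZMod p) (h : ∀ b, s (P.cp b false) ≠ s (P.cp b true)) :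
    ∃ y, ∑ ε : Fin k → Bool, sgn ε • w (y + sval P s ε) ≠ 0 := by
  obtain ⟨u, hu⟩ := pd_ne hV hw h0 (fun b => s (P.cp b false)) (fun b => s (P.cp b true)) h
  refine ⟨u - ∑ a ∈ P.Sg, s (Sum.inl a), ?_⟩
  simpa only [sval_eq, ← add_assoc, sub_add_cancel] using hu

end Pool.Agent.P.MP_85fe51_lc.OD
end

-- part Pool.Agent.P.MP_85fe51_lc.OSurv0
section

set_option autoImplicit false

namespace Pool.Agent.P.MP_85fe51_lc.OD

open Finset
open scoped Classical

variable {p : ℕ} [Fact p.Prime] {X : Type} [Fintype X] [DecidableEq X] {T : Type} [Fintype T]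

theorem osurv_dom {Ω Ω' : Type} [DecidableEq Ω'] (s : Finset Ω) (S : Finset Ω') (Φ : Ω → Ω')
    (hΦ : ∀ x ∈ s, Φ x ∈ S) {c : ℝ}
    (hc : ∀ ω ∈ S, ((s.filter (fun x => Φ x = ω)).card : ℝ) * S.card ≤ c * s.card)
    (hs : s.Nonempty) (G : Ω' → ℝ) (hG : ∀ ω ∈ S, 0 ≤ G ω) :
    s.expect (fun x => G (Φ x)) ≤ c * S.expect G := by
  have hS : S.Nonempty := by
    obtain ⟨x, hx⟩ := hs
    exact ⟨Φ x, hΦ x hx⟩
  have h1 : (0 : ℝ) < s.card := by exact_mod_cast hs.card_pos
  have h2 : (0 : ℝ) < S.card := by exact_mod_cast hS.card_pos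
  rw [Finset.expect_eq_sum_div_card, Finset.expect_eq_sum_div_card,
    ← Finset.sum_fiberwise_of_maps_to hΦ, ← mul_div_assoc, div_le_div_iff₀ h1 h2,
    Finset.sum_mul, Finset.mul_sum, Finset.sum_mul]
  refine Finset.sum_le_sum (fun ω hω => ?_)
  have h3 : ∑ x ∈ s.filter (fun x => Φ x = ω), G (Φ x) =
      ((s.filter (fun x => Φ x = ω)).card : ℝ) * G ω := by
    rw [Finset.sum_congr rfl (g := fun _ => G ω)
      (fun x hx => by rw [(Finset.mem_filter.1 hx).2]), Finset.sum_const, nsmul_eq_mul]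
  rw [h3]
  have h4 := mul_le_mul_of_nonneg_right (hc ω hω) (hG ω hω)
  nlinarith [h4]

theorem osurv_coll {Ω : Type} (s : Finset Ω) (hs : s.Nonempty) (f : Ω → ZMod p) :
    s.expect (fun x => s.expect (fun y => if f x ≠ f y then (1 : ℝ) else 0)) ≤ 1 - 1 / (p : ℝ) := by
  have hp : (0 : ℝ) < p := by exact_mod_cast (Fact.out : p.Prime).pos
  have h1 : (0 : ℝ) < s.card := by exact_mod_cast hs.card_pos
  set n : ZMod p → ℝ := fun c => ((s.filter (fun y => f y = c)).card : ℝ) with hn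
  have hsum : ∑ c, n c = s.card := by
    have := Finset.card_eq_sum_card_fiberwise (s := s) (t := (univ : Finset (ZMod p))) (f := f)
      (fun x _ => Finset.mem_coe.2 (Finset.mem_univ _))
    rw [this]
    push_cast
    rfl
  have hin : ∀ x, s.expect (fun y => if f x ≠ f y then (1 : ℝ) else 0) = 1 - n (f x) / s.card := by
    intro x
    rw [Finset.expect_eq_sum_div_card, eq_sub_iff_add_eq, ← add_div, div_eq_one_iff_eq h1.ne']
    have h2 : n (f x) = ∑ y ∈ s, if f y = f x then (1 : ℝ) else 0 := by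
      rw [Finset.sum_boole]
    rw [h2, ← Finset.sum_add_distrib]
    rw [Finset.sum_congr rfl (g := fun _ => (1 : ℝ)) (fun y _ => by
      by_cases h : f y = f x
      · simp [h]
      · have h' : f x ≠ f y := fun e => h e.symm
        simp [h, h'])]
    simp
  have hsq : ∑ x ∈ s, n (f x) = ∑ c, n c ^ 2 := by
    rw [← Finset.sum_fiberwise_of_maps_to (s := s) (t := (univ : Finset (ZMod p))) (g := f)
      (fun x _ => Finset.mem_univ _)]
    refine Finset.sum_congr rfl (fun c _ => ?_)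
    rw [Finset.sum_congr rfl (g := fun _ => n c)
      (fun x hx => by rw [(Finset.mem_filter.1 hx).2]), Finset.sum_const, nsmul_eq_mul, sq]
  have hcs := sq_sum_le_card_mul_sum_sq (s := (univ : Finset (ZMod p))) (f := n)
  rw [hsum, Finset.card_univ, ZMod.card, ← hsq] at hcs
  simp only [hin]
  rw [Finset.expect_eq_sum_div_card, Finset.sum_sub_distrib, Finset.sum_const, nsmul_eq_mul,
    mul_one, sub_div, div_self h1.ne', ← Finset.sum_div, div_div]
  have h3 : 1 / (p : ℝ) ≤ (∑ x ∈ s, n (f x)) / ((s.card : ℝ) * s.card) := by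
    rw [div_le_div_iff₀ hp (mul_pos h1 h1)]
    nlinarith [hcs]
  linarith

theorem osurv_unif {ι : Type} [Fintype ι] [DecidableEq ι] (s : ι → ZMod p) :
    (univ : Finset (ι → ZMod p)).expect
      (fun s' => if ∀ t, s t ≠ s' t then (1 : ℝ) else 0) = (1 - 1 / (p : ℝ)) ^ Fintype.card ι := by
  have hp : (0 : ℝ) < p := by exact_mod_cast (Fact.out : p.Prime).pos
  have hp1 : 1 ≤ p := (Fact.out : p.Prime).pos
  rw [Finset.expect_eq_sum_div_card, Finset.sum_boole]
  have h1 : (univ : Finset (ι → ZMod p)).filter (fun s' => ∀ t, s t ≠ s' t) =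
      Fintype.piFinset (fun t => (univ : Finset (ZMod p)).erase (s t)) := by
    ext s'
    simp only [Finset.mem_filter, Finset.mem_univ, true_and, Fintype.mem_piFinset,
      Finset.mem_erase, and_true]
    exact forall_congr' (fun t => ne_comm)
  rw [h1, Fintype.card_piFinset]
  simp only [Finset.card_erase_of_mem (Finset.mem_univ _), Finset.card_univ, ZMod.card,
    Finset.prod_const, Fintype.card_fun]
  push_cast [hp1]
  rw [← div_pow]
  congr 1
  field_simp

omit [Fintype T] in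
theorem osurv_light (b : Finset X) (I : Finset T) (d : T → Vec p X)
    (hd : ∀ t ∈ I, ∀ t' ∈ I, t ≠ t' → Disjoint (supp (d t)) (supp (d t'))) :
    b.powerset.expect (fun Z => b.powerset.expect
      (fun Z' => ∏ t ∈ I, if dot (d t) Z ≠ dot (d t) Z' then (1 : ℝ) else 0)) ≤
      (1 - 1 / (p : ℝ)) ^ I.card := by
  have hi : ∀ t (A : Finset X), dot (d t) (A ∩ supp (d t)) = dot (d t) A :=
    fun t A => dot_inter Finset.inter_subset_left
  have h1 : ∀ Z : Finset X, b.powerset.expect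
      (fun Z' => ∏ t ∈ I, if dot (d t) Z ≠ dot (d t) Z' then (1 : ℝ) else 0) =
      ∏ t ∈ I, b.powerset.expect
        (fun Z' => if dot (d t) Z ≠ dot (d t) Z' then (1 : ℝ) else 0) := fun Z =>
    expect_powerset_prod b I (fun t => supp (d t)) hd
      (fun t Z' => if dot (d t) Z ≠ dot (d t) Z' then (1 : ℝ) else 0)
      (fun t _ A _ => by simp only [hi])
  simp only [h1]
  rw [expect_powerset_prod b I (fun t => supp (d t)) hd
    (fun t Z => b.powerset.expect (fun Z' => if dot (d t) Z ≠ dot (d t) Z' then (1 : ℝ) else 0))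
    (fun t _ A _ => by simp only [hi]), ← Finset.prod_const]
  refine Finset.prod_le_prod (fun t _ => ?_)
    (fun t _ => osurv_coll b.powerset (Finset.powerset_nonempty b) (fun Z => dot (d t) Z))
  exact Finset.expect_nonneg (fun Z _ => Finset.expect_nonneg (fun Z' _ => by
    split_ifs <;> norm_num))

theorem osurv_dot_co {J A B : Finset X} (h : A ∩ J = B ∩ J) {η : Vec p X}
    (hη : η ∈ (co J : Sub p X)) : dot η A = dot η B := by
  have hs : supp η ⊆ J := mem_co_iff.1 hη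
  rw [← dot_inter (Q := J) (A := A) (Finset.inter_subset_left.trans hs),
    ← dot_inter (Q := J) (A := B) (Finset.inter_subset_left.trans hs), h]

namespace Ext
variable (σ : Ext p X T)

theorem osurv_light_dot {A : Finset X} (hA : KerP σ.U A) (t : T) :
    dot (σ.lam t) A = dot (σ.dl t) A := by
  have h := hA _ (σ.repl t).1
  rw [dot_sub] at h
  exact sub_eq_zero.1 h

theorem osurv_dl_co {F : Finset T} {t : T} (ht : t ∈ F) (hl : σ.Lt t) :
    σ.dl t ∈ (co (σ.JF F) : Sub p X) := by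
  refine mem_co_iff.2 (fun i hi => ?_)
  exact Finset.mem_union_right _
    (Finset.mem_biUnion.2 ⟨t, Finset.mem_filter.2 ⟨ht, hl⟩, hi⟩)

theorem osurv_mem_fib {a A B : Finset X} {F : Finset T} (hA : A ∈ Ker σ.U a) (hB : B ∈ Ker σ.U a)
    (hJ : A ∩ σ.JF F = B ∩ σ.JF F)
    (hN : ∀ t ∈ F, ¬ σ.Lt t → dot (σ.lam t) A = dot (σ.lam t) B) :
    A ∈ fib ((σ.U ⊔ spn σ.lam F) ⊔ co (σ.JF F)) a B := by
  obtain ⟨hAa, hA⟩ := mem_Ker.1 hA
  obtain ⟨-, hB⟩ := mem_Ker.1 hB
  refine mem_fib.2 ⟨hAa, ?_⟩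
  let E : Sub p X :=
    { carrier := {η | dot η A = dot η B}
      add_mem' := by
        intro x y hx hy
        show dot (x + y) A = dot (x + y) B
        rw [dot_add, dot_add, hx, hy]
      zero_mem' := by
        show dot (0 : Vec p X) A = dot (0 : Vec p X) B
        rw [dot_zero, dot_zero]
      smul_mem' := by
        intro c x hx
        show dot (c • x) A = dot (c • x) B
        rw [dot_smul, dot_smul, hx] }
  have hle : (σ.U ⊔ spn σ.lam F) ⊔ co (σ.JF F) ≤ E := by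
    refine sup_le (sup_le (fun η hη => ?_) (spn_le (fun t ht => ?_))) (fun η hη => ?_)
    · show dot η A = dot η B
      rw [hA η hη, hB η hη]
    · show dot (σ.lam t) A = dot (σ.lam t) B
      by_cases hl : σ.Lt t
      · rw [σ.osurv_light_dot hA, σ.osurv_light_dot hB]
        exact osurv_dot_co hJ (σ.osurv_dl_co ht hl)
      · exact hN t ht hl
    · exact osurv_dot_co hJ hη
  exact fun η hη => hle hη

theorem osurv_card_fib {θ : ℝ} (hθ : ThC p θ) {a B : Finset X} (hB : B ⊆ a) {F : Finset T}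
    (hF : σ.Free F) :
    (p : ℝ) ^ (dO σ.U σ.Yᶜ + (F.filter (fun t => ¬ σ.Lt t)).card) *
      (fib ((σ.U ⊔ spn σ.lam F) ⊔ co (σ.JF F)) a B).card ≤
      enum θ (σ.HF F) a * 2 ^ (a \ σ.JF F).card := by
  rw [card_fib_off le_sup_right hB, map_off_sup_co, ← (σ.free_struct hF).2.2]
  have h := card_fib_le hθ ((σ.U ⊔ spn σ.lam F).map (off (σ.JF F))) (a \ σ.JF F) (B \ σ.JF F)
  rw [enum_sdiff] at h
  exact h

end Ext

end Pool.Agent.P.MP_85fe51_lc.OD
end

-- part Pool.Agent.P.MP_85fe51_lc.OSurv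
section

set_option autoImplicit false

namespace Pool.Agent.P.MP_85fe51_lc.OD

open Finset
open scoped Classical

variable {p : ℕ} [Fact p.Prime] {X : Type} [Fintype X] [DecidableEq X] {T : Type} [Fintype T]
  {k j : ℕ}

namespace Ext
variable (σ : Ext p X T)

/-- two independent kernel sets differ on all members of a free family. -/
theorem differ_le {θ ε : ℝ} (hθ : ThC p θ) (hε : ε ≤ 1 / 2) {a : Finset X} (ha : a ⊆ σ.Y)
    (h1 : enum θ σ.U' a ≤ 1 + ε) {F : Finset T} (hF : σ.Free F) :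
    (Ker σ.U a).expect (fun A => pr (Ker σ.U a)
      (fun A' => ∀ t ∈ F, dot (σ.lam t) A ≠ dot (σ.lam t) A')) ≤
      (enum θ (σ.HF F) a / (1 - ε)) ^ 2 * (1 - 1 / (p : ℝ)) ^ F.card := by
  have hp : (0 : ℝ) < p := by exact_mod_cast (Fact.out : p.Prime).pos
  have hp1 : (0 : ℝ) ≤ 1 - 1 / (p : ℝ) := by
    have : (1 : ℝ) ≤ p := by exact_mod_cast (Fact.out : p.Prime).pos
    rw [sub_nonneg, div_le_one hp]
    exact this
  have hε1 : (0 : ℝ) < 1 - ε := by linarith
  set N : Finset T := F.filter (fun t => ¬ σ.Lt t) with hN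
  set I : Finset T := F.filter σ.Lt with hI
  set J : Finset X := σ.JF F with hJ
  set c : ℝ := enum θ (σ.HF F) a / (1 - ε) with hc
  have hc0 : 0 ≤ c := div_nonneg (le_trans zero_le_one (one_le_enum hθ.1 _ _)) hε1.le
  set S : Finset (Finset X × (↥N → ZMod p)) := (a ∩ J).powerset ×ˢ univ with hS
  set Φ : Finset X → Finset X × (↥N → ZMod p) :=
    fun A => (A ∩ J, fun t => dot (σ.lam t.1) A) with hΦ
  have hK : (Ker σ.U a).Nonempty := ⟨∅, empty_mem_Ker _ _⟩
  have hmap : ∀ A ∈ Ker σ.U a, Φ A ∈ S := by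
    intro A hA
    refine Finset.mem_product.2 ⟨Finset.mem_powerset.2 ?_, Finset.mem_univ _⟩
    exact Finset.inter_subset_inter_right (mem_Ker.1 hA).1
  have hScard : (S.card : ℝ) = 2 ^ (a ∩ J).card * (p : ℝ) ^ N.card := by
    rw [hS, Finset.card_product, Finset.card_powerset, Finset.card_univ, Fintype.card_fun,
      ZMod.card, Fintype.card_coe]
    push_cast
    rfl
  have hKer : (1 - ε) * 2 ^ a.card ≤ (p : ℝ) ^ dO σ.U σ.Yᶜ * (Ker σ.U a).card := by
    refine le_trans (mul_le_mul_of_nonneg_right ?_ (by positivity)) (card_Ker_ge hθ σ.hY ha)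
    have : enum θ (σ.U.map (off σ.Yᶜ)) a ≤ 1 + ε := h1
    linarith
  have hfib : ∀ ω ∈ S, (((Ker σ.U a).filter (fun x => Φ x = ω)).card : ℝ) * S.card ≤
      c * (Ker σ.U a).card := by
    intro ω _
    rcases ((Ker σ.U a).filter (fun x => Φ x = ω)).eq_empty_or_nonempty with h0 | ⟨B, hB⟩
    · rw [h0]
      simp only [Finset.card_empty, Nat.cast_zero, zero_mul]
      positivity
    · obtain ⟨hBK, hBω⟩ := Finset.mem_filter.1 hB
      have hsub : (Ker σ.U a).filter (fun x => Φ x = ω) ⊆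
          fib ((σ.U ⊔ spn σ.lam F) ⊔ co (σ.JF F)) a B := by
        intro A hA
        obtain ⟨hAK, hAω⟩ := Finset.mem_filter.1 hA
        have he : Φ A = Φ B := hAω.trans hBω.symm
        refine σ.osurv_mem_fib hAK hBK (congrArg Prod.fst he) (fun t ht hl => ?_)
        exact congrFun (congrArg Prod.snd he) ⟨t, Finset.mem_filter.2 ⟨ht, hl⟩⟩
      have h2 : (((Ker σ.U a).filter (fun x => Φ x = ω)).card : ℝ) ≤
          (fib ((σ.U ⊔ spn σ.lam F) ⊔ co (σ.JF F)) a B).card := by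
        exact_mod_cast Finset.card_le_card hsub
      have h3 := σ.osurv_card_fib hθ (mem_Ker.1 hBK).1 hF
      rw [← hN, ← hJ, pow_add] at h3
      rw [← hJ] at h2
      have h4 : (2 : ℝ) ^ a.card = 2 ^ (a \ J).card * 2 ^ (a ∩ J).card := by
        rw [← pow_add, Finset.card_sdiff_add_card_inter]
      have hD : (0 : ℝ) < (p : ℝ) ^ dO σ.U σ.Yᶜ := by positivity
      have hce : enum θ (σ.HF F) a = c * (1 - ε) := by
        rw [hc, div_mul_cancel₀ _ hε1.ne']
      refine le_of_mul_le_mul_left ?_ hD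
      rw [hScard]
      calc (p : ℝ) ^ dO σ.U σ.Yᶜ * ((((Ker σ.U a).filter (fun x => Φ x = ω)).card : ℝ) *
            (2 ^ (a ∩ J).card * (p : ℝ) ^ N.card))
          ≤ (p : ℝ) ^ dO σ.U σ.Yᶜ * (((fib ((σ.U ⊔ spn σ.lam F) ⊔ co J) a B).card : ℝ) *
            (2 ^ (a ∩ J).card * (p : ℝ) ^ N.card)) := by gcongr
        _ = ((p : ℝ) ^ dO σ.U σ.Yᶜ * (p : ℝ) ^ N.card *
            ((fib ((σ.U ⊔ spn σ.lam F) ⊔ co J) a B).card : ℝ)) * 2 ^ (a ∩ J).card := by ring
        _ ≤ (enum θ (σ.HF F) a * 2 ^ (a \ J).card) * 2 ^ (a ∩ J).card := by gcongr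
        _ = c * ((1 - ε) * 2 ^ a.card) := by rw [hce, h4]; ring
        _ ≤ c * ((p : ℝ) ^ dO σ.U σ.Yᶜ * (Ker σ.U a).card) := by gcongr
        _ = _ := by ring
  set G : Finset X × (↥N → ZMod p) → Finset X × (↥N → ZMod p) → ℝ := fun ω ω' =>
    (∏ t ∈ I, if dot (σ.dl t) ω.1 ≠ dot (σ.dl t) ω'.1 then (1 : ℝ) else 0) *
      (if ∀ t, ω.2 t ≠ ω'.2 t then (1 : ℝ) else 0) with hG
  have hG0 : ∀ ω ω', 0 ≤ G ω ω' := by
    intro ω ω'
    refine mul_nonneg (Finset.prod_nonneg (fun t _ => ?_)) ?_ <;> split_ifs <;> norm_num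
  have hstep : ∀ A ∈ Ker σ.U a, pr (Ker σ.U a)
      (fun A' => ∀ t ∈ F, dot (σ.lam t) A ≠ dot (σ.lam t) A') ≤ c * S.expect (G (Φ A)) := by
    intro A hA
    refine le_trans ?_ (osurv_dom (Ker σ.U a) S Φ hmap hfib hK (G (Φ A)) (fun ω _ => hG0 _ _))
    refine Finset.expect_le_expect (fun A' hA' => ?_)
    split_ifs with h
    · have hl : ∀ t ∈ I, ∀ B ∈ Ker σ.U a, dot (σ.dl t) (B ∩ J) = dot (σ.lam t) B := by
        intro t ht B hB
        obtain ⟨htF, htl⟩ := Finset.mem_filter.1 ht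
        rw [σ.osurv_light_dot (mem_Ker.1 hB).2]
        exact dot_inter (Finset.inter_subset_left.trans (mem_co_iff.1 (σ.osurv_dl_co htF htl)))
      have e1 : (∏ t ∈ I, if dot (σ.dl t) (A ∩ J) ≠ dot (σ.dl t) (A' ∩ J) then (1 : ℝ) else 0)
          = 1 := by
        refine Finset.prod_eq_one (fun t ht => if_pos ?_)
        rw [hl t ht A hA, hl t ht A' hA']
        exact h t (Finset.mem_filter.1 ht).1
      have e2 : ∀ t : ↥N, dot (σ.lam t.1) A ≠ dot (σ.lam t.1) A' :=
        fun t => h t.1 (Finset.mem_filter.1 t.2).1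
      show (1 : ℝ) ≤ (∏ t ∈ I, if dot (σ.dl t) (A ∩ J) ≠ dot (σ.dl t) (A' ∩ J) then (1 : ℝ) else 0) *
        (if ∀ t : ↥N, dot (σ.lam t.1) A ≠ dot (σ.lam t.1) A' then (1 : ℝ) else 0)
      rw [e1, if_pos e2, one_mul]
    · exact hG0 _ _
  have hin : ∀ ω : Finset X × (↥N → ZMod p), S.expect (G ω) =
      (a ∩ J).powerset.expect (fun Z' =>
        ∏ t ∈ I, if dot (σ.dl t) ω.1 ≠ dot (σ.dl t) Z' then (1 : ℝ) else 0) *
        (1 - 1 / (p : ℝ)) ^ N.card := by
    intro ω
    rw [hS, Finset.expect_product, Finset.expect_mul]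
    refine Finset.expect_congr rfl (fun Z' _ => ?_)
    have h5 := osurv_unif (p := p) ω.2
    rw [Fintype.card_coe] at h5
    rw [← h5, Finset.mul_expect]
  have hout : S.expect (fun ω => S.expect (G ω)) ≤ (1 - 1 / (p : ℝ)) ^ F.card := by
    simp only [hin]
    rw [← Finset.expect_mul, hS, Finset.expect_product]
    have h6 : ∀ Z : Finset X, (univ : Finset (↥N → ZMod p)).expect (fun _ =>
        (a ∩ J).powerset.expect (fun Z' =>
          ∏ t ∈ I, if dot (σ.dl t) Z ≠ dot (σ.dl t) Z' then (1 : ℝ) else 0)) =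
        (a ∩ J).powerset.expect (fun Z' =>
          ∏ t ∈ I, if dot (σ.dl t) Z ≠ dot (σ.dl t) Z' then (1 : ℝ) else 0) :=
      fun Z => Finset.expect_const Finset.univ_nonempty _
    simp only [h6]
    have h7 := osurv_light (a ∩ J) I σ.dl (fun t ht t' ht' hne =>
      (σ.free_struct hF).1 t (Finset.mem_filter.1 ht).1 t' (Finset.mem_filter.1 ht').1
        (Finset.mem_filter.1 ht).2 (Finset.mem_filter.1 ht').2 hne)
    rw [← Finset.card_filter_add_card_filter_not (s := F) σ.Lt, pow_add]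
    exact mul_le_mul_of_nonneg_right h7 (pow_nonneg hp1 _)
  calc _ ≤ (Ker σ.U a).expect (fun A => c * S.expect (G (Φ A))) := Finset.expect_le_expect hstep
    _ = c * (Ker σ.U a).expect (fun A => S.expect (G (Φ A))) := by rw [Finset.mul_expect]
    _ ≤ c * (c * S.expect (fun ω => S.expect (G ω))) :=
      mul_le_mul_of_nonneg_left (osurv_dom (Ker σ.U a) S Φ hmap hfib hK
        (fun ω => S.expect (G ω)) (fun ω _ => Finset.expect_nonneg (fun ω' _ => hG0 _ _))) hc0
    _ ≤ c * (c * (1 - 1 / (p : ℝ)) ^ F.card) := by gcongr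
    _ = _ := by ring

theorem surv_le (P : Pat k j) {θ ε : ℝ} (hθ : ThC p θ) (hε0 : 0 ≤ ε) (hε : ε ≤ 1 / 2)
    (hεk : 8 * k * ε ≤ 1) (l : X → Lab k j) (h1 : ∀ a, enum θ σ.U' (subSet σ.Y l a) ≤ 1 + ε)
    (h4 : ∀ F : Finset T, σ.Free F → F.Nonempty → ∀ b,
      enum θ (σ.HF F) (atomSet σ.Y l (P.ab b)) ^ (4 * k) ≤ 2 ^ F.card)
    {F : Finset T} (hF : σ.Free F) :
    pr (σ.Om P l) (fun x => F ⊆ Rs P σ.lam x) ≤ (2 * piK p k) ^ F.card := by
  rcases F.eq_empty_or_nonempty with rfl | hne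
  · simpa using pr_le_one (σ.Om P l) (fun x => (∅ : Finset T) ⊆ Rs P σ.lam x)
  have hε1 : (0 : ℝ) < 1 - ε := by linarith
  have hp : (0 : ℝ) < p := by exact_mod_cast (Fact.out : p.Prime).pos
  have hp1 : (0 : ℝ) ≤ 1 - 1 / (p : ℝ) := by
    have : (1 : ℝ) ≤ p := by exact_mod_cast (Fact.out : p.Prime).pos
    rw [sub_nonneg, div_le_one hp]
    exact this
  set G : Fin k → Finset X → Finset X → ℝ := fun _ A A' =>
    @ite ℝ (∀ t ∈ F, dot (σ.lam t) A ≠ dot (σ.lam t) A') (Classical.propDecidable _) 1 0 with hG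
  have e1 : pr (σ.Om P l) (fun x => F ⊆ Rs P σ.lam x) =
      (σ.Om P l).expect (fun x => ∏ b, G b (x (P.cp b false)) (x (P.cp b true))) := by
    refine Finset.expect_congr rfl (fun x _ => ?_)
    by_cases h : F ⊆ Rs P σ.lam x
    · rw [if_pos h]
      refine (Finset.prod_eq_one (fun b _ => if_pos (fun t ht => ?_))).symm
      exact (Finset.mem_filter.1 (h ht)).2 b
    · rw [if_neg h]
      obtain ⟨t, ht, hn⟩ := Finset.not_subset.1 h
      have hn' : ¬ Surv P (σ.lam t) x := fun hs => hn (Finset.mem_filter.2 ⟨Finset.mem_univ _, hs⟩)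
      obtain ⟨b, hb⟩ := not_forall.1 hn'
      exact (Finset.prod_eq_zero (Finset.mem_univ b) (if_neg (fun hh => hb (hh t ht)))).symm
  have e2 := expect_prod_pairs (fun κ => Ker σ.U (cset P σ.Y l κ))
    (fun κ => ⟨∅, empty_mem_Ker _ _⟩) (fun b => P.cp b false) (fun b => P.cp b true)
    (fun b b' h => (P.cp_inj h).1) (fun b b' h => (P.cp_inj h).1)
    (fun b b' h => Bool.false_ne_true (P.cp_inj h).2) G
  set y : Fin k → ℝ := fun b => (enum θ (σ.HF F) (atomSet σ.Y l (P.ab b)) / (1 - ε)) ^ 2 with hy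
  have e3 : ∀ b, (Ker σ.U (cset P σ.Y l (P.cp b false))).expect
      (fun A => (Ker σ.U (cset P σ.Y l (P.cp b true))).expect (fun A' => G b A A')) ≤
      y b * (1 - 1 / (p : ℝ)) ^ F.card := by
    intro b
    have hc : ∀ e, cset P σ.Y l (P.cp b e) = atomSet σ.Y l (P.ab b) := fun e => by
      rw [cset, P.atm_cp]
    rw [hc, hc]
    exact σ.differ_le hθ hε (atomSet_subset σ.Y l (P.ab b))
      (le_trans (enum_anti hθ.1 hθ.2.1.le _ (subSet_subset _ _ _)) (h1 _)) hF
  have hy0 : ∀ b, 0 ≤ y b := fun b => sq_nonneg _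
  have e4 : ∏ b, y b ≤ 2 ^ F.card := by
    rcases Nat.eq_zero_or_pos k with rfl | hk
    · simpa using one_le_pow₀ (n := F.card) (by norm_num : (1 : ℝ) ≤ 2)
    have hb : (1 : ℝ) / 2 ≤ (1 - ε) ^ (4 * k) := by
      have h2 := one_add_mul_le_pow (a := -ε) (by linarith) (4 * k)
      push_cast at h2
      rw [← sub_eq_add_neg] at h2
      linarith
    have h5 : ∀ b, y b ^ (2 * k) ≤ (2 ^ F.card) ^ 2 := by
      intro b
      have h6 : y b ^ (2 * k) =
          enum θ (σ.HF F) (atomSet σ.Y l (P.ab b)) ^ (4 * k) / (1 - ε) ^ (4 * k) := by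
        rw [hy, ← div_pow, ← pow_mul]
        congr 1
        ring
      have h7 : (2 : ℝ) ≤ 2 ^ F.card := by
        calc (2 : ℝ) = 2 ^ 1 := by norm_num
          _ ≤ 2 ^ F.card := pow_le_pow_right₀ (by norm_num) hne.card_pos
      rw [h6, div_le_iff₀ (by positivity)]
      have h8 := h4 F hF hne b
      have h9 : (0 : ℝ) < 2 ^ F.card := by positivity
      calc _ ≤ (2 : ℝ) ^ F.card := h8
        _ ≤ (2 ^ F.card) ^ 2 * (1 / 2) := by nlinarith
        _ ≤ _ := by gcongr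
    refine le_of_pow_le_pow_left₀ (n := 2 * k) (by omega) (by positivity) ?_
    rw [← Finset.prod_pow, pow_mul]
    calc ∏ b, y b ^ (2 * k) ≤ ∏ _b : Fin k, ((2 : ℝ) ^ F.card) ^ 2 :=
          Finset.prod_le_prod (fun b _ => pow_nonneg (hy0 b) _) (fun b _ => h5 b)
      _ = _ := by simp
  rw [e1]
  refine le_trans (le_of_eq e2) ?_
  calc _ ≤ ∏ b, y b * (1 - 1 / (p : ℝ)) ^ F.card :=
        Finset.prod_le_prod (fun b _ => Finset.expect_nonneg (fun A _ =>
          Finset.expect_nonneg (fun A' _ => by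
            simp only [hG]
            split_ifs <;> norm_num))) (fun b _ => e3 b)
    _ = (∏ b, y b) * piK p k ^ F.card := by
        rw [Finset.prod_mul_distrib, Finset.prod_const, Finset.card_univ, Fintype.card_fin, piK,
          ← pow_mul, ← pow_mul, mul_comm k]
    _ ≤ 2 ^ F.card * piK p k ^ F.card :=
        mul_le_mul_of_nonneg_right e4 (pow_nonneg (piK_pos k).le _)
    _ = _ := by rw [mul_pow]

end Ext

end Pool.Agent.P.MP_85fe51_lc.OD
end

-- part Pool.Agent.P.MP_85fe51_lc.OSel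
section

set_option autoImplicit false

namespace Pool.Agent.P.MP_85fe51_lc.OD

open Finset
open scoped Classical

variable {p : ℕ} [Fact p.Prime] {X : Type} [Fintype X] [DecidableEq X] {T : Type} [Fintype T]

theorem osel_Ex_sum {α ι : Type} (ρ : ℝ) (Y : Finset α) (I : Finset ι) (f : ι → Finset α → ℝ) :
    DA.Ex ρ Y (fun W => ∑ i ∈ I, f i W) = ∑ i ∈ I, DA.Ex ρ Y (f i) := by
  simp only [DA.Ex, mul_sum]
  exact sum_comm

theorem osel_erase {α : Type} {ρ : ℝ} (h0 : 0 ≤ ρ) (h1 : ρ ≤ 1) {Y : Finset α} {e : α}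
    (he : e ∈ Y) (Q : Finset α → Prop) (hQ : ∀ W, Q W → Q (insert e W)) :
    DA.Ex ρ Y (fun W => if e ∈ W ∧ Q (W.erase e) then (1 : ℝ) else 0) ≤
      ρ * DA.Ex ρ Y (fun W => if Q W then (1 : ℝ) else 0) := by
  obtain ⟨Z, hZ, rfl⟩ : ∃ Z, e ∉ Z ∧ Y = insert e Z :=
    ⟨Y.erase e, notMem_erase e Y, (insert_erase he).symm⟩
  rw [DA.dex_insert ρ hZ, DA.dex_insert ρ hZ]
  have a1 : DA.Ex ρ Z (fun W => if e ∈ W ∧ Q (W.erase e) then (1 : ℝ) else 0) ≤
      DA.Ex ρ Z (fun _ => 0) := by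
    refine DA.Ex_mono h0 h1 Z fun W hW => ?_
    rw [if_neg fun h => hZ (hW h.1)]
  have a2 : DA.Ex ρ Z (fun W => if e ∈ insert e W ∧ Q ((insert e W).erase e) then (1 : ℝ) else 0) ≤
      DA.Ex ρ Z (fun W => if Q W then (1 : ℝ) else 0) := by
    refine DA.Ex_mono h0 h1 Z fun W hW => ?_
    rw [erase_insert fun h => hZ (hW h)]
    by_cases h : Q W
    · rw [if_pos h, if_pos ⟨mem_insert_self _ _, h⟩]
    · rw [if_neg h, if_neg fun h' => h h'.2]
  have a3 : DA.Ex ρ Z (fun W => if Q W then (1 : ℝ) else 0) ≤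
      DA.Ex ρ Z (fun W => if Q (insert e W) then (1 : ℝ) else 0) := by
    refine DA.Ex_mono h0 h1 Z fun W _ => ?_
    by_cases h : Q W
    · rw [if_pos h, if_pos (hQ W h)]
    · rw [if_neg h]
      split_ifs <;> norm_num
  rw [DA.Ex_const] at a1
  have b1 := mul_le_mul_of_nonneg_left a1 (sub_nonneg.2 h1)
  have b2 := mul_le_mul_of_nonneg_left a2 h0
  have b3 := mul_le_mul_of_nonneg_left a3 (mul_nonneg h0 h0)
  nlinarith

namespace Ext
variable (σ : Ext p X T)

theorem osel_moved_card (Ch : Finset T) (hC : ∀ e ∈ Ch, σ.Heavy e) {W : Finset T} (hW : W ⊆ Ch) :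
    (Ch.filter (fun e => σ.Moved (W.biUnion σ.Mid) e)).card ≤ σ.K * σ.M4 * W.card := by
  have h1 : (W.biUnion σ.Mid).card ≤ W.card * σ.M4 :=
    card_biUnion_le_card_mul W σ.Mid σ.M4 fun e he => σ.mid e (hC e (hW he))
  have h2 := σ.e3 (W.biUnion σ.Mid)
  have h3 : Ch.filter (fun e => σ.Moved (W.biUnion σ.Mid) e) ⊆
      univ.filter (fun e => 9 * σ.CH ≤ wtm σ.U (σ.lam e) ∧
        MovedS σ.U σ.lam σ.CH (W.biUnion σ.Mid) e) := by
    intro e he
    rw [mem_filter] at he ⊢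
    exact ⟨mem_univ _, hC e he.1, he.2⟩
  calc _ ≤ _ := card_le_card h3
    _ ≤ σ.K * (W.biUnion σ.Mid).card := h2
    _ ≤ σ.K * (W.card * σ.M4) := Nat.mul_le_mul_left _ h1
    _ = σ.K * σ.M4 * W.card := by ring

theorem select (Ch : Finset T) (hC : ∀ e ∈ Ch, σ.Heavy e) (hK : 1 ≤ σ.K * σ.M4) :
    ∃ Seq, Seq ⊆ Ch ∧ σ.SeqOK Seq ∧ Ch.card ≤ 8 * σ.K * σ.M4 * Seq.card := by
  by_contra hn
  obtain ⟨a, ha⟩ : ∃ a : ℝ, a = (σ.K * σ.M4 : ℕ) := ⟨_, rfl⟩
  have a1 : 1 ≤ a := by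
    rw [ha]
    exact_mod_cast hK
  have a0 : 0 < a := by linarith
  obtain ⟨ρ, hρ⟩ : ∃ ρ : ℝ, ρ = 1 / (2 * a) := ⟨_, rfl⟩
  have hra : ρ * a = 1 / 2 := by
    rw [hρ]
    field_simp
  have h0 : 0 ≤ ρ := by
    rw [hρ]
    positivity
  have h1 : ρ ≤ 1 := by nlinarith
  have key : ∀ W, W ⊆ Ch → 8 * a * (W.card : ℝ) + 1 ≤ Ch.card + 8 * a * ∑ e ∈ Ch,
      (if e ∈ W ∧ σ.Moved ((W.erase e).biUnion σ.Mid) e then (1 : ℝ) else 0) := by
    intro W hW
    have hok : σ.SeqOK (W.filter (fun e => ¬ σ.Moved ((W.erase e).biUnion σ.Mid) e)) := by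
      intro e he
      rw [mem_filter] at he
      refine ⟨hC e (hW he.1), fun hm => he.2 (σ.moved_mono ?_ hm)⟩
      exact biUnion_subset_biUnion_of_subset_left _ (erase_subset_erase _ (filter_subset _ _))
    have hlt : 8 * σ.K * σ.M4 *
        (W.filter (fun e => ¬ σ.Moved ((W.erase e).biUnion σ.Mid) e)).card < Ch.card :=
      not_le.1 fun h => hn ⟨_, (filter_subset _ _).trans hW, hok, h⟩
    have hs := card_filter_add_card_filter_not (s := W)
      (fun e => σ.Moved ((W.erase e).biUnion σ.Mid) e)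
    have hb : ∑ e ∈ Ch, (if e ∈ W ∧ σ.Moved ((W.erase e).biUnion σ.Mid) e then (1 : ℝ) else 0) =
        (W.filter (fun e => σ.Moved ((W.erase e).biUnion σ.Mid) e)).card := by
      rw [sum_boole]
      congr 2
      ext e
      simp only [mem_filter]
      exact ⟨fun h => h.2, fun h => ⟨hW h.1, h⟩⟩
    rw [hb, ← hs]
    have hlt' : 8 * a * ((W.filter
        (fun e => ¬ σ.Moved ((W.erase e).biUnion σ.Mid) e)).card : ℝ) + 1 ≤ Ch.card := by
      rw [ha]
      have := Nat.succ_le_of_lt hlt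
      rw [mul_assoc 8] at this
      exact_mod_cast this
    push_cast
    linarith
  have h2 := DA.Ex_mono h0 h1 Ch key
  rw [DA.Ex_add, DA.Ex_add, DA.Ex_mul, DA.Ex_mul, DA.Ex_const, DA.Ex_const, DA.Ex_card,
    osel_Ex_sum] at h2
  have h3 : ∑ e ∈ Ch, DA.Ex ρ Ch (fun W =>
      if e ∈ W ∧ σ.Moved ((W.erase e).biUnion σ.Mid) e then (1 : ℝ) else 0) ≤
      ∑ e ∈ Ch, ρ * DA.Ex ρ Ch (fun W => if σ.Moved (W.biUnion σ.Mid) e then (1 : ℝ) else 0) :=
    sum_le_sum fun e he => osel_erase h0 h1 he (fun W => σ.Moved (W.biUnion σ.Mid) e)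
      fun W h => σ.moved_mono (biUnion_subset_biUnion_of_subset_left _ (subset_insert _ _)) h
  rw [← mul_sum] at h3
  have h4 : DA.Ex ρ Ch (fun W => ∑ e ∈ Ch,
      if σ.Moved (W.biUnion σ.Mid) e then (1 : ℝ) else 0) ≤
      DA.Ex ρ Ch (fun W => a * (W.card : ℝ)) := by
    refine DA.Ex_mono h0 h1 Ch fun W hW => ?_
    rw [sum_boole, ha]
    exact_mod_cast σ.osel_moved_card Ch hC hW
  rw [DA.Ex_mul, DA.Ex_card, osel_Ex_sum] at h4
  have h5 := h3.trans (mul_le_mul_of_nonneg_left h4 h0)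
  have h6 := mul_le_mul_of_nonneg_left h5 (by positivity : (0 : ℝ) ≤ 8 * a)
  have hn0 : (0 : ℝ) ≤ Ch.card := Nat.cast_nonneg _
  have e1 : 8 * a * (ρ * (Ch.card : ℝ)) = 4 * Ch.card := by
    linear_combination (8 * (Ch.card : ℝ)) * hra
  have e2 : 8 * a * (ρ * (a * (ρ * (Ch.card : ℝ)))) = 2 * Ch.card := by
    linear_combination (8 * (Ch.card : ℝ) * (ρ * a + 1 / 2)) * hra
  linarith

variable {σ} {Seq : Finset T}

theorem SeqOK.not_moved (h : σ.SeqOK Seq) {e : T} (he : e ∈ Seq) {Γ : Finset T}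
    (hΓ : Γ ⊆ (Seq.erase e).biUnion σ.Mid) : ¬ σ.Moved Γ e :=
  fun hm => (h e he).2 (σ.moved_mono hΓ hm)

theorem SeqOK.not_moved_past (h : σ.SeqOK Seq) {e : T} (he : e ∈ Seq) :
    ¬ σ.Moved (σ.past Seq e) e := by
  refine h.not_moved he (biUnion_subset_biUnion_of_subset_left _ fun e' he' => ?_)
  rw [mem_filter] at he'
  refine mem_erase.2 ⟨fun hh => ?_, he'.1⟩
  rw [hh] at he'
  exact lt_irrefl _ he'.2

theorem SeqOK.disjoint_Mid (h : σ.SeqOK Seq) {e e' : T} (he : e ∈ Seq) (he' : e' ∈ Seq)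
    (hne : e ≠ e') : Disjoint (σ.Mid e) (σ.Mid e') := by
  refine disjoint_left.2 fun t ht ht' => ?_
  have hΓ : t ∈ (Seq.erase e).biUnion σ.Mid :=
    mem_biUnion.2 ⟨e', mem_erase.2 ⟨hne.symm, he'⟩, ht'⟩
  have h1 := σ.heavy_Ht (h e he).2
  obtain ⟨Γ, hG⟩ : ∃ Γ, Γ = (Seq.erase e).biUnion σ.Mid := ⟨_, rfl⟩
  rw [← hG] at hΓ h1
  obtain ⟨u, hu, hw⟩ := (mem_filter.1 ht).2
  have h2 : σ.lam t ∈ σ.Ht Γ :=
    σ.U_le_Ht Γ (Submodule.mem_sup_right (mem_spn σ.lam hΓ))
  have h3 : wtm (σ.Ht Γ) (σ.lam t - u • σ.lam e) ≤ wtm σ.U (σ.lam t - u • σ.lam e) :=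
    wtm_anti (le_sup_left.trans (σ.U_le_Ht Γ)) _
  have h4 : wtm (σ.Ht Γ) (σ.lam t - u • σ.lam e) = wtm (σ.Ht Γ) ((-u) • σ.lam e) := by
    refine wtm_congr ?_
    rw [neg_smul, sub_neg_eq_add, sub_add_cancel]
    exact h2
  rw [wtm_smul _ (neg_ne_zero.2 hu)] at h4
  have h5 := σ.one_le_CH
  omega

theorem SeqOK.disjoint_Qs (h : σ.SeqOK Seq) {e e' : T} (he : e ∈ Seq) (he' : e' ∈ Seq)
    (hne : e ≠ e') : Disjoint (σ.Qs e) (σ.Qs e') := by
  refine (σ.disjoint_Qs_Jt (h e he).2).mono_right (σ.Qs_subset_Jt ?_)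
  exact subset_biUnion_of_mem σ.Mid (mem_erase.2 ⟨hne.symm, he'⟩)

theorem SeqOK.safe (h : σ.SeqOK Seq) :
    Safe σ.CH ((σ.U ⊔ spn σ.lam Seq).map (off σ.Yᶜ)) ∧
      dO (σ.U ⊔ spn σ.lam Seq) σ.Yᶜ = dO σ.U σ.Yᶜ + Seq.card := by
  have h1 : rho σ.CH σ.U + σ.CH * Seq.card ≤ rho σ.CH (σ.U ⊔ spn σ.lam Seq) := by
    refine rho_spn_ge σ.CH σ.U σ.lam Seq fun e he => ?_
    refine (σ.marg_unmoved (h.not_moved he fun t ht => ?_)).ge
    exact mem_biUnion.2 ⟨t, ht, σ.self_mem_Mid t⟩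
  have h2 := rho_le σ.CH (σ.U ⊔ spn σ.lam Seq) σ.Yᶜ
  have h3 := dO_sup_spn σ.U σ.lam Seq σ.Yᶜ
  have h4 := Nat.mul_le_mul_left σ.CH h3
  have h5 := σ.rho_U
  have h6 : σ.CH * (dO σ.U σ.Yᶜ + Seq.card) ≤ σ.CH * dO (σ.U ⊔ spn σ.lam Seq) σ.Yᶜ := by
    unfold fC at h2 h5
    rw [mul_add]
    omega
  refine ⟨safe_of_min (le_antisymm ?_ h2), le_antisymm h3 ?_⟩
  · unfold fC at h5 ⊢
    rw [mul_add] at h4
    omega
  · exact Nat.le_of_mul_le_mul_left h6 σ.one_le_CH

/-- few members are hit by a space with few generators. -/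
theorem SeqOK.hit_count (h : σ.SeqOK Seq) {a : Finset X} (ha : a ⊆ σ.Y) {C' : ℕ} (hC : 1 ≤ C')
    (h5 : SafeOn a (2 * C') ((σ.U ⊔ spn σ.lam Seq).map (off σ.Yᶜ))) (Γ : Finset T) :
    (Seq.filter (fun i => σ.Hit a C' i (σ.U ⊔ spn σ.lam Γ))).card ≤ 3 * C' * Γ.card := by
  have hc : σ.Yᶜ ⊆ aᶜ := compl_subset_compl.2 ha
  have h2C : 1 ≤ 2 * C' := by omega
  obtain ⟨s1, d1⟩ := SafeOn.restrict h2C hc h5
  obtain ⟨s0, d0⟩ := SafeOn.restrict (H := σ.U) h2C hc (h5.sub (Submodule.map_mono le_sup_left))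
  have d2 := h.safe.2
  obtain ⟨H, hH⟩ : ∃ H : Sub p X, H = (σ.U ⊔ spn σ.lam Γ) ⊔ co aᶜ := ⟨_, rfl⟩
  have dH : dO H aᶜ ≤ dO σ.U aᶜ + Γ.card := by
    rw [hH, dO_sup_co _ (Subset.refl _)]
    exact dO_sup_spn _ _ _ _
  have hJ : (Jmax C' H \ aᶜ).card ≤ 2 * C' * Γ.card := by
    refine card_Jmax hC (U := σ.U ⊔ co aᶜ) le_sup_right ?_ ?_ ?_
    · rw [map_off_sup_co]
      exact s0
    · rw [hH]
      exact sup_le_sup_right le_sup_left _
    · rw [dO_sup_co _ (Subset.refl _)]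
      exact dH
  have p2 : (Seq.filter (fun i => ¬ Disjoint (σ.Qs i ∩ a) (Jmax C' H))).card ≤
      (Jmax C' H \ aᶜ).card := by
    refine card_le_card_of_forall_subsingleton (fun i x => x ∈ σ.Qs i) ?_ ?_
    · intro i hi
      obtain ⟨x, hx, hx'⟩ := not_disjoint_iff.1 (mem_filter.1 hi).2
      rw [mem_inter] at hx
      exact ⟨x, mem_sdiff.2 ⟨hx', fun hh => mem_compl.1 hh hx.2⟩, hx.1⟩
    · intro x _ i hi i' hi'
      by_contra hne
      exact disjoint_left.1 (h.disjoint_Qs (mem_filter.1 (mem_coe.1 hi.1)).1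
        (mem_filter.1 (mem_coe.1 hi'.1)).1 hne) hi.2 hi'.2
  have r1 : fC C' ((σ.U ⊔ spn σ.lam Seq) ⊔ co aᶜ) aᶜ = rho C' ((σ.U ⊔ spn σ.lam Seq) ⊔ co aᶜ) := by
    refine min_of_safe hC le_sup_right ?_
    rw [map_off_sup_co]
    exact s1.mono (by omega)
  have r2 : rho C' ((σ.U ⊔ spn σ.lam Seq) ⊔ co aᶜ) ≤ rho C' (H ⊔ spn σ.lam Seq) := by
    refine rho_mono C' (sup_le (sup_le ?_ le_sup_right) ?_)
    · rw [hH]
      exact (le_sup_left.trans le_sup_left).trans le_sup_left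
    · rw [hH]
      exact le_sup_right.trans le_sup_left
  have r3 := rho_spn_le C' H σ.lam Seq
  have r4 := rho_le C' H aᶜ
  have r5 : ∑ e ∈ Seq, marg C' H (σ.lam e) +
      (Seq.filter (fun i => marg C' H (σ.lam i) < C')).card ≤ C' * Seq.card := by
    rw [card_filter, ← sum_add_distrib, mul_comm, ← smul_eq_mul]
    refine sum_le_card_nsmul _ _ _ fun e _ => ?_
    have := marg_le C' H (σ.lam e)
    split_ifs <;> omega
  have r6 := Nat.mul_le_mul_left C' dH
  have p1 : (Seq.filter (fun i => marg C' H (σ.lam i) < C')).card ≤ C' * Γ.card := by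
    unfold fC at r1 r4
    rw [dO_sup_co _ (Subset.refl _), d1, d2, ← d0, mul_add] at r1
    rw [mul_add] at r6
    omega
  have p0 : Seq.filter (fun i => σ.Hit a C' i (σ.U ⊔ spn σ.lam Γ)) ⊆
      Seq.filter (fun i => marg C' H (σ.lam i) < C') ∪
        Seq.filter (fun i => ¬ Disjoint (σ.Qs i ∩ a) (Jmax C' H)) := by
    intro i hi
    rw [mem_filter] at hi
    rw [mem_union, mem_filter, mem_filter, hH]
    exact hi.2.imp (fun x => ⟨hi.1, x⟩) fun x => ⟨hi.1, x⟩
  have p3 := (card_le_card p0).trans (card_union_le _ _)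
  have p4 : 3 * C' * Γ.card = C' * Γ.card + 2 * C' * Γ.card := by ring
  omega

end Ext

end Pool.Agent.P.MP_85fe51_lc.OD
end

-- part Pool.Agent.P.MP_85fe51_lc.OU1
section

set_option autoImplicit false

namespace Pool.Agent.P.MP_85fe51_lc.OD

open Finset
open scoped Classical

variable {p : ℕ} [Fact p.Prime] {X : Type} [Fintype X] [DecidableEq X]

theorem ou1_norm_le {ι : Type} (s : Finset ι) (hs : s.Nonempty) (f : ι → ℂ) (b : ℝ)
    (h : ∀ i ∈ s, ‖f i‖ ≤ b) : ‖s.expect f‖ ≤ b :=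
  (RCLike.norm_expect_le (K := ℂ)).trans (Finset.expect_le hs h)

theorem ou1_term {m c : ℕ} {θ : ℝ} (hθ : ThB p m c θ) {V : Type} [AddCommGroup V]
    (hV : ∀ v : V, m • v = 0) (τ : AddChar V ℂ) {a a2 : Finset X} (ha : a2 ⊆ a)
    (F : Finset X → V)
    (hF : ∀ B, B ⊆ a \ a2 → DL ⊥ (fun _ => True) (c + 1) a2 (fun A => F (B ∪ A))) (μ : Vec p X) :
    ‖a.powerset.expect (fun A => τ (F A) * ch (dot μ A))‖ ≤ θ ^ (supp μ ∩ a2).card := by
  have h1 : a = (a \ a2) ∪ a2 := (Finset.sdiff_union_of_subset ha).symm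
  rw [h1, expect_powerset_union Finset.sdiff_disjoint]
  refine ou1_norm_le _ (Finset.powerset_nonempty _) _ _ fun B hB => ?_
  have hB' := Finset.mem_powerset.mp hB
  have h2 : a2.powerset.expect (fun A => τ (F (B ∪ A)) * ch (dot μ (B ∪ A))) =
      ch (dot μ B) * a2.powerset.expect (fun A => τ (F (B ∪ A)) * ch (dot μ A)) := by
    rw [Finset.mul_expect]
    refine Finset.expect_congr rfl fun A hA => ?_
    have hd : Disjoint B A := Finset.disjoint_of_subset_left hB'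
      (Finset.disjoint_of_subset_right (Finset.mem_powerset.mp hA) Finset.sdiff_disjoint)
    rw [dot_union μ hd, ch_add]
    ring
  rw [h2, norm_mul, norm_ch, one_mul]
  exact hθ.2.2 X V hV τ a2 _ μ (hF B hB')

theorem ou1_enum {θ : ℝ} (h0 : 0 ≤ θ) {H : Sub p X} {lam : Vec p X} (hl : lam ∉ H)
    (a : Finset X) :
    ∑ z ∈ elts H ×ˢ (univ : Finset (ZMod p)), θ ^ (supp (z.2 • lam + z.1) ∩ a).card ≤
      enum θ (H ⊔ Submodule.span (ZMod p) {lam}) a := by
  have hinj : Set.InjOn (fun z : Vec p X × ZMod p => z.2 • lam + z.1)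
      (elts H ×ˢ (univ : Finset (ZMod p)) : Finset (Vec p X × ZMod p)) := by
    intro z hz z' hz' h
    have h1 : z.1 ∈ H := mem_elts.mp (Finset.mem_product.mp (Finset.mem_coe.mp hz)).1
    have h2 : z'.1 ∈ H := mem_elts.mp (Finset.mem_product.mp (Finset.mem_coe.mp hz')).1
    have h' : z.2 • lam + z.1 = z'.2 • lam + z'.1 := h
    have h3 : z.2 = z'.2 := by
      by_contra hne
      have h4 : (z.2 - z'.2) • lam = z'.1 - z.1 := by
        rw [sub_smul, sub_eq_sub_iff_add_eq_add, h', add_comm]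
      exact hl ((H.smul_mem_iff (sub_ne_zero.mpr hne)).mp (h4 ▸ H.sub_mem h2 h1))
    rw [h3] at h'
    exact Prod.ext (add_left_cancel h') h3
  rw [← Finset.sum_image (f := fun η : Vec p X => θ ^ (supp η ∩ a).card) hinj, enum]
  refine Finset.sum_le_sum_of_subset_of_nonneg ?_ fun _ _ _ => pow_nonneg h0 _
  intro η hη
  obtain ⟨z, hz, rfl⟩ := Finset.mem_image.mp hη
  have h1 : z.1 ∈ H := mem_elts.mp (Finset.mem_product.mp hz).1
  exact mem_elts.mpr (Submodule.add_mem _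
    (Submodule.mem_sup_right (Submodule.smul_mem _ _ (Submodule.mem_span_singleton_self lam)))
    (Submodule.mem_sup_left h1))

theorem ou1_arith {S M : ℂ} {N ε : ℝ} (hε : ε ≤ 1 / 3) (h1 : ‖S - M‖ ≤ ε) (hM : ‖M‖ ≤ 1)
    (h2 : 1 - ε ≤ N) (h3 : N ≤ 1 + ε) : ‖S / N - M‖ ≤ 3 * ε := by
  have hε0 : 0 ≤ ε := (norm_nonneg _).trans h1
  have hN : 0 < N := by linarith
  have hN' : (N : ℂ) ≠ 0 := by exact_mod_cast hN.ne'
  have h4 : S / N - M = ((S - M) + M * ((1 - N : ℝ) : ℂ)) / N := by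
    push_cast
    field_simp
    ring
  have h5 : ‖M * ((1 - N : ℝ) : ℂ)‖ ≤ 1 * ε := by
    rw [norm_mul, Complex.norm_real, Real.norm_eq_abs]
    exact mul_le_mul hM (abs_le.mpr ⟨by linarith, by linarith⟩) (abs_nonneg _) zero_le_one
  rw [h4, norm_div, Complex.norm_real, Real.norm_of_nonneg hN.le, div_le_iff₀ hN]
  have h6 := norm_add_le (S - M) (M * ((1 - N : ℝ) : ℂ))
  have h7 : 3 * ε * (2 / 3) ≤ 3 * ε * N := mul_le_mul_of_nonneg_left (by linarith) (by linarith)
  linarith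

theorem ou1_core {m c : ℕ} {θ : ℝ} (hθ : ThB p m c θ) {V : Type} [AddCommGroup V] [Fintype V]
    (hV : ∀ v : V, m • v = 0) (τ : AddChar V ℂ) {H : Sub p X} {a a2 : Finset X} (A0 : Finset X)
    (ha : a2 ⊆ a) {lam : Vec p X} (hl : lam ∉ H) {ε : ℝ} (hε : ε ≤ 1 / 3)
    (he : enum θ (H ⊔ Submodule.span (ZMod p) {lam}) a2 ≤ 1 + ε) (c0 : ZMod p)
    (h : ZMod p → ℂ) (hh : ∀ s, ‖h s‖ ≤ 1) (F : Finset X → ZMod p → V)
    (hF : ∀ s B, B ⊆ a \ a2 → DL ⊥ (fun _ => True) (c + 1) a2 (fun A => F (B ∪ A) s)) :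
    ‖(fib H a A0).expect (fun A => h (c0 + dot lam A) * τ (F A (c0 + dot lam A))) -
      (univ : Finset (ZMod p)).expect (fun s => h s * a.powerset.expect (fun A => τ (F A s)))‖ ≤
      3 * ε := by
  have h0 : 0 ≤ θ := hθ.1
  set M : ℂ :=
    (univ : Finset (ZMod p)).expect (fun s => h s * a.powerset.expect (fun A => τ (F A s))) with hM
  set g : Finset X → ℂ := fun A => h (c0 + dot lam A) * τ (F A (c0 + dot lam A)) with hg
  set Tm : Vec p X × ZMod p → ℂ := fun z => ch (-dot z.1 A0) * ch (z.2 * c0) *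
    (univ : Finset (ZMod p)).expect (fun s => ch (-(z.2 * s)) * h s *
      a.powerset.expect (fun A => τ (F A s) * ch (dot (z.2 • lam + z.1) A))) with hTm
  have hM1 : ‖M‖ ≤ 1 := by
    refine ou1_norm_le _ univ_nonempty _ _ fun s _ => ?_
    rw [norm_mul]
    refine mul_le_one₀ (hh s) (norm_nonneg _) ?_
    exact ou1_norm_le _ (Finset.powerset_nonempty _) _ _ fun A _ => (τ.norm_apply _).le
  have hT : ∀ z, ‖Tm z‖ ≤ θ ^ (supp (z.2 • lam + z.1) ∩ a2).card := by
    intro z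
    simp only [hTm]
    rw [norm_mul, norm_mul, norm_ch, norm_ch, one_mul, one_mul]
    refine ou1_norm_le _ univ_nonempty _ _ fun s _ => ?_
    rw [norm_mul, norm_mul, norm_ch, one_mul]
    exact (mul_le_of_le_one_left (norm_nonneg _) (hh s)).trans
      (ou1_term hθ hV τ ha (fun A => F A s) (hF s) _)
  have hT0 : Tm (0, 0) = M := by
    simp only [hTm, hM, zero_smul, add_zero, dot_zero, zero_mul, neg_zero, ch_zero, one_mul,
      mul_one]
  have hS : ∑ η ∈ elts H, ch (-dot η A0) * a.powerset.expect (fun A => g A * ch (dot η A)) =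
      ∑ z ∈ elts H ×ˢ (univ : Finset (ZMod p)), Tm z := by
    rw [Finset.sum_product]
    refine Finset.sum_congr rfl fun η _ => ?_
    have h1 : ∀ A, g A * ch (dot η A) = ∑ i : ZMod p, ch (i * c0) *
        (univ : Finset (ZMod p)).expect (fun s => ch (-(i * s)) * h s *
          (τ (F A s) * ch (dot (i • lam + η) A))) := by
      intro A
      have h2 := fourier_inv (fun s => h s * τ (F A s)) (c0 + dot lam A)
      simp only [hg]
      rw [h2, Finset.sum_mul]
      refine Finset.sum_congr rfl fun i _ => ?_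
      rw [mul_assoc, Finset.expect_mul, Finset.mul_expect, Finset.mul_expect]
      refine Finset.expect_congr rfl fun s _ => ?_
      rw [dot_add, dot_smul, mul_add, ch_add, ch_add]
      ring
    simp only [h1]
    rw [Finset.expect_sum_comm, Finset.mul_sum]
    refine Finset.sum_congr rfl fun i _ => ?_
    simp only [hTm]
    rw [← Finset.mul_expect, Finset.expect_comm, ← mul_assoc]
    simp only [← Finset.mul_expect]
  have hmem : ((0 : Vec p X), (0 : ZMod p)) ∈ elts H ×ˢ (univ : Finset (ZMod p)) :=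
    Finset.mem_product.mpr ⟨mem_elts.mpr H.zero_mem, mem_univ _⟩
  have hE : ‖∑ z ∈ elts H ×ˢ (univ : Finset (ZMod p)), Tm z - M‖ ≤ ε := by
    rw [← Finset.add_sum_erase _ _ hmem, hT0, add_sub_cancel_left]
    refine (norm_sum_le _ _).trans ((Finset.sum_le_sum fun z _ => hT z).trans ?_)
    have h1 := ou1_enum h0 hl a2
    rw [← Finset.add_sum_erase _ _ hmem] at h1
    have h2 : supp ((0 : ZMod p) • lam + (0 : Vec p X)) ∩ a2 = ∅ := by
      ext i
      simp [mem_supp]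
    simp only [h2, Finset.card_empty, pow_zero] at h1
    linarith
  have hen : enum θ H a ≤ 1 + ε :=
    (enum_anti h0 hθ.2.1.le H ha).trans ((enum_mono h0 le_sup_left a2).trans he)
  have h2a : (0 : ℝ) < 2 ^ a.card := by positivity
  have hle := card_fib_le hθ.thC H a A0
  have hge := card_fib_ge hθ.thC H a A0
  set N : ℝ := (p : ℝ) ^ Module.finrank (ZMod p) ↥H * (fib H a A0).card / 2 ^ a.card with hN
  have hN1 : 1 - ε ≤ N := by
    rw [hN, le_div_iff₀ h2a]
    exact le_trans (mul_le_mul_of_nonneg_right (by linarith) h2a.le) hge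
  have hN2 : N ≤ 1 + ε := by
    rw [hN, div_le_iff₀ h2a]
    exact hle.trans (mul_le_mul_of_nonneg_right hen h2a.le)
  have hp : ((p : ℂ) ^ Module.finrank (ZMod p) ↥H) ≠ 0 :=
    pow_ne_zero _ (by exact_mod_cast (Fact.out : p.Prime).ne_zero)
  have hfin : (fib H a A0).expect g =
      (∑ z ∈ elts H ×ˢ (univ : Finset (ZMod p)), Tm z) / (N : ℂ) := by
    have h1 := sum_fib H a A0 g
    rw [hS] at h1
    have h2 : ((2 : ℂ) ^ a.card) ≠ 0 := pow_ne_zero _ two_ne_zero
    rw [Finset.expect_eq_sum_div_card, hN]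
    push_cast
    rw [div_div_eq_mul_div, mul_comm _ ((2 : ℂ) ^ a.card), ← h1, mul_div_mul_left _ _ hp]
  rw [hfin]
  exact ou1_arith hε hE hM1 hN1 hN2

/-- on a class, the value of a new vector is uniform and independent of a low degree phase. -/
theorem u1_one {m c : ℕ} {θ : ℝ} (hθ : ThB p m c θ) {V : Type} [AddCommGroup V] [Fintype V]
    (hV : ∀ v : V, m • v = 0) (τ : AddChar V ℂ) {H : Sub p X} {J a a2 A0 : Finset X}
    (hJ : co J ≤ H) (ha : a2 ⊆ a) (hA : A0 ⊆ a) {lam : Vec p X} (hl : lam ∉ H) {ε : ℝ}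
    (hε : ε ≤ 1 / 3)
    (he : enum θ ((H ⊔ Submodule.span (ZMod p) {lam}).map (off J)) a2 ≤ 1 + ε)
    (h : ZMod p → ℂ) (hh : ∀ s, ‖h s‖ ≤ 1) (F : Finset X → ZMod p → V)
    (hFJ : ∀ A s, F A s = F (A \ J) s)
    (hF : ∀ s B, Disjoint B a2 → DL ⊥ (fun _ => True) (c + 1) a2 (fun A => F (B ∪ A) s)) :
    ‖(fib H a A0).expect (fun A => h (dot lam A) * τ (F A (dot lam A))) -
      (a.powerset ×ˢ (univ : Finset (ZMod p))).expect (fun z => h z.2 * τ (F z.1 z.2))‖ ≤
      3 * ε := by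
  have hl' : off J lam ∉ H.map (off J) := by
    rw [off_mem_map_iff, sup_eq_left.mpr hJ]
    exact hl
  have he' : enum θ (H.map (off J) ⊔ Submodule.span (ZMod p) {off J lam}) (a2 \ J) ≤ 1 + ε := by
    rw [← enum_sdiff, Submodule.map_sup, Submodule.map_span, Set.image_singleton] at he
    exact he
  have key := ou1_core hθ hV τ (A0 \ J) (Finset.sdiff_subset_sdiff ha (Finset.Subset.refl J)) hl'
    hε he' (dot lam (A0 ∩ J)) h hh F (fun s B hB => (hF s B (by
      rw [Finset.disjoint_left]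
      intro i hi hi2
      have h1 := Finset.mem_sdiff.mp (hB hi)
      exact h1.2 (Finset.mem_sdiff.mpr ⟨hi2, (Finset.mem_sdiff.mp h1.1).2⟩))).mono_set
        Finset.sdiff_subset)
  have h1 : (fib H a A0).expect (fun A => h (dot lam A) * τ (F A (dot lam A))) =
      (fib (H.map (off J)) (a \ J) (A0 \ J)).expect (fun A =>
        h (dot lam (A0 ∩ J) + dot (off J lam) A) *
          τ (F A (dot lam (A0 ∩ J) + dot (off J lam) A))) := by
    rw [expect_fib_off hJ hA]
    refine Finset.expect_congr rfl fun B hB => ?_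
    have hBJ : Disjoint B J :=
      Finset.disjoint_of_subset_left (mem_fib.mp hB).1 Finset.sdiff_disjoint
    have h2 : B \ J = B := Finset.sdiff_eq_self_of_disjoint hBJ
    have h3 : (A0 ∩ J ∪ B) \ J = B := by
      rw [Finset.union_sdiff_distrib, h2,
        Finset.sdiff_eq_empty_iff_subset.mpr Finset.inter_subset_right, Finset.empty_union]
    rw [dot_off, h2, dot_union lam
      (Finset.disjoint_of_subset_left Finset.inter_subset_right hBJ.symm), hFJ (A0 ∩ J ∪ B), h3]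
  have h2 : (a.powerset ×ˢ (univ : Finset (ZMod p))).expect (fun z => h z.2 * τ (F z.1 z.2)) =
      (univ : Finset (ZMod p)).expect
        (fun s => h s * (a \ J).powerset.expect (fun A => τ (F A s))) := by
    rw [Finset.expect_product, Finset.expect_comm]
    refine Finset.expect_congr rfl fun s _ => ?_
    rw [Finset.sdiff_eq_inter_compl, ← expect_powerset_inter a Jᶜ (fun A => τ (F A s))
      (fun A _ => by rw [← Finset.sdiff_eq_inter_compl, ← hFJ]), Finset.mul_expect]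
  rw [h1, h2]
  exact key

variable {T : Type} {k j : ℕ}

/-- one term of the alternating sum. -/
def ou1_tm {V : Type} (P : Pat k j) (phi : T → ZMod p → V) (u : T → ZMod p) (d : T → Vec p X)
    (ε : Fin k → Bool) (t : T) (ω : Cp k j → Finset X × ZMod p) : ZMod p → V :=
  fun y => phi t (u t * (y + sval P (fun κ => (ω κ).2) ε) + val P (d t) (fun κ => (ω κ).1) ε)

theorem ou1_Phi {V : Type} [AddCommGroup V] (P : Pat k j) (phi : T → ZMod p → V) (Tt : Finset T)
    (u : T → ZMod p) (d : T → Vec p X) (ω : Cp k j → Finset X × ZMod p) :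
    Phi P phi Tt u d ω = ∑ ε : Fin k → Bool, sgn ε • ∑ t ∈ Tt, ou1_tm P phi u d ε t ω := by
  funext y
  simp only [Phi, ou1_tm, Finset.sum_apply, Pi.smul_apply]

theorem ou1_tm_update {V : Type} (P : Pat k j) (phi : T → ZMod p → V) (u : T → ZMod p)
    (d : T → Vec p X) (ε : Fin k → Bool) (t : T) (ω : Cp k j → Finset X × ZMod p) (κ : Cp k j)
    (s : ZMod p) {A A' : Finset X} (h : dot (d t) A = dot (d t) A') :
    ou1_tm P phi u d ε t (Function.update ω κ (A, s)) =
      ou1_tm P phi u d ε t (Function.update ω κ (A', s)) := by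
  have h1 : (fun κ' => (Function.update ω κ (A, s) κ').2) =
      fun κ' => (Function.update ω κ (A', s) κ').2 := by
    funext κ'
    by_cases hκ : κ' = κ
    · subst hκ
      simp
    · simp [Function.update_of_ne hκ]
  have h2 : (fun κ' => dot (d t) (Function.update ω κ (A, s) κ').1) =
      fun κ' => dot (d t) (Function.update ω κ (A', s) κ').1 := by
    funext κ'
    by_cases hκ : κ' = κ
    · subst hκ
      simp [h]
    · simp [Function.update_of_ne hκ]
  unfold ou1_tm val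
  rw [h1, h2]

theorem ou1_Phi_update {V : Type} [AddCommGroup V] (P : Pat k j) (phi : T → ZMod p → V)
    (Tt : Finset T) (u : T → ZMod p) (d : T → Vec p X) (ω : Cp k j → Finset X × ZMod p)
    (κ : Cp k j) (s : ZMod p) {A A' : Finset X} (h : ∀ t ∈ Tt, dot (d t) A = dot (d t) A') :
    Phi P phi Tt u d (Function.update ω κ (A, s)) =
      Phi P phi Tt u d (Function.update ω κ (A', s)) := by
  rw [ou1_Phi, ou1_Phi]
  exact Finset.sum_congr rfl fun ε _ => congrArg _
    (Finset.sum_congr rfl fun t ht => ou1_tm_update P phi u d ε t ω κ s (h t ht))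

/-- the second components separate all pairs. -/
def ou1_S (P : Pat k j) (ω : Cp k j → Finset X × ZMod p) : Prop :=
  ∀ b, (ω (P.cp b false)).2 ≠ (ω (P.cp b true)).2

theorem ou1_S_update (P : Pat k j) (ω : Cp k j → Finset X × ZMod p) (κ : Cp k j) (s : ZMod p)
    (A A' : Finset X) :
    ou1_S P (Function.update ω κ (A, s)) ↔ ou1_S P (Function.update ω κ (A', s)) := by
  have h1 : ∀ κ', (Function.update ω κ (A, s) κ').2 = (Function.update ω κ (A', s) κ').2 := by
    intro κ'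
    by_cases hκ : κ' = κ
    · subst hκ
      simp
    · simp [Function.update_of_ne hκ]
  simp only [ou1_S, h1]

/-- the indicator of the event. -/
noncomputable def ou1_G {V : Type} [AddCommGroup V] (P : Pat k j) (phi : T → ZMod p → V)
    (Tt : Finset T) (u : T → ZMod p) (d : T → Vec p X) (ω : Cp k j → Finset X × ZMod p) : ℂ :=
  if ou1_S P ω ∧ ∃ y, Phi P phi Tt u d ω y ≠ 0 then 1 else 0

theorem ou1_pr {Ω : Type} (s : Finset Ω) (Q : Ω → Prop) (G : Ω → ℂ) (h1 : ∀ x, Q x → G x = 1)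
    (h0 : ∀ x, ¬ Q x → G x = 0) : ((pr s Q : ℝ) : ℂ) = s.expect G := by
  rw [pr, Complex.ofReal_expect]
  refine Finset.expect_congr rfl fun x _ => ?_
  by_cases h : Q x
  · rw [if_pos h, h1 x h, Complex.ofReal_one]
  · rw [if_neg h, h0 x h, Complex.ofReal_zero]

theorem ou1_pf {V : Type} [AddCommGroup V] (P : Pat k j) (phi : T → ZMod p → V)
    (Tt : Finset T) (u : T → ZMod p) (d : T → Vec p X) (a : Cp k j → Finset X) :
    ((pf P phi Tt u d a : ℝ) : ℂ) =
      (Fintype.piFinset (fun κ => (a κ).powerset ×ˢ (univ : Finset (ZMod p)))).expect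
        (fun x => ou1_G P phi Tt u d (fun i => id (x i))) :=
  ou1_pr _ _ _ (fun _ h => if_pos h) (fun _ h => if_neg h)

theorem ou1_G_eq {V : Type} [AddCommGroup V] [Fintype V] (P : Pat k j) (phi : T → ZMod p → V)
    (Tt : Finset T) (u : T → ZMod p) (d : T → Vec p X) (ω : Cp k j → Finset X × ZMod p) :
    ou1_G P phi Tt u d ω = (univ : Finset (AddChar (ZMod p → V) ℂ)).expect (fun τ =>
      (if ou1_S P ω then (1 : ℂ) else 0) * (1 : AddChar (ZMod p → V) ℂ) (Phi P phi Tt u d ω) -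
        (if ou1_S P ω then (1 : ℂ) else 0) * τ (Phi P phi Tt u d ω)) := by
  rw [Finset.expect_sub_distrib, ← Finset.mul_expect, ← Finset.mul_expect,
    AddChar.expect_apply_eq_ite, Finset.expect_const univ_nonempty, AddChar.one_apply, ou1_G]
  by_cases h1 : ou1_S P ω
  · by_cases h2 : Phi P phi Tt u d ω = 0
    · rw [if_pos h1, if_pos h2, if_neg (fun h => by
        obtain ⟨y, hy⟩ := h.2
        exact hy (congrFun h2 y))]
      simp
    · rw [if_pos h1, if_neg h2, if_pos ⟨h1, Function.ne_iff.mp h2⟩]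
      simp
  · rw [if_neg h1, if_neg (fun h => h1 h.1)]
    simp

theorem true_vs_free {m c : ℕ} {θ : ℝ} (hθ : ThB p m c θ) {V : Type} [AddCommGroup V] [Fintype V]
    (hV : ∀ v : V, m • v = 0) (P : Pat k j) (phi : T → ZMod p → V) (Tt : Finset T)
    (u : T → ZMod p) (d : T → Vec p X) {H : Sub p X} {J : Finset X} (hJ : co J ≤ H)
    {lam : Vec p X} (hl : lam ∉ H) (a a2 x0 : Cp k j → Finset X) (ha : ∀ κ, a2 κ ⊆ a κ)
    (hx : ∀ κ, x0 κ ⊆ a κ) {ε : ℝ} (hε : ε ≤ 1 / 3)
    (he : ∀ κ, enum θ ((H ⊔ Submodule.span (ZMod p) {lam}).map (off J)) (a2 κ) ≤ 1 + ε)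
    (hdJ : ∀ t ∈ Tt, Disjoint (supp (d t)) J) (hd : ∀ t ∈ Tt, ∀ κ, (supp (d t) ∩ a2 κ).card ≤ c) :
    pf P phi Tt u d a - 6 * Fintype.card (Cp k j) * ε ≤
      pr (Fintype.piFinset (fun κ => fib H (a κ) (x0 κ))) (fun x => Surv P lam x ∧
        ∃ y, Phi P phi Tt u d (fun κ => (x κ, dot lam (x κ))) y ≠ 0) := by
  have key := hybrid (fun κ => fib H (a κ) (x0 κ))
    (fun κ => (a κ).powerset ×ˢ (univ : Finset (ZMod p)))
    (fun κ => ⟨x0 κ, mem_fib.mpr ⟨hx κ, fun _ _ => rfl⟩⟩)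
    (fun κ => (Finset.powerset_nonempty _).product univ_nonempty)
    (fun _ A => (A, dot lam A)) (fun _ => id) (ou1_G P phi Tt u d) (6 * ε) (by
      intro κ ω
      have hone : ∀ τ : AddChar (ZMod p → V) ℂ,
          ‖(fib H (a κ) (x0 κ)).expect (fun A =>
            (if ou1_S P (Function.update ω κ (A, dot lam A)) then (1 : ℂ) else 0) *
              τ (Phi P phi Tt u d (Function.update ω κ (A, dot lam A)))) -
          ((a κ).powerset ×ˢ (univ : Finset (ZMod p))).expect (fun z =>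
            (if ou1_S P (Function.update ω κ (id z)) then (1 : ℂ) else 0) *
              τ (Phi P phi Tt u d (Function.update ω κ (id z))))‖ ≤ 3 * ε := by
        intro τ
        have h1 := u1_one hθ (V := ZMod p → V) (fun v => funext fun y => hV (v y)) τ hJ (ha κ)
          (hx κ) hl hε (he κ)
          (fun s => if ou1_S P (Function.update ω κ (∅, s)) then (1 : ℂ) else 0)
          (fun s => by split_ifs <;> simp)
          (fun A s => Phi P phi Tt u d (Function.update ω κ (A, s)))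
          (fun A s => ou1_Phi_update P phi Tt u d ω κ s fun t ht => by
            rw [Finset.sdiff_eq_inter_compl, dot_inter]
            intro i hi
            exact Finset.mem_compl.mpr
              (Finset.disjoint_left.mp (hdJ t ht) (Finset.mem_inter.mp hi).1))
          (fun s B hB => by
            simp only [ou1_Phi]
            refine DL_sum _ _ fun e _ => DL.zsmul (DL_sum _ _ fun t ht => ?_) _
            refine DL_junta (supp (d t)) (fun A hA => ?_) (hd t ht κ)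
            refine ou1_tm_update P phi u d e t ω κ s ?_
            have hBA : Disjoint B A := Finset.disjoint_of_subset_right hA hB
            rw [dot_union _ hBA,
              dot_union _ (Finset.disjoint_of_subset_right Finset.inter_subset_left hBA),
              dot_inter Finset.inter_subset_left])
        have h2 : ∀ A s, (if ou1_S P (Function.update ω κ (A, s)) then (1 : ℂ) else 0) =
            if ou1_S P (Function.update ω κ (∅, s)) then (1 : ℂ) else 0 :=
          fun A s => if_congr (ou1_S_update P ω κ s A ∅) rfl rfl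
        refine le_of_eq_of_le (congrArg norm (congrArg₂ (fun x y : ℂ => x - y) ?_ ?_)) h1
        · exact Finset.expect_congr rfl fun A _ => by rw [h2]
        · exact Finset.expect_congr rfl fun z _ => by rw [← h2 z.1 z.2]; rfl
      simp only [ou1_G_eq]
      rw [Finset.expect_comm, Finset.expect_comm ((a κ).powerset ×ˢ (univ : Finset (ZMod p))),
        ← Finset.expect_sub_distrib]
      refine ou1_norm_le _ univ_nonempty _ _ fun τ _ => ?_
      rw [Finset.expect_sub_distrib, Finset.expect_sub_distrib, sub_sub_sub_comm]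
      have h4 := hone 1
      have h5 := hone τ
      exact (norm_sub_le _ _).trans (by linarith))
  rw [← ou1_pf] at key
  have h1 : ((pr (Fintype.piFinset (fun κ => fib H (a κ) (x0 κ))) (fun x => Surv P lam x ∧
        ∃ y, Phi P phi Tt u d (fun κ => (x κ, dot lam (x κ))) y ≠ 0) : ℝ) : ℂ) =
      (Fintype.piFinset (fun κ => fib H (a κ) (x0 κ))).expect
        (fun x => ou1_G P phi Tt u d (fun i => (x i, dot lam (x i)))) :=
    ou1_pr _ _ _ (fun _ h => if_pos h) (fun _ h => if_neg h)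
  rw [← h1, ← Complex.ofReal_sub, Complex.norm_real, Real.norm_eq_abs] at key
  have h2 := (abs_le.mp key).1
  linarith

theorem pf_inter {V : Type} [AddCommGroup V] (P : Pat k j) (phi : T → ZMod p → V) (Tt : Finset T)
    (u : T → ZMod p) (d : T → Vec p X) (a : Cp k j → Finset X) (Q : Finset X)
    (hQ : ∀ t ∈ Tt, supp (d t) ⊆ Q) :
    pf P phi Tt u d a = pf P phi Tt u d (fun κ => a κ ∩ Q) := by
  have key := hybrid (fun κ => (a κ).powerset ×ˢ (univ : Finset (ZMod p)))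
    (fun κ => (a κ ∩ Q).powerset ×ˢ (univ : Finset (ZMod p)))
    (fun κ => (Finset.powerset_nonempty _).product univ_nonempty)
    (fun κ => (Finset.powerset_nonempty _).product univ_nonempty)
    (fun _ => id) (fun _ => id) (ou1_G P phi Tt u d) 0 (by
      intro κ ω
      rw [norm_le_zero_iff, sub_eq_zero, Finset.expect_product, Finset.expect_product]
      refine expect_powerset_inter (a κ) Q _ fun A _ => Finset.expect_congr rfl fun s _ => ?_
      have h1 := ou1_Phi_update P phi Tt u d ω κ s (A := A) (A' := A ∩ Q) fun t ht =>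
        (dot_inter (Finset.inter_subset_left.trans (hQ t ht))).symm
      simp only [id, ou1_G, h1]
      exact if_congr (and_congr (ou1_S_update P ω κ s A (A ∩ Q)) Iff.rfl) rfl rfl)
  rw [mul_zero, norm_le_zero_iff, sub_eq_zero, ← ou1_pf, ← ou1_pf] at key
  exact_mod_cast key

variable [Fintype T]

theorem Ext.pfe_congr {V : Type} [AddCommGroup V] (σ : Ext p X T) (P : Pat k j)
    (phi : T → ZMod p → V) (e : T) {l l' : X → Lab k j} (h : ∀ i ∈ σ.Qs e, l i = l' i) :
    σ.pfe P phi e l = σ.pfe P phi e l' := by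
  have hQ : ∀ t ∈ σ.LCl e, supp (σ.dd e t) ⊆ σ.Qs e := fun t ht =>
    Finset.subset_biUnion_of_mem (fun t => supp (σ.dd e t)) ht
  unfold Ext.pfe
  rw [pf_inter P phi _ _ _ (cset P σ.Y l) _ hQ, pf_inter P phi _ _ _ (cset P σ.Y l') _ hQ]
  refine congrArg _ (funext fun κ => ?_)
  ext i
  simp only [cset, atomSet, Finset.mem_inter, Finset.mem_filter]
  constructor
  · rintro ⟨h1, h2⟩
    rw [h i h2] at h1
    exact ⟨h1, h2⟩
  · rintro ⟨h1, h2⟩
    rw [← h i h2] at h1
    exact ⟨h1, h2⟩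

theorem Ext.good_congr (σ : Ext p X T) (c1 : ℕ) (e : T) {l l' : X → Lab k j}
    (h : ∀ i ∈ σ.Qs e, l i = l' i) : σ.Good c1 l e ↔ σ.Good c1 l' e := by
  have h1 : ∀ t ∈ σ.LCl e, ∀ a : Atom k j,
      supp (σ.dd e t) ∩ subSet σ.Y l a = supp (σ.dd e t) ∩ subSet σ.Y l' a := by
    intro t ht a
    ext i
    simp only [subSet, Finset.mem_inter, Finset.mem_filter]
    refine and_congr_right fun hi => ?_
    rw [h i (Finset.subset_biUnion_of_mem (fun t => supp (σ.dd e t)) ht hi)]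
  exact forall_congr' fun t => forall_congr' fun ht => forall_congr' fun a => by rw [h1 t ht a]

end Pool.Agent.P.MP_85fe51_lc.OD
end

-- part Pool.Agent.P.MP_85fe51_lc.OSeqB
section

set_option autoImplicit false

namespace Pool.Agent.P.MP_85fe51_lc.OD

open Finset
open scoped Classical

variable {p : ℕ} [Fact p.Prime] {X : Type} [Fintype X] [DecidableEq X] {T : Type} [Fintype T]
  {k j : ℕ} {V : Type} [AddCommGroup V] [Fintype V]

theorem oseqb_pow {x : ℝ} {n : ℕ} (h : n * x ≤ 1 / 2) (hx : 0 ≤ x) : (1 + x) ^ n ≤ 2 := by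
  have h1 : (1 + x) ^ n ≤ Real.exp x ^ n :=
    pow_le_pow_left₀ (by linarith) (by linarith [Real.add_one_le_exp x]) n
  rw [← Real.exp_nat_mul] at h1
  have h2 : Real.exp (n * x) ≤ Real.exp (1 / 2) := Real.exp_le_exp.2 h
  have h3 : Real.exp (1 / 2) * Real.exp (1 / 2) = Real.exp 1 := by
    rw [← Real.exp_add]; norm_num
  have h4 := Real.exp_one_lt_d9
  have h5 := Real.exp_pos (1 / 2)
  have h6 : Real.exp (1 / 2) ≤ 2 := by nlinarith
  linarith

theorem oseqb_expect_le {Ω : Type} (s : Finset Ω) (f : Ω → ℝ) {c : ℝ} (hc : 0 ≤ c)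
    (h : ∀ x ∈ s, f x ≤ c) : s.expect f ≤ c := by
  rcases s.eq_empty_or_nonempty with rfl | hs
  · simpa using hc
  · exact Finset.expect_le hs h

/-- two vectors survive together with probability about `piK ^ 2`. -/
theorem oseqb_pair (P : Pat k j) {θ ε : ℝ} (hθ : ThC p θ) (hε0 : 0 ≤ ε)
    (hεk : 4 * p ^ 2 * k * ε ≤ 1) {H : Sub p X} {J : Finset X} (hJ : co J ≤ H)
    (a x : Cp k j → Finset X) (hx : ∀ κ, x κ ⊆ a κ) (v v' : Vec p X)
    (he : ∀ b, enum θ (H.map (off J)) (a (P.cp b true)) ≤ 3 / 2)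
    (hc : ∀ b, ∀ u u' : ZMod p, (u ≠ 0 ∨ u' ≠ 0) →
      cenum θ (off J (u • v + u' • v')) (H.map (off J)) (a (P.cp b true)) ≤ ε) :
    pr (Fintype.piFinset (fun κ => fib H (a κ) (x κ))) (fun y => Surv P v y ∧ Surv P v' y) ≤
      2 * piK p k ^ 2 := by
  have hne : ∀ κ, (fib H (a κ) (x κ)).Nonempty := fun κ =>
    ⟨x κ, mem_fib.2 ⟨hx κ, fun _ _ => rfl⟩⟩
  have key := expect_prod_pairs (fun κ => fib H (a κ) (x κ)) hne (fun b => P.cp b false)
    (fun b => P.cp b true) (fun b b' h => (P.cp_inj h).1) (fun b b' h => (P.cp_inj h).1)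
    (fun b b' h => by simpa using (P.cp_inj h).2)
    (fun _ y y' => if dot v y' ≠ dot v y ∧ dot v' y' ≠ dot v' y then (1 : ℝ) else 0)
  have e1 : pr (Fintype.piFinset (fun κ => fib H (a κ) (x κ)))
      (fun y => Surv P v y ∧ Surv P v' y) =
      (Fintype.piFinset (fun κ => fib H (a κ) (x κ))).expect (fun y => ∏ b,
        if dot v (y (P.cp b true)) ≠ dot v (y (P.cp b false)) ∧
          dot v' (y (P.cp b true)) ≠ dot v' (y (P.cp b false)) then (1 : ℝ) else 0) := by
    unfold pr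
    refine Finset.expect_congr rfl (fun y _ => ?_)
    by_cases h : Surv P v y ∧ Surv P v' y
    · rw [if_pos h]
      symm
      refine Finset.prod_eq_one (fun b _ => ?_)
      rw [if_pos ⟨(h.1 b).symm, (h.2 b).symm⟩]
    · rw [if_neg h]
      symm
      by_contra hn
      refine h ⟨fun b => ?_, fun b => ?_⟩
      · intro hb
        exact hn (Finset.prod_eq_zero (mem_univ b) (if_neg (fun h' => h'.1 hb.symm)))
      · intro hb
        exact hn (Finset.prod_eq_zero (mem_univ b) (if_neg (fun h' => h'.2 hb.symm)))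
  rw [e1, key]
  have hx0 : (0 : ℝ) ≤ 2 * (p : ℝ) ^ 2 * ε := by positivity
  have hc0 : (0 : ℝ) ≤ (1 - 1 / (p : ℝ)) ^ 2 * (1 + 2 * (p : ℝ) ^ 2 * ε) := by positivity
  calc _ ≤ ∏ _b : Fin k, (1 - 1 / (p : ℝ)) ^ 2 * (1 + 2 * (p : ℝ) ^ 2 * ε) := by
        refine Finset.prod_le_prod (fun b _ => ?_) (fun b _ => ?_)
        · refine Finset.expect_nonneg (fun y _ => Finset.expect_nonneg (fun y' _ => ?_))
          split_ifs <;> norm_num
        · refine oseqb_expect_le _ _ hc0 (fun y _ => ?_)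
          have h2 := pair_le hθ hJ (hx (P.cp b true)) (he b) v v' (hc b) (dot v y) (dot v' y)
          refine le_trans (le_of_eq ?_) h2
          unfold pr
          refine Finset.expect_congr rfl (fun y' _ => ?_)
          by_cases h : dot v y' ≠ dot v y ∧ dot v' y' ≠ dot v' y
          · rw [if_pos h, if_pos h]
          · rw [if_neg h, if_neg h]
    _ = piK p k ^ 2 * (1 + 2 * (p : ℝ) ^ 2 * ε) ^ k := by
        rw [Finset.prod_const, card_univ, Fintype.card_fin, mul_pow, piK, ← pow_mul, ← pow_mul,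
          mul_comm 2 k]
    _ ≤ piK p k ^ 2 * 2 := by
        refine mul_le_mul_of_nonneg_left (oseqb_pow ?_ hx0) (by positivity)
        nlinarith
    _ = 2 * piK p k ^ 2 := mul_comm _ _

theorem oseqb_surv_congr (P : Pat k j) {v : Vec p X} {x y : Cp k j → Finset X}
    (h : ∀ κ, dot v (x κ) = dot v (y κ)) : Surv P v x ↔ Surv P v y := by
  unfold Surv
  simp only [h]

namespace Ext
variable (σ : Ext p X T) (P : Pat k j) (phi : T → ZMod p → V) {Seq : Finset T} {θ ε μ : ℝ}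
  {m c1 C' : ℕ} {l : X → Lab k j}

theorem oseqb_mem_Om {x : Cp k j → Finset X} :
    x ∈ σ.Om P l ↔ ∀ κ, x κ ⊆ cset P σ.Y l κ ∧ KerP σ.U (x κ) := by
  unfold Om
  rw [Fintype.mem_piFinset]
  simp only [mem_Ker]

/-- the conditional probability of being active, given the past. -/
theorem act_ge (hθ : ThB p m c1 θ) (hV : ∀ v : V, m • v = 0) (hS : σ.SeqOK Seq)
    (hT : σ.Typ P phi Seq θ ε μ c1 C' l) (hε0 : 0 ≤ ε) (hε : ε ≤ 1 / 3)
    (hεk : 4 * p ^ 2 * k * ε ≤ 1) {i : T} (hi : i ∈ Seq) {x : Cp k j → Finset X}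
    (hx : x ∈ σ.Om P l) :
    (if σ.Good c1 l i then σ.pfe P phi i l else 0) -
      (6 * Fintype.card (Cp k j) * ε + 2 * σ.M4 * piK p k ^ 2) ≤
      pr (Fintype.piFinset (fun κ => fib (σ.Ht (σ.past Seq i)) (cset P σ.Y l κ) (x κ)))
        (σ.Act P phi c1 l i) := by
  by_cases hG : σ.Good c1 l i
  swap
  · rw [if_neg hG]
    refine le_trans ?_ (pr_nonneg _ _)
    have : (0 : ℝ) ≤ 6 * Fintype.card (Cp k j) * ε + 2 * σ.M4 * piK p k ^ 2 := by positivity
    linarith
  rw [if_pos hG]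
  have hxa : ∀ κ, x κ ⊆ cset P σ.Y l κ := fun κ => ((σ.oseqb_mem_Om P).1 hx κ).1
  have hnm := hS.not_moved_past hi
  have hl : σ.lam i ∉ σ.Ht (σ.past Seq i) := by
    intro h
    have h1 := σ.heavy_Ht hnm
    have h2 := wtm_eq_zero.2 h
    have h3 := σ.one_le_CH
    omega
  have hdJ : ∀ t ∈ σ.LCl i, Disjoint (supp (σ.dd i t)) (σ.Jt (σ.past Seq i)) := fun t ht =>
    (σ.disjoint_Qs_Jt hnm).mono_left
      (Finset.subset_biUnion_of_mem (fun t => supp (σ.dd i t)) ht)
  have h1 := true_vs_free hθ hV P phi (σ.LCl i) (σ.uu i) (σ.dd i) (σ.co_Jt_le (σ.past Seq i)) hl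
    (cset P σ.Y l) (fun κ => subSet σ.Y l (P.atm κ)) x (fun κ => subSet_subset _ _ _) hxa hε
    (fun κ => hT.t2 i hi _) hdJ (fun t ht κ => hG t ht _)
  set S := Fintype.piFinset (fun κ => fib (σ.Ht (σ.past Seq i)) (cset P σ.Y l κ) (x κ)) with hSd
  have h2 : pr S (fun x => Surv P (σ.lam i) x ∧ ∃ y, Phi P phi (σ.LCl i) (σ.uu i) (σ.dd i)
      (fun κ => (x κ, dot (σ.lam i) (x κ))) y ≠ 0) ≤
      pr S (fun x => σ.Act P phi c1 l i x ∨ ∃ t ∈ σ.Mid i \ σ.LCl i,
        Surv P (σ.lam i) x ∧ Surv P (σ.lam t) x) := by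
    refine pr_mono _ (fun y _ hy => ?_)
    by_cases h : ∃ t ∈ σ.Mid i \ σ.LCl i, Surv P (σ.lam i) y ∧ Surv P (σ.lam t) y
    · exact Or.inr h
    · refine Or.inl ⟨hG, hy.1, fun t ht ht' hs => h ⟨t, ?_, hy.1, hs⟩, hy.2⟩
      exact Finset.mem_sdiff.2 ⟨ht, ht'⟩
  have h3 := pr_or_le S (fun x => σ.Act P phi c1 l i x)
    (fun x => ∃ t ∈ σ.Mid i \ σ.LCl i, Surv P (σ.lam i) x ∧ Surv P (σ.lam t) x)
  have h4 := pr_exists_le S (σ.Mid i \ σ.LCl i)
    (fun t x => Surv P (σ.lam i) x ∧ Surv P (σ.lam t) x)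
  have hcs : ∀ b, cset P σ.Y l (P.cp b true) = atomSet σ.Y l (P.ab b) := fun b => by
    unfold cset
    rw [P.atm_cp]
  have h5 : ∀ t ∈ σ.Mid i \ σ.LCl i,
      pr S (fun x => Surv P (σ.lam i) x ∧ Surv P (σ.lam t) x) ≤ 2 * piK p k ^ 2 := by
    intro t ht
    rw [Finset.mem_sdiff] at ht
    refine oseqb_pair P hθ.thC hε0 hεk (σ.co_Jt_le (σ.past Seq i)) (cset P σ.Y l) x hxa _ _
      (fun b => ?_) (fun b u u' hu => ?_)
    · rw [hcs]
      have e1 := enum_anti hθ.1 hθ.2.1.le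
        ((σ.Ht (σ.past Seq i)).map (off (σ.Jt (σ.past Seq i)))) (subSet_subset σ.Y l (P.ab b))
      have e2 := enum_mono hθ.1 (Submodule.map_mono (f := off (σ.Jt (σ.past Seq i)))
        (le_sup_left : σ.Ht (σ.past Seq i) ≤
          σ.Ht (σ.past Seq i) ⊔ Submodule.span (ZMod p) {σ.lam i})) (subSet σ.Y l (P.ab b))
      have e3 := hT.t2 i hi (P.ab b)
      linarith
    · rw [hcs]
      exact hT.t3 i hi t ht.1 ht.2 u u' hu b
  have h6 := Finset.sum_le_card_nsmul _ _ _ h5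
  have h7 : (σ.Mid i \ σ.LCl i).card ≤ σ.M4 :=
    (Finset.card_le_card Finset.sdiff_subset).trans (σ.mid i (hS i hi).1)
  have h8 : ((σ.Mid i \ σ.LCl i).card : ℝ) * (2 * piK p k ^ 2) ≤ σ.M4 * (2 * piK p k ^ 2) :=
    mul_le_mul_of_nonneg_right (by exact_mod_cast h7) (by positivity)
  rw [nsmul_eq_mul] at h6
  have h9 : σ.pfe P phi i l = pf P phi (σ.LCl i) (σ.uu i) (σ.dd i) (cset P σ.Y l) := rfl
  have h10 : pr S (fun x => σ.Act P phi c1 l i x) = pr S (σ.Act P phi c1 l i) := rfl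
  rw [h9]
  linarith

/-- activity of `e` is read off the values of a space that contains its cluster. -/
theorem oseqb_act_congr {Γ : Finset T} {e : T} (hΓ : σ.Mid e ⊆ Γ) {x y : Cp k j → Finset X}
    (h : ∀ κ, ∀ η ∈ σ.Ht Γ, dot η (x κ) = dot η (y κ)) :
    σ.Act P phi c1 l e x ↔ σ.Act P phi c1 l e y := by
  have hm : ∀ t ∈ σ.Mid e, σ.lam t ∈ σ.Ht Γ := fun t ht =>
    σ.U_le_Ht Γ (Submodule.mem_sup_right (mem_spn σ.lam (hΓ ht)))
  have he := hm e (σ.self_mem_Mid e)
  have hd : ∀ t ∈ σ.Mid e, σ.dd e t ∈ σ.Ht Γ := by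
    intro t ht
    have h1 : σ.lam t - σ.uu e t • σ.lam e - σ.dd e t ∈ σ.Ht Γ :=
      σ.U_le_Ht Γ (Submodule.mem_sup_left (σ.rep e t ht).2.1)
    have h2 : σ.lam t - σ.uu e t • σ.lam e ∈ σ.Ht Γ :=
      Submodule.sub_mem _ (hm t ht) (Submodule.smul_mem _ _ he)
    have h3 := Submodule.sub_mem _ h2 h1
    rwa [sub_sub_cancel] at h3
  have hP : ∀ u, Phi P phi (σ.LCl e) (σ.uu e) (σ.dd e)
      (fun κ => (x κ, dot (σ.lam e) (x κ))) u =
      Phi P phi (σ.LCl e) (σ.uu e) (σ.dd e) (fun κ => (y κ, dot (σ.lam e) (y κ))) u := by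
    intro u
    unfold Phi
    refine Finset.sum_congr rfl (fun ep _ => ?_)
    refine congrArg _ (Finset.sum_congr rfl (fun t ht => ?_))
    have e1 : (fun κ => dot (σ.lam e) (x κ)) = fun κ => dot (σ.lam e) (y κ) :=
      funext (fun κ => h κ _ he)
    have e2 : (fun κ => dot (σ.dd e t) (x κ)) = fun κ => dot (σ.dd e t) (y κ) :=
      funext (fun κ => h κ _ (hd t (σ.LCl_subset e ht)))
    unfold val
    simp only [e1, e2]
  unfold Act
  rw [oseqb_surv_congr P (fun κ => h κ _ he)]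
  simp only [hP]
  refine and_congr Iff.rfl (and_congr Iff.rfl (and_congr ?_ Iff.rfl))
  refine forall_congr' (fun t => forall_congr' (fun ht => ?_))
  rw [oseqb_surv_congr P (fun κ => h κ _ (hm t ht))]

theorem oseqb_class (Γ : Finset T) {x : Cp k j → Finset X} (hx : x ∈ σ.Om P l)
    {y : Cp k j → Finset X} :
    (y ∈ σ.Om P l ∧ (fun κ (η : σ.Ht Γ) => dot η.1 (y κ)) =
      fun κ (η : σ.Ht Γ) => dot η.1 (x κ)) ↔
      y ∈ Fintype.piFinset (fun κ => fib (σ.Ht Γ) (cset P σ.Y l κ) (x κ)) := by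
  rw [Fintype.mem_piFinset, oseqb_mem_Om]
  simp only [mem_fib]
  constructor
  · rintro ⟨h1, h2⟩ κ
    exact ⟨(h1 κ).1, fun η hη => congrFun (congrFun h2 κ) ⟨η, hη⟩⟩
  · intro h
    refine ⟨fun κ => ⟨(h κ).1, fun η hη => ?_⟩, ?_⟩
    · rw [(h κ).2 η (σ.U_le_Ht Γ (Submodule.mem_sup_left hη))]
      exact ((σ.oseqb_mem_Om P).1 hx κ).2 η hη
    · funext κ η
      exact (h κ).2 η.1 η.2

theorem oseqb_g_le (i : T) : (if σ.Good c1 l i then σ.pfe P phi i l else 0) ≤ 1 := by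
  split_ifs
  · exact pr_le_one _ _
  · norm_num

theorem oseqb_prod (hθ : ThB p m c1 θ) (hV : ∀ v : V, m • v = 0) (hS : σ.SeqOK Seq)
    (hT : σ.Typ P phi Seq θ ε μ c1 C' l) (hε0 : 0 ≤ ε) (hε : ε ≤ 1 / 3)
    (hεk : 4 * p ^ 2 * k * ε ≤ 1) (S : Finset T) (hSS : S ⊆ Seq) :
    (σ.Om P l).expect (fun x => ∏ i ∈ S, if σ.Act P phi c1 l i x then (1 / 2 : ℝ) else 1) ≤
      ∏ i ∈ S, ((1 - (if σ.Good c1 l i then σ.pfe P phi i l else 0) / 2) *
        (1 + (6 * Fintype.card (Cp k j) * ε + 2 * σ.M4 * piK p k ^ 2))) := by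
  have hδ : (0 : ℝ) ≤ 6 * Fintype.card (Cp k j) * ε + 2 * σ.M4 * piK p k ^ 2 := by positivity
  induction S using Finset.induction_on_max_value (fun e => Fintype.equivFin T e) with
  | empty =>
    simp only [Finset.prod_empty]
    exact oseqb_expect_le _ _ zero_le_one (fun _ _ => le_rfl)
  | insert i S hiS hmax ih =>
    have hi : i ∈ Seq := hSS (mem_insert_self _ _)
    have hS' : S ⊆ Seq := (Finset.subset_insert _ _).trans hSS
    have ih' := ih hS'
    have hsub : ∀ e ∈ S, σ.Mid e ⊆ σ.past Seq i := by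
      intro e he
      refine Finset.subset_biUnion_of_mem σ.Mid (Finset.mem_filter.2 ⟨hS' he, ?_⟩)
      refine lt_of_le_of_ne (hmax e he) (fun h => hiS ?_)
      rw [← (Fintype.equivFin T).injective h]
      exact he
    simp only [Finset.prod_insert hiS]
    set c : ℝ := (1 - (if σ.Good c1 l i then σ.pfe P phi i l else 0) / 2) *
      (1 + (6 * Fintype.card (Cp k j) * ε + 2 * σ.M4 * piK p k ^ 2)) with hc
    have hg := σ.oseqb_g_le P phi (c1 := c1) (l := l) i
    have hc0 : 0 ≤ c := mul_nonneg (by linarith) (by linarith)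
    have key := expect_cond_mul (σ.Om P l)
      (fun x => fun κ (η : σ.Ht (σ.past Seq i)) => dot η.1 (x κ))
      (fun x => ∏ e ∈ S, if σ.Act P phi c1 l e x then (1 / 2 : ℝ) else 1)
      (fun x => if σ.Act P phi c1 l i x then (1 / 2 : ℝ) else 1) (by
        intro x _ y _ hxy
        refine Finset.prod_congr rfl (fun e he => ?_)
        have := σ.oseqb_act_congr P phi (c1 := c1) (l := l) (hsub e he) (x := x) (y := y)
          (fun κ η hη => congrFun (congrFun hxy κ) ⟨η, hη⟩)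
        by_cases h : σ.Act P phi c1 l e x
        · rw [if_pos h, if_pos (this.1 h)]
        · rw [if_neg h, if_neg (fun h' => h (this.2 h'))])
    calc _ = (σ.Om P l).expect (fun x =>
          (∏ e ∈ S, if σ.Act P phi c1 l e x then (1 / 2 : ℝ) else 1) *
            (if σ.Act P phi c1 l i x then (1 / 2 : ℝ) else 1)) :=
          Finset.expect_congr rfl (fun x _ => mul_comm _ _)
      _ = _ := key
      _ ≤ (σ.Om P l).expect (fun x => c *
          ∏ e ∈ S, if σ.Act P phi c1 l e x then (1 / 2 : ℝ) else 1) := by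
          refine Finset.expect_le_expect (fun x hx => ?_)
          rw [mul_comm c]
          refine mul_le_mul_of_nonneg_left ?_
            (Finset.prod_nonneg (fun e _ => by split_ifs <;> norm_num))
          have ha := σ.act_ge P phi hθ hV hS hT hε0 hε hεk hi hx
          set W := Fintype.piFinset
            (fun κ => fib (σ.Ht (σ.past Seq i)) (cset P σ.Y l κ) (x κ)) with hW
          have hWne : W.Nonempty :=
            ⟨x, (σ.oseqb_class P (σ.past Seq i) hx).1 ⟨hx, rfl⟩⟩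
          have e1 : W.expect (fun y => if σ.Act P phi c1 l i y then (1 / 2 : ℝ) else 1) =
              1 - pr W (σ.Act P phi c1 l i) / 2 := by
            unfold pr
            rw [Finset.expect_div, ← Finset.expect_const hWne (1 : ℝ),
              ← Finset.expect_sub_distrib]
            refine Finset.expect_congr rfl (fun y _ => ?_)
            simp only [Finset.expect_const hWne]
            split_ifs <;> norm_num
          refine le_trans (le_of_eq (Finset.expect_congr ?_ (fun _ _ => rfl))) (e1.le.trans ?_)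
          · ext y
            exact (@Finset.mem_filter _ _ (fun _ => Classical.propDecidable _) _ _).trans
              (σ.oseqb_class P (σ.past Seq i) hx)
          · rw [hc]
            nlinarith
      _ = c * (σ.Om P l).expect (fun x =>
          ∏ e ∈ S, if σ.Act P phi c1 l e x then (1 / 2 : ℝ) else 1) := by
          rw [Finset.mul_expect]
      _ ≤ _ := mul_le_mul_of_nonneg_left ih' hc0

theorem seq_prod_le (hθ : ThB p m c1 θ) (hV : ∀ v : V, m • v = 0) (hS : σ.SeqOK Seq)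
    (hT : σ.Typ P phi Seq θ ε μ c1 C' l) (hε0 : 0 ≤ ε) (hε : ε ≤ 1 / 3)
    (hεk : 4 * p ^ 2 * k * ε ≤ 1) :
    (σ.Om P l).expect
      (fun x => (1 / 2 : ℝ) ^ (Seq.filter (fun i => σ.Act P phi c1 l i x)).card) ≤
      Real.exp (-μ / 8 +
        Seq.card * (6 * Fintype.card (Cp k j) * ε + 2 * σ.M4 * piK p k ^ 2)) := by
  have hδ : (0 : ℝ) ≤ 6 * Fintype.card (Cp k j) * ε + 2 * σ.M4 * piK p k ^ 2 := by positivity
  have h1 := σ.oseqb_prod P phi hθ hV hS hT hε0 hε hεk Seq (Finset.Subset.refl _)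
  rw [Finset.prod_mul_distrib, Finset.prod_const] at h1
  have h2 := hT.t6
  have h3 : (1 + (6 * Fintype.card (Cp k j) * ε + 2 * σ.M4 * piK p k ^ 2)) ^ Seq.card ≤
      Real.exp (Seq.card * (6 * Fintype.card (Cp k j) * ε + 2 * σ.M4 * piK p k ^ 2)) := by
    rw [Real.exp_nat_mul]
    exact pow_le_pow_left₀ (by linarith) (by
      linarith [Real.add_one_le_exp
        (6 * Fintype.card (Cp k j) * ε + 2 * σ.M4 * piK p k ^ 2)]) _
  rw [Real.exp_add]
  refine le_trans (le_of_eq ?_) (h1.trans (mul_le_mul h2 h3 (by positivity) (Real.exp_pos _).le))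
  refine Finset.expect_congr rfl (fun x _ => ?_)
  rw [← Finset.prod_filter, Finset.prod_const]

end Ext

end Pool.Agent.P.MP_85fe51_lc.OD
end

-- part Pool.Agent.P.MP_85fe51_lc.OCs
section

set_option autoImplicit false

namespace Pool.Agent.P.MP_85fe51_lc.OD

open Finset
open scoped Classical

section
variable {A Ω : Type} {k : ℕ} {ab : Fin k → A}

theorem ocs_mix_pos (hab : Function.Injective ab) (ω : A ⊕ Fin k → Ω) {ε : Fin k → Bool}
    {b : Fin k} (h : ε b = true) : mix ab ω ε (ab b) = ω (Sum.inr b) := by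
  have h' : ∃ b', ab b' = ab b ∧ ε b' = true := ⟨b, rfl, h⟩
  unfold mix
  rw [dif_pos h', hab h'.choose_spec.1]

theorem ocs_mix_neg (ω : A ⊕ Fin k → Ω) {ε : Fin k → Bool} {a : A}
    (h : ¬ ∃ b, ab b = a ∧ ε b = true) : mix ab ω ε a = ω (Sum.inl a) := by
  unfold mix
  rw [dif_neg h]

/-- the switch vector of a set of batches. -/
def ocsE (S : Finset (Fin k)) : Fin k → Bool := fun b => decide (b ∈ S)

theorem ocsE_true {S : Finset (Fin k)} {b : Fin k} : ocsE S b = true ↔ b ∈ S := by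
  simp [ocsE]

theorem ocs_sgn (S : Finset (Fin k)) : sgn (ocsE S) = (-1) ^ S.card := by
  unfold sgn
  simp only [ocsE_true]
  rw [Finset.prod_ite_mem, Finset.univ_inter, Finset.prod_const]

variable [DecidableEq A]

theorem ocs_mix_inr (hab : Function.Injective ab) (ω : A ⊕ Fin k → Ω) {S : Finset (Fin k)}
    {b : Fin k} (hb : b ∉ S) (y : Ω) :
    mix ab (Function.update ω (Sum.inr b) y) (ocsE S) = mix ab ω (ocsE S) := by
  funext a
  by_cases h : ∃ b', ab b' = a ∧ ocsE S b' = true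
  · obtain ⟨b', rfl, h'⟩ := h
    rw [ocs_mix_pos hab _ h', ocs_mix_pos hab _ h', Function.update_of_ne]
    intro e
    exact hb (Sum.inr.inj e ▸ ocsE_true.mp h')
  · rw [ocs_mix_neg _ h, ocs_mix_neg _ h, Function.update_of_ne Sum.inl_ne_inr]

theorem ocs_mix_insert (hab : Function.Injective ab) (ω : A ⊕ Fin k → Ω) {S : Finset (Fin k)}
    {b : Fin k} (hb : b ∉ S) :
    mix ab ω (ocsE (insert b S)) =
      mix ab (Function.update ω (Sum.inl (ab b)) (ω (Sum.inr b))) (ocsE S) := by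
  funext a
  by_cases ha : a = ab b
  · subst ha
    rw [ocs_mix_pos hab _ (ocsE_true.mpr (mem_insert_self b S)), ocs_mix_neg,
      Function.update_self]
    rintro ⟨b', e, h'⟩
    exact hb (hab e ▸ ocsE_true.mp h')
  · by_cases h : ∃ b', ab b' = a ∧ ocsE S b' = true
    · obtain ⟨b', rfl, h'⟩ := h
      rw [ocs_mix_pos hab _ h',
        ocs_mix_pos hab _ (ocsE_true.mpr (mem_insert_of_mem (ocsE_true.mp h'))),
        Function.update_of_ne Sum.inr_ne_inl]
    · rw [ocs_mix_neg _ h, ocs_mix_neg, Function.update_of_ne (fun e => ha (Sum.inl.inj e))]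
      rintro ⟨b', e, h'⟩
      rcases mem_insert.mp (ocsE_true.mp h') with rfl | h''
      · exact ha e.symm
      · exact h ⟨b', e, ocsE_true.mpr h''⟩

end

theorem ocs_sq {Ω : Type} (s : Finset Ω) (g : Ω → ℂ) :
    ‖s.expect g‖ ^ 2 ≤ ‖s.expect (fun x => g x * (starRingEnd ℂ) (g x))‖ := by
  rcases s.eq_empty_or_nonempty with rfl | hs
  · simp
  have h1 : ‖s.expect g‖ ≤ s.expect (fun x => ‖g x‖ * 1) := by
    simpa using RCLike.norm_expect_le (K := ℂ) (s := s) (f := g)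
  have h2 := Finset.expect_mul_sq_le_sq_mul_sq s (fun x => ‖g x‖) (fun _ => (1 : ℝ))
  have h3 : s.expect (fun x => g x * (starRingEnd ℂ) (g x)) =
      ((s.expect (fun x => ‖g x‖ ^ 2) : ℝ) : ℂ) := by
    rw [Complex.ofReal_expect]
    refine Finset.expect_congr rfl fun x _ => ?_
    rw [Complex.mul_conj, Complex.normSq_eq_norm_sq]
  rw [h3, Complex.norm_real]
  simp only [one_pow, Finset.expect_const hs, mul_one] at h1 h2
  calc ‖s.expect g‖ ^ 2 ≤ (s.expect (fun x => ‖g x‖)) ^ 2 :=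
        pow_le_pow_left₀ (norm_nonneg _) h1 2
    _ ≤ s.expect (fun x => ‖g x‖ ^ 2) := h2
    _ ≤ _ := le_abs_self _

theorem ocs_conj {Ω : Type} (s : Finset Ω) (g : Ω → ℂ) :
    (starRingEnd ℂ) (s.expect g) = s.expect (fun x => (starRingEnd ℂ) (g x)) := by
  rw [Finset.expect_eq_sum_div_card, Finset.expect_eq_sum_div_card, map_div₀, map_sum,
    map_natCast]

/-- one Cauchy-Schwarz step. -/
theorem ocs_step {Ω κ : Type} [Fintype κ] [DecidableEq κ] (K : κ → Finset Ω) {u v : κ}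
    (huv : u ≠ v) (hK : K v = K u) (F : (κ → Ω) → ℂ)
    (hF : ∀ ω y, F (Function.update ω v y) = F ω) :
    ‖(Fintype.piFinset K).expect F‖ ^ 2 ≤
      ‖(Fintype.piFinset K).expect
        (fun ω => F ω * (starRingEnd ℂ) (F (Function.update ω u (ω v))))‖ := by
  set g : (κ → Ω) → ℂ := fun ω => (K u).expect (fun y => F (Function.update ω u y)) with hg
  have h1 : (Fintype.piFinset K).expect
      (fun ω => F ω * (starRingEnd ℂ) (F (Function.update ω u (ω v)))) =
      (Fintype.piFinset K).expect (fun ω => F ω * (starRingEnd ℂ) (g ω)) := by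
    rw [expect_update K v]
    refine Finset.expect_congr rfl fun ω _ => ?_
    rw [hg, ocs_conj, Finset.mul_expect, hK]
    refine Finset.expect_congr rfl fun y _ => ?_
    rw [hF, Function.update_self, Function.update_comm huv.symm, hF]
  have h2 : (Fintype.piFinset K).expect (fun ω => F ω * (starRingEnd ℂ) (g ω)) =
      (Fintype.piFinset K).expect (fun ω => g ω * (starRingEnd ℂ) (g ω)) := by
    rw [expect_update K u]
    refine Finset.expect_congr rfl fun ω _ => ?_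
    have : ∀ y, g (Function.update ω u y) = g ω := fun y => by
      simp only [hg, Function.update_idem]
    simp only [this]
    rw [← Finset.expect_mul]
  rw [h1, h2, expect_update K u F]
  exact ocs_sq _ g

theorem ocs_marg {A B Ω : Type} [Fintype A] [DecidableEq A] [Fintype B] [DecidableEq B]
    (K : A ⊕ B → Finset Ω) (hK : ∀ b, (K (Sum.inr b)).Nonempty) (F : (A → Ω) → ℂ) :
    (Fintype.piFinset K).expect (fun ω => F (fun a => ω (Sum.inl a))) =
      (Fintype.piFinset (fun a => K (Sum.inl a))).expect F := by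
  have h : (Fintype.piFinset K).expect (fun ω => F (fun a => ω (Sum.inl a))) =
      (Fintype.piFinset (fun a => K (Sum.inl a)) ×ˢ
        Fintype.piFinset (fun b => K (Sum.inr b))).expect (fun x => F x.1) := by
    refine Finset.expect_equiv (Equiv.sumArrowEquivProdArrow A B Ω) (fun ω => ?_) (fun ω _ => rfl)
    simp only [Fintype.mem_piFinset, Finset.mem_product, Sum.forall]
    rfl
  rw [h, Finset.expect_product]
  exact Finset.expect_congr rfl fun x _ =>
    Finset.expect_const (Fintype.piFinset_nonempty.mpr hK) (F x)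

/-- box Cauchy-Schwarz inequality. -/
theorem box_cs {A Ω W : Type} [Fintype A] [DecidableEq A] [AddCommGroup W] [Fintype W]
    (Ψ : AddChar W ℂ) {k : ℕ} (ab : Fin k → A) (hab : Function.Injective ab) (K : A → Finset Ω)
    (G : (A → Ω) → W) :
    ‖(Fintype.piFinset K).expect (fun x => Ψ (G x))‖ ^ (2 ^ k) ≤
      ‖(Fintype.piFinset (fun κ : A ⊕ Fin k => K (Sum.elim id ab κ))).expect
        (fun ω => Ψ (∑ ε : Fin k → Bool, sgn ε • G (mix ab ω ε)))‖ := by
  by_cases hne : ¬ ∀ a, (K a).Nonempty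
  · have : Fintype.piFinset K = ∅ := by
      rw [← Finset.not_nonempty_iff_eq_empty, Fintype.piFinset_nonempty]
      exact hne
    rw [this, Finset.expect_empty, norm_zero, zero_pow (by positivity)]
    exact norm_nonneg _
  rw [not_not] at hne
  set K' : A ⊕ Fin k → Finset Ω := fun κ => K (Sum.elim id ab κ) with hK'
  set GS : Finset (Fin k) → (A ⊕ Fin k → Ω) → W :=
    fun S ω => ∑ U ∈ S.powerset, sgn (ocsE U) • G (mix ab ω (ocsE U)) with hGS
  have main : ∀ S : Finset (Fin k),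
      ‖(Fintype.piFinset K).expect (fun x => Ψ (G x))‖ ^ (2 ^ S.card) ≤
        ‖(Fintype.piFinset K').expect (fun ω => Ψ (GS S ω))‖ := by
    intro S
    induction S using Finset.induction_on with
    | empty =>
      have e : ∀ ω, GS ∅ ω = G (fun a => ω (Sum.inl a)) := fun ω => by
        simp only [hGS, Finset.powerset_empty, Finset.sum_singleton, ocs_sgn, Finset.card_empty,
          pow_zero, one_smul]
        congr 1
        funext a
        refine ocs_mix_neg _ ?_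
        rintro ⟨b, -, h⟩
        exact Finset.notMem_empty b (ocsE_true.mp h)
      simp only [e, Finset.card_empty, pow_zero, pow_one]
      rw [ocs_marg K' (fun b => hne _) (fun x => Ψ (G x))]
      exact le_rfl
    | insert b S hb ih =>
      have hv : ∀ ω y, GS S (Function.update ω (Sum.inr b) y) = GS S ω := fun ω y =>
        Finset.sum_congr rfl fun U hU => by
          rw [ocs_mix_inr hab ω (fun h => hb (mem_powerset.mp hU h))]
      have e : ∀ ω, GS (insert b S) ω =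
          GS S ω + -GS S (Function.update ω (Sum.inl (ab b)) (ω (Sum.inr b))) := fun ω => by
        simp only [hGS]
        rw [Finset.sum_powerset_insert hb, ← Finset.sum_neg_distrib]
        congr 1
        refine Finset.sum_congr rfl fun U hU => ?_
        have hU' : b ∉ U := fun h => hb (mem_powerset.mp hU h)
        rw [ocs_mix_insert hab ω hU', ocs_sgn, ocs_sgn, Finset.card_insert_of_notMem hU',
          pow_succ, mul_neg_one, neg_smul]
      have st := ocs_step K' (u := Sum.inl (ab b)) (v := Sum.inr b) Sum.inl_ne_inr rfl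
        (fun ω => Ψ (GS S ω)) (fun ω y => by rw [hv])
      simp only [e, AddChar.map_add_eq_mul, AddChar.map_neg_eq_conj]
      rw [Finset.card_insert_of_notMem hb, pow_succ, pow_mul]
      exact (pow_le_pow_left₀ (by positivity) ih 2).trans st
  have fin := main univ
  rw [Finset.card_univ, Fintype.card_fin] at fin
  refine fin.trans (le_of_eq ?_)
  congr 1
  refine Finset.expect_congr rfl fun ω _ => ?_
  congr 1
  refine Finset.sum_nbij' ocsE (fun ε => univ.filter (fun b => ε b = true)) (fun _ _ => mem_univ _)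
    (fun _ _ => mem_powerset.mpr (subset_univ _)) (fun U _ => ?_) (fun ε _ => ?_) (fun _ _ => rfl)
  · ext b
    simp [ocsE]
  · funext b
    simp [ocsE]

variable {p : ℕ} [Fact p.Prime] {X : Type} [Fintype X] [DecidableEq X] {T : Type} [Fintype T]
  {k j : ℕ}

theorem Ext.bias_DS (σ : Ext p X T) (P : Pat k j) (l : X → Lab k j) {V0 N : Type}
    [AddCommGroup V0] [Fintype V0] [AddCommGroup N] [Fintype N] (χ : AddChar (V0 × N) ℂ)
    (f0 : Finset X → V0) {c0 : ℕ} (hf : DL ⊥ (fun _ => True) (c0 + 1) univ f0) (hk : c0 < k)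
    (phi : T → ZMod p → N) :
    ‖(Fintype.piFinset (fun a => Ker σ.U (atomSet σ.Y l a))).expect
      (fun x => χ (f0 (P.g.biUnion x), Sf σ.lam phi (P.g.biUnion x)))‖ ^ (2 ^ k) ≤
      ‖(σ.Om P l).expect (fun x => χ (0, DS P σ.lam phi x))‖ := by
  refine (box_cs χ P.ab P.ab_inj (fun a => Ker σ.U (atomSet σ.Y l a))
    (fun x => (f0 (P.g.biUnion x), Sf σ.lam phi (P.g.biUnion x)))).trans (le_of_eq ?_)
  congr 1
  refine Finset.expect_congr rfl fun x hx => ?_
  have hs : ∀ κ, x κ ⊆ cset P σ.Y l κ := fun κ => (mem_Ker.mp (Fintype.mem_piFinset.mp hx κ)).1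
  congr 1
  simp only [biUnion_mix]
  refine Prod.ext ?_ ?_
  · rw [Prod.fst_sum]
    refine AddSubgroup.mem_bot.mp (DL_pairs (Nat.succ_le_of_lt hk) hf
      (fun b => atomSet σ.Y l (P.ab b)) (fun _ => subset_univ _)
      (fun b b' h => atomSet_disjoint _ _ (fun e => h (P.ab_inj e)))
      (fun b e => x (P.cp b e)) (fun b e => ?_) (P.Sg.biUnion (fun a => x (Sum.inl a)))
      (subset_univ _) (fun b => ?_))
    · have := hs (P.cp b e)
      rwa [cset, P.atm_cp] at this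
    · rw [Finset.disjoint_biUnion_left]
      intro a ha
      exact Finset.disjoint_of_subset_left (hs (Sum.inl a))
        (atomSet_disjoint _ _ (fun e : a = P.ab b => P.ab_not_mem_Sg b (e ▸ ha)))
  · rw [Prod.snd_sum]
    refine Finset.sum_congr rfl fun ε _ => ?_
    simp only [val_eq_dot P σ.Y l _ hs]
    rfl

theorem Ext.expect_inner (σ : Ext p X T) (P : Pat k j) (l : X → Lab k j) {V : Type}
    [AddCommGroup V] (ψ : AddChar V ℂ) (phi : T → ZMod p → V) :
    ‖(σ.Om P l).expect (fun x => ψ (DS P σ.lam phi x))‖ ≤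
      (σ.Om P l).expect (fun x => ‖σ.inner P phi ψ l x‖) := by
  have h : (σ.Om P l).expect (fun x => ψ (DS P σ.lam phi x)) =
      (σ.Om P l).expect (fun x => σ.inner P phi ψ l x) := by
    unfold Ext.Om
    rw [expect_update _ (Sum.inl P.a0), expect_update _ (Sum.inl P.a0) (fun x => σ.inner P phi ψ l x)]
    refine Finset.expect_congr rfl fun x _ => ?_
    rw [Ker_eq_fib, expect_fib_cond (H' := σ.U ⊔ co (subSet σ.Y l P.a0)ᶜ) le_sup_left]
    refine Finset.expect_congr rfl fun y _ => ?_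
    simp only [Ext.inner, Function.update_self, Function.update_idem]
    rfl
  rw [h]
  exact RCLike.norm_expect_le (K := ℂ)

end Pool.Agent.P.MP_85fe51_lc.OD
end

-- part Pool.Agent.P.MP_85fe51_lc.ORest
section

set_option autoImplicit false

namespace Pool.Agent.P.MP_85fe51_lc.OD

open Finset
open scoped Classical

/-- density restoring. -/
theorem restore {Ω T : Type} [Fintype T] (s : Finset Ω) (R : Ω → Finset T) (Fr : Finset T → Prop)
    (h0 : Fr ∅) {π : ℝ} (hπ0 : 0 < π) (hπ : 4 * π ≤ 1)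
    (hF : ∀ F, Fr F → pr s (fun x => F ⊆ R x) ≤ (2 * π) ^ F.card) (Bad : Ω → Prop) {v : ℕ}
    (hB : (1 / 2 : ℝ) ^ v ≤ pr s Bad) :
    ∃ G, Fr G ∧ G.card ≤ v ∧ (2 * π) ^ v ≤ pr s (fun x => Bad x ∧ G ⊆ R x) ∧
      ∀ F, Disjoint G F → Fr (G ∪ F) →
        pr (s.filter (fun x => Bad x ∧ G ⊆ R x)) (fun x => F ⊆ R x) ≤ (4 * π) ^ F.card := by
  have h4 : (0 : ℝ) < 4 * π := by linarith
  obtain ⟨G, hG, hmax⟩ := Finset.exists_max_image (univ.filter Fr)
    (fun G : Finset T => pr s (fun x => Bad x ∧ G ⊆ R x) / (4 * π) ^ G.card)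
    ⟨∅, by simp [h0]⟩
  have hGF : Fr G := (mem_filter.mp hG).2
  have hp : (0 : ℝ) < (4 * π) ^ G.card := pow_pos h4 _
  have h1 : (1 / 2 : ℝ) ^ v * (4 * π) ^ G.card ≤ pr s (fun x => Bad x ∧ G ⊆ R x) := by
    have h := hmax ∅ (by simp [h0])
    simp only [card_empty, pow_zero, div_one] at h
    have h2 : pr s Bad ≤ pr s (fun x => Bad x ∧ (∅ : Finset T) ⊆ R x) :=
      pr_mono s (fun x _ hx => ⟨hx, empty_subset _⟩)
    exact (le_div_iff₀ hp).mp (hB.trans (h2.trans h))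
  have h2 : pr s (fun x => Bad x ∧ G ⊆ R x) ≤ (1 / 2 : ℝ) ^ G.card * (4 * π) ^ G.card := by
    have h3 : pr s (fun x => Bad x ∧ G ⊆ R x) ≤ pr s (fun x => G ⊆ R x) :=
      pr_mono s (fun x _ hx => hx.2)
    have h5 : (1 / 2 : ℝ) ^ G.card * (4 * π) ^ G.card = (2 * π) ^ G.card := by
      rw [← mul_pow]
      congr 1
      ring
    rw [h5]
    exact h3.trans (hF G hGF)
  have hcard : G.card ≤ v := by
    have h3 : (1 / 2 : ℝ) ^ v ≤ (1 / 2 : ℝ) ^ G.card := le_of_mul_le_mul_right (h1.trans h2) hp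
    exact (pow_le_pow_iff_right_of_lt_one₀ (by norm_num) (by norm_num)).mp h3
  have h6 : (2 * π) ^ v ≤ pr s (fun x => Bad x ∧ G ⊆ R x) := by
    have h5 : (2 * π) ^ v = (1 / 2 : ℝ) ^ v * (4 * π) ^ v := by
      rw [← mul_pow]
      congr 1
      ring
    rw [h5]
    refine le_trans ?_ h1
    exact mul_le_mul_of_nonneg_left (pow_le_pow_of_le_one h4.le hπ hcard) (by positivity)
  refine ⟨G, hGF, hcard, h6, ?_⟩
  intro F hd hU
  have hpos : 0 < pr s (fun x => Bad x ∧ G ⊆ R x) :=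
    lt_of_lt_of_le (pow_pos (by linarith) _) h6
  have h := hmax (G ∪ F) (mem_filter.mpr ⟨mem_univ _, hU⟩)
  rw [card_union_of_disjoint hd, pow_add, div_le_div_iff₀ (mul_pos hp (pow_pos h4 _)) hp] at h
  have h7 : pr s (fun x => (Bad x ∧ G ⊆ R x) ∧ F ⊆ R x) ≤
      pr s (fun x => Bad x ∧ G ∪ F ⊆ R x) :=
    pr_mono s (fun x _ hx => ⟨hx.1.1, union_subset hx.1.2 hx.2⟩)
  have h8 := pr_filter s (fun x => Bad x ∧ G ⊆ R x) (fun x => F ⊆ R x)
  rw [h8] at h7
  have h9 : pr s (fun x => Bad x ∧ G ∪ F ⊆ R x) ≤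
      pr s (fun x => Bad x ∧ G ⊆ R x) * (4 * π) ^ F.card := by
    refine le_of_mul_le_mul_right (h.trans (le_of_eq ?_)) hp
    ring
  have h10 := le_of_mul_le_mul_left (h7.trans h9) hpos
  have h11 : ∀ (d1 d2 : DecidablePred (fun x => Bad x ∧ G ⊆ R x)),
      @Finset.filter _ _ d1 s = @Finset.filter _ _ d2 s := fun d1 d2 => by
    congr
  rw [h11 _ _] at h10
  exact h10

theorem pr_large {Ω : Type} (s : Finset Ω) (f : Ω → ℝ) (hf : ∀ x ∈ s, f x ≤ 1) {b : ℝ}
    (hb : 0 ≤ b) (h : 2 * b ≤ s.expect f) : b ≤ pr s (fun x => b ≤ f x) := by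
  rcases s.eq_empty_or_nonempty with hs | hs
  · subst hs
    rw [expect_empty] at h
    have := pr_nonneg (∅ : Finset Ω) (fun x => b ≤ f x)
    linarith
  · have h1 : s.expect f ≤ s.expect (fun x => b + if b ≤ f x then (1 : ℝ) else 0) := by
      refine expect_le_expect (fun x hx => ?_)
      by_cases hc : b ≤ f x
      · rw [if_pos hc]
        linarith [hf x hx]
      · rw [if_neg hc]
        linarith [not_le.mp hc]
    rw [expect_add_distrib, expect_const hs] at h1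
    have h2 : pr s (fun x => b ≤ f x) = s.expect (fun x => if b ≤ f x then (1 : ℝ) else 0) := by
      unfold pr
      refine expect_congr rfl (fun x _ => ?_)
      by_cases hc : b ≤ f x
      · simp only [if_pos hc]
      · simp only [if_neg hc]
    rw [h2]
    linarith

/-- the final counting of the bias lemma. -/
theorem count_contra {Ω : Type} (s : Finset Ω) (Bs : Ω → Prop) (nA nb : Ω → ℕ) {P0 y y1 μ : ℝ}
    (hP0 : 0 < P0) (hP : P0 ≤ pr s Bs) (hy : 0 < y)
    (hb : (s.filter Bs).expect (fun x => (nb x : ℝ)) ≤ y / 2)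
    (hA : ∀ x ∈ s, Bs x → (nA x : ℝ) ≤ nb x + y1)
    (hE : s.expect (fun x => (1 / 2 : ℝ) ^ nA x) ≤ Real.exp (-μ)) (hy1 : 0 ≤ y1) :
    P0 / 2 ≤ Real.exp (y + y1 - μ) := by
  have hne : (s.filter Bs).Nonempty := by
    rcases (s.filter Bs).eq_empty_or_nonempty with h | h
    · exfalso
      rw [pr_eq_card, h] at hP
      simp at hP
      linarith
    · exact h
  have h1 := pr_markov (s.filter Bs) (fun x => (nb x : ℝ)) (fun x _ => Nat.cast_nonneg _) y
  have h2 : pr (s.filter Bs) (fun x => y ≤ (nb x : ℝ)) ≤ 1 / 2 := by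
    refine le_of_mul_le_mul_left (h1.trans (hb.trans (le_of_eq ?_))) hy
    ring
  have h3 := pr_not (s.filter Bs) hne (fun x => y ≤ (nb x : ℝ))
  have h4 := pr_filter s Bs (fun x => ¬ y ≤ (nb x : ℝ))
  have h5 : P0 / 2 ≤ pr s (fun x => Bs x ∧ ¬ y ≤ (nb x : ℝ)) := by
    rw [h4, h3]
    have : P0 * (1 / 2) ≤ pr s Bs * (1 - pr (s.filter Bs) (fun x => y ≤ (nb x : ℝ))) :=
      mul_le_mul hP (by linarith) (by norm_num) (pr_nonneg _ _)
    linarith
  have h6 := pr_markov s (fun x => (1 / 2 : ℝ) ^ nA x) (fun x _ => by positivity)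
    (Real.exp (-(y + y1)))
  have he : Real.exp (-1) ≤ 1 / 2 := by
    rw [Real.exp_neg, one_div]
    refine inv_anti₀ (by norm_num) ?_
    have := Real.add_one_le_exp 1
    linarith
  have h7 : pr s (fun x => Bs x ∧ ¬ y ≤ (nb x : ℝ)) ≤
      pr s (fun x => Real.exp (-(y + y1)) ≤ (1 / 2 : ℝ) ^ nA x) := by
    refine pr_mono s (fun x hx hh => ?_)
    have a1 := hA x hx hh.1
    have a2 := not_le.mp hh.2
    calc Real.exp (-(y + y1)) ≤ Real.exp ((nA x : ℝ) * (-1)) :=
          Real.exp_le_exp.mpr (by linarith)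
      _ = Real.exp (-1) ^ nA x := Real.exp_nat_mul _ _
      _ ≤ (1 / 2 : ℝ) ^ nA x := pow_le_pow_left₀ (Real.exp_pos _).le he _
  have h8 : Real.exp (-(y + y1)) * (P0 / 2) ≤ Real.exp (-μ) :=
    (mul_le_mul_of_nonneg_left (h5.trans h7) (Real.exp_pos _).le).trans (h6.trans hE)
  have h9 : Real.exp (-μ) = Real.exp (-(y + y1)) * Real.exp (y + y1 - μ) := by
    rw [← Real.exp_add]
    congr 1
    ring
  rw [h9] at h8
  exact le_of_mul_le_mul_left h8 (Real.exp_pos _)

theorem orest_sum_sub {G : Type} [AddCommGroup G] [Fintype G] (Z : AddSubgroup G)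
    (χ : AddChar G ℂ) :
    ∑ z : Z, χ (z : G) = if ∀ z ∈ Z, χ z = 1 then (Nat.card Z : ℂ) else 0 := by
  have h := AddChar.sum_eq_ite (χ.compAddMonoidHom Z.subtype)
  have h1 : (χ.compAddMonoidHom Z.subtype = 0) ↔ ∀ z ∈ Z, χ z = 1 := by
    constructor
    · intro hh z hz
      have := DFunLike.congr_fun hh ⟨z, hz⟩
      simpa using this
    · intro hh
      ext z
      simpa using hh z z.2
  by_cases hc : ∀ z ∈ Z, χ z = 1
  · rw [if_pos hc, Nat.card_eq_fintype_card]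
    rw [if_pos (h1.mpr hc)] at h
    simpa using h
  · rw [if_neg hc]
    rw [if_neg (fun hh => hc (h1.mp hh))] at h
    simpa using h

theorem orest_triv {G : Type} [AddCommGroup G] [Fintype G] (Z : AddSubgroup G) (v : G) :
    (Nat.card Z : ℂ) * ∑ χ : AddChar G ℂ, (if ∀ z ∈ Z, χ z = 1 then χ v else 0) =
      if v ∈ Z then (Fintype.card G : ℂ) else 0 := by
  have h1 : (Nat.card Z : ℂ) * ∑ χ : AddChar G ℂ, (if ∀ z ∈ Z, χ z = 1 then χ v else 0) =
      ∑ χ : AddChar G ℂ, ∑ z : Z, χ ((z : G) + v) := by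
    rw [mul_sum]
    refine sum_congr rfl (fun χ _ => ?_)
    simp only [AddChar.map_add_eq_mul]
    rw [← sum_mul, orest_sum_sub]
    by_cases hc : ∀ z ∈ Z, χ z = 1
    · rw [if_pos hc, if_pos hc]
    · rw [if_neg hc, if_neg hc, mul_zero, zero_mul]
  rw [h1, sum_comm]
  simp only [AddChar.sum_apply_eq_ite]
  by_cases hv : v ∈ Z
  · rw [if_pos hv, sum_eq_single (⟨-v, Z.neg_mem hv⟩ : Z)]
    · simp
    · intro z _ hz
      rw [if_neg]
      intro h
      exact hz (Subtype.ext (eq_neg_of_add_eq_zero_left h))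
    · intro h
      exact absurd (mem_univ _) h
  · rw [if_neg hv]
    refine sum_eq_zero (fun z _ => ?_)
    rw [if_neg]
    intro h
    refine hv ?_
    rw [eq_neg_of_add_eq_zero_right h]
    exact Z.neg_mem z.2

theorem orest_point {G : Type} [AddCommGroup G] [Fintype G] (Z : AddSubgroup G) (v : G) :
    (((if v ∈ Z then (1 : ℝ) else 0) / Nat.card Z - (if v = 0 then (1 : ℝ) else 0) : ℝ) : ℂ) =
      -(Fintype.card G : ℂ)⁻¹ *
        ∑ χ ∈ univ.filter (fun χ : AddChar G ℂ => ¬ ∀ z ∈ Z, χ z = 1), χ v := by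
  have hZ : (Nat.card Z : ℂ) ≠ 0 := Nat.cast_ne_zero.mpr Nat.card_pos.ne'
  have hG : (Fintype.card G : ℂ) ≠ 0 := Nat.cast_ne_zero.mpr Fintype.card_pos.ne'
  have h1 := orest_triv Z v
  have h2 := AddChar.sum_apply_eq_ite v
  have h3 : ∑ χ ∈ univ.filter (fun χ : AddChar G ℂ => ¬ ∀ z ∈ Z, χ z = 1), χ v =
      ∑ χ : AddChar G ℂ, χ v - ∑ χ : AddChar G ℂ, (if ∀ z ∈ Z, χ z = 1 then χ v else 0) := by
    rw [sum_filter, ← sum_sub_distrib]
    refine sum_congr rfl (fun χ _ => ?_)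
    by_cases hc : ∀ z ∈ Z, χ z = 1
    · rw [if_neg (not_not.mpr hc), if_pos hc, sub_self]
    · rw [if_pos hc, if_neg hc, sub_zero]
  have h4 : ∑ χ : AddChar G ℂ, (if ∀ z ∈ Z, χ z = 1 then χ v else 0) =
      (if v ∈ Z then (Fintype.card G : ℂ) else 0) / Nat.card Z := by
    rw [eq_div_iff hZ, mul_comm]
    exact h1
  rw [h3, h2, h4]
  by_cases hv : v ∈ Z <;> by_cases h0 : v = 0 <;>
    simp only [hv, h0, if_true, if_false, Z.zero_mem] <;> push_cast <;> field_simp <;> ring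

/-- a character that is nontrivial on `Z` and biased. -/
theorem exists_char {G : Type} [AddCommGroup G] [Fintype G] (Z : AddSubgroup G) {ι Ω : Type}
    [Fintype ι] (c : ι → ℝ) (hc0 : ∀ l, 0 ≤ c l) (s : ι → Finset Ω) (v : ι → Ω → G) {β δ : ℝ}
    {n : ℕ} (hn : Nat.card Z ≤ n) (hβ : 0 ≤ β) (hδ : 0 ≤ δ)
    (h1 : β ≤ ∑ l, c l * pr (s l) (fun x => v l x ∈ Z))
    (h0 : ∑ l, c l * pr (s l) (fun x => v l x = 0) + δ < β / n) :
    ∃ χ : AddChar G ℂ, (∃ z ∈ Z, χ z ≠ 1) ∧
      δ ≤ ∑ l, c l * ‖(s l).expect (fun x => χ (v l x))‖ := by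
  by_contra hcon
  have hlt : ∀ χ ∈ univ.filter (fun χ : AddChar G ℂ => ¬ ∀ z ∈ Z, χ z = 1),
      ∑ l, c l * ‖(s l).expect (fun x => χ (v l x))‖ ≤ δ := by
    intro χ hχ
    by_contra hh
    refine hcon ⟨χ, ?_, (not_le.mp hh).le⟩
    have h2 := (mem_filter.mp hχ).2
    by_contra h3
    exact h2 (fun z hz => by
      by_contra h4
      exact h3 ⟨z, hz, h4⟩)
  set N := univ.filter (fun χ : AddChar G ℂ => ¬ ∀ z ∈ Z, χ z = 1) with hN
  have hZ : (0 : ℝ) < Nat.card Z := Nat.cast_pos.mpr Nat.card_pos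
  have hG : (0 : ℝ) < Fintype.card G := Nat.cast_pos.mpr Fintype.card_pos
  have hl : ∀ l, pr (s l) (fun x => v l x ∈ Z) / Nat.card Z - pr (s l) (fun x => v l x = 0) ≤
      (Fintype.card G : ℝ)⁻¹ * ∑ χ ∈ N, ‖(s l).expect (fun x => χ (v l x))‖ := by
    intro l
    have e1 : pr (s l) (fun x => v l x ∈ Z) / Nat.card Z - pr (s l) (fun x => v l x = 0) =
        (s l).expect (fun x => (if v l x ∈ Z then (1 : ℝ) else 0) / Nat.card Z -
          (if v l x = 0 then (1 : ℝ) else 0)) := by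
      unfold pr
      rw [expect_sub_distrib, expect_div]
    have e2 : (((s l).expect (fun x => (if v l x ∈ Z then (1 : ℝ) else 0) / Nat.card Z -
          (if v l x = 0 then (1 : ℝ) else 0)) : ℝ) : ℂ) =
        -(Fintype.card G : ℂ)⁻¹ * ∑ χ ∈ N, (s l).expect (fun x => χ (v l x)) := by
      rw [Complex.ofReal_expect, ← expect_sum_comm, mul_expect]
      exact expect_congr rfl (fun x _ => orest_point Z (v l x))
    rw [e1]
    refine (le_abs_self _).trans ?_
    rw [← Real.norm_eq_abs, ← Complex.norm_real, e2, norm_mul, norm_neg, norm_inv,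
      Complex.norm_natCast]
    exact mul_le_mul_of_nonneg_left (norm_sum_le _ _) (inv_nonneg.mpr hG.le)
  have hsum : (∑ l, c l * pr (s l) (fun x => v l x ∈ Z)) / Nat.card Z -
      ∑ l, c l * pr (s l) (fun x => v l x = 0) ≤
      (Fintype.card G : ℝ)⁻¹ * ∑ χ ∈ N, ∑ l, c l * ‖(s l).expect (fun x => χ (v l x))‖ := by
    rw [sum_comm, mul_sum, sum_div, ← sum_sub_distrib]
    refine sum_le_sum (fun l _ => ?_)
    have := mul_le_mul_of_nonneg_left (hl l) (hc0 l)
    rw [← mul_sum]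
    calc _ = c l * (pr (s l) (fun x => v l x ∈ Z) / Nat.card Z -
          pr (s l) (fun x => v l x = 0)) := by ring
      _ ≤ _ := this
      _ = _ := by ring
  have hNc : (N.card : ℝ) ≤ Fintype.card G := by
    have : N.card ≤ Fintype.card (AddChar G ℂ) := card_le_univ _
    rw [AddChar.card_eq] at this
    exact_mod_cast this
  have hb : (Fintype.card G : ℝ)⁻¹ * ∑ χ ∈ N, ∑ l, c l * ‖(s l).expect (fun x => χ (v l x))‖
      ≤ δ := by
    have a1 : ∑ χ ∈ N, ∑ l, c l * ‖(s l).expect (fun x => χ (v l x))‖ ≤ N.card * δ := by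
      have := sum_le_card_nsmul N _ δ hlt
      rwa [nsmul_eq_mul] at this
    rw [inv_mul_le_iff₀ hG]
    exact a1.trans (mul_le_mul_of_nonneg_right hNc hδ)
  have hq : β / n ≤ (∑ l, c l * pr (s l) (fun x => v l x ∈ Z)) / Nat.card Z :=
    (div_le_div_of_nonneg_left hβ hZ (by exact_mod_cast hn)).trans
      (div_le_div_of_nonneg_right h1 hZ.le)
  linarith

theorem faithful_quot {N : Type} [AddCommGroup N] [Fintype N] (ψ : AddChar N ℂ) :
    ∃ (V : Type) (_ : AddCommGroup V) (_ : Fintype V) (q : N →+ V) (ψ' : AddChar V ℂ),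
      (∀ v : V, Fintype.card N • v = 0) ∧ (∀ n, ψ' (q n) = ψ n) ∧ ∀ v, ψ' v = 1 → v = 0 := by
  let K : AddSubgroup N :=
    { carrier := {n | ψ n = 1}
      add_mem' := by
        intro a b ha hb
        have ha' : ψ a = 1 := ha
        have hb' : ψ b = 1 := hb
        show ψ (a + b) = 1
        rw [AddChar.map_add_eq_mul, ha', hb', mul_one]
      zero_mem' := ψ.map_zero_eq_one
      neg_mem' := by
        intro a ha
        have ha' : ψ a = 1 := ha
        show ψ (-a) = 1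
        rw [AddChar.map_neg_eq_inv, ha', inv_one] }
  have hwd : ∀ a b : N, (QuotientAddGroup.leftRel K) a b → ψ a = ψ b := by
    intro a b hab
    have h1 : ψ (-a + b) = 1 := QuotientAddGroup.leftRel_apply.mp hab
    have h2 : ψ b = ψ a * ψ (-a + b) := by
      rw [← AddChar.map_add_eq_mul, add_neg_cancel_left]
    rw [h2, h1, mul_one]
  let ψ' : AddChar (N ⧸ K) ℂ :=
    { toFun := fun x => Quotient.liftOn' x ψ hwd
      map_zero_eq_one' := ψ.map_zero_eq_one
      map_add_eq_mul' := by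
        intro a b
        obtain ⟨a, rfl⟩ := QuotientAddGroup.mk_surjective a
        obtain ⟨b, rfl⟩ := QuotientAddGroup.mk_surjective b
        exact ψ.map_add_eq_mul a b }
  refine ⟨N ⧸ K, inferInstance, Fintype.ofFinite _, QuotientAddGroup.mk' K, ψ', ?_, ?_, ?_⟩
  · intro v
    obtain ⟨a, rfl⟩ := QuotientAddGroup.mk_surjective v
    rw [← QuotientAddGroup.mk_nsmul, card_nsmul_eq_zero]
    rfl
  · intro n
    rfl
  · intro v hv
    obtain ⟨a, rfl⟩ := QuotientAddGroup.mk_surjective v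
    exact (QuotientAddGroup.eq_zero_iff a).mpr hv

end Pool.Agent.P.MP_85fe51_lc.OD
end

-- part Pool.Agent.P.MP_85fe51_lc.OHit
section

set_option autoImplicit false

namespace Pool.Agent.P.MP_85fe51_lc.OD

open Finset
open scoped Classical

variable {p : ℕ} [Fact p.Prime] {X : Type} [Fintype X] [DecidableEq X] {T : Type} [Fintype T]

namespace Ext
variable (σ : Ext p X T)

/-- `Γ` with all terms whose margin it lowers. -/
noncomputable def cl (Γ : Finset T) : Finset T :=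
  Γ ∪ univ.filter
    (fun t => marg σ.CH (σ.U ⊔ spn σ.lam Γ) (σ.lam t) < marg σ.CH σ.U (σ.lam t))

noncomputable def Fam (a : Finset X) (C' : ℕ) (G : Finset T) (i : T) : Finset (Finset T) :=
  univ.filter (fun B => Disjoint B (σ.Mid i) ∧ σ.Hit a C' i (σ.U ⊔ spn σ.lam (σ.cl (G ∪ B))))

theorem card_cl (Γ : Finset T) : (σ.cl Γ).card ≤ (σ.K1 + 1) * Γ.card := by
  have h := σ.e2 Γ
  refine (card_union_le _ _).trans ?_
  rw [add_mul, one_mul, add_comm]
  exact Nat.add_le_add_right h _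

theorem cl_mono {Γ Γ' : Finset T} (h : Γ ⊆ Γ') : σ.cl Γ ⊆ σ.cl Γ' := by
  refine union_subset_union h fun t ht => ?_
  simp only [mem_filter, mem_univ, true_and] at ht ⊢
  exact (marg_anti _ (sup_le_sup_left (spn_mono _ h) _) _).trans_lt ht

theorem ohit_mem_cl {Γ : Finset T} (h : σ.Free Γ) {t : T} (ht : t ∈ Γ ∨ ¬ σ.Free (insert t Γ)) :
    t ∈ σ.cl Γ := by
  by_cases h1 : t ∈ Γ
  · exact mem_union_left _ h1
  · refine mem_union_right _ ?_
    simp only [mem_filter, mem_univ, true_and]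
    have h2 := ht.resolve_left h1
    rw [σ.free_insert_iff h h1] at h2
    exact lt_of_le_of_ne (marg_anti _ le_sup_left _) h2

theorem ohit_not_mem {G : Finset T} {i : T} (hi : ¬ σ.Moved G i) : i ∉ G := by
  intro h
  have h1 := σ.marg_unmoved hi
  have h2 : (σ.U ⊔ spn σ.lam G) ⊔ Submodule.span (ZMod p) {σ.lam i} = σ.U ⊔ spn σ.lam G := by
    refine sup_eq_left.2 ?_
    rw [Submodule.span_singleton_le_iff_mem]
    exact Submodule.mem_sup_right (mem_spn _ h)
  rw [marg, h2, Nat.sub_self] at h1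
  have := σ.one_le_CH
  omega

theorem ohit_free_insert {G : Finset T} (hG : σ.Free G) {i : T} (hi : i ∉ G)
    (h : marg σ.CH (σ.U ⊔ spn σ.lam G) (σ.lam i) = σ.CH) : σ.Free (insert i G) := by
  rw [σ.free_insert_iff hG hi, h]
  refine le_antisymm ?_ (marg_le _ _ _)
  exact h.symm.le.trans (marg_anti _ le_sup_left _)

/-- a largest free extension of `G` inside `W`. -/
theorem ohit_max {G : Finset T} (hG : σ.Free G) (W : Finset T) :
    ∃ F, F ⊆ W ∧ σ.Free (G ∪ F) ∧ W ⊆ σ.cl (G ∪ F) := by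
  obtain ⟨F, hF, hm⟩ := exists_max_image (W.powerset.filter (fun F => σ.Free (G ∪ F))) card
    ⟨∅, mem_filter.2 ⟨empty_mem_powerset _, by rwa [union_empty]⟩⟩
  rw [mem_filter, mem_powerset] at hF
  refine ⟨F, hF.1, hF.2, fun t ht => σ.ohit_mem_cl hF.2 ?_⟩
  by_cases h1 : t ∈ F
  · exact Or.inl (mem_union_right _ h1)
  · refine Or.inr fun h2 => ?_
    have h3 := hm (insert t F) (mem_filter.2 ⟨mem_powerset.2 (insert_subset ht hF.1),
      by rwa [union_insert]⟩)
    rw [card_insert_of_notMem h1] at h3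
    omega

variable {σ} {Seq : Finset T}

theorem SeqOK.costly_count (hS : σ.SeqOK Seq) {a : Finset X} (ha : a ⊆ σ.Y) {C' : ℕ} (hC : 1 ≤ C')
    (h5 : SafeOn a (2 * C') ((σ.U ⊔ spn σ.lam Seq).map (off σ.Yᶜ))) (G : Finset T) {q : ℝ}
    (hq : 0 ≤ q) {t : ℕ} (ht1 : 1 ≤ t) (ht : Fintype.card T < 2 ^ t) :
    ((Seq.filter (fun i => DA.Costly q 1 (σ.Fam a C' G i))).card : ℝ) ≤
      6 * C' * (σ.K1 + 1) * (G.card + 64 * t * q * Fintype.card T + 2) := by
  obtain ⟨R, -, h2, h3⟩ := DA.pp_select hq (univ : Finset T) t ht1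
    (Seq.filter (fun i => DA.Costly q 1 (σ.Fam a C' G i))) (σ.Fam a C' G)
    (fun i _ B _ => ⟨subset_univ _, (card_le_univ B).trans_lt ht⟩)
    (fun i hi => (mem_filter.1 hi).2)
  have h4 := hS.hit_count ha hC h5 (σ.cl (G ∪ R))
  have h6 := h3.trans (Nat.mul_le_mul_left 2 ((card_le_card (fun i hi => by
    simp only [mem_filter] at hi ⊢
    obtain ⟨⟨h7, -⟩, B, hB, hBR⟩ := hi
    refine ⟨h7, σ.hit_mono a C' i (sup_le_sup_left (spn_mono _ (σ.cl_mono
      (union_subset_union_right hBR))) _) ?_⟩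
    simp only [Fam, mem_filter] at hB
    exact hB.2.2)).trans h4))
  have h7 := (σ.card_cl (G ∪ R)).trans (Nat.mul_le_mul_left _ (card_union_le G R))
  have h8 := h6.trans (Nat.mul_le_mul_left 2 (Nat.mul_le_mul_left _ h7))
  have h9 : ((Seq.filter (fun i => DA.Costly q 1 (σ.Fam a C' G i))).card : ℝ) ≤
      2 * (3 * C' * ((σ.K1 + 1) * (G.card + R.card))) := by exact_mod_cast h8
  rw [card_univ] at h2
  refine h9.trans ?_
  have h10 : (0 : ℝ) ≤ 6 * C' * (σ.K1 + 1) := by positivity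
  have h11 := mul_le_mul_of_nonneg_left (show (G.card + R.card : ℝ) ≤
    G.card + 64 * t * q * Fintype.card T + 2 by linarith) h10
  linarith

theorem cheap_le {Ω : Type} (s : Finset Ω) (R : Ω → Finset T) {G : Finset T} (hG : σ.Free G)
    (hGR : ∀ x ∈ s, G ⊆ R x) {π q : ℝ} (hπ : 0 ≤ π) (hq : 4 * π ≤ q) (hq0 : 0 < q) (hq1 : q ≤ 1)
    (hF : ∀ F, Disjoint G F → σ.Free (G ∪ F) → pr s (fun x => F ⊆ R x) ≤ (4 * π) ^ F.card)
    (a : Finset X) (C' : ℕ) {i : T} (hi : ¬ σ.Moved G i)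
    (hc : ¬ DA.Costly q 1 (σ.Fam a C' G i)) :
    pr s (fun x => i ∈ R x ∧ (∀ t ∈ σ.Mid i, t ∉ σ.LCl i → t ∉ R x) ∧
      σ.Hit a C' i (σ.U ⊔ spn σ.lam (R x \ σ.LCl i))) ≤ (4 * π / q) ^ 2 := by
  simp only [DA.Costly, not_forall, not_le] at hc
  obtain ⟨U, -, hU2, hU3⟩ := hc
  have hiG := σ.ohit_not_mem hi
  have h0 : 0 ≤ 4 * π / q := by positivity
  have h1 : 4 * π / q ≤ 1 := (div_le_one hq0).2 hq
  let U1 := U.filter (fun H => Disjoint G H ∧ σ.Free (G ∪ H) ∧ Disjoint H (σ.Mid i))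
  have a1 : pr s (fun x => i ∈ R x ∧ (∀ t ∈ σ.Mid i, t ∉ σ.LCl i → t ∉ R x) ∧
      σ.Hit a C' i (σ.U ⊔ spn σ.lam (R x \ σ.LCl i))) ≤
      pr s (fun x => ∃ H ∈ U1, H ⊆ R x ∧ i ∈ R x) := by
    refine pr_mono s fun x _ hx => ?_
    obtain ⟨b1, b2, b3⟩ := hx
    obtain ⟨F, c1, c2, c3⟩ := σ.ohit_max hG (R x \ (σ.Mid i ∪ G))
    have c4 : Disjoint F (σ.Mid i ∪ G) := sdiff_disjoint.mono_left c1
    have c5 : R x \ σ.LCl i ⊆ σ.cl (G ∪ F) := by
      intro t ht
      rw [mem_sdiff] at ht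
      by_cases htG : t ∈ G
      · exact mem_union_left _ (mem_union_left _ htG)
      · refine c3 (mem_sdiff.2 ⟨ht.1, fun h => ?_⟩)
        rcases mem_union.1 h with h | h
        · exact b2 t h ht.2 ht.1
        · exact htG h
    have c6 : F ∈ σ.Fam a C' G i := by
      simp only [Fam, mem_filter, mem_univ, true_and]
      exact ⟨c4.mono_right subset_union_left,
        σ.hit_mono a C' i (sup_le_sup_left (spn_mono _ c5) _) b3⟩
    obtain ⟨H, d1, d2⟩ := hU2 F c6
    refine ⟨H, mem_filter.2 ⟨d1, ((c4.mono_right subset_union_right).mono_left d2).symm,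
      σ.free_subset c2 (union_subset_union_right d2),
      (c4.mono_right subset_union_left).mono_left d2⟩,
      d2.trans (c1.trans sdiff_subset), b1⟩
  have a2 : ∀ H ∈ U1, pr s (fun x => H ⊆ R x ∧ i ∈ R x) ≤ (4 * π / q) ^ 2 * q ^ H.card := by
    intro H hH
    obtain ⟨b0, b1, b2, b3⟩ := mem_filter.1 hH
    have c0 : q ^ H.card < 1 :=
      (single_le_sum (f := fun H : Finset T => q ^ H.card) (fun _ _ => by positivity) b0).trans_lt
        hU3
    rcases Nat.lt_or_ge H.card 2 with h2 | h2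
    · have c1 : H.card = 1 := by
        have : H.card ≠ 0 := fun h => by
          rw [h, pow_zero] at c0
          exact lt_irrefl _ c0
        omega
      obtain ⟨t, rfl⟩ := card_eq_one.1 c1
      have c2 : t ∉ σ.Mid i := disjoint_singleton_left.1 b3
      have c3 : i ≠ t := fun h => c2 (h ▸ σ.self_mem_Mid i)
      have c4 : G ∪ {t} = insert t G := by
        rw [union_comm]
        rfl
      have c5 : σ.Free (insert i (insert t G)) := by
        refine σ.ohit_free_insert (c4 ▸ b2) ?_ (σ.marg_unmoved_insert hi c2)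
        rw [mem_insert, not_or]
        exact ⟨c3, hiG⟩
      have c6 := hF (insert i {t}) (disjoint_insert_right.2 ⟨hiG, b1⟩)
        (by rwa [union_insert, c4])
      rw [card_pair c3] at c6
      refine ((pr_mono s fun x _ hx => insert_subset hx.2 hx.1).trans c6).trans ?_
      rw [card_singleton, pow_one]
      have c7 : (4 * π) ^ 2 = (4 * π / q) ^ 2 * q * q := by field_simp
      rw [c7]
      exact mul_le_of_le_one_right (by positivity) hq1
    · refine ((pr_mono s fun x _ hx => hx.1).trans (hF H b1 b2)).trans ?_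
      have c7 : (4 * π) ^ H.card = (4 * π / q) ^ H.card * q ^ H.card := by
        rw [← mul_pow, div_mul_cancel₀ _ hq0.ne']
      rw [c7]
      exact mul_le_mul_of_nonneg_right (pow_le_pow_of_le_one h0 h1 h2) (by positivity)
  refine a1.trans ((pr_exists_le s U1 _).trans ((sum_le_sum a2).trans ?_))
  rw [← mul_sum]
  refine mul_le_of_le_one_right (by positivity) (le_trans ?_ hU3.le)
  exact sum_le_sum_of_subset_of_nonneg (filter_subset _ _) fun _ _ _ => by positivity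

omit [Fintype T] in
theorem ohit_expect_card {Ω : Type} (s : Finset Ω) (I : Finset T) (P : T → Ω → Prop) :
    s.expect (fun x => ((I.filter (fun i => P i x)).card : ℝ)) = ∑ i ∈ I, pr s (P i) := by
  simp only [pr, ← expect_sum_comm]
  refine expect_congr rfl fun x _ => ?_
  rw [card_filter]
  push_cast
  rfl

theorem SeqOK.hit_expect (hS : σ.SeqOK Seq) {a : Finset X} (ha : a ⊆ σ.Y) {C' : ℕ} (hC : 1 ≤ C')
    (h5 : SafeOn a (2 * C') ((σ.U ⊔ spn σ.lam Seq).map (off σ.Yᶜ))) {Ω : Type} (s : Finset Ω)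
    (R : Ω → Finset T) {G : Finset T} (hG : σ.Free G) (hGR : ∀ x ∈ s, G ⊆ R x) {π q : ℝ}
    (hπ : 0 ≤ π) (hq : 4 * π ≤ q) (hq0 : 0 < q) (hq1 : q ≤ 1)
    (hF : ∀ F, Disjoint G F → σ.Free (G ∪ F) → pr s (fun x => F ⊆ R x) ≤ (4 * π) ^ F.card)
    {t : ℕ} (ht1 : 1 ≤ t) (ht : Fintype.card T < 2 ^ t) :
    s.expect (fun x => ((Seq.filter (fun i => i ∈ R x ∧ (∀ t ∈ σ.Mid i, t ∉ σ.LCl i → t ∉ R x) ∧
      σ.Hit a C' i (σ.U ⊔ spn σ.lam (R x \ σ.LCl i)))).card : ℝ)) ≤
      σ.K * G.card + 4 * π * (6 * C' * (σ.K1 + 1) * (G.card + 64 * t * q * Fintype.card T + 2)) +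
        Seq.card * (4 * π / q) ^ 2 := by
  have a0 := ohit_expect_card s Seq (fun i x => i ∈ R x ∧ (∀ t ∈ σ.Mid i, t ∉ σ.LCl i → t ∉ R x) ∧
      σ.Hit a C' i (σ.U ⊔ spn σ.lam (R x \ σ.LCl i)))
  have a1 : ∀ i ∈ Seq, pr s (fun x => i ∈ R x ∧ (∀ t ∈ σ.Mid i, t ∉ σ.LCl i → t ∉ R x) ∧
      σ.Hit a C' i (σ.U ⊔ spn σ.lam (R x \ σ.LCl i))) ≤
      (if σ.Moved G i then (1 : ℝ) else 0) +
        4 * π * (if DA.Costly q 1 (σ.Fam a C' G i) then (1 : ℝ) else 0) + (4 * π / q) ^ 2 := by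
    intro i _
    have b0 : 0 ≤ (4 * π / q) ^ 2 := by positivity
    by_cases h1 : σ.Moved G i
    · rw [if_pos h1]
      refine (pr_le_one _ _).trans ?_
      have : 0 ≤ 4 * π * (if DA.Costly q 1 (σ.Fam a C' G i) then (1 : ℝ) else 0) := by
        split_ifs <;> positivity
      linarith
    · rw [if_neg h1]
      by_cases h2 : DA.Costly q 1 (σ.Fam a C' G i)
      · rw [if_pos h2]
        have hiG := σ.ohit_not_mem h1
        have c4 : G ∪ {i} = insert i G := by
          rw [union_comm]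
          rfl
        have c5 := hF {i} (disjoint_singleton_right.2 hiG)
          (c4 ▸ σ.ohit_free_insert hG hiG (σ.marg_unmoved h1))
        rw [card_singleton, pow_one] at c5
        refine ((pr_mono s fun x _ hx => singleton_subset_iff.2 hx.1).trans c5).trans ?_
        linarith
      · rw [if_neg h2]
        have := cheap_le s R hG hGR hπ hq hq0 hq1 hF a C' h1 h2
        linarith
  have a2 := sum_le_sum a1
  rw [sum_add_distrib, sum_add_distrib, ← mul_sum, sum_boole, sum_boole, sum_const,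
    nsmul_eq_mul] at a2
  have a3 := hS.costly_count ha hC h5 G hq0.le ht1 ht
  have a4 : (Seq.filter (fun i => σ.Moved G i)).card ≤ σ.K * G.card := by
    refine le_trans (card_le_card fun i hi => ?_) (σ.e3 G)
    simp only [mem_filter, mem_univ, true_and] at hi ⊢
    exact ⟨(hS i hi.1).1, hi.2⟩
  have a5 : ((Seq.filter (fun i => σ.Moved G i)).card : ℝ) ≤ σ.K * G.card := by exact_mod_cast a4
  have a6 := mul_le_mul_of_nonneg_left a3 (show 0 ≤ 4 * π by positivity)
  refine le_trans (le_of_eq ?_) (a0.le.trans (a2.trans (by linarith)))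
  refine expect_congr rfl fun x _ => ?_
  congr

end Ext

end Pool.Agent.P.MP_85fe51_lc.OD
end

-- part Pool.Agent.P.MP_85fe51_lc.ODecA
section

set_option autoImplicit false

namespace Pool.Agent.P.MP_85fe51_lc.OD

open Finset
open scoped Classical

theorem odeca_map_sum {V : Type} [AddCommGroup V] (ψ : AddChar V ℂ) {ι : Type} (I : Finset ι)
    (f : ι → V) : ψ (∑ i ∈ I, f i) = ∏ i ∈ I, ψ (f i) := by
  induction I using Finset.induction_on with
  | empty => simp
  | insert a s ha ih => rw [sum_insert ha, prod_insert ha, AddChar.map_add_eq_mul, ih]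

theorem odeca_norm_expect {Ω : Type} (s : Finset Ω) (f : Ω → ℂ) :
    ‖s.expect f‖ ≤ s.expect (fun x => ‖f x‖) := RCLike.norm_expect_le (K := ℂ)

/-- the value `γ` on the event and `1` off it. -/
noncomputable def odecaF (γ : ℝ) (P : Prop) : ℝ := 1 - (1 - γ) * (if P then 1 else 0)

theorem odecaF_pos {γ : ℝ} {P : Prop} (h : P) : odecaF γ P = γ := by
  unfold odecaF
  rw [if_pos h]
  ring

theorem odecaF_neg {γ : ℝ} {P : Prop} (h : ¬ P) : odecaF γ P = 1 := by
  unfold odecaF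
  rw [if_neg h]
  ring

theorem odecaF_nonneg {γ : ℝ} (h0 : 0 ≤ γ) (P : Prop) : 0 ≤ odecaF γ P := by
  by_cases h : P
  · rw [odecaF_pos h]
    exact h0
  · rw [odecaF_neg h]
    exact zero_le_one

theorem odeca_expect_F {Ω : Type} (s : Finset Ω) (hs : s.Nonempty) (P : Ω → Prop) (γ : ℝ) :
    s.expect (fun x => odecaF γ (P x)) = 1 - (1 - γ) * pr s P := by
  unfold odecaF pr
  rw [expect_sub_distrib, expect_const hs, mul_expect]

variable {p : ℕ} [Fact p.Prime]

theorem odeca_ch_sum {ι : Type} (I : Finset ι) (f : ι → ZMod p) :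
    ch (∑ i ∈ I, f i) = ∏ i ∈ I, ch (f i) :=
  odeca_map_sum (ZMod.stdAddChar (N := p)) I f

/-- a Fourier coefficient of a phase. -/
noncomputable def odecaG {V : Type} [AddCommGroup V] (ψ : AddChar V ℂ) (Ξ : ZMod p → V)
    (i : ZMod p) : ℂ :=
  (univ : Finset (ZMod p)).expect (fun s => ch (-(i * s)) * ψ (Ξ s))

theorem odecaG_le_one {V : Type} [AddCommGroup V] [Fintype V] (ψ : AddChar V ℂ) (Ξ : ZMod p → V)
    (i : ZMod p) : ‖odecaG ψ Ξ i‖ ≤ 1 := by
  refine (odeca_norm_expect _ _).trans (expect_le univ_nonempty ?_)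
  intro s _
  rw [norm_mul, norm_ch, AddChar.norm_apply, one_mul]

theorem odecaG_le_F {m : ℕ} {γ : ℝ} (hγ : Gam p m γ) {V : Type} [AddCommGroup V] [Fintype V]
    (hV : ∀ v : V, m • v = 0) (ψ : AddChar V ℂ) (hψ : ∀ v, ψ v = 1 → v = 0) (Ξ : ZMod p → V)
    (hΞ : SZ Ξ) (i : ZMod p) : ‖odecaG ψ Ξ i‖ ≤ odecaF γ (∃ y, Ξ y ≠ 0) := by
  by_cases h : ∃ y, Ξ y ≠ 0
  · rw [odecaF_pos h]
    refine hγ.2.2 V hV ψ hψ Ξ hΞ ?_ i
    obtain ⟨y, hy⟩ := h
    intro h0
    exact hy (by rw [h0]; rfl)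
  · rw [odecaF_neg h]
    exact odecaG_le_one ψ Ξ i

/-- expansion of a product of phases into characters. -/
theorem odeca_expand {V : Type} [AddCommGroup V] (ψ : AddChar V ℂ) {ι : Type} [Fintype ι]
    [DecidableEq ι] (Ξ : ι → ZMod p → V) (x : ι → ZMod p) :
    ψ (∑ e, Ξ e (x e)) =
      ∑ j : ι → ZMod p, (∏ e, odecaG ψ (Ξ e) (j e)) * ch (∑ e, j e * x e) := by
  rw [odeca_map_sum]
  have h1 : ∀ e, ψ (Ξ e (x e)) = ∑ i : ZMod p, ch (i * x e) * odecaG ψ (Ξ e) i := fun e =>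
    fourier_inv (fun s => ψ (Ξ e s)) (x e)
  simp only [h1]
  rw [Fintype.prod_sum]
  refine sum_congr rfl fun j _ => ?_
  rw [prod_mul_distrib, odeca_ch_sum, mul_comm]

/-- a product of coefficients is an average of phases. -/
theorem odeca_prodG {V : Type} [AddCommGroup V] (ψ : AddChar V ℂ) {ι : Type} [Fintype ι]
    [DecidableEq ι] (Ξ : ι → ZMod p → V) (j : ι → ZMod p) :
    ∏ e, odecaG ψ (Ξ e) (j e) =
      ∑ s : ι → ZMod p, (∏ e, (ch (-(j e * s e)) / (p : ℂ))) * ψ (∑ e, Ξ e (s e)) := by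
  have h1 : ∀ e, odecaG ψ (Ξ e) (j e) =
      ∑ s : ZMod p, ch (-(j e * s)) / (p : ℂ) * ψ (Ξ e s) := by
    intro e
    unfold odecaG
    rw [expect_eq_sum_div_card, card_univ, ZMod.card, sum_div]
    refine sum_congr rfl fun s _ => ?_
    ring
  simp only [h1]
  rw [Fintype.prod_sum]
  refine sum_congr rfl fun s _ => ?_
  rw [prod_mul_distrib, odeca_map_sum]

variable {X : Type} [Fintype X] [DecidableEq X]

/-- the bound of one term by the weight of its character. -/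
theorem odeca_term_wt {m c : ℕ} {θ : ℝ} (hθ : ThB p m c θ) {V : Type} [AddCommGroup V]
    (hV : ∀ v : V, m • v = 0) (ψ : AddChar V ℂ) {ι : Type} [Fintype ι] [DecidableEq ι]
    (b : Finset X) (Ξ : ι → Finset X → ZMod p → V)
    (hΞ : ∀ e y, DL ⊥ (fun _ => True) (c + 1) b (fun A => Ξ e A y)) (j : ι → ZMod p)
    (μ : Vec p X) :
    ‖b.powerset.expect (fun A => (∏ e, odecaG ψ (Ξ e A) (j e)) * ch (dot μ A))‖ ≤
      θ ^ (supp μ ∩ b).card := by
  have hp : (0 : ℝ) < p := by exact_mod_cast (Fact.out : p.Prime).pos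
  have h1 : ∀ A, (∏ e, odecaG ψ (Ξ e A) (j e)) * ch (dot μ A) =
      ∑ s : ι → ZMod p, (∏ e, (ch (-(j e * s e)) / (p : ℂ))) *
        (ψ (∑ e, Ξ e A (s e)) * ch (dot μ A)) := by
    intro A
    rw [odeca_prodG ψ (fun e => Ξ e A) j, sum_mul]
    refine sum_congr rfl fun s _ => ?_
    ring
  simp only [h1]
  rw [expect_sum_comm]
  refine (norm_sum_le _ _).trans ?_
  have h2 : ∀ s : ι → ZMod p,
      ‖b.powerset.expect (fun A => (∏ e, (ch (-(j e * s e)) / (p : ℂ))) *
        (ψ (∑ e, Ξ e A (s e)) * ch (dot μ A)))‖ ≤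
        (1 / (p : ℝ)) ^ Fintype.card ι * θ ^ (supp μ ∩ b).card := by
    intro s
    rw [← mul_expect, norm_mul, norm_prod]
    have h3 : ∏ e, ‖ch (-(j e * s e)) / (p : ℂ)‖ = (1 / (p : ℝ)) ^ Fintype.card ι := by
      rw [← card_univ, ← prod_const]
      refine prod_congr rfl fun e _ => ?_
      rw [norm_div, norm_ch, Complex.norm_natCast]
    rw [h3]
    refine mul_le_mul_of_nonneg_left ?_ (by positivity)
    exact hθ.2.2 X V hV ψ b (fun A => ∑ e, Ξ e A (s e)) μ
      (DL_sum univ (fun e A => Ξ e A (s e)) (fun e _ => hΞ e (s e)))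
  refine (sum_le_sum fun s _ => h2 s).trans ?_
  rw [sum_const, card_univ, Fintype.card_fun, ZMod.card, nsmul_eq_mul, ← mul_assoc]
  push_cast
  rw [← mul_pow, mul_one_div_cancel hp.ne', one_pow, one_mul]

/-- the bound of one term by the clusters that do not vanish. -/
theorem odeca_term_cl {m : ℕ} {γ : ℝ} (hγ : Gam p m γ) {V : Type} [AddCommGroup V] [Fintype V]
    (hV : ∀ v : V, m • v = 0) (ψ : AddChar V ℂ) (hψ : ∀ v, ψ v = 1 → v = 0) {ι : Type}
    [Fintype ι] [DecidableEq ι] (b : Finset X) (Ξ : ι → Finset X → ZMod p → V)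
    (hΞ : ∀ e A, SZ (Ξ e A)) (Q : ι → Finset X) (hQ : ∀ e e', e ≠ e' → Disjoint (Q e) (Q e'))
    (hloc : ∀ e A, A ⊆ b → Ξ e A = Ξ e (A ∩ Q e)) (j : ι → ZMod p) (μ : Vec p X) :
    ‖b.powerset.expect (fun A => (∏ e, odecaG ψ (Ξ e A) (j e)) * ch (dot μ A))‖ ≤
      ∏ e, (1 - (1 - γ) * pr b.powerset (fun A => ∃ y, Ξ e A y ≠ 0)) := by
  refine (odeca_norm_expect _ _).trans ?_
  have h1 : b.powerset.expect (fun A => ‖(∏ e, odecaG ψ (Ξ e A) (j e)) * ch (dot μ A)‖) ≤
      b.powerset.expect (fun A => ∏ e, odecaF γ (∃ y, Ξ e A y ≠ 0)) := by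
    refine expect_le_expect fun A _ => ?_
    rw [norm_mul, norm_ch, mul_one, norm_prod]
    exact prod_le_prod (fun e _ => norm_nonneg _)
      (fun e _ => odecaG_le_F hγ hV ψ hψ (Ξ e A) (hΞ e A) (j e))
  refine h1.trans (le_of_eq ?_)
  rw [expect_powerset_prod b univ Q (fun e _ e' _ h => hQ e e' h)
    (fun e A => odecaF γ (∃ y, Ξ e A y ≠ 0)) (fun e _ A hA => by rw [← hloc e A hA])]
  refine prod_congr rfl fun e _ => ?_
  exact odeca_expect_F b.powerset (powerset_nonempty b) (fun A => ∃ y, Ξ e A y ≠ 0) γ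

/-- pairs of a vector of `H` and coefficients list the vectors of the larger space. -/
theorem odeca_sum_pairs {T : Type} (H : Sub p X) (Gd : Finset T) (lam : T → Vec p X)
    (hdim : Module.finrank (ZMod p) ↥(H ⊔ spn lam Gd) = Module.finrank (ZMod p) ↥H + Gd.card)
    (f : Vec p X → ℝ) :
    ∑ η ∈ elts H, ∑ j : Gd → ZMod p, f (∑ e : Gd, j e • lam e + η) =
      ∑ μ ∈ elts (H ⊔ spn lam Gd), f μ := by
  rw [← sum_product' (elts H) univ (fun η (j : Gd → ZMod p) => f (∑ e : Gd, j e • lam e + η))]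
  have hmap : Set.MapsTo (fun x : Vec p X × (Gd → ZMod p) => ∑ e : Gd, x.2 e • lam e + x.1)
      (↑(elts H ×ˢ (univ : Finset (Gd → ZMod p))) : Set _) (↑(elts (H ⊔ spn lam Gd)) : Set _) := by
    intro x hx
    have hx1 : x.1 ∈ H := mem_elts.1 (mem_product.1 (mem_coe.1 hx)).1
    refine mem_coe.2 (mem_elts.2 (Submodule.add_mem _ ?_ (Submodule.mem_sup_left hx1)))
    exact Submodule.mem_sup_right
      ((Submodule.mem_span_image_finset_iff_exists_fun (ZMod p)).2 ⟨x.2, rfl⟩)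
  have hsurj : Set.SurjOn (fun x : Vec p X × (Gd → ZMod p) => ∑ e : Gd, x.2 e • lam e + x.1)
      (↑(elts H ×ˢ (univ : Finset (Gd → ZMod p))) : Set _) (↑(elts (H ⊔ spn lam Gd)) : Set _) := by
    intro μ hμ
    obtain ⟨η, hη, z, hz, rfl⟩ := Submodule.mem_sup.1 (mem_elts.1 (mem_coe.1 hμ))
    obtain ⟨c, hc⟩ := (Submodule.mem_span_image_finset_iff_exists_fun (ZMod p)).1 hz
    refine ⟨(η, c), mem_coe.2 (mem_product.2 ⟨mem_elts.2 hη, mem_univ _⟩), ?_⟩
    simp only [hc]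
    exact add_comm _ _
  have hcard : (elts H ×ˢ (univ : Finset (Gd → ZMod p))).card ≤ (elts (H ⊔ spn lam Gd)).card := by
    rw [card_product, card_elts, card_elts, hdim, card_univ, Fintype.card_fun, ZMod.card,
      Fintype.card_coe, pow_add]
  exact sum_nbij _ hmap (injOn_of_surjOn_of_card_le _ hmap hsurj hcard) hsurj (fun _ _ => rfl)

theorem odeca_le_sqrt {x a θ : ℝ} {n : ℕ} (hx : 0 ≤ x) (hθ : 0 ≤ θ) (h1 : x ≤ a)
    (h2 : x ≤ θ ^ n) : x ≤ Real.sqrt a * Real.sqrt θ ^ n := by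
  have ha : 0 ≤ a := hx.trans h1
  have h3 : Real.sqrt θ ^ n = Real.sqrt (θ ^ n) := by
    rw [Real.sqrt_eq_rpow, Real.sqrt_eq_rpow, ← Real.rpow_natCast, ← Real.rpow_natCast,
      ← Real.rpow_mul hθ, ← Real.rpow_mul hθ, mul_comm]
  rw [h3, ← Real.sqrt_mul ha]
  refine Real.le_sqrt_of_sq_le ?_
  rw [sq]
  exact mul_le_mul h1 h2 hx ha

/-- decay of the bias on one class: every cluster that is not zero costs a factor. -/
theorem decay_class {m c : ℕ} {θ γ : ℝ} (hθ : ThB p m c θ) (hγ : Gam p m γ) {V : Type}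
    [AddCommGroup V] [Fintype V] (hV : ∀ v : V, m • v = 0) (hN : NoP p V) (ψ : AddChar V ℂ)
    (hψ : ∀ v, ψ v = 1 → v = 0) {T : Type} (b B0 : Finset X) (H : Sub p X) (Gd : Finset T)
    (lam : T → Vec p X) (hb : H ⊔ spn lam Gd ≤ co b) {C' : ℕ} (hC : 1 ≤ C')
    (hs : Safe C' (H ⊔ spn lam Gd))
    (hdim : Module.finrank (ZMod p) ↥(H ⊔ spn lam Gd) = Module.finrank (ZMod p) ↥H + Gd.card)
    (hQ : 4 * (p * (Fintype.card X + 1) : ℝ) ^ 2 * Real.sqrt θ ^ C' ≤ 1)
    (Tt : T → Finset T) (w : T → T → ZMod p → V) (hw : ∀ e ∈ Gd, ∀ t ∈ Tt e, SZ (w e t))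
    (δ : T → T → Vec p X) (Q : T → Finset X)
    (hdis : ∀ e ∈ Gd, ∀ e' ∈ Gd, e ≠ e' → Disjoint (Q e) (Q e'))
    (hδQ : ∀ e ∈ Gd, ∀ t ∈ Tt e, supp (δ e t) ∩ b ⊆ Q e)
    (hδc : ∀ e ∈ Gd, ∀ t ∈ Tt e, (supp (δ e t) ∩ b).card ≤ c) {M4 E1 : ℕ}
    (hM : ∀ e ∈ Gd, (Tt e).card ≤ M4) (hE : 2 * ((p : ℝ) - 1) ^ E1 ≤ (p : ℝ) ^ E1)
    (hne : ∀ e ∈ Gd, ∃ B, B ⊆ b ∧ ∃ y, ∑ t ∈ Tt e, w e t (y + dot (δ e t) B) ≠ 0) :
    ‖(fib H b B0).expect (fun B =>
      ψ (∑ e ∈ Gd, ∑ t ∈ Tt e, w e t (dot (lam e) B + dot (δ e t) B)))‖ ^ 2 ≤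
      9 * (1 - (1 - γ) / (M4 : ℝ) ^ E1) ^ Gd.card := by
  have hθ0 : 0 ≤ θ := hθ.1
  have hs0 : 0 ≤ Real.sqrt θ := Real.sqrt_nonneg θ
  have hs1 : Real.sqrt θ ≤ 1 := Real.sqrt_le_one.2 hθ.2.1.le
  have hθs : θ ≤ Real.sqrt θ := by
    have := Real.mul_self_sqrt hθ0
    nlinarith
  have hp1 : (1 : ℝ) ≤ p := by exact_mod_cast (Fact.out : p.Prime).one_lt.le
  have hQ1 : (1 : ℝ) ≤ p * (Fintype.card X + 1) := by
    have : (0 : ℝ) ≤ Fintype.card X := Nat.cast_nonneg _
    nlinarith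
  have hsC : 0 ≤ Real.sqrt θ ^ C' := pow_nonneg hs0 _
  have hsum : ∑ μ ∈ elts (H ⊔ spn lam Gd), Real.sqrt θ ^ wt μ ≤ 3 / 2 := by
    have h1 : (p * (Fintype.card X + 1) : ℝ) * Real.sqrt θ ^ C' ≤ 1 / 2 := by
      have h2 : (p * (Fintype.card X + 1) : ℝ) ≤ (p * (Fintype.card X + 1) : ℝ) ^ 2 := by
        nlinarith
      have h3 := mul_le_mul_of_nonneg_right h2 hsC
      linarith
    have h4 := sum_pow_wt hC hs hs0 hs1 h1
    linarith
  have hwt : ∀ μ ∈ H ⊔ spn lam Gd, (supp μ ∩ b).card = wt μ := by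
    intro μ hμ
    rw [inter_eq_left.2 (mem_co_iff.1 (hb hμ))]
    rfl
  have henum : enum θ H b ≤ 3 / 2 := by
    refine (enum_mono hθ0 (le_sup_left : H ≤ H ⊔ spn lam Gd) b).trans (le_trans ?_ hsum)
    refine sum_le_sum fun μ hμ => ?_
    rw [hwt μ (mem_elts.1 hμ)]
    exact pow_le_pow_left₀ hθ0 hθs _
  -- the clusters
  set Ξ : Gd → Finset X → ZMod p → V :=
    fun e A y => ∑ t ∈ Tt e, w e t (y + dot (δ e t) A) with hΞ
  have hSZ : ∀ e A, SZ (Ξ e A) := by
    intro e A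
    unfold SZ
    simp only [hΞ]
    rw [sum_comm]
    refine sum_eq_zero fun t ht => ?_
    have h1 := SZ.shift (hw e e.2 t ht) (u := 1) one_ne_zero (dot (δ e t) A)
    unfold SZ at h1
    simpa only [one_mul] using h1
  have hloc : ∀ (e : Gd) A, A ⊆ b → Ξ e A = Ξ e (A ∩ Q e) := by
    intro e A hA
    funext y
    simp only [hΞ]
    refine sum_congr rfl fun t ht => ?_
    rw [dot_inter ((inter_subset_inter_left hA).trans (hδQ e e.2 t ht))]
  have hDL : ∀ (e : Gd) y, DL ⊥ (fun _ => True) (c + 1) b (fun A => Ξ e A y) := by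
    intro e y
    refine DL_sum (Tt e) (fun t A => w e t (y + dot (δ e t) A)) fun t ht => ?_
    refine DL_junta (supp (δ e t)) (fun A _ => ?_) (hδc e e.2 t ht)
    rw [dot_inter inter_subset_left]
  set a : ℝ := ∏ e : Gd, (1 - (1 - γ) * pr b.powerset (fun A => ∃ y, Ξ e A y ≠ 0)) with ha
  have hfac : ∀ e : Gd, 0 ≤ 1 - (1 - γ) * pr b.powerset (fun A => ∃ y, Ξ e A y ≠ 0) := by
    intro e
    have h1 := pr_le_one b.powerset (fun A => ∃ y, Ξ e A y ≠ 0)
    have h2 := pr_nonneg b.powerset (fun A => ∃ y, Ξ e A y ≠ 0)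
    have h3 := hγ.1
    have h4 := hγ.2.1
    nlinarith
  have ha0 : 0 ≤ a := prod_nonneg fun e _ => hfac e
  have hale : a ≤ (1 - (1 - γ) / (M4 : ℝ) ^ E1) ^ Gd.card := by
    rw [← Fintype.card_coe Gd, ← card_univ, ← prod_const]
    refine prod_le_prod (fun e _ => hfac e) fun e _ => ?_
    have h1 := uncert hN b (Tt e) (w e) (hw e e.2) (δ e) (hne e e.2) (hM e e.2) hE
    have h2 : 0 ≤ 1 - γ := sub_nonneg.2 hγ.2.1.le
    have h3 := mul_le_mul_of_nonneg_left h1 h2
    rw [mul_one_div] at h3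
    exact sub_le_sub_left h3 1
  -- expansion of the integrand
  have hexp : ∀ (η : Vec p X) (A : Finset X),
      ψ (∑ e ∈ Gd, ∑ t ∈ Tt e, w e t (dot (lam e) A + dot (δ e t) A)) * ch (dot η A) =
        ∑ j : Gd → ZMod p, (∏ e, odecaG ψ (Ξ e A) (j e)) *
          ch (dot (∑ e : Gd, j e • lam e + η) A) := by
    intro η A
    rw [← sum_coe_sort Gd (fun e => ∑ t ∈ Tt e, w e t (dot (lam e) A + dot (δ e t) A))]
    have h1 := odeca_expand ψ (fun e : Gd => Ξ e A) (fun e => dot (lam e) A)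
    simp only [hΞ] at h1
    rw [h1, sum_mul]
    refine sum_congr rfl fun j _ => ?_
    rw [dot_add, ch_add, dot_sum, mul_assoc]
    simp only [dot_smul, hΞ]
  have hterm : ∀ η ∈ elts H,
      ‖b.powerset.expect (fun A =>
        ψ (∑ e ∈ Gd, ∑ t ∈ Tt e, w e t (dot (lam e) A + dot (δ e t) A)) * ch (dot η A))‖ ≤
        ∑ j : Gd → ZMod p, Real.sqrt a * Real.sqrt θ ^ wt (∑ e : Gd, j e • lam e + η) := by
    intro η hη
    simp only [hexp]
    rw [expect_sum_comm]
    refine (norm_sum_le _ _).trans (sum_le_sum fun j _ => ?_)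
    have hμ : ∑ e : Gd, j e • lam e + η ∈ H ⊔ spn lam Gd :=
      Submodule.add_mem _ (Submodule.mem_sup_right
        ((Submodule.mem_span_image_finset_iff_exists_fun (ZMod p)).2 ⟨j, rfl⟩))
        (Submodule.mem_sup_left (mem_elts.1 hη))
    refine odeca_le_sqrt (norm_nonneg _) hθ0 ?_ ?_
    · exact odeca_term_cl hγ hV ψ hψ b Ξ hSZ (fun e => Q e)
        (fun e e' h => hdis e e.2 e' e'.2 (fun h' => h (Subtype.ext h'))) hloc j _
    · rw [← hwt _ hμ]
      exact odeca_term_wt hθ hV ψ b Ξ hDL j _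
  have hmain := norm_expect_fib hθ.thC henum B0
    (fun B => ψ (∑ e ∈ Gd, ∑ t ∈ Tt e, w e t (dot (lam e) B + dot (δ e t) B)))
  have hsum2 := sum_le_sum hterm
  rw [odeca_sum_pairs H Gd lam hdim (fun μ => Real.sqrt a * Real.sqrt θ ^ wt μ),
    ← mul_sum] at hsum2
  have hsa : 0 ≤ Real.sqrt a := Real.sqrt_nonneg a
  have hfin : ‖(fib H b B0).expect (fun B =>
      ψ (∑ e ∈ Gd, ∑ t ∈ Tt e, w e t (dot (lam e) B + dot (δ e t) B)))‖ ≤ 3 * Real.sqrt a := by
    have h1 := mul_le_mul_of_nonneg_left hsum hsa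
    linarith
  have hsq := pow_le_pow_left₀ (norm_nonneg _) hfin 2
  rw [mul_pow, Real.sq_sqrt ha0] at hsq
  linarith

end Pool.Agent.P.MP_85fe51_lc.OD
end

-- part Pool.Agent.P.MP_85fe51_lc.ODecay
section

set_option autoImplicit false

namespace Pool.Agent.P.MP_85fe51_lc.OD

open Finset
open scoped Classical

variable {p : ℕ} [Fact p.Prime] {X : Type} [Fintype X] [DecidableEq X] {T : Type} [Fintype T]
  {k j : ℕ}

theorem odec_dot_inter (d : Vec p X) (A J : Finset X) : dot d (A ∩ J) = dot (d - off J d) A := by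
  rw [dot_sub, dot_off, eq_sub_iff_add_eq]
  exact Finset.sum_inter_add_sum_sdiff A J d

theorem odec_val_rep (P : Pat k j) {U : Sub p X} {x : Cp k j → Finset X} (hx : ∀ κ, KerP U (x κ))
    {v v' d : Vec p X} {u : ZMod p} (h : v - u • v' - d ∈ U) (ε : Fin k → Bool) :
    val P v x ε = u * val P v' x ε + val P d x ε := by
  unfold val
  rw [← sval_mul, ← sval_add]
  exact congrArg (fun s => sval P s ε) (funext fun κ => (hx κ).dot_rep h)

theorem odec_norm {Ω : Type} {s : Finset Ω} (hs : s.Nonempty) (F : Ω → ℂ) {M : ℝ}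
    (h : ∀ x ∈ s, ‖F x‖ ^ 2 ≤ M) : ‖s.expect F‖ ^ 2 ≤ M := by
  obtain ⟨x0, hx0⟩ := id hs
  have hM : 0 ≤ M := le_trans (sq_nonneg _) (h x0 hx0)
  have h1 : ‖s.expect F‖ ≤ √M :=
    (RCLike.norm_expect_le (K := ℂ)).trans
      (Finset.expect_le hs fun x hx => Real.le_sqrt_of_sq_le (h x hx))
  calc _ ≤ √M ^ 2 := by gcongr
    _ = M := Real.sq_sqrt hM

theorem odec_map_spn (H : Sub p X) (lam : T → Vec p X) (G : Finset T) (J : Finset X) :
    (H ⊔ spn lam G).map (off J) = H.map (off J) ⊔ spn (fun e => off J (lam e)) G := by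
  rw [Submodule.map_sup, spn, spn, Submodule.map_span, Set.image_image]

theorem odec_DS {V : Type} [AddCommGroup V] (P : Pat k j) (lam : T → Vec p X)
    (phi : T → ZMod p → V) (x : Cp k j → Finset X) :
    DS P lam phi x = ∑ t, ∑ ε : Fin k → Bool, sgn ε • phi t (val P (lam t) x ε) := by
  unfold DS
  rw [Finset.sum_comm]
  exact Finset.sum_congr rfl fun ε _ => Finset.smul_sum

theorem odec_dead {V : Type} [AddCommGroup V] (P : Pat k j) (v : Vec p X) (w : ZMod p → V)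
    (x : Cp k j → Finset X) (h : ¬ Surv P v x) (A : Finset X) :
    ∑ ε : Fin k → Bool, sgn ε • w (val P v (Function.update x (Sum.inl P.a0) A) ε) = 0 := by
  rw [← surv_update_a0 P v x A] at h
  obtain ⟨b, hb⟩ := not_forall.1 h
  have e := sum_sgn_sval P w (fun κ => dot v (Function.update x (Sum.inl P.a0) A κ))
    (not_not.1 hb) 0
  simp only [zero_add] at e
  exact e

namespace Ext
variable {σ : Ext p X T} {Seq : Finset T}

/-- the space spanned by the other terms stays safe when the unhit members are added. -/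
theorem SeqOK.unhit (hS : σ.SeqOK Seq) (a : Finset X) {C' : ℕ} (hC : 1 ≤ C') (R Gd : Finset T)
    (hG : Gd ⊆ Seq) (hR : Gd ⊆ R)
    (hh : ∀ e ∈ Gd, ¬ σ.Hit a C' e (σ.U ⊔ spn σ.lam (R \ σ.LCl e))) :
    ∃ J : Finset X, aᶜ ⊆ J ∧ (∀ e ∈ Gd, Disjoint (σ.Qs e ∩ a) J) ∧
      Safe C' (((σ.U ⊔ spn σ.lam (R \ Gd.biUnion σ.LCl)) ⊔ spn σ.lam Gd).map (off J)) ∧
      dO ((σ.U ⊔ spn σ.lam (R \ Gd.biUnion σ.LCl)) ⊔ spn σ.lam Gd) J =
        dO (σ.U ⊔ spn σ.lam (R \ Gd.biUnion σ.LCl)) J + Gd.card := by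
  obtain ⟨Hm, hHm⟩ : ∃ Hm, Hm = σ.U ⊔ spn σ.lam (R \ Gd.biUnion σ.LCl) := ⟨_, rfl⟩
  rw [← hHm]
  have h1 : ∀ e ∈ Gd, Hm ≤ σ.U ⊔ spn σ.lam (R \ σ.LCl e) := fun e he => by
    rw [hHm]
    exact sup_le_sup_left (spn_mono _ (sdiff_subset_sdiff subset_rfl
      (subset_biUnion_of_mem σ.LCl he))) _
  have h2 : aᶜ ⊆ Jmax C' (Hm ⊔ co aᶜ) := subset_Jmax hC le_sup_right
  have h3 := rho_spn_ge C' (Hm ⊔ co aᶜ) σ.lam Gd fun e he => by
    refine (not_lt.1 (not_or.1 (hh e he)).1).trans (marg_anti C' ?_ _)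
    refine sup_le (sup_le_sup_right (h1 e he) _) (le_sup_of_le_left (le_sup_of_le_right ?_))
    refine spn_mono _ fun e' he' => ?_
    obtain ⟨hne, he'⟩ := mem_erase.1 he'
    exact mem_sdiff.2 ⟨hR he', fun h => disjoint_left.1 (hS.disjoint_Mid (hG he') (hG he) hne)
      (σ.self_mem_Mid e') (σ.LCl_subset e h)⟩
  obtain ⟨J, hJ⟩ : ∃ J, J = Jmax C' (Hm ⊔ co aᶜ) := ⟨_, rfl⟩
  have h4 := fC_Jmax C' (Hm ⊔ co aᶜ)
  rw [← hJ] at h2 h4
  have h5 := rho_le C' ((Hm ⊔ co aᶜ) ⊔ spn σ.lam Gd) J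
  have h6 := dO_sup_spn (Hm ⊔ co aᶜ) σ.lam Gd J
  have h7 := Nat.mul_le_mul_left C' h6
  have h8 : fC C' ((Hm ⊔ co aᶜ) ⊔ spn σ.lam Gd) J = rho C' ((Hm ⊔ co aᶜ) ⊔ spn σ.lam Gd) := by
    refine le_antisymm ?_ h5
    unfold fC at h4 ⊢
    rw [mul_add] at h7
    omega
  have h9 : dO ((Hm ⊔ co aᶜ) ⊔ spn σ.lam Gd) J = dO (Hm ⊔ co aᶜ) J + Gd.card := by
    refine le_antisymm h6 (Nat.le_of_mul_le_mul_left ?_ hC)
    unfold fC at h4 h5
    rw [mul_add]
    omega
  refine ⟨J, h2, fun e he => ?_, (safe_of_min h8).sub (Submodule.map_mono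
    (sup_le_sup_right le_sup_left _)), ?_⟩
  · refine Disjoint.mono_right ?_ (not_not.1 (not_or.1 (hh e he)).2)
    rw [hJ]
    exact Jmax_mono C' (sup_le_sup_right (h1 e he) _)
  · rw [sup_right_comm, dO_sup_co _ h2, dO_sup_co _ h2] at h9
    exact h9

theorem SeqOK.decay (hS : σ.SeqOK Seq) {m c1 : ℕ} {θ γ : ℝ} (hθ : ThB p m c1 θ) (hγ : Gam p m γ)
    {V : Type} [AddCommGroup V] [Fintype V] (hV : ∀ v : V, m • v = 0) (hN : NoP p V)
    (ψ : AddChar V ℂ) (hψ : ∀ v, ψ v = 1 → v = 0) (P : Pat k j) (phi : T → ZMod p → V)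
    (hphi : ∀ t, SZ (phi t)) {C' E1 : ℕ} (hC : 1 ≤ C')
    (hQ : 4 * (p * (Fintype.card X + 1) : ℝ) ^ 2 * Real.sqrt θ ^ C' ≤ 1)
    (hE : 2 * ((p : ℝ) - 1) ^ E1 ≤ (p : ℝ) ^ E1) (l : X → Lab k j) {x : Cp k j → Finset X}
    (hx : x ∈ σ.Om P l) :
    ‖σ.inner P phi ψ l x‖ ^ 2 ≤ 9 * (1 - (1 - γ) / (σ.M4 : ℝ) ^ E1) ^
      (Seq.filter (fun i => σ.Act P phi c1 l i x ∧ ¬ σ.Hit (subSet σ.Y l P.a0) C' i
        (σ.U ⊔ spn σ.lam (Rs P σ.lam x \ σ.LCl i)))).card := by
  obtain ⟨Gd, hGd⟩ : ∃ Gd, Gd = Seq.filter (fun i => σ.Act P phi c1 l i x ∧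
      ¬ σ.Hit (subSet σ.Y l P.a0) C' i (σ.U ⊔ spn σ.lam (Rs P σ.lam x \ σ.LCl i))) := ⟨_, rfl⟩
  rw [← hGd]
  have hmem : ∀ e ∈ Gd, e ∈ Seq ∧ σ.Act P phi c1 l e x ∧
      ¬ σ.Hit (subSet σ.Y l P.a0) C' e (σ.U ⊔ spn σ.lam (Rs P σ.lam x \ σ.LCl e)) :=
    fun e he => mem_filter.1 (hGd ▸ he)
  obtain ⟨J, hJ1, hJ2, hJ3, hJ4⟩ := hS.unhit (subSet σ.Y l P.a0) hC (Rs P σ.lam x) Gd
    (fun e he => (hmem e he).1)
    (fun e he => mem_filter.2 ⟨mem_univ _, (hmem e he).2.1.2.1⟩) (fun e he => (hmem e he).2.2)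
  obtain ⟨Hm, hHm⟩ : ∃ Hm, Hm = σ.U ⊔ spn σ.lam (Rs P σ.lam x \ Gd.biUnion σ.LCl) := ⟨_, rfl⟩
  rw [← hHm] at hJ3 hJ4
  have hU : σ.U ≤ Hm := hHm ▸ le_sup_left
  have hxK : ∀ κ, x κ ⊆ cset P σ.Y l κ ∧ KerP σ.U (x κ) := fun κ =>
    mem_Ker.1 (Fintype.mem_piFinset.1 hx κ)
  have hx0 : x (Sum.inl P.a0) ⊆ atomSet σ.Y l P.a0 := (hxK (Sum.inl P.a0)).1
  have hx' : ∀ κ, KerP σ.U (Function.update x (Sum.inl P.a0) ∅ κ) := fun κ => by
    by_cases h : κ = Sum.inl P.a0
    · rw [h, Function.update_self]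
      exact kerP_empty _
    · rw [Function.update_of_ne h]
      exact (hxK κ).2
  have hJa : Jᶜ ⊆ subSet σ.Y l P.a0 := fun i hi => by
    by_contra h
    exact mem_compl.1 hi (hJ1 (mem_compl.2 h))
  have hb : atomSet σ.Y l P.a0 \ J = Jᶜ := by
    ext i
    simp only [mem_sdiff, mem_compl, and_iff_right_iff_imp]
    exact fun h => subSet_subset _ _ _ (hJa (mem_compl.2 h))
  have hrep : ∀ e, ∀ t ∈ σ.LCl e, σ.uu e t ≠ 0 ∧ σ.lam t - σ.uu e t • σ.lam e - σ.dd e t ∈ σ.U :=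
    fun e t ht => ⟨(σ.rep e t (σ.LCl_subset e ht)).1, (σ.rep e t (σ.LCl_subset e ht)).2.1⟩
  have hsupp : ∀ e, ∀ t ∈ σ.LCl e, supp (σ.de e t) = supp (σ.dd e t) := fun e t ht =>
    supp_smul (inv_ne_zero (hrep e t ht).1) _
  have hQs : ∀ e, ∀ t ∈ σ.LCl e, supp (σ.dd e t) ⊆ σ.Qs e := fun e t ht =>
    subset_biUnion_of_mem (fun t => supp (σ.dd e t)) ht
  have hde : ∀ e, ∀ t ∈ σ.LCl e, ∀ B, σ.uu e t * dot (σ.de e t) B = dot (σ.dd e t) B :=
    fun e t ht B => by rw [de, dot_smul, mul_inv_cancel_left₀ (hrep e t ht).1]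
  unfold inner
  rw [expect_fib_cond (H' := Hm ⊔ co J) (sup_le_sup hU (co_mono hJ1))]
  refine odec_norm ⟨_, mem_fib.2 ⟨hx0, fun _ _ => rfl⟩⟩ _ fun A1 hA1 => ?_
  obtain ⟨hA1a, hA1d⟩ := mem_fib.1 hA1
  rw [expect_fib_off le_sup_right hA1a, map_off_sup_co, hb]
  obtain ⟨w, hw⟩ : ∃ w : T → T → ZMod p → V, w = fun e t z => ∑ ε : Fin k → Bool, sgn ε •
      phi t (σ.uu e t * z + (σ.uu e t * dot (σ.lam e) (A1 ∩ J) + dot (σ.dd e t) (A1 ∩ J) +
        val P (σ.lam t) (Function.update x (Sum.inl P.a0) ∅) ε)) := ⟨_, rfl⟩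
  have key := decay_class hθ hγ hV hN ψ hψ Jᶜ (A1 \ J) (Hm.map (off J)) Gd
    (fun e => off J (σ.lam e)) (odec_map_spn Hm σ.lam Gd J ▸ map_off_le _ J) hC
    (odec_map_spn Hm σ.lam Gd J ▸ hJ3) (odec_map_spn Hm σ.lam Gd J ▸ hJ4) hQ σ.LCl w
    (fun e _ t ht => by
      rw [hw, SZ, Finset.sum_comm]
      refine Finset.sum_eq_zero fun ε _ => ?_
      rw [← Finset.smul_sum, (hphi t).shift (hrep e t ht).1, smul_zero])
    σ.de σ.Qs (fun e he e' he' hne => hS.disjoint_Qs (hmem e he).1 (hmem e' he').1 hne)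
    (fun e _ t ht => by rw [hsupp e t ht]; exact inter_subset_left.trans (hQs e t ht))
    (fun e he t ht => by
      rw [hsupp e t ht]
      exact (card_le_card (inter_subset_inter_left hJa)).trans ((hmem e he).2.1.1 t ht P.a0))
    (M4 := σ.M4) (E1 := E1)
    (fun e he => (card_le_card (σ.LCl_subset e)).trans (σ.mid e (hS e (hmem e he).1).1)) hE
    (fun e he => by
      obtain ⟨y0, hy0⟩ := (hmem e he).2.1.2.2.2
      refine ⟨x (Sum.inl P.a0) \ J, fun i hi => mem_compl.2 (mem_sdiff.1 hi).2,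
        y0 + dot (σ.lam e) (x (Sum.inl P.a0)) - dot (σ.lam e) (A1 ∩ J), fun h => hy0 ?_⟩
      rw [← h, hw, Finset.sum_comm, Phi]
      refine Finset.sum_congr rfl fun ε _ => ?_
      rw [Finset.smul_sum]
      refine Finset.sum_congr rfl fun t ht => congrArg (fun s => sgn ε • phi t s) ?_
      have e1 : dot (σ.dd e t) (A1 ∩ J) = dot (σ.dd e t) (x (Sum.inl P.a0) ∩ J) := by
        rw [odec_dot_inter, odec_dot_inter]
        refine hA1d _ (Submodule.mem_sup_right (mem_co.2 fun i hi => ?_))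
        rw [Pi.sub_apply, off_apply]
        split_ifs with hiJ
        · by_contra h0
          rw [sub_zero] at h0
          exact disjoint_left.1 (hJ2 e he) (mem_inter.2 ⟨hQs e t ht (mem_supp.2 h0),
            not_not.1 (mt mem_compl.2 hi)⟩) hiJ
        · exact sub_self _
      have e2 : dot (σ.dd e t) (x (Sum.inl P.a0) ∩ J) + dot (σ.dd e t) (x (Sum.inl P.a0) \ J) =
          dot (σ.dd e t) (x (Sum.inl P.a0)) := Finset.sum_inter_add_sum_sdiff _ _ _
      have e3 := val_update_a0 P (σ.lam e) x (x (Sum.inl P.a0)) ε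
      have e4 := val_update_a0 P (σ.dd e t) x (x (Sum.inl P.a0)) ε
      rw [Function.update_eq_self] at e3 e4
      have e5 := odec_val_rep P hx' (hrep e t ht).2 ε
      have e6 := hde e t ht (x (Sum.inl P.a0) \ J)
      change σ.uu e t * (y0 + val P (σ.lam e) x ε) + val P (σ.dd e t) x ε = _
      rw [e3, e4, e5, e1]
      linear_combination -e2 - e6)
  obtain ⟨c, hc⟩ : ∃ c : V, c = ∑ t ∈ (Gd.biUnion σ.LCl)ᶜ, ∑ ε : Fin k → Bool,
      sgn ε • phi t (val P (σ.lam t) (Function.update x (Sum.inl P.a0) A1) ε) := ⟨_, rfl⟩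
  have main : ∀ B ∈ fib (Hm.map (off J)) Jᶜ (A1 \ J),
      ψ (DS P σ.lam phi (Function.update x (Sum.inl P.a0) (A1 ∩ J ∪ B))) = ψ c *
        ψ (∑ e ∈ Gd, ∑ t ∈ σ.LCl e, w e t (dot (off J (σ.lam e)) B + dot (σ.de e t) B)) := by
    intro B hB
    obtain ⟨hB1, hB2⟩ := mem_fib.1 hB
    have hBJ : Disjoint B J := disjoint_left.2 fun i hi => mem_compl.1 (hB1 hi)
    have hd : Disjoint (A1 ∩ J) B := hBJ.symm.mono_left inter_subset_right
    have hoff : ∀ η : Vec p X, dot (off J η) B = dot η B := fun η => by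
      rw [dot_off, hBJ.sdiff_eq_left]
    have hη : ∀ η ∈ Hm, dot η (A1 ∩ J ∪ B) = dot η A1 := fun η hη => by
      rw [dot_union η hd, ← hoff, hB2 _ (Submodule.mem_map_of_mem hη), dot_off,
        Finset.sdiff_idem]
      exact Finset.sum_inter_add_sum_sdiff _ _ _
    have hK : KerP σ.U (A1 ∩ J ∪ B) := fun η h => by
      rw [hη η (hU h), hA1d η (Submodule.mem_sup_left h)]
      exact (hxK _).2 η h
    rw [← AddChar.map_add_eq_mul, odec_DS, ← Finset.sum_compl_add_sum (Gd.biUnion σ.LCl),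
      Finset.sum_biUnion fun e he e' he' hne =>
        (hS.disjoint_Mid (hmem e he).1 (hmem e' he').1 hne).mono (σ.LCl_subset e)
          (σ.LCl_subset e'), hc]
    refine congrArg ψ (congrArg₂ (· + ·) (Finset.sum_congr rfl fun t ht => ?_)
      (Finset.sum_congr rfl fun e he => Finset.sum_congr rfl fun t ht => ?_))
    · by_cases hs : Surv P (σ.lam t) x
      · have h1 : σ.lam t ∈ Hm := hHm ▸ Submodule.mem_sup_right (mem_spn _ (mem_sdiff.2
          ⟨mem_filter.2 ⟨mem_univ _, hs⟩, mem_compl.1 ht⟩))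
        refine Finset.sum_congr rfl fun ε _ => ?_
        rw [val_update_a0, val_update_a0 P _ x A1, hη _ h1]
      · rw [odec_dead P _ _ x hs, odec_dead P _ _ x hs]
    · rw [hw]
      refine Finset.sum_congr rfl fun ε _ => congrArg (fun s => sgn ε • phi t s) ?_
      rw [val_update_a0, hK.dot_rep (hrep e t ht).2, dot_union _ hd, dot_union _ hd, hoff]
      linear_combination -hde e t ht B
  rw [Finset.expect_congr rfl main, ← Finset.mul_expect, norm_mul, AddChar.norm_apply, one_mul]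
  exact key

end Ext

end Pool.Agent.P.MP_85fe51_lc.OD
end

-- part Pool.Agent.P.MP_85fe51_lc.OTypA
section

set_option autoImplicit false

namespace Pool.Agent.P.MP_85fe51_lc.OD

open Finset
open scoped Classical

variable {p : ℕ} [Fact p.Prime] {X : Type} [Fintype X] [DecidableEq X] {T : Type} [Fintype T]
  {k j : ℕ}

theorem otypa_union {ι L : Type} [Fintype L] {w : X → L → ℝ} (hw : IsW w) (I : Finset ι)
    (Q : ι → (X → L) → Prop) (R : (X → L) → Prop) {ε B : ℝ} (hε : 0 ≤ ε)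
    (hR : ∀ l, R l → ∃ i ∈ I, Q i l) (h : ∀ i ∈ I, ε * Pw w (Q i) ≤ B) :
    ε * Pw w R ≤ I.card * B := by
  have h1 : Pw w R ≤ ∑ i ∈ I, Pw w (Q i) :=
    (Pw_mono hw (fun l _ hl => hR l hl)).trans (Pw_exists_le hw I Q)
  calc ε * Pw w R ≤ ε * ∑ i ∈ I, Pw w (Q i) := mul_le_mul_of_nonneg_left h1 hε
    _ = ∑ i ∈ I, ε * Pw w (Q i) := Finset.mul_sum _ _ _
    _ ≤ ∑ _i ∈ I, B := Finset.sum_le_sum h
    _ = I.card * B := by rw [Finset.sum_const, nsmul_eq_mul]

theorem otypa_subSet (Y : Finset X) (l : X → Lab k j) (a : Atom k j) :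
    subSet Y l a = @Finset.filter X (fun i => (fun b : Lab k j => b = some (a, true)) (l i))
      (fun _ => Classical.propDecidable _) Y := by
  ext i
  simp only [subSet, mem_filter]

theorem otypa_atomSet (Y : Finset X) (l : X → Lab k j) (a : Atom k j) :
    atomSet Y l a = @Finset.filter X
      (fun i => (fun b : Lab k j => b = some (a, false) ∨ b = some (a, true)) (l i))
      (fun _ => Classical.propDecidable _) Y := by
  ext i
  simp only [atomSet, mem_filter]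

theorem otypa_nu_sub (hk : 1 ≤ k) (hj : 1 ≤ j) {τ : ℝ} (h0 : 0 ≤ τ) (a : Atom k j) :
    τ / (4 * j * k) ≤ ∑ b ∈ @Finset.filter (Lab k j) (fun b : Lab k j => b = some (a, true))
      (fun _ => Classical.propDecidable _) univ, nu k j τ b := by
  refine (nu_sub hk hj h0 a).trans (le_of_eq ?_)
  refine Finset.sum_congr ?_ (fun _ _ => rfl)
  ext b
  simp only [mem_filter]

theorem otypa_nu_atom (hk : 1 ≤ k) (hj : 1 ≤ j) (τ : ℝ) (a : Atom k j) :
    1 / (4 * j * k : ℝ) ≤ ∑ b ∈ @Finset.filter (Lab k j)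
      (fun b : Lab k j => b = some (a, false) ∨ b = some (a, true))
      (fun _ => Classical.propDecidable _) univ, nu k j τ b := by
  refine (nu_atom hk hj τ a).trans (le_of_eq ?_)
  refine Finset.sum_congr ?_ (fun _ _ => rfl)
  ext b
  simp only [mem_filter]

theorem otypa_one_le_Q : (1 : ℝ) ≤ (p * (Fintype.card X + 1) : ℝ) := by
  have hp : (1 : ℝ) ≤ p := by exact_mod_cast (Fact.out : p.Prime).one_lt.le
  have hx : (0 : ℝ) ≤ Fintype.card X := Nat.cast_nonneg _
  nlinarith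

/-- the enumerator of a safe space on the rare part of an atom. -/
theorem otypa_enum (hk : 1 ≤ k) (hj : 1 ≤ j) {θ τ ε ζ : ℝ} (hθ0 : 0 ≤ θ) (hθ1 : θ ≤ 1)
    (hτ0 : 0 ≤ τ) (hτ1 : τ ≤ 1) (hε : 0 ≤ ε) (Y : Finset X) {C : ℕ} (hC : 1 ≤ C) {H : Sub p X}
    (hs : Safe C H) (hY : H ≤ co Y) (hζ : ζ ≤ τ / (4 * j * k) * (1 - θ) * C)
    (hQ : (p * (Fintype.card X + 1) : ℝ) * Real.exp (-ζ) ≤ 1 / 2) (a : Atom k j) :
    ε * Pw (fun _ : X => nu k j τ) (fun l => ε ≤ enum θ H (subSet Y l a) - 1) ≤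
      2 * (p * (Fintype.card X + 1) : ℝ) ^ 2 * Real.exp (-ζ) := by
  have hw := isW_nu X hk hj hτ0 hτ1
  have hQ0 : (0 : ℝ) ≤ (p * (Fintype.card X + 1) : ℝ) := by positivity
  have hexp : Real.exp (-(τ / (4 * j * k) * (1 - θ)) * C) ≤ Real.exp (-ζ) := by
    apply Real.exp_le_exp.2
    linarith
  have h1 := Ew_markov hw (fun l => enum θ H (subSet Y l a) - 1)
    (fun l => sub_nonneg.2 (one_le_enum hθ0 _ _)) ε
  have h2 := Ew_enum hw Y (fun b : Lab k j => b = some (a, true)) (ρ := τ / (4 * j * k))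
    (by positivity) hθ0 hθ1 (fun _ _ => otypa_nu_sub hk hj hτ0 a) hC hs hY
    ((mul_le_mul_of_nonneg_left hexp hQ0).trans hQ)
  simp only [← otypa_subSet] at h2
  exact h1.trans (h2.trans (mul_le_mul_of_nonneg_left hexp (by positivity)))

theorem otypa_geom {ι : Type} [Fintype ι] {x : ℝ} (hx : 0 ≤ x) (h : Fintype.card ι * x ≤ 1) :
    ∑ F ∈ (univ : Finset (Finset ι)).filter (fun F => F.Nonempty), x ^ F.card ≤
      2 * (Fintype.card ι * x) := by
  have h1 : ∑ F ∈ (univ : Finset (Finset ι)), x ^ F.card = (x + 1) ^ Fintype.card ι := by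
    have := Finset.sum_pow_mul_eq_add_pow x 1 (univ : Finset ι)
    simpa using this
  have h2 := Finset.sum_filter_add_sum_filter_not (univ : Finset (Finset ι))
    (fun F => F.Nonempty) (fun F => x ^ F.card)
  have h3 : (univ : Finset (Finset ι)).filter (fun F => ¬ F.Nonempty) = {∅} := by
    ext F
    simp
  rw [h3, Finset.sum_singleton, Finset.card_empty, pow_zero, h1] at h2
  have h4 : (x + 1) ^ Fintype.card ι ≤ Real.exp (Fintype.card ι * x) := by
    rw [Real.exp_nat_mul]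
    exact pow_le_pow_left₀ (by linarith) (Real.add_one_le_exp x) _
  have hy : 0 ≤ (Fintype.card ι : ℝ) * x := by positivity
  have h5 := Real.abs_exp_sub_one_le (x := Fintype.card ι * x) (by rw [abs_of_nonneg hy]; exact h)
  rw [abs_of_nonneg hy] at h5
  have h6 := le_abs_self (Real.exp (Fintype.card ι * x) - 1)
  linarith

namespace Ext
variable (σ : Ext p X T) (P : Pat k j) {Seq : Finset T} {θ τ ε ζ : ℝ}

theorem fail_t1 (hk : 1 ≤ k) (hj : 1 ≤ j) (hθ0 : 0 ≤ θ) (hθ1 : θ ≤ 1) (hτ0 : 0 ≤ τ) (hτ1 : τ ≤ 1)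
    (hε : 0 < ε) (hζ : ζ ≤ τ / (4 * j * k) * (1 - θ) * σ.CH / 2)
    (hQ : (p * (Fintype.card X + 1) : ℝ) * Real.exp (-ζ) ≤ 1 / 2) :
    ε * Pw (fun _ : X => nu k j τ) (fun l => ¬ ∀ a, enum θ σ.U' (subSet σ.Y l a) ≤ 1 + ε) ≤
      (k + 1) * j * (2 * (p * (Fintype.card X + 1) : ℝ) ^ 2 * Real.exp (-ζ)) := by
  have hw := isW_nu X hk hj hτ0 hτ1
  have hpos : 0 ≤ τ / (4 * j * k) * (1 - θ) * σ.CH := by
    have : 0 ≤ 1 - θ := by linarith
    positivity
  have h := otypa_union hw (univ : Finset (Atom k j))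
    (fun a l => ε ≤ enum θ σ.U' (subSet σ.Y l a) - 1)
    (fun l => ¬ ∀ a, enum θ σ.U' (subSet σ.Y l a) ≤ 1 + ε) hε.le
    (fun l hl => by
      obtain ⟨a, ha⟩ := not_forall.1 hl
      exact ⟨a, mem_univ _, by linarith [not_le.1 ha]⟩)
    (fun a _ => otypa_enum hk hj hθ0 hθ1 hτ0 hτ1 hε.le σ.Y σ.one_le_CH
      (σ.safe.mono (by omega)) σ.U'_le (by linarith) hQ a)
  refine h.trans (le_of_eq ?_)
  simp [Atom]

theorem fail_t2 (hS : σ.SeqOK Seq) (hk : 1 ≤ k) (hj : 1 ≤ j) (hθ0 : 0 ≤ θ) (hθ1 : θ ≤ 1)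
    (hτ0 : 0 ≤ τ) (hτ1 : τ ≤ 1) (hε : 0 < ε) (hζ : ζ ≤ τ / (4 * j * k) * (1 - θ) * σ.CH / 2)
    (hQ : (p * (Fintype.card X + 1) : ℝ) * Real.exp (-ζ) ≤ 1 / 2) :
    ε * Pw (fun _ : X => nu k j τ) (fun l => ¬ ∀ i ∈ Seq, ∀ a,
      enum θ ((σ.Ht (σ.past Seq i) ⊔ Submodule.span (ZMod p) {σ.lam i}).map
        (off (σ.Jt (σ.past Seq i)))) (subSet σ.Y l a) ≤ 1 + ε) ≤
      Fintype.card T * ((k + 1) * j * (2 * (p * (Fintype.card X + 1) : ℝ) ^ 2 * Real.exp (-ζ))) := by
  have hw := isW_nu X hk hj hτ0 hτ1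
  have hpos : 0 ≤ τ / (4 * j * k) * (1 - θ) * σ.CH := by
    have : 0 ≤ 1 - θ := by linarith
    positivity
  have h := otypa_union hw (Seq ×ˢ (univ : Finset (Atom k j)))
    (fun q l => ε ≤ enum θ ((σ.Ht (σ.past Seq q.1) ⊔ Submodule.span (ZMod p) {σ.lam q.1}).map
        (off (σ.Jt (σ.past Seq q.1)))) (subSet σ.Y l q.2) - 1)
    (fun l => ¬ ∀ i ∈ Seq, ∀ a,
      enum θ ((σ.Ht (σ.past Seq i) ⊔ Submodule.span (ZMod p) {σ.lam i}).map
        (off (σ.Jt (σ.past Seq i)))) (subSet σ.Y l a) ≤ 1 + ε) hε.le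
    (fun l hl => by
      obtain ⟨i, hi⟩ := not_forall.1 hl
      obtain ⟨hi, hi'⟩ := Classical.not_imp.1 hi
      obtain ⟨a, ha⟩ := not_forall.1 hi'
      exact ⟨(i, a), mem_product.2 ⟨hi, mem_univ _⟩, by linarith [not_le.1 ha]⟩)
    (fun q hq => otypa_enum hk hj hθ0 hθ1 hτ0 hτ1 hε.le σ.Y σ.one_le_CH
      (safe_sup_span (σ.co_Jt_le _) (σ.safe_Ht _)
        (le_trans (by omega) (σ.heavy_Ht (hS.not_moved_past (mem_product.1 hq).1))))
      ((map_off_le _ _).trans (co_mono (fun x hx => by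
        by_contra hx'
        exact (mem_compl.1 hx) (σ.compl_subset_Jt _ (mem_compl.2 hx')))))
      (by linarith) hQ q.2)
  refine h.trans ?_
  have hc : ((Seq ×ˢ (univ : Finset (Atom k j))).card : ℝ) ≤ Fintype.card T * ((k + 1) * j) := by
    rw [card_product, Nat.cast_mul]
    refine mul_le_mul (by exact_mod_cast card_le_univ Seq) (le_of_eq ?_) (by positivity)
      (by positivity)
    simp [Atom]
  calc _ ≤ (Fintype.card T * ((k + 1) * j) : ℝ) *
        (2 * (p * (Fintype.card X + 1) : ℝ) ^ 2 * Real.exp (-ζ)) :=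
        mul_le_mul_of_nonneg_right hc (by positivity)
    _ = _ := by ring

theorem fail_t3 (hS : σ.SeqOK Seq) (hk : 1 ≤ k) (hj : 1 ≤ j) (hθ0 : 0 ≤ θ) (hθ1 : θ ≤ 1)
    (hτ0 : 0 ≤ τ) (hτ1 : τ ≤ 1) (hε : 0 < ε) (hζ : ζ ≤ τ / (4 * j * k) * (1 - θ) * σ.CH / 2)
    (hζ' : ζ ≤ 1 / (4 * j * k) * (1 - θ) * σ.r)
    (hQ : (p * (Fintype.card X + 1) : ℝ) * Real.exp (-ζ) ≤ 1 / 2) :
    ε * Pw (fun _ : X => nu k j τ) (fun l => ¬ ∀ i ∈ Seq, ∀ t ∈ σ.Mid i, t ∉ σ.LCl i →
      ∀ u u' : ZMod p, (u ≠ 0 ∨ u' ≠ 0) → ∀ b,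
        cenum θ (off (σ.Jt (σ.past Seq i)) (u • σ.lam i + u' • σ.lam t))
          ((σ.Ht (σ.past Seq i)).map (off (σ.Jt (σ.past Seq i)))) (atomSet σ.Y l (P.ab b)) ≤ ε) ≤
      (Fintype.card T : ℝ) ^ 2 * p ^ 2 * k *
        (3 * (p * (Fintype.card X + 1) : ℝ) ^ 2 * Real.exp (-ζ)) := by
  have hw := isW_nu X hk hj hτ0 hτ1
  have hθ' : 0 ≤ 1 - θ := by linarith
  have hQ1 := otypa_one_le_Q (p := p) (X := X)
  have hQ0 : (0 : ℝ) ≤ (p * (Fintype.card X + 1) : ℝ) := by positivity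
  have hρ : τ / (4 * j * k) * (1 - θ) * σ.CH / 2 ≤ 1 / (4 * j * k) * (1 - θ) * σ.CH / 2 := by
    gcongr
  have hexp : Real.exp (-(1 / (4 * j * k : ℝ) * (1 - θ)) * σ.CH / 2) ≤ Real.exp (-ζ) := by
    apply Real.exp_le_exp.2
    linarith
  have hexp' : Real.exp (-(1 / (4 * j * k : ℝ) * (1 - θ)) * σ.r) ≤ Real.exp (-ζ) := by
    apply Real.exp_le_exp.2
    linarith
  have h := otypa_union (B := 3 * (p * (Fintype.card X + 1) : ℝ) ^ 2 * Real.exp (-ζ)) hw
    ((univ : Finset (T × T × ZMod p × ZMod p × Fin k)).filter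
      (fun q => q.1 ∈ Seq ∧ q.2.1 ∈ σ.Mid q.1 ∧ q.2.1 ∉ σ.LCl q.1 ∧ (q.2.2.1 ≠ 0 ∨ q.2.2.2.1 ≠ 0)))
    (fun q l => ε ≤ cenum θ (off (σ.Jt (σ.past Seq q.1)) (q.2.2.1 • σ.lam q.1 + q.2.2.2.1 • σ.lam q.2.1))
          ((σ.Ht (σ.past Seq q.1)).map (off (σ.Jt (σ.past Seq q.1)))) (atomSet σ.Y l (P.ab q.2.2.2.2)))
    (fun l => ¬ ∀ i ∈ Seq, ∀ t ∈ σ.Mid i, t ∉ σ.LCl i →
      ∀ u u' : ZMod p, (u ≠ 0 ∨ u' ≠ 0) → ∀ b,
        cenum θ (off (σ.Jt (σ.past Seq i)) (u • σ.lam i + u' • σ.lam t))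
          ((σ.Ht (σ.past Seq i)).map (off (σ.Jt (σ.past Seq i)))) (atomSet σ.Y l (P.ab b)) ≤ ε) hε.le
    (fun l hl => by
      by_contra hcon
      apply hl
      intro i hi t ht ht' u u' hu b
      by_contra hb
      exact hcon ⟨(i, t, u, u', b), mem_filter.2 ⟨mem_univ _, hi, ht, ht', hu⟩, (not_le.1 hb).le⟩)
    (fun q hq => by
      obtain ⟨i, t, u, u', b⟩ := q
      obtain ⟨-, hi, ht, ht', hu⟩ := mem_filter.1 hq
      have hJ : (σ.Jt (σ.past Seq i))ᶜ ⊆ σ.Y := fun x hx => by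
        by_contra hx'
        exact (mem_compl.1 hx) (σ.compl_subset_Jt _ (mem_compl.2 hx'))
      have h1 := Ew_markov hw (fun l => cenum θ
        (off (σ.Jt (σ.past Seq i)) (u • σ.lam i + u' • σ.lam t))
          ((σ.Ht (σ.past Seq i)).map (off (σ.Jt (σ.past Seq i)))) (atomSet σ.Y l (P.ab b)))
        (fun l => cenum_nonneg hθ0 _ _ _) ε
      have h2 := Ew_cenum hw σ.Y
        (fun c : Lab k j => c = some (P.ab b, false) ∨ c = some (P.ab b, true))
        (ρ := 1 / (4 * j * k : ℝ)) (by positivity) hθ0 hθ1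
        (fun _ _ => otypa_nu_atom hk hj τ (P.ab b)) σ.one_le_CH
        ((σ.safe_Ht (σ.past Seq i)).mono (by omega))
        ((map_off_le _ _).trans (co_mono hJ))
        ((mul_le_mul_of_nonneg_left hexp hQ0).trans hQ)
        (off (σ.Jt (σ.past Seq i)) (u • σ.lam i + u' • σ.lam t))
        (by
          rw [supp_off]
          intro x hx
          exact hJ (mem_compl.2 (mem_sdiff.1 hx).2))
        σ.r
        (fun η hη => (σ.far_Ht (hS i hi).1 (hS.not_moved_past hi) ht ht' u u' hu).le.trans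
          (wtm_le_off (σ.co_Jt_le _) _ hη))
      simp only [← otypa_atomSet] at h2
      refine h1.trans (h2.trans ?_)
      have h3 : (1 : ℝ) ≤ (p * (Fintype.card X + 1) : ℝ) ^ 2 := one_le_pow₀ hQ1
      have h4 := mul_le_mul_of_nonneg_left hexp
        (show (0 : ℝ) ≤ 2 * (p * (Fintype.card X + 1) : ℝ) ^ 2 by positivity)
      have h5 := mul_le_mul_of_nonneg_right h3 (Real.exp_pos (-ζ)).le
      linarith)
  refine h.trans (mul_le_mul_of_nonneg_right ?_ (by positivity))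
  have hc := card_filter_le (univ : Finset (T × T × ZMod p × ZMod p × Fin k))
    (fun q => q.1 ∈ Seq ∧ q.2.1 ∈ σ.Mid q.1 ∧ q.2.1 ∉ σ.LCl q.1 ∧ (q.2.2.1 ≠ 0 ∨ q.2.2.2.1 ≠ 0))
  refine (Nat.cast_le.2 hc).trans (le_of_eq ?_)
  simp only [card_univ, Fintype.card_prod, ZMod.card, Fintype.card_fin]
  push_cast
  ring

theorem fail_t4 (hk : 1 ≤ k) (hj : 1 ≤ j) (hθ0 : 0 ≤ θ) (hθ1 : θ ≤ 1) (hτ0 : 0 ≤ τ) (hτ1 : τ ≤ 1)
    {g : ℕ} (hg1 : 1 ≤ g) (hg : Fintype.card T ≤ 2 ^ g)
    (hζ : ζ ≤ 1 / (4 * j * k) * (1 - θ) * σ.CH / (4 * k * g : ℕ))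
    (hQ : 2 * (p * (Fintype.card X + 1) : ℝ) ^ 2 * Real.exp (-ζ) ≤ 1 / (4 * k * g : ℕ)) :
    Pw (fun _ : X => nu k j τ) (fun l => ¬ ∀ F : Finset T, σ.Free F → F.Nonempty → ∀ b,
      enum θ (σ.HF F) (atomSet σ.Y l (P.ab b)) ^ (4 * k) ≤ 2 ^ F.card) ≤
      6 * k * Fintype.card T / 2 ^ g := by
  have hw := isW_nu X hk hj hτ0 hτ1
  have hm : 1 ≤ 4 * k * g := Nat.mul_pos (by omega) hg1
  have hexp : Real.exp (-(1 / (4 * j * k : ℝ) * (1 - θ)) * σ.CH / (4 * k * g : ℕ)) ≤
      Real.exp (-ζ) := by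
    apply Real.exp_le_exp.2
    rw [neg_mul, neg_div]
    linarith
  have h2g : (0 : ℝ) < 2 ^ g := by positivity
  have hone : ∀ F : Finset T, ∀ b : Fin k,
      Pw (fun _ : X => nu k j τ) (fun l => σ.Free F ∧
        ¬ enum θ (σ.HF F) (atomSet σ.Y l (P.ab b)) ^ (4 * k) ≤ 2 ^ F.card) ≤
        3 * (1 / 2 ^ g) ^ F.card := by
    intro F b
    by_cases hF : σ.Free F
    · have h1 := Ew_markov hw (fun l => enum θ (σ.HF F) (atomSet σ.Y l (P.ab b)) ^ (4 * k * g))
        (fun l => pow_nonneg (zero_le_one.trans (one_le_enum hθ0 _ _)) _) ((2 ^ g) ^ F.card)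
      have h2 := Ew_enum_pow hw σ.Y
        (fun c : Lab k j => c = some (P.ab b, false) ∨ c = some (P.ab b, true))
        (ρ := 1 / (4 * j * k : ℝ)) (by positivity) hθ0 hθ1
        (fun _ _ => otypa_nu_atom hk hj τ (P.ab b)) σ.one_le_CH (σ.free_struct hF).2.1
        (σ.HF_le F) hm ((mul_le_mul_of_nonneg_left hexp (by positivity)).trans hQ)
      simp only [← otypa_atomSet] at h2
      have h3 := Pw_mono hw (P := fun l => σ.Free F ∧
          ¬ enum θ (σ.HF F) (atomSet σ.Y l (P.ab b)) ^ (4 * k) ≤ 2 ^ F.card)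
        (Q := fun l => ((2 : ℝ) ^ g) ^ F.card ≤
          enum θ (σ.HF F) (atomSet σ.Y l (P.ab b)) ^ (4 * k * g)) (fun l _ hl => by
          rw [← pow_mul, mul_comm g, pow_mul, pow_mul _ (4 * k) g]
          exact pow_le_pow_left₀ (by positivity) (not_le.1 hl.2).le _)
      have h4 : (0 : ℝ) < (2 ^ g) ^ F.card := by positivity
      rw [one_div, inv_pow, ← div_eq_mul_inv, le_div_iff₀ h4]
      have h5 := mul_le_mul_of_nonneg_left h3 h4.le
      linarith
    · refine (Pw_mono hw (Q := fun _ => False) (fun l _ hl => hF hl.1)).trans ?_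
      have : Pw (fun _ : X => nu k j τ) (fun _ => False) = 0 := by
        simp [Pw, Ew]
      rw [this]
      positivity
  have hU := Pw_exists_le hw
    (((univ : Finset (Finset T)).filter (fun F => F.Nonempty)) ×ˢ (univ : Finset (Fin k)))
    (fun q l => σ.Free q.1 ∧
      ¬ enum θ (σ.HF q.1) (atomSet σ.Y l (P.ab q.2)) ^ (4 * k) ≤ 2 ^ q.1.card)
  have hx : (Fintype.card T : ℝ) * (1 / 2 ^ g) ≤ 1 := by
    rw [mul_one_div, div_le_one h2g]
    exact_mod_cast hg
  have hG := otypa_geom (ι := T) (x := 1 / 2 ^ g) (by positivity) hx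
  refine (Pw_mono hw (fun l _ hl => ?_)).trans (hU.trans ?_)
  · by_contra hcon
    apply hl
    intro F hF hne b
    by_contra hb
    exact hcon ⟨(F, b), mem_product.2 ⟨mem_filter.2 ⟨mem_univ _, hne⟩, mem_univ _⟩, hF, hb⟩
  · refine (Finset.sum_le_sum (fun q _ => hone q.1 q.2)).trans ?_
    rw [Finset.sum_product]
    simp only [Finset.sum_const, card_univ, Fintype.card_fin, nsmul_eq_mul]
    rw [← Finset.mul_sum, ← Finset.mul_sum]
    calc (k : ℝ) * (3 * ∑ F ∈ (univ : Finset (Finset T)).filter (fun F => F.Nonempty),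
          ((1 : ℝ) / 2 ^ g) ^ F.card) ≤ k * (3 * (2 * (Fintype.card T * (1 / 2 ^ g)))) := by
          gcongr
      _ = _ := by ring

theorem fail_t5 (hS : σ.SeqOK Seq) (hk : 1 ≤ k) (hj : 1 ≤ j) (hτ0 : 0 ≤ τ) (hτ1 : τ ≤ 1) {C' : ℕ}
    (hC : 1 ≤ C') (hζ : ζ ≤ τ / (4 * j * k) / (8 * C') * σ.CH)
    (hQ : (p * (Fintype.card X + 1) : ℝ) * Real.exp (-ζ) ≤ 1 / 2) :
    Pw (fun _ : X => nu k j τ) (fun l =>
      ¬ SafeOn (subSet σ.Y l P.a0) (2 * C') ((σ.U ⊔ spn σ.lam Seq).map (off σ.Yᶜ))) ≤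
      4 * (p * (Fintype.card X + 1) : ℝ) ^ 2 * Real.exp (-ζ) := by
  have hw := isW_nu X hk hj hτ0 hτ1
  have hC' : (1 : ℝ) ≤ C' := by exact_mod_cast hC
  have hq0 : (0 : ℝ) ≤ 1 / (8 * C') := by positivity
  have hq1 : (1 : ℝ) / (8 * C') ≤ 1 := by
    rw [div_le_one (by positivity)]
    linarith
  have hb : (3 / 4 : ℝ) ≤ (1 - 1 / (8 * C')) ^ (2 * C') := by
    have h := one_add_mul_le_pow (a := -(1 / (8 * C') : ℝ)) (by linarith) (2 * C')
    have e : (1 : ℝ) + (2 * C' : ℕ) * -(1 / (8 * C') : ℝ) = 3 / 4 := by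
      push_cast
      field_simp
      ring
    rw [e, ← sub_eq_add_neg] at h
    exact h
  have h := otypa_enum (θ := 1 - 1 / (8 * C')) (ε := 1 / 2) (ζ := ζ) hk hj (by linarith)
    (by linarith) hτ0 hτ1 (by norm_num) σ.Y σ.one_le_CH hS.safe.1
    ((map_off_le _ _).trans (co_mono (by rw [compl_compl])))
    (by
      refine hζ.trans (le_of_eq ?_)
      ring) hQ P.a0
  have h2 := Pw_mono hw (P := fun l =>
      ¬ SafeOn (subSet σ.Y l P.a0) (2 * C') ((σ.U ⊔ spn σ.lam Seq).map (off σ.Yᶜ)))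
    (Q := fun l => (1 / 2 : ℝ) ≤ enum (1 - 1 / (8 * C'))
      ((σ.U ⊔ spn σ.lam Seq).map (off σ.Yᶜ)) (subSet σ.Y l P.a0) - 1) (fun l _ hl => by
      by_contra hcon
      exact hl (safeOn_of_enum (by linarith) (by linarith) hb (by linarith [not_le.1 hcon])))
  linarith

end Ext

end Pool.Agent.P.MP_85fe51_lc.OD
end

-- part Pool.Agent.P.MP_85fe51_lc.OTyp
section

set_option autoImplicit false

namespace Pool.Agent.P.MP_85fe51_lc.OD

open Finset
open scoped Classical

variable {p : ℕ} [Fact p.Prime] {X : Type} [Fintype X] [DecidableEq X] {T : Type} [Fintype T]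
  {k j : ℕ} {V : Type} [AddCommGroup V]

namespace Ext
variable (σ : Ext p X T) (P : Pat k j) (phi : T → ZMod p → V) {Seq : Finset T} {θ τ ε ζ : ℝ}

theorem otyp_pfe_nonneg (e : T) (l : X → Lab k j) : 0 ≤ σ.pfe P phi e l := pr_nonneg _ _

theorem otyp_pfe_le (e : T) (l : X → Lab k j) : σ.pfe P phi e l ≤ 1 := pr_le_one _ _

theorem otyp_bad (hk : 1 ≤ k) (hj : 1 ≤ j) (hτ0 : 0 ≤ τ) (hτ1 : τ ≤ 1) (c1 : ℕ) {e : T}
    (he : σ.Heavy e) :
    Pw (fun _ : X => nu k j τ) (fun l => ¬ σ.Good c1 l e) ≤ σ.M4 * (σ.r * τ) ^ (c1 + 1) := by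
  have hw := isW_nu X hk hj hτ0 hτ1
  have h1 : Pw (fun _ : X => nu k j τ) (fun l => ¬ σ.Good c1 l e) ≤
      Pw (fun _ : X => nu k j τ) (fun l => ∃ t ∈ σ.LCl e, c1 + 1 ≤
        ((supp (σ.dd e t)).filter (fun i => ∃ a, l i = some (a, true))).card) := by
    refine Pw_mono hw ?_
    intro l _ h
    unfold Good at h
    push Not at h
    obtain ⟨t, ht, a, ha⟩ := h
    refine ⟨t, ht, le_trans ha (card_le_card ?_)⟩
    intro i hi
    rw [mem_inter] at hi
    rw [mem_filter]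
    exact ⟨hi.1, a, (mem_filter.1 hi.2).2⟩
  refine h1.trans ((Pw_exists_le hw _ _).trans ?_)
  have h2 : ∀ t ∈ σ.LCl e, Pw (fun _ : X => nu k j τ) (fun l => c1 + 1 ≤
      ((supp (σ.dd e t)).filter (fun i => ∃ a, l i = some (a, true))).card) ≤
      (σ.r * τ) ^ (c1 + 1) := by
    intro t ht
    have h3 := Pw_many hw (supp (σ.dd e t)) (fun b : Lab k j => ∃ a, b = some (a, true)) hτ0
      (fun _ _ => by
        refine le_trans (le_of_eq (sum_congr ?_ (fun _ _ => rfl))) (nu_sub_all (τ := τ) hk hj hτ0)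
        ext b
        simp only [mem_filter]) (c1 + 1)
    have h4 : ((supp (σ.dd e t)).card : ℝ) ≤ σ.r := by
      have := (mem_filter.1 ht).2
      exact_mod_cast this
    refine le_trans (Pw_mono hw ?_) (h3.trans ?_)
    · intro l _ h
      refine h.trans (card_le_card ?_)
      intro i hi
      simp only [mem_filter] at hi ⊢
      exact hi
    · exact pow_le_pow_left₀ (by positivity) (mul_le_mul_of_nonneg_right h4 hτ0) _
  refine (sum_le_card_nsmul _ _ _ h2).trans ?_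
  rw [nsmul_eq_mul]
  refine mul_le_mul_of_nonneg_right ?_ (by positivity)
  have h5 : (σ.LCl e).card ≤ σ.M4 := (card_le_card (σ.LCl_subset e)).trans (σ.mid e he)
  exact_mod_cast h5

theorem otyp_one (hk : 1 ≤ k) (hj : 1 ≤ j) (hτ0 : 0 ≤ τ) (hτ1 : τ ≤ 1) {pmin : ℝ} {c1 : ℕ}
    {e : T} (he : σ.Heavy e) (hch : pmin ≤ σ.abar P phi τ e)
    (hc : σ.M4 * (σ.r * τ) ^ (c1 + 1) ≤ pmin / 2) :
    Ew (fun _ : X => nu k j τ)
      (fun l => 1 - (if σ.Good c1 l e then σ.pfe P phi e l else 0) / 2) ≤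
      Real.exp (-(pmin / 4)) := by
  have hw := isW_nu X hk hj hτ0 hτ1
  have h1 := σ.otyp_bad hk hj hτ0 hτ1 c1 he
  have h2 : Ew (fun _ : X => nu k j τ)
      (fun l => 1 - (if σ.Good c1 l e then σ.pfe P phi e l else 0) / 2) ≤
      Ew (fun _ : X => nu k j τ) (fun l => (1 - (1 / 2) * σ.pfe P phi e l) +
        (1 / 2) * (if ¬ σ.Good c1 l e then (1 : ℝ) else 0)) := by
    refine Ew_mono hw ?_
    intro l _
    have := σ.otyp_pfe_le P phi e l
    by_cases h : σ.Good c1 l e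
    · rw [if_pos h, if_neg (not_not.2 h)]
      linarith
    · rw [if_neg h, if_pos h]
      linarith
  refine h2.trans ?_
  rw [Ew_add, Ew_sub, Ew_const hw, Ew_mul, Ew_mul]
  have h3 : Ew (fun _ : X => nu k j τ) (fun l => if ¬ σ.Good c1 l e then (1 : ℝ) else 0) =
      Pw (fun _ : X => nu k j τ) (fun l => ¬ σ.Good c1 l e) := by
    unfold Pw
    congr 1
    funext l
    congr
  have h4 : Ew (fun _ : X => nu k j τ) (fun l => σ.pfe P phi e l) = σ.abar P phi τ e := rfl
  rw [h3, h4]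
  have h5 := Real.add_one_le_exp (-(pmin / 4))
  linarith

theorem fail_t6 (hS : σ.SeqOK Seq) (hk : 1 ≤ k) (hj : 1 ≤ j) (hτ0 : 0 ≤ τ) (hτ1 : τ ≤ 1)
    {pmin : ℝ} {c1 : ℕ} (hch : ∀ e ∈ Seq, pmin ≤ σ.abar P phi τ e)
    (hc : σ.M4 * (σ.r * τ) ^ (c1 + 1) ≤ pmin / 2) :
    Pw (fun _ : X => nu k j τ) (fun l =>
      ¬ ∏ i ∈ Seq, (1 - (if σ.Good c1 l i then σ.pfe P phi i l else 0) / 2) ≤
        Real.exp (-(Seq.card * pmin) / 8)) ≤ Real.exp (-(Seq.card * pmin) / 8) := by
  have hw := isW_nu X hk hj hτ0 hτ1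
  have hF : ∀ i l, 0 ≤ 1 - (if σ.Good c1 l i then σ.pfe P phi i l else 0) / 2 := by
    intro i l
    have := σ.otyp_pfe_le P phi i l
    split_ifs <;> linarith
  have h1 := Ew_indep hw Seq σ.Qs (fun i hi i' hi' h => hS.disjoint_Qs hi hi' h)
    (fun i l => 1 - (if σ.Good c1 l i then σ.pfe P phi i l else 0) / 2) (by
      intro i _ l l' h
      rw [σ.pfe_congr P phi i h]
      by_cases hg : σ.Good c1 l i
      · rw [if_pos hg, if_pos ((σ.good_congr c1 i h).1 hg)]
      · rw [if_neg hg, if_neg (fun h' => hg ((σ.good_congr c1 i h).2 h'))])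
  have h2 : ∏ i ∈ Seq, Ew (fun _ : X => nu k j τ)
      (fun l => 1 - (if σ.Good c1 l i then σ.pfe P phi i l else 0) / 2) ≤
      ∏ _i ∈ Seq, Real.exp (-(pmin / 4)) :=
    prod_le_prod (fun i _ => Ew_nonneg hw (hF i))
      (fun i hi => σ.otyp_one P phi hk hj hτ0 hτ1 (hS i hi).1 (hch i hi) hc)
  rw [prod_const, ← Real.exp_nat_mul, ← h1] at h2
  have h3 := Ew_markov hw
    (fun l => ∏ i ∈ Seq, (1 - (if σ.Good c1 l i then σ.pfe P phi i l else 0) / 2))
    (fun l => prod_nonneg (fun i _ => hF i l)) (Real.exp (-(Seq.card * pmin) / 8))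
  have h4 : Real.exp (Seq.card * -(pmin / 4)) =
      Real.exp (-(Seq.card * pmin) / 8) * Real.exp (-(Seq.card * pmin) / 8) := by
    rw [← Real.exp_add]
    congr 1
    ring
  have h5 := h3.trans h2
  rw [h4] at h5
  refine le_trans (Pw_mono hw ?_) (le_of_mul_le_mul_left h5 (Real.exp_pos _))
  intro l _ h
  exact (not_le.1 h).le

/-- typical labels with a large bias exist. -/
theorem exists_typ (hS : σ.SeqOK Seq) (hk : 1 ≤ k) (hj : 1 ≤ j) (hθ0 : 0 ≤ θ) (hθ1 : θ ≤ 1)
    (hτ0 : 0 ≤ τ) (hτ1 : τ ≤ 1) (hε : 0 < ε) (hε1 : ε ≤ 1) {pmin β : ℝ} {c1 C' g : ℕ}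
    (hC : 1 ≤ C') (hg1 : 1 ≤ g) (hβ : 0 < β)
    (hch : ∀ e ∈ Seq, pmin ≤ σ.abar P phi τ e) (hc : σ.M4 * (σ.r * τ) ^ (c1 + 1) ≤ pmin / 2)
    (z1 : ζ ≤ τ / (4 * j * k) * (1 - θ) * σ.CH / 2) (z2 : ζ ≤ 1 / (4 * j * k) * (1 - θ) * σ.r)
    (z3 : ζ ≤ 1 / (4 * j * k) * (1 - θ) * σ.CH / (4 * k * g : ℕ))
    (z4 : ζ ≤ τ / (4 * j * k) / (8 * C') * σ.CH)
    (hbig : 400 * (p * (Fintype.card X + 1) : ℝ) ^ 2 * (Fintype.card T + 1) ^ 2 * p ^ 2 *
      (k + 1) * j * g * Real.exp (-ζ) ≤ ε * β)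
    (hg : 48 * k * Fintype.card T ≤ β * 2 ^ g) (hμ : Real.exp (-(Seq.card * pmin) / 8) ≤ β / 8)
    (bias : (X → Lab k j) → ℝ) (hb1 : ∀ l, bias l ≤ 1)
    (hb : β ≤ Ew (fun _ : X => nu k j τ) bias) :
    ∃ l, β / 2 ≤ bias l ∧ σ.Typ P phi Seq θ ε (Seq.card * pmin) c1 C' l := by
  have hw := isW_nu X hk hj hτ0 hτ1
  have hβ1 : β ≤ 1 := by
    have := Ew_mono hw (F := bias) (G := fun _ => 1) (fun l _ => hb1 l)
    rw [Ew_const hw] at this
    exact hb.trans this
  have hp : (1 : ℝ) ≤ p := by exact_mod_cast (Fact.out : p.Prime).one_le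
  have hk' : (1 : ℝ) ≤ k := by exact_mod_cast hk
  have hj' : (1 : ℝ) ≤ j := by exact_mod_cast hj
  have hg' : (1 : ℝ) ≤ g := by exact_mod_cast hg1
  have hX : (0 : ℝ) ≤ Fintype.card X := Nat.cast_nonneg _
  have hL : (0 : ℝ) ≤ Fintype.card T := Nat.cast_nonneg _
  have hE : 0 < Real.exp (-ζ) := Real.exp_pos _
  have hQ1 : (1 : ℝ) ≤ p * (Fintype.card X + 1) := one_le_mul_of_one_le_of_one_le hp (by linarith)
  have hεβ : ε * β ≤ 1 := mul_le_one₀ hε1 hβ.le hβ1
  have hεβ' : ε * β ≤ β := mul_le_of_le_one_left hβ.le hε1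
  obtain ⟨A, hA⟩ : ∃ A : ℝ, A = (p * (Fintype.card X + 1) : ℝ) ^ 2 * Real.exp (-ζ) := ⟨_, rfl⟩
  have hA0 : 0 ≤ A := by rw [hA]; positivity
  have key : ∀ c : ℝ, c ≤ (Fintype.card T + 1) ^ 2 * p ^ 2 * (k + 1) * j * g →
      400 * (c * A) ≤ ε * β := by
    intro c hc'
    refine le_trans ?_ hbig
    have := mul_le_mul_of_nonneg_right hc' hA0
    rw [hA] at this ⊢
    linarith
  have hL2 : (1 : ℝ) ≤ (Fintype.card T + 1) ^ 2 := one_le_pow₀ (by linarith)
  have hp2 : (1 : ℝ) ≤ (p : ℝ) ^ 2 := one_le_pow₀ hp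
  have gen : ∀ a b c d e : ℝ, 0 ≤ a → 0 ≤ b → 0 ≤ c → 0 ≤ d → 0 ≤ e →
      a ≤ (Fintype.card T + 1) ^ 2 → b ≤ (p : ℝ) ^ 2 → c ≤ k + 1 → d ≤ j → e ≤ g →
      400 * (a * b * c * d * e * A) ≤ ε * β := by
    intro a b c d e ha hb' hc' hd he ha1 hb1' hc1 hd1 he1
    refine key _ ?_
    gcongr
  have k0 := gen 1 1 1 1 1 zero_le_one zero_le_one zero_le_one zero_le_one zero_le_one hL2 hp2
    (by linarith) hj' hg'
  have k1 := gen 1 1 (k + 1) j 1 zero_le_one zero_le_one (by linarith) (by linarith) zero_le_one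
    hL2 hp2 le_rfl le_rfl hg'
  have k2 := gen (Fintype.card T) 1 (k + 1) j 1 hL zero_le_one (by linarith) (by linarith)
    zero_le_one (by nlinarith) hp2 le_rfl le_rfl hg'
  have k3 := gen ((Fintype.card T : ℝ) ^ 2) ((p : ℝ) ^ 2) k 1 1 (by positivity) (by positivity)
    (by linarith) zero_le_one zero_le_one (by nlinarith) le_rfl (by linarith) hj' hg'
  have k4 := gen 1 1 k 1 g zero_le_one zero_le_one (by linarith) zero_le_one (by linarith)
    hL2 hp2 (by linarith) hj' le_rfl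
  have hQ : (p * (Fintype.card X + 1) : ℝ) * Real.exp (-ζ) ≤ 1 / 2 := by
    have h1 : (p * (Fintype.card X + 1) : ℝ) ≤ (p * (Fintype.card X + 1) : ℝ) ^ 2 := by nlinarith
    have h2 := mul_le_mul_of_nonneg_right h1 hE.le
    rw [← hA] at h2
    linarith
  have hgT : Fintype.card T ≤ 2 ^ g := by
    have h1 : β * 2 ^ g ≤ 2 ^ g := mul_le_of_le_one_left (by positivity) hβ1
    have h2 : (Fintype.card T : ℝ) ≤ 48 * k * Fintype.card T :=
      le_mul_of_one_le_left hL (by linarith)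
    have h3 : (Fintype.card T : ℝ) ≤ 2 ^ g := by linarith
    exact_mod_cast h3
  have hQ4 : 2 * (p * (Fintype.card X + 1) : ℝ) ^ 2 * Real.exp (-ζ) ≤ 1 / (4 * k * g : ℕ) := by
    have h0 : (0 : ℝ) < (4 * k * g : ℕ) := by
      have : 0 < 4 * k * g := by positivity
      exact_mod_cast this
    rw [le_div_iff₀ h0, mul_assoc 2, ← hA]
    push_cast
    linarith
  have f1 := σ.fail_t1 hk hj hθ0 hθ1 hτ0 hτ1 hε z1 hQ
  have f2 := σ.fail_t2 hS hk hj hθ0 hθ1 hτ0 hτ1 hε z1 hQ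
  have f3 := σ.fail_t3 P hS hk hj hθ0 hθ1 hτ0 hτ1 hε z1 z2 hQ
  have f4 := σ.fail_t4 P hk hj hθ0 hθ1 hτ0 hτ1 hg1 hgT z3 hQ4
  have f5 := σ.fail_t5 P hS hk hj hτ0 hτ1 hC z4 hQ
  have f6 := (σ.fail_t6 P phi hS hk hj hτ0 hτ1 hch hc).trans hμ
  rw [mul_assoc 2, ← hA] at f1 f2
  rw [mul_assoc 3, ← hA] at f3
  rw [mul_assoc 4, ← hA] at f5
  have g1 := le_of_mul_le_mul_left (f1.trans (show _ ≤ ε * (β / 200) by linarith)) hε
  have g2 := le_of_mul_le_mul_left (f2.trans (show _ ≤ ε * (β / 200) by linarith)) hε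
  have g3 := le_of_mul_le_mul_left (f3.trans (show _ ≤ ε * (β / 100) by
    have := mul_pos hε hβ
    linarith)) hε
  have g4 := f4.trans (show _ ≤ β / 8 by
    rw [div_le_iff₀ (by positivity)]
    linarith)
  have g5 := f5.trans (show _ ≤ β / 100 by linarith)
  have u1 := Pw_or_le hw _ _ |>.trans (add_le_add g5 f6)
  have u2 := Pw_or_le hw _ _ |>.trans (add_le_add g4 u1)
  have u3 := Pw_or_le hw _ _ |>.trans (add_le_add g3 u2)
  have u4 := Pw_or_le hw _ _ |>.trans (add_le_add g2 u3)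
  have u5 := Pw_or_le hw _ _ |>.trans (add_le_add g1 u4)
  obtain ⟨l, hl, hn⟩ := Ew_exists_off hw bias hb1 _ hb (lt_of_le_of_lt u5 (by linarith))
  simp only [not_or, not_not] at hn
  exact ⟨l, hl, hn.1, hn.2.1, hn.2.2.1, hn.2.2.2.1, hn.2.2.2.2.1, hn.2.2.2.2.2⟩

end Ext

end Pool.Agent.P.MP_85fe51_lc.OD
end

-- part Pool.Agent.P.MP_85fe51_lc.OBias
section

set_option autoImplicit false

namespace Pool.Agent.P.MP_85fe51_lc.OD

open Finset
open scoped Classical

variable {p : ℕ} [Fact p.Prime] {X : Type} [Fintype X] [DecidableEq X] {T : Type} [Fintype T]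
  {k j : ℕ} {V : Type} [AddCommGroup V] [Fintype V]

theorem obias_half : Real.exp (-1) < 1 / 2 := by
  rw [Real.exp_neg, one_div]
  exact inv_strictAnti₀ two_pos (by linarith [Real.add_one_lt_exp (one_ne_zero (α := ℝ))])

theorem obias_pow (v : ℕ) : Real.exp (-(v : ℝ)) ≤ (1 / 2) ^ v := by
  rw [show (-(v : ℝ)) = v * (-1) by ring, Real.exp_nat_mul]
  exact pow_le_pow_left₀ (Real.exp_pos _).le obias_half.le v

theorem obias_decay {v g : ℕ} {x : ℝ} (h1 : x ≤ 1)
    (h : ((1 / 2 : ℝ) ^ v) ^ 2 ≤ 9 * (1 - x) ^ g) : x * g ≤ 2 * (v + 2) := by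
  have a : (1 - x) ^ g ≤ Real.exp (g * (-x)) := by
    rw [Real.exp_nat_mul]
    exact pow_le_pow_left₀ (by linarith) (by linarith [Real.add_one_le_exp (-x)]) g
  have b : (9 : ℝ) ≤ Real.exp (2 + 2) := by
    rw [Real.exp_add]
    nlinarith [Real.add_one_le_exp 2]
  have c : Real.exp (-(v : ℝ)) ^ 2 ≤ Real.exp (2 + 2) * Real.exp (g * (-x)) :=
    ((pow_le_pow_left₀ (Real.exp_pos _).le (obias_pow v) 2).trans h).trans
      (mul_le_mul b a (pow_nonneg (by linarith) g) (Real.exp_pos _).le)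
  rw [← Real.exp_nat_mul, ← Real.exp_add, Real.exp_le_exp] at c
  push_cast at c
  linarith

theorem obias_pi (k v : ℕ) : Real.exp (-(k * v + 1 : ℝ)) < (2 * piK p k) ^ v / 2 := by
  have hp : (2 : ℝ) ≤ p := by exact_mod_cast (Fact.out : p.Prime).two_le
  have a : (1 / 2 : ℝ) ^ k ≤ piK p k :=
    pow_le_pow_left₀ (by norm_num) (by linarith [one_div_le_one_div_of_le two_pos hp]) k
  have b : Real.exp (-(k : ℝ)) ^ v ≤ (2 * piK p k) ^ v :=
    pow_le_pow_left₀ (Real.exp_pos _).le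
      (by linarith [obias_pow k, Real.exp_pos (-(k : ℝ))]) v
  rw [← Real.exp_nat_mul] at b
  rw [show (-(k * v + 1) : ℝ) = v * (-(k : ℝ)) + -1 by ring, Real.exp_add]
  nlinarith [obias_half, Real.exp_pos (v * (-(k : ℝ)))]

namespace Ext
variable (σ : Ext p X T) (P : Pat k j)

/-- typical labels carry no bias. -/
theorem bias_contra (phi : T → ZMod p → V) (hphi : ∀ t, SZ (phi t)) {m c1 C' v t E1 : ℕ}
    {θ γ ε q pmin μ : ℝ} (hθ : ThB p m c1 θ) (hγ : Gam p m γ) (hV : ∀ v : V, m • v = 0)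
    (hN : NoP p V) (ψ : AddChar V ℂ) (hψ : ∀ v, ψ v = 1 → v = 0) {Seq : Finset T}
    (hS : σ.SeqOK Seq) {l : X → Lab k j} (hT : σ.Typ P phi Seq θ ε (Seq.card * pmin) c1 C' l)
    (hb : 2 * (1 / 2 : ℝ) ^ v ≤ ‖(σ.Om P l).expect (fun x => ψ (DS P σ.lam phi x))‖)
    (hε0 : 0 ≤ ε) (hεk : 8 * (p : ℝ) ^ 2 * (k + 1) * ε ≤ 1) (hC : 1 ≤ C')
    (hQ : 4 * (p * (Fintype.card X + 1) : ℝ) ^ 2 * Real.sqrt θ ^ C' ≤ 1)
    (hE : 2 * ((p : ℝ) - 1) ^ E1 ≤ (p : ℝ) ^ E1) (hq0 : 0 < q) (hq1 : q ≤ 1)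
    (hq : 4 * piK p k ≤ q) (ht1 : 1 ≤ t) (ht : Fintype.card T < 2 ^ t)
    (hμ : μ ≤ Seq.card * pmin)
    (hδ : 6 * (((k + 1) * j + k : ℕ) : ℝ) * ε + 2 * σ.M4 * piK p k ^ 2 ≤ pmin / 32)
    (hq2 : 2 * (4 * piK p k / q) ^ 2 ≤ pmin / 64)
    (hy : 2 * (σ.K * v + 4 * piK p k *
      (6 * C' * (σ.K1 + 1) * (v + 64 * t * q * Fintype.card T + 2))) +
      2 * (v + 2) * (σ.M4 : ℝ) ^ E1 / (1 - γ) ≤ μ / 64)
    (hk : k * v + 1 ≤ μ / 16) : False := by
  have hp : (2 : ℝ) ≤ p := by exact_mod_cast (Fact.out : p.Prime).two_le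
  have hk0 : (0 : ℝ) ≤ k := Nat.cast_nonneg k
  have hv0 : (0 : ℝ) ≤ v := Nat.cast_nonneg v
  have hp2 : (4 : ℝ) ≤ (p : ℝ) ^ 2 := by nlinarith
  have hkε : 0 ≤ k * ε := mul_nonneg hk0 hε0
  have hpε : 0 ≤ ((p : ℝ) ^ 2 - 4) * ε := mul_nonneg (by linarith) hε0
  have hpkε : 0 ≤ ((p : ℝ) ^ 2 - 4) * (k * ε) := mul_nonneg (by linarith) hkε
  have e1 : ε ≤ 1 / 3 := by nlinarith
  have e2 : 8 * k * ε ≤ 1 := by nlinarith
  have e3 : 4 * (p : ℝ) ^ 2 * k * ε ≤ 1 := by nlinarith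
  have hπ : 0 < piK p k := piK_pos k
  have hμ0 : 16 ≤ μ := by nlinarith [mul_nonneg hk0 hv0]
  have hne : Seq.Nonempty := by
    rw [Finset.nonempty_iff_ne_empty]
    rintro rfl
    simp only [Finset.card_empty, Nat.cast_zero, zero_mul] at hμ
    linarith
  have hn : (0 : ℝ) < Seq.card := by exact_mod_cast hne.card_pos
  have hM : (1 : ℝ) ≤ (σ.M4 : ℝ) ^ E1 := by
    obtain ⟨e, he⟩ := hne
    refine one_le_pow₀ ?_
    exact_mod_cast (Finset.card_pos.2 ⟨e, σ.self_mem_Mid e⟩).trans_le (σ.mid e (hS e he).1)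
  have hγ1 : 0 < 1 - γ := by linarith [hγ.2.1]
  have hB : (1 / 2 : ℝ) ^ v ≤ pr (σ.Om P l) fun x => (1 / 2 : ℝ) ^ v ≤ ‖σ.inner P phi ψ l x‖ := by
    refine pr_large _ _ (fun x _ => ?_) (by positivity) (hb.trans (σ.expect_inner P l ψ phi))
    refine (RCLike.norm_expect_le (K := ℂ)).trans (le_trans (le_of_eq ?_)
      (pr_le_one (fib (σ.U ⊔ co (subSet σ.Y l P.a0)ᶜ) (atomSet σ.Y l P.a0) (x (Sum.inl P.a0)))
        fun _ => True))
    exact Finset.expect_congr rfl fun A _ => by rw [ψ.norm_apply, if_pos trivial]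
  obtain ⟨G, g1, g2, g3, g4⟩ := restore (σ.Om P l) (Rs P σ.lam) σ.Free σ.free_empty hπ
    (hq.trans hq1) (fun F hF => σ.surv_le P hθ.thC hε0 (by linarith) e2 l hT.t1 hT.t4 hF) _ hB
  have h1 := hS.hit_expect (a := subSet σ.Y l P.a0) (Finset.filter_subset _ _) hC hT.t5 _
    (Rs P σ.lam) g1 (fun x hx => (Finset.mem_filter.1 hx).2.2) hπ.le hq hq0 hq1 g4 ht1 ht
  have g2' : (G.card : ℝ) ≤ v := by exact_mod_cast g2
  have h2 := σ.seq_prod_le P phi hθ hV hS hT hε0 e1 e3
  have hcard : Fintype.card (Cp k j) = (k + 1) * j + k := by simp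
  rw [hcard, ← neg_neg (-(Seq.card * pmin) / 8 + _)] at h2
  have h3 := count_contra (σ.Om P l)
    (fun x => (1 / 2 : ℝ) ^ v ≤ ‖σ.inner P phi ψ l x‖ ∧ G ⊆ Rs P σ.lam x)
    (fun x => (Seq.filter (fun i => σ.Act P phi c1 l i x)).card)
    (fun x => (Seq.filter (fun i => i ∈ Rs P σ.lam x ∧
      (∀ t ∈ σ.Mid i, t ∉ σ.LCl i → t ∉ Rs P σ.lam x) ∧ σ.Hit (subSet σ.Y l P.a0) C' i
        (σ.U ⊔ spn σ.lam (Rs P σ.lam x \ σ.LCl i)))).card)
    (y := 2 * (σ.K * v + 4 * piK p k *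
      (6 * C' * (σ.K1 + 1) * (v + 64 * t * q * Fintype.card T + 2)) +
        Seq.card * (4 * piK p k / q) ^ 2))
    (y1 := 2 * (v + 2) * (σ.M4 : ℝ) ^ E1 / (1 - γ)) (by positivity) g3 (by positivity)
    ?_ (fun x hx hB => ?_) h2 (by positivity)
  · refine (obias_pi (p := p) k v).not_ge (h3.trans (Real.exp_le_exp.2 ?_))
    have a := mul_le_mul_of_nonneg_left hδ hn.le
    have b := mul_le_mul_of_nonneg_left hq2 hn.le
    linarith
  · rw [mul_div_cancel_left₀ _ (two_ne_zero (α := ℝ))]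
    refine le_trans (le_of_eq ?_) (h1.trans ?_)
    · congr
    · gcongr
  · have a := hS.decay hθ hγ hV hN ψ hψ P phi hphi hC hQ hE l hx
    have b := obias_decay ((div_le_one (by linarith)).2 (by linarith [hγ.1]))
      ((pow_le_pow_left₀ (by positivity) hB.1 2).trans a)
    rw [div_mul_eq_mul_div, div_le_iff₀ (by linarith), mul_comm, ← le_div_iff₀ hγ1] at b
    refine le_trans ?_ (add_le_add le_rfl b)
    rw [← Nat.cast_add, Nat.cast_le]
    refine le_trans (Finset.card_le_card fun i hi => ?_) (Finset.card_union_le _ _)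
    obtain ⟨c1, c2⟩ := Finset.mem_filter.1 hi
    rw [Finset.mem_union, Finset.mem_filter, Finset.mem_filter]
    by_cases c : σ.Hit (subSet σ.Y l P.a0) C' i (σ.U ⊔ spn σ.lam (Rs P σ.lam x \ σ.LCl i))
    · refine Or.inl ⟨c1, ?_, fun t d1 d2 d3 => c2.2.2.1 t d1 d2 (Finset.mem_filter.1 d3).2, c⟩
      exact Finset.mem_filter.2 ⟨Finset.mem_univ _, c2.2.1⟩
    · exact Or.inr ⟨c1, c2, c⟩

end Ext

end Pool.Agent.P.MP_85fe51_lc.OD
end

-- part Pool.Agent.P.MP_85fe51_lc.OOls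
section

set_option autoImplicit false

namespace Pool.Agent.P.MP_85fe51_lc.OD

open Finset
open scoped Classical

theorem ools_pi {ι V α : Type} [DecidableEq ι] [AddCommGroup V] {Z : AddSubgroup V}
    {Kp : Finset ι → Prop} (d : ℕ) : ∀ (Y : Finset ι) (F : α → Finset ι → V),
      (∀ a, DL Z Kp d Y (F a)) →
      DL (AddSubgroup.pi Set.univ (fun _ : α => Z)) Kp d Y (fun A a => F a A) := by
  induction d with
  | zero =>
    intro Y F h A hA hK
    rw [AddSubgroup.mem_pi]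
    intro a _
    exact h a A hA hK
  | succ d ih =>
    intro Y F h B hB hK
    exact ih (Y \ B) (fun a A => F a (A ∪ B) - F a A) (fun a => h a B hB hK)

/-- either a return to the value at the empty set, or `r` sets with distinct values. -/
theorem ools_focus {c M0 : ℕ} (ih : ∀ M, ∃ j, 1 ≤ j ∧ OlsJ c M j) (r : ℕ) :
    ∃ j, ∀ (V : Type) [AddCommGroup V] [Fintype V], Fintype.card V ≤ M0 →
      ∀ (Z : AddSubgroup V) (ι : Type) [DecidableEq ι] (I : Finset ι) (f : Finset ι → V),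
        j ≤ I.card → DL Z (fun _ => True) (c + 1 + 1) I f →
        (∃ g, g ⊆ I ∧ g.Nonempty ∧ f g - f ∅ ∈ Z) ∨
        ∃ U : Fin r → Finset ι, (∀ a, U a ⊆ I) ∧ (∀ a, f (U a) - f ∅ ∉ Z) ∧
          ∀ a b, a ≠ b → f (U a) - f (U b) ∉ Z := by
  induction r with
  | zero =>
    refine ⟨0, fun V _ _ _ Z ι _ I f _ _ => Or.inr ⟨Fin.elim0, ?_, ?_, ?_⟩⟩
    · exact fun a => a.elim0
    · exact fun a => a.elim0
    · exact fun a => a.elim0
  | succ r ihr =>
    obtain ⟨j1, hj1⟩ := ihr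
    obtain ⟨j2, -, hj2⟩ := ih (M0 ^ r)
    refine ⟨j1 + j2, fun V _ _ hV Z ι _ I f hI hf => ?_⟩
    obtain ⟨I1, hI1, hc1⟩ := exists_subset_card_eq (show j1 ≤ I.card by omega)
    rcases hj1 V hV Z ι I1 f hc1.ge (hf.mono_set hI1) with ⟨g, hg, hne, hz⟩ | ⟨U, hU, hU0, hUU⟩
    · exact Or.inl ⟨g, hg.trans hI1, hne, hz⟩
    have hc2 : j2 ≤ (I \ I1).card := by
      rw [card_sdiff_of_subset hI1]; omega
    have hcard : Fintype.card (Fin r → V) ≤ M0 ^ r := by
      rw [Fintype.card_fun, Fintype.card_fin]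
      exact Nat.pow_le_pow_left hV r
    have hF : DL (AddSubgroup.pi Set.univ (fun _ : Fin r => Z)) (fun _ => True) (c + 1) (I \ I1)
        (fun A a => f (A ∪ U a) - f A) := by
      refine ools_pi (c + 1) (I \ I1) (fun a A => f (A ∪ U a) - f A) (fun a => ?_)
      exact DL.mono_set (hf (U a) ((hU a).trans hI1) trivial) (sdiff_subset_sdiff subset_rfl (hU a))
    obtain ⟨G, hG, hGne, hGz⟩ := hj2 (Fin r → V) hcard _ ι (I \ I1) _ hc2 hF
    have hGI : G ⊆ I := hG.trans sdiff_subset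
    have key : ∀ a, f (G ∪ U a) - f G - (f (U a) - f ∅) ∈ Z := by
      intro a
      have h := (AddSubgroup.mem_pi _).1 hGz a (Set.mem_univ a)
      simpa only [Pi.sub_apply, empty_union] using h
    by_cases h1 : f G - f ∅ ∈ Z
    · exact Or.inl ⟨G, hGI, hGne, h1⟩
    by_cases h2 : ∃ a, f (G ∪ U a) - f ∅ ∈ Z
    · obtain ⟨a, ha⟩ := h2
      exact Or.inl ⟨G ∪ U a, union_subset hGI ((hU a).trans hI1),
        hGne.mono subset_union_left, ha⟩
    have h3 : ∀ a, f (G ∪ U a) - f G ∉ Z := by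
      intro a ha
      apply hU0 a
      have := Z.sub_mem ha (key a)
      rwa [sub_sub_cancel] at this
    refine Or.inr ⟨Fin.cons G (fun a => G ∪ U a), ?_, ?_, ?_⟩
    · intro a
      refine Fin.cases ?_ (fun a => ?_) a
      · exact hGI
      · exact union_subset hGI ((hU a).trans hI1)
    · intro a
      refine Fin.cases ?_ (fun a => ?_) a
      · exact h1
      · exact fun ha => h2 ⟨a, ha⟩
    · intro a b
      refine Fin.cases ?_ (fun a => ?_) a
      · refine Fin.cases ?_ (fun b => ?_) b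
        · exact fun h => absurd rfl h
        · intro _ hz
          apply h3 b
          have := Z.neg_mem hz
          rwa [neg_sub] at this
      · refine Fin.cases ?_ (fun b => ?_) b
        · exact fun _ hz => h3 a hz
        · intro hab hz
          have hab' : a ≠ b := fun h => hab (by rw [h])
          apply hUU a b hab'
          have hz' : f (G ∪ U a) - f (G ∪ U b) ∈ Z := hz
          have := Z.add_mem (Z.sub_mem hz' (key a)) (key b)
          have e : f (G ∪ U a) - f (G ∪ U b) - (f (G ∪ U a) - f G - (f (U a) - f ∅)) +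
              (f (G ∪ U b) - f G - (f (U b) - f ∅)) = f (U a) - f (U b) := by abel
          rwa [e] at this

theorem ools_exists (c : ℕ) : ∀ M0 : ℕ, ∃ j, 1 ≤ j ∧ OlsJ c M0 j := by
  induction c with
  | zero =>
    intro M0
    refine ⟨1, le_rfl, fun V _ _ _ Z ι _ I f hI hf => ?_⟩
    have hne : I.Nonempty := card_pos.1 hI
    have h := hf I subset_rfl trivial ∅ (empty_subset _) trivial
    exact ⟨I, subset_rfl, hne, by simpa only [empty_union] using h⟩
  | succ c ih =>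
    intro M0
    obtain ⟨j, hj⟩ := ools_focus (M0 := M0) ih (M0 + 1)
    refine ⟨j + 1, by omega, fun V _ _ hV Z ι _ I f hI hf => ?_⟩
    rcases hj V hV Z ι I f (by omega) hf with h | ⟨U, -, -, hUU⟩
    · exact h
    · exfalso
      have hinj : Function.Injective (fun a => f (U a)) := by
        intro a b hab
        by_contra hne
        apply hUU a b hne
        have hab' : f (U a) = f (U b) := hab
        rw [hab', sub_self]
        exact Z.zero_mem
      have := Fintype.card_le_of_injective _ hinj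
      rw [Fintype.card_fin] at this
      omega

theorem exists_olsJ (c M0 : ℕ) : ∃ j, 1 ≤ j ∧ OlsJ c M0 j := ools_exists c M0

theorem ools_walk {c M0 j k : ℕ} (hj : OlsJ c M0 j) {V : Type} [AddCommGroup V] [Fintype V]
    (hV : Fintype.card V ≤ M0) (Z : AddSubgroup V) (f : Finset (Atom k j) → V)
    (hf : DL Z (fun _ => True) (c + 1) univ f) (S : Finset (Fin (k + 1))) :
    ∃ g : Finset (Atom k j), (∀ a ∈ g, a.1 ∈ S) ∧ (∀ b ∈ S, ∃ i, (b, i) ∈ g) ∧ f g - f ∅ ∈ Z := by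
  induction S using Finset.induction_on with
  | empty => exact ⟨∅, by simp, by simp, by simp⟩
  | insert b S hb ih =>
    obtain ⟨g, hg, hgS, hz⟩ := ih
    have hsub : ({b} ×ˢ (univ : Finset (Fin j))) ⊆ univ \ g := by
      intro a ha
      rw [mem_product, mem_singleton] at ha
      rw [mem_sdiff]
      exact ⟨mem_univ _, fun hag => hb (ha.1 ▸ hg a hag)⟩
    have hD := (hf.shift clo_true (subset_univ g) trivial).mono_set hsub
    obtain ⟨g', hg', hne, hz'⟩ := hj V hV Z (Atom k j) _ _ (by simp) hD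
    have hg'b : ∀ a ∈ g', a.1 = b := by
      intro a ha
      have := hg' ha
      rw [mem_product, mem_singleton] at this
      exact this.1
    refine ⟨g' ∪ g, ?_, ?_, ?_⟩
    · intro a ha
      rcases mem_union.1 ha with ha | ha
      · rw [hg'b a ha]; exact mem_insert_self _ _
      · exact mem_insert_of_mem (hg a ha)
    · intro b' hb'
      rcases mem_insert.1 hb' with rfl | hb'
      · obtain ⟨a, ha⟩ := hne
        refine ⟨a.2, mem_union_left _ ?_⟩
        rw [← hg'b a ha]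
        exact ha
      · obtain ⟨i, hi⟩ := hgS b' hb'
        exact ⟨i, mem_union_right _ hi⟩
    · have := Z.add_mem hz' hz
      simpa only [empty_union, sub_add_sub_cancel] using this

/-- walking through the batches. -/
theorem walk {c M0 j k : ℕ} (hj : OlsJ c M0 j) {V : Type} [AddCommGroup V] [Fintype V]
    (hV : Fintype.card V ≤ M0) (Z : AddSubgroup V) (f : Finset (Atom k j) → V)
    (hf : DL Z (fun _ => True) (c + 1) univ f) : ∃ P : Pat k j, f P.g - f ∅ ∈ Z := by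
  obtain ⟨g, -, hg, hz⟩ := ools_walk hj hV Z f hf univ
  choose ix hix using fun b => hg b (mem_univ b)
  exact ⟨⟨g, ix, hix⟩, hz⟩

end Pool.Agent.P.MP_85fe51_lc.OD
end

-- part Pool.Agent.P.MP_85fe51_lc.OExp
section

set_option autoImplicit false

namespace Pool.Agent.P.MP_85fe51_lc.OD

open Finset
open scoped Classical

variable {p : ℕ} [Fact p.Prime] {X : Type} [Fintype X] [DecidableEq X] {T : Type} [Fintype T]
  {k j : ℕ} {V0 N : Type} [AddCommGroup V0] [Fintype V0] [AddCommGroup N] [Fintype N]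

theorem oexp_pi_nonempty (U : Sub p X) (a : Atom k j → Finset X) :
    (Fintype.piFinset (fun b => Ker U (a b))).Nonempty :=
  ⟨fun _ => ∅, Fintype.mem_piFinset.2 (fun b => empty_mem_Ker U (a b))⟩

theorem oexp_pr_one {Ω : Type} {s : Finset Ω} (hs : s.Nonempty) {Q : Ω → Prop}
    (h : ∀ x ∈ s, Q x) : pr s Q = 1 := by
  rw [pr_eq_card, filter_true_of_mem h, div_self]
  exact_mod_cast hs.card_pos.ne'

theorem oexp_pr_zero {Ω : Type} {s : Finset Ω} {Q : Ω → Prop}
    (h : ∀ x ∈ s, ¬ Q x) : pr s Q = 0 := by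
  rw [pr_eq_card, filter_false_of_mem h]
  simp

omit [Fintype X] in
theorem oexp_pr_empty (K : Atom k j → Finset (Finset X)) (hK : ∀ a, ∅ ∈ K a) (a0 : Atom k j) :
    pr (Fintype.piFinset K) (fun x => x a0 = ∅) = 1 / (K a0).card := by
  have hne : (Fintype.piFinset K).Nonempty := ⟨fun _ => ∅, Fintype.mem_piFinset.2 hK⟩
  unfold pr
  rw [expect_update K a0]
  simp only [Function.update_self]
  rw [expect_const hne, expect_eq_sum_div_card]
  congr 1
  rw [sum_eq_single_of_mem ∅ (hK a0)]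
  · simp
  · intro b _ hb
    simp [hb]

theorem oexp_nu_a0 (P : Pat k j) (τ : ℝ) :
    1 / (4 * j : ℝ) ≤ ∑ b ∈ univ.filter
      (fun b : Lab k j => b = some (P.a0, false) ∨ b = some (P.a0, true)), nu k j τ b := by
  have h : univ.filter (fun b : Lab k j => b = some (P.a0, false) ∨ b = some (P.a0, true)) =
      {some (P.a0, false), some (P.a0, true)} := by
    ext b
    simp
  rw [h, sum_pair (by simp)]
  simp only [nu, Pat.a0, if_true, Bool.false_eq_true, if_false]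
  apply le_of_eq
  ring

omit [Fintype V0] in
theorem oexp_card_Z (N0 : AddSubgroup N) :
    Nat.card ((⊥ : AddSubgroup V0).prod N0) ≤ Fintype.card N := by
  rw [← Nat.card_eq_fintype_card]
  refine Nat.card_le_card_of_injective (fun z => z.1.2) ?_
  intro z z' h
  have h1 := (AddSubgroup.mem_prod.1 z.2).1
  have h2 := (AddSubgroup.mem_prod.1 z'.2).1
  rw [AddSubgroup.mem_bot] at h1 h2
  exact Subtype.ext (Prod.ext (h1.trans h2.symm) h)

theorem oexp_norm_shift {G Ω : Type} [AddCommGroup G] [Fintype G] (χ : AddChar G ℂ)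
    (s : Finset Ω) (v : Ω → G) (b : G) :
    ‖s.expect (fun x => χ (v x - b))‖ = ‖s.expect (fun x => χ (v x))‖ := by
  have h : ∀ x, χ (v x - b) = χ (v x) * χ (-b) := fun x => by
    rw [sub_eq_add_neg, AddChar.map_add_eq_mul]
  simp only [h]
  rw [← expect_mul, norm_mul, AddChar.norm_apply, mul_one]

namespace Ext
variable (σ : Ext p X T)

theorem exists_pat (f0 : Finset X → V0) (phi : T → ZMod p → N) (N0 : AddSubgroup N) {c : ℕ}
    (hj : OlsJ c (Fintype.card (V0 × N)) j) (hf : DL ⊥ (fun _ => True) (c + 1) univ f0)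
    (hS : DL N0 (KerP σ.U) (c + 1) σ.Y (Sf σ.lam phi)) {w : X → Lab k j → ℝ} (hw : IsW w) :
    ∃ P : Pat k j, (1 / 2 : ℝ) ^ (j * (k + 1)) ≤ Ew w (fun l =>
      pr (Fintype.piFinset (fun a => Ker σ.U (atomSet σ.Y l a))) (fun x =>
        (f0 (P.g.biUnion x), Sf σ.lam phi (P.g.biUnion x)) - (f0 ∅, Sf σ.lam phi ∅) ∈
          (⊥ : AddSubgroup V0).prod N0)) := by
  let Q : Finset (Atom k j) → (Atom k j → Finset X) → Prop := fun g x =>
    (f0 (g.biUnion x), Sf σ.lam phi (g.biUnion x)) - (f0 ∅, Sf σ.lam phi ∅) ∈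
      (⊥ : AddSubgroup V0).prod N0
  let s : (X → Lab k j) → Finset (Atom k j → Finset X) := fun l =>
    Fintype.piFinset (fun a => Ker σ.U (atomSet σ.Y l a))
  let E : Finset (Atom k j) → ℝ := fun g =>
    Ew w (fun l => pr (s l) (fun x => (∃ P : Pat k j, P.g = g) ∧ Q g x))
  have hall : ∀ l, ∀ x ∈ s l, ∃ g ∈ (univ : Finset (Finset (Atom k j))),
      (∃ P : Pat k j, P.g = g) ∧ Q g x := by
    intro l x hx
    have hx' : ∀ a, x a ⊆ atomSet σ.Y l a ∧ KerP σ.U (x a) := fun a =>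
      mem_Ker.1 (Fintype.mem_piFinset.1 hx a)
    have hd : ∀ a ∈ (univ : Finset (Atom k j)), ∀ b ∈ (univ : Finset (Atom k j)), a ≠ b →
        Disjoint (x a) (x b) := fun a _ b _ hab =>
      (atomSet_disjoint σ.Y l hab).mono (hx' a).1 (hx' b).1
    have h1 := DL_atoms (Kp := fun _ => True) trivial clo_true hf univ x
      (fun a _ => ⟨subset_univ _, trivial⟩) hd
    have h2 := DL_atoms (kerP_empty σ.U) (fun A B h hA hB => kerP_union h hA hB) hS univ x
      (fun a _ => ⟨(hx' a).1.trans (atomSet_subset _ _ _), (hx' a).2⟩) hd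
    obtain ⟨P, hP⟩ := walk hj le_rfl _ _ (h1.prod h2)
    refine ⟨P.g, mem_univ _, ⟨P, rfl⟩, ?_⟩
    simpa only [biUnion_empty] using hP
  have hsum : 1 ≤ ∑ g : Finset (Atom k j), E g := by
    rw [← Ew_sum, ← Ew_const hw 1]
    refine Ew_mono hw (fun l _ => ?_)
    refine le_trans ?_ (pr_exists_le (s l) univ (fun g x => (∃ P : Pat k j, P.g = g) ∧ Q g x))
    exact (oexp_pr_one (oexp_pi_nonempty _ _) (hall l)).ge
  have hcard : ∑ _g : Finset (Atom k j), (1 / 2 : ℝ) ^ (j * (k + 1)) = 1 := by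
    rw [sum_const, card_univ, Fintype.card_finset, Fintype.card_prod, Fintype.card_fin,
      Fintype.card_fin, nsmul_eq_mul, mul_comm (k + 1) j]
    push_cast
    rw [← mul_pow]
    norm_num
  obtain ⟨g, -, hg⟩ := exists_le_of_sum_le (univ_nonempty (α := Finset (Atom k j)))
    (hcard.le.trans hsum)
  by_cases hP : ∃ P : Pat k j, P.g = g
  · obtain ⟨P, rfl⟩ := hP
    exact ⟨P, hg.trans (Ew_mono hw (fun l _ => pr_mono _ (fun x _ hx => hx.2)))⟩
  · exfalso
    have h0 : E g = 0 := by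
      have : (fun l => pr (s l) (fun x => (∃ P : Pat k j, P.g = g) ∧ Q g x)) = fun _ => 0 :=
        funext fun l => oexp_pr_zero (fun x _ hx => hP hx.1)
      simp only [E, this]
      exact Ew_const hw 0
    rw [h0] at hg
    exact absurd hg (not_le.2 (by positivity))

theorem empty_le (P : Pat k j) {θ τ ζ : ℝ} (hθ : ThC p θ) (hk : 1 ≤ k) (hj : 1 ≤ j) (hτ0 : 0 ≤ τ)
    (hτ1 : τ ≤ 1) {n0 : ℕ} (hn : 16 * j * n0 ≤ σ.Y.card) (hζ : ζ ≤ 1 / (4 * j) * (1 - θ) * σ.CH)
    (hQ : (p * (Fintype.card X + 1) : ℝ) * Real.exp (-ζ) ≤ 1 / 2) :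
    Ew (fun _ : X => nu k j τ) (fun l =>
      pr (Fintype.piFinset (fun a => Ker σ.U (atomSet σ.Y l a))) (fun x => x P.a0 = ∅)) ≤
      4 * (p * (Fintype.card X + 1) : ℝ) ^ 2 * Real.exp (-ζ) + Real.exp (-(n0 : ℝ)) +
        2 * (p : ℝ) ^ dO σ.U σ.Yᶜ / 2 ^ n0 := by
  have hw := isW_nu X hk hj hτ0 hτ1
  have hj0 : (0 : ℝ) < j := by exact_mod_cast hj
  let S : Lab k j → Prop := fun b => b = some (P.a0, false) ∨ b = some (P.a0, true)
  have hmass : ∀ i ∈ σ.Y, 1 / (4 * j : ℝ) ≤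
      ∑ b ∈ @filter _ S (fun _ => Classical.propDecidable _) univ,
        (fun _ : X => nu k j τ) i b := by
    intro i _
    have h := oexp_nu_a0 P τ
    rwa [filter_congr_decidable] at h ⊢
  have hset : ∀ l : X → Lab k j,
      @filter _ (fun i => S (l i)) (fun _ => Classical.propDecidable _) σ.Y =
        atomSet σ.Y l P.a0 := by
    intro l
    ext i
    simp only [atomSet, mem_filter, S]
  have hexp : Real.exp (-(1 / (4 * j : ℝ) * (1 - θ)) * σ.CH) ≤ Real.exp (-ζ) :=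
    Real.exp_le_exp.2 (by linarith)
  have hQ0 : (0 : ℝ) ≤ p * (Fintype.card X + 1) := by positivity
  have h1 := Ew_enum hw σ.Y S (by positivity) hθ.1 hθ.2.1.le hmass σ.one_le_CH
    (σ.safe.mono (by omega)) σ.U'_le ((mul_le_mul_of_nonneg_left hexp hQ0).trans hQ)
  have h2 := Pw_few hw σ.Y S hmass
  simp only [hset] at h1 h2
  have hn' : (n0 : ℝ) ≤ 1 / (4 * j : ℝ) * σ.Y.card / 4 := by
    have : (16 * j * n0 : ℝ) ≤ σ.Y.card := by exact_mod_cast hn
    rw [le_div_iff₀ (by norm_num), one_div, inv_mul_eq_div, le_div_iff₀ (by positivity)]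
    linarith
  have hpt : ∀ l : X → Lab k j,
      pr (Fintype.piFinset (fun a => Ker σ.U (atomSet σ.Y l a))) (fun x => x P.a0 = ∅) ≤
        2 * (enum θ σ.U' (atomSet σ.Y l P.a0) - 1) +
          (if ((atomSet σ.Y l P.a0).card : ℝ) < 1 / (4 * j : ℝ) * σ.Y.card / 4 then 1 else 0) +
          2 * (p : ℝ) ^ dO σ.U σ.Yᶜ / 2 ^ n0 := by
    intro l
    have he := one_le_enum hθ.1 σ.U' (atomSet σ.Y l P.a0)
    have hc : (0 : ℝ) ≤ 2 * (p : ℝ) ^ dO σ.U σ.Yᶜ / 2 ^ n0 := by positivity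
    have hle := pr_le_one (Fintype.piFinset (fun a => Ker σ.U (atomSet σ.Y l a)))
      (fun x => x P.a0 = ∅)
    split_ifs with hlt
    · linarith
    by_cases h32 : 3 / 2 ≤ enum θ σ.U' (atomSet σ.Y l P.a0)
    · linarith
    have hK := card_Ker_ge hθ σ.hY (atomSet_subset σ.Y l P.a0)
    have hn0 : n0 ≤ (atomSet σ.Y l P.a0).card := by
      exact_mod_cast hn'.trans (not_lt.1 hlt)
    have hpow : (2 : ℝ) ^ n0 ≤ 2 ^ (atomSet σ.Y l P.a0).card :=
      pow_le_pow_right₀ (by norm_num) hn0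
    have hKpos : (0 : ℝ) < (Ker σ.U (atomSet σ.Y l P.a0)).card := by
      exact_mod_cast card_pos.2 ⟨∅, empty_mem_Ker _ _⟩
    have h3 : 1 / ((Ker σ.U (atomSet σ.Y l P.a0)).card : ℝ) ≤
        2 * (p : ℝ) ^ dO σ.U σ.Yᶜ / 2 ^ n0 := by
      rw [div_le_div_iff₀ hKpos (by positivity)]
      have h4 : (1 / 2 : ℝ) * 2 ^ (atomSet σ.Y l P.a0).card ≤
          (2 - enum θ (σ.U.map (off σ.Yᶜ)) (atomSet σ.Y l P.a0)) *
            2 ^ (atomSet σ.Y l P.a0).card := by
        refine mul_le_mul_of_nonneg_right ?_ (by positivity)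
        have h5 : enum θ (σ.U.map (off σ.Yᶜ)) (atomSet σ.Y l P.a0) < 3 / 2 := not_le.1 h32
        linarith
      linarith
    rw [oexp_pr_empty _ (fun a => empty_mem_Ker _ _)]
    linarith
  refine (Ew_mono hw (fun l _ => hpt l)).trans ?_
  rw [Ew_add, Ew_add, Ew_mul, Ew_const hw]
  have h6 : Real.exp (-(1 / (4 * j : ℝ) * σ.Y.card / 4)) ≤ Real.exp (-(n0 : ℝ)) :=
    Real.exp_le_exp.2 (by linarith)
  have h7 := mul_le_mul_of_nonneg_left hexp
    (show (0 : ℝ) ≤ 2 * (p * (Fintype.card X + 1) : ℝ) ^ 2 by positivity)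
  have h8 : Ew (fun _ : X => nu k j τ) (fun l =>
      if ((atomSet σ.Y l P.a0).card : ℝ) < 1 / (4 * j : ℝ) * σ.Y.card / 4 then 1 else 0) ≤
      Real.exp (-(n0 : ℝ)) := by
    refine le_trans (le_of_eq ?_) (h2.trans h6)
    unfold Pw
    congr 1
  have h9 : Ew (fun _ : X => nu k j τ) (fun l => enum θ σ.U' (atomSet σ.Y l P.a0) - 1) ≤
      2 * (p * (Fintype.card X + 1) : ℝ) ^ 2 * Real.exp (-ζ) := h1.trans h7
  linarith

/-- without a solution some character that is nontrivial on `N0` is biased. -/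
theorem exists_bias (f0 : Finset X → V0) (phi : T → ZMod p → N) (N0 : AddSubgroup N) {c : ℕ}
    (hj : OlsJ c (Fintype.card (V0 × N)) j) (hf : DL ⊥ (fun _ => True) (c + 1) univ f0)
    (hS : DL N0 (KerP σ.U) (c + 1) σ.Y (Sf σ.lam phi)) {θ τ ζ β : ℝ} (hθ : ThC p θ) (hk : 1 ≤ k)
    (hj1 : 1 ≤ j) (hτ0 : 0 ≤ τ) (hτ1 : τ ≤ 1) {n0 : ℕ} (hn : 16 * j * n0 ≤ σ.Y.card)
    (hζ : ζ ≤ 1 / (4 * j) * (1 - θ) * σ.CH) (hβ : 0 < β)
    (hβ1 : 4 * Fintype.card N * β ≤ (1 / 2 : ℝ) ^ (j * (k + 1)))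
    (hβ2 : 4 * (p * (Fintype.card X + 1) : ℝ) ^ 2 * Real.exp (-ζ) + Real.exp (-(n0 : ℝ)) +
      2 * (p : ℝ) ^ dO σ.U σ.Yᶜ / 2 ^ n0 ≤ 2 * β)
    (hno : ∀ A : Finset X, Sf σ.lam phi A = Sf σ.lam phi ∅ → f0 A = f0 ∅ → A = ∅) :
    ∃ (P : Pat k j) (χ : AddChar (V0 × N) ℂ), (∃ n ∈ N0, χ (0, n) ≠ 1) ∧
      β ≤ Ew (fun _ : X => nu k j τ) (fun l =>
        ‖(Fintype.piFinset (fun a => Ker σ.U (atomSet σ.Y l a))).expect
          (fun x => χ (f0 (P.g.biUnion x), Sf σ.lam phi (P.g.biUnion x)))‖) := by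
  have hw := isW_nu X hk hj1 hτ0 hτ1
  obtain ⟨P, hP⟩ := σ.exists_pat f0 phi N0 hj hf hS hw
  have hN : (1 : ℝ) ≤ Fintype.card N := by exact_mod_cast Fintype.card_pos
  have hb1 : (1 / 2 : ℝ) ^ (j * (k + 1)) ≤ 1 := pow_le_one₀ (by norm_num) (by norm_num)
  have hβ4 : 4 * β ≤ 1 := by nlinarith
  have hp1 : (1 : ℝ) ≤ p := by exact_mod_cast (Fact.out : p.Prime).one_lt.le
  have hQ1 : (1 : ℝ) ≤ p * (Fintype.card X + 1) := by
    have : (0 : ℝ) ≤ Fintype.card X := by positivity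
    nlinarith
  have hQ : (p * (Fintype.card X + 1) : ℝ) * Real.exp (-ζ) ≤ 1 / 2 := by
    have e1 := Real.exp_pos (-ζ)
    have e2 := Real.exp_pos (-(n0 : ℝ))
    have e3 : (0 : ℝ) ≤ 2 * (p : ℝ) ^ dO σ.U σ.Yᶜ / 2 ^ n0 := by positivity
    have e4 : (p * (Fintype.card X + 1) : ℝ) ≤ (p * (Fintype.card X + 1) : ℝ) ^ 2 := by nlinarith
    have e5 := mul_le_mul_of_nonneg_right e4 e1.le
    linarith
  have hE := (σ.empty_le P hθ hk hj1 hτ0 hτ1 hn hζ hQ).trans hβ2
  have h0 : Ew (fun _ : X => nu k j τ) (fun l =>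
      pr (Fintype.piFinset (fun a => Ker σ.U (atomSet σ.Y l a))) (fun x =>
        (f0 (P.g.biUnion x), Sf σ.lam phi (P.g.biUnion x)) - (f0 ∅, Sf σ.lam phi ∅) = 0)) ≤
      2 * β := by
    refine le_trans (Ew_mono hw (fun l _ => pr_mono _ (fun x _ hx => ?_))) hE
    rw [sub_eq_zero, Prod.mk.injEq] at hx
    have h1 := hno _ hx.2 hx.1
    exact subset_empty.1 (h1 ▸ subset_biUnion_of_mem x P.a0_mem_g)
  have hlt : 2 * β + β < (1 / 2 : ℝ) ^ (j * (k + 1)) / (Fintype.card N : ℕ) := by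
    rw [lt_div_iff₀ (by linarith)]
    nlinarith
  obtain ⟨χ, ⟨z, hz, hχ⟩, hb⟩ := exists_char ((⊥ : AddSubgroup V0).prod N0)
    (fun l : X → Lab k j => ∏ i, nu k j τ (l i))
    (fun l => prod_nonneg (fun i _ => hw.1 i (l i)))
    (fun l => Fintype.piFinset (fun a => Ker σ.U (atomSet σ.Y l a)))
    (fun _ x => (f0 (P.g.biUnion x), Sf σ.lam phi (P.g.biUnion x)) - (f0 ∅, Sf σ.lam phi ∅))
    (oexp_card_Z N0) (by positivity) hβ.le hP
    (lt_of_le_of_lt (add_le_add h0 le_rfl) hlt)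
  refine ⟨P, χ, ⟨z.2, (AddSubgroup.mem_prod.1 hz).2, ?_⟩, ?_⟩
  · have h1 := (AddSubgroup.mem_prod.1 hz).1
    rw [AddSubgroup.mem_bot] at h1
    rw [← h1]
    exact hχ
  · simp only [oexp_norm_shift] at hb
    exact hb

end Ext

end Pool.Agent.P.MP_85fe51_lc.OD
end

-- part Pool.Agent.P.MP_85fe51_lc.OFinA0
section

set_option autoImplicit false

namespace Pool.Agent.P.MP_85fe51_lc.OD

open Finset
open scoped Classical

section
variable {X L L' : Type} [Fintype X] [DecidableEq X] [Fintype L] [Fintype L']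

theorem ofina_union {ι : Type} {w : X → L → ℝ} (hw : IsW w) (I : Finset ι)
    (Q : ι → (X → L) → Prop) (R : (X → L) → Prop) {ε B : ℝ} (hε : 0 ≤ ε)
    (hR : ∀ l, R l → ∃ i ∈ I, Q i l) (h : ∀ i ∈ I, ε * Pw w (Q i) ≤ B) :
    ε * Pw w R ≤ I.card * B := by
  have h1 : Pw w R ≤ ∑ i ∈ I, Pw w (Q i) :=
    (Pw_mono hw (fun l _ hl => hR l hl)).trans (Pw_exists_le hw I Q)
  calc ε * Pw w R ≤ ε * ∑ i ∈ I, Pw w (Q i) := mul_le_mul_of_nonneg_left h1 hε
    _ = ∑ i ∈ I, ε * Pw w (Q i) := Finset.mul_sum _ _ _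
    _ ≤ ∑ _i ∈ I, B := Finset.sum_le_sum h
    _ = I.card * B := by rw [Finset.sum_const, nsmul_eq_mul]

theorem ofina_mass_ge {v : L → ℝ} (hv : ∀ a, 0 ≤ v a) (a0 : L) :
    v a0 ≤ ∑ a ∈ univ.filter (fun a => a = a0), v a :=
  single_le_sum (fun a _ => hv a) (mem_filter.2 ⟨mem_univ _, rfl⟩)

theorem ofina_mass_le {v : L → ℝ} (hv : ∀ a, 0 ≤ v a) (a0 : L) :
    ∑ a ∈ univ.filter (fun a => a = a0), v a ≤ v a0 :=
  calc ∑ a ∈ univ.filter (fun a => a = a0), v a ≤ ∑ a ∈ {a0}, v a :=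
        sum_le_sum_of_subset_of_nonneg (fun _ ha => mem_singleton.2 (mem_filter.1 ha).2)
          (fun a _ _ => hv a)
    _ = v a0 := sum_singleton _ _

theorem ofina_pair_le {w : X → L → ℝ} (w' : X → L' → ℝ) (hw : IsW w)
    (F : (X → L) → (X → L') → ℝ) {c : ℝ} (h : ∀ l, Ew w' (F l) ≤ c) :
    Ew (fun i (a : L × L') => w i a.1 * w' i a.2)
      (fun l => F (fun i => (l i).1) (fun i => (l i).2)) ≤ c := by
  rw [← Ew_pair w w' F]
  exact (Ew_mono hw (fun l _ => h l)).trans (Ew_const hw c).le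

theorem ofina_pair_fst (w : X → L → ℝ) {w' : X → L' → ℝ} (hw' : IsW w') (Q : (X → L) → Prop) :
    Pw (fun i (a : L × L') => w i a.1 * w' i a.2) (fun l => Q (fun i => (l i).1)) = Pw w Q := by
  have h := Ew_pair w w' (fun l _ => if Q l then (1 : ℝ) else 0)
  unfold Pw
  rw [← h]
  exact congrArg (Ew w) (funext fun l => Ew_const hw' _)

/-- the points of `Y` with label `a0`. -/
noncomputable def ofina_blk {X L : Type} (Y : Finset X) (l : X → L) (a0 : L) : Finset X :=
  Y.filter (fun i => l i = a0)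

theorem ofina_mem_blk {X L : Type} {Y : Finset X} {l : X → L} {a0 : L} {i : X} :
    i ∈ ofina_blk Y l a0 ↔ i ∈ Y ∧ l i = a0 := mem_filter

theorem ofina_few {w : X → L → ℝ} (hw : IsW w) (D : Finset X) (a0 : L) {ρ : ℝ}
    (h : ∀ i, ρ ≤ w i a0) :
    Pw w (fun l => ((ofina_blk D l a0).card : ℝ) < ρ * D.card / 4) ≤
      Real.exp (-(ρ * D.card / 4)) :=
  Pw_few hw D (fun a => a = a0) (fun i _ => (h i).trans (ofina_mass_ge (hw.1 i) a0))

theorem ofina_many {w : X → L → ℝ} (hw : IsW w) (D : Finset X) (a0 : L) {ρ : ℝ} (hρ : 0 ≤ ρ)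
    (h : ∀ i, w i a0 ≤ ρ) (c : ℕ) :
    Pw w (fun l => c ≤ (ofina_blk D l a0).card) ≤ (D.card * ρ) ^ c :=
  Pw_many hw D (fun a => a = a0) hρ (fun i _ => (ofina_mass_le (hw.1 i) a0).trans (h i)) c

theorem ofina_half {w : X → L → ℝ} (hw : IsW w) (D : Finset X) (a0 : L)
    (h : ∀ i, w i a0 ≤ 1 / 16) :
    Pw w (fun l => D.card ≤ 2 * (ofina_blk D l a0).card) ≤ Real.exp (-(D.card / 2 : ℝ)) :=
  Pw_half hw D (fun a => a = a0) (fun i _ => (ofina_mass_le (hw.1 i) a0).trans (h i))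

variable {p : ℕ} [Fact p.Prime]

theorem ofina_enum {w : X → L → ℝ} (hw : IsW w) (Y : Finset X) (a0 : L) {ρ θ ζ : ℝ} (ε : ℝ)
    (hρ0 : 0 ≤ ρ) (hθ0 : 0 ≤ θ) (hθ1 : θ ≤ 1) (hρ : ∀ i, ρ ≤ w i a0) {C : ℕ} (hC : 1 ≤ C)
    {H : Sub p X} (hs : Safe C H) (hY : H ≤ co Y) (hζ : ζ ≤ ρ * (1 - θ) * C)
    (hQ : (p * (Fintype.card X + 1) : ℝ) * Real.exp (-ζ) ≤ 1 / 2) :
    ε * Pw w (fun l => ε ≤ enum θ H (ofina_blk Y l a0) - 1) ≤
      2 * (p * (Fintype.card X + 1) : ℝ) ^ 2 * Real.exp (-ζ) := by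
  have hQ0 : (0 : ℝ) ≤ (p * (Fintype.card X + 1) : ℝ) := by positivity
  have hexp : Real.exp (-(ρ * (1 - θ)) * C) ≤ Real.exp (-ζ) := by
    apply Real.exp_le_exp.2
    linarith
  have h1 := Ew_markov hw (fun l => enum θ H (ofina_blk Y l a0) - 1)
    (fun l => sub_nonneg.2 (one_le_enum hθ0 _ _)) ε
  have h2 := Ew_enum hw Y (fun a => a = a0) hρ0 hθ0 hθ1
    (fun i _ => (hρ i).trans (ofina_mass_ge (hw.1 i) a0)) hC hs hY
    ((mul_le_mul_of_nonneg_left hexp hQ0).trans hQ)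
  exact h1.trans (h2.trans (mul_le_mul_of_nonneg_left hexp (by positivity)))

theorem ofina_one_le_Q : (1 : ℝ) ≤ (p * (Fintype.card X + 1) : ℝ) := by
  have hp : (1 : ℝ) ≤ p := by exact_mod_cast (Fact.out : p.Prime).one_lt.le
  have hx : (0 : ℝ) ≤ Fintype.card X := Nat.cast_nonneg _
  nlinarith

theorem ofina_cenum {w : X → L → ℝ} (hw : IsW w) (Y : Finset X) (a0 : L) {ρ θ ζ : ℝ} (ε : ℝ)
    (hρ0 : 0 ≤ ρ) (hθ0 : 0 ≤ θ) (hθ1 : θ ≤ 1) (hρ : ∀ i, ρ ≤ w i a0) {C : ℕ} (hC : 1 ≤ C)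
    {H : Sub p X} (hs : Safe C H) (hY : H ≤ co Y) (hζ : ζ ≤ ρ * (1 - θ) * C / 2)
    (hQ : (p * (Fintype.card X + 1) : ℝ) * Real.exp (-ζ) ≤ 1 / 2) (μ : Vec p X)
    (hμ : supp μ ⊆ Y) (w0 : ℕ) (hw0 : ∀ η ∈ H, w0 ≤ wt (μ + η)) (hζ' : ζ ≤ ρ * (1 - θ) * w0) :
    ε * Pw w (fun l => ε ≤ cenum θ μ H (ofina_blk Y l a0)) ≤
      3 * (p * (Fintype.card X + 1) : ℝ) ^ 2 * Real.exp (-ζ) := by
  have hQ1 : (1 : ℝ) ≤ (p * (Fintype.card X + 1) : ℝ) := ofina_one_le_Q
  have hexp : Real.exp (-(ρ * (1 - θ)) * C / 2) ≤ Real.exp (-ζ) := by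
    apply Real.exp_le_exp.2
    linarith
  have hexp' : Real.exp (-(ρ * (1 - θ)) * w0) ≤ Real.exp (-ζ) := by
    apply Real.exp_le_exp.2
    linarith
  have h1 := Ew_markov hw (fun l => cenum θ μ H (ofina_blk Y l a0))
    (fun l => cenum_nonneg hθ0 _ _ _) ε
  have h2 := Ew_cenum hw Y (fun a => a = a0) hρ0 hθ0 hθ1
    (fun i _ => (hρ i).trans (ofina_mass_ge (hw.1 i) a0)) hC hs hY
    ((mul_le_mul_of_nonneg_left hexp (by linarith)).trans hQ) μ hμ w0 hw0
  refine h1.trans (h2.trans ?_)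
  have h3 : (1 : ℝ) ≤ (p * (Fintype.card X + 1) : ℝ) ^ 2 := one_le_pow₀ hQ1
  have h4 := mul_le_mul_of_nonneg_left hexp
    (by positivity : (0 : ℝ) ≤ 2 * (p * (Fintype.card X + 1) : ℝ) ^ 2)
  have h5 := mul_le_mul_of_nonneg_right h3 (Real.exp_pos (-ζ)).le
  linarith

/-- long vectors keep many points outside the random set. -/
theorem ofina_long {ι : Type} [Fintype ι] {w : X → Bool → ℝ} (hw : IsW w)
    (h : ∀ i, w i true ≤ 1 / 16) (δ : ι → Vec p X) (r : ℕ) (tp : (X → Bool) → Finset X)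
    (htp : ∀ l i, i ∈ tp l ↔ l i = true) :
    Pw w (fun l => ∃ q, r < wt (δ q) ∧ 2 * (supp (δ q) \ tp l).card < r) ≤
      Fintype.card ι * Real.exp (-(r / 2 : ℝ)) := by
  have h1 := ofina_union hw (univ.filter (fun q : ι => r < wt (δ q)))
    (fun q l => (supp (δ q)).card ≤ 2 * (ofina_blk (supp (δ q)) l true).card)
    (fun l => ∃ q, r < wt (δ q) ∧ 2 * (supp (δ q) \ tp l).card < r) (ε := 1)
    (B := Real.exp (-(r / 2 : ℝ))) zero_le_one
    (fun l ⟨q, hq, hq'⟩ => ⟨q, mem_filter.2 ⟨mem_univ _, hq⟩, by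
      have e : ofina_blk (supp (δ q)) l true = supp (δ q) ∩ tp l := by
        ext i
        rw [ofina_mem_blk, mem_inter, htp]
      have e2 := card_sdiff_add_card_inter (supp (δ q)) (tp l)
      unfold wt at hq
      rw [e]
      omega⟩)
    (fun q hq => by
      rw [one_mul]
      refine (ofina_half hw _ true h).trans (Real.exp_le_exp.2 ?_)
      have : (r : ℝ) ≤ (supp (δ q)).card := by exact_mod_cast (mem_filter.1 hq).2.le
      linarith)
  rw [one_mul] at h1
  refine h1.trans (mul_le_mul_of_nonneg_right ?_ (Real.exp_pos _).le)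
  exact_mod_cast card_le_univ _

variable {T : Type} [Fintype T]

/-- the deleted points. -/
noncomputable def ofina_del (d : T → Vec p X) (R c : ℕ) (l : X → L') (a0 : L') : Finset X :=
  (univ.filter (fun t => wt (d t) ≤ R ∧ c + 1 ≤ (ofina_blk (supp (d t)) l a0).card)).biUnion
    (fun t => supp (d t))

theorem ofina_del_le {w : X → L' → ℝ} (hw : IsW w) (d : T → Vec p X) (R c : ℕ) (a0 : L') {ξ : ℝ}
    (hξ : 0 ≤ ξ) (h : ∀ i, w i a0 ≤ ξ) :
    Ew w (fun l => ((ofina_del d R c l a0).card : ℝ)) ≤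
      Fintype.card T * R * (R * ξ) ^ (c + 1) := by
  have h1 : ∀ l : X → L', ((ofina_del d R c l a0).card : ℝ) ≤
      ∑ t ∈ univ.filter (fun t => wt (d t) ≤ R), (R : ℝ) *
        (if c + 1 ≤ (ofina_blk (supp (d t)) l a0).card then 1 else 0) := by
    intro l
    have e1 : (ofina_del d R c l a0).card ≤ ∑ t ∈ univ.filter (fun t => wt (d t) ≤ R ∧
        c + 1 ≤ (ofina_blk (supp (d t)) l a0).card), (supp (d t)).card := card_biUnion_le
    have e2 : ((ofina_del d R c l a0).card : ℝ) ≤ ∑ t ∈ univ.filter (fun t => wt (d t) ≤ R ∧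
        c + 1 ≤ (ofina_blk (supp (d t)) l a0).card), (R : ℝ) := by
      have e3 := e1.trans (sum_le_sum (g := fun _ => R) (fun t ht => (mem_filter.1 ht).2.1))
      exact_mod_cast e3
    refine e2.trans (le_of_eq ?_)
    rw [sum_filter, sum_filter]
    refine sum_congr rfl (fun t _ => ?_)
    by_cases a1 : wt (d t) ≤ R <;>
      by_cases a2 : c + 1 ≤ (ofina_blk (supp (d t)) l a0).card <;> simp [a1, a2]
  refine (Ew_mono hw (fun l _ => h1 l)).trans ?_
  rw [Ew_sum]
  have h2 : ∀ t ∈ univ.filter (fun t => wt (d t) ≤ R), Ew w (fun l => (R : ℝ) *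
      (if c + 1 ≤ (ofina_blk (supp (d t)) l a0).card then 1 else 0)) ≤
      R * (R * ξ) ^ (c + 1) := by
    intro t ht
    rw [Ew_mul]
    refine mul_le_mul_of_nonneg_left ?_ (Nat.cast_nonneg _)
    have e1 := ofina_many hw (supp (d t)) a0 hξ h (c + 1)
    have e2 : ((supp (d t)).card : ℝ) ≤ R := by exact_mod_cast (mem_filter.1 ht).2
    have e3 : (((supp (d t)).card : ℝ) * ξ) ^ (c + 1) ≤ (R * ξ) ^ (c + 1) :=
      pow_le_pow_left₀ (by positivity) (mul_le_mul_of_nonneg_right e2 hξ) _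
    refine le_trans (le_of_eq ?_) (e1.trans e3)
    unfold Pw
    refine congrArg (Ew w) (funext fun l => ?_)
    by_cases a2 : c + 1 ≤ (ofina_blk (supp (d t)) l a0).card <;> simp [a2]
  refine (sum_le_sum h2).trans ?_
  rw [sum_const, nsmul_eq_mul, mul_assoc]
  refine mul_le_mul_of_nonneg_right ?_ (by positivity)
  exact_mod_cast card_le_univ _

theorem ofina_del_card (d : T → Vec p X) {R : ℕ} (c : ℕ) (l : X → L') (a0 : L') {t : T}
    (ht : wt (d t) ≤ R) {Z : Finset X} (hZ : ∀ i ∈ Z, l i = a0) :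
    (supp (d t) ∩ (Z \ ofina_del d R c l a0)).card ≤ c := by
  by_cases h : c + 1 ≤ (ofina_blk (supp (d t)) l a0).card
  · have e : supp (d t) ∩ (Z \ ofina_del d R c l a0) = ∅ := by
      refine eq_empty_of_forall_notMem (fun i hi => ?_)
      refine (mem_sdiff.1 (mem_inter.1 hi).2).2 ?_
      exact mem_biUnion.2 ⟨t, mem_filter.2 ⟨mem_univ _, ht, h⟩, (mem_inter.1 hi).1⟩
    rw [e]
    exact Nat.zero_le _
  · have e : supp (d t) ∩ (Z \ ofina_del d R c l a0) ⊆ ofina_blk (supp (d t)) l a0 :=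
      fun i hi => ofina_mem_blk.2 ⟨(mem_inter.1 hi).1, hZ i (mem_sdiff.1 (mem_inter.1 hi).2).1⟩
    have := card_le_card e
    omega

end

/-- the law of the indicator of the random set. -/
noncomputable def ofina_w1 (X : Type) (j : ℕ) : X → Bool → ℝ :=
  fun _ b => if b then 1 / (16 * j : ℝ) else 1 - 1 / (16 * j : ℝ)

/-- the law of the types. -/
noncomputable def ofina_w2 (X : Type) (n' : ℕ) (ξ : ℝ) : X → Option (Fin n') → ℝ :=
  fun _ o => o.elim ξ (fun _ => (1 - ξ) / n')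

theorem ofina_al {j : ℕ} (hj : 1 ≤ j) : 0 < 1 / (16 * j : ℝ) ∧ 1 / (16 * j : ℝ) ≤ 1 / 16 := by
  have h : (1 : ℝ) ≤ j := by exact_mod_cast hj
  exact ⟨by positivity, one_div_le_one_div_of_le (by norm_num) (by linarith)⟩

theorem ofina_isW1 (X : Type) {j : ℕ} (hj : 1 ≤ j) : IsW (ofina_w1 X j) := by
  obtain ⟨h0, h1⟩ := ofina_al hj
  refine ⟨fun i b => ?_, fun i => ?_⟩
  · cases b
    · show 0 ≤ 1 - 1 / (16 * j : ℝ)
      linarith
    · exact h0.le
  · rw [Fintype.sum_bool]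
    show 1 / (16 * j : ℝ) + (1 - 1 / (16 * j : ℝ)) = 1
    ring

theorem ofina_isW2 (X : Type) {n' : ℕ} (hn : 1 ≤ n') {ξ : ℝ} (h0 : 0 ≤ ξ) (h1 : ξ ≤ 1) :
    IsW (ofina_w2 X n' ξ) := by
  have h : (1 : ℝ) ≤ n' := by exact_mod_cast hn
  refine ⟨fun i o => ?_, fun i => ?_⟩
  · cases o
    · exact h0
    · exact div_nonneg (by linarith) (by linarith)
  · rw [Fintype.sum_option]
    show ξ + ∑ _b : Fin n', (1 - ξ) / n' = 1
    rw [sum_const, card_univ, Fintype.card_fin, nsmul_eq_mul]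
    field_simp
    ring

theorem ofina_rho (X : Type) {j n' : ℕ} (hj : 1 ≤ j) (hn' : 1 ≤ n') {ξ : ℝ} (hξ1 : ξ ≤ 1 / 2)
    (β : Fin n') (i : X) :
    1 / (32 * j * n' : ℝ) ≤ ofina_w1 X j i true * ofina_w2 X n' ξ i (some β) := by
  have hj' : (1 : ℝ) ≤ j := by exact_mod_cast hj
  have hn : (1 : ℝ) ≤ n' := by exact_mod_cast hn'
  show 1 / (32 * j * n' : ℝ) ≤ 1 / (16 * j : ℝ) * ((1 - ξ) / n')
  have e : 1 / (32 * j * n' : ℝ) = 1 / (16 * j : ℝ) * ((1 / 2) / n') := by
    field_simp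
    norm_num
  rw [e]
  exact mul_le_mul_of_nonneg_left (div_le_div_of_nonneg_right (by linarith) (by linarith))
    (by positivity)

theorem ofina_exp3 {x : ℝ} (h : 3 ≤ x) : Real.exp (-x) ≤ 1 / 8 := by
  have h1 : (2 : ℝ) ≤ Real.exp 1 := by linarith [Real.add_one_le_exp 1]
  have h2 : Real.exp 1 ^ 3 ≤ Real.exp x := by
    rw [← Real.exp_nat_mul]
    exact Real.exp_le_exp.2 (by push_cast; linarith)
  have h3 : (2 : ℝ) ^ 3 ≤ Real.exp 1 ^ 3 := pow_le_pow_left₀ (by norm_num) h1 3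
  rw [Real.exp_neg, ← one_div]
  exact one_div_le_one_div_of_le (by norm_num) (by linarith)

theorem ofina_num {n L q Q e ε : ℝ} (hn : 1 ≤ n) (hL : 0 ≤ L) (hq : 1 ≤ q) (hQ : 1 ≤ Q)
    (he : 0 ≤ e) (hε1 : ε ≤ 1) (h : 40 * n * (L + 1) ^ 2 * q ^ 2 * Q ^ 2 * e ≤ ε) :
    Q * e ≤ 1 / 2 ∧
      n * (2 * Q ^ 2 * e) + n * (L ^ 2 * q ^ 2) * (3 * Q ^ 2 * e) ≤ ε * (1 / 8) := by
  obtain ⟨E, hE⟩ : ∃ E, E = Q ^ 2 * e := ⟨_, rfl⟩
  obtain ⟨M, hM⟩ : ∃ M, M = (L + 1) ^ 2 * q ^ 2 := ⟨_, rfl⟩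
  have hE0 : 0 ≤ E := by rw [hE]; positivity
  have hM1 : 1 ≤ M := by
    rw [hM]
    exact one_le_mul_of_one_le_of_one_le (one_le_pow₀ (by linarith)) (one_le_pow₀ hq)
  have hM2 : L ^ 2 * q ^ 2 ≤ M := by
    rw [hM]
    exact mul_le_mul_of_nonneg_right (by nlinarith) (by positivity)
  have h1 : 40 * (n * M * E) ≤ ε := by
    rw [hE, hM]
    linarith
  have h2 : n * E ≤ n * M * E :=
    mul_le_mul_of_nonneg_right (le_mul_of_one_le_right (by linarith) hM1) hE0
  have h3 : E ≤ n * E := le_mul_of_one_le_left hE0 hn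
  have h4 : Q * e ≤ E := by
    rw [hE]
    exact mul_le_mul_of_nonneg_right (by nlinarith) he
  have h5 : n * (L ^ 2 * q ^ 2) * E ≤ n * M * E :=
    mul_le_mul_of_nonneg_right (mul_le_mul_of_nonneg_left hM2 (by linarith)) hE0
  refine ⟨by linarith, ?_⟩
  rw [mul_assoc 2, mul_assoc 3, ← hE]
  linarith

/-- the enumerators on the blocks. -/
theorem Ext.ofina_blocks {p : ℕ} [Fact p.Prime] {X T L : Type} [Fintype X] [DecidableEq X]
    [Fintype T] [Fintype L] (σ : Ext p X T) {w : X → L → ℝ} (hw : IsW w) {n' : ℕ}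
    (a : Fin n' → L) {θ ε ζ ρ : ℝ} (hθ0 : 0 ≤ θ) (hθ1 : θ ≤ 1) (hε : 0 < ε) (hε1 : ε ≤ 1)
    (hn' : 1 ≤ n') (hρ0 : 0 ≤ ρ) (hρ : ∀ β i, ρ ≤ w i (a β)) (hζ : ζ ≤ ρ * (1 - θ) * σ.r)
    (hbig : 40 * n' * (Fintype.card T + 1) ^ 2 * p ^ 2 * (p * (Fintype.card X + 1) : ℝ) ^ 2 *
      Real.exp (-ζ) ≤ ε) :
    Pw w (fun l => (∃ β, ε ≤ enum θ σ.U' (ofina_blk σ.Y l (a β)) - 1) ∨
        ∃ β t t', ∃ u u' : ZMod p, σ.r < wtm σ.U (u • σ.lam t - u' • σ.lam t') ∧
          ε ≤ cenum θ (off σ.Yᶜ (u • σ.lam t - u' • σ.lam t')) σ.U' (ofina_blk σ.Y l (a β))) ≤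
      1 / 8 := by
  have hn : (1 : ℝ) ≤ n' := by exact_mod_cast hn'
  have hp : (1 : ℝ) ≤ p := by exact_mod_cast (Fact.out : p.Prime).one_lt.le
  obtain ⟨hQ, hnum⟩ := ofina_num hn (Nat.cast_nonneg _) hp ofina_one_le_Q (Real.exp_pos _).le
    hε1 hbig
  have hx : 0 ≤ ρ * (1 - θ) := mul_nonneg hρ0 (by linarith)
  have hrC : (8 * σ.r : ℝ) ≤ σ.CH := by exact_mod_cast σ.hr.le
  have hr0 : (0 : ℝ) ≤ σ.r := Nat.cast_nonneg _
  have hζ2 : ζ ≤ ρ * (1 - θ) * σ.CH / 2 := by
    have := mul_le_mul_of_nonneg_left (by linarith : (σ.r : ℝ) ≤ σ.CH / 2) hx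
    linarith
  have hζ1 : ζ ≤ ρ * (1 - θ) * σ.CH :=
    hζ.trans (mul_le_mul_of_nonneg_left (by linarith : (σ.r : ℝ) ≤ σ.CH) hx)
  have hs : Safe σ.CH σ.U' := σ.safe.mono (by omega)
  have h1 := ofina_union hw (univ : Finset (Fin n'))
    (fun β l => ε ≤ enum θ σ.U' (ofina_blk σ.Y l (a β)) - 1)
    (fun l => ∃ β, ε ≤ enum θ σ.U' (ofina_blk σ.Y l (a β)) - 1) hε.le
    (fun l ⟨β, hβ⟩ => ⟨β, mem_univ _, hβ⟩)
    (fun β _ => ofina_enum hw σ.Y (a β) ε hρ0 hθ0 hθ1 (hρ β) σ.one_le_CH hs σ.U'_le hζ1 hQ)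
  obtain ⟨v, hv⟩ : ∃ v : Fin n' × T × T × ZMod p × ZMod p → Vec p X, ∀ β t t' u u',
      v (β, t, t', u, u') = u • σ.lam t - u' • σ.lam t' :=
    ⟨fun q => q.2.2.2.1 • σ.lam q.2.1 - q.2.2.2.2 • σ.lam q.2.2.1, fun _ _ _ _ _ => rfl⟩
  have h2 := ofina_union hw (univ.filter (fun q => σ.r < wtm σ.U (v q)))
    (fun q l => ε ≤ cenum θ (off σ.Yᶜ (v q)) σ.U' (ofina_blk σ.Y l (a q.1)))
    (fun l => ∃ β t t', ∃ u u' : ZMod p, σ.r < wtm σ.U (u • σ.lam t - u' • σ.lam t') ∧
      ε ≤ cenum θ (off σ.Yᶜ (u • σ.lam t - u' • σ.lam t')) σ.U' (ofina_blk σ.Y l (a β))) hε.le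
    (fun l ⟨β, t, t', u, u', h, h'⟩ => ⟨(β, t, t', u, u'),
      mem_filter.2 ⟨mem_univ _, by rw [hv]; exact h⟩, by rw [hv]; exact h'⟩)
    (fun q hq => ofina_cenum hw σ.Y (a q.1) ε hρ0 hθ0 hθ1 (hρ q.1) σ.one_le_CH hs
      σ.U'_le hζ2 hQ _
      (fun i hi => by
        rw [supp_off] at hi
        exact not_not.1 (fun h => (mem_sdiff.1 hi).2 (mem_compl.2 h)))
      σ.r (fun η hη => (mem_filter.1 hq).2.le.trans (wtm_le_off σ.hY _ hη)) hζ)
  rw [card_univ, Fintype.card_fin] at h1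
  have h3 : ((univ.filter (fun q => σ.r < wtm σ.U (v q))).card : ℝ) ≤
      n' * (Fintype.card T ^ 2 * p ^ 2) := by
    refine le_trans (Nat.cast_le.2 (card_le_univ _)) (le_of_eq ?_)
    simp only [Fintype.card_prod, Fintype.card_fin, ZMod.card]
    push_cast
    ring
  replace h2 := h2.trans (mul_le_mul_of_nonneg_right h3 (by positivity))
  refine (Pw_or_le hw _ _).trans (le_of_mul_le_mul_left ?_ hε)
  rw [mul_add]
  exact (add_le_add h1 h2).trans hnum

end Pool.Agent.P.MP_85fe51_lc.OD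
end
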