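import Pool.Agent.K.MP_85fe51_lc.C1

-- part Pool.Agent.P.MP_85fe51_lc.OFinA
section

set_option autoImplicit false

namespace Pool.Agent.P.MP_85fe51_lc.OD

open Finset
open scoped Classical

section
variable {k j : ℕ}

/-- the point mass at the plain label of the atom `a0`. -/
noncomputable def nu1 (P : Pat k j) : Lab k j → ℝ := fun a => if a = some (P.a0, false) then 1 else 0

/-- the label law after removing the fraction `1 / (16 j)` of `nu1`. -/
noncomputable def nu0 (P : Pat k j) (τ : ℝ) : Lab k j → ℝ :=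
  fun a => (nu k j τ a - 1 / (16 * j : ℝ) * nu1 P a) / (1 - 1 / (16 * j : ℝ))

noncomputable def nuT {X : Type} (P : Pat k j) (τ : ℝ) (Tp : Finset X) : X → Lab k j → ℝ :=
  fun i => if i ∈ Tp then nu1 P else nu0 P τ

theorem ofina_nu_a0 (P : Pat k j) (τ : ℝ) :
    nu k j τ (some (P.a0, false)) = 4 * (1 / (16 * j : ℝ)) * (1 - τ) := by
  have h : nu k j τ (some (P.a0, false)) = 1 / (4 * j : ℝ) * (1 - τ) := by
    simp [nu, Pat.a0]
  rw [h]
  ring

theorem ofina_sum_nu1 (P : Pat k j) : ∑ a, nu1 P a = 1 := by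
  simp [nu1]

theorem isW_nuT {X : Type} (P : Pat k j) (hk : 1 ≤ k) (hj : 1 ≤ j) {τ : ℝ} (h0 : 0 ≤ τ)
    (h1 : τ ≤ 1 / 2) (Tp : Finset X) : IsW (nuT P τ Tp) := by
  obtain ⟨a0, a1⟩ := ofina_al hj
  have hw := isW_nu Unit hk hj h0 (by linarith : τ ≤ 1)
  refine ⟨fun i a => ?_, fun i => ?_⟩
  · unfold nuT
    split_ifs
    · unfold nu1
      split_ifs <;> norm_num
    · refine div_nonneg ?_ (by linarith)
      unfold nu1
      split_ifs with ha
      · rw [ha, ofina_nu_a0]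
        nlinarith
      · have := hw.1 () a
        linarith
  · unfold nuT
    split_ifs
    · exact ofina_sum_nu1 P
    · unfold nu0
      rw [← sum_div, sum_sub_distrib, ← mul_sum, ofina_sum_nu1, hw.2 (), mul_one]
      exact div_self (by linarith)

theorem nu0_a0 (P : Pat k j) (hj : 1 ≤ j) {τ : ℝ} (h1 : τ ≤ 1 / 2) :
    1 / (16 * j : ℝ) ≤ nu0 P τ (some (P.a0, false)) := by
  obtain ⟨a0, a1⟩ := ofina_al hj
  unfold nu0 nu1
  rw [if_pos rfl, ofina_nu_a0, le_div_iff₀ (by linarith)]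
  nlinarith

theorem nu0_ab (P : Pat k j) (hj : 1 ≤ j) (τ : ℝ) (b : Fin k) :
    1 / (4 * j * k : ℝ) ≤ nu0 P τ (some (P.ab b, false)) + nu0 P τ (some (P.ab b, true)) := by
  obtain ⟨a0, a1⟩ := ofina_al hj
  have e1 : nu1 P (some (P.ab b, false)) = 0 :=
    if_neg (fun h => P.a0_ne_ab b (congrArg Prod.fst (Option.some.inj h)).symm)
  have e2 : nu1 P (some (P.ab b, true)) = 0 :=
    if_neg (fun h => P.a0_ne_ab b (congrArg Prod.fst (Option.some.inj h)).symm)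
  have e3 : nu k j τ (some (P.ab b, false)) = 1 / (4 * j * k : ℝ) * (1 - τ) := by
    simp [nu, Pat.ab]
  have e4 : nu k j τ (some (P.ab b, true)) = 1 / (4 * j * k : ℝ) * τ := by
    simp [nu, Pat.ab]
  have e5 : (0 : ℝ) ≤ 1 / (4 * j * k : ℝ) := by positivity
  unfold nu0
  rw [e1, e2, e3, e4, ← add_div, le_div_iff₀ (by linarith)]
  nlinarith [mul_nonneg e5 a0.le]

theorem ofina_mix (P : Pat k j) (hj : 1 ≤ j) (τ : ℝ) (a : Lab k j) :
    nu k j τ a = 1 / (16 * j : ℝ) * nu1 P a + (1 - 1 / (16 * j : ℝ)) * nu0 P τ a := by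
  obtain ⟨a0, a1⟩ := ofina_al hj
  unfold nu0
  rw [mul_div_cancel₀ _ (by linarith)]
  ring

end

variable {p : ℕ} [Fact p.Prime] {X : Type} [Fintype X] [DecidableEq X] {T : Type} [Fintype T]
  {k j : ℕ} {V : Type} [AddCommGroup V]

namespace Ext
variable (σ : Ext p X T) (P : Pat k j) (phi : T → ZMod p → V)

noncomputable def Add (τ p' : ℝ) (Tp : Finset X) : Finset T :=
  univ.filter (fun e => σ.Heavy e ∧ p' ≤ Ew (nuT P τ Tp) (σ.pfe P phi e))

theorem ofina_pfe_nonneg (e : T) (l : X → Lab k j) : 0 ≤ σ.pfe P phi e l := pr_nonneg _ _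

theorem ofina_abar (hj : 1 ≤ j) (τ : ℝ) (e : T) :
    σ.abar P phi τ e = Ew (ofina_w1 X j)
      (fun l => Ew (nuT P τ (univ.filter (fun i => l i = true))) (σ.pfe P phi e)) := by
  have h := Ew_mix (X := X) (1 / (16 * j : ℝ)) (nu1 P) (nu0 P τ) (σ.pfe P phi e)
  have e1 : (fun _ : X => nu k j τ) =
      fun _ a => 1 / (16 * j : ℝ) * nu1 P a + (1 - 1 / (16 * j : ℝ)) * nu0 P τ a :=
    funext fun _ => funext fun a => ofina_mix P hj τ a
  unfold abar
  rw [e1, h]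
  refine congrArg (Ew (ofina_w1 X j)) (funext fun l => ?_)
  refine congrArg (fun w => Ew w (σ.pfe P phi e)) (funext fun i => ?_)
  unfold nuT
  by_cases hi : l i = true <;> simp [hi]

/-- few terms are added for a random set `Tp`. -/
theorem fail_add (hk : 1 ≤ k) (hj : 1 ≤ j) {τ pmin p' : ℝ} (h0 : 0 ≤ τ) (h1 : τ ≤ 1 / 2)
    (hp : 0 < p') {n1 : ℕ} (hn1 : 1 ≤ n1) (hm : 8 * Fintype.card T * pmin ≤ p' * n1)
    (hch : (univ.filter (fun e => σ.Heavy e ∧ pmin ≤ σ.abar P phi τ e)).card ≤ n1) :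
    Pw (fun (_ : X) (b : Bool) => if b then 1 / (16 * j : ℝ) else 1 - 1 / (16 * j : ℝ))
      (fun l => 2 * n1 < (σ.Add P phi τ p' (univ.filter (fun i => l i = true))).card) ≤ 1 / 8 := by
  have hw := ofina_isW1 X hj
  have hν := isW_nu X hk hj h0 (by linarith : τ ≤ 1)
  have hn : (1 : ℝ) ≤ n1 := by exact_mod_cast hn1
  have hy : 0 < p' * n1 := by positivity
  obtain ⟨S, hS⟩ : ∃ S : Finset T, ∀ e, e ∈ S ↔ σ.abar P phi τ e < pmin :=
    ⟨univ.filter (fun e => σ.abar P phi τ e < pmin), fun e => by simp⟩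
  obtain ⟨G, hG⟩ : ∃ G : T → (X → Bool) → ℝ, ∀ e l, G e l =
      Ew (nuT P τ (univ.filter (fun i => l i = true))) (σ.pfe P phi e) := ⟨_, fun _ _ => rfl⟩
  have hG0 : ∀ e l, 0 ≤ G e l := fun e l => by
    rw [hG]
    exact Ew_nonneg (isW_nuT P hk hj h0 h1 _) (σ.ofina_pfe_nonneg P phi e)
  have hE : Ew (ofina_w1 X j) (fun l => ∑ e ∈ S, G e l) ≤ p' * n1 / 8 := by
    rw [Ew_sum]
    have e1 : ∀ e ∈ S, Ew (ofina_w1 X j) (G e) ≤ pmin := fun e he => by
      have e2 : G e = _ := funext (hG e)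
      rw [e2, ← σ.ofina_abar P phi hj τ e]
      exact ((hS e).1 he).le
    refine (sum_le_sum e1).trans ?_
    rw [sum_const, nsmul_eq_mul]
    rcases S.eq_empty_or_nonempty with h | ⟨e, he⟩
    · rw [h, card_empty, Nat.cast_zero, zero_mul]
      positivity
    · have e3 : 0 ≤ σ.abar P phi τ e := Ew_nonneg hν (σ.ofina_pfe_nonneg P phi e)
      have e4 : 0 ≤ pmin := e3.trans ((hS e).1 he).le
      have e5 : (S.card : ℝ) ≤ Fintype.card T := by exact_mod_cast card_le_univ S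
      have e6 := mul_le_mul_of_nonneg_right e5 e4
      linarith
  have hM := Ew_markov hw (fun l => ∑ e ∈ S, G e l) (fun l => sum_nonneg fun e _ => hG0 e l)
    (p' * n1)
  have hP : Pw (ofina_w1 X j)
      (fun l => 2 * n1 < (σ.Add P phi τ p' (univ.filter (fun i => l i = true))).card) ≤
      Pw (ofina_w1 X j) (fun l => p' * n1 ≤ ∑ e ∈ S, G e l) := by
    refine Pw_mono hw (fun l _ hl => ?_)
    obtain ⟨A, hA⟩ : ∃ A, A = σ.Add P phi τ p' (univ.filter (fun i => l i = true)) := ⟨_, rfl⟩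
    have hA' : ∀ e ∈ A, σ.Heavy e ∧ p' ≤ G e l := fun e he => by
      rw [hA] at he
      rw [hG]
      exact (mem_filter.1 he).2
    rw [← hA] at hl
    have e1 : A \ S ⊆ univ.filter (fun e => σ.Heavy e ∧ pmin ≤ σ.abar P phi τ e) := fun e he =>
      mem_filter.2 ⟨mem_univ _, (hA' e (mem_sdiff.1 he).1).1,
        not_lt.1 (fun h => (mem_sdiff.1 he).2 ((hS e).2 h))⟩
    have e2 := card_le_card e1
    have e3 := card_sdiff_add_card_inter A S
    have e4 : (n1 : ℝ) ≤ (A ∩ S).card := by exact_mod_cast (by omega : n1 ≤ (A ∩ S).card)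
    calc p' * n1 ≤ (A ∩ S).card * p' := by nlinarith
      _ = ∑ _e ∈ A ∩ S, p' := by rw [sum_const, nsmul_eq_mul]
      _ ≤ ∑ e ∈ A ∩ S, G e l := sum_le_sum fun e he => (hA' e (mem_inter.1 he).1).2
      _ ≤ ∑ e ∈ S, G e l :=
        sum_le_sum_of_subset_of_nonneg inter_subset_right (fun e _ _ => hG0 e l)
  refine hP.trans (le_of_mul_le_mul_left ?_ hy)
  linarith

/-- the choice of `Tp`, of the new ground set and of the blocks. -/
theorem exists_types (hk : 1 ≤ k) (hj : 1 ≤ j) {θ τ ε ζ ξ pmin p' : ℝ} (hθ0 : 0 ≤ θ)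
    (hθ1 : θ ≤ 1) (h0 : 0 ≤ τ) (h1 : τ ≤ 1 / 2) (hε : 0 < ε) (hε1 : ε ≤ 1) (hξ0 : 0 < ξ)
    (hξ1 : ξ ≤ 1 / 2) (hp : 0 < p') {n1 n' c : ℕ} (hn1 : 1 ≤ n1) (hn' : 1 ≤ n')
    (hm : 8 * Fintype.card T * pmin ≤ p' * n1)
    (hr : (Fintype.card T : ℝ) ^ 3 * Real.exp (-(σ.r / 2 : ℝ)) ≤ 1 / 8)
    (hζ : ζ ≤ 1 / (32 * j * n') * (1 - θ) * σ.r)
    (hbig : 40 * n' * (Fintype.card T + 1) ^ 2 * p ^ 2 * (p * (Fintype.card X + 1) : ℝ) ^ 2 *
      Real.exp (-ζ) ≤ ε)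
    (hY : 192 * j ≤ ξ * σ.Y.card)
    (hdel : Fintype.card T * (10 * σ.CH) * (10 * σ.CH * ξ) ^ (c + 1) ≤ ξ * σ.Y.card / (1024 * j))
    (hch : (univ.filter (fun e => σ.Heavy e ∧ pmin ≤ σ.abar P phi τ e)).card ≤ n1) :
    ∃ (Tp T2 : Finset X) (bb : Fin n' → Finset X), T2 ⊆ Tp ∩ σ.Y ∧ (∀ β, bb β ⊆ Tp ∩ σ.Y) ∧
      (∀ β β', β ≠ β' → Disjoint (bb β) (bb β')) ∧ (∀ β, Disjoint T2 (bb β)) ∧
      (σ.Add P phi τ p' Tp).card ≤ 2 * n1 ∧
      (∀ t0, ∀ t ∈ σ.Mid t0, ∀ t' ∈ σ.Mid t0, σ.r < wt (σ.de t0 t - σ.de t0 t') →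
        σ.r ≤ 2 * (supp (σ.de t0 t - σ.de t0 t') \ Tp).card) ∧
      (∀ β, enum θ σ.U' (bb β) ≤ 1 + ε) ∧
      (∀ β t t', ∀ u u' : ZMod p, σ.r < wtm σ.U (u • σ.lam t - u' • σ.lam t') →
        cenum θ (off σ.Yᶜ (u • σ.lam t - u' • σ.lam t')) σ.U' (bb β) ≤ ε) ∧
      ξ / (128 * j) * σ.Y.card ≤ T2.card ∧
      ∀ t, wtm (σ.U ⊔ spn σ.lam (σ.Add P phi τ p' Tp)) (σ.lam t) ≤ 10 * σ.CH →
        ∃ d, σ.lam t - d ∈ σ.U ⊔ spn σ.lam (σ.Add P phi τ p' Tp) ∧ (supp d ∩ T2).card ≤ c := by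
  have hw1 := ofina_isW1 X hj
  have hw2 := ofina_isW2 X hn' hξ0.le (by linarith)
  have hw := isW_pair hw1 hw2
  obtain ⟨a0, a1⟩ := ofina_al hj
  have hj' : (1 : ℝ) ≤ j := by exact_mod_cast hj
  obtain ⟨tp, htp0⟩ : ∃ tp : (X → Bool) → Finset X, ∀ l, tp l = univ.filter (fun i => l i = true) :=
    ⟨_, fun _ => rfl⟩
  have htp : ∀ l i, i ∈ tp l ↔ l i = true := fun l i => by simp [htp0]
  have hrep : ∀ (Tp : Finset X) (t : T), ∃ d, σ.lam t - d ∈ σ.U ⊔ spn σ.lam (σ.Add P phi τ p' Tp) ∧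
      wt d = wtm (σ.U ⊔ spn σ.lam (σ.Add P phi τ p' Tp)) (σ.lam t) := fun Tp t => by
    obtain ⟨d, d1, _, d3⟩ := exists_rep (σ.hY.trans le_sup_left :
      co σ.Yᶜ ≤ σ.U ⊔ spn σ.lam (σ.Add P phi τ p' Tp)) (σ.lam t)
    exact ⟨d, d1, d3⟩
  choose D hD1 hD2 using hrep
  have f1 := (ofina_pair_fst (ofina_w1 X j) hw2
    (fun l => 2 * n1 < (σ.Add P phi τ p' (tp l)).card)).le.trans (by
      simp only [htp0]
      exact σ.fail_add P phi hk hj h0 h1 hp hn1 hm hch)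
  have f2 := (ofina_pair_fst (ofina_w1 X j) hw2 _).le.trans ((ofina_long hw1 (fun _ => a1)
    (fun q : T × T × T => σ.de q.1 q.2.1 - σ.de q.1 q.2.2) σ.r tp htp).trans (by
      refine le_trans (le_of_eq ?_) hr
      simp only [Fintype.card_prod]
      push_cast
      ring))
  have f3 := σ.ofina_blocks hw (fun β : Fin n' => (true, some β)) hθ0 hθ1 hε hε1 hn'
    (by positivity) (fun β i => ofina_rho X hj hn' hξ1 β i) hζ hbig
  obtain ⟨y, hy⟩ : ∃ y : ℝ, y = ξ / (128 * j) * σ.Y.card := ⟨_, rfl⟩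
  have hy1 : 1 / (16 * j : ℝ) * ξ * σ.Y.card / 4 = 2 * y := by
    rw [hy]
    field_simp
    ring
  have hy2 : ξ * σ.Y.card / (1024 * j) = y / 8 := by
    rw [hy]
    field_simp
    ring
  have hy3 : 3 ≤ 2 * y := by
    have e : 2 * y = ξ * σ.Y.card / (64 * j) := by
      rw [hy]
      field_simp
      ring
    rw [e, le_div_iff₀ (by positivity)]
    linarith
  have f4 := ofina_few hw σ.Y (true, none) (ρ := 1 / (16 * j : ℝ) * ξ) (fun _ => le_rfl)
  rw [hy1] at f4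
  replace f4 := f4.trans (ofina_exp3 hy3)
  have f5 := (Ew_markov hw (fun l => ((ofina_del (D (tp fun i => (l i).1)) (10 * σ.CH) c
      (fun i => (l i).2) none).card : ℝ)) (fun _ => Nat.cast_nonneg _) y).trans
    (ofina_pair_le (ofina_w2 X n' ξ) hw1
      (fun l l' => ((ofina_del (D (tp l)) (10 * σ.CH) c l' none).card : ℝ)) (c := y / 8)
      (fun l => (ofina_del_le hw2 _ _ c none hξ0.le (fun _ => le_rfl)).trans (by
        rw [← hy2]
        push_cast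
        exact hdel)))
  replace f5 := le_of_mul_le_mul_left (f5.trans (le_of_eq (by ring : y / 8 = y * (1 / 8))))
    (by linarith)
  have f := (Pw_or_le hw _ _).trans (add_le_add f1 ((Pw_or_le hw _ _).trans (add_le_add f2
    ((Pw_or_le hw _ _).trans (add_le_add f3 ((Pw_or_le hw _ _).trans (add_le_add f4 f5)))))))
  obtain ⟨l, hl⟩ := Pw_exists_not hw (f.trans_lt (by norm_num))
  simp only [not_or, not_exists, not_and, not_lt, not_le] at hl
  obtain ⟨g1, g2, ⟨g3, g3'⟩, g4, g5⟩ := hl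
  have hsub : ∀ o, ofina_blk σ.Y l (true, o) ⊆ (tp fun i => (l i).1) ∩ σ.Y := fun o i hi =>
    mem_inter.2 ⟨(htp _ i).2 (congrArg Prod.fst (ofina_mem_blk.1 hi).2), (ofina_mem_blk.1 hi).1⟩
  have hdis : ∀ o o', o ≠ o' → Disjoint (ofina_blk σ.Y l (true, o)) (ofina_blk σ.Y l (true, o')) :=
    fun o o' h => disjoint_left.2 fun i hi hi' => h (congrArg Prod.snd
      ((ofina_mem_blk.1 hi).2.symm.trans (ofina_mem_blk.1 hi').2))
  refine ⟨tp fun i => (l i).1, ofina_blk σ.Y l (true, none) \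
      ofina_del (D (tp fun i => (l i).1)) (10 * σ.CH) c (fun i => (l i).2) none,
    fun β => ofina_blk σ.Y l (true, some β), sdiff_subset.trans (hsub _), fun β => hsub _,
    fun β β' h => hdis _ _ (fun e => h (Option.some.inj e)),
    fun β => (hdis none (some β) (Option.some_ne_none β).symm).mono_left sdiff_subset, g1,
    fun t0 t _ t' _ h => g2 (t0, t, t') h, fun β => by linarith [g3 β],
    fun β t t' u u' h => (g3' β t t' u u' h).le, ?_, fun t ht => ⟨D _ t, hD1 _ t, ?_⟩⟩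
  · have e : ((ofina_blk σ.Y l (true, none)).card : ℝ) ≤ (ofina_blk σ.Y l (true, none) \
        ofina_del (D (tp fun i => (l i).1)) (10 * σ.CH) c (fun i => (l i).2) none).card +
        (ofina_del (D (tp fun i => (l i).1)) (10 * σ.CH) c (fun i => (l i).2) none).card := by
      exact_mod_cast card_le_card_sdiff_add_card
    rw [← hy]
    linarith
  · exact ofina_del_card _ c _ none ((hD2 _ t).le.trans ht)
      (fun i hi => congrArg Prod.snd (ofina_mem_blk.1 hi).2)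

end Ext

end Pool.Agent.P.MP_85fe51_lc.OD
end

-- part Pool.Agent.P.MP_85fe51_lc.OLong0
section

set_option autoImplicit false

namespace Pool.Agent.P.MP_85fe51_lc.OD

open Finset
open scoped Classical

variable {p : ℕ} [Fact p.Prime] {X : Type} [Fintype X] [DecidableEq X]
  {V : Type} [AddCommGroup V]

theorem olong_pr_pi {Ω κ : Type} [Fintype κ] [DecidableEq κ] (K : κ → Finset Ω)
    (P : κ → Ω → Prop) :
    pr (Fintype.piFinset K) (fun ω => ∀ β, P β (ω β)) = ∏ β, pr (K β) (P β) := by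
  simp only [pr_eq_card]
  have h : (Fintype.piFinset K).filter (fun ω => ∀ β, P β (ω β)) =
      Fintype.piFinset (fun β => (K β).filter (P β)) := by
    ext ω
    simp only [mem_filter, Fintype.mem_piFinset]
    exact ⟨fun h β => ⟨h.1 β, h.2 β⟩, fun h => ⟨fun β => (h β).1, fun β => (h β).2⟩⟩
  rw [prod_div_distrib, ← Nat.cast_prod, ← Nat.cast_prod, ← Fintype.card_piFinset,
    ← Fintype.card_piFinset, ← h]
  congr

theorem olong_avoid (a a' : ZMod p) :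
    pr (univ : Finset (ZMod p)) (fun s => s ≠ a ∧ s ≠ a') ≤
      1 - 2 / (p : ℝ) + 1 / (p : ℝ) * (if a - a' = 0 then 1 else 0) := by
  have hp : (0 : ℝ) < p := by exact_mod_cast (Fact.out : p.Prime).pos
  have h1 := pr_not (univ : Finset (ZMod p)) univ_nonempty (fun s => s ∈ ({a, a'} : Finset _))
  have h2 : pr (univ : Finset (ZMod p)) (fun s => s ≠ a ∧ s ≠ a') ≤
      pr (univ : Finset (ZMod p)) (fun s => ¬ s ∈ ({a, a'} : Finset _)) :=
    pr_mono _ fun s _ h => by simpa [not_or] using h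
  have h3 : pr (univ : Finset (ZMod p)) (fun s => s ∈ ({a, a'} : Finset _)) =
      (({a, a'} : Finset (ZMod p)).card : ℝ) / p := by
    rw [pr_eq_card, card_univ, ZMod.card]
    congr 2
    congr 1
    ext s
    simp
  rw [h1, h3] at h2
  refine h2.trans (le_of_eq ?_)
  by_cases h : a - a' = 0
  · rw [if_pos h, sub_eq_zero.mp h]
    simp
    ring
  · rw [if_neg h, card_pair (sub_ne_zero.mp h)]
    simp

theorem olong_fub {Ω κ : Type} [Fintype κ] [DecidableEq κ] (K : κ → Finset Ω)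
    (Q : (κ → Ω) → (κ → ZMod p) → Prop) :
    pr (Fintype.piFinset (fun β => K β ×ˢ (univ : Finset (ZMod p))))
        (fun ω => Q (fun β => (ω β).1) (fun β => (ω β).2)) =
      (Fintype.piFinset K).expect (fun x => pr univ (Q x)) := by
  unfold pr
  rw [← expect_product']
  refine expect_nbij' (fun ω => (fun β => (ω β).1, fun β => (ω β).2))
    (fun q β => (q.1 β, q.2 β)) ?_ ?_ ?_ ?_ ?_
  · intro ω hω
    simp only [Fintype.mem_piFinset, mem_product, mem_univ, and_true] at hω ⊢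
    exact hω
  · intro q hq
    simp only [Fintype.mem_piFinset, mem_product, mem_univ, and_true] at hq ⊢
    exact hq
  · intro ω _
    rfl
  · intro q _
    rfl
  · intro ω _
    rfl

/-- the set used by the sign vector `ε`. -/
def olongA {n' : ℕ} (z : Finset X) (x : Fin n' → Finset X) (ε : Fin n' → Bool) : Finset X :=
  z ∪ (univ.filter (fun β => ε β = false)).biUnion x

theorem olong_dot {n' : ℕ} (v : Vec p X) {z : Finset X} {x : Fin n' → Finset X}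
    (h1 : ∀ β, Disjoint z (x β)) (h2 : ∀ β β', β ≠ β' → Disjoint (x β) (x β'))
    (ε : Fin n' → Bool) :
    dot v (olongA z x ε) = dot v z + ∑ β, if ε β then 0 else dot v (x β) := by
  unfold olongA
  rw [dot_union v ((disjoint_biUnion_right _ _ _).mpr fun β _ => h1 β),
    dot_biUnion v _ x (fun a _ b _ h => h2 a b h), sum_filter]
  congr 1
  refine sum_congr rfl fun β _ => ?_
  cases ε β <;> simp

/-- the contribution of one character. -/
def olongT {n' : ℕ} {Λ : Type} [Fintype Λ] (w : ZMod p → V) (v : Vec p X) (n : Λ → ℤ)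
    (z : Λ → Finset X) (x : Fin n' → Finset X) (s : Fin n' → ZMod p) (b y : ZMod p) : V :=
  ∑ ε : Fin n' → Bool, sgn ε • ∑ l, n l •
    w (b⁻¹ * (y + ∑ β, if ε β then s β else 0) + dot v (olongA (z l) x ε))

theorem olongT_dead {n' : ℕ} {Λ : Type} [Fintype Λ] (w : ZMod p → V) (v : Vec p X) (n : Λ → ℤ)
    {z : Λ → Finset X} {x : Fin n' → Finset X} (s : Fin n' → ZMod p) {b : ZMod p} (hb : b ≠ 0)
    (h1 : ∀ l β, Disjoint (z l) (x β)) (h2 : ∀ β β', β ≠ β' → Disjoint (x β) (x β'))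
    {β : Fin n'} (h : s β = dot (b • v) (x β)) (y : ZMod p) : olongT w v n z x s b y = 0 := by
  rw [← pd_zero (fun c => ∑ l, n l • w (b⁻¹ * c + dot v (z l))) (fun β => dot (b • v) (x β)) s
    h.symm y]
  unfold olongT
  refine sum_congr rfl fun ε _ => congrArg _ (sum_congr rfl fun l _ => congrArg _ (congrArg _ ?_))
  have e : ∑ β, (if ε β then s β else dot (b • v) (x β)) =
      ∑ β, (if ε β then s β else 0) + b * ∑ β, (if ε β then 0 else dot v (x β)) := by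
    rw [mul_sum, ← sum_add_distrib]
    refine sum_congr rfl fun β _ => ?_
    cases ε β <;> simp [dot_smul]
  rw [olong_dot v (h1 l) h2, e]
  field_simp
  ring

theorem olongT_light {n' : ℕ} {Λ : Type} [Fintype Λ] (w : ZMod p → V) (v : Vec p X) (n : Λ → ℤ)
    {z : Λ → Finset X} {x : Fin n' → Finset X} (s : Fin n' → ZMod p) (b : ZMod p)
    (h1 : ∀ l β, Disjoint (z l) (x β)) (h2 : ∀ β β', β ≠ β' → Disjoint (x β) (x β'))
    (h : ∀ c, ∑ l, n l • w (c + dot v (z l)) = 0) (y : ZMod p) : olongT w v n z x s b y = 0 := by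
  unfold olongT
  refine sum_eq_zero fun ε _ => ?_
  have e := h (b⁻¹ * (y + ∑ β, if ε β then s β else 0) + ∑ β, if ε β then 0 else dot v (x β))
  refine Eq.trans (congrArg (fun c => sgn ε • c) (Eq.trans ?_ e)) (smul_zero _)
  refine sum_congr rfl fun l _ => congrArg _ (congrArg _ ?_)
  rw [olong_dot v (h1 l) h2]
  ring

/-- the embedding of `V` in the sum-zero maps. -/
def olongI (p : ℕ) (v : V) (y : ZMod p) : V := (if y = 0 then p • v else 0) - v

theorem olongI_sz (v : V) : SZ (olongI p v) := by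
  unfold SZ olongI
  rw [sum_sub_distrib, sum_ite_eq' univ (0 : ZMod p), if_pos (mem_univ _), sum_const, card_univ,
    ZMod.card, sub_self]

end Pool.Agent.P.MP_85fe51_lc.OD
end

-- part Pool.Agent.P.MP_85fe51_lc.OLong
section

set_option autoImplicit false

namespace Pool.Agent.P.MP_85fe51_lc.OD

open Finset
open scoped Classical

variable {p : ℕ} [Fact p.Prime] {X : Type} [Fintype X] [DecidableEq X] {T : Type} [Fintype T]
  {V : Type} [AddCommGroup V]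

theorem sum_inv_shift {w : ZMod p → V} (hw : SZ w) (y s : ZMod p) :
    ∑ b ∈ univ.erase (0 : ZMod p), w (b⁻¹ * y + s) = (if y = 0 then p • w s else 0) - w s := by
  by_cases hy : y = 0
  · subst hy
    simp only [mul_zero, zero_add, sum_const, if_true]
    rw [card_erase_of_mem (mem_univ _), card_univ, ZMod.card, eq_sub_iff_add_eq, ← succ_nsmul,
      Nat.sub_add_cancel (Fact.out : p.Prime).one_le]
  · rw [if_neg hy, zero_sub]
    have h1 : ∑ b ∈ univ.erase (0 : ZMod p), w (b⁻¹ * y + s) = ∑ c ∈ univ.erase s, w c := by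
      refine sum_nbij' (fun b => b⁻¹ * y + s) (fun c => (c - s)⁻¹ * y) ?_ ?_ ?_ ?_ ?_
      · intro b hb
        have hb0 : b ≠ 0 := (mem_erase.mp hb).1
        refine mem_erase.mpr ⟨?_, mem_univ _⟩
        intro h
        exact mul_ne_zero (inv_ne_zero hb0) hy (add_eq_right.mp h)
      · intro c hc
        have hc0 : c - s ≠ 0 := sub_ne_zero.mpr (mem_erase.mp hc).1
        exact mem_erase.mpr ⟨mul_ne_zero (inv_ne_zero hc0) hy, mem_univ _⟩
      · intro b hb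
        have hb0 : b ≠ 0 := (mem_erase.mp hb).1
        rw [add_sub_cancel_right]
        field_simp
      · intro c hc
        have hc0 : c - s ≠ 0 := sub_ne_zero.mpr (mem_erase.mp hc).1
        field_simp
        ring
      · intro b _
        rfl
    have h2 := add_sum_erase univ w (mem_univ s)
    rw [h1, eq_neg_iff_add_eq_zero, add_comm, h2]
    exact hw

omit [Fintype X] [DecidableEq X] in
theorem olongI_Sf (lam : T → Vec p X) (phi : T → ZMod p → V) (hphi : ∀ t, SZ (phi t))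
    (A : Finset X) (y : ZMod p) :
    olongI p (Sf lam phi A) y =
      ∑ t, ∑ b ∈ univ.erase (0 : ZMod p), phi t (b⁻¹ * y + dot (lam t) A) := by
  simp only [sum_inv_shift (hphi _)]
  unfold olongI Sf
  rw [sum_sub_distrib]
  congr 1
  split_ifs
  · rw [smul_sum]
  · rw [sum_const_zero]

omit [Fintype X] in
theorem olong_total {n' : ℕ} {Λ : Type} [Fintype Λ] (lam : T → Vec p X) (phi : T → ZMod p → V)
    (hphi : ∀ t, SZ (phi t)) (n : Λ → ℤ) (z : Λ → Finset X) (x : Fin n' → Finset X)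
    (s : Fin n' → ZMod p) (y : ZMod p) :
    ∑ ε : Fin n' → Bool, sgn ε • ∑ l, n l •
        olongI p (Sf lam phi (olongA (z l) x ε)) (y + ∑ β, if ε β then s β else 0) =
      ∑ t, ∑ b ∈ univ.erase (0 : ZMod p), olongT (phi t) (lam t) n z x s b y := by
  unfold olongT
  simp only [olongI_Sf lam phi hphi, smul_sum]
  symm
  refine (sum_congr rfl fun t _ => sum_comm).trans (sum_comm.trans ?_)
  refine sum_congr rfl fun ε _ => ?_
  exact (sum_congr rfl fun t _ => sum_comm).trans sum_comm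

theorem olong_nz (hN : NoP p V) {n' : ℕ} {Λ : Type} [Fintype Λ] (lam : T → Vec p X)
    (phi : T → ZMod p → V) (hphi : ∀ t, SZ (phi t)) (n : Λ → ℤ) (z : Λ → Finset X)
    (h0 : ∑ l, n l • Sf lam phi (z l) ≠ 0) (x : Fin n' → Finset X) :
    piK p n' ≤ pr univ (fun s : Fin n' → ZMod p => ∃ y,
      ∑ t, ∑ b ∈ univ.erase (0 : ZMod p), olongT (phi t) (lam t) n z x s b y ≠ 0) := by
  have h := min_dist hN (fun (ε : Fin n' → Bool) (y : ZMod p) =>
    ∑ l, n l • olongI p (Sf lam phi (olongA (z l) x ε)) y) (by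
      intro ε
      unfold SZ
      rw [sum_comm]
      refine sum_eq_zero fun l _ => ?_
      rw [← smul_sum, olongI_sz, smul_zero]) (by
      intro h
      have h1 := congrFun (congrFun h (fun _ => true)) 1
      apply h0
      simp only [olongI, olongA, one_ne_zero, if_false, zero_sub, smul_neg, sum_neg_distrib,
        Pi.zero_apply, neg_eq_zero] at h1
      simpa using h1)
  refine h.trans (pr_mono _ ?_)
  rintro s _ ⟨y, hy⟩
  exact ⟨y, by rw [← olong_total lam phi hphi]; exact hy⟩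

namespace Ext
variable (σ : Ext p X T)

/-- two characters at a large distance rarely survive together. -/
theorem both_le {θ ε : ℝ} (hθ : ThC p θ) (hε : ε ≤ 1 / 12) {n' : ℕ} (bb : Fin n' → Finset X)
    (hb : ∀ β, bb β ⊆ σ.Y) (he : ∀ β, enum θ σ.U' (bb β) ≤ 1 + ε) (v v' : Vec p X)
    (hc : ∀ β, ∀ u : ZMod p, u ≠ 0 → cenum θ (off σ.Yᶜ (u • (v - v'))) σ.U' (bb β) ≤ ε) :
    pr (Fintype.piFinset (fun β => Ker σ.U (bb β) ×ˢ (univ : Finset (ZMod p))))
      (fun ω => ∀ β, (ω β).2 ≠ dot v (ω β).1 ∧ (ω β).2 ≠ dot v' (ω β).1) ≤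
      (1 - 4 / (3 * p : ℝ)) ^ n' := by
  rw [olong_pr_pi (fun β => Ker σ.U (bb β) ×ˢ (univ : Finset (ZMod p)))
    (fun _ q => q.2 ≠ dot v q.1 ∧ q.2 ≠ dot v' q.1)]
  have hp : (2 : ℝ) ≤ p := by exact_mod_cast (Fact.out : p.Prime).two_le
  have key : ∀ β, pr (Ker σ.U (bb β) ×ˢ (univ : Finset (ZMod p)))
      (fun q => q.2 ≠ dot v q.1 ∧ q.2 ≠ dot v' q.1) ≤ 1 - 4 / (3 * p : ℝ) := by
    intro β
    have h1 := single_le hθ σ.hY (empty_subset (bb β)) ((he β).trans (by linarith)) (v - v')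
      (hc β) 0
    rw [← Ker_eq_fib] at h1
    have hne : (Ker σ.U (bb β)).Nonempty := ⟨∅, empty_mem_Ker _ _⟩
    have h2 : pr (Ker σ.U (bb β) ×ˢ (univ : Finset (ZMod p)))
        (fun q => q.2 ≠ dot v q.1 ∧ q.2 ≠ dot v' q.1) ≤
        (Ker σ.U (bb β)).expect (fun A => 1 - 2 / (p : ℝ) +
          1 / (p : ℝ) * (if dot (v - v') A = 0 then 1 else 0)) := by
      unfold pr
      rw [expect_product]
      refine expect_le_expect fun A _ => ?_
      rw [dot_sub]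
      exact olong_avoid (dot v A) (dot v' A)
    rw [expect_add_distrib, expect_const hne, ← mul_expect] at h2
    have h3 : (Ker σ.U (bb β)).expect (fun A => if dot (v - v') A = 0 then (1 : ℝ) else 0) ≤
        2 / 3 := by
      have h4 : 1 / (p : ℝ) ≤ 1 / 2 := one_div_le_one_div_of_le (by norm_num) hp
      refine le_trans (le_of_eq ?_) (h1.trans (by linarith))
      unfold pr
      exact expect_congr rfl fun A _ => by congr
    have h5 := mul_le_mul_of_nonneg_left h3 (show 0 ≤ 1 / (p : ℝ) by positivity)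
    have h6 : 1 - 2 / (p : ℝ) + 1 / (p : ℝ) * (2 / 3) = 1 - 4 / (3 * p : ℝ) := by
      field_simp
      ring
    linarith
  refine (prod_le_prod (fun β _ => pr_nonneg _ _) (fun β _ => key β)).trans (le_of_eq ?_)
  rw [prod_const, card_univ, Fintype.card_fin]

/-- the certificate built from a good sample. -/
theorem olong_cert (phi : T → ZMod p → V) (Tp : Finset X) {n' : ℕ} {Λ : Type} [Fintype Λ]
    (n : Λ → ℤ) (z : Λ → Finset X) (x : Fin n' → Finset X) (s : Fin n' → ZMod p)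
    (hA : ∀ l ε, olongA (z l) x ε ⊆ Tp ∩ σ.Y ∧ KerP σ.U (olongA (z l) x ε)) {t0 : T}
    (hh : σ.Heavy t0) {b0 : ZMod p} (hb0 : b0 ≠ 0) (y0 : ZMod p)
    (h0 : ∑ t, ∑ b ∈ univ.erase (0 : ZMod p), olongT (phi t) (σ.lam t) n z x s b y0 ≠ 0)
    (hnear : ∀ t b y, b ≠ 0 → olongT (phi t) (σ.lam t) n z x s b y ≠ 0 →
      wtm σ.U (b • σ.lam t - b0 • σ.lam t0) ≤ σ.r) : σ.Cert phi Tp t0 := by
  have hw : ∀ t b y, b ≠ 0 → olongT (phi t) (σ.lam t) n z x s b y ≠ 0 →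
      wtm σ.U (σ.lam t - (b⁻¹ * b0) • σ.lam t0) ≤ σ.r := by
    intro t b y hb h
    have e : b • σ.lam t - b0 • σ.lam t0 = b • (σ.lam t - (b⁻¹ * b0) • σ.lam t0) := by
      rw [smul_sub, smul_smul, mul_inv_cancel_left₀ hb]
    rw [← wtm_smul σ.U hb, ← e]
    exact hnear t b y hb h
  have hterm : ∀ t ∈ σ.Mid t0, ∀ y, ∑ q : (Fin n' → Bool) × Λ, (sgn q.1 * n q.2) •
      phi t (σ.uu t0 t * (y + (b0⁻¹ * (∑ β, if q.1 β then s β else 0) +
        dot (σ.lam t0) (olongA (z q.2) x q.1))) + dot (σ.dd t0 t) (olongA (z q.2) x q.1)) =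
      olongT (phi t) (σ.lam t) n z x s (b0 * (σ.uu t0 t)⁻¹) (b0 * y) := by
    intro t ht y
    obtain ⟨hu, hr, -⟩ := σ.rep t0 t ht
    unfold olongT
    rw [Fintype.sum_prod_type]
    refine sum_congr rfl fun ε _ => ?_
    rw [smul_sum]
    refine sum_congr rfl fun l _ => ?_
    rw [mul_smul, (hA l ε).2.dot_rep hr]
    refine congrArg _ (congrArg _ (congrArg _ ?_))
    field_simp
    ring
  refine ⟨(Fin n' → Bool) × Λ, inferInstance, fun q => sgn q.1 * n q.2,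
    fun q => b0⁻¹ * (∑ β, if q.1 β then s β else 0) + dot (σ.lam t0) (olongA (z q.2) x q.1),
    fun q => olongA (z q.2) x q.1, fun q => (hA q.2 q.1).1, ⟨b0⁻¹ * y0, ?_⟩, ?_⟩
  · have hrep : ∀ t b, b ≠ 0 → olongT (phi t) (σ.lam t) n z x s b y0 ≠ 0 →
        t ∈ σ.LCl t0 ∧ b = b0 * (σ.uu t0 t)⁻¹ := by
      intro t b hb h
      have h1 := hw t b y0 hb h
      obtain ⟨d, hd, hdY, hdw⟩ := exists_rep σ.hY (σ.lam t - (b⁻¹ * b0) • σ.lam t0)
      have hY : supp d ⊆ σ.Y := fun i hi => by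
        by_contra hi'
        exact disjoint_left.mp hdY hi (mem_compl.mpr hi')
      have hr := σ.hr
      obtain ⟨m1, m2, m3⟩ := σ.rep_unique hh (mul_ne_zero (inv_ne_zero hb) hb0) hd hY (by omega)
      refine ⟨mem_filter.mpr ⟨m1, by rw [m3, hdw]; exact h1⟩, ?_⟩
      rw [m2]
      field_simp
    have e : ∑ t, ∑ b ∈ univ.erase (0 : ZMod p), olongT (phi t) (σ.lam t) n z x s b y0 =
        ∑ t ∈ σ.LCl t0, olongT (phi t) (σ.lam t) n z x s (b0 * (σ.uu t0 t)⁻¹) y0 := by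
      rw [← sum_subset (subset_univ (σ.LCl t0))]
      · refine sum_congr rfl fun t ht => sum_eq_single_of_mem _ ?_ ?_
        · exact mem_erase.mpr ⟨mul_ne_zero hb0
            (inv_ne_zero (σ.rep t0 t (σ.LCl_subset t0 ht)).1), mem_univ _⟩
        · intro b hb hne
          by_contra h
          exact hne (hrep t b (mem_erase.mp hb).1 h).2
      · intro t _ ht
        refine sum_eq_zero fun b hb => ?_
        by_contra h
        exact ht (hrep t b (mem_erase.mp hb).1 h).1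
    simp only [smul_sum]
    rw [sum_comm, sum_congr rfl fun t ht => hterm t (σ.LCl_subset t0 ht) (b0⁻¹ * y0),
      mul_inv_cancel_left₀ hb0, ← e]
    exact h0
  · intro t ht ht' y
    rw [hterm t ht y]
    by_contra h
    obtain ⟨hu, -, -, hwt, -⟩ := σ.rep t0 t ht
    have h1 := hw t _ _ (mul_ne_zero hb0 (inv_ne_zero hu)) h
    have e : (b0 * (σ.uu t0 t)⁻¹)⁻¹ * b0 = σ.uu t0 t := by field_simp
    rw [e, ← hwt] at h1
    exact ht' (mem_filter.mpr ⟨ht, h1⟩)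

/-- isolating one cluster by long differences. -/
theorem long (phi : T → ZMod p → V) (hphi : ∀ t, SZ (phi t)) (hN : NoP p V) {θ ε : ℝ}
    (hθ : ThC p θ) (hε : ε ≤ 1 / 12) (Tp T2 : Finset X) {n' : ℕ} (bb : Fin n' → Finset X)
    (hT2 : T2 ⊆ Tp ∩ σ.Y) (hb : ∀ β, bb β ⊆ Tp ∩ σ.Y)
    (hbb : ∀ β β', β ≠ β' → Disjoint (bb β) (bb β')) (hTb : ∀ β, Disjoint T2 (bb β))
    (he : ∀ β, enum θ σ.U' (bb β) ≤ 1 + ε)
    (hc : ∀ β t t', ∀ u u' : ZMod p, σ.r < wtm σ.U (u • σ.lam t - u' • σ.lam t') →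
      cenum θ (off σ.Yᶜ (u • σ.lam t - u' • σ.lam t')) σ.U' (bb β) ≤ ε)
    (hn : (p * Fintype.card T : ℝ) ^ 2 * (1 - 4 / (3 * p : ℝ)) ^ n' < piK p n')
    (Li : T → Prop) (hL : ∀ t, ¬ Li t → σ.Heavy t) {Λ : Type} [Fintype Λ] (n : Λ → ℤ)
    (z : Λ → Finset X) (hz : ∀ l, z l ⊆ T2 ∧ KerP σ.U (z l))
    (h0 : ∑ l, n l • Sf σ.lam phi (z l) ≠ 0)
    (hk : ∀ t, Li t → ∀ c, ∑ l, n l • phi t (c + dot (σ.lam t) (z l)) = 0) :
    ∃ t0, ¬ Li t0 ∧ σ.Cert phi Tp t0 := by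
  have h1 : piK p n' ≤ pr (Fintype.piFinset (fun β => Ker σ.U (bb β) ×ˢ (univ : Finset (ZMod p))))
      (fun ω => ∃ y, ∑ t, ∑ b ∈ univ.erase (0 : ZMod p),
        olongT (phi t) (σ.lam t) n z (fun β => (ω β).1) (fun β => (ω β).2) b y ≠ 0) := by
    rw [olong_fub (fun β => Ker σ.U (bb β)) (fun x s => ∃ y, ∑ t, ∑ b ∈ univ.erase (0 : ZMod p),
      olongT (phi t) (σ.lam t) n z x s b y ≠ 0)]
    exact le_expect ⟨fun _ => ∅, Fintype.mem_piFinset.mpr fun β => empty_mem_Ker _ _⟩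
      fun x _ => olong_nz hN σ.lam phi hphi n z h0 x
  have hp : (2 : ℝ) ≤ p := by exact_mod_cast (Fact.out : p.Prime).two_le
  have hq : 0 ≤ (1 - 4 / (3 * p : ℝ)) ^ n' := by
    refine pow_nonneg (sub_nonneg.mpr ?_) _
    rw [div_le_one (by linarith)]
    linarith
  have h2 : pr (Fintype.piFinset (fun β => Ker σ.U (bb β) ×ˢ (univ : Finset (ZMod p))))
      (fun ω => ∃ q ∈ (univ : Finset ((ZMod p × T) × (ZMod p × T))),
        σ.r < wtm σ.U (q.1.1 • σ.lam q.1.2 - q.2.1 • σ.lam q.2.2) ∧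
        ∀ β, (ω β).2 ≠ dot (q.1.1 • σ.lam q.1.2) (ω β).1 ∧
          (ω β).2 ≠ dot (q.2.1 • σ.lam q.2.2) (ω β).1) < piK p n' := by
    refine lt_of_le_of_lt ((pr_exists_le _ _ _).trans ?_) hn
    refine (sum_le_card_nsmul _ _ ((1 - 4 / (3 * p : ℝ)) ^ n') ?_).trans (le_of_eq ?_)
    · rintro ⟨⟨b, t⟩, ⟨b', t'⟩⟩ _
      by_cases hf : σ.r < wtm σ.U (b • σ.lam t - b' • σ.lam t')
      · refine (pr_mono _ fun ω _ h => h.2).trans (σ.both_le hθ hε bb
          (fun β => (hb β).trans inter_subset_right) he _ _ ?_)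
        intro β u hu
        have e : u • (b • σ.lam t - b' • σ.lam t') = (u * b) • σ.lam t - (u * b') • σ.lam t' := by
          rw [smul_sub, smul_smul, smul_smul]
        rw [e]
        refine hc β t t' _ _ ?_
        rw [← e, wtm_smul σ.U hu]
        exact hf
      · refine le_trans (le_of_eq ?_) hq
        unfold pr
        exact expect_eq_zero fun ω _ => if_neg fun h => hf h.1
    · simp only [card_univ, Fintype.card_prod, ZMod.card, nsmul_eq_mul]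
      push_cast
      ring
  by_contra hcon
  refine absurd (h1.trans (pr_mono _ ?_)) (not_le.mpr h2)
  rintro ω hω ⟨y0, hy0⟩
  by_contra hgood
  apply hcon
  have hx : ∀ β, (ω β).1 ⊆ bb β ∧ KerP σ.U (ω β).1 := fun β =>
    mem_Ker.mp (mem_product.mp (Fintype.mem_piFinset.mp hω β)).1
  have d1 : ∀ l β, Disjoint (z l) (ω β).1 := fun l β => (hTb β).mono (hz l).1 (hx β).1
  have d2 : ∀ β β', β ≠ β' → Disjoint (ω β).1 (ω β').1 := fun β β' h =>
    (hbb β β' h).mono (hx β).1 (hx β').1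
  have hsurv : ∀ t b y, b ≠ 0 →
      olongT (phi t) (σ.lam t) n z (fun β => (ω β).1) (fun β => (ω β).2) b y ≠ 0 →
      ∀ β, (ω β).2 ≠ dot (b • σ.lam t) (ω β).1 := fun t b y hb0 h β hβ =>
    h (olongT_dead _ _ n _ hb0 d1 d2 hβ y)
  obtain ⟨t0, -, ht0⟩ := exists_ne_zero_of_sum_ne_zero hy0
  obtain ⟨b0, hb0, ht0⟩ := exists_ne_zero_of_sum_ne_zero ht0
  have hb0' : b0 ≠ 0 := (mem_erase.mp hb0).1
  have hLi : ¬ Li t0 := fun h => ht0 (olongT_light _ _ n _ b0 d1 d2 (hk t0 h) y0)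
  refine ⟨t0, hLi, σ.olong_cert phi Tp n z _ _ ?_ (hL t0 hLi) hb0' y0 hy0 ?_⟩
  · intro l ε
    constructor
    · exact union_subset ((hz l).1.trans hT2)
        (biUnion_subset.mpr fun β _ => (hx β).1.trans (hb β))
    · intro η hη
      rw [olong_dot η (d1 l) d2, (hz l).2 η hη, zero_add]
      refine sum_eq_zero fun β _ => ?_
      rw [(hx β).2 η hη, ite_self]
  · intro t b y hb1 h
    by_contra hfar
    exact hgood ⟨((b, t), (b0, t0)), mem_univ _, not_le.mp hfar,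
      fun β => ⟨hsurv t b y hb1 h β, hsurv t0 b0 y0 hb0' ht0 β⟩⟩

end Ext

end Pool.Agent.P.MP_85fe51_lc.OD
end

-- part Pool.Agent.P.MP_85fe51_lc.OLinkA
section

set_option autoImplicit false
set_option linter.unusedSectionVars false

namespace Pool.Agent.P.MP_85fe51_lc.OD

open Finset
open scoped Classical

variable {p : ℕ} [Fact p.Prime] {X : Type} [Fintype X] [DecidableEq X] {T : Type} {k j : ℕ}
  (P : Pat k j)

/-- the indicator of a proposition. -/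
noncomputable def olaInd (q : Prop) : ℝ := if q then 1 else 0

theorem olaInd_nonneg (q : Prop) : 0 ≤ olaInd q := by
  unfold olaInd; split_ifs <;> norm_num

theorem olaInd_pos {q : Prop} (h : q) : olaInd q = 1 := if_pos h

theorem olaInd_neg {q : Prop} (h : ¬ q) : olaInd q = 0 := if_neg h

theorem ola_pr {Ω : Type} (s : Finset Ω) (Q : Ω → Prop) :
    pr s Q = s.expect (fun x => olaInd (Q x)) := rfl

theorem ola_all {B : Type} [Fintype B] (q : B → Prop) :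
    olaInd (∀ b, q b) = ∏ b, olaInd (q b) := by
  by_cases h : ∀ b, q b
  · rw [olaInd_pos h, Finset.prod_eq_one (fun b _ => olaInd_pos (h b))]
  · rw [olaInd_neg h]
    obtain ⟨b, hb⟩ := not_forall.1 h
    exact (Finset.prod_eq_zero (mem_univ b) (olaInd_neg hb)).symm

theorem ola_pairs (a : Cp k j → Finset X) (G : Fin k → Finset X × ZMod p → Finset X × ZMod p → Prop) :
    pr (FSp p a) (fun ω => ∀ b, G b (ω (P.cp b false)) (ω (P.cp b true))) =
      ∏ b, ((a (P.cp b false)).powerset ×ˢ (univ : Finset (ZMod p))).expect (fun y =>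
        ((a (P.cp b true)).powerset ×ˢ (univ : Finset (ZMod p))).expect (fun y' =>
          olaInd (G b y y'))) := by
  rw [ola_pr]
  simp only [ola_all]
  exact expect_prod_pairs (fun κ => (a κ).powerset ×ˢ (univ : Finset (ZMod p)))
    (fun _ => (powerset_nonempty _).product univ_nonempty) (fun b => P.cp b false)
    (fun b => P.cp b true) (fun b b' h => (P.cp_inj h).1) (fun b b' h => (P.cp_inj h).1)
    (fun b b' h => Bool.false_ne_true (P.cp_inj h).2) (fun b y y' => olaInd (G b y y'))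

theorem ola_eq (c d : ZMod p) :
    (univ : Finset (ZMod p)).expect (fun s => olaInd (c = s + d)) = 1 / (p : ℝ) := by
  rw [expect_eq_sum_div_card, card_univ, ZMod.card,
    Finset.sum_eq_single (c - d) (fun s _ hs => olaInd_neg (fun h => hs (by rw [h]; ring)))
      (fun h => absurd (mem_univ _) h), olaInd_pos (by ring)]

theorem ola_ne (c d : ZMod p) :
    (univ : Finset (ZMod p)).expect (fun s => olaInd (c ≠ s + d)) = 1 - 1 / (p : ℝ) := by
  have h : ∀ s : ZMod p, olaInd (c ≠ s + d) = 1 - olaInd (c = s + d) := by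
    intro s
    by_cases h : c = s + d
    · rw [olaInd_pos h, olaInd_neg (fun h' => h' h)]; norm_num
    · rw [olaInd_neg h, olaInd_pos h]; norm_num
  simp only [h]
  rw [expect_sub_distrib, ola_eq, Finset.expect_const univ_nonempty]

theorem ola_ne_two (c d c' d' : ZMod p) :
    (univ : Finset (ZMod p)).expect (fun s => olaInd (c ≠ s + d ∧ c' ≠ s + d')) ≤
      1 - 2 / (p : ℝ) + 1 / (p : ℝ) * olaInd (c - c' = d - d') := by
  by_cases h : c - c' = d - d'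
  · rw [olaInd_pos h]
    have h1 : (univ : Finset (ZMod p)).expect (fun s => olaInd (c ≠ s + d ∧ c' ≠ s + d')) ≤
        (univ : Finset (ZMod p)).expect (fun s => olaInd (c ≠ s + d)) := by
      refine expect_le_expect (fun s _ => ?_)
      by_cases h2 : c ≠ s + d ∧ c' ≠ s + d'
      · rw [olaInd_pos h2, olaInd_pos h2.1]
      · rw [olaInd_neg h2]; exact olaInd_nonneg _
    rw [ola_ne] at h1
    refine h1.trans (le_of_eq ?_)
    ring
  · rw [olaInd_neg h]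
    have h1 : ∀ s : ZMod p, olaInd (c ≠ s + d ∧ c' ≠ s + d') =
        1 - olaInd (c = s + d) - olaInd (c' = s + d') := by
      intro s
      by_cases h2 : c = s + d
      · have h3 : ¬ c' = s + d' := fun h3 => h (by rw [h2, h3]; ring)
        rw [olaInd_pos h2, olaInd_neg h3, olaInd_neg (fun h' => h'.1 h2)]; norm_num
      · by_cases h3 : c' = s + d'
        · rw [olaInd_neg h2, olaInd_pos h3, olaInd_neg (fun h' => h'.2 h3)]; norm_num
        · rw [olaInd_neg h2, olaInd_neg h3, olaInd_pos ⟨h2, h3⟩]; norm_num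
    simp only [h1]
    rw [expect_sub_distrib, expect_sub_distrib, ola_eq, ola_eq, Finset.expect_const univ_nonempty]
    refine le_of_eq ?_
    ring

theorem ola_half (a : Finset X) (η : Vec p X) (h : ¬ Disjoint (supp η) a) (c : ZMod p) :
    a.powerset.expect (fun A => olaInd (dot η A = c)) ≤ 1 / 2 := by
  obtain ⟨i, hi, hia⟩ := Finset.not_disjoint_iff.1 h
  have hd : Disjoint (a.erase i) {i} := disjoint_singleton_right.2 (notMem_erase i a)
  have ha : a = a.erase i ∪ {i} := by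
    rw [union_comm, ← insert_eq, insert_erase hia]
  rw [ha, expect_powerset_union hd]
  refine expect_le (powerset_nonempty _) (fun A hA => ?_)
  have hA' : Disjoint A {i} := Disjoint.mono_left (mem_powerset.1 hA) hd
  have hp : ({i} : Finset X).powerset = {∅, {i}} := by
    ext B; simp [subset_singleton_iff]
  have hne : (∅ : Finset X) ≠ {i} := (singleton_ne_empty i).symm
  rw [hp, expect_eq_sum_div_card, sum_pair hne, card_pair hne, union_empty, dot_union η hA']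
  have h1 : dot η {i} = η i := by simp [dot]
  have h2 : olaInd (dot η A = c) + olaInd (dot η A + dot η {i} = c) ≤ 1 := by
    by_cases h3 : dot η A = c
    · have h4 : ¬ dot η A + dot η {i} = c := by
        rw [h1, h3]; intro h4; exact mem_supp.1 hi (by simpa using h4)
      rw [olaInd_pos h3, olaInd_neg h4]; norm_num
    · rw [olaInd_neg h3, zero_add]; unfold olaInd; split_ifs <;> norm_num
  push_cast
  linarith

theorem fsurv_eq (a : Cp k j → Finset X) (δ : Vec p X) : pr (FSp p a) (FSurv P δ) = piK p k := by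
  have h := ola_pairs P a (fun _ (y y' : Finset X × ZMod p) => y.2 + dot δ y.1 ≠ y'.2 + dot δ y'.1)
  refine h.trans ?_
  have h1 : ∀ (s : Finset X) (y : Finset X × ZMod p),
      (s.powerset ×ˢ (univ : Finset (ZMod p))).expect
        (fun y' => olaInd (y.2 + dot δ y.1 ≠ y'.2 + dot δ y'.1)) = 1 - 1 / (p : ℝ) := by
    intro s y
    rw [expect_product]
    simp only [ola_ne]
    exact Finset.expect_const (powerset_nonempty _) _
  simp only [h1]
  rw [Finset.prod_congr rfl (fun b _ =>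
    Finset.expect_const ((powerset_nonempty _).product univ_nonempty) _)]
  simp [piK]

theorem ola_base : (0 : ℝ) ≤ 1 - 3 / (2 * p : ℝ) := by
  have h : (2 : ℝ) ≤ p := by exact_mod_cast (Fact.out : p.Prime).two_le
  rw [sub_nonneg, div_le_one (by linarith)]
  linarith

theorem pair_free (a : Cp k j → Finset X) (δ δ' : Vec p X)
    (h : ∀ b, ¬ Disjoint (supp (δ - δ')) (a (P.cp b false))) :
    pr (FSp p a) (fun ω => FSurv P δ ω ∧ FSurv P δ' ω) ≤ (1 - 3 / (2 * p : ℝ)) ^ k := by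
  have h0 := ola_pairs P a (fun _ (y y' : Finset X × ZMod p) =>
    y.2 + dot δ y.1 ≠ y'.2 + dot δ y'.1 ∧ y.2 + dot δ' y.1 ≠ y'.2 + dot δ' y'.1)
  have h1 : (fun ω : Cp k j → Finset X × ZMod p => FSurv P δ ω ∧ FSurv P δ' ω) = fun ω => ∀ b,
      (ω (P.cp b false)).2 + dot δ (ω (P.cp b false)).1 ≠
        (ω (P.cp b true)).2 + dot δ (ω (P.cp b true)).1 ∧
      (ω (P.cp b false)).2 + dot δ' (ω (P.cp b false)).1 ≠
        (ω (P.cp b true)).2 + dot δ' (ω (P.cp b true)).1 := by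
    funext ω
    exact propext forall_and.symm
  rw [h1, h0]
  have hp : (0 : ℝ) < p := by exact_mod_cast (Fact.out : p.Prime).pos
  calc _ ≤ ∏ _b : Fin k, (1 - 3 / (2 * p : ℝ)) := by
        refine Finset.prod_le_prod (fun b _ => expect_nonneg (fun y _ =>
          expect_nonneg (fun y' _ => olaInd_nonneg _))) (fun b _ => ?_)
        have h2 : ∀ y : Finset X × ZMod p,
            ((a (P.cp b true)).powerset ×ˢ (univ : Finset (ZMod p))).expect (fun y' => olaInd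
              (y.2 + dot δ y.1 ≠ y'.2 + dot δ y'.1 ∧ y.2 + dot δ' y.1 ≠ y'.2 + dot δ' y'.1)) ≤
            (a (P.cp b true)).powerset.expect (fun B => 1 - 2 / (p : ℝ) +
              1 / (p : ℝ) * olaInd (dot (δ - δ') y.1 = dot (δ - δ') B)) := by
          intro y
          rw [expect_product]
          refine expect_le_expect (fun B _ => ?_)
          have h5 := ola_ne_two (y.2 + dot δ y.1) (dot δ B) (y.2 + dot δ' y.1) (dot δ' B)
          rw [add_sub_add_left_eq_sub, ← dot_sub, ← dot_sub] at h5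
          exact h5
        refine (expect_le_expect (fun y _ => h2 y)).trans ?_
        rw [expect_comm]
        refine expect_le (powerset_nonempty _) (fun B _ => ?_)
        rw [expect_product]
        simp only [Finset.expect_const (univ_nonempty (α := ZMod p))]
        rw [expect_add_distrib, Finset.expect_const (powerset_nonempty _), ← mul_expect]
        have h3 := mul_le_mul_of_nonneg_left (ola_half _ _ (h b) (dot (δ - δ') B))
          (one_div_pos.2 hp).le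
        have h4 : 1 - 2 / (p : ℝ) + 1 / (p : ℝ) * (1 / 2) = 1 - 3 / (2 * p : ℝ) := by
          field_simp; ring
        linarith
    _ = _ := by simp

/-- `Phi` as a sum over the terms, each written with the quotient `δ t = (u t)⁻¹ • d t`. -/
theorem Phi_eq {V : Type} [AddCommGroup V] (phi : T → ZMod p → V) (Tt : Finset T)
    (u : T → ZMod p) (hu : ∀ t ∈ Tt, u t ≠ 0) (d : T → Vec p X) (ω : Cp k j → Finset X × ZMod p)
    (y : ZMod p) :
    Phi P phi Tt u d ω y = ∑ t ∈ Tt, ∑ ε : Fin k → Bool, sgn ε •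
      phi t (u t * (y + sval P (fun κ => (ω κ).2 + dot ((u t)⁻¹ • d t) (ω κ).1) ε)) := by
  unfold Phi
  rw [sum_comm]
  refine sum_congr rfl (fun ε _ => ?_)
  rw [smul_sum]
  refine sum_congr rfl (fun t ht => ?_)
  have h1 : sval P (fun κ => (ω κ).2 + dot ((u t)⁻¹ • d t) (ω κ).1) ε =
      sval P (fun κ => (ω κ).2) ε + (u t)⁻¹ * val P (d t) (fun κ => (ω κ).1) ε := by
    rw [sval_add P (fun κ => (ω κ).2) (fun κ => dot ((u t)⁻¹ • d t) (ω κ).1)]
    simp only [dot_smul]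
    rw [sval_mul P (u t)⁻¹ (fun κ => dot (d t) (ω κ).1)]
    rfl
  have h2 : u t * (y + (sval P (fun κ => (ω κ).2) ε +
      (u t)⁻¹ * val P (d t) (fun κ => (ω κ).1) ε)) =
      u t * (y + sval P (fun κ => (ω κ).2) ε) + val P (d t) (fun κ => (ω κ).1) ε := by
    have := hu t ht
    field_simp
    ring
  rw [h1, h2]

theorem Phi_subset {V : Type} [AddCommGroup V] (phi : T → ZMod p → V) {Tt Tt' : Finset T}
    (hT : Tt' ⊆ Tt) (u : T → ZMod p) (hu : ∀ t ∈ Tt, u t ≠ 0) (d : T → Vec p X)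
    (ω : Cp k j → Finset X × ZMod p)
    (h : ∀ t ∈ Tt, t ∉ Tt' → ¬ FSurv P ((u t)⁻¹ • d t) ω) (y : ZMod p) :
    Phi P phi Tt u d ω y = Phi P phi Tt' u d ω y := by
  rw [Phi_eq P phi Tt u hu, Phi_eq P phi Tt' u (fun t ht => hu t (hT ht))]
  refine (sum_subset hT (fun t ht ht' => ?_)).symm
  obtain ⟨b, hb⟩ := not_forall.1 (h t ht ht')
  exact sum_sgn_sval P (fun z => phi t (u t * z))
    (fun κ => (ω κ).2 + dot ((u t)⁻¹ • d t) (ω κ).1) (not_not.1 hb) y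

theorem pair_label (Y : Finset X) {w : X → Lab k j → ℝ} (hw : IsW w) (D : Finset X) {ρ : ℝ}
    (hρ1 : ρ ≤ 1) (δ δ' : Vec p X) (hD : D ⊆ supp (δ - δ') ∩ Y)
    (hρ : ∀ i ∈ D, ∀ b, ρ ≤ w i (some (P.ab b, false)) + w i (some (P.ab b, true))) :
    Ew w (fun l => pr (FSp p (cset P Y l)) (fun ω => FSurv P δ ω ∧ FSurv P δ' ω)) ≤
      (1 - 3 / (2 * p : ℝ)) ^ k + k * (1 - ρ) ^ D.card := by
  have h0 : (0 : ℝ) ≤ (1 - 3 / (2 * p : ℝ)) ^ k := pow_nonneg ola_base k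
  have h1 : ∀ l : X → Lab k j,
      pr (FSp p (cset P Y l)) (fun ω => FSurv P δ ω ∧ FSurv P δ' ω) ≤
        (1 - 3 / (2 * p : ℝ)) ^ k + ∑ b : Fin k, olaInd (∀ i ∈ D,
          ¬ (l i = some (P.ab b, false) ∨ l i = some (P.ab b, true))) := by
    intro l
    by_cases h : ∀ b, ¬ Disjoint (supp (δ - δ')) (cset P Y l (P.cp b false))
    · exact (pair_free P _ δ δ' h).trans
        (le_add_of_nonneg_right (sum_nonneg (fun b _ => olaInd_nonneg _)))
    · obtain ⟨b, hb⟩ := not_forall.1 h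
      have h2 : ∀ i ∈ D, ¬ (l i = some (P.ab b, false) ∨ l i = some (P.ab b, true)) := by
        intro i hi hl
        refine hb (Finset.not_disjoint_iff.2 ⟨i, (mem_inter.1 (hD hi)).1, ?_⟩)
        rw [cset, P.atm_cp, atomSet]
        exact mem_filter.2 ⟨(mem_inter.1 (hD hi)).2, hl⟩
      have h3 := Finset.single_le_sum (f := fun b : Fin k => olaInd (∀ i ∈ D,
          ¬ (l i = some (P.ab b, false) ∨ l i = some (P.ab b, true))))
        (fun b _ => olaInd_nonneg _) (mem_univ b)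
      rw [olaInd_pos h2] at h3
      linarith [pr_le_one (FSp p (cset P Y l)) (fun ω => FSurv P δ ω ∧ FSurv P δ' ω)]
  refine (Ew_mono hw (fun l _ => h1 l)).trans ?_
  rw [Ew_add, Ew_const hw, Ew_sum]
  refine add_le_add le_rfl ?_
  calc _ ≤ ∑ _b : Fin k, (1 - ρ) ^ D.card := by
        refine sum_le_sum (fun b _ => ?_)
        have h4 := Pw_all hw D
          (fun a => ¬ (a = some (P.ab b, false) ∨ a = some (P.ab b, true)))
        refine (le_of_eq h4).trans ?_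
        rw [← prod_const]
        refine Finset.prod_le_prod (fun i _ => sum_nonneg (fun a _ => hw.1 i a)) (fun i hi => ?_)
        have hne : (some (P.ab b, false) : Lab k j) ≠ some (P.ab b, true) := by simp
        have h5 := Finset.sum_sdiff (f := w i)
          (subset_univ ({some (P.ab b, false), some (P.ab b, true)} : Finset (Lab k j)))
        rw [sum_pair hne, hw.2 i] at h5
        have h6 := hρ i hi b
        refine (le_of_eq (sum_congr (s₂ := univ \ {some (P.ab b, false), some (P.ab b, true)})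
          ?_ (fun _ _ => rfl))).trans (by linarith)
        ext a
        simp
    _ = _ := by simp

variable [Fintype T]

theorem ola_cluster (σ : Ext p X T) {t0 t1 : T} (h0 : 9 * σ.CH + σ.r ≤ wtm σ.U (σ.lam t0))
    (h1 : t1 ∈ σ.LCl t0) :
    σ.Heavy t1 ∧ σ.LCl t1 = (σ.Mid t0).filter (fun t => wt (σ.de t0 t - σ.de t0 t1) ≤ σ.r) ∧
      ∀ t ∈ σ.LCl t1, σ.uu t0 t = σ.uu t1 t * σ.uu t0 t1 ∧
        σ.dd t0 t = σ.dd t1 t + σ.uu t1 t • σ.dd t0 t1 := by
  obtain ⟨hm, hw1⟩ := mem_filter.1 h1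
  obtain ⟨hu1, hU1, hY1, -, -⟩ := σ.rep t0 t1 hm
  have hr := σ.hr
  have hH0 : σ.Heavy t0 := le_trans (Nat.le_add_right _ _) h0
  have hH1 : σ.Heavy t1 := by
    have e1 : wtm σ.U (σ.uu t0 t1 • σ.lam t0) = wtm σ.U (σ.lam t1 + -σ.dd t0 t1) := by
      refine wtm_congr ?_
      have := σ.U.neg_mem hU1
      have e : σ.uu t0 t1 • σ.lam t0 - (σ.lam t1 + -σ.dd t0 t1) =
          -(σ.lam t1 - σ.uu t0 t1 • σ.lam t0 - σ.dd t0 t1) := by abel
      rw [e]; exact this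
    have e2 := wtm_add_le σ.U (σ.lam t1) (-σ.dd t0 t1)
    have e3 : wtm σ.U (-σ.dd t0 t1) ≤ wt (-σ.dd t0 t1) := wtm_le (by simp)
    rw [wt_neg] at e3
    rw [wtm_smul _ hu1] at e1
    unfold Ext.Heavy
    omega
  have hA : ∀ t ∈ σ.LCl t1, t ∈ σ.Mid t0 ∧ σ.uu t0 t = σ.uu t1 t * σ.uu t0 t1 ∧
      σ.dd t0 t = σ.dd t1 t + σ.uu t1 t • σ.dd t0 t1 := by
    intro t ht
    obtain ⟨hm', hw'⟩ := mem_filter.1 ht
    obtain ⟨hu, hU, hY, -, -⟩ := σ.rep t1 t hm'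
    refine σ.rep_unique hH0 (mul_ne_zero hu hu1) ?_ ?_ ?_
    · have e : σ.lam t - (σ.uu t1 t * σ.uu t0 t1) • σ.lam t0 -
          (σ.dd t1 t + σ.uu t1 t • σ.dd t0 t1) = (σ.lam t - σ.uu t1 t • σ.lam t1 - σ.dd t1 t) +
          σ.uu t1 t • (σ.lam t1 - σ.uu t0 t1 • σ.lam t0 - σ.dd t0 t1) := by
        module
      rw [e]; exact σ.U.add_mem hU (σ.U.smul_mem _ hU1)
    · exact mem_co_iff.1 ((co σ.Y).add_mem (mem_co_iff.2 hY)
        ((co σ.Y).smul_mem _ (mem_co_iff.2 hY1)))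
    · have e := wt_add_le (σ.dd t1 t) (σ.uu t1 t • σ.dd t0 t1)
      rw [wt_smul hu] at e
      omega
  refine ⟨hH1, ?_, fun t ht => (hA t ht).2⟩
  ext t
  constructor
  · intro ht
    obtain ⟨a1, a2, a3⟩ := hA t ht
    obtain ⟨hm', hw'⟩ := mem_filter.1 ht
    have hu := (σ.rep t1 t hm').1
    refine mem_filter.2 ⟨a1, ?_⟩
    have e : σ.de t0 t - σ.de t0 t1 = (σ.uu t1 t * σ.uu t0 t1)⁻¹ • σ.dd t1 t := by
      unfold Ext.de
      rw [a2, a3, smul_add, smul_smul]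
      have : (σ.uu t1 t * σ.uu t0 t1)⁻¹ * σ.uu t1 t = (σ.uu t0 t1)⁻¹ := by field_simp
      rw [this, add_sub_cancel_right]
    rw [e, wt_smul (inv_ne_zero (mul_ne_zero hu hu1))]
    exact hw'
  · intro ht
    obtain ⟨hm', hw'⟩ := mem_filter.1 ht
    obtain ⟨hu, hU, hY, -, -⟩ := σ.rep t0 t hm'
    have e : σ.uu t0 t • (σ.de t0 t - σ.de t0 t1) =
        σ.dd t0 t - (σ.uu t0 t * (σ.uu t0 t1)⁻¹) • σ.dd t0 t1 := by
      unfold Ext.de
      rw [smul_sub, smul_smul, smul_smul, mul_inv_cancel₀ hu, one_smul]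
    have hw2 : wt (σ.dd t0 t - (σ.uu t0 t * (σ.uu t0 t1)⁻¹) • σ.dd t0 t1) ≤ σ.r := by
      rw [← e, wt_smul hu]; exact hw'
    have hco : σ.dd t0 t - (σ.uu t0 t * (σ.uu t0 t1)⁻¹) • σ.dd t0 t1 ∈ (co σ.Y : Sub p X) :=
      Submodule.sub_mem _ (mem_co_iff.2 hY) (Submodule.smul_mem _ _ (mem_co_iff.2 hY1))
    obtain ⟨a1, -, a3⟩ := σ.rep_unique (e := t1) (t := t) hH1
      (u := σ.uu t0 t * (σ.uu t0 t1)⁻¹) (mul_ne_zero hu (inv_ne_zero hu1))
      (d := σ.dd t0 t - (σ.uu t0 t * (σ.uu t0 t1)⁻¹) • σ.dd t0 t1) (by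
        have e2 : σ.lam t - (σ.uu t0 t * (σ.uu t0 t1)⁻¹) • σ.lam t1 -
            (σ.dd t0 t - (σ.uu t0 t * (σ.uu t0 t1)⁻¹) • σ.dd t0 t1) =
            (σ.lam t - σ.uu t0 t • σ.lam t0 - σ.dd t0 t) - (σ.uu t0 t * (σ.uu t0 t1)⁻¹) •
              (σ.lam t1 - σ.uu t0 t1 • σ.lam t0 - σ.dd t0 t1) := by
          rw [smul_sub, smul_sub, smul_smul, inv_mul_cancel_right₀ hu1]
          abel
        rw [e2]; exact σ.U.sub_mem hU (σ.U.smul_mem _ hU1))
      (mem_co_iff.1 hco) (by omega)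
    exact mem_filter.2 ⟨a1, by rw [a3]; exact hw2⟩

/-- moving the centre of a cluster. -/
theorem Ext.recentre (σ : Ext p X T) {V : Type} [AddCommGroup V] (phi : T → ZMod p → V)
    {t0 t1 : T} (h0 : 9 * σ.CH + σ.r ≤ wtm σ.U (σ.lam t0)) (h1 : t1 ∈ σ.LCl t0)
    (l : X → Lab k j) :
    σ.Heavy t1 ∧ σ.pfe P phi t1 l = pr (FSp p (cset P σ.Y l)) (fun ω => FSurv P (σ.de t0 t1) ω ∧
      ∃ y, Phi P phi ((σ.Mid t0).filter (fun t => wt (σ.de t0 t - σ.de t0 t1) ≤ σ.r))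
        (σ.uu t0) (σ.dd t0) ω y ≠ 0) := by
  obtain ⟨hH, hL, hA⟩ := ola_cluster σ h0 h1
  have hu1 : σ.uu t0 t1 ≠ 0 := (σ.rep t0 t1 (mem_filter.1 h1).1).1
  refine ⟨hH, ?_⟩
  rw [← hL]
  unfold Ext.pfe pf
  rw [ola_pr, ola_pr]
  symm
  refine expect_nbij'
    (fun ω κ => ((ω κ).1, σ.uu t0 t1 * (ω κ).2 + dot (σ.dd t0 t1) (ω κ).1))
    (fun ω κ => ((ω κ).1, (σ.uu t0 t1)⁻¹ * ((ω κ).2 - dot (σ.dd t0 t1) (ω κ).1)))
    (fun ω hω => Fintype.mem_piFinset.2 (fun κ => mem_product.2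
      ⟨(mem_product.1 (Fintype.mem_piFinset.1 hω κ)).1, mem_univ _⟩))
    (fun ω hω => Fintype.mem_piFinset.2 (fun κ => mem_product.2
      ⟨(mem_product.1 (Fintype.mem_piFinset.1 hω κ)).1, mem_univ _⟩))
    (fun ω _ => funext (fun κ => Prod.ext rfl (by
      simp only [add_sub_cancel_right]; exact inv_mul_cancel_left₀ hu1 _)))
    (fun ω _ => funext (fun κ => Prod.ext rfl (by
      simp only [mul_inv_cancel_left₀ hu1, sub_add_cancel])))
    (fun ω _ => congrArg olaInd (propext (and_congr ?_ ?_)))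
  · refine forall_congr' (fun b => not_congr ?_)
    have e : ∀ z : Finset X × ZMod p, σ.uu t0 t1 * z.2 + dot (σ.dd t0 t1) z.1 =
        σ.uu t0 t1 * (z.2 + dot (σ.de t0 t1) z.1) := by
      intro z
      unfold Ext.de
      rw [dot_smul, mul_add, mul_inv_cancel_left₀ hu1]
    simp only [e]
    exact (mul_right_inj' hu1).symm
  · have e : ∀ y, Phi P phi (σ.LCl t1) (σ.uu t1) (σ.dd t1)
        (fun κ => ((ω κ).1, σ.uu t0 t1 * (ω κ).2 + dot (σ.dd t0 t1) (ω κ).1)) (σ.uu t0 t1 * y) =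
        Phi P phi (σ.LCl t1) (σ.uu t0) (σ.dd t0) ω y := by
      intro y
      unfold Phi
      refine sum_congr rfl (fun ε _ => congrArg _ (sum_congr rfl (fun t ht => congrArg _ ?_)))
      obtain ⟨a2, a3⟩ := hA t ht
      rw [a2, a3]
      unfold val
      simp only [dot_add, dot_smul]
      rw [sval_add P (fun κ => σ.uu t0 t1 * (ω κ).2) (fun κ => dot (σ.dd t0 t1) (ω κ).1),
        sval_mul P (σ.uu t0 t1) (fun κ => (ω κ).2),
        sval_add P (fun κ => dot (σ.dd t1 t) (ω κ).1)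
          (fun κ => σ.uu t1 t * dot (σ.dd t0 t1) (ω κ).1),
        sval_mul P (σ.uu t1 t) (fun κ => dot (σ.dd t0 t1) (ω κ).1)]
      ring
    constructor
    · rintro ⟨y, hy⟩
      exact ⟨σ.uu t0 t1 * y, by rw [e]; exact hy⟩
    · rintro ⟨y, hy⟩
      refine ⟨(σ.uu t0 t1)⁻¹ * y, ?_⟩
      rw [← e, mul_inv_cancel_left₀ hu1]
      exact hy

end Pool.Agent.P.MP_85fe51_lc.OD
end

-- part Pool.Agent.P.MP_85fe51_lc.OLink0
section

set_option autoImplicit false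
set_option linter.unusedSectionVars false

namespace Pool.Agent.P.MP_85fe51_lc.OD

open Finset
open scoped Classical

variable {p : ℕ} [Fact p.Prime] {X : Type} [Fintype X] [DecidableEq X] {T : Type} [Fintype T]
  {k j : ℕ} {V : Type} [AddCommGroup V]

theorem olink_sv_update (P : Pat k j) (δ : Vec p X) (ω : Cp k j → Finset X × ZMod p)
    (B : Finset X) (s0 : ZMod p) (ε : Fin k → Bool) :
    sval P (fun κ => (Function.update ω (Sum.inl P.a0) (B, s0) κ).2 +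
      dot δ (Function.update ω (Sum.inl P.a0) (B, s0) κ).1) ε =
    s0 + dot δ B +
      sval P (Function.update (fun κ => (ω κ).2 + dot δ (ω κ).1) (Sum.inl P.a0) 0) ε := by
  rw [← sval_update_a0]
  congr 1
  funext κ
  by_cases h : κ = Sum.inl P.a0
  · subst h
    simp
  · simp [Function.update_of_ne h]

theorem olink_fsurv_update (P : Pat k j) (δ : Vec p X) (ω : Cp k j → Finset X × ZMod p)
    (y : Finset X × ZMod p) :
    FSurv P δ (Function.update ω (Sum.inl P.a0) y) ↔ FSurv P δ ω := by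
  unfold FSurv
  refine forall_congr' (fun b => ?_)
  rw [Function.update_of_ne (P.cp_ne_inl b false P.a0_mem_Sg),
    Function.update_of_ne (P.cp_ne_inl b true P.a0_mem_Sg)]

theorem olink_single_le {Ω : Type} (s : Finset Ω) (g : Ω → ℝ) (hg : ∀ x ∈ s, 0 ≤ g x) {x0 : Ω}
    (hx : x0 ∈ s) : g x0 / s.card ≤ s.expect g := by
  rw [Finset.expect_eq_sum_div_card]
  exact div_le_div_of_nonneg_right (Finset.single_le_sum hg hx) (Nat.cast_nonneg _)

theorem olink_pr_update {Ω κ : Type} [Fintype κ] [DecidableEq κ] (K : κ → Finset Ω) (i : κ)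
    (S E : (κ → Ω) → Prop) {c : ℝ}
    (h : ∀ ω ∈ Fintype.piFinset K, S ω → c ≤ pr (K i) (fun y => E (Function.update ω i y))) :
    pr (Fintype.piFinset K) S * c ≤ pr (Fintype.piFinset K) E := by
  have h1 : pr (Fintype.piFinset K) E = (Fintype.piFinset K).expect
      (fun ω => pr (K i) (fun y => E (Function.update ω i y))) := expect_update K i _
  rw [h1]
  unfold pr at h ⊢
  rw [Finset.expect_mul]
  refine Finset.expect_le_expect (fun ω hω => ?_)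
  by_cases hs : S ω
  · rw [if_pos hs, one_mul]
    exact h ω hω hs
  · rw [if_neg hs, zero_mul]
    exact pr_nonneg (K i) (fun y => E (Function.update ω i y))

theorem olink_pr_prod {Ω Ω' : Type} (A : Finset Ω) (B : Finset Ω') (hB : B.Nonempty)
    (E : Ω × Ω' → Prop) {c : ℝ} (h : ∀ b ∈ B, c ≤ pr A (fun a => E (a, b))) :
    c ≤ pr (A ×ˢ B) E := by
  unfold pr at h ⊢
  rw [Finset.expect_product, Finset.expect_comm]
  exact Finset.le_expect hB h

theorem olink_pr_union {a b : Finset X} (hab : Disjoint a b) (E : Finset X → Prop) {c : ℝ}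
    (h : ∀ R, R ⊆ a → c ≤ pr b.powerset (fun B => E (R ∪ B))) :
    c ≤ pr (a ∪ b).powerset E := by
  have h1 : pr (a ∪ b).powerset E = a.powerset.expect
      (fun R => pr b.powerset (fun B => E (R ∪ B))) := expect_powerset_union hab _
  rw [h1]
  exact Finset.le_expect (powerset_nonempty _) (fun R hR => h R (mem_powerset.1 hR))

theorem olink_pr_single {a b : Finset X} (hab : Disjoint a b) (E : Finset X → Prop) {c : ℝ}
    {R : Finset X} (hR : R ⊆ a) (h : c ≤ pr b.powerset (fun B => E (R ∪ B))) :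
    (1 / 2) ^ a.card * c ≤ pr (a ∪ b).powerset E := by
  have h1 : pr (a ∪ b).powerset E = a.powerset.expect
      (fun R => pr b.powerset (fun B => E (R ∪ B))) := expect_powerset_union hab _
  rw [h1]
  refine le_trans ?_ (olink_single_le _ _ (fun β _ => pr_nonneg _ _) (mem_powerset.2 hR))
  rw [card_powerset, one_div_pow, mul_comm, mul_one_div]
  push_cast
  exact div_le_div_of_nonneg_right h (by positivity)

theorem olink_SZ_sum {Λ : Type} (L : Finset Λ) (n : Λ → ℤ) (f : Λ → ZMod p → V)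
    (hf : ∀ l ∈ L, SZ (f l)) : SZ (fun y => ∑ l ∈ L, n l • f l y) := by
  unfold SZ
  rw [Finset.sum_comm]
  refine Finset.sum_eq_zero (fun l hl => ?_)
  rw [← Finset.smul_sum, hf l hl, smul_zero]

theorem olink_use_subset (P : Pat k j) (Y : Finset X) (l : X → Lab k j) {J : Finset X}
    (hJ : J ⊆ atomSet Y l P.a0) (x : Cp k j → Finset X) (hx : ∀ κ, x κ ⊆ cset P Y l κ)
    (h0 : Disjoint (x (Sum.inl P.a0)) J) (ε : Fin k → Bool) : useSet P x ε ⊆ Y \ J := by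
  intro i hi
  unfold useSet at hi
  rw [mem_union, mem_biUnion, mem_biUnion] at hi
  rw [mem_sdiff]
  rcases hi with ⟨a, _, hi⟩ | ⟨b, _, hi⟩
  · have h1 : i ∈ atomSet Y l a := hx (Sum.inl a) hi
    refine ⟨atomSet_subset Y l a h1, fun hJi => ?_⟩
    by_cases ha : a = P.a0
    · subst ha
      exact disjoint_left.1 h0 hi hJi
    · exact disjoint_left.1 (atomSet_disjoint Y l ha) h1 (hJ hJi)
  · have h1 : i ∈ atomSet Y l (P.ab b) := by
      have := hx _ hi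
      unfold cset at this
      rwa [P.atm_cp] at this
    exact ⟨atomSet_subset Y l _ h1, fun hJi =>
      disjoint_left.1 (atomSet_disjoint Y l (P.a0_ne_ab b)) (hJ hJi) h1⟩

namespace Ext
variable (σ : Ext p X T) (P : Pat k j) (phi : T → ZMod p → V)

theorem olink_supp_de {t0 t : T} (ht : t ∈ σ.Mid t0) : supp (σ.de t0 t) ⊆ σ.Y := by
  intro i hi
  refine (σ.rep t0 t ht).2.2.1 ?_
  rw [mem_supp] at hi ⊢
  intro h
  apply hi
  unfold de
  rw [Pi.smul_apply, h, smul_zero]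

theorem olink_mul_dot {t0 t : T} (ht : t ∈ σ.Mid t0) (A : Finset X) :
    σ.uu t0 t * dot (σ.de t0 t) A = dot (σ.dd t0 t) A := by
  unfold de
  rw [dot_smul, ← mul_assoc, mul_inv_cancel₀ (σ.rep t0 t ht).1, one_mul]

/-- the last step: a nonzero certificate value makes `Phi` nonzero on many subsets of `Tp`. -/
theorem olink_last (hphi : ∀ t, SZ (phi t)) (hN : NoP p V) (Tp : Finset X) {t0 : T}
    (h0 : σ.Heavy t0) {E1 : ℕ} (hE : 2 * ((p : ℝ) - 1) ^ E1 ≤ (p : ℝ) ^ E1)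
    {Λ : Type} [Fintype Λ] (n : Λ → ℤ) (s : Λ → ZMod p) (z : Λ → Finset X)
    (hz : ∀ l, z l ⊆ Tp ∩ σ.Y) (W : T → ZMod p → V)
    (hW : ∀ t y, W t y = ∑ l, n l • phi t (σ.uu t0 t * (y + s l) + dot (σ.dd t0 t) (z l)))
    (hW0 : ∀ t ∈ σ.Mid t0, t ∉ σ.LCl t0 → ∀ y, W t y = 0)
    (ω : Cp k j → Finset X × ZMod p) (B : Finset X) (s0 : ZMod p) (hB : Disjoint B (Tp ∩ σ.Y))
    (base : T → (Fin k → Bool) → ZMod p)
    (hbase : ∀ t ε, base t ε = sval P (Function.update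
      (fun κ => (ω κ).2 + dot (σ.de t0 t) (ω κ).1) (Sum.inl P.a0) 0) ε)
    {y0 : ZMod p} (hy : ∑ ε : Fin k → Bool, sgn ε • ∑ t ∈ σ.LCl t0,
      W t (y0 + (s0 + dot (σ.de t0 t) B + base t ε)) ≠ 0) :
    1 / (σ.M4 : ℝ) ^ E1 ≤ pr (Tp ∩ σ.Y).powerset (fun Z =>
      (∃ t ∈ σ.LCl t0, FSurv P (σ.de t0 t) (Function.update ω (Sum.inl P.a0) (B ∪ Z, s0))) ∧
        ∃ y, Phi P phi (σ.Mid t0) (σ.uu t0) (σ.dd t0)
          (Function.update ω (Sum.inl P.a0) (B ∪ Z, s0)) y ≠ 0) := by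
  have hu : ∀ t ∈ σ.Mid t0, σ.uu t0 t ≠ 0 := fun t ht => (σ.rep t0 t ht).1
  have hsurv : ∃ t ∈ σ.LCl t0, FSurv P (σ.de t0 t) ω := by
    by_contra hcon
    apply hy
    simp only [Finset.smul_sum]
    rw [Finset.sum_comm]
    refine Finset.sum_eq_zero (fun t ht => ?_)
    have h1 : ¬ FSurv P (σ.de t0 t) ω := fun h => hcon ⟨t, ht, h⟩
    unfold FSurv at h1
    rw [not_forall] at h1
    obtain ⟨b, hb⟩ := h1
    rw [not_not] at hb
    have h2 := sum_sgn_sval P (W t) (Function.update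
      (fun κ => (ω κ).2 + dot (σ.de t0 t) (ω κ).1) (Sum.inl P.a0) 0) (b := b) (by
        rw [Function.update_of_ne (P.cp_ne_inl b false P.a0_mem_Sg),
          Function.update_of_ne (P.cp_ne_inl b true P.a0_mem_Sg)]
        exact hb) (y0 + (s0 + dot (σ.de t0 t) B))
    rw [← h2]
    refine Finset.sum_congr rfl (fun ε _ => ?_)
    rw [hbase, add_assoc y0]
  let w' : T → ZMod p → V := fun t y => ∑ ε : Fin k → Bool, sgn ε •
    phi t (σ.uu t0 t * (y + (s0 + dot (σ.de t0 t) B + base t ε)))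
  have hw' : ∀ t ∈ σ.Mid t0, SZ (w' t) := by
    intro t ht
    refine olink_SZ_sum univ sgn (fun ε y =>
      phi t (σ.uu t0 t * (y + (s0 + dot (σ.de t0 t) B + base t ε)))) (fun ε _ => ?_)
    have := (hphi t).shift (hu t ht) (σ.uu t0 t * (s0 + dot (σ.de t0 t) B + base t ε))
    simpa only [mul_add] using this
  have hex : ∃ A, A ⊆ Tp ∩ σ.Y ∧ ∃ y, ∑ t ∈ σ.Mid t0, w' t (y + dot (σ.de t0 t) A) ≠ 0 := by
    by_contra hcon
    apply hy
    have h1 : ∀ l, ∑ t ∈ σ.Mid t0, w' t (y0 + s l + dot (σ.de t0 t) (z l)) = 0 := by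
      intro l
      by_contra h
      exact hcon ⟨z l, hz l, y0 + s l, h⟩
    have h2 : ∑ l, n l • ∑ t ∈ σ.Mid t0, w' t (y0 + s l + dot (σ.de t0 t) (z l)) = 0 :=
      Finset.sum_eq_zero (fun l _ => by rw [h1 l, smul_zero])
    have h3 : ∀ t ∈ σ.Mid t0, ∑ l, n l • w' t (y0 + s l + dot (σ.de t0 t) (z l)) =
        ∑ ε : Fin k → Bool, sgn ε • W t (y0 + (s0 + dot (σ.de t0 t) B + base t ε)) := by
      intro t ht
      simp only [w', hW, Finset.smul_sum]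
      rw [Finset.sum_comm]
      refine Finset.sum_congr rfl (fun ε _ => Finset.sum_congr rfl (fun l _ => ?_))
      rw [smul_comm, ← σ.olink_mul_dot ht]
      congr 3
      ring
    simp only [Finset.smul_sum] at h2 ⊢
    rw [Finset.sum_comm] at h2 ⊢
    rw [← h2, Finset.sum_congr rfl h3]
    refine Finset.sum_subset (σ.LCl_subset t0) (fun t ht ht' => ?_)
    exact Finset.sum_eq_zero (fun ε _ => by rw [hW0 t ht ht', smul_zero])
  refine (uncert hN (Tp ∩ σ.Y) (σ.Mid t0) w' hw' (σ.de t0) hex (σ.mid t0 h0) hE).trans ?_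
  refine pr_mono _ (fun Z hZ hy' => ?_)
  rw [mem_powerset] at hZ
  obtain ⟨t, ht, hs⟩ := hsurv
  refine ⟨⟨t, ht, (olink_fsurv_update P _ ω _).2 hs⟩, ?_⟩
  obtain ⟨y, hy'⟩ := hy'
  refine ⟨y, ?_⟩
  rw [Phi_eq P phi _ _ hu]
  refine fun h => hy' ?_
  rw [← h]
  refine Finset.sum_congr rfl (fun t _ => Finset.sum_congr rfl (fun ε _ => ?_))
  have h4 := olink_sv_update P (σ.de t0 t) ω (B ∪ Z) s0 ε
  unfold de at h4
  rw [h4, dot_union _ (hB.mono_right hZ), hbase]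
  unfold de
  congr 3
  ring

end Ext

end Pool.Agent.P.MP_85fe51_lc.OD
end

-- part Pool.Agent.P.MP_85fe51_lc.OLink
section

set_option autoImplicit false

namespace Pool.Agent.P.MP_85fe51_lc.OD

open Finset
open scoped Classical

variable {p : ℕ} [Fact p.Prime] {X : Type} [Fintype X] [DecidableEq X] {T : Type} [Fintype T]
  {k j : ℕ} {V : Type} [AddCommGroup V]

namespace Ext
variable (σ : Ext p X T) (P : Pat k j) (phi : T → ZMod p → V)

/-- the certificate for fixed labels. -/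
theorem link_fix (hphi : ∀ t, SZ (phi t)) (hN : NoP p V) (Tp : Finset X) {t0 : T}
    (h0 : σ.Heavy t0) (hc : σ.Cert phi Tp t0) {E1 : ℕ}
    (hE : 2 * ((p : ℝ) - 1) ^ E1 ≤ (p : ℝ) ^ E1) :
    ∃ I : Finset X, I ⊆ σ.Y \ Tp ∧ p ^ I.card ≤ (p - 1) ^ I.card * σ.M4 ∧
      ∀ l : X → Lab k j, (∀ i ∈ Tp, l i = some (P.a0, false)) →
        (∀ i ∈ I, l i = some (P.a0, false)) →
        piK p k * (1 / 2) ^ I.card / (σ.M4 : ℝ) ^ E1 ≤ pr (FSp p (cset P σ.Y l)) (fun ω =>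
          (∃ t ∈ σ.LCl t0, FSurv P (σ.de t0 t) ω) ∧
            ∃ y, Phi P phi (σ.Mid t0) (σ.uu t0) (σ.dd t0) ω y ≠ 0) := by
  obtain ⟨Λ, _, n, s, z, hz, ⟨y1, hy1⟩, hk⟩ := hc
  have hu : ∀ t ∈ σ.Mid t0, σ.uu t0 t ≠ 0 := fun t ht => (σ.rep t0 t ht).1
  let W : T → ZMod p → V := fun t y =>
    ∑ l, n l • phi t (σ.uu t0 t * (y + s l) + dot (σ.dd t0 t) (z l))
  have hWs : ∀ t ∈ σ.LCl t0, SZ (W t) := by
    intro t ht
    refine olink_SZ_sum univ n (fun l y =>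
      phi t (σ.uu t0 t * (y + s l) + dot (σ.dd t0 t) (z l))) (fun l _ => ?_)
    have := (hphi t).shift (hu t (σ.LCl_subset t0 ht))
      (σ.uu t0 t * s l + dot (σ.dd t0 t) (z l))
    simpa only [mul_add, add_assoc] using this
  obtain ⟨I, μ, w0, hI, hw0, hw0', hcard, hst⟩ := struct_lemma hN (σ.Y \ Tp) (σ.LCl t0) W hWs
    (σ.de t0) ⟨∅, empty_subset _, y1, by
      simp only [dot_empty, add_zero, W]
      rw [Finset.sum_comm]
      simpa only [Finset.smul_sum] using hy1⟩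
  have hL : (σ.LCl t0).card ≤ σ.M4 := (card_le_card (σ.LCl_subset t0)).trans (σ.mid t0 h0)
  refine ⟨I, hI, hcard.trans (Nat.mul_le_mul_left _ hL), fun l hl1 hl2 => ?_⟩
  have hIT : Disjoint I (Tp ∩ σ.Y) := disjoint_left.2 (fun i hi hi' =>
    (mem_sdiff.1 (hI hi)).2 (mem_inter.1 hi').1)
  have hJ : I ∪ Tp ∩ σ.Y ⊆ atomSet σ.Y l P.a0 := by
    intro i hi
    unfold atomSet
    rw [mem_filter]
    rcases mem_union.1 hi with h | h
    · exact ⟨(mem_sdiff.1 (hI h)).1, Or.inl (hl2 i h)⟩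
    · exact ⟨(mem_inter.1 h).2, Or.inl (hl1 i (mem_inter.1 h).1)⟩
  rw [mul_div_assoc, ← fsurv_eq P (cset P σ.Y l) μ]
  unfold FSp
  refine olink_pr_update _ (Sum.inl P.a0) _ _ (fun ω hω hs => ?_)
  refine olink_pr_prod _ _ univ_nonempty _ (fun s0 _ => ?_)
  have hset : cset P σ.Y l (Sum.inl P.a0) =
      (atomSet σ.Y l P.a0 \ (I ∪ Tp ∩ σ.Y)) ∪ (I ∪ Tp ∩ σ.Y) := (sdiff_union_of_subset hJ).symm
  rw [hset]
  refine olink_pr_union sdiff_disjoint _ (fun R hR => ?_)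
  have hRJ : Disjoint R (I ∪ Tp ∩ σ.Y) := sdiff_disjoint.mono_left hR
  have hx : ∀ κ, (Function.update ω (Sum.inl P.a0) (R, s0) κ).1 ⊆ cset P σ.Y l κ := by
    intro κ
    by_cases h : κ = Sum.inl P.a0
    · subst h
      rw [Function.update_self]
      exact hR.trans sdiff_subset
    · rw [Function.update_of_ne h]
      exact mem_powerset.1 (mem_product.1 (Fintype.mem_piFinset.1 hω κ)).1
  have hA : ∀ ε, useSet P (fun κ => (Function.update ω (Sum.inl P.a0) (R, s0) κ).1) ε ⊆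
      (σ.Y \ Tp) \ I := by
    intro ε i hi
    have h1 := olink_use_subset P σ.Y l hJ _ hx (by rw [Function.update_self]; exact hRJ) ε hi
    simp only [mem_sdiff, mem_union, mem_inter, not_or, not_and] at h1 ⊢
    exact ⟨⟨h1.1, fun h => h1.2.2 h h1.1⟩, h1.2.1⟩
  have hsv : ∀ (δ : Vec p X) ε,
      sval P (fun κ => (Function.update ω (Sum.inl P.a0) (R, s0) κ).2) ε +
        dot δ (useSet P (fun κ => (Function.update ω (Sum.inl P.a0) (R, s0) κ).1) ε) =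
      sval P (fun κ => (Function.update ω (Sum.inl P.a0) (R, s0) κ).2 +
        dot δ (Function.update ω (Sum.inl P.a0) (R, s0) κ).1) ε := by
    intro δ ε
    rw [sval_add, ← val_eq_dot P σ.Y l δ hx]
    rfl
  have hβ : ∃ β, β ⊆ I ∧ ∃ y, ∑ ε : Fin k → Bool, sgn ε • ∑ t ∈ σ.LCl t0,
      W t (y + sval P (fun κ => (Function.update ω (Sum.inl P.a0) (R, s0) κ).2) ε +
        dot (σ.de t0 t)
          (useSet P (fun κ => (Function.update ω (Sum.inl P.a0) (R, s0) κ).1) ε ∪ β)) ≠ 0 := by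
    by_contra hcon
    have h1 := hst (Fin k → Bool) sgn
      (fun ε => sval P (fun κ => (Function.update ω (Sum.inl P.a0) (R, s0) κ).2) ε) _ hA
      (fun β hβ y => by
        by_contra h
        exact hcon ⟨β, hβ, y, h⟩)
    obtain ⟨y, hy⟩ := sum_sgn_sval_ne P hN hw0 hw0'
      (fun κ => (Function.update ω (Sum.inl P.a0) (R, s0) κ).2 +
        dot μ (Function.update ω (Sum.inl P.a0) (R, s0) κ).1)
      ((olink_fsurv_update P μ ω (R, s0)).2 hs)
    apply hy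
    rw [← h1 y]
    refine Finset.sum_congr rfl (fun ε _ => ?_)
    rw [add_assoc, hsv]
  obtain ⟨β, hβ, y0, hy0⟩ := hβ
  have hRβ : Disjoint R β := hRJ.mono_right (hβ.trans subset_union_left)
  have hlast := σ.olink_last P phi hphi hN Tp h0 hE n s z hz W (fun _ _ => rfl) hk ω (R ∪ β) s0
    (disjoint_union_left.2 ⟨hRJ.mono_right subset_union_right, hIT.mono_left hβ⟩)
    _ (fun _ _ => rfl) (y0 := y0) (by
      refine fun h => hy0 ?_
      rw [← h]
      refine Finset.sum_congr rfl (fun ε _ => ?_)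
      congr 1
      refine Finset.sum_congr rfl (fun t _ => ?_)
      have hd : Disjoint
          (useSet P (fun κ => (Function.update ω (Sum.inl P.a0) (R, s0) κ).1) ε) β :=
        disjoint_left.2 (fun i hi hi' => (mem_sdiff.1 (hA ε hi)).2 (hβ hi'))
      rw [dot_union _ hd, ← add_assoc, add_assoc y0, hsv, olink_sv_update, dot_union _ hRβ]
      congr 1
      ring)
  rw [div_eq_mul_one_div]
  refine olink_pr_single hIT _ hβ ?_
  simpa only [union_assoc] using hlast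

theorem link (hphi : ∀ t, SZ (phi t)) (hN : NoP p V) (Tp : Finset X) {w : X → Lab k j → ℝ}
    (hw : IsW w) (hw1 : ∀ i ∈ Tp, ∀ a, w i a ≠ 0 → a = some (P.a0, false)) {α ρ : ℝ}
    (hα0 : 0 < α) (hα1 : α ≤ 1) (hρ1 : ρ ≤ 1) (hw0 : ∀ i, i ∉ Tp → α ≤ w i (some (P.a0, false)))
    (hwρ : ∀ i, i ∉ Tp → ∀ b, ρ ≤ w i (some (P.ab b, false)) + w i (some (P.ab b, true)))
    {E1 : ℕ} (hE : 2 / α * ((p : ℝ) - 1) ^ E1 ≤ (p : ℝ) ^ E1) {t0 : T}
    (h0 : 9 * σ.CH + σ.r ≤ wtm σ.U (σ.lam t0))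
    (hfar : ∀ t ∈ σ.Mid t0, ∀ t' ∈ σ.Mid t0, σ.r < wt (σ.de t0 t - σ.de t0 t') →
      σ.r ≤ 2 * (supp (σ.de t0 t - σ.de t0 t') \ Tp).card)
    (hc : σ.Cert phi Tp t0) :
    ∃ t1 ∈ σ.LCl t0, σ.Heavy t1 ∧ piK p k / (σ.M4 : ℝ) ^ (2 * E1 + 1) -
      σ.M4 * ((1 - 3 / (2 * p : ℝ)) ^ k + k * (1 - ρ) ^ (σ.r / 2)) ≤ Ew w (σ.pfe P phi t1) := by
  have hH : σ.Heavy t0 := le_trans (Nat.le_add_right _ _) h0
  have hu : ∀ t ∈ σ.Mid t0, σ.uu t0 t ≠ 0 := fun t ht => (σ.rep t0 t ht).1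
  have hp2 : (2 : ℝ) ≤ p := by exact_mod_cast (Fact.out : p.Prime).two_le
  have h2α : (2 : ℝ) ≤ 2 / α := by
    rw [le_div_iff₀ hα0]
    linarith
  have hE' : 2 * ((p : ℝ) - 1) ^ E1 ≤ (p : ℝ) ^ E1 :=
    le_trans (mul_le_mul_of_nonneg_right h2α (pow_nonneg (by linarith) _)) hE
  obtain ⟨I, hI, hcard, hfix⟩ := σ.link_fix P phi hphi hN Tp hH hc hE'
  have hM : (σ.Mid t0).card ≤ σ.M4 := σ.mid t0 hH
  have hM1 : (1 : ℝ) ≤ σ.M4 := by
    have : 1 ≤ σ.M4 := le_trans (card_pos.2 ⟨t0, σ.self_mem_Mid t0⟩) hM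
    exact_mod_cast this
  have hM0 : (0 : ℝ) < σ.M4 := by linarith
  have hpow : (2 / α) ^ I.card ≤ (σ.M4 : ℝ) ^ E1 := pow_le_of_struct (by linarith) hcard hE
  have hπ : 0 < piK p k := piK_pos k
  have hP : α ^ I.card ≤ Pw w (fun l => ∀ i ∈ I, l i = some (P.a0, false)) := by
    rw [Pw_all hw I (fun a => a = some (P.a0, false)), ← Finset.prod_const]
    refine Finset.prod_le_prod (fun _ _ => hα0.le) (fun i hi => ?_)
    refine (hw0 i (mem_sdiff.1 (hI hi)).2).trans ?_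
    exact Finset.single_le_sum (f := w i) (fun a _ => hw.1 i a) (by simp)
  let q : T → (X → Lab k j) → ℝ := fun t l => pr (FSp p (cset P σ.Y l)) (fun ω =>
    FSurv P (σ.de t0 t) ω ∧ ∃ y, Phi P phi (σ.Mid t0) (σ.uu t0) (σ.dd t0) ω y ≠ 0)
  have h1 : piK p k / (σ.M4 : ℝ) ^ (2 * E1) ≤ ∑ t ∈ σ.LCl t0, Ew w (q t) := by
    rw [← Ew_sum]
    have h2 : Ew w (fun l => piK p k * (1 / 2) ^ I.card / (σ.M4 : ℝ) ^ E1 *
        (if ∀ i ∈ I, l i = some (P.a0, false) then 1 else 0)) ≤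
        Ew w (fun l => ∑ t ∈ σ.LCl t0, q t l) := by
      refine Ew_mono hw (fun l hl => ?_)
      split_ifs with h
      · rw [mul_one]
        refine (hfix l (fun i hi => hw1 i hi _ (hl i)) h).trans ?_
        refine le_trans (pr_mono _ ?_) (pr_exists_le _ (σ.LCl t0) (fun t ω =>
          FSurv P (σ.de t0 t) ω ∧ ∃ y, Phi P phi (σ.Mid t0) (σ.uu t0) (σ.dd t0) ω y ≠ 0))
        rintro ω _ ⟨⟨t, ht, hs⟩, hy⟩
        exact ⟨t, ht, hs, hy⟩
      · rw [mul_zero]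
        exact Finset.sum_nonneg (fun t _ => pr_nonneg _ _)
    refine le_trans ?_ h2
    rw [Ew_mul]
    unfold Pw at hP
    have h3 : piK p k / (σ.M4 : ℝ) ^ (2 * E1) ≤
        piK p k * (1 / 2) ^ I.card / (σ.M4 : ℝ) ^ E1 * α ^ I.card := by
      have h4 : 1 / (σ.M4 : ℝ) ^ E1 ≤ (1 / 2) ^ I.card * α ^ I.card := by
        rw [← mul_pow]
        have h5 : (1 / 2 * α : ℝ) = 1 / (2 / α) := by field_simp
        rw [h5, one_div_pow]
        exact one_div_le_one_div_of_le (by positivity) hpow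
      calc piK p k / (σ.M4 : ℝ) ^ (2 * E1)
          = piK p k / (σ.M4 : ℝ) ^ E1 * (1 / (σ.M4 : ℝ) ^ E1) := by
            rw [two_mul, pow_add]
            field_simp
        _ ≤ piK p k / (σ.M4 : ℝ) ^ E1 * ((1 / 2) ^ I.card * α ^ I.card) :=
            mul_le_mul_of_nonneg_left h4 (by positivity)
        _ = _ := by ring
    refine h3.trans (mul_le_mul_of_nonneg_left (hP.trans (le_of_eq ?_)) (by positivity))
    congr 1
    funext l
    congr
  have h6 : ∃ t1 ∈ σ.LCl t0, piK p k / (σ.M4 : ℝ) ^ (2 * E1 + 1) ≤ Ew w (q t1) := by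
    by_contra hcon
    have hlt : ∀ t ∈ σ.LCl t0, Ew w (q t) < piK p k / (σ.M4 : ℝ) ^ (2 * E1 + 1) :=
      fun t ht => not_le.1 (fun h => hcon ⟨t, ht, h⟩)
    have hpos : 0 < piK p k / (σ.M4 : ℝ) ^ (2 * E1) := by positivity
    rcases (σ.LCl t0).eq_empty_or_nonempty with he | hne
    · rw [he, Finset.sum_empty] at h1
      linarith
    · have h7 := Finset.sum_lt_sum_of_nonempty hne hlt
      rw [Finset.sum_const, nsmul_eq_mul] at h7
      have h8 : ((σ.LCl t0).card : ℝ) ≤ σ.M4 := by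
        exact_mod_cast (card_le_card (σ.LCl_subset t0)).trans hM
      have h9 : ((σ.LCl t0).card : ℝ) * (piK p k / (σ.M4 : ℝ) ^ (2 * E1 + 1)) ≤
          piK p k / (σ.M4 : ℝ) ^ (2 * E1) := by
        refine (mul_le_mul_of_nonneg_right h8 (by positivity)).trans (le_of_eq ?_)
        rw [pow_succ]
        field_simp
      linarith
  obtain ⟨t1, ht1, h6⟩ := h6
  have ht1' : t1 ∈ σ.Mid t0 := σ.LCl_subset t0 ht1
  refine ⟨t1, ht1, (σ.recentre P phi h0 ht1 (fun _ => none)).1, ?_⟩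
  let Far : Finset T := (σ.Mid t0).filter (fun t => σ.r < wt (σ.de t0 t - σ.de t0 t1))
  let q2 : T → (X → Lab k j) → ℝ := fun t l => pr (FSp p (cset P σ.Y l)) (fun ω =>
    FSurv P (σ.de t0 t) ω ∧ FSurv P (σ.de t0 t1) ω)
  have hb0 : (0 : ℝ) ≤ (1 - 3 / (2 * p : ℝ)) ^ k + k * (1 - ρ) ^ (σ.r / 2) := by
    have : (3 : ℝ) / (2 * p) ≤ 1 := by
      rw [div_le_one (by linarith)]
      linarith
    exact add_nonneg (pow_nonneg (by linarith) _)
      (mul_nonneg (Nat.cast_nonneg _) (pow_nonneg (by linarith) _))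
  have h10 : ∀ t ∈ Far, Ew w (q2 t) ≤ (1 - 3 / (2 * p : ℝ)) ^ k + k * (1 - ρ) ^ (σ.r / 2) := by
    intro t ht
    obtain ⟨ht', hr⟩ := mem_filter.1 ht
    have h11 := hfar t ht' t1 ht1' hr
    obtain ⟨D, hD, hDc⟩ := Finset.exists_subset_card_eq
      (s := supp (σ.de t0 t - σ.de t0 t1) \ Tp) (n := σ.r / 2) (by omega)
    rw [← hDc]
    refine pair_label P σ.Y hw D hρ1 _ _ (fun i hi => ?_)
      (fun i hi b => hwρ i (mem_sdiff.1 (hD hi)).2 b)
    have h12 := (mem_sdiff.1 (hD hi)).1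
    refine mem_inter.2 ⟨h12, ?_⟩
    by_contra hY
    rw [mem_supp] at h12
    apply h12
    have h13 : σ.de t0 t i = 0 := by
      by_contra h
      exact hY (σ.olink_supp_de ht' (mem_supp.2 h))
    have h14 : σ.de t0 t1 i = 0 := by
      by_contra h
      exact hY (σ.olink_supp_de ht1' (mem_supp.2 h))
    rw [Pi.sub_apply, h13, h14, sub_zero]
  have h15 : Ew w (q t1) ≤ Ew w (fun l => σ.pfe P phi t1 l + ∑ t ∈ Far, q2 t l) := by
    refine Ew_mono hw (fun l _ => ?_)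
    rw [(σ.recentre P phi h0 ht1 l).2]
    refine le_trans ?_ (add_le_add le_rfl (pr_exists_le _ Far (fun t ω =>
      FSurv P (σ.de t0 t) ω ∧ FSurv P (σ.de t0 t1) ω)))
    refine le_trans (pr_mono _ ?_) (pr_or_le _ _ _)
    rintro ω _ ⟨hs, y, hy⟩
    by_cases hf : ∃ t ∈ Far, FSurv P (σ.de t0 t) ω ∧ FSurv P (σ.de t0 t1) ω
    · exact Or.inr hf
    · refine Or.inl ⟨hs, y, ?_⟩
      rw [← Phi_subset P phi (filter_subset _ _) (σ.uu t0) hu (σ.dd t0) ω
        (fun t ht ht' hst => hf ⟨t, mem_filter.2 ⟨ht,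
          not_le.1 (fun h => ht' (mem_filter.2 ⟨ht, h⟩))⟩, hst, hs⟩) y]
      exact hy
  rw [Ew_add, Ew_sum] at h15
  have h16 : ∑ t ∈ Far, Ew w (q2 t) ≤
      σ.M4 * ((1 - 3 / (2 * p : ℝ)) ^ k + k * (1 - ρ) ^ (σ.r / 2)) := by
    refine (Finset.sum_le_card_nsmul _ _ _ h10).trans ?_
    rw [nsmul_eq_mul]
    refine mul_le_mul_of_nonneg_right ?_ hb0
    exact_mod_cast (card_le_card (filter_subset _ _)).trans hM
  linarith

end Ext

end Pool.Agent.P.MP_85fe51_lc.OD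
end

-- part Pool.Agent.P.MP_85fe51_lc.OFin
section

set_option autoImplicit false

namespace Pool.Agent.P.MP_85fe51_lc.OD

open Finset
open scoped Classical

variable {p : ℕ} [Fact p.Prime] {X : Type} [Fintype X] [DecidableEq X] {T : Type} [Fintype T]
  {k j : ℕ} {V : Type} [AddCommGroup V]

namespace Ext
variable (σ : Ext p X T) (P : Pat k j) (phi : T → ZMod p → V)

/-- with few charged terms the sum has low degree on a new state. -/
theorem finish (hphi : ∀ t, SZ (phi t)) (hN : NoP p V) (hk : 1 ≤ k) (hj : 1 ≤ j)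
    {θ τ ε ζ ξ pmin p' : ℝ} (hθ : ThC p θ) (h0 : 0 ≤ τ) (h1 : τ ≤ 1 / 2) (hε : 0 < ε)
    (hε1 : ε ≤ 1 / 12) (hξ0 : 0 < ξ) (hξ1 : ξ ≤ 1 / 2) (hp : 0 < p') {n1 n' c E1 : ℕ}
    (hn1 : 1 ≤ n1) (hn' : 1 ≤ n') (hm : 8 * Fintype.card T * pmin ≤ p' * n1)
    (hr : (Fintype.card T : ℝ) ^ 3 * Real.exp (-(σ.r / 2 : ℝ)) ≤ 1 / 8)
    (hζ : ζ ≤ 1 / (32 * j * n') * (1 - θ) * σ.r)
    (hbig : 40 * n' * (Fintype.card T + 1) ^ 2 * p ^ 2 * (p * (Fintype.card X + 1) : ℝ) ^ 2 *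
      Real.exp (-ζ) ≤ ε)
    (hY : 192 * j ≤ ξ * σ.Y.card)
    (hdel : Fintype.card T * (10 * σ.CH) * (10 * σ.CH * ξ) ^ (c + 1) ≤ ξ * σ.Y.card / (1024 * j))
    (hn : (p * Fintype.card T : ℝ) ^ 2 * (1 - 4 / (3 * p : ℝ)) ^ n' < piK p n')
    (hE : 32 * j * ((p : ℝ) - 1) ^ E1 ≤ (p : ℝ) ^ E1)
    (hp' : p' ≤ piK p k / (σ.M4 : ℝ) ^ (2 * E1 + 1) -
      σ.M4 * ((1 - 3 / (2 * p : ℝ)) ^ k + k * (1 - 1 / (4 * j * k : ℝ)) ^ (σ.r / 2)))
    (hch : (univ.filter (fun e => σ.Heavy e ∧ pmin ≤ σ.abar P phi τ e)).card ≤ n1) :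
    ∃ (Y2 : Finset X) (U2 : Sub p X), Y2 ⊆ σ.Y ∧ σ.U ≤ U2 ∧ co Y2ᶜ ≤ U2 ∧
      ξ / (128 * j) * σ.Y.card ≤ Y2.card ∧ dO U2 Y2ᶜ ≤ dO σ.U σ.Yᶜ + 2 * n1 ∧
      DL ⊥ (KerP U2) (c + 1) Y2 (Sf σ.lam phi) := by
  obtain ⟨Tp, T2, bb, hT2, hbb, hbd, hTb, hAdd, hfar, he, hc, hsize, hlight⟩ :=
    σ.exists_types P phi hk hj hθ.1 hθ.2.1.le h0 h1 hε (hε1.trans (by norm_num)) hξ0 hξ1 hp hn1 hn'
      hm hr hζ hbig hY hdel hch
  set U1 : Sub p X := σ.U ⊔ spn σ.lam (σ.Add P phi τ p' Tp) with hU1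
  have hT2Y : T2 ⊆ σ.Y := hT2.trans inter_subset_right
  have hUU1 : σ.U ≤ U1 := le_sup_left
  have hU12 : U1 ≤ U1 ⊔ co T2ᶜ := le_sup_left
  refine ⟨T2, U1 ⊔ co T2ᶜ, hT2Y, hUU1.trans hU12, le_sup_right, hsize, ?_, ?_⟩
  · rw [dO_sup_co U1 (Subset.refl _)]
    have h2 := dO_sup_spn σ.U σ.lam (σ.Add P phi τ p' Tp) T2ᶜ
    have h3 := dO_anti σ.U (compl_subset_compl.2 hT2Y)
    rw [← hU1] at h2
    omega
  by_contra hnot
  have hclo : Clo (KerP (U1 ⊔ co T2ᶜ)) := fun A B hAB hA hB => kerP_union hAB hA hB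
  obtain ⟨Λ, _, n, z, hz, hne, hkill⟩ := DL_cert hclo hnot
  have hr8 := σ.hr
  have hheavy : ∀ t, ¬ wtm U1 (σ.lam t) ≤ 10 * σ.CH → 10 * σ.CH < wtm σ.U (σ.lam t) := by
    intro t ht
    have h2 := wtm_anti hUU1 (σ.lam t)
    omega
  obtain ⟨t0, ht0, hcert⟩ := σ.long phi hphi hN hθ hε1 Tp T2 bb hT2 hbb hbd hTb he hc hn
    (fun t => wtm U1 (σ.lam t) ≤ 10 * σ.CH)
    (fun t ht => by
      have h2 := hheavy t ht
      unfold Heavy
      omega) n z
    (fun l => ⟨(hz l).1, fun η hη => (hz l).2 η (hU12 (hUU1 hη))⟩) hne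
    (fun t ht c0 => by
      obtain ⟨d, hd, hdc⟩ := hlight t ht
      have hDL : DL (⊥ : AddSubgroup V) (fun _ => True) (c + 1) T2
          (fun A => phi t (c0 + dot d A)) :=
        DL_junta (supp d) (fun A _ => by rw [dot_inter inter_subset_left]) hdc
      have h2 := hkill _ (hDL.mono_pred (fun _ _ => trivial))
      rw [← h2]
      refine sum_congr rfl fun l _ => ?_
      have h3 := (hz l).2 _ (hU12 hd)
      rw [dot_sub, sub_eq_zero] at h3
      rw [h3])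
  have hj1 : (1 : ℝ) ≤ j := by exact_mod_cast hj
  have hk1 : (1 : ℝ) ≤ k := by exact_mod_cast hk
  have hbig0 := hheavy t0 ht0
  obtain ⟨t1, ht1, hh1, hle⟩ := σ.link P phi hphi hN Tp (isW_nuT P hk hj h0 h1 Tp)
    (fun i hi a ha => by
      unfold nuT at ha
      rw [if_pos hi] at ha
      by_contra hne'
      exact ha (if_neg hne'))
    (α := 1 / (16 * j : ℝ)) (ρ := 1 / (4 * j * k : ℝ)) (by positivity)
    ((div_le_one (by positivity)).2 (by linarith))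
    ((div_le_one (by positivity)).2 (by nlinarith))
    (fun i hi => by
      unfold nuT
      rw [if_neg hi]
      exact nu0_a0 P hj h1)
    (fun i hi b => by
      unfold nuT
      rw [if_neg hi]
      exact nu0_ab P hj τ b)
    (E1 := E1) (by
      have h2 : (2 : ℝ) / (1 / (16 * j : ℝ)) = 32 * j := by
        field_simp
        norm_num
      rw [h2]
      exact hE)
    (t0 := t0) (by omega) (hfar t0) hcert
  have hmem : t1 ∈ σ.Add P phi τ p' Tp := by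
    unfold Add
    exact mem_filter.2 ⟨mem_univ _, hh1, hp'.trans hle⟩
  have hlam1 : σ.lam t1 ∈ U1 := Submodule.mem_sup_right (mem_spn σ.lam hmem)
  obtain ⟨hu, hrep, -, -, -⟩ := σ.rep t0 t1 (σ.LCl_subset t0 ht1)
  have hwt : wt (σ.dd t0 t1) ≤ σ.r := by
    unfold LCl at ht1
    exact (mem_filter.1 ht1).2
  have hin : σ.uu t0 t1 • σ.lam t0 - -σ.dd t0 t1 ∈ U1 := by
    have h2 := U1.sub_mem hlam1 (hUU1 hrep)
    have h3 : σ.lam t1 - (σ.lam t1 - σ.uu t0 t1 • σ.lam t0 - σ.dd t0 t1) =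
        σ.uu t0 t1 • σ.lam t0 - -σ.dd t0 t1 := by abel
    rwa [h3] at h2
  have h4 := wtm_le hin
  rw [wtm_smul U1 hu, wt_neg] at h4
  exact ht0 (by omega)

end Ext

end Pool.Agent.P.MP_85fe51_lc.OD
end

-- part Pool.Agent.P.MP_85fe51_lc.OExt
section

set_option autoImplicit false

namespace Pool.Agent.P.MP_85fe51_lc.OD

open Finset
open scoped Classical

variable {p : ℕ} [Fact p.Prime] {X : Type} [Fintype X] [DecidableEq X] {T : Type} [Fintype T]

/-- closeness of all terms to the line of `e`. -/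
noncomputable def oextPsi (lam : T → Vec p X) (CH : ℕ) (H : Sub p X) (e : T) : ℕ :=
  ∑ t, ∑ u ∈ (univ : Finset (ZMod p)).filter (fun u => u ≠ 0),
    (4 * CH + 1 - wtm H (lam t - u • lam e))

/-- the part of the potential that belongs to one term. -/
noncomputable def oextTerm (lam : T → Vec p X) (CH M : ℕ) (H : Sub p X) (t : T) : ℕ :=
  M * min (9 * CH) (wtm H (lam t)) + (4 * M * p * (4 * CH + 1) + 1 - oextPsi lam CH H t) +
    marg CH H (lam t)

theorem oext_psi_mono (lam : T → Vec p X) (CH : ℕ) {H H' : Sub p X} (h : H ≤ H') (e : T) :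
    oextPsi lam CH H e ≤ oextPsi lam CH H' e := by
  unfold oextPsi
  refine sum_le_sum fun t _ => sum_le_sum fun u _ => ?_
  have := wtm_anti h (lam t - u • lam e)
  omega

theorem oext_psi_lt (lam : T → Vec p X) (CH : ℕ) {H H' : Sub p X} (h : H ≤ H') (e t : T)
    {u : ZMod p} (hu : u ≠ 0)
    (hlt : min (4 * CH + 1) (wtm H' (lam t - u • lam e)) <
      min (4 * CH + 1) (wtm H (lam t - u • lam e))) :
    oextPsi lam CH H e < oextPsi lam CH H' e := by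
  unfold oextPsi
  refine sum_lt_sum (fun t _ => sum_le_sum fun u _ => ?_) ⟨t, mem_univ _, ?_⟩
  · have := wtm_anti h (lam t - u • lam e)
    omega
  · refine sum_lt_sum (fun u _ => ?_) ⟨u, mem_filter.2 ⟨mem_univ _, hu⟩, ?_⟩
    · have := wtm_anti h (lam t - u • lam e)
      omega
    · omega

omit [DecidableEq X] in
theorem oext_psi_le (lam : T → Vec p X) (CH : ℕ) (H : Sub p X) (e : T) :
    oextPsi lam CH H e ≤ (MidS H lam CH e).card * (p * (4 * CH + 1)) := by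
  unfold oextPsi
  rw [← sum_subset (subset_univ (MidS H lam CH e))]
  · rw [← smul_eq_mul]
    refine sum_le_card_nsmul _ _ _ fun t _ => ?_
    have h1 : ∑ u ∈ (univ : Finset (ZMod p)).filter (fun u => u ≠ 0),
        (4 * CH + 1 - wtm H (lam t - u • lam e)) ≤
        ((univ : Finset (ZMod p)).filter (fun u => u ≠ 0)).card • (4 * CH + 1) :=
      sum_le_card_nsmul _ _ _ fun u _ => Nat.sub_le _ _
    have h2 : ((univ : Finset (ZMod p)).filter (fun u => u ≠ 0)).card ≤ p := by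
      refine (card_filter_le _ _).trans ?_
      rw [card_univ, ZMod.card]
    rw [smul_eq_mul] at h1
    exact h1.trans (Nat.mul_le_mul_right _ h2)
  · intro t _ ht
    refine sum_eq_zero fun u hu => ?_
    have hu0 : u ≠ 0 := (mem_filter.1 hu).2
    have : ¬ wtm H (lam t - u • lam e) ≤ 4 * CH := fun hh =>
      ht (mem_filter.2 ⟨mem_univ _, u, hu0, hh⟩)
    omega

theorem oext_term_anti (lam : T → Vec p X) (CH M : ℕ) {H H' : Sub p X} (h : H ≤ H') (t : T) :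
    M * min (9 * CH) (wtm H' (lam t)) ≤ M * min (9 * CH) (wtm H (lam t)) ∧
      oextPsi lam CH H t ≤ oextPsi lam CH H' t ∧ marg CH H' (lam t) ≤ marg CH H (lam t) :=
  ⟨Nat.mul_le_mul_left _ (min_le_min le_rfl (wtm_anti h _)), oext_psi_mono lam CH h t,
    marg_anti CH h _⟩

theorem oext_pot_drop (lam : T → Vec p X) (CH M : ℕ) {H H' : Sub p X} (h : H ≤ H')
    (S : Finset T) (c : ℕ) (hS : ∀ t ∈ S, oextTerm lam CH M H' t + c ≤ oextTerm lam CH M H t) :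
    ∑ t, oextTerm lam CH M H' t + c * S.card ≤ ∑ t, oextTerm lam CH M H t := by
  have h1 : c * S.card = ∑ t : T, if t ∈ S then c else 0 := by
    rw [← sum_filter, sum_const, smul_eq_mul, mul_comm]
    congr 2
    ext t
    simp
  rw [h1, ← sum_add_distrib]
  refine sum_le_sum fun t _ => ?_
  by_cases ht : t ∈ S
  · rw [if_pos ht]
    exact hS t ht
  · rw [if_neg ht]
    obtain ⟨a, b, c'⟩ := oext_term_anti lam CH M h t
    unfold oextTerm
    omega

theorem oext_pot_le (lam : T → Vec p X) {CH M : ℕ} (hC : 1 ≤ CH) (hM : 1 ≤ M) (H : Sub p X) :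
    ∑ t, oextTerm lam CH M H t ≤ 31 * p * CH * M * Fintype.card T := by
  have hp : 1 ≤ p := (Fact.out : p.Prime).one_le
  rw [mul_comm _ (Fintype.card T), ← card_univ, ← smul_eq_mul]
  refine sum_le_card_nsmul _ _ _ fun t _ => ?_
  have h1 : M * min (9 * CH) (wtm H (lam t)) ≤ M * (9 * CH) :=
    Nat.mul_le_mul_left _ (min_le_left _ _)
  have h2 := marg_le CH H (lam t)
  have h3 : M * CH ≤ p * (M * CH) := Nat.le_mul_of_pos_left _ hp
  have h4 : CH ≤ M * CH := Nat.le_mul_of_pos_left _ hM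
  have h5 : p * M ≤ p * (M * CH) := Nat.mul_le_mul_left _ (Nat.le_mul_of_pos_right _ hC)
  have h6 : 4 * M * p * (4 * CH + 1) = 16 * (p * (M * CH)) + 4 * (p * M) := by ring
  have h7 : 31 * p * CH * M = 31 * (p * (M * CH)) := by ring
  have h8 : M * (9 * CH) = 9 * (M * CH) := by ring
  unfold oextTerm
  omega

theorem oext_compl_sdiff (Y J : Finset X) : (Y \ J)ᶜ = Yᶜ ∪ J := by
  ext i
  simp only [mem_compl, mem_sdiff, mem_union]
  tauto

theorem oext_card_sdiff (Y Y' J : Finset X) :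
    (Y \ (Y' \ J)).card ≤ (Y \ Y').card + (J \ Y'ᶜ).card := by
  refine le_trans (card_le_card ?_) (card_union_le _ _)
  intro i
  simp only [mem_compl, mem_sdiff, mem_union]
  tauto

/-- a minimizer of the energy. -/
theorem oext_min (lam : T → Vec p X) (Y : Finset X) (U : Sub p X) (hY : co Yᶜ ≤ U)
    (CH M : ℕ) :
    ∃ (Y' : Finset X) (U' : Sub p X), Y' ⊆ Y ∧ U ≤ U' ∧ co Y'ᶜ ≤ U' ∧
      ∀ (Y2 : Finset X) (U2 : Sub p X), Y2 ⊆ Y → U ≤ U2 → co Y2ᶜ ≤ U2 →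
        ∑ t, oextTerm lam CH M U' t + 4 * CH * M ^ 2 * dO U' Y'ᶜ + M ^ 2 * (Y \ Y').card ≤
          ∑ t, oextTerm lam CH M U2 t + 4 * CH * M ^ 2 * dO U2 Y2ᶜ + M ^ 2 * (Y \ Y2).card := by
  have hne : Set.Nonempty {n : ℕ | ∃ (Y2 : Finset X) (U2 : Sub p X),
      Y2 ⊆ Y ∧ U ≤ U2 ∧ co Y2ᶜ ≤ U2 ∧
        ∑ t, oextTerm lam CH M U2 t + 4 * CH * M ^ 2 * dO U2 Y2ᶜ + M ^ 2 * (Y \ Y2).card = n} :=
    ⟨_, Y, U, Subset.refl _, le_rfl, hY, rfl⟩
  obtain ⟨Y', U', h1, h2, h3, h4⟩ := Nat.sInf_mem hne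
  refine ⟨Y', U', h1, h2, h3, fun Y2 U2 g1 g2 g3 => ?_⟩
  rw [h4]
  exact Nat.sInf_le ⟨Y2, U2, g1, g2, g3, rfl⟩

theorem oext_mid_drop (lam : T → Vec p X) (CH M : ℕ) (H : Sub p X) {e t : T}
    (he : 9 * CH ≤ wtm H (lam e)) (ht : t ∈ MidS H lam CH e) :
    oextTerm lam CH M (H ⊔ Submodule.span (ZMod p) {lam e}) t + M * CH ≤
      oextTerm lam CH M H t := by
  obtain ⟨u, hu, hw⟩ := (mem_filter.1 ht).2
  have hle : H ≤ H ⊔ Submodule.span (ZMod p) {lam e} := le_sup_left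
  obtain ⟨-, b, c⟩ := oext_term_anti lam CH M hle t
  have h1 : wtm (H ⊔ Submodule.span (ZMod p) {lam e}) (lam t) ≤ 4 * CH := by
    have hm : lam t - (lam t - u • lam e) ∈ H ⊔ Submodule.span (ZMod p) {lam e} := by
      rw [sub_sub_cancel]
      exact Submodule.mem_sup_right
        (Submodule.smul_mem _ _ (Submodule.mem_span_singleton_self _))
    rw [wtm_congr hm]
    exact (wtm_anti hle _).trans hw
  have h2 : 5 * CH ≤ wtm H (lam t) := by
    have e1 : u • lam e = lam t + (-1 : ZMod p) • (lam t - u • lam e) := by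
      rw [neg_one_smul]
      abel
    have e2 := wtm_add_le H (lam t) ((-1 : ZMod p) • (lam t - u • lam e))
    rw [← e1, wtm_smul H hu, wtm_smul H (neg_ne_zero.2 one_ne_zero)] at e2
    omega
  have h3 : min (9 * CH) (wtm (H ⊔ Submodule.span (ZMod p) {lam e}) (lam t)) + CH ≤
      min (9 * CH) (wtm H (lam t)) := by omega
  have h4 := Nat.mul_le_mul_left M h3
  rw [mul_add] at h4
  unfold oextTerm
  omega

/-- existence of an extremal state below a given state. -/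
theorem exists_ext (lam : T → Vec p X) (Y : Finset X) (U : Sub p X) (hY : co Yᶜ ≤ U)
    {CH r M : ℕ} (hr : 8 * r < CH) (hM : 1 ≤ M) :
    ∃ σ : Ext p X T, σ.lam = lam ∧ σ.CH = CH ∧ σ.r = r ∧ σ.M4 = 4 * M ∧
      σ.K1 = 4 * CH * M ^ 2 ∧ σ.K = 8 * CH * M ^ 2 ∧ σ.Y ⊆ Y ∧ U ≤ σ.U ∧
      4 * CH * M ^ 2 * dO σ.U σ.Yᶜ + M ^ 2 * (Y \ σ.Y).card ≤
        31 * p * CH * M * Fintype.card T + 4 * CH * M ^ 2 * dO U Yᶜ := by
  have hC : 1 ≤ CH := by omega
  have hM2 : 0 < M ^ 2 := pow_pos hM 2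
  obtain ⟨Y', U', hY1, hU1, hco, hmin⟩ := oext_min lam Y U hY CH M
  -- deleting coordinates
  have hdel : ∀ (H : Sub p X) (J : Finset X), U' ≤ H →
      ∑ t, oextTerm lam CH M U' t + 4 * CH * M ^ 2 * dO U' Y'ᶜ ≤
        ∑ t, oextTerm lam CH M (H ⊔ co J) t + 4 * CH * M ^ 2 * dO H (Y'ᶜ ∪ J) +
          M ^ 2 * (J \ Y'ᶜ).card := by
    intro H J hH
    have h1 := hmin (Y' \ J) (H ⊔ co J) (sdiff_subset.trans hY1)
      ((hU1.trans hH).trans le_sup_left) (by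
        rw [oext_compl_sdiff, co_union]
        exact sup_le_sup_right (hco.trans hH) _)
    rw [oext_compl_sdiff, dO_sup_co H subset_union_right] at h1
    have h2 := Nat.mul_le_mul_left (M ^ 2) (oext_card_sdiff Y Y' J)
    rw [mul_add] at h2
    omega
  -- adding vectors
  have hadd : ∀ (H : Sub p X) (y : ℕ), U' ≤ H → dO H Y'ᶜ ≤ dO U' Y'ᶜ + y →
      ∑ t, oextTerm lam CH M U' t ≤ ∑ t, oextTerm lam CH M H t + 4 * CH * M ^ 2 * y := by
    intro H y hH hy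
    have h1 := hmin Y' H hY1 (hU1.trans hH) (hco.trans hH)
    have h2 := Nat.mul_le_mul_left (4 * CH * M ^ 2) hy
    rw [mul_add] at h2
    omega
  have hsafe : Safe (4 * CH) (U'.map (off Y'ᶜ)) := by
    intro J
    have h1 := hdel U' J le_rfl
    have h2 := oext_pot_drop lam CH M (le_sup_left : U' ≤ U' ⊔ co J) ∅ 0 (by simp)
    have h3 := congrArg (fun n => 4 * CH * M ^ 2 * n) (dO_union U' Y'ᶜ J)
    simp only [mul_add] at h3
    have h4 := Nat.mul_le_mul_left (M ^ 2) (card_le_card (sdiff_subset : J \ Y'ᶜ ⊆ J))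
    have h5 : M ^ 2 * (4 * CH * Module.finrank (ZMod p) ↥(U'.map (off Y'ᶜ) ⊓ co J)) =
        4 * CH * M ^ 2 * Module.finrank (ZMod p) ↥(U'.map (off Y'ᶜ) ⊓ co J) := by ring
    have h6 : 4 * CH * Module.finrank (ZMod p) ↥(U'.map (off Y'ᶜ) ⊓ co J) ≤ J.card := by
      refine Nat.le_of_mul_le_mul_left ?_ hM2
      omega
    exact h6
  have hmid : ∀ e, 9 * CH ≤ wtm U' (lam e) → (MidS U' lam CH e).card ≤ 4 * M := by
    intro e he
    have h1 := hadd (U' ⊔ Submodule.span (ZMod p) {lam e}) 1 le_sup_left (dO_sup_span _ _ _)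
    have h2 := oext_pot_drop lam CH M
      (le_sup_left : U' ≤ U' ⊔ Submodule.span (ZMod p) {lam e}) (MidS U' lam CH e) (M * CH)
      (fun t ht => oext_mid_drop lam CH M U' he ht)
    have h3 : M * CH * (4 * M) = 4 * CH * M ^ 2 * 1 := by ring
    refine Nat.le_of_mul_le_mul_left ?_ (Nat.mul_pos hM hC)
    omega
  have he2 : ∀ Γ : Finset T,
      (univ.filter (fun t => marg CH (U' ⊔ spn lam Γ) (lam t) < marg CH U' (lam t))).card ≤
        4 * CH * M ^ 2 * Γ.card := by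
    intro Γ
    have h1 := hadd (U' ⊔ spn lam Γ) Γ.card le_sup_left (dO_sup_spn _ _ _ _)
    have h2 := oext_pot_drop lam CH M (le_sup_left : U' ≤ U' ⊔ spn lam Γ)
      (univ.filter (fun t => marg CH (U' ⊔ spn lam Γ) (lam t) < marg CH U' (lam t))) 1
      (fun t ht => by
        have h3 := (mem_filter.1 ht).2
        obtain ⟨a, b, -⟩ := oext_term_anti lam CH M (le_sup_left : U' ≤ U' ⊔ spn lam Γ) t
        unfold oextTerm
        omega)
    omega
  have he3 : ∀ Γ : Finset T,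
      (univ.filter (fun e => 9 * CH ≤ wtm U' (lam e) ∧ MovedS U' lam CH Γ e)).card ≤
        8 * CH * M ^ 2 * Γ.card := by
    intro Γ
    have hle : U' ≤ HtS U' lam CH Γ := le_sup_left.trans le_sup_left
    have h1 := hdel (U' ⊔ spn lam Γ) (JtS U' lam CH Γ) le_sup_left
    have h2 : dO (U' ⊔ spn lam Γ) (Y'ᶜ ∪ JtS U' lam CH Γ) ≤ dO U' Y'ᶜ + Γ.card :=
      (dO_anti _ subset_union_left).trans (dO_sup_spn _ _ _ _)
    have h3 : (JtS U' lam CH Γ \ Y'ᶜ).card ≤ 2 * (2 * CH) * Γ.card :=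
      card_Jmax (C := 2 * CH) (by omega) hco (hsafe.mono (by omega)) le_sup_left
        (dO_sup_spn _ _ _ _)
    have h4 := oext_pot_drop lam CH M hle
      (univ.filter (fun e => 9 * CH ≤ wtm U' (lam e) ∧ MovedS U' lam CH Γ e)) 1
      (fun e he => by
        obtain ⟨g1, g2⟩ := (mem_filter.1 he).2
        obtain ⟨a, b, c⟩ := oext_term_anti lam CH M hle e
        rcases g2 with g2 | ⟨t, u, hu, g2⟩
        · have g3 : min (9 * CH) (wtm (HtS U' lam CH Γ) (lam e)) + 1 ≤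
              min (9 * CH) (wtm U' (lam e)) := by omega
          have g4 := Nat.mul_le_mul_left M g3
          rw [mul_add] at g4
          unfold oextTerm
          omega
        · have g3 := oext_psi_lt lam CH hle e t hu g2
          have g4 := (oext_psi_le lam CH U' e).trans (Nat.mul_le_mul_right _ (hmid e g1))
          have g5 : 4 * M * (p * (4 * CH + 1)) = 4 * M * p * (4 * CH + 1) := by ring
          unfold oextTerm
          omega)
    have h5 := Nat.mul_le_mul_left (4 * CH * M ^ 2) h2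
    have h6 := Nat.mul_le_mul_left (M ^ 2) h3
    have h7 : M ^ 2 * (2 * (2 * CH) * Γ.card) = 4 * CH * M ^ 2 * Γ.card := by ring
    have h8 : 8 * CH * M ^ 2 * Γ.card = 2 * (4 * CH * M ^ 2 * Γ.card) := by ring
    rw [mul_add] at h5
    change _ ≤ ∑ t, oextTerm lam CH M (HtS U' lam CH Γ) t + _ + _ at h1
    omega
  have hsupp : ∀ d : Vec p X, Disjoint (supp d) Y'ᶜ → supp d ⊆ Y' := by
    intro d hd i hi
    by_contra hn
    exact disjoint_left.1 hd hi (mem_compl.2 hn)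
  have hrep : ∀ e t : T, ∃ (u : ZMod p) (d : Vec p X), t ∈ MidS U' lam CH e →
      u ≠ 0 ∧ lam t - u • lam e - d ∈ U' ∧ supp d ⊆ Y' ∧
        wt d = wtm U' (lam t - u • lam e) ∧ wt d ≤ 4 * CH := by
    intro e t
    by_cases ht : t ∈ MidS U' lam CH e
    · obtain ⟨u, hu, hw⟩ := (mem_filter.1 ht).2
      obtain ⟨d, h1, h2, h3⟩ := exists_rep hco (lam t - u • lam e)
      exact ⟨u, d, fun _ => ⟨hu, h1, hsupp d h2, h3, h3.le.trans hw⟩⟩
    · exact ⟨0, 0, fun h => absurd h ht⟩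
  have hrepl : ∀ t : T, ∃ d : Vec p X,
      lam t - d ∈ U' ∧ supp d ⊆ Y' ∧ wt d = wtm U' (lam t) := by
    intro t
    obtain ⟨d, h1, h2, h3⟩ := exists_rep hco (lam t)
    exact ⟨d, h1, hsupp d h2, h3⟩
  choose uu dd hud using hrep
  choose dl hdl using hrepl
  refine ⟨⟨lam, Y', U', CH, r, 4 * M, 4 * CH * M ^ 2, 8 * CH * M ^ 2, uu, dd, dl, hr, hco, hsafe,
    hmid, he2, he3, fun e t ht => hud e t ht, hdl⟩, rfl, rfl, rfl, rfl, rfl, rfl, hY1, hU1, ?_⟩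
  have h1 := hmin Y U (Subset.refl _) le_rfl hY
  have h2 := oext_pot_le lam hC hM U
  rw [sdiff_self] at h1
  change 4 * CH * M ^ 2 * dO U' Y'ᶜ + M ^ 2 * (Y \ Y').card ≤ _
  simp only [bot_eq_empty, card_empty, mul_zero, add_zero] at h1
  omega

end Pool.Agent.P.MP_85fe51_lc.OD
end

-- part Pool.Agent.P.MP_85fe51_lc.ONum
section

set_option autoImplicit false

namespace Pool.Agent.P.MP_85fe51_lc.OD

open Finset
open scoped Classical

/-- the numerical parameters of one phase; `s, n, L` are the orders of the group, of the ground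
set and of the set of terms. -/
structure Num (p s n L c c1 j E1 : ℕ) (θ γ : ℝ) where
  k : ℕ
  CH : ℕ
  r : ℕ
  M : ℕ
  C' : ℕ
  g : ℕ
  t : ℕ
  v : ℕ
  n' : ℕ
  n0 : ℕ
  n1 : ℕ
  W : ℕ
  Ylo : ℕ
  τ : ℝ
  ε : ℝ
  ζ : ℝ
  q : ℝ
  ξ : ℝ
  pmin : ℝ
  p' : ℝ
  β : ℝ
  μ : ℝ
  hk : c < k
  hr : 8 * r < CH
  hM : 1 ≤ M
  hC : 1 ≤ C'
  hg1 : 1 ≤ g
  ht1 : 1 ≤ t
  ht : L < 2 ^ t
  hn'1 : 1 ≤ n'
  hn1 : 1 ≤ n1
  hW1 : 1 ≤ W
  hτ0 : 0 ≤ τ
  hτ1 : τ ≤ 1 / 2
  hε0 : 0 < ε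
  hεk : 8 * (p : ℝ) ^ 2 * (k + 1) * ε ≤ 1
  hβ0 : 0 < β
  hq0 : 0 < q
  hq1 : q ≤ 1
  hξ0 : 0 < ξ
  hξ1 : ξ ≤ 1 / 2
  hp0 : 0 < p'
  hpm : 0 ≤ pmin
  xA : 4 * (31 * p * CH * M * L + 4 * CH * M ^ 2 * (3 * s * n1)) ≤ M ^ 2 * Ylo
  xB : 31 * p * CH * M * L ≤ 4 * CH * M ^ 2 * n1
  xW : W ^ s * Ylo ≤ n
  xW2 : 512 * (j : ℝ) ≤ 3 * W * ξ
  e1 : 64 * j * n0 ≤ 3 * Ylo
  e2 : 4 * s * β ≤ (1 / 2 : ℝ) ^ (j * (k + 1))
  e3 : 4 * (p * (n + 1) : ℝ) ^ 2 * Real.exp (-ζ) + Real.exp (-(n0 : ℝ)) +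
    2 * (p : ℝ) ^ ((3 * s + 1) * n1) / 2 ^ n0 ≤ 2 * β
  tc : (4 * M : ℕ) * (r * τ) ^ (c1 + 1) ≤ pmin / 2
  z1 : ζ ≤ τ / (4 * j * k) * (1 - θ) * CH / 2
  z2 : ζ ≤ 1 / (4 * j * k) * (1 - θ) * r
  z3 : ζ ≤ 1 / (4 * j * k) * (1 - θ) * CH / (4 * k * g : ℕ)
  z4 : ζ ≤ τ / (4 * j * k) / (8 * C') * CH
  z5 : ζ ≤ 1 / (32 * j * n') * (1 - θ) * r
  tbig : 400 * (p * (n + 1) : ℝ) ^ 2 * (L + 1) ^ 2 * p ^ 2 * (k + 1) * j * g * Real.exp (-ζ) ≤ ε * β
  tg : 48 * k * L ≤ β * 2 ^ g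
  tμ : Real.exp (-μ / 8) ≤ β / 8
  hμ : 8 * (8 * CH * M ^ 2 : ℕ) * (4 * M : ℕ) * μ ≤ n1 * pmin
  bv : 2 * (1 / 2 : ℝ) ^ v ≤ (β / 2) ^ (2 ^ k)
  bQ : 4 * (p * (n + 1) : ℝ) ^ 2 * Real.sqrt θ ^ C' ≤ 1
  bq : 4 * piK p k ≤ q
  bδ : 6 * (((k + 1) * j + k : ℕ) : ℝ) * ε + 2 * (4 * M : ℕ) * piK p k ^ 2 ≤ pmin / 32
  bq2 : 2 * (4 * piK p k / q) ^ 2 ≤ pmin / 64
  by1 : 2 * ((8 * CH * M ^ 2 : ℕ) * v + 4 * piK p k *
    (6 * C' * ((4 * CH * M ^ 2 : ℕ) + 1) * (v + 64 * t * q * L + 2))) +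
    2 * (v + 2) * ((4 * M : ℕ) : ℝ) ^ E1 / (1 - γ) ≤ μ / 64
  bk : k * v + 1 ≤ μ / 16
  fm : 8 * L * pmin ≤ p' * n1
  fr : (L : ℝ) ^ 3 * Real.exp (-(r / 2 : ℝ)) ≤ 1 / 8
  fbig : 40 * n' * (L + 1) ^ 2 * p ^ 2 * (p * (n + 1) : ℝ) ^ 2 * Real.exp (-ζ) ≤ ε
  fY : 384 * (j : ℝ) ≤ ξ * Ylo
  fdel : L * (10 * CH) * (10 * CH * ξ) ^ (c + 1) ≤ ξ * Ylo / (2048 * j)
  fn : (p * L : ℝ) ^ 2 * (1 - 4 / (3 * p : ℝ)) ^ n' < piK p n'
  fp : p' ≤ piK p k / ((4 * M : ℕ) : ℝ) ^ (2 * E1 + 1) -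
    (4 * M : ℕ) * ((1 - 3 / (2 * p : ℝ)) ^ k + k * (1 - 1 / (4 * j * k : ℝ)) ^ (r / 2))

end Pool.Agent.P.MP_85fe51_lc.OD
end

-- part Pool.Agent.P.MP_85fe51_lc.OPhase
section

set_option autoImplicit false

namespace Pool.Agent.P.MP_85fe51_lc.OD

open Finset
open scoped Classical

variable {p : ℕ} [Fact p.Prime] {X : Type} [Fintype X] [DecidableEq X] {T : Type} [Fintype T]
  {V0 N : Type} [AddCommGroup V0] [Fintype V0] [AddCommGroup N] [Fintype N]

theorem ophase_size {A B m d d' δ D n1 Ylo : ℕ} (hB : 0 < B) (hm : 0 < m)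
    (h : B * d' + m * δ ≤ A + B * d) (hd : d ≤ D) (xA : 4 * (A + B * D) ≤ m * Ylo)
    (xB : A ≤ B * n1) : 4 * δ ≤ Ylo ∧ d' ≤ d + n1 := by
  constructor
  · have h1 : B * d ≤ B * D := Nat.mul_le_mul_left _ hd
    have h2 : m * (4 * δ) ≤ m * Ylo := by
      have : m * (4 * δ) = 4 * (m * δ) := by ring
      omega
    exact Nat.le_of_mul_le_mul_left h2 hm
  · have h2 : B * d' ≤ B * (d + n1) := by
      rw [Nat.mul_add]
      omega
    exact Nat.le_of_mul_le_mul_left h2 hB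

theorem ophase_eps {k : ℕ} {ε : ℝ} (h0 : 0 < ε) (h : 8 * (p : ℝ) ^ 2 * (k + 1) * ε ≤ 1) :
    ε ≤ 1 / 12 := by
  have hp : (2 : ℝ) ≤ p := by exact_mod_cast (Fact.out : p.Prime).two_le
  have h1 : (4 : ℝ) ≤ (p : ℝ) ^ 2 := by nlinarith
  have h2 : (1 : ℝ) ≤ k + 1 := by linarith [Nat.cast_nonneg (α := ℝ) k]
  have h3 : 8 * 4 * 1 * ε ≤ 8 * (p : ℝ) ^ 2 * (k + 1) * ε := by gcongr
  linarith

theorem ophase_norm {Ω G : Type} [AddCommGroup G] [Fintype G] (χ : AddChar G ℂ) (s : Finset Ω)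
    (v : Ω → G) : ‖s.expect (fun x => χ (v x))‖ ≤ 1 := by
  refine (RCLike.norm_expect_le (K := ℂ)).trans ?_
  rcases s.eq_empty_or_nonempty with rfl | hs
  · simp
  · exact expect_le hs fun x _ => (AddChar.norm_apply χ (v x)).le

omit [Fintype X] [DecidableEq X] [Fintype N] in
theorem ophase_DS {V : Type} [AddCommGroup V] (q : N →+ V) {k j : ℕ} (P : Pat k j)
    (lam : T → Vec p X) (phi : T → ZMod p → N) (x : Cp k j → Finset X) :
    q (DS P lam phi x) = DS P lam (fun t s => q (phi t s)) x := by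
  unfold DS
  simp only [map_sum, map_zsmul]

/-- few terms are charged. -/
theorem ophase_charged {c c1 j E1 : ℕ} {θ γ : ℝ}
    (hθ : ThB p (Fintype.card N) c1 θ) (hγ : Gam p (Fintype.card N) γ) (hj1 : 1 ≤ j)
    (hE : 32 * j * ((p : ℝ) - 1) ^ E1 ≤ (p : ℝ) ^ E1)
    (ν : Num p (Fintype.card N) (Fintype.card X) (Fintype.card T) c c1 j E1 θ γ)
    (σ : Ext p X T) (hCH : σ.CH = ν.CH) (hr : σ.r = ν.r) (hM4 : σ.M4 = 4 * ν.M)
    (hK1 : σ.K1 = 4 * ν.CH * ν.M ^ 2) (hK : σ.K = 8 * ν.CH * ν.M ^ 2)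
    (phi : T → ZMod p → N) (f0 : Finset X → V0) (hf : DL ⊥ (fun _ => True) (c + 1) univ f0)
    (P : Pat ν.k j) (χ : AddChar (V0 × N) ℂ)
    (hb : ν.β ≤ Ew (fun _ : X => nu ν.k j ν.τ) (fun l =>
      ‖(Fintype.piFinset (fun a => Ker σ.U (atomSet σ.Y l a))).expect
        (fun x => χ (f0 (P.g.biUnion x), Sf σ.lam phi (P.g.biUnion x)))‖))
    {V : Type} [AddCommGroup V] [Fintype V] (q : N →+ V) (ψ : AddChar V ℂ)
    (hV : ∀ v : V, Fintype.card N • v = 0) (hNV : NoP p V) (hq : ∀ n, ψ (q n) = χ (0, n))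
    (hψ : ∀ v, ψ v = 1 → v = 0) (hphi : ∀ t, SZ (fun s => q (phi t s))) :
    (univ.filter (fun e => σ.Heavy e ∧
      ν.pmin ≤ σ.abar P (fun t s => q (phi t s)) ν.τ e)).card ≤ ν.n1 := by
  by_contra hcon
  have hCH1 : 1 ≤ ν.CH := by have := ν.hr; omega
  have hM1 := ν.hM
  have hKM : 0 < σ.K * σ.M4 := by rw [hK, hM4]; positivity
  have hk1 : 1 ≤ ν.k := by have := ν.hk; omega
  obtain ⟨Seq, hsub, hS, hcard⟩ := σ.select (univ.filter (fun e => σ.Heavy e ∧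
    ν.pmin ≤ σ.abar P (fun t s => q (phi t s)) ν.τ e)) (fun e he => (mem_filter.mp he).2.1) hKM
  have hn : (ν.n1 : ℝ) ≤ 8 * σ.K * σ.M4 * Seq.card := by
    exact_mod_cast (not_le.mp hcon).le.trans hcard
  have hμ : ν.μ ≤ Seq.card * ν.pmin := by
    have h1 := ν.hμ
    rw [← hK, ← hM4] at h1
    have h2 := mul_le_mul_of_nonneg_right hn ν.hpm
    have h3 : (0 : ℝ) < 8 * σ.K * σ.M4 := by
      have : (0 : ℝ) < σ.K * σ.M4 := by exact_mod_cast hKM
      linarith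
    refine le_of_mul_le_mul_left (h1.trans (h2.trans (le_of_eq ?_))) h3
    ring
  have hε := ophase_eps ν.hε0 ν.hεk
  obtain ⟨l, hl, hT⟩ := σ.exists_typ P (fun t s => q (phi t s)) hS hk1 hj1 hθ.1 hθ.2.1.le ν.hτ0
    (ν.hτ1.trans (by norm_num)) ν.hε0 (hε.trans (by norm_num)) ν.hC ν.hg1 ν.hβ0
    (fun e he => (mem_filter.mp (hsub he)).2.2) (by rw [hM4, hr]; exact ν.tc)
    (by rw [hCH]; exact ν.z1) (by rw [hr]; exact ν.z2) (by rw [hCH]; exact ν.z3)
    (by rw [hCH]; exact ν.z4) ν.tbig ν.tg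
    ((Real.exp_le_exp.mpr (by linarith)).trans ν.tμ) _ (fun l => ophase_norm χ _ _) hb
  have h1 := σ.bias_DS P l χ f0 hf ν.hk phi
  have h2 : (fun x => χ (0, DS P σ.lam phi x)) =
      fun x => ψ (DS P σ.lam (fun t s => q (phi t s)) x) := by
    funext x
    rw [← hq, ophase_DS]
  rw [h2] at h1
  have h3 := ν.bv.trans ((pow_le_pow_left₀ (by linarith [ν.hβ0]) hl _).trans h1)
  have hE2 : 2 * ((p : ℝ) - 1) ^ E1 ≤ (p : ℝ) ^ E1 := by
    have hp : (1 : ℝ) ≤ p := by exact_mod_cast (Fact.out : p.Prime).one_le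
    have hj : (1 : ℝ) ≤ j := by exact_mod_cast hj1
    exact (mul_le_mul_of_nonneg_right (by linarith) (pow_nonneg (by linarith) _)).trans hE
  exact σ.bias_contra P _ hphi hθ hγ hV hNV ψ hψ hS hT h3 ν.hε0.le ν.hεk ν.hC ν.bQ hE2 ν.hq0
    ν.hq1 ν.bq ν.ht1 ν.ht hμ (by rw [hM4]; exact ν.bδ) ν.bq2
    (by rw [hK, hK1, hM4]; exact ν.by1) ν.bk

theorem phase {c c1 j E1 : ℕ} {θ γ : ℝ} (hN : Nat.Coprime (Fintype.card N) p)
    (hθ : ThB p (Fintype.card N) c1 θ) (hγ : Gam p (Fintype.card N) γ) (hj1 : 1 ≤ j)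
    (hj : OlsJ c (Fintype.card (V0 × N)) j) (hE : 32 * j * ((p : ℝ) - 1) ^ E1 ≤ (p : ℝ) ^ E1)
    (ν : Num p (Fintype.card N) (Fintype.card X) (Fintype.card T) c c1 j E1 θ γ)
    (lam : T → Vec p X) (phi : T → ZMod p → N) (hphi : ∀ t, SZ (phi t)) (f0 : Finset X → V0)
    (hf : DL ⊥ (fun _ => True) (c + 1) univ f0)
    (hno : ∀ A : Finset X, Sf lam phi A = Sf lam phi ∅ → f0 A = f0 ∅ → A = ∅)
    (Y : Finset X) (U : Sub p X) (N0 : AddSubgroup N) (hY : co Yᶜ ≤ U) (hYc : ν.Ylo ≤ Y.card)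
    (hU : dO U Yᶜ ≤ 3 * Fintype.card N * ν.n1) (hS : DL N0 (KerP U) (c + 1) Y (Sf lam phi)) :
    ∃ (Y2 : Finset X) (U2 : Sub p X) (N2 : AddSubgroup N), N2 < N0 ∧ co Y2ᶜ ≤ U2 ∧
      Y.card ≤ ν.W * Y2.card ∧ dO U2 Y2ᶜ ≤ dO U Yᶜ + 3 * ν.n1 ∧
      DL N2 (KerP U2) (c + 1) Y2 (Sf lam phi) := by
  obtain ⟨σ, hlam, hCH, hr, hM4, hK1, hK, hYs, hUs, hen⟩ := exists_ext lam Y U hY ν.hr ν.hM
  subst hlam
  have hCH1 : 1 ≤ ν.CH := by have := ν.hr; omega
  have hM1 := ν.hM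
  have hk1 : 1 ≤ ν.k := by have := ν.hk; omega
  obtain ⟨hδ, hd⟩ := ophase_size (by positivity) (by positivity) hen hU ν.xA ν.xB
  have hcard := card_sdiff_add_card_eq_card hYs
  have hY3 : 3 * Y.card ≤ 4 * σ.Y.card := by omega
  have hS' : DL N0 (KerP σ.U) (c + 1) σ.Y (Sf σ.lam phi) :=
    (hS.mono_set hYs).mono_pred fun A hA η hη => hA η (hUs hη)
  have hj0 : (0 : ℝ) < j := by exact_mod_cast hj1
  have hp1 : (1 : ℝ) ≤ p := by exact_mod_cast (Fact.out : p.Prime).one_le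
  have hζ : ν.ζ ≤ 1 / (4 * j) * (1 - θ) * σ.CH := by
    have hk0 : (1 : ℝ) ≤ ν.k := by exact_mod_cast hk1
    have h1 : ν.τ / (4 * j * ν.k) ≤ 1 / (4 * j) :=
      div_le_div₀ zero_le_one (ν.hτ1.trans (by norm_num)) (by positivity)
        (le_mul_of_one_le_right (by positivity) hk0)
    have h2 : 0 ≤ (1 - θ) * ν.CH := mul_nonneg (by linarith [hθ.2.1]) (Nat.cast_nonneg _)
    have h3 := mul_le_mul_of_nonneg_right h1 h2
    have h4 : 0 ≤ 1 / (4 * (j : ℝ)) * ((1 - θ) * ν.CH) := by positivity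
    have h5 := ν.z1
    rw [hCH]
    linarith
  have hβ2 : 2 * (p : ℝ) ^ dO σ.U σ.Yᶜ / 2 ^ ν.n0 ≤
      2 * (p : ℝ) ^ ((3 * Fintype.card N + 1) * ν.n1) / 2 ^ ν.n0 := by
    have h1 : dO σ.U σ.Yᶜ ≤ (3 * Fintype.card N + 1) * ν.n1 := by
      rw [Nat.add_mul, one_mul]
      omega
    have h2 := pow_le_pow_right₀ hp1 h1
    gcongr
  obtain ⟨P, χ, ⟨n, hn, hχ⟩, hb⟩ := σ.exists_bias (k := ν.k) f0 phi N0 hj hf hS' hθ.thC hk1 hj1
    ν.hτ0 (ν.hτ1.trans (by norm_num)) (n0 := ν.n0) (by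
      have h1 := ν.e1
      have h2 : 64 * j * ν.n0 = 4 * (16 * j * ν.n0) := by ring
      omega) hζ ν.hβ0 ν.e2 (by linarith [ν.e3]) hno
  obtain ⟨V, _, _, q, ψ, hV, hq, hψ⟩ := faithful_quot (χ.compAddMonoidHom (AddMonoidHom.inr V0 N))
  have hq' : ∀ n, ψ (q n) = χ (0, n) := fun n => hq n
  have hNV : NoP p V := noP_of_coprime hN hV
  have hphi' : ∀ t, SZ (fun s => q (phi t s)) := fun t => by
    unfold SZ
    rw [← map_sum, hphi t, map_zero]
  have hch := ophase_charged hθ hγ hj1 hE ν σ hCH hr hM4 hK1 hK phi f0 hf P χ hb q ψ hV hNV hq'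
    hψ hphi'
  have hY2 : (ν.Ylo : ℝ) ≤ 2 * σ.Y.card := by
    exact_mod_cast (show ν.Ylo ≤ 2 * σ.Y.card by omega)
  have hξY := mul_le_mul_of_nonneg_left hY2 ν.hξ0.le
  obtain ⟨Y2, U2, h1, h2, h3, h4, h5, h6⟩ := σ.finish P (fun t s => q (phi t s)) hphi' hNV hk1
    hj1 hθ.thC ν.hτ0 ν.hτ1 ν.hε0 (ophase_eps ν.hε0 ν.hεk) ν.hξ0 ν.hξ1 ν.hp0 (c := c) ν.hn1
    ν.hn'1 ν.fm (by rw [hr]; exact ν.fr) (by rw [hr]; exact ν.z5) ν.fbig (by linarith [ν.fY])
    (by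
      rw [hCH]
      refine ν.fdel.trans ?_
      rw [div_le_div_iff₀ (by positivity) (by positivity)]
      have := mul_le_mul_of_nonneg_right hξY hj0.le
      linarith) ν.fn hE (by rw [hM4, hr]; exact ν.fp) hch
  refine ⟨Y2, U2, N0 ⊓ q.ker, ?_, h3, ?_, by omega, ?_⟩
  · refine lt_of_le_of_ne inf_le_left fun h => hχ ?_
    have h7 : n ∈ N0 ⊓ q.ker := by rw [h]; exact hn
    rw [← hq', AddMonoidHom.mem_ker.mp h7.2, AddChar.map_zero_eq_one]
  · have a1 : (3 : ℝ) * Y.card ≤ 4 * σ.Y.card := by exact_mod_cast hY3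
    rw [div_mul_eq_mul_div, div_le_iff₀ (by positivity)] at h4
    have a2 := mul_le_mul_of_nonneg_right ν.xW2 (Nat.cast_nonneg (α := ℝ) Y.card)
    have a3 := mul_le_mul_of_nonneg_left a1
      (mul_nonneg (Nat.cast_nonneg (α := ℝ) ν.W) ν.hξ0.le)
    have a4 := mul_le_mul_of_nonneg_left h4 (Nat.cast_nonneg (α := ℝ) ν.W)
    have a5 : (512 * j : ℝ) * Y.card ≤ (512 * j : ℝ) * (ν.W * Y2.card) := by linarith
    exact_mod_cast le_of_mul_le_mul_left a5 (by positivity)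
  · refine DL.inf ((hS'.mono_set h1).mono_pred fun A hA η hη => hA η (h2 hη)) (DL.ker q ?_)
    have e : (fun A => q (Sf σ.lam phi A)) = Sf σ.lam (fun t s => q (phi t s)) := by
      funext A
      unfold Sf
      rw [map_sum]
    rw [e]
    exact h6

end Pool.Agent.P.MP_85fe51_lc.OD
end

-- part Pool.Agent.P.MP_85fe51_lc.OParD
section

set_option autoImplicit false

namespace Pool.Agent.P.MP_85fe51_lc.OD

open Finset
open scoped Classical

/-- the data from which the parameters are computed. -/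
structure Dat where
  p : ℕ
  s : ℕ
  n : ℕ
  L : ℕ
  c : ℕ
  j : ℕ
  E1 : ℕ
  k0 : ℕ
  y : ℕ
  θ : ℝ
  γ : ℝ
  w : ℝ

def parM (s : ℕ) : ℕ := 9 * s + 10

def parE (E1 : ℕ) : ℕ := 2 * E1 + 2

def parD (s E1 : ℕ) : ℕ := (parM s + 2) * (3 * parE E1 + 30)

def parA (s E1 k0 : ℕ) : ℕ := k0 + 2 * parM s + 12 + (parM s + 1) * E1

def parb (s E1 k0 : ℕ) : ℕ := parA s E1 k0 + k0 + 2 * parM s + 7 + (parM s + 1) * (parE E1 + 2)

def parB (s E1 k0 : ℕ) : ℕ := 9 * s + 8 + parb s E1 k0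

def parC (s E1 k0 : ℕ) : ℕ := k0 + (parM s + 1) * (parE E1 + 2)

def parX (s E1 k0 j : ℕ) : ℕ :=
  4 * parB s E1 k0 + 12 + k0 + (parM s + 1) * (parE E1 + 1) + j * k0

namespace Dat
variable (d : Dat)

def m : ℕ := parM d.s
def E : ℕ := parE d.E1
def b : ℕ := parb d.s d.E1 d.k0
def B : ℕ := parB d.s d.E1 d.k0
def c1 : ℕ := parC d.s d.E1 d.k0
def z : ℕ := 2 ^ d.y
def k : ℕ := d.k0 * d.y
def CH : ℕ := d.z ^ 6
def r : ℕ := d.z ^ 2
def M : ℕ := d.z ^ d.m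
def C' : ℕ := d.z
def g : ℕ := (d.B + d.j * d.k0 + 3) * d.y
def t : ℕ := (d.B + 1) * d.y + 1
def v : ℕ := 2 ^ d.k * (d.j * (d.k + 1) + d.s + 3) + 1
def n' : ℕ := 3 * d.p * (2 * d.B + 5) * d.y
def n0 : ℕ := d.z ^ (d.b + 7)
def n1 : ℕ := d.z ^ d.b
def W : ℕ := d.z ^ 9
def Ylo : ℕ := d.z ^ (d.b + 8)
noncomputable def τ : ℝ := 1 / (d.z : ℝ) ^ 3
noncomputable def ξ : ℝ := 1 / (d.z : ℝ) ^ 8
noncomputable def p' : ℝ := piK d.p d.k / ((4 * d.M : ℕ) : ℝ) ^ d.E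
noncomputable def pmin : ℝ := piK d.p d.k / ((4 * d.M : ℕ) : ℝ) ^ (d.E + 1)
noncomputable def ε : ℝ := d.pmin / d.z
noncomputable def ζ : ℝ := d.z
noncomputable def q : ℝ := 1 / ((4 * d.M : ℕ) : ℝ) ^ (d.E + 12)
noncomputable def β : ℝ := (1 / 2 : ℝ) ^ (d.j * (d.k + 1)) / (4 * d.s)
noncomputable def μ : ℝ :=
  d.n1 * d.pmin / (8 * (8 * d.CH * d.M ^ 2 : ℕ) * (4 * d.M : ℕ))

/-- `w` dominates all small quantities and `z` is large. -/
structure OK : Prop where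
  hp : 2 ≤ d.p
  hs : 1 ≤ d.s
  hc : 9 * d.s + 16 ≤ d.c
  hj : 1 ≤ d.j
  hk0 : 1 ≤ d.k0
  hy : d.c < d.y
  hθ0 : 0 ≤ d.θ
  hθ1 : d.θ < 1
  hγ0 : 0 ≤ d.γ
  hγ1 : d.γ < 1
  hD : (1 - 1 / (2 * d.p : ℝ)) ^ d.k0 ≤ (1 / 2) ^ parD d.s d.E1
  hn1 : d.z ^ d.B ≤ d.n
  hn2 : d.n ≤ d.z ^ (d.B + 1)
  hL : d.L ≤ d.z ^ (d.B + 1)
  w0 : 1000 ≤ d.w
  wp : (d.p : ℝ) ≤ d.w
  ws : (d.s : ℝ) ≤ d.w
  wj : (2 : ℝ) ^ d.j ≤ d.w
  wk : (d.k : ℝ) + 1 ≤ d.w
  wg : (d.g : ℝ) ≤ d.w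
  wt : (d.t : ℝ) ≤ d.w
  wn : (d.n' : ℝ) ≤ d.w
  wc : (10 : ℝ) ^ (d.c + 2) ≤ d.w
  wθ : 1 ≤ (1 - d.θ) * d.w
  wγ : 1 ≤ (1 - d.γ) * d.w
  wz : d.w ^ 8 ≤ d.z
  hexp : (d.z : ℝ) ^ parX d.s d.E1 d.k0 d.j ≤ Real.exp ((1 - d.θ) / 2 * d.z)

variable {d}

namespace OK

theorem opard_w1 (h : d.OK) : (1 : ℝ) ≤ d.w := le_trans (by norm_num) h.w0

theorem opard_zc : (d.z : ℝ) = 2 ^ d.y := by
  unfold Dat.z
  push_cast
  rfl

theorem opard_p2 (h : d.OK) : (2 : ℝ) ≤ d.p := by exact_mod_cast h.hp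

theorem wj' (h : d.OK) : (d.j : ℝ) ≤ d.w := by
  have h1 : d.j ≤ 2 ^ d.j := Nat.lt_two_pow_self.le
  have h2 : (d.j : ℝ) ≤ 2 ^ d.j := by exact_mod_cast h1
  exact h2.trans h.wj

theorem pow_w (h : d.OK) {i : ℕ} (hi : i ≤ 8) : d.w ^ i ≤ d.z :=
  (pow_le_pow_right₀ h.opard_w1 hi).trans h.wz

theorem z_ge (h : d.OK) : 1000 ^ 8 ≤ d.z := by
  have h1 : (1000 : ℝ) ^ 8 ≤ d.w ^ 8 := pow_le_pow_left₀ (by norm_num) h.w0 8
  have h2 : (1000 : ℝ) ^ 8 ≤ d.z := h1.trans h.wz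
  exact_mod_cast h2

theorem one_le_z (h : d.OK) : (1 : ℝ) ≤ d.z := by
  have h1 := h.pow_w (i := 0) (by norm_num)
  rwa [pow_zero] at h1

theorem opard_z0 (h : d.OK) : (0 : ℝ) < d.z := lt_of_lt_of_le one_pos h.one_le_z

theorem opard_w_le (h : d.OK) : d.w ≤ d.z := by
  have h1 := h.pow_w (i := 1) (by norm_num)
  rwa [pow_one] at h1

theorem opard_z1000 (h : d.OK) : (1000 : ℝ) ≤ d.z := h.w0.trans h.opard_w_le

theorem one_le_k (h : d.OK) : 1 ≤ d.k := by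
  have h1 : 1 ≤ d.y := by have := h.hy; omega
  unfold Dat.k
  exact Nat.one_le_iff_ne_zero.mpr (Nat.mul_ne_zero (by have := h.hk0; omega) (by omega))

theorem two_pow_k : 2 ^ d.k = d.z ^ d.k0 := by
  unfold Dat.k Dat.z
  rw [← pow_mul, mul_comm]

theorem opard_two_pow_k : (2 : ℝ) ^ d.k = (d.z : ℝ) ^ d.k0 := by
  exact_mod_cast (two_pow_k (d := d))

theorem B_eq : d.B + 2 = d.b + d.m := by
  unfold Dat.B Dat.b Dat.m parB
  have : parM d.s = 9 * d.s + 10 := rfl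
  omega

theorem opard_half (h : d.OK) : (1 / 2 : ℝ) ≤ 1 - 1 / (d.p : ℝ) := by
  have h1 : 1 / (d.p : ℝ) ≤ 1 / 2 := one_div_le_one_div_of_le (by norm_num) h.opard_p2
  linarith

theorem pi_pos (h : d.OK) : 0 < piK d.p d.k := by
  unfold piK
  exact pow_pos (lt_of_lt_of_le (by norm_num) h.opard_half) _

theorem pi_ge (h : d.OK) : 1 / (d.z : ℝ) ^ d.k0 ≤ piK d.p d.k := by
  unfold piK
  rw [← opard_two_pow_k, ← one_div_pow]
  exact pow_le_pow_left₀ (by norm_num) h.opard_half _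

theorem ratio_le (h : d.OK) :
    (1 - 1 / (2 * d.p : ℝ)) ^ d.k ≤ 1 / (d.z : ℝ) ^ parD d.s d.E1 := by
  have hp := h.opard_p2
  have h0 : (0 : ℝ) ≤ 1 - 1 / (2 * d.p : ℝ) := by
    have h1 : 1 / (2 * d.p : ℝ) ≤ 1 / 1 := one_div_le_one_div_of_le (by norm_num) (by linarith)
    linarith
  have h1 : ((1 - 1 / (2 * d.p : ℝ)) ^ d.k0) ^ d.y ≤ ((1 / 2 : ℝ) ^ parD d.s d.E1) ^ d.y :=
    pow_le_pow_left₀ (pow_nonneg h0 _) h.hD _
  unfold Dat.k
  rw [pow_mul]
  refine h1.trans (le_of_eq ?_)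
  rw [opard_zc, ← pow_mul, ← pow_mul, one_div_pow, mul_comm]

theorem pi_le (h : d.OK) : piK d.p d.k ≤ 1 / (d.z : ℝ) ^ parD d.s d.E1 := by
  refine le_trans ?_ h.ratio_le
  unfold piK
  have hp := h.opard_p2
  refine pow_le_pow_left₀ (le_trans (by norm_num) h.opard_half) ?_ _
  have h1 : 1 / (2 * d.p : ℝ) ≤ 1 / (d.p : ℝ) :=
    one_div_le_one_div_of_le (by linarith) (by linarith)
  linarith

theorem opard_M4 : ((4 * d.M : ℕ) : ℝ) = 4 * (d.z : ℝ) ^ d.m := by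
  unfold Dat.M
  push_cast
  rfl

theorem M4_ge (h : d.OK) : (d.z : ℝ) ^ d.m ≤ ((4 * d.M : ℕ) : ℝ) := by
  rw [opard_M4]
  have := pow_pos h.opard_z0 d.m
  linarith

theorem M4_le (h : d.OK) : ((4 * d.M : ℕ) : ℝ) ≤ (d.z : ℝ) ^ (d.m + 1) := by
  rw [opard_M4, pow_succ']
  exact mul_le_mul_of_nonneg_right (le_trans (by norm_num) h.opard_z1000)
    (pow_pos h.opard_z0 _).le

theorem opard_M4_one (h : d.OK) : (1 : ℝ) ≤ ((4 * d.M : ℕ) : ℝ) :=
  (one_le_pow₀ h.one_le_z).trans h.M4_ge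

theorem opard_M4_pos (h : d.OK) : (0 : ℝ) < ((4 * d.M : ℕ) : ℝ) :=
  lt_of_lt_of_le one_pos h.opard_M4_one

theorem pmin_pos (h : d.OK) : 0 < d.pmin :=
  div_pos h.pi_pos (pow_pos h.opard_M4_pos _)

theorem pmin_le (h : d.OK) : d.pmin ≤ 1 := by
  unfold Dat.pmin
  rw [div_le_one (pow_pos h.opard_M4_pos _)]
  refine h.pi_le.trans (le_trans ?_ (one_le_pow₀ h.opard_M4_one))
  rw [div_le_one (pow_pos h.opard_z0 _)]
  exact one_le_pow₀ h.one_le_z

theorem pmin_ge (h : d.OK) : 1 / (d.z : ℝ) ^ (d.k0 + (d.m + 1) * (d.E + 1)) ≤ d.pmin := by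
  unfold Dat.pmin
  have h1 : ((4 * d.M : ℕ) : ℝ) ^ (d.E + 1) ≤ (d.z : ℝ) ^ ((d.m + 1) * (d.E + 1)) := by
    rw [pow_mul]
    exact pow_le_pow_left₀ h.opard_M4_pos.le h.M4_le _
  rw [pow_add, ← div_div]
  exact div_le_div₀ h.pi_pos.le h.pi_ge (pow_pos h.opard_M4_pos _) h1

theorem opard_s1 (h : d.OK) : (1 : ℝ) ≤ d.s := by exact_mod_cast h.hs

theorem β_pos (h : d.OK) : 0 < d.β := by
  unfold Dat.β
  have := h.opard_s1
  positivity

theorem β_ge (h : d.OK) : 1 / (d.z : ℝ) ^ (d.j * d.k0 + 1) ≤ d.β := by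
  unfold Dat.β
  have hs := h.opard_s1
  have hw := h.w0
  have h1 : (2 : ℝ) ^ (d.j * (d.k + 1)) = (d.z : ℝ) ^ (d.j * d.k0) * 2 ^ d.j := by
    rw [mul_add, mul_one, pow_add, mul_comm d.j d.k, pow_mul, opard_two_pow_k, ← pow_mul,
      mul_comm d.k0 d.j]
  have h2 : (2 : ℝ) ^ d.j * (4 * d.s) ≤ d.z := by
    refine le_trans ?_ (h.pow_w (i := 3) (by norm_num))
    have h3 : (4 * d.s : ℝ) ≤ d.w * d.w :=
      mul_le_mul (by linarith) h.ws (by linarith) (by linarith)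
    calc (2 : ℝ) ^ d.j * (4 * d.s) ≤ d.w * (d.w * d.w) :=
          mul_le_mul h.wj h3 (by linarith) (by linarith)
      _ = d.w ^ 3 := by ring
  rw [one_div_pow, div_div, h1, pow_succ, mul_assoc]
  refine one_div_le_one_div_of_le ?_ ?_
  · have := pow_pos h.opard_z0 (d.j * d.k0)
    positivity
  · exact mul_le_mul_of_nonneg_left h2 (pow_pos h.opard_z0 _).le

theorem v_le (h : d.OK) : (d.v : ℝ) + 2 ≤ (d.z : ℝ) ^ (d.k0 + 1) := by
  have hw := h.w0
  have hv : (d.v : ℝ) = (d.z : ℝ) ^ d.k0 * (d.j * (d.k + 1) + d.s + 3) + 1 := by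
    unfold Dat.v
    push_cast
    rw [opard_two_pow_k]
  have h1 : (1 : ℝ) ≤ (d.z : ℝ) ^ d.k0 := one_le_pow₀ h.one_le_z
  have h2 : (d.j : ℝ) * (d.k + 1) ≤ d.w * d.w :=
    mul_le_mul h.wj' h.wk (by positivity) (by linarith)
  have h3 : d.w ^ 3 ≤ d.z := h.pow_w (by norm_num)
  have h4 : (d.j : ℝ) * (d.k + 1) + d.s + 6 ≤ d.z := by
    have h5 := h.ws
    have h6 : d.w * d.w * 1000 ≤ d.w * d.w * d.w :=
      mul_le_mul_of_nonneg_left hw (by positivity)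
    have h7 : d.w * 1000 ≤ d.w * d.w := mul_le_mul_of_nonneg_left hw (by linarith)
    have h8 : d.w ^ 3 = d.w * d.w * d.w := by ring
    linarith
  have h5 : (d.z : ℝ) ^ d.k0 * (d.j * (d.k + 1) + d.s + 6) ≤ (d.z : ℝ) ^ d.k0 * d.z :=
    mul_le_mul_of_nonneg_left h4 (by linarith)
  rw [hv, pow_succ]
  linarith

theorem Q_le (h : d.OK) : (d.p * (d.n + 1) : ℝ) ≤ (d.z : ℝ) ^ (d.B + 2) := by
  have hw := h.w0
  have h1 : (d.n : ℝ) ≤ (d.z : ℝ) ^ (d.B + 1) := by exact_mod_cast h.hn2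
  have h2 : (1 : ℝ) ≤ (d.z : ℝ) ^ (d.B + 1) := one_le_pow₀ h.one_le_z
  have h3 : d.w ^ 2 ≤ d.z := h.pow_w (by norm_num)
  have h4 : (d.p : ℝ) * 2 ≤ d.z := by
    have h5 : d.w * 1000 ≤ d.w * d.w := mul_le_mul_of_nonneg_left hw (by linarith)
    have h6 := h.wp
    have h7 : d.w ^ 2 = d.w * d.w := by ring
    linarith
  calc (d.p * (d.n + 1) : ℝ) ≤ d.p * (2 * (d.z : ℝ) ^ (d.B + 1)) :=
        mul_le_mul_of_nonneg_left (by linarith) (by positivity)
    _ = (d.p * 2) * (d.z : ℝ) ^ (d.B + 1) := by ring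
    _ ≤ d.z * (d.z : ℝ) ^ (d.B + 1) := mul_le_mul_of_nonneg_right h4 (by linarith)
    _ = (d.z : ℝ) ^ (d.B + 2) := by ring

theorem L_le (h : d.OK) : (d.L : ℝ) + 1 ≤ (d.z : ℝ) ^ (d.B + 2) := by
  have h1 : (d.L : ℝ) ≤ (d.z : ℝ) ^ (d.B + 1) := by exact_mod_cast h.hL
  have h2 : (1 : ℝ) ≤ (d.z : ℝ) ^ (d.B + 1) := one_le_pow₀ h.one_le_z
  have h3 : 2 * (d.z : ℝ) ^ (d.B + 1) ≤ d.z * (d.z : ℝ) ^ (d.B + 1) :=
    mul_le_mul_of_nonneg_right (le_trans (by norm_num) h.opard_z1000) (by linarith)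
  have h4 : (d.z : ℝ) ^ (d.B + 2) = d.z * (d.z : ℝ) ^ (d.B + 1) := by ring
  linarith

theorem exp_le (h : d.OK) :
    Real.exp (-(d.z : ℝ)) ≤ 1 / (d.z : ℝ) ^ parX d.s d.E1 d.k0 d.j := by
  rw [Real.exp_neg, ← one_div]
  refine one_div_le_one_div_of_le (pow_pos h.opard_z0 _) (h.hexp.trans ?_)
  refine Real.exp_le_exp.mpr ?_
  have h1 := h.hθ0
  have h2 : (1 - d.θ) / 2 * d.z ≤ 1 * (d.z : ℝ) :=
    mul_le_mul_of_nonneg_right (by linarith) h.opard_z0.le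
  linarith

theorem μ_ge (h : d.OK) : (d.z : ℝ) ^ parA d.s d.E1 d.k0 ≤ d.μ := by
  have hz := h.opard_z0
  have hb : d.b = parA d.s d.E1 d.k0 + (1 + (6 + d.m * 2) + (d.m + 1)) +
      (d.k0 + (d.m + 1) * (d.E + 1)) := by
    unfold Dat.b Dat.m Dat.E parb
    ring
  have hn : (d.n1 : ℝ) = (d.z : ℝ) ^ d.b := by
    unfold Dat.n1
    push_cast
    rfl
  have hK : ((8 * d.CH * d.M ^ 2 : ℕ) : ℝ) = 8 * (d.z : ℝ) ^ (6 + d.m * 2) := by
    unfold Dat.CH Dat.M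
    push_cast
    rw [pow_add, pow_mul]
    ring
  have hden : 8 * ((8 * d.CH * d.M ^ 2 : ℕ) : ℝ) * ((4 * d.M : ℕ) : ℝ) ≤
      (d.z : ℝ) ^ (1 + (6 + d.m * 2) + (d.m + 1)) := by
    rw [hK, pow_add _ (1 + (6 + d.m * 2)), pow_add _ 1, pow_one]
    refine mul_le_mul ?_ h.M4_le h.opard_M4_pos.le (by positivity)
    have h1 : 64 * (d.z : ℝ) ^ (6 + d.m * 2) ≤ d.z * (d.z : ℝ) ^ (6 + d.m * 2) :=
      mul_le_mul_of_nonneg_right (le_trans (by norm_num) h.opard_z1000) (by positivity)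
    linarith
  have hpos : 0 < 8 * ((8 * d.CH * d.M ^ 2 : ℕ) : ℝ) * ((4 * d.M : ℕ) : ℝ) := by
    rw [hK]
    have := h.opard_M4_pos
    positivity
  unfold Dat.μ
  rw [le_div_iff₀ hpos, hn]
  calc (d.z : ℝ) ^ parA d.s d.E1 d.k0 *
        (8 * ((8 * d.CH * d.M ^ 2 : ℕ) : ℝ) * ((4 * d.M : ℕ) : ℝ))
      ≤ (d.z : ℝ) ^ parA d.s d.E1 d.k0 * (d.z : ℝ) ^ (1 + (6 + d.m * 2) + (d.m + 1)) :=
        mul_le_mul_of_nonneg_left hden (by positivity)
    _ = (d.z : ℝ) ^ d.b * (1 / (d.z : ℝ) ^ (d.k0 + (d.m + 1) * (d.E + 1))) := by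
        rw [hb, pow_add _ (parA d.s d.E1 d.k0 + (1 + (6 + d.m * 2) + (d.m + 1))),
          pow_add _ (parA d.s d.E1 d.k0), mul_one_div, mul_div_assoc,
          div_self (pow_pos hz _).ne', mul_one]
    _ ≤ (d.z : ℝ) ^ d.b * d.pmin := mul_le_mul_of_nonneg_left h.pmin_ge (by positivity)

end OK

end Dat

end Pool.Agent.P.MP_85fe51_lc.OD
end

-- part Pool.Agent.P.MP_85fe51_lc.OParA
section

set_option autoImplicit false

namespace Pool.Agent.P.MP_85fe51_lc.OD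

namespace Dat.OK
variable {d : Dat}

theorem opa_z (h : d.OK) : 1000 ≤ d.z := le_trans (by norm_num) h.z_ge

theorem opa_Z (h : d.OK) : (1000 : ℝ) ≤ d.z := by exact_mod_cast h.opa_z

theorem opa_y (h : d.OK) : 1 ≤ d.y := by
  have := h.hy
  omega

theorem opa_w (h : d.OK) : (0 : ℝ) < d.w := lt_of_lt_of_le (by norm_num) h.w0

theorem opa_two (h : d.OK) {a x : ℝ} (ha : a ≤ 1000) (hx0 : 0 ≤ x) (hx : x ≤ d.w) :
    a * x ≤ d.z := by
  have h1 := h.pow_w (i := 2) (by norm_num)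
  have h2 := h.w0
  nlinarith

theorem opa_three (h : d.OK) {a x x' : ℝ} (ha : a ≤ 1000) (hx0 : 0 ≤ x) (hx : x ≤ d.w)
    (hx0' : 0 ≤ x') (hx' : x' ≤ d.w) : a * x * x' ≤ d.w ^ 3 := by
  have h2 := h.w0
  have h3 := h.opa_w
  calc a * x * x' ≤ d.w * x * x' := by gcongr; linarith
    _ ≤ d.w * d.w * d.w := by gcongr
    _ = d.w ^ 3 := by ring

theorem opa_key (h : d.OK) {a : ℝ} {i : ℕ} (hi : i + 1 ≤ 8) (ha0 : 0 ≤ a) (ha : a ≤ d.w ^ i) :
    a ≤ (1 - d.θ) * d.z := by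
  have h1 := h.pow_w hi
  have h2 := h.wθ
  have h3 := h.opa_w
  have h4 : 0 ≤ 1 - d.θ := by linarith [h.hθ1]
  calc a = a * 1 := (mul_one a).symm
    _ ≤ d.w ^ i * ((1 - d.θ) * d.w) := by gcongr
    _ = (1 - d.θ) * d.w ^ (i + 1) := by ring
    _ ≤ (1 - d.θ) * d.z := by gcongr

theorem opa_k (h : d.OK) : (d.k : ℝ) ≤ d.w := by linarith [h.wk]

theorem opa_k0 (h : d.OK) : (0 : ℝ) < d.k := by exact_mod_cast h.one_le_k

theorem opa_j0 (h : d.OK) : (0 : ℝ) < d.j := by exact_mod_cast h.hj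

theorem opa_L (h : d.OK) : d.L * d.z ≤ d.n1 * d.M := by
  calc d.L * d.z ≤ d.z ^ (d.B + 1) * d.z := Nat.mul_le_mul_right _ h.hL
    _ = d.z ^ (d.B + 2) := by ring
    _ = d.n1 * d.M := by rw [B_eq, pow_add, Dat.n1, Dat.M]

theorem opa_p (h : d.OK) : 124 * d.p ≤ d.z := by
  have := h.opa_two (a := 124) (by norm_num) (Nat.cast_nonneg d.p) h.wp
  exact_mod_cast this

theorem opa_s (h : d.OK) : 48 * d.s ≤ d.z := by
  have := h.opa_two (a := 48) (by norm_num) (Nat.cast_nonneg d.s) h.ws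
  exact_mod_cast this

theorem opa_M4 (h : d.OK) : (1 : ℝ) ≤ ((4 * d.M : ℕ) : ℝ) :=
  le_trans (one_le_pow₀ h.one_le_z) h.M4_ge

theorem opa_xB (h : d.OK) : 124 * d.p * d.CH * d.M * d.L ≤ d.CH * d.M ^ 2 * d.n1 := by
  calc 124 * d.p * d.CH * d.M * d.L ≤ d.z * d.CH * d.M * d.L := by gcongr; exact h.opa_p
    _ = d.CH * d.M * (d.L * d.z) := by ring
    _ ≤ d.CH * d.M * (d.n1 * d.M) := Nat.mul_le_mul_left _ h.opa_L
    _ = _ := by ring

theorem f_hk (h : d.OK) :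
    d.c < d.k := by
  have := Nat.mul_le_mul_right d.y h.hk0
  have h2 := h.hy
  unfold Dat.k
  omega

theorem f_hr (h : d.OK) :
    8 * d.r < d.CH := by
  have hz := h.opa_z
  have h1 : 0 < d.z ^ 2 := by positivity
  have h2 : d.z ≤ d.z ^ 4 := Nat.le_self_pow (by norm_num) _
  unfold Dat.r Dat.CH
  calc 8 * d.z ^ 2 < d.z ^ 4 * d.z ^ 2 := Nat.mul_lt_mul_of_pos_right (by omega) h1
    _ = d.z ^ 6 := by ring

theorem f_hM (h : d.OK) :
    1 ≤ d.M :=
  Nat.one_le_pow _ _ (by have := h.opa_z; omega)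

theorem f_hC (h : d.OK) :
    1 ≤ d.C' := by
  have := h.opa_z
  unfold Dat.C'
  omega

theorem f_hg1 (h : d.OK) :
    1 ≤ d.g :=
  Nat.mul_pos (Nat.succ_pos _) h.opa_y

theorem f_ht1 (h : d.OK) :
    1 ≤ d.t := by
  have _ := h.hp
  unfold Dat.t
  omega

theorem f_ht (h : d.OK) :
    d.L < 2 ^ d.t := by
  refine lt_of_le_of_lt h.hL ?_
  unfold Dat.z Dat.t
  rw [← pow_mul, mul_comm d.y]
  exact Nat.pow_lt_pow_right (by norm_num) (Nat.lt_succ_self _)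

theorem f_hn'1 (h : d.OK) :
    1 ≤ d.n' := by
  have h1 := h.hp
  exact Nat.mul_pos (Nat.mul_pos (Nat.mul_pos (by norm_num) (by omega)) (Nat.succ_pos _)) h.opa_y

theorem f_hn1 (h : d.OK) :
    1 ≤ d.n1 :=
  Nat.one_le_pow _ _ (by have := h.opa_z; omega)

theorem f_hW1 (h : d.OK) :
    1 ≤ d.W :=
  Nat.one_le_pow _ _ (by have := h.opa_z; omega)

theorem f_hτ0 (h : d.OK) :
    0 ≤ d.τ := by
  have := h.opa_Z
  unfold Dat.τ
  positivity

theorem f_hτ1 (h : d.OK) :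
    d.τ ≤ 1 / 2 := by
  have hz := h.opa_Z
  unfold Dat.τ
  refine one_div_le_one_div_of_le (by norm_num) ?_
  exact le_trans (by linarith) (le_self_pow₀ h.one_le_z (by norm_num))

theorem f_hε0 (h : d.OK) :
    0 < d.ε :=
  div_pos h.pmin_pos (by linarith [h.opa_Z])

theorem f_hεk (h : d.OK) :
    8 * (d.p : ℝ) ^ 2 * (d.k + 1) * d.ε ≤ 1 := by
  have hz : (0 : ℝ) < d.z := by linarith [h.opa_Z]
  have h1 := h.opa_three (a := 8) (by norm_num) (Nat.cast_nonneg d.p) h.wp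
    (Nat.cast_nonneg d.p) h.wp
  have h2 := h.pow_w (i := 4) (by norm_num)
  have h3 := h.opa_w
  have h4 : 8 * (d.p : ℝ) ^ 2 * (d.k + 1) ≤ d.z := by
    calc 8 * (d.p : ℝ) ^ 2 * (d.k + 1) = 8 * d.p * d.p * (d.k + 1) := by ring
      _ ≤ d.w ^ 3 * d.w := mul_le_mul h1 h.wk (by positivity) (by positivity)
      _ = d.w ^ 4 := by ring
      _ ≤ d.z := h2
  have h5 := h.pmin_pos
  unfold Dat.ε
  rw [← mul_div_assoc, div_le_one hz]
  calc _ ≤ (d.z : ℝ) * 1 := mul_le_mul h4 h.pmin_le h5.le hz.le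
    _ = _ := mul_one _

theorem f_hq0 (h : d.OK) :
    0 < d.q := by
  have := h.opa_M4
  unfold Dat.q
  positivity

theorem f_hq1 (h : d.OK) :
    d.q ≤ 1 := by
  have h1 := h.opa_M4
  unfold Dat.q
  rw [div_le_one (by positivity)]
  exact one_le_pow₀ h1

theorem f_hξ0 (h : d.OK) :
    0 < d.ξ := by
  have := h.opa_Z
  unfold Dat.ξ
  positivity

theorem f_hξ1 (h : d.OK) :
    d.ξ ≤ 1 / 2 := by
  have hz := h.opa_Z
  unfold Dat.ξ
  refine one_div_le_one_div_of_le (by norm_num) ?_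
  exact le_trans (by linarith) (le_self_pow₀ h.one_le_z (by norm_num))

theorem f_hp0 (h : d.OK) :
    0 < d.p' :=
  div_pos h.pi_pos (pow_pos (by linarith [h.opa_M4]) _)

theorem f_xA (h : d.OK) :
    4 * (31 * d.p * d.CH * d.M * d.L + 4 * d.CH * d.M ^ 2 * (3 * d.s * d.n1)) ≤ d.M ^ 2 * d.Ylo := by
  have hz := h.opa_z
  have h1 := h.opa_xB
  have h2 : 48 * d.s * (d.CH * d.M ^ 2 * d.n1) ≤ d.z * (d.CH * d.M ^ 2 * d.n1) :=
    Nat.mul_le_mul_right _ h.opa_s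
  have h3 : d.M ^ 2 * d.Ylo = d.z * d.z * (d.CH * d.M ^ 2 * d.n1) := by
    unfold Dat.Ylo Dat.CH Dat.n1
    ring
  have h4 : (1 + d.z) * (d.CH * d.M ^ 2 * d.n1) ≤ d.z * d.z * (d.CH * d.M ^ 2 * d.n1) :=
    Nat.mul_le_mul_right _ (by nlinarith)
  rw [h3]
  calc _ = 124 * d.p * d.CH * d.M * d.L + 48 * d.s * (d.CH * d.M ^ 2 * d.n1) := by ring
    _ ≤ d.CH * d.M ^ 2 * d.n1 + d.z * (d.CH * d.M ^ 2 * d.n1) := Nat.add_le_add h1 h2
    _ = (1 + d.z) * (d.CH * d.M ^ 2 * d.n1) := by ring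
    _ ≤ _ := h4

theorem f_xB (h : d.OK) :
    31 * d.p * d.CH * d.M * d.L ≤ 4 * d.CH * d.M ^ 2 * d.n1 := by
  calc 31 * d.p * d.CH * d.M * d.L ≤ 124 * d.p * d.CH * d.M * d.L := by gcongr; norm_num
    _ ≤ d.CH * d.M ^ 2 * d.n1 := h.opa_xB
    _ = 1 * d.CH * d.M ^ 2 * d.n1 := by ring
    _ ≤ _ := by gcongr; norm_num

theorem f_xW (h : d.OK) :
    d.W ^ d.s * d.Ylo ≤ d.n := by
  refine le_trans (le_of_eq ?_) h.hn1
  unfold Dat.W Dat.Ylo Dat.B Dat.b parB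
  ring

theorem f_xW2 (h : d.OK) :
    512 * (d.j : ℝ) ≤ 3 * d.W * d.ξ := by
  have hz : (0 : ℝ) < d.z := by linarith [h.opa_Z]
  have h1 := h.opa_two (a := 512) (by norm_num) (Nat.cast_nonneg d.j) h.wj'
  have h2 : 3 * (d.W : ℝ) * d.ξ = 3 * d.z := by
    unfold Dat.W Dat.ξ
    push_cast
    field_simp
  rw [h2]
  linarith

theorem f_e1 (h : d.OK) :
    64 * d.j * d.n0 ≤ 3 * d.Ylo := by
  have h1 : 64 * d.j ≤ d.z := by
    have := h.opa_two (a := 64) (by norm_num) (Nat.cast_nonneg d.j) h.wj'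
    exact_mod_cast this
  unfold Dat.n0 Dat.Ylo
  calc 64 * d.j * d.z ^ (d.b + 7) ≤ d.z * d.z ^ (d.b + 7) := Nat.mul_le_mul_right _ h1
    _ = 1 * d.z ^ (d.b + 8) := by ring
    _ ≤ _ := Nat.mul_le_mul_right _ (by norm_num)

theorem f_e2 (h : d.OK) :
    4 * d.s * d.β ≤ (1 / 2 : ℝ) ^ (d.j * (d.k + 1)) := by
  have h1 : (0 : ℝ) < d.s := by exact_mod_cast h.hs
  unfold Dat.β
  rw [mul_div_cancel₀ _ (by positivity)]

theorem f_z1 (h : d.OK) :
    d.ζ ≤ d.τ / (4 * d.j * d.k) * (1 - d.θ) * d.CH / 2 := by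
  have hz : (0 : ℝ) < d.z := by linarith [h.opa_Z]
  have hz1 := h.one_le_z
  have hj := h.opa_j0
  have hk := h.opa_k0
  have hθ : 0 ≤ 1 - d.θ := by linarith [h.hθ1]
  have h1 := h.opa_key (i := 3) (by norm_num) (by positivity)
    (h.opa_three (a := 8) (by norm_num) hj.le h.wj' hk.le h.opa_k)
  have h2 : d.τ / (4 * d.j * d.k) * (1 - d.θ) * d.CH / 2 =
      (1 - d.θ) * d.z * d.z * d.z / (8 * d.j * d.k) := by
    unfold Dat.τ Dat.CH
    push_cast
    field_simp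
    ring
  rw [h2, le_div_iff₀ (by positivity)]
  unfold Dat.ζ
  calc (d.z : ℝ) * (8 * d.j * d.k) = 8 * d.j * d.k * 1 * d.z := by ring
    _ ≤ _ := by gcongr

theorem f_z2 (h : d.OK) :
    d.ζ ≤ 1 / (4 * d.j * d.k) * (1 - d.θ) * d.r := by
  have hz : (0 : ℝ) < d.z := by linarith [h.opa_Z]
  have hz1 := h.one_le_z
  have hj := h.opa_j0
  have hk := h.opa_k0
  have hθ : 0 ≤ 1 - d.θ := by linarith [h.hθ1]
  have h1 := h.opa_key (i := 3) (by norm_num) (by positivity)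
    (h.opa_three (a := 4) (by norm_num) hj.le h.wj' hk.le h.opa_k)
  have h2 : 1 / (4 * d.j * d.k) * (1 - d.θ) * (d.r : ℝ) =
      (1 - d.θ) * d.z * d.z / (4 * d.j * d.k) := by
    unfold Dat.r
    push_cast
    field_simp
  rw [h2, le_div_iff₀ (by positivity)]
  unfold Dat.ζ
  calc (d.z : ℝ) * (4 * d.j * d.k) = 4 * d.j * d.k * d.z := by ring
    _ ≤ _ := by gcongr

theorem f_z3 (h : d.OK) :
    d.ζ ≤ 1 / (4 * d.j * d.k) * (1 - d.θ) * d.CH / (4 * d.k * d.g : ℕ) := by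
  have hz : (0 : ℝ) < d.z := by linarith [h.opa_Z]
  have hz1 := h.one_le_z
  have hj := h.opa_j0
  have hk := h.opa_k0
  have hθ : 0 ≤ 1 - d.θ := by linarith [h.hθ1]
  have hg : (0 : ℝ) < d.g := by exact_mod_cast h.f_hg1
  have hw := h.opa_w
  have h0 := h.opa_three (a := 16) (by norm_num) hj.le h.wj' hk.le h.opa_k
  have h0' : 16 * (d.j : ℝ) * d.k * d.k * d.g ≤ d.w ^ 5 := by
    have h3 := h.opa_k
    have h4 := h.wg
    calc 16 * (d.j : ℝ) * d.k * d.k * d.g ≤ d.w ^ 3 * d.w * d.w := by gcongr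
      _ = _ := by ring
  have h1 := h.opa_key (i := 5) (by norm_num) (by positivity) h0'
  have h2 : 1 / (4 * d.j * d.k) * (1 - d.θ) * (d.CH : ℝ) / (4 * d.k * d.g : ℕ) =
      (1 - d.θ) * d.z * d.z ^ 4 * d.z / (16 * d.j * d.k * d.k * d.g) := by
    unfold Dat.CH
    push_cast
    field_simp
    ring
  have h5 : (1 : ℝ) ≤ (d.z : ℝ) ^ 4 := one_le_pow₀ hz1
  rw [h2, le_div_iff₀ (by positivity)]
  unfold Dat.ζ
  calc (d.z : ℝ) * (16 * d.j * d.k * d.k * d.g) = 16 * d.j * d.k * d.k * d.g * 1 * d.z := by ring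
    _ ≤ _ := by gcongr

theorem f_z4 (h : d.OK) :
    d.ζ ≤ d.τ / (4 * d.j * d.k) / (8 * d.C') * d.CH := by
  have hz : (0 : ℝ) < d.z := by linarith [h.opa_Z]
  have hz1 := h.one_le_z
  have hj := h.opa_j0
  have hk := h.opa_k0
  have hθ : 0 ≤ 1 - d.θ := by linarith [h.hθ1]
  have h1 := (h.opa_three (a := 32) (by norm_num) hj.le h.wj' hk.le h.opa_k).trans
    (h.pow_w (i := 3) (by norm_num))
  have h2 : d.τ / (4 * d.j * d.k) / (8 * d.C') * d.CH = d.z * d.z / (32 * d.j * d.k) := by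
    unfold Dat.τ Dat.CH Dat.C'
    push_cast
    field_simp
    ring
  rw [h2, le_div_iff₀ (by positivity)]
  unfold Dat.ζ
  gcongr

theorem f_z5 (h : d.OK) :
    d.ζ ≤ 1 / (32 * d.j * d.n') * (1 - d.θ) * d.r := by
  have hz : (0 : ℝ) < d.z := by linarith [h.opa_Z]
  have hz1 := h.one_le_z
  have hj := h.opa_j0
  have hk := h.opa_k0
  have hθ : 0 ≤ 1 - d.θ := by linarith [h.hθ1]
  have hn : (0 : ℝ) < d.n' := by exact_mod_cast h.f_hn'1
  have h1 := h.opa_key (i := 3) (by norm_num) (by positivity)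
    (h.opa_three (a := 32) (by norm_num) hj.le h.wj' hn.le h.wn)
  have h2 : 1 / (32 * d.j * d.n') * (1 - d.θ) * (d.r : ℝ) =
      (1 - d.θ) * d.z * d.z / (32 * d.j * d.n') := by
    unfold Dat.r
    push_cast
    field_simp
  rw [h2, le_div_iff₀ (by positivity)]
  unfold Dat.ζ
  calc (d.z : ℝ) * (32 * d.j * d.n') = 32 * d.j * d.n' * d.z := by ring
    _ ≤ _ := by gcongr

theorem f_hμ (h : d.OK) :
    8 * (8 * d.CH * d.M ^ 2 : ℕ) * (4 * d.M : ℕ) * d.μ ≤ d.n1 * d.pmin := by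
  have h1 := h.opa_M4
  have hz := h.opa_z
  have h2 : (0 : ℝ) < ((8 * d.CH * d.M ^ 2 : ℕ) : ℝ) := by
    have h3 := h.f_hM
    have : 0 < 8 * d.CH * d.M ^ 2 := by
      unfold Dat.CH
      positivity
    exact_mod_cast this
  unfold Dat.μ
  rw [mul_div_cancel₀ _ (by positivity)]

theorem f_fm (h : d.OK) :
    8 * d.L * d.pmin ≤ d.p' * d.n1 := by
  have h1 := h.opa_M4
  have hz := h.opa_z
  have h2 : 8 * d.L ≤ d.n1 * (4 * d.M) := by
    have h3 := h.opa_L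
    have h4 : d.L * 2 ≤ d.L * d.z := Nat.mul_le_mul_left _ (by omega)
    nlinarith
  have h3 : 8 * (d.L : ℝ) ≤ d.n1 * ((4 * d.M : ℕ) : ℝ) := by exact_mod_cast h2
  have h4 : d.p' = d.pmin * ((4 * d.M : ℕ) : ℝ) := by
    unfold Dat.p' Dat.pmin
    rw [pow_succ]
    field_simp
  have h5 := h.pmin_pos
  rw [h4]
  calc 8 * (d.L : ℝ) * d.pmin ≤ d.n1 * ((4 * d.M : ℕ) : ℝ) * d.pmin := by gcongr
    _ = _ := by ring

theorem f_fY (h : d.OK) :
    384 * (d.j : ℝ) ≤ d.ξ * d.Ylo := by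
  have hz : (0 : ℝ) < d.z := by linarith [h.opa_Z]
  have h1 := h.opa_two (a := 384) (by norm_num) (Nat.cast_nonneg d.j) h.wj'
  have h2 : d.ξ * (d.Ylo : ℝ) = (d.z : ℝ) ^ d.b := by
    unfold Dat.Ylo Dat.ξ
    push_cast
    field_simp
    ring
  have h3 : d.b ≠ 0 := by
    unfold Dat.b parb
    omega
  rw [h2]
  exact h1.trans (le_self_pow₀ h.one_le_z h3)

end Dat.OK

end Pool.Agent.P.MP_85fe51_lc.OD
end

-- part Pool.Agent.P.MP_85fe51_lc.OParB
section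

set_option autoImplicit false

namespace Pool.Agent.P.MP_85fe51_lc.OD

namespace Dat.OK
variable {d : Dat}

theorem oparb_z_pos (h : d.OK) : (0 : ℝ) < d.z := lt_of_lt_of_le one_pos h.one_le_z

theorem oparb_z_big (h : d.OK) : (1000 : ℝ) ≤ d.z := by
  have h1 : 1000 ≤ d.z := le_trans (by norm_num) h.z_ge
  exact_mod_cast h1

theorem oparb_w_pos (h : d.OK) : (0 : ℝ) < d.w := lt_of_lt_of_le (by norm_num) h.w0

theorem oparb_exp (h : d.OK) {a : ℝ} {N K : ℕ} (ha : a ≤ (d.z : ℝ) ^ N)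
    (hNK : N + K ≤ parX d.s d.E1 d.k0 d.j) : a * Real.exp (-(d.z : ℝ)) ≤ 1 / (d.z : ℝ) ^ K := by
  have hz := h.oparb_z_pos
  have h1 : a * Real.exp (-(d.z : ℝ)) ≤
      (d.z : ℝ) ^ N * (1 / (d.z : ℝ) ^ parX d.s d.E1 d.k0 d.j) :=
    mul_le_mul ha h.exp_le (Real.exp_pos _).le (by positivity)
  refine h1.trans ?_
  rw [mul_one_div, div_le_div_iff₀ (by positivity) (by positivity), one_mul, ← pow_add]
  exact pow_le_pow_right₀ h.one_le_z hNK

theorem oparb_X : parX d.s d.E1 d.k0 d.j =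
    4 * d.B + 12 + d.k0 + (d.m + 1) * (d.E + 1) + d.j * d.k0 := rfl

theorem oparb_succ (h : d.OK) {a : ℝ} (ha0 : 0 < a) (ha : a ≤ 1000) (K : ℕ) :
    1 / (d.z : ℝ) ^ (K + 1) ≤ 1 / (d.z : ℝ) ^ K / a := by
  have hz := h.oparb_z_pos
  rw [div_div, pow_succ]
  refine one_div_le_one_div_of_le (by positivity) ?_
  exact mul_le_mul_of_nonneg_left (ha.trans h.oparb_z_big) (by positivity)

theorem oparb_Q2 (h : d.OK) : (d.p * (d.n + 1) : ℝ) ^ 2 ≤ (d.z : ℝ) ^ (2 * d.B + 4) := by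
  have h1 := pow_le_pow_left₀ (by positivity) h.Q_le 2
  rwa [← pow_mul, show (d.B + 2) * 2 = 2 * d.B + 4 by ring] at h1

theorem oparb_L2 (h : d.OK) : (d.L + 1 : ℝ) ^ 2 ≤ (d.z : ℝ) ^ (2 * d.B + 4) := by
  have h1 := pow_le_pow_left₀ (by positivity) h.L_le 2
  rwa [← pow_mul, show (d.B + 2) * 2 = 2 * d.B + 4 by ring] at h1

theorem oparb_4Q2 (h : d.OK) : 4 * (d.p * (d.n + 1) : ℝ) ^ 2 ≤ (d.z : ℝ) ^ (2 * d.B + 5) := by
  have h1 := h.oparb_Q2
  have h2 := h.oparb_z_big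
  rw [show 2 * d.B + 5 = (2 * d.B + 4) + 1 by ring, pow_succ (d.z : ℝ), mul_comm]
  exact mul_le_mul h1 (by linarith) (by norm_num) (by positivity)

theorem oparb_L (h : d.OK) : (d.L : ℝ) ≤ (d.z : ℝ) ^ (d.B + 1) := by exact_mod_cast h.hL

theorem oparb_eps (h : d.OK) :
    1 / (d.z : ℝ) ^ (d.k0 + (d.m + 1) * (d.E + 1) + 1) ≤ d.ε := by
  have hz := h.oparb_z_pos
  unfold Dat.ε
  rw [pow_succ, ← div_div]
  exact div_le_div_of_nonneg_right h.pmin_ge hz.le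

theorem oparb_third (h : d.OK) :
    (d.p : ℝ) ^ ((3 * d.s + 1) * d.n1) / 2 ^ d.n0 ≤ Real.exp (-(d.z : ℝ)) := by
  have hw := h.oparb_w_pos
  have hw0 := h.w0
  have h1 : d.p * (3 * d.s + 1) ≤ d.z := by
    have h2 : (d.p : ℝ) * (3 * d.s + 1) ≤ d.w * (d.w * d.w) := by
      refine mul_le_mul h.wp ?_ (by positivity) hw.le
      have h3 := h.ws
      nlinarith
    have h4 := h.pow_w (i := 3) (by norm_num)
    have h5 : (d.p : ℝ) * (3 * d.s + 1) ≤ d.z := by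
      refine h2.trans (le_trans (le_of_eq ?_) h4)
      ring
    exact_mod_cast h5
  have hz3 : 3 ≤ d.z := le_trans (by norm_num) h.z_ge
  have h6 : d.p * ((3 * d.s + 1) * d.n1) + 2 * d.z ≤ d.n0 := by
    unfold Dat.n0 Dat.n1
    have h7 : 1 ≤ d.z ^ d.b := Nat.one_le_pow _ _ (by omega)
    have h8 : d.p * ((3 * d.s + 1) * d.z ^ d.b) ≤ d.z * d.z ^ d.b := by
      rw [← mul_assoc]
      exact Nat.mul_le_mul_right _ h1
    have h9 : 2 * d.z ≤ 2 * (d.z * d.z ^ d.b) := Nat.mul_le_mul_left _ (Nat.le_mul_of_pos_right _ h7)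
    have h10 : 3 * (d.z * d.z ^ d.b) ≤ d.z * (d.z * d.z ^ d.b) := Nat.mul_le_mul_right _ hz3
    have h11 : d.z * (d.z * d.z ^ d.b) ≤ d.z ^ (d.b + 7) := by
      rw [show d.z * (d.z * d.z ^ d.b) = d.z ^ (d.b + 2) by ring]
      exact Nat.pow_le_pow_right (by omega) (by omega)
    omega
  have h12 : d.p ^ ((3 * d.s + 1) * d.n1) * 4 ^ d.z ≤ 2 ^ d.n0 := by
    have h13 : d.p ^ ((3 * d.s + 1) * d.n1) ≤ (2 ^ d.p) ^ ((3 * d.s + 1) * d.n1) :=
      Nat.pow_le_pow_left Nat.lt_two_pow_self.le _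
    refine (Nat.mul_le_mul_right _ h13).trans ?_
    rw [← pow_mul, show (4 : ℕ) = 2 ^ 2 by norm_num, ← pow_mul, ← pow_add]
    exact Nat.pow_le_pow_right (by norm_num) h6
  have h14 : (d.p : ℝ) ^ ((3 * d.s + 1) * d.n1) * 4 ^ d.z ≤ 2 ^ d.n0 := by exact_mod_cast h12
  have h15 : Real.exp (d.z : ℝ) ≤ 4 ^ d.z := by
    rw [← Real.exp_one_pow]
    refine pow_le_pow_left₀ (Real.exp_pos _).le ?_ _
    have := Real.exp_one_lt_d9
    linarith
  rw [Real.exp_neg, inv_eq_one_div, div_le_div_iff₀ (by positivity) (Real.exp_pos _), one_mul]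
  exact (mul_le_mul_of_nonneg_left h15 (by positivity)).trans h14

theorem f_e3 (h : d.OK) :
    4 * (d.p * (d.n + 1) : ℝ) ^ 2 * Real.exp (-d.ζ) + Real.exp (-(d.n0 : ℝ)) +
    2 * (d.p : ℝ) ^ ((3 * d.s + 1) * d.n1) / 2 ^ d.n0 ≤ 2 * d.β := by
  have hz := h.oparb_z_big
  have h1 : 4 * (d.p * (d.n + 1) : ℝ) ^ 2 * Real.exp (-d.ζ) ≤
      1 / (d.z : ℝ) ^ (d.j * d.k0 + 1 + 1) :=
    h.oparb_exp h.oparb_4Q2 (by rw [oparb_X]; omega)
  have h2 : 2 * Real.exp (-(d.z : ℝ)) ≤ 1 / (d.z : ℝ) ^ (d.j * d.k0 + 1 + 1) :=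
    h.oparb_exp (N := 1) (by rw [pow_one]; linarith) (by rw [oparb_X]; omega)
  have h3 : Real.exp (-(d.n0 : ℝ)) ≤ Real.exp (-(d.z : ℝ)) := by
    refine Real.exp_le_exp.2 (neg_le_neg ?_)
    have h4 : d.z ≤ d.n0 := Nat.le_self_pow (by omega) _
    exact_mod_cast h4
  have h5 := h.oparb_third
  have h6 := h.oparb_succ (a := 2) (by norm_num) (by norm_num) (d.j * d.k0 + 1)
  have h7 := h.β_ge
  have h8 := Real.exp_pos (-(d.z : ℝ))
  rw [mul_div_assoc]
  linarith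

theorem f_tc (h : d.OK) :
    (4 * d.M : ℕ) * (d.r * d.τ) ^ (d.c1 + 1) ≤ d.pmin / 2 := by
  have hz := h.oparb_z_pos
  have h1 : (d.r : ℝ) * d.τ = 1 / d.z := by
    unfold Dat.r Dat.τ
    push_cast
    field_simp
  have h2 : d.c1 + 1 = (d.k0 + (d.m + 1) * (d.E + 1) + 1) + (d.m + 1) := by
    show d.k0 + (d.m + 1) * (d.E + 2) + 1 = _
    ring
  have h3 := h.oparb_succ (a := 2) (by norm_num) (by norm_num) (d.k0 + (d.m + 1) * (d.E + 1))
  have h4 := h.pmin_ge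
  have h5 : ((4 * d.M : ℕ) : ℝ) * (1 / (d.z : ℝ)) ^ (d.c1 + 1) ≤
      1 / (d.z : ℝ) ^ (d.k0 + (d.m + 1) * (d.E + 1) + 1) := by
    refine (mul_le_mul_of_nonneg_right h.M4_le (by positivity)).trans (le_of_eq ?_)
    rw [h2, one_div_pow, pow_add (d.z : ℝ) _ (d.m + 1)]
    field_simp
  rw [h1]
  linarith

theorem f_tbig (h : d.OK) :
    400 * (d.p * (d.n + 1) : ℝ) ^ 2 * (d.L + 1) ^ 2 * d.p ^ 2 * (d.k + 1) * d.j * d.g * Real.exp (-d.ζ) ≤ d.ε * d.β := by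
  have hz := h.oparb_z_pos
  have hw := h.oparb_w_pos
  have hw0 := h.w0
  have h1 : 400 * (d.p : ℝ) ^ 2 * (d.k + 1) * d.j * d.g ≤ d.z := by
    refine le_trans ?_ (h.pow_w (i := 6) (by norm_num))
    rw [show d.w ^ 6 = d.w * d.w ^ 2 * d.w * d.w * d.w by ring]
    have h2 := h.wp
    have h3 := h.wk
    have h4 := h.wj'
    have h5 := h.wg
    gcongr
    linarith
  have h6 : 400 * (d.p * (d.n + 1) : ℝ) ^ 2 * (d.L + 1) ^ 2 * d.p ^ 2 * (d.k + 1) * d.j * d.g ≤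
      (d.z : ℝ) ^ (4 * d.B + 9) := by
    rw [show (d.z : ℝ) ^ (4 * d.B + 9) = d.z * d.z ^ (2 * d.B + 4) * d.z ^ (2 * d.B + 4) by ring,
      show 400 * (d.p * (d.n + 1) : ℝ) ^ 2 * (d.L + 1) ^ 2 * d.p ^ 2 * (d.k + 1) * d.j * d.g =
        400 * (d.p : ℝ) ^ 2 * (d.k + 1) * d.j * d.g * (d.p * (d.n + 1) : ℝ) ^ 2 * (d.L + 1) ^ 2
        by ring]
    have h7 := h.oparb_Q2
    have h8 := h.oparb_L2
    gcongr
  have h9 := h.oparb_exp (K := (d.k0 + (d.m + 1) * (d.E + 1) + 1) + (d.j * d.k0 + 1)) h6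
    (by rw [oparb_X]; omega)
  refine h9.trans ?_
  rw [pow_add, ← one_div_mul_one_div]
  exact mul_le_mul h.oparb_eps h.β_ge (by positivity) (le_trans (by positivity) h.oparb_eps)

theorem f_tg (h : d.OK) :
    48 * d.k * d.L ≤ d.β * 2 ^ d.g := by
  have hz := h.oparb_z_pos
  have hw := h.oparb_w_pos
  have hw0 := h.w0
  have h1 : (2 : ℝ) ^ d.g = (d.z : ℝ) ^ (d.j * d.k0 + 1) * (d.z * d.z ^ (d.B + 1)) := by
    rw [show (d.z : ℝ) ^ (d.j * d.k0 + 1) * (d.z * d.z ^ (d.B + 1)) =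
      (d.z : ℝ) ^ (d.B + d.j * d.k0 + 3) by ring]
    unfold Dat.g Dat.z
    push_cast
    rw [← pow_mul, mul_comm]
  have h2 : 48 * (d.k : ℝ) ≤ d.z := by
    refine le_trans ?_ (h.pow_w (i := 2) (by norm_num))
    have h3 := h.wk
    have h4 : (0 : ℝ) ≤ d.k := Nat.cast_nonneg _
    nlinarith
  have h5 : 48 * (d.k : ℝ) * d.L ≤ d.z * d.z ^ (d.B + 1) :=
    mul_le_mul h2 h.oparb_L (Nat.cast_nonneg _) hz.le
  refine h5.trans (le_trans (le_of_eq ?_) (mul_le_mul_of_nonneg_right h.β_ge (by positivity)))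
  rw [h1]
  field_simp

theorem f_tμ (h : d.OK) :
    Real.exp (-d.μ / 8) ≤ d.β / 8 := by
  have hz := h.oparb_z_big
  have h1 : (d.z : ℝ) ^ 2 ≤ d.μ :=
    (pow_le_pow_right₀ h.one_le_z (by unfold parA; omega)).trans h.μ_ge
  have h2 : Real.exp (-d.μ / 8) ≤ Real.exp (-(d.z : ℝ)) := by
    refine Real.exp_le_exp.2 ?_
    nlinarith
  have h3 : 1 * Real.exp (-(d.z : ℝ)) ≤ 1 / (d.z : ℝ) ^ (d.j * d.k0 + 1 + 1) :=
    h.oparb_exp (N := 0) (by rw [pow_zero]) (by rw [oparb_X]; omega)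
  have h4 := h.oparb_succ (a := 8) (by norm_num) (by norm_num) (d.j * d.k0 + 1)
  have h5 := h.β_ge
  linarith

theorem f_bv (h : d.OK) :
    2 * (1 / 2 : ℝ) ^ d.v ≤ (d.β / 2) ^ (2 ^ d.k) := by
  have hs : (1 : ℝ) ≤ d.s := by exact_mod_cast h.hs
  have h1 : 2 * (1 / 2 : ℝ) ^ d.v = ((1 / 2 : ℝ) ^ (d.j * (d.k + 1) + d.s + 3)) ^ (2 ^ d.k) := by
    unfold Dat.v
    rw [pow_succ, ← pow_mul, mul_comm (2 ^ d.k)]
    ring
  rw [h1]
  refine pow_le_pow_left₀ (by positivity) ?_ _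
  unfold Dat.β
  have h2 : (d.s : ℝ) ≤ 2 ^ d.s := by exact_mod_cast Nat.lt_two_pow_self.le
  have h3 : (1 / 2 : ℝ) ^ d.s ≤ 1 / d.s := by
    rw [one_div_pow]
    exact one_div_le_one_div_of_le (by positivity) h2
  rw [pow_add, pow_add]
  have h4 : (1 / 2 : ℝ) ^ (d.j * (d.k + 1)) / (4 * d.s) / 2 =
      (1 / 2 : ℝ) ^ (d.j * (d.k + 1)) * (1 / d.s) * (1 / 2) ^ 3 := by
    field_simp
    norm_num
  rw [h4]
  gcongr

theorem f_bQ (h : d.OK) :
    4 * (d.p * (d.n + 1) : ℝ) ^ 2 * Real.sqrt d.θ ^ d.C' ≤ 1 := by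
  have hz := h.oparb_z_pos
  have h0 := h.hθ0
  have h1 : Real.sqrt d.θ ≤ Real.exp (-((1 - d.θ) / 2)) := by
    have h2 := Real.add_one_le_exp (-((1 - d.θ) / 2))
    have h3 := Real.mul_self_sqrt h0
    nlinarith [sq_nonneg (Real.sqrt d.θ - 1)]
  have h4 : Real.sqrt d.θ ^ d.C' ≤ 1 / (d.z : ℝ) ^ parX d.s d.E1 d.k0 d.j := by
    refine (pow_le_pow_left₀ (Real.sqrt_nonneg _) h1 _).trans ?_
    rw [← Real.exp_nat_mul, show ((d.C' : ℕ) : ℝ) * -((1 - d.θ) / 2) = -((1 - d.θ) / 2 * d.z) by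
      unfold Dat.C'; ring, Real.exp_neg, inv_eq_one_div]
    exact one_div_le_one_div_of_le (by positivity) h.hexp
  have h5 : 4 * (d.p * (d.n + 1) : ℝ) ^ 2 ≤ (d.z : ℝ) ^ parX d.s d.E1 d.k0 d.j :=
    h.oparb_4Q2.trans (pow_le_pow_right₀ h.one_le_z (by rw [oparb_X]; omega))
  refine (mul_le_mul h5 h4 (pow_nonneg (Real.sqrt_nonneg _) _) (by positivity)).trans (le_of_eq ?_)
  field_simp

theorem f_fr (h : d.OK) :
    (d.L : ℝ) ^ 3 * Real.exp (-(d.r / 2 : ℝ)) ≤ 1 / 8 := by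
  have hz := h.oparb_z_big
  have h1 : Real.exp (-(d.r / 2 : ℝ)) ≤ Real.exp (-(d.z : ℝ)) := by
    refine Real.exp_le_exp.2 (neg_le_neg ?_)
    unfold Dat.r
    push_cast
    nlinarith
  have h2 : (d.L : ℝ) ^ 3 ≤ (d.z : ℝ) ^ ((d.B + 1) * 3) := by
    rw [pow_mul]
    exact pow_le_pow_left₀ (Nat.cast_nonneg _) h.oparb_L 3
  have h3 := h.oparb_exp (K := 0 + 1) h2 (by rw [oparb_X]; omega)
  have h4 := h.oparb_succ (a := 8) (by norm_num) (by norm_num) 0
  rw [pow_zero, div_one] at h4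
  exact (mul_le_mul_of_nonneg_left h1 (by positivity)).trans (h3.trans h4)

theorem f_fbig (h : d.OK) :
    40 * d.n' * (d.L + 1) ^ 2 * d.p ^ 2 * (d.p * (d.n + 1) : ℝ) ^ 2 * Real.exp (-d.ζ) ≤ d.ε := by
  have hz := h.oparb_z_pos
  have hw := h.oparb_w_pos
  have hw0 := h.w0
  have h1 : 40 * (d.n' : ℝ) * (d.p : ℝ) ^ 2 ≤ d.z := by
    refine le_trans ?_ (h.pow_w (i := 4) (by norm_num))
    rw [show d.w ^ 4 = d.w * d.w * d.w ^ 2 by ring]
    have h2 := h.wp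
    have h3 := h.wn
    gcongr
    linarith
  have h6 : 40 * d.n' * (d.L + 1) ^ 2 * d.p ^ 2 * (d.p * (d.n + 1) : ℝ) ^ 2 ≤
      (d.z : ℝ) ^ (4 * d.B + 9) := by
    rw [show (d.z : ℝ) ^ (4 * d.B + 9) = d.z * d.z ^ (2 * d.B + 4) * d.z ^ (2 * d.B + 4) by ring,
      show 40 * d.n' * (d.L + 1) ^ 2 * d.p ^ 2 * (d.p * (d.n + 1) : ℝ) ^ 2 =
        40 * (d.n' : ℝ) * (d.p : ℝ) ^ 2 * (d.p * (d.n + 1) : ℝ) ^ 2 * (d.L + 1) ^ 2 by ring]
    have h7 := h.oparb_Q2
    have h8 := h.oparb_L2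
    gcongr
  exact (h.oparb_exp h6 (by rw [oparb_X]; omega)).trans h.oparb_eps

theorem f_fdel (h : d.OK) :
    d.L * (10 * d.CH) * (10 * d.CH * d.ξ) ^ (d.c + 1) ≤ d.ξ * d.Ylo / (2048 * d.j) := by
  have hz := h.oparb_z_pos
  have hw := h.oparb_w_pos
  have hw0 := h.w0
  have hj : (1 : ℝ) ≤ d.j := by exact_mod_cast h.hj
  have h1 : 10 * (d.CH : ℝ) * d.ξ = 10 / (d.z : ℝ) ^ 2 := by
    unfold Dat.CH Dat.ξ
    push_cast
    field_simp
  have h2 : d.ξ * (d.Ylo : ℝ) = (d.z : ℝ) ^ d.b := by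
    unfold Dat.Ylo Dat.ξ
    push_cast
    rw [pow_add]
    field_simp
  have h3 : (d.CH : ℝ) = (d.z : ℝ) ^ 6 := by
    unfold Dat.CH
    push_cast
    rfl
  have h4 : 2048 * (d.j : ℝ) * 10 ^ (d.c + 2) ≤ d.z := by
    refine le_trans ?_ (h.pow_w (i := 4) (by norm_num))
    rw [show d.w ^ 4 = d.w * d.w * d.w * d.w by ring]
    have h5 := h.wj'
    have h6 := h.wc
    gcongr
    nlinarith
  have h7 : (d.z : ℝ) * (d.z : ℝ) ^ (d.B + 1) * (d.z : ℝ) ^ 6 ≤
      (d.z : ℝ) ^ d.b * ((d.z : ℝ) ^ 2) ^ (d.c + 1) := by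
    rw [← pow_mul, ← pow_add, show (d.z : ℝ) * (d.z : ℝ) ^ (d.B + 1) * (d.z : ℝ) ^ 6 =
      (d.z : ℝ) ^ (d.B + 8) by ring]
    refine pow_le_pow_right₀ h.one_le_z ?_
    have h8 : d.B = 9 * d.s + 8 + d.b := rfl
    have h9 := h.hc
    omega
  rw [h1, h2, h3, div_pow, ← mul_div_assoc, div_le_div_iff₀ (by positivity) (by positivity)]
  refine le_trans ?_ h7
  rw [show (d.L : ℝ) * (10 * (d.z : ℝ) ^ 6) * 10 ^ (d.c + 1) * (2048 * d.j) =
    2048 * (d.j : ℝ) * 10 ^ (d.c + 2) * d.L * (d.z : ℝ) ^ 6 by ring]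
  have h10 := h.oparb_L
  gcongr

theorem f_fn (h : d.OK) :
    (d.p * d.L : ℝ) ^ 2 * (1 - 4 / (3 * d.p : ℝ)) ^ d.n' < piK d.p d.n' := by
  have hz := h.oparb_z_big
  have hp : (2 : ℝ) ≤ d.p := by exact_mod_cast h.hp
  have hp0 : (0 : ℝ) < d.p := by linarith
  have h1 : (0 : ℝ) ≤ 1 - 4 / (3 * d.p : ℝ) := by
    rw [sub_nonneg, div_le_one (by positivity)]
    linarith
  have h2 : (0 : ℝ) < 1 - 1 / (d.p : ℝ) := by
    rw [sub_pos, div_lt_one hp0]
    linarith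
  have h3 : (0 : ℝ) ≤ 1 - 1 / (3 * d.p : ℝ) := by
    rw [sub_nonneg, div_le_one (by positivity)]
    linarith
  have h4 : 1 - 4 / (3 * d.p : ℝ) ≤ (1 - 1 / (d.p : ℝ)) * (1 - 1 / (3 * d.p : ℝ)) := by
    have h5 : (1 - 1 / (d.p : ℝ)) * (1 - 1 / (3 * d.p : ℝ)) =
        1 - 4 / (3 * d.p : ℝ) + 1 / (3 * (d.p : ℝ) ^ 2) := by
      field_simp
      ring
    rw [h5]
    have h6 : (0 : ℝ) ≤ 1 / (3 * (d.p : ℝ) ^ 2) := by positivity
    linarith
  have h7 : (1 - 1 / (3 * d.p : ℝ)) ^ (3 * d.p) ≤ 1 / 2 := by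
    have h8 : 1 - 1 / (3 * d.p : ℝ) ≤ Real.exp (-(1 / (3 * d.p : ℝ))) := by
      have := Real.add_one_le_exp (-(1 / (3 * d.p : ℝ)))
      linarith
    refine (pow_le_pow_left₀ h3 h8 _).trans ?_
    rw [← Real.exp_nat_mul, show ((3 * d.p : ℕ) : ℝ) * -(1 / (3 * d.p : ℝ)) = -1 by
      push_cast; field_simp, Real.exp_neg, inv_eq_one_div]
    refine one_div_le_one_div_of_le (by norm_num) ?_
    have := Real.add_one_le_exp (1 : ℝ)
    linarith
  have h9 : (1 - 1 / (3 * d.p : ℝ)) ^ d.n' ≤ 1 / (d.z : ℝ) ^ (2 * d.B + 5) := by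
    rw [show d.n' = 3 * d.p * (d.y * (2 * d.B + 5)) by unfold Dat.n'; ring, pow_mul]
    refine (pow_le_pow_left₀ (pow_nonneg h3 _) h7 _).trans (le_of_eq ?_)
    unfold Dat.z
    push_cast
    rw [one_div_pow, pow_mul]
  have h10 : (d.p * d.L : ℝ) ^ 2 ≤ (d.z : ℝ) ^ (2 * d.B + 4) := by
    have h11 : (d.p : ℝ) ≤ d.z := by
      have h12 := h.pow_w (i := 1) (by norm_num)
      rw [pow_one] at h12
      exact h.wp.trans h12
    have h13 : (d.p * d.L : ℝ) ≤ d.z * (d.z : ℝ) ^ (d.B + 1) :=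
      mul_le_mul h11 h.oparb_L (Nat.cast_nonneg _) (by positivity)
    refine (pow_le_pow_left₀ (by positivity) h13 2).trans (le_of_eq ?_)
    ring
  have h14 : (d.p * d.L : ℝ) ^ 2 * (1 - 1 / (3 * d.p : ℝ)) ^ d.n' < 1 := by
    refine (mul_le_mul h10 h9 (pow_nonneg h3 _) (by positivity)).trans_lt ?_
    rw [mul_one_div, div_lt_one (by positivity)]
    exact pow_lt_pow_right₀ (by linarith) (by omega)
  have h15 := pow_le_pow_left₀ h1 h4 d.n'
  rw [mul_pow] at h15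
  have h16 := pow_pos h2 d.n'
  unfold piK
  calc (d.p * d.L : ℝ) ^ 2 * (1 - 4 / (3 * d.p : ℝ)) ^ d.n'
      ≤ (d.p * d.L : ℝ) ^ 2 * ((1 - 1 / (d.p : ℝ)) ^ d.n' * (1 - 1 / (3 * d.p : ℝ)) ^ d.n') :=
        mul_le_mul_of_nonneg_left h15 (by positivity)
    _ = (1 - 1 / (d.p : ℝ)) ^ d.n' * ((d.p * d.L : ℝ) ^ 2 * (1 - 1 / (3 * d.p : ℝ)) ^ d.n') := by
        ring
    _ < (1 - 1 / (d.p : ℝ)) ^ d.n' * 1 := mul_lt_mul_of_pos_left h14 h16
    _ = (1 - 1 / (d.p : ℝ)) ^ d.n' := mul_one _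

end Dat.OK

end Pool.Agent.P.MP_85fe51_lc.OD
end

-- part Pool.Agent.P.MP_85fe51_lc.OParC
section

set_option autoImplicit false

namespace Pool.Agent.P.MP_85fe51_lc.OD

namespace Dat.OK
variable {d : Dat}

theorem opc_z (h : d.OK) : (10 : ℝ) ^ 24 ≤ d.z := by
  have e : ((1000 ^ 8 : ℕ) : ℝ) ≤ d.z := Nat.cast_le.2 h.z_ge
  exact le_trans (by norm_num) e

theorem opc_N (h : d.OK) : (4 : ℝ) ≤ ((4 * d.M : ℕ) : ℝ) := by
  have e : 1 ≤ d.M := Nat.one_le_pow _ _ (lt_of_lt_of_le (by norm_num) h.z_ge)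
  exact_mod_cast (by omega : 4 ≤ 4 * d.M)

theorem opc_pow (h : d.OK) {a b : ℕ} (hab : a ≤ b) : (d.z : ℝ) ^ a ≤ (d.z : ℝ) ^ b :=
  pow_le_pow_right₀ h.one_le_z hab

theorem opc_Npow (h : d.OK) (a : ℕ) : ((4 * d.M : ℕ) : ℝ) ^ a ≤ (d.z : ℝ) ^ ((d.m + 1) * a) := by
  rw [pow_mul]
  exact pow_le_pow_left₀ (Nat.cast_nonneg _) h.M4_le a

theorem opc_key (h : d.OK) {x c : ℝ} (hx0 : 0 ≤ x) (hx : x ≤ 1 / (d.z : ℝ) ^ parD d.s d.E1)
    (hc : c ≤ 10 ^ 24) {a : ℕ} (ha : a + 1 ≤ 3 * d.E + 30) :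
    c * x * ((4 * d.M : ℕ) : ℝ) ^ a ≤ 1 := by
  have hz : (0 : ℝ) < d.z := lt_of_lt_of_le one_pos h.one_le_z
  have e1 : (d.m + 1) * a + 1 ≤ parD d.s d.E1 := by
    have e : (d.m + 2) * (a + 1) ≤ (d.m + 2) * (3 * d.E + 30) := Nat.mul_le_mul_left _ ha
    have e' : (d.m + 2) * (a + 1) = (d.m + 1) * a + 1 + (a + d.m + 1) := by ring
    change _ ≤ (d.m + 2) * (3 * d.E + 30)
    omega
  have e2 := h.opc_Npow a
  have e3 := hc.trans h.opc_z
  calc _ = c * (x * ((4 * d.M : ℕ) : ℝ) ^ a) := by ring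
    _ ≤ d.z * (x * ((4 * d.M : ℕ) : ℝ) ^ a) := by gcongr
    _ ≤ d.z * (1 / (d.z : ℝ) ^ parD d.s d.E1 * (d.z : ℝ) ^ ((d.m + 1) * a)) := by gcongr
    _ = (d.z : ℝ) ^ ((d.m + 1) * a + 1) / (d.z : ℝ) ^ parD d.s d.E1 := by ring
    _ ≤ 1 := (div_le_one (by positivity)).2 (h.opc_pow e1)

theorem opc_w (h : d.OK) {c x y : ℝ} (hc : c ≤ 10 ^ 9) (hx0 : 0 ≤ x) (hx : x ≤ d.w) (hy0 : 0 ≤ y)
    (hy : y ≤ d.w) : c * x * y ≤ d.z := by
  have e0 := h.w0
  have e1 : c ≤ d.w ^ 3 := hc.trans (le_trans (by norm_num)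
    (pow_le_pow_left₀ (by norm_num) e0 3))
  have e2 : (0 : ℝ) ≤ d.w := by linarith
  calc _ = c * (x * y) := by ring
    _ ≤ d.w ^ 3 * (d.w * d.w) := by
      refine le_trans (mul_le_mul_of_nonneg_right e1 (mul_nonneg hx0 hy0)) ?_
      gcongr
    _ = d.w ^ 5 := by ring
    _ ≤ _ := h.pow_w (by norm_num)

theorem opc_pi1 (h : d.OK) : piK d.p d.k ≤ 1 :=
  h.pi_le.trans ((div_le_one (pow_pos (lt_of_lt_of_le one_pos h.one_le_z) _)).2
    (one_le_pow₀ h.one_le_z))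

theorem opc_G : (d.CH : ℝ) * (d.M : ℝ) ^ 2 = (d.z : ℝ) ^ (6 + 2 * d.m) := by
  unfold Dat.CH Dat.M
  push_cast
  ring

theorem opc_t3 (h : d.OK) :
    3072 * piK d.p d.k * d.z * (5 * (d.z : ℝ) ^ (6 + 2 * d.m)) * d.t * d.q * d.L ≤ d.μ / 128 := by
  have hz : (0 : ℝ) < d.z := lt_of_lt_of_le one_pos h.one_le_z
  have hπ := h.pi_pos
  have hN : (0 : ℝ) < ((4 * d.M : ℕ) : ℝ) := lt_of_lt_of_le (by norm_num) h.opc_N
  have hL : (d.L : ℝ) ≤ (d.z : ℝ) ^ (d.B + 1) := by exact_mod_cast h.hL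
  have e1 : d.μ = (d.z : ℝ) ^ d.b * (piK d.p d.k / ((4 * d.M : ℕ) : ℝ) ^ (d.E + 1)) /
      (8 * (8 * (d.z : ℝ) ^ (6 + 2 * d.m)) * ((4 * d.M : ℕ) : ℝ)) := by
    unfold Dat.μ Dat.pmin Dat.n1
    rw [← opc_G, Nat.cast_pow, Nat.cast_mul (8 * d.CH), Nat.cast_mul 8, Nat.cast_pow,
      Nat.cast_ofNat, mul_assoc (8 : ℝ) d.CH]
  have e2 : 125829120 * (d.t : ℝ) * 1 ≤ d.z :=
    h.opc_w (by norm_num) (Nat.cast_nonneg _) h.wt zero_le_one (by linarith [h.w0])
  have e3 : ((d.z : ℝ) ^ d.m) ^ 10 ≤ ((4 * d.M : ℕ) : ℝ) ^ 10 :=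
    pow_le_pow_left₀ (by positivity) h.M4_ge 10
  have e4 : d.B + 15 + 4 * d.m ≤ d.b + d.m * 10 := by
    have := B_eq (d := d)
    have : d.m = 9 * d.s + 10 := rfl
    omega
  have e5 : 125829120 * (d.t : ℝ) * 1 * (d.z * ((d.z : ℝ) ^ (6 + 2 * d.m)) ^ 2 * d.L) ≤
      (d.z : ℝ) ^ d.b * ((4 * d.M : ℕ) : ℝ) ^ 10 := by
    calc _ ≤ d.z * (d.z * ((d.z : ℝ) ^ (6 + 2 * d.m)) ^ 2 * (d.z : ℝ) ^ (d.B + 1)) := by gcongr
      _ = (d.z : ℝ) ^ (d.B + 15 + 4 * d.m) := by ring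
      _ ≤ (d.z : ℝ) ^ (d.b + d.m * 10) := h.opc_pow e4
      _ = (d.z : ℝ) ^ d.b * ((d.z : ℝ) ^ d.m) ^ 10 := by ring
      _ ≤ _ := by gcongr
  rw [e1]
  unfold Dat.q
  generalize ((4 * d.M : ℕ) : ℝ) = N at hN e5 ⊢
  have hG : 0 < (d.z : ℝ) ^ (6 + 2 * d.m) := by positivity
  generalize (d.z : ℝ) ^ (6 + 2 * d.m) = G at hG e5 ⊢
  calc _ = piK d.p d.k / (8192 * G * N ^ (d.E + 12)) *
        (125829120 * (d.t : ℝ) * 1 * (d.z * G ^ 2 * d.L)) := by field_simp; ring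
    _ ≤ piK d.p d.k / (8192 * G * N ^ (d.E + 12)) * ((d.z : ℝ) ^ d.b * N ^ 10) := by gcongr
    _ = _ := by field_simp; ring

theorem opc_rho2 (h : d.OK) :
    (1 - 1 / (4 * d.j * d.k : ℝ)) ^ (d.r / 2) ≤ 1 / (d.z : ℝ) ^ parX d.s d.E1 d.k0 d.j := by
  refine le_trans ?_ h.exp_le
  have hj : (1 : ℝ) ≤ d.j := by exact_mod_cast h.hj
  have hk : (1 : ℝ) ≤ d.k := by exact_mod_cast h.one_le_k
  have h1 : (1 : ℝ) ≤ 4 * d.j * d.k :=
    one_le_mul_of_one_le_of_one_le (by linarith) hk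
  have h2 : 8 * (d.j : ℝ) * d.k ≤ d.z :=
    h.opc_w (by norm_num) (by linarith) h.wj' (by linarith) (by linarith [h.wk])
  have h3 : 8 * d.j * d.k ≤ d.z := by exact_mod_cast h2
  have h4 : 4 * d.j * d.k * d.z ≤ d.r / 2 := by
    rw [Nat.le_div_iff_mul_le two_pos]
    calc _ = 8 * d.j * d.k * d.z := by ring
      _ ≤ d.z * d.z := Nat.mul_le_mul_right _ h3
      _ = d.r := (pow_two _).symm
  have h5 : 4 * (d.j : ℝ) * d.k * d.z ≤ ((d.r / 2 : ℕ) : ℝ) := by exact_mod_cast h4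
  have h6 : 0 ≤ 1 - 1 / (4 * d.j * d.k : ℝ) := sub_nonneg.2 ((div_le_one (by linarith)).2 h1)
  calc _ ≤ Real.exp (-(1 / (4 * d.j * d.k : ℝ))) ^ (d.r / 2) :=
        pow_le_pow_left₀ h6 (Real.one_sub_le_exp_neg _) _
    _ = Real.exp (-(((d.r / 2 : ℕ) : ℝ) / (4 * d.j * d.k))) := by
        rw [← Real.exp_nat_mul]
        congr 1
        ring
    _ ≤ _ := Real.exp_le_exp.2 (neg_le_neg ((le_div_iff₀ (by linarith)).2 (by linarith)))

theorem f_bq (h : d.OK) :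
    4 * piK d.p d.k ≤ d.q := by
  have hN : (0 : ℝ) < ((4 * d.M : ℕ) : ℝ) := lt_of_lt_of_le (by norm_num) h.opc_N
  unfold Dat.q
  rw [le_div_iff₀ (by positivity)]
  exact h.opc_key h.pi_pos.le h.pi_le (by norm_num) (by omega)

theorem f_bδ (h : d.OK) :
    6 * (((d.k + 1) * d.j + d.k : ℕ) : ℝ) * d.ε + 2 * (4 * d.M : ℕ) * piK d.p d.k ^ 2 ≤ d.pmin / 32 := by
  have hz : (0 : ℝ) < d.z := lt_of_lt_of_le one_pos h.one_le_z
  have hN : (0 : ℝ) < ((4 * d.M : ℕ) : ℝ) := lt_of_lt_of_le (by norm_num) h.opc_N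
  have hπ := h.pi_pos
  have hp := h.pmin_pos
  have hj : (1 : ℝ) ≤ d.j := by exact_mod_cast h.hj
  have hk : (0 : ℝ) ≤ d.k := Nat.cast_nonneg _
  have e1 : 768 * ((d.k : ℝ) + 1) * d.j ≤ d.z :=
    h.opc_w (by norm_num) (by linarith) h.wk (by linarith) h.wj'
  have e2 : (d.k : ℝ) + 1 ≤ ((d.k : ℝ) + 1) * d.j := le_mul_of_one_le_right (by linarith) hj
  have e3 : 6 * (((d.k + 1) * d.j + d.k : ℕ) : ℝ) ≤ d.z / 64 := by
    push_cast
    linarith
  have e4 : 6 * (((d.k + 1) * d.j + d.k : ℕ) : ℝ) * d.ε ≤ d.pmin / 64 := by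
    unfold Dat.ε
    calc _ ≤ d.z / 64 * (d.pmin / d.z) := by gcongr
      _ = _ := by field_simp
  have e5 := h.opc_key (c := 128) hπ.le h.pi_le (by norm_num) (a := d.E + 2) (by omega)
  have e6 : 2 * ((4 * d.M : ℕ) : ℝ) * piK d.p d.k ^ 2 ≤ d.pmin / 64 := by
    unfold Dat.pmin
    generalize ((4 * d.M : ℕ) : ℝ) = N at hN e5 ⊢
    calc _ = piK d.p d.k / N ^ (d.E + 1) / 64 * (128 * piK d.p d.k * N ^ (d.E + 2)) := by
          field_simp; ring
      _ ≤ piK d.p d.k / N ^ (d.E + 1) / 64 * 1 := by gcongr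
      _ = _ := mul_one _
  linarith

theorem f_bq2 (h : d.OK) :
    2 * (4 * piK d.p d.k / d.q) ^ 2 ≤ d.pmin / 64 := by
  have hN : (0 : ℝ) < ((4 * d.M : ℕ) : ℝ) := lt_of_lt_of_le (by norm_num) h.opc_N
  have hπ := h.pi_pos
  have e5 := h.opc_key (c := 2048) hπ.le h.pi_le (by norm_num) (a := 3 * d.E + 25) (by omega)
  unfold Dat.pmin Dat.q
  generalize ((4 * d.M : ℕ) : ℝ) = N at hN e5 ⊢
  calc _ = piK d.p d.k / N ^ (d.E + 1) / 64 * (2048 * piK d.p d.k * N ^ (3 * d.E + 25)) := by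
        field_simp; ring
    _ ≤ piK d.p d.k / N ^ (d.E + 1) / 64 * 1 := by gcongr
    _ = _ := mul_one _

theorem f_by1 (h : d.OK) :
    2 * ((8 * d.CH * d.M ^ 2 : ℕ) * d.v + 4 * piK d.p d.k *
    (6 * d.C' * ((4 * d.CH * d.M ^ 2 : ℕ) + 1) * (d.v + 64 * d.t * d.q * d.L + 2))) +
    2 * (d.v + 2) * ((4 * d.M : ℕ) : ℝ) ^ d.E1 / (1 - d.γ) ≤ d.μ / 64 := by
  have hz1 := h.one_le_z
  have hz : (0 : ℝ) < d.z := lt_of_lt_of_le one_pos hz1
  have hπ := h.pi_pos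
  have hπ1 := h.opc_pi1
  have hv := h.v_le
  have hv0 : (0 : ℝ) ≤ d.v := Nat.cast_nonneg _
  have hγ : 0 < 1 - d.γ := sub_pos.2 h.hγ1
  have hq : 0 ≤ d.q := by unfold Dat.q; positivity
  have t3 := h.opc_t3
  have hμ := h.μ_ge
  have hF := h.opc_Npow d.E1
  have a1 : ((8 * d.CH * d.M ^ 2 : ℕ) : ℝ) = 8 * (d.z : ℝ) ^ (6 + 2 * d.m) := by
    rw [← opc_G]; push_cast; ring
  have a2 : ((4 * d.CH * d.M ^ 2 : ℕ) : ℝ) = 4 * (d.z : ℝ) ^ (6 + 2 * d.m) := by
    rw [← opc_G]; push_cast; ring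
  have a3 : (d.C' : ℝ) = d.z := rfl
  have a4 : (d.z : ℝ) ^ parA d.s d.E1 d.k0 = (d.z : ℝ) ^ 4 * ((d.z : ℝ) ^ (d.k0 + 1) *
      (d.z : ℝ) ^ (6 + 2 * d.m) * (d.z : ℝ) ^ ((d.m + 1) * d.E1) * d.z) := by
    change (d.z : ℝ) ^ (d.k0 + 2 * d.m + 12 + (d.m + 1) * d.E1) = _
    ring
  have a5 : 1 / (1 - d.γ) ≤ d.z := by
    rw [div_le_iff₀ hγ]
    have e := h.pow_w (i := 1) (by norm_num)
    rw [pow_one] at e
    calc _ ≤ (1 - d.γ) * d.w := h.wγ
      _ ≤ (1 - d.γ) * d.z := by gcongr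
      _ = _ := mul_comm _ _
  have a6 : (10 : ℝ) ^ 24 ≤ (d.z : ℝ) ^ 4 := h.opc_z.trans (le_self_pow₀ hz1 (by norm_num))
  have hG1 : 1 ≤ (d.z : ℝ) ^ (6 + 2 * d.m) := one_le_pow₀ hz1
  have hF1 : 1 ≤ (d.z : ℝ) ^ ((d.m + 1) * d.E1) := one_le_pow₀ hz1
  have hN0 : (0 : ℝ) ≤ ((4 * d.M : ℕ) : ℝ) ^ d.E1 := by positivity
  rw [a1, a2, a3]
  rw [a4] at hμ
  generalize ((4 * d.M : ℕ) : ℝ) ^ d.E1 = N at hN0 hF ⊢
  generalize (d.z : ℝ) ^ (6 + 2 * d.m) = G at hG1 hμ t3 ⊢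
  generalize (d.z : ℝ) ^ ((d.m + 1) * d.E1) = F at hF1 hμ hF
  generalize (d.z : ℝ) ^ (d.k0 + 1) = V at hv hμ
  have hV : 0 ≤ V := by linarith
  have hG : 0 ≤ G := by linarith
  have hF0 : 0 ≤ F := by linarith
  have b1 : G * d.v ≤ V * G * F * d.z :=
    calc _ = d.v * G * 1 * 1 := by ring
      _ ≤ _ := by gcongr; linarith
  have b2 : piK d.p d.k * (d.z * (4 * G + 1) * (d.v + 2)) ≤ 5 * (V * G * F * d.z) :=
    calc _ ≤ 1 * (d.z * (4 * G + G) * V) := by gcongr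
      _ = 5 * (V * G * 1 * d.z) := by ring
      _ ≤ _ := by gcongr
  have b3 : 3072 * piK d.p d.k * d.z * (4 * G + 1) * d.t * d.q * d.L ≤ d.μ / 128 := by
    refine le_trans ?_ t3
    gcongr
    linarith
  have b4 : (d.v + 2) * N / (1 - d.γ) ≤ V * G * F * d.z :=
    calc _ = (d.v + 2) * 1 * N * (1 / (1 - d.γ)) := by ring
      _ ≤ _ := by gcongr
  have b5 : 10 ^ 24 * (V * G * F * d.z) ≤ d.μ := le_trans (by gcongr) hμ
  have b6 : 0 ≤ V * G * F * d.z := by positivity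
  calc _ = 16 * (G * d.v) + 48 * (piK d.p d.k * (d.z * (4 * G + 1) * (d.v + 2))) +
        3072 * piK d.p d.k * d.z * (4 * G + 1) * d.t * d.q * d.L +
        2 * ((d.v + 2) * N / (1 - d.γ)) := by ring
    _ ≤ _ := by linarith

theorem f_bk (h : d.OK) :
    d.k * d.v + 1 ≤ d.μ / 16 := by
  have hz : (0 : ℝ) < d.z := lt_of_lt_of_le one_pos h.one_le_z
  have hk : (0 : ℝ) ≤ d.k := Nat.cast_nonneg _
  have hv0 : (0 : ℝ) ≤ d.v := Nat.cast_nonneg _
  have hv := h.v_le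
  have e1 : 16 * ((d.k : ℝ) + 1) * 1 ≤ d.z :=
    h.opc_w (by norm_num) (by linarith) h.wk zero_le_one (by linarith [h.w0])
  have e2 : d.k0 + 2 ≤ parA d.s d.E1 d.k0 := by
    unfold parA
    omega
  have e3 : 16 * ((d.k : ℝ) + 1) * 1 * (d.v + 2) ≤ d.μ :=
    calc _ ≤ d.z * (d.z : ℝ) ^ (d.k0 + 1) := by gcongr
      _ = (d.z : ℝ) ^ (d.k0 + 2) := by ring
      _ ≤ _ := (h.opc_pow e2).trans h.μ_ge
  have e4 : 16 * ((d.k : ℝ) + 1) * 1 * (d.v + 2) = 16 * (d.k * d.v) + 32 * d.k + 16 * d.v + 32 := by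
    ring
  linarith

theorem f_fp (h : d.OK) :
    d.p' ≤ piK d.p d.k / ((4 * d.M : ℕ) : ℝ) ^ (2 * d.E1 + 1) -
    (4 * d.M : ℕ) * ((1 - 3 / (2 * d.p : ℝ)) ^ d.k + d.k * (1 - 1 / (4 * d.j * d.k : ℝ)) ^ (d.r / 2)) := by
  have hz : (0 : ℝ) < d.z := lt_of_lt_of_le one_pos h.one_le_z
  have hN4 := h.opc_N
  have hN : (0 : ℝ) < ((4 * d.M : ℕ) : ℝ) := lt_of_lt_of_le (by norm_num) hN4
  have hπ := h.pi_pos
  have hp : (2 : ℝ) ≤ d.p := by exact_mod_cast h.hp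
  have hp0 : (0 : ℝ) < d.p := by linarith
  have hk : (0 : ℝ) ≤ d.k := Nat.cast_nonneg _
  have hE : d.E = 2 * d.E1 + 1 + 1 := rfl
  have r0 : 0 ≤ 1 - 1 / (2 * d.p : ℝ) := sub_nonneg.2 ((div_le_one (by linarith)).2 (by linarith))
  have r1 : (1 - 3 / (2 * d.p : ℝ)) ^ d.k ≤ piK d.p d.k * (1 - 1 / (2 * d.p : ℝ)) ^ d.k := by
    unfold piK
    rw [← mul_pow]
    refine pow_le_pow_left₀ (sub_nonneg.2 ((div_le_one (by linarith)).2 (by linarith))) ?_ _
    have e : (1 - 1 / (d.p : ℝ)) * (1 - 1 / (2 * d.p : ℝ)) =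
        1 - 3 / (2 * d.p : ℝ) + 1 / (2 * (d.p : ℝ) ^ 2) := by field_simp; ring
    rw [e]
    exact le_add_of_nonneg_right (by positivity)
  have r2 := h.opc_key (c := 4) (pow_nonneg r0 d.k) h.ratio_le (by norm_num) (a := d.E) (by omega)
  have r3 := h.opc_rho2
  have r4 : 4 * (d.k : ℝ) * 1 ≤ d.z :=
    h.opc_w (by norm_num) hk (by linarith [h.wk]) zero_le_one (by linarith [h.w0])
  have r5 : 1 + (d.m + 1) * d.E + d.k0 ≤ parX d.s d.E1 d.k0 d.j := by
    change _ ≤ 4 * parB d.s d.E1 d.k0 + 12 + d.k0 + (d.m + 1) * (d.E + 1) + d.j * d.k0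
    rw [mul_add (d.m + 1) d.E 1]
    omega
  have r6 := h.opc_Npow d.E
  have r7 : 4 * (d.k : ℝ) * 1 * ((4 * d.M : ℕ) : ℝ) ^ d.E *
      (1 - 1 / (4 * d.j * d.k : ℝ)) ^ (d.r / 2) ≤ piK d.p d.k := by
    refine le_trans ?_ h.pi_ge
    calc _ ≤ 4 * (d.k : ℝ) * 1 * ((4 * d.M : ℕ) : ℝ) ^ d.E *
          (1 / (d.z : ℝ) ^ parX d.s d.E1 d.k0 d.j) := by gcongr
      _ ≤ d.z * (d.z : ℝ) ^ ((d.m + 1) * d.E) *
          (1 / (d.z : ℝ) ^ (1 + (d.m + 1) * d.E + d.k0)) := by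
        have := h.opc_pow r5
        gcongr
      _ = _ := by field_simp; ring
  unfold Dat.p'
  rw [hE] at r2 r7 ⊢
  generalize ((4 * d.M : ℕ) : ℝ) = N at hN hN4 r2 r7 ⊢
  generalize (1 - 1 / (4 * d.j * d.k : ℝ)) ^ (d.r / 2) = ρ2 at r7 ⊢
  generalize (1 - 3 / (2 * d.p : ℝ)) ^ d.k = ρ1 at r1 ⊢
  generalize (1 - 1 / (2 * d.p : ℝ)) ^ d.k = ρ at r1 r2
  generalize 2 * d.E1 + 1 = a at r2 r7 ⊢
  have hS : 0 < piK d.p d.k / N ^ a := by positivity
  have s1 : piK d.p d.k / N ^ (a + 1) ≤ piK d.p d.k / N ^ a / 4 := by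
    rw [pow_succ, ← div_div]
    gcongr
  have s2 : N * ρ1 ≤ piK d.p d.k / N ^ a / 4 :=
    calc _ ≤ N * (piK d.p d.k * ρ) := by gcongr
      _ = piK d.p d.k / N ^ a / 4 * (4 * ρ * N ^ (a + 1)) := by field_simp; ring
      _ ≤ piK d.p d.k / N ^ a / 4 * 1 := by gcongr
      _ = _ := mul_one _
  have s3 : N * (d.k * ρ2) ≤ piK d.p d.k / N ^ a / 4 :=
    calc _ = 4 * (d.k : ℝ) * 1 * N ^ (a + 1) * ρ2 / N ^ a / 4 := by field_simp; ring
      _ ≤ _ := by gcongr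
  rw [mul_add]
  linarith

end Dat.OK

end Pool.Agent.P.MP_85fe51_lc.OD
end

-- part Pool.Agent.P.MP_85fe51_lc.OPar
section

set_option autoImplicit false

namespace Pool.Agent.P.MP_85fe51_lc.OD

noncomputable def Dat.num (d : Dat) (h : d.OK) : Num d.p d.s d.n d.L d.c d.c1 d.j d.E1 d.θ d.γ where
  k := d.k
  CH := d.CH
  r := d.r
  M := d.M
  C' := d.C'
  g := d.g
  t := d.t
  v := d.v
  n' := d.n'
  n0 := d.n0
  n1 := d.n1
  W := d.W
  Ylo := d.Ylo
  τ := d.τ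
  ε := d.ε
  ζ := d.ζ
  q := d.q
  ξ := d.ξ
  pmin := d.pmin
  p' := d.p'
  β := d.β
  μ := d.μ
  hk := h.f_hk
  hr := h.f_hr
  hM := h.f_hM
  hC := h.f_hC
  hg1 := h.f_hg1
  ht1 := h.f_ht1
  ht := h.f_ht
  hn'1 := h.f_hn'1
  hn1 := h.f_hn1
  hW1 := h.f_hW1
  hτ0 := h.f_hτ0
  hτ1 := h.f_hτ1
  hε0 := h.f_hε0
  hεk := h.f_hεk
  hβ0 := h.β_pos
  hq0 := h.f_hq0
  hq1 := h.f_hq1
  hξ0 := h.f_hξ0
  hξ1 := h.f_hξ1
  hp0 := h.f_hp0
  hpm := h.pmin_pos.le
  xA := h.f_xA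
  xB := h.f_xB
  xW := h.f_xW
  xW2 := h.f_xW2
  e1 := h.f_e1
  e2 := h.f_e2
  e3 := h.f_e3
  tc := h.f_tc
  z1 := h.f_z1
  z2 := h.f_z2
  z3 := h.f_z3
  z4 := h.f_z4
  z5 := h.f_z5
  tbig := h.f_tbig
  tg := h.f_tg
  tμ := h.f_tμ
  hμ := h.f_hμ
  bv := h.f_bv
  bQ := h.f_bQ
  bq := h.f_bq
  bδ := h.f_bδ
  bq2 := h.f_bq2
  by1 := h.f_by1
  bk := h.f_bk
  fm := h.f_fm
  fr := h.f_fr
  fbig := h.f_fbig
  fY := h.f_fY
  fdel := h.f_fdel
  fn := h.f_fn
  fp := h.f_fp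

theorem opar_ev (k : ℕ) (A : ℝ) : ∀ᶠ y : ℕ in Filter.atTop, A * (y : ℝ) ^ k ≤ 2 ^ y := by
  have h := (tendsto_pow_const_div_const_pow_of_one_lt k (one_lt_two (α := ℝ))).const_mul A
  rw [mul_zero] at h
  filter_upwards [h.eventually (gt_mem_nhds (zero_lt_one (α := ℝ)))] with y hy
  have h2 : (0 : ℝ) < 2 ^ y := by positivity
  rw [← mul_div_assoc, div_lt_one h2] at hy
  exact hy.le

theorem opar_k0 (p D : ℕ) (hp : 2 ≤ p) :
    ∃ k0 : ℕ, 1 ≤ k0 ∧ (1 - 1 / (2 * p : ℝ)) ^ k0 ≤ (1 / 2) ^ D := by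
  have hp' : (2 : ℝ) ≤ p := by exact_mod_cast hp
  have h0 : (0 : ℝ) < 1 / (2 * p : ℝ) := by positivity
  have h1 : 1 / (2 * p : ℝ) ≤ 1 := by
    rw [div_le_one (by positivity)]; linarith
  obtain ⟨n, hn⟩ := exists_pow_lt_of_lt_one (x := (1 / 2 : ℝ) ^ D) (y := 1 - 1 / (2 * p : ℝ))
    (by positivity) (by linarith)
  refine ⟨n + 1, by omega, le_trans ?_ hn.le⟩
  exact pow_le_pow_of_le_one (by linarith) (by linarith) (by omega)

theorem opar_exp (X y : ℕ) {θ : ℝ} (hθ : θ < 1)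
    (h : 2 * X / (1 - θ) * (y : ℝ) ^ 1 ≤ 2 ^ y) :
    (((2 ^ y : ℕ) : ℝ)) ^ X ≤ Real.exp ((1 - θ) / 2 * ((2 ^ y : ℕ) : ℝ)) := by
  have h1 : (0 : ℝ) < 1 - θ := by linarith
  have h2 : (2 : ℝ) ≤ Real.exp 1 := by
    have := Real.add_one_le_exp (1 : ℝ)
    linarith
  push_cast
  calc ((2 : ℝ) ^ y) ^ X ≤ ((Real.exp 1) ^ y) ^ X := by gcongr
    _ = Real.exp ((X : ℝ) * y) := by
        rw [← Real.exp_nat_mul, ← Real.exp_nat_mul, mul_one]
    _ ≤ Real.exp ((1 - θ) / 2 * 2 ^ y) := by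
        apply Real.exp_le_exp.2
        rw [pow_one] at h
        have h3 : (X : ℝ) * y = (1 - θ) / 2 * (2 * X / (1 - θ) * y) := by field_simp
        rw [h3]
        exact mul_le_mul_of_nonneg_left h (by positivity)

theorem exists_num (p s c j E1 : ℕ) (hp : 2 ≤ p) (hs : 1 ≤ s) (hc : 9 * s + 16 ≤ c) (hj : 1 ≤ j) :
    ∃ c1 : ℕ, ∀ θ γ : ℝ, 0 ≤ θ → θ < 1 → 0 ≤ γ → γ < 1 → ∃ B y0 : ℕ, 1 ≤ B ∧ ∀ y, y0 ≤ y →
      ∀ n L : ℕ, (2 ^ y) ^ B ≤ n → n ≤ (2 ^ y) ^ (B + 1) → L ≤ (2 ^ y) ^ (B + 1) →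
        Nonempty (Num p s n L c c1 j E1 θ γ) := by
  obtain ⟨k0, hk0, hD⟩ := opar_k0 p (parD s E1) hp
  refine ⟨parC s E1 k0, fun θ γ hθ0 hθ1 hγ0 hγ1 => ?_⟩
  have h1θ : (0 : ℝ) < 1 - θ := by linarith
  have h1γ : (0 : ℝ) < 1 - γ := by linarith
  obtain ⟨B, hB⟩ : ∃ B, B = parB s E1 k0 := ⟨_, rfl⟩
  obtain ⟨a, a0, ap, as, aj, ak, ag, at', an, ac, aθ, aγ⟩ : ∃ a : ℝ, 1000 ≤ a ∧ (p : ℝ) ≤ a ∧
      (s : ℝ) ≤ a ∧ (2 : ℝ) ^ j ≤ a ∧ (k0 : ℝ) + 1 ≤ a ∧ ((B + j * k0 + 3 : ℕ) : ℝ) ≤ a ∧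
      (B : ℝ) + 2 ≤ a ∧ ((3 * p * (2 * B + 5) : ℕ) : ℝ) ≤ a ∧ (10 : ℝ) ^ (c + 2) ≤ a ∧
      1 / (1 - θ) ≤ a ∧ 1 / (1 - γ) ≤ a := by
    have e := Filter.eventually_ge_atTop (α := ℝ)
    exact ((e _).and ((e _).and ((e _).and ((e _).and ((e _).and ((e _).and ((e _).and
      ((e _).and ((e _).and ((e _).and (e _))))))))))).exists
  obtain ⟨y0, hy0⟩ := Filter.eventually_atTop.1 ((opar_ev 8 (a ^ 8)).and
    ((opar_ev 1 (2 * (parX s E1 k0 j : ℕ) / (1 - θ))).and (Filter.eventually_gt_atTop c)))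
  refine ⟨B, y0, ?_, fun y hy n L hn1 hn2 hL => ?_⟩
  · rw [hB]; unfold parB; omega
  obtain ⟨e1, e2, e3⟩ := hy0 y hy
  have hy1 : (1 : ℝ) ≤ y := by exact_mod_cast (show 1 ≤ y by omega)
  have ha : (0 : ℝ) ≤ a := by linarith
  have hw : a ≤ a * y := le_mul_of_one_le_right ha hy1
  have hm : ∀ x : ℝ, x ≤ a → x * y ≤ a * y := fun x hx =>
    mul_le_mul_of_nonneg_right hx (by linarith)
  subst hB
  refine ⟨Dat.num ⟨p, s, n, L, c, j, E1, k0, y, θ, γ, a * y⟩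
    { hp := hp, hs := hs, hc := hc, hj := hj, hk0 := hk0, hy := e3, hθ0 := hθ0, hθ1 := hθ1
      hγ0 := hγ0, hγ1 := hγ1, hD := hD, hn1 := hn1, hn2 := hn2, hL := hL
      w0 := a0.trans hw, wp := ap.trans hw, ws := as.trans hw, wj := aj.trans hw
      wk := ?_, wg := ?_, wt := ?_, wn := ?_, wc := ac.trans hw, wθ := ?_, wγ := ?_, wz := ?_
      hexp := opar_exp _ y hθ1 e2 }⟩
  · show ((k0 * y : ℕ) : ℝ) + 1 ≤ a * y
    have := hm _ ak
    push_cast
    linarith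
  · show (((parB s E1 k0 + j * k0 + 3) * y : ℕ) : ℝ) ≤ a * y
    rw [Nat.cast_mul]
    exact hm _ ag
  · show (((parB s E1 k0 + 1) * y + 1 : ℕ) : ℝ) ≤ a * y
    have := hm _ at'
    push_cast
    linarith
  · show ((3 * p * (2 * parB s E1 k0 + 5) * y : ℕ) : ℝ) ≤ a * y
    rw [Nat.cast_mul]
    exact hm _ an
  · show 1 ≤ (1 - θ) * (a * y)
    have := aθ.trans hw
    rwa [div_le_iff₀' h1θ] at this
  · show 1 ≤ (1 - γ) * (a * y)
    have := aγ.trans hw
    rwa [div_le_iff₀' h1γ] at this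
  · show (a * y) ^ 8 ≤ ((2 ^ y : ℕ) : ℝ)
    rw [mul_pow]
    push_cast
    exact e1

end Pool.Agent.P.MP_85fe51_lc.OD
end

-- part Pool.Agent.P.MP_85fe51_lc.OCore
section

set_option autoImplicit false

namespace Pool.Agent.P.MP_85fe51_lc.OD

open Finset
open scoped Classical

/-- the core statement for sums of ridge functions. -/
def Core (p : ℕ) [Fact p.Prime] : Prop :=
  ∀ (N V0 : Type) [AddCommGroup N] [Fintype N] [AddCommGroup V0] [Fintype V0],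
    Nat.Coprime (Fintype.card N) p → ∀ c0 : ℕ, ∃ B y0 : ℕ, 1 ≤ B ∧ ∀ y, y0 ≤ y →
      ∀ (X T : Type) [Fintype X] [DecidableEq X] [Fintype T] (lam : T → Vec p X)
        (phi : T → ZMod p → N) (f0 : Finset X → V0), (∀ t, SZ (phi t)) →
        (2 ^ y) ^ B ≤ Fintype.card X → Fintype.card X ≤ (2 ^ y) ^ (B + 1) →
        Fintype.card T ≤ (2 ^ y) ^ (B + 1) → DL ⊥ (fun _ => True) (c0 + 1) univ f0 →
        ∃ A : Finset X, A.Nonempty ∧ Sf lam phi A = Sf lam phi ∅ ∧ f0 A = f0 ∅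

end Pool.Agent.P.MP_85fe51_lc.OD
end

-- part Pool.Agent.P.MP_85fe51_lc.ODeg
section

set_option autoImplicit false

namespace Pool.Agent.P.MP_85fe51_lc.OD

open Finset
open scoped Classical

theorem prog_nil {X G : Type} [DecidableEq X] [Group G] (A : Finset X) :
    prog ([] : List (X × G × G)) A = 1 := by
  simp only [prog, List.map_nil, List.prod_nil]

theorem prog_snoc {X G : Type} [DecidableEq X] [Group G] (l : List (X × G × G)) (q : X × G × G)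
    (A : Finset X) : prog (l ++ [q]) A = prog l A * (if q.1 ∈ A then q.2.1 else q.2.2) := by
  simp only [prog, List.map_append, List.prod_append, List.map_cons, List.map_nil,
    List.prod_cons, List.prod_nil, mul_one]

theorem prog_map {X G H : Type} [DecidableEq X] [Group G] [Group H] (φ : G →* H)
    (l : List (X × G × G)) (A : Finset X) :
    prog (l.map (fun q => (q.1, φ q.2.1, φ q.2.2))) A = φ (prog l A) := by
  induction l using List.reverseRecOn with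
  | nil => rw [List.map_nil, prog_nil, prog_nil, map_one]
  | append_singleton l q ih =>
    rw [List.map_append, List.map_singleton, prog_snoc, prog_snoc, ih, map_mul]
    congr 1
    by_cases e : q.1 ∈ A
    · simp only [e, if_true]
    · simp only [e, if_false]

/-- left translation of functions on a group. -/
def odeg_act {H R : Type} [Group H] [AddCommGroup R] (g : H) : (H → R) →+ (H → R) where
  toFun v := fun h => v (g⁻¹ * h)
  map_zero' := rfl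
  map_add' _ _ := rfl

theorem odeg_act_one {H R : Type} [Group H] [AddCommGroup R] (v : H → R) :
    odeg_act (1 : H) v = v := by
  funext h
  show v (1⁻¹ * h) = v h
  rw [inv_one, one_mul]

theorem odeg_act_mul {H R : Type} [Group H] [AddCommGroup R] (g g' : H) (v : H → R) :
    odeg_act (g * g') v = odeg_act g (odeg_act g' v) := by
  funext h
  show v ((g * g')⁻¹ * h) = v (g'⁻¹ * (g⁻¹ * h))
  rw [mul_inv_rev, mul_assoc]

/-- the ascending filtration by iterated invariants. -/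
def odeg_fil (H R : Type) [Group H] [AddCommGroup R] : ℕ → AddSubgroup (H → R)
  | 0 => ⊥
  | i + 1 => ⨅ g : H, (odeg_fil H R i).comap (odeg_act g - AddMonoidHom.id (H → R))

theorem odeg_mem_succ {H R : Type} [Group H] [AddCommGroup R] (i : ℕ) (v : H → R) :
    v ∈ odeg_fil H R (i + 1) ↔ ∀ g : H, odeg_act g v - v ∈ odeg_fil H R i := by
  show v ∈ (⨅ g : H, (odeg_fil H R i).comap (odeg_act g - AddMonoidHom.id (H → R))) ↔ _
  rw [AddSubgroup.mem_iInf]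
  exact Iff.rfl

theorem odeg_fil_le {H R : Type} [Group H] [AddCommGroup R] (i : ℕ) :
    odeg_fil H R i ≤ odeg_fil H R (i + 1) := by
  induction i with
  | zero => exact bot_le
  | succ i ih =>
    intro v hv
    rw [odeg_mem_succ] at hv ⊢
    exact fun g => ih (hv g)

theorem odeg_fil_inv {H R : Type} [Group H] [AddCommGroup R] (i : ℕ) (g : H) (v : H → R)
    (hv : v ∈ odeg_fil H R i) : odeg_act g v ∈ odeg_fil H R i := by
  have h1 := (odeg_mem_succ i v).1 (odeg_fil_le i hv) g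
  have h2 := (odeg_fil H R i).add_mem h1 hv
  rwa [sub_add_cancel] at h2

/-- a proper invariant subgroup misses a vector that is fixed modulo it. -/
theorem odeg_fix {p : ℕ} [hp : Fact p.Prime] {H : Type} [Group H] [Fintype H] (hH : IsPGroup p H)
    (S : AddSubgroup (H → ZMod p)) (hS : ∀ (g : H) (v : H → ZMod p), v ∈ S → odeg_act g v ∈ S)
    (hne : S ≠ ⊤) : ∃ w : H → ZMod p, w ∉ S ∧ ∀ g : H, odeg_act g w - w ∈ S := by
  have : NeZero p := ⟨hp.out.ne_zero⟩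
  let _ : MulAction H ((H → ZMod p) ⧸ S) :=
    { smul := fun g x => QuotientAddGroup.map S S (odeg_act g) (fun v hv => hS g v hv) x
      one_smul := by
        intro x
        induction x using QuotientAddGroup.induction_on with
        | H v =>
          show ((odeg_act (1 : H) v : H → ZMod p) : (H → ZMod p) ⧸ S) = _
          rw [odeg_act_one]
      mul_smul := by
        intro g g' x
        induction x using QuotientAddGroup.induction_on with
        | H v =>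
          show ((odeg_act (g * g') v : H → ZMod p) : (H → ZMod p) ⧸ S) =
            ((odeg_act g (odeg_act g' v) : H → ZMod p) : (H → ZMod p) ⧸ S)
          rw [odeg_act_mul] }
  have hsm : ∀ (g : H) (v : H → ZMod p),
      g • (v : (H → ZMod p) ⧸ S) = ((odeg_act g v : H → ZMod p) : (H → ZMod p) ⧸ S) :=
    fun _ _ => rfl
  obtain ⟨v, hv⟩ : ∃ v : H → ZMod p, v ∉ S := by
    by_contra hcon
    apply hne
    rw [AddSubgroup.eq_top_iff']
    intro v
    by_contra hv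
    exact hcon ⟨v, hv⟩
  have hv0 : (v : (H → ZMod p) ⧸ S) ≠ 0 := fun e => hv ((QuotientAddGroup.eq_zero_iff v).1 e)
  have hpv : p • (v : (H → ZMod p) ⧸ S) = 0 := by
    have e : p • v = 0 := by
      funext h
      show p • v h = 0
      rw [nsmul_eq_mul, ZMod.natCast_self, zero_mul]
    rw [← QuotientAddGroup.mk_nsmul, e, QuotientAddGroup.mk_zero]
  have hord : addOrderOf (v : (H → ZMod p) ⧸ S) = p := addOrderOf_eq_prime hpv hv0
  have hdvd : p ∣ Nat.card ((H → ZMod p) ⧸ S) := by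
    have e := addOrderOf_dvd_natCard (v : (H → ZMod p) ⧸ S)
    rwa [hord] at e
  have h0 : (0 : (H → ZMod p) ⧸ S) ∈ MulAction.fixedPoints H ((H → ZMod p) ⧸ S) := by
    intro g
    rw [← QuotientAddGroup.mk_zero, hsm, map_zero]
  obtain ⟨b, hb, hb0⟩ :=
    hH.exists_fixed_point_of_prime_dvd_card_of_fixed_point ((H → ZMod p) ⧸ S) hdvd h0
  induction b using QuotientAddGroup.induction_on with
  | H w =>
    refine ⟨w, fun hw => hb0 ((QuotientAddGroup.eq_zero_iff w).2 hw).symm, fun g => ?_⟩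
    have e := hb g
    rw [hsm] at e
    rw [← QuotientAddGroup.eq_iff_sub_mem]
    exact e

theorem odeg_fil_top {p : ℕ} [hp : Fact p.Prime] {H : Type} [Group H] [Fintype H]
    (hH : IsPGroup p H) : ∃ d : ℕ, odeg_fil H (ZMod p) d = ⊤ := by
  have : NeZero p := ⟨hp.out.ne_zero⟩
  by_contra hcon
  have hlt : ∀ i, odeg_fil H (ZMod p) i < odeg_fil H (ZMod p) (i + 1) := by
    intro i
    obtain ⟨w, hw, hw'⟩ := odeg_fix hH (odeg_fil H (ZMod p) i) (odeg_fil_inv i)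
      (fun e => hcon ⟨i, e⟩)
    refine lt_of_le_of_ne (odeg_fil_le i) (fun e => hw ?_)
    rw [e]
    exact (odeg_mem_succ i w).2 hw'
  have hsm : StrictMono (odeg_fil H (ZMod p)) := strictMono_nat_of_lt_succ hlt
  exact not_injective_infinite_finite _ hsm.injective

theorem odeg_deg {H R X : Type} [Group H] [AddCommGroup R] [DecidableEq X] (Y : Finset X)
    (i : ℕ) : ∀ (l : List (X × H × H)) (v : H → R), v ∈ odeg_fil H R i →
      DL ⊥ (fun _ => True) i Y (fun A => odeg_act (prog l A) v) := by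
  induction i with
  | zero =>
    intro l v hv A _ _
    have e : v = 0 := AddSubgroup.mem_bot.1 hv
    show odeg_act (prog l A) v ∈ (⊥ : AddSubgroup (H → R))
    rw [e, map_zero]
    exact AddSubgroup.zero_mem _
  | succ i ih =>
    intro l v hv
    induction l using List.reverseRecOn with
    | nil =>
      refine DL.congr clo_true (DL_const v) (fun A _ _ => ?_)
      rw [prog_nil, odeg_act_one]
    | append_singleton l q ihl =>
      have h1 := ih l _ ((odeg_mem_succ i v).1 hv q.2.1)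
      have h2 := ih l _ ((odeg_mem_succ i v).1 hv q.2.2)
      have h3 := (ihl.add (h1.ite_mem q.1)).add ((h2.succ clo_true).sub (h2.ite_mem q.1))
      refine DL.congr clo_true h3 (fun A _ _ => ?_)
      rw [prog_snoc, odeg_act_mul]
      by_cases e : q.1 ∈ A
      · simp only [e, if_true, map_sub]
        abel
      · simp only [e, if_false, map_sub]
        abel

/-- programs over a `p`-group have bounded degree. -/
theorem p_group_deg {p : ℕ} [Fact p.Prime] (H : Type) [Group H] [Fintype H] (hH : IsPGroup p H) :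
    ∃ d : ℕ, ∀ (X : Type) [DecidableEq X] (Y : Finset X) (l : List (X × H × H)),
      DL ⊥ (fun _ => True) (d + 1) Y
        (fun A => (fun h => if h = prog l A then 1 else 0 : H → ZMod p)) := by
  obtain ⟨d, hd⟩ := odeg_fil_top hH
  refine ⟨d, fun X _ Y l => ?_⟩
  have hv : (fun h => if h = 1 then 1 else 0 : H → ZMod p) ∈ odeg_fil H (ZMod p) d := by
    rw [hd]
    exact AddSubgroup.mem_top _
  refine DL.congr clo_true ((odeg_deg Y d l _ hv).succ clo_true) (fun A _ _ => ?_)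
  funext h
  show (if (prog l A)⁻¹ * h = 1 then (1 : ZMod p) else 0) = if h = prog l A then 1 else 0
  by_cases e : h = prog l A
  · rw [if_pos e, if_pos (by rw [e, inv_mul_cancel])]
  · rw [if_neg e, if_neg (fun e' => e (inv_mul_eq_one.1 e').symm)]

end Pool.Agent.P.MP_85fe51_lc.OD
end

-- part Pool.Agent.P.MP_85fe51_lc.OGrp
section

set_option autoImplicit false

namespace Pool.Agent.P.MP_85fe51_lc.OD

open Finset
open scoped Classical

variable {p : ℕ} [Fact p.Prime]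

theorem ogrp_shift {ι M : Type} [Fintype ι] [DecidableEq ι] [AddCommGroup M]
    (a a' : ι → ZMod p) (h : a' ≠ a) (m : M) :
    ∑ ℓ : ι → ZMod p, (if ∑ i, ℓ i * a' i = ∑ i, ℓ i * a i then m else 0) =
      ∑ ℓ : ι → ZMod p, (if ∑ i, ℓ i * a' i = ∑ i, ℓ i * a i + 1 then m else 0) := by
  obtain ⟨i0, hi0⟩ := Function.ne_iff.mp h
  have hd : a' i0 - a i0 ≠ 0 := sub_ne_zero.mpr hi0
  refine Fintype.sum_equiv (Equiv.addRight (Pi.single i0 (a' i0 - a i0)⁻¹)) _ _ ?_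
  intro ℓ
  have e1 : ∀ b : ι → ZMod p,
      ∑ i, (Equiv.addRight (Pi.single i0 (a' i0 - a i0)⁻¹ : ι → ZMod p) ℓ) i * b i
        = ∑ i, ℓ i * b i + (a' i0 - a i0)⁻¹ * b i0 := by
    intro b
    simp only [Equiv.coe_addRight, Pi.add_apply, add_mul, sum_add_distrib]
    congr 1
    rw [sum_eq_single i0]
    · rw [Pi.single_eq_same]
    · intro i _ hi
      rw [Pi.single_eq_of_ne hi, zero_mul]
    · intro hh
      exact absurd (mem_univ _) hh
  rw [e1, e1]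
  have e2 : (a' i0 - a i0)⁻¹ * a' i0 = (a' i0 - a i0)⁻¹ * a i0 + 1 := by
    rw [← inv_mul_cancel₀ hd]
    ring
  rw [e2, add_assoc]
  simp only [add_left_inj]

/-- every map on a vector space over the prime field is a sum of sum-zero ridge functions. -/
theorem radon {ι M : Type} [Fintype ι] [DecidableEq ι] [AddCommGroup M] [Fintype M]
    (hM : Nat.Coprime (Fintype.card M) p) (φ : (ι → ZMod p) → M) :
    ∃ ψ : (ι → ZMod p) → ZMod p → M, (∀ ℓ, SZ (ψ ℓ)) ∧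
      ∀ a, φ a = ∑ ℓ : ι → ZMod p, ψ ℓ (∑ i, ℓ i * a i) := by
  have hcop : Nat.Coprime (Nat.card M) (Fintype.card (ι → ZMod p)) := by
    rw [Nat.card_eq_fintype_card, Fintype.card_fun, ZMod.card]
    exact Nat.Coprime.pow_right _ hM
  have hex : ∀ a, ∃ m : M, Fintype.card (ι → ZMod p) • m = φ a := fun a =>
    (nsmulCoprime hcop).surjective (φ a)
  choose φ' hφ' using hex
  refine ⟨fun ℓ s => ∑ a' : ι → ZMod p,
    ((if ∑ i, ℓ i * a' i = s then φ' a' else 0) -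
      (if ∑ i, ℓ i * a' i = s + 1 then φ' a' else 0)), ?_, ?_⟩
  · intro ℓ
    unfold SZ
    rw [sum_comm]
    apply sum_eq_zero
    intro a' _
    rw [sum_sub_distrib, sum_ite_eq, if_pos (mem_univ _)]
    have h1 : ∀ s : ZMod p, (∑ i, ℓ i * a' i = s + 1) ↔ (∑ i, ℓ i * a' i - 1 = s) := fun s =>
      sub_eq_iff_eq_add.symm
    simp only [h1]
    rw [sum_ite_eq, if_pos (mem_univ _), sub_self]
  · intro a
    rw [sum_comm, sum_eq_single a]
    · rw [← hφ' a]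
      have h1 : ∀ s : ZMod p, ¬ (s = s + 1) := fun s h => by
        simp at h
      simp only [h1, if_true, if_false, sub_zero, sum_const, card_univ]
    · intro a' _ ha'
      rw [sum_sub_distrib, ogrp_shift a a' ha' (φ' a'), sub_self]
    · intro h
      exact absurd (mem_univ a) h

theorem cocycle_data (G : Type) [Group G] [Finite G] (N : Subgroup G) [N.Normal]
    (hN : Nat.Coprime (Nat.card N) p) (hP : IsPGroup p (G ⧸ N))
    (hpow : ∀ g : G, ∀ a ∈ N, g ^ p * a = a * g ^ p)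
    (hcom : ∀ g h : G, ∀ a ∈ N, g * h * g⁻¹ * h⁻¹ * a = a * (g * h * g⁻¹ * h⁻¹)) :
    ∃ (M : Type) (_ : AddCommGroup M) (_ : Fintype M) (Q : Type) (_ : CommGroup Q)
      (α : G →* Q) (c : Q → G → M) (ν : G → M),
      Nat.Coprime (Fintype.card M) p ∧ (∀ q : Q, q ^ p = 1) ∧ ν 1 = 0 ∧
      (∀ g g' : G, ν (g * g') = ν g + c (α g) g') ∧
      ∀ g g' : G, ν g = ν g' → (g : G ⧸ N) = (g' : G ⧸ N) → g = g' := by
  have hcomm : ∀ a b : N, a * b = b * a := by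
    intro a b
    obtain ⟨a0, rfl⟩ := (powCoprime hN).surjective a
    apply Subtype.ext
    have h2 := hpow (a0 : G) b b.2
    simpa using h2
  obtain ⟨e, he⟩ := IsPGroup.exists_card_eq hP
  have hcop : Nat.Coprime (Nat.card N) N.index := by
    rw [Subgroup.index_eq_card, he]
    exact Nat.Coprime.pow_right e hN
  obtain ⟨H, hH⟩ := Subgroup.exists_right_complement'_of_coprime hcop
  have hex : ∀ g : G, ∃ n : N, ∃ h : H, (n : G) * (h : G) = g := by
    intro g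
    obtain ⟨⟨n, h⟩, hnh⟩ := hH.2 g
    exact ⟨n, h, hnh⟩
  have huniq : ∀ (n n' : N) (h h' : H), (n : G) * (h : G) = (n' : G) * (h' : G) → n = n' := by
    intro n n' h h' hnh
    have := hH.1 (a₁ := (n, h)) (a₂ := (n', h')) hnh
    exact congrArg Prod.fst this
  choose nu eta hne using hex
  let cN : CommGroup N := { (inferInstance : Group N) with mul_comm := hcomm }
  let A : G →* MulAut N := MulAut.conjNormal
  have hker : ∀ g : G, (∀ a ∈ N, g * a = a * g) → A g = 1 := by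
    intro g hg
    ext a
    simp only [A, MulAut.conjNormal_apply, MulAut.one_apply]
    rw [hg a a.2]
    group
  have hQ : ∀ q : A.range, q ^ p = 1 := by
    rintro ⟨q, g, rfl⟩
    apply Subtype.ext
    show A g ^ p = 1
    rw [← map_pow]
    exact hker _ (hpow g)
  have hQc : ∀ q q' : A.range, q * q' = q' * q := by
    rintro ⟨q, g, rfl⟩ ⟨q', g', rfl⟩
    apply Subtype.ext
    show A g * A g' = A g' * A g
    have h1 := hker _ (hcom g g')
    rw [map_mul, map_mul, map_mul, map_inv, map_inv] at h1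
    calc A g * A g' = A g * A g' * (A g)⁻¹ * (A g')⁻¹ * (A g' * A g) := by group
      _ = A g' * A g := by rw [h1, one_mul]
  let cQ : CommGroup A.range :=
    { (inferInstance : Group A.range) with mul_comm := hQc }
  refine ⟨Additive N, Additive.addCommGroup, Fintype.ofFinite _, A.range, cQ, A.rangeRestrict,
    fun q g' => Additive.ofMul (q.1 (nu g')), fun g => Additive.ofMul (nu g), ?_, hQ, ?_, ?_, ?_⟩
  · rw [← @Nat.card_eq_fintype_card _ (Fintype.ofFinite _)]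
    exact hN
  · have : nu 1 = 1 := huniq (nu 1) 1 (eta 1) 1 (by rw [hne]; simp)
    show Additive.ofMul (nu 1) = 0
    rw [this]
    rfl
  · intro g g'
    have key : nu (g * g') = nu g * A g (nu g') := by
      apply huniq _ _ (eta (g * g')) (eta g * eta g')
      rw [hne]
      have hc : ((nu g : N) : G) * (A g (nu g') : N) = (A g (nu g') : N) * (nu g : N) := by
        rw [← Subgroup.coe_mul, ← Subgroup.coe_mul, hcomm]
      rw [Subgroup.coe_mul, Subgroup.coe_mul, hc]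
      simp only [A, MulAut.conjNormal_apply]
      have e1 := hne g
      have e2 := hne g'
      calc g * g' = g * ((nu g' : G) * (eta g' : G)) := by rw [e2]
        _ = g * (nu g' : G) * g⁻¹ * g * (eta g' : G) := by group
        _ = g * (nu g' : G) * g⁻¹ * ((nu g : G) * (eta g : G)) * (eta g' : G) := by rw [e1]
        _ = g * (nu g' : G) * g⁻¹ * (nu g : G) * ((eta g : G) * (eta g' : G)) := by group
    show Additive.ofMul (nu (g * g')) = Additive.ofMul (nu g) + Additive.ofMul (A g (nu g'))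
    rw [key]
    rfl
  · intro g g' hν hq
    have hn : nu g = nu g' := Additive.ofMul.injective hν
    have hmem : g⁻¹ * g' ∈ N := QuotientGroup.eq.mp hq
    have e1 := hne g
    have e2 := hne g'
    have e3 : g⁻¹ * g' = ((eta g)⁻¹ * eta g' : H) := by
      rw [Subgroup.coe_mul, Subgroup.coe_inv]
      calc g⁻¹ * g' = ((nu g : G) * (eta g : G))⁻¹ * ((nu g' : G) * (eta g' : G)) := by
            rw [e1, e2]
        _ = (eta g : G)⁻¹ * (eta g' : G) := by rw [hn]; group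
    have hmemH : g⁻¹ * g' ∈ H := by
      rw [e3]
      exact Subtype.property _
    have h1 : g⁻¹ * g' = 1 := Subgroup.disjoint_def.mp hH.disjoint hmem hmemH
    exact inv_mul_eq_one.mp h1

theorem ogrp_pow_add {Q : Type} [CommGroup Q] (q : Q) (hq : q ^ p = 1) (s t : ZMod p) :
    q ^ (s + t).val = q ^ s.val * q ^ t.val := by
  rw [ZMod.val_add, ← pow_eq_pow_mod _ hq, pow_add]

theorem ogrp_dot_single {X : Type} [Fintype X] [DecidableEq X] (x : X) (A : Finset X) :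
    dot (Pi.single x (1 : ZMod p) : Vec p X) A = if x ∈ A then 1 else 0 := by
  unfold dot
  simp only [Pi.single_apply]
  rw [sum_ite_eq']

theorem ogrp_form {G Q X : Type} [Group G] [Fintype G] [CommGroup Q] [Fintype X] [DecidableEq X]
    (α : G →* Q) (hQ : ∀ q : Q, q ^ p = 1) (l : List (X × G × G)) :
    ∃ (lam : G → Vec p X) (k : Q), ∀ A : Finset X,
      α (prog l A) = k * ∏ g : G, α g ^ (dot (lam g) A).val := by
  induction l using List.reverseRecOn with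
  | nil =>
    refine ⟨fun _ => 0, 1, fun A => ?_⟩
    rw [prog_nil]
    simp [dot_zero]
  | append_singleton l q ih =>
    obtain ⟨lam, k, hk⟩ := ih
    refine ⟨fun g => lam g + if g = q.2.2⁻¹ * q.2.1 then Pi.single q.1 1 else 0, k * α q.2.2,
      fun A => ?_⟩
    rw [prog_snoc, map_mul, hk]
    have e1 : ∀ g : G,
        α g ^ (dot (lam g + if g = q.2.2⁻¹ * q.2.1 then (Pi.single q.1 1 : Vec p X) else 0) A).val
        = α g ^ (dot (lam g) A).val *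
          (if g = q.2.2⁻¹ * q.2.1 then (if q.1 ∈ A then α g else 1) else 1) := by
      intro g
      rw [dot_add, ogrp_pow_add _ (hQ _)]
      congr 1
      by_cases hg : g = q.2.2⁻¹ * q.2.1
      · rw [if_pos hg, if_pos hg, ogrp_dot_single]
        by_cases hA : q.1 ∈ A
        · rw [if_pos hA, if_pos hA, ZMod.val_one, pow_one]
        · rw [if_neg hA, if_neg hA, ZMod.val_zero, pow_zero]
      · rw [if_neg hg, if_neg hg, dot_zero, ZMod.val_zero, pow_zero]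
    rw [prod_congr rfl (fun g _ => e1 g), prod_mul_distrib, prod_ite_eq']
    simp only [mem_univ, if_true]
    have e2 : α (if q.1 ∈ A then q.2.1 else q.2.2)
        = α q.2.2 * (if q.1 ∈ A then α (q.2.2⁻¹ * q.2.1) else 1) := by
      by_cases h1 : q.1 ∈ A
      · simp only [if_pos h1, ← map_mul, mul_inv_cancel_left]
      · simp only [if_neg h1, mul_one]
    rw [e2]
    ac_rfl

theorem ogrp_sparse {G Q M X : Type} [Group G] [Fintype G] [CommGroup Q] [AddCommGroup M]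
    [Fintype M] [Fintype X] [DecidableEq X] (hM : Nat.Coprime (Fintype.card M) p) (α : G →* Q)
    (hQ : ∀ q : Q, q ^ p = 1) (c : Q → G → M) (ν : G → M) (h1 : ν 1 = 0)
    (hν : ∀ g g' : G, ν (g * g') = ν g + c (α g) g') (l : List (X × G × G)) :
    ∃ (T : Type) (_ : Fintype T) (lam : T → Vec p X) (phi : T → ZMod p → M),
      Fintype.card T ≤ Fintype.card (Option G → ZMod p) * l.length ∧ (∀ t, SZ (phi t)) ∧
      ∀ A, ν (prog l A) = Sf lam phi A := by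
  induction l using List.reverseRecOn with
  | nil =>
    refine ⟨Empty, inferInstance, fun t => t.elim, fun t => t.elim, by simp, fun t => t.elim,
      fun A => ?_⟩
    rw [prog_nil, h1]
    simp [Sf]
  | append_singleton l q ih =>
    obtain ⟨T, iT, lam, phi, hT, hSZ, hS⟩ := ih
    obtain ⟨mu, k, hk⟩ := ogrp_form α hQ l
    obtain ⟨ψ, hψ, hψ'⟩ := radon hM (fun a : Option G → ZMod p =>
      c (k * ∏ g : G, α g ^ (a (some g)).val) (if a none = 1 then q.2.1 else q.2.2))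
    let L : Option G → Vec p X := fun o => o.elim (Pi.single q.1 1) mu
    refine ⟨T ⊕ (Option G → ZMod p), inferInstance, Sum.elim lam (fun ℓ => ∑ o, ℓ o • L o),
      Sum.elim phi ψ, ?_, ?_, fun A => ?_⟩
    · rw [Fintype.card_sum, List.length_append, List.length_singleton, Nat.mul_succ]
      omega
    · rintro (t | t)
      · exact hSZ t
      · exact hψ t
    · rw [prog_snoc, hν, hS A, hk A]
      unfold Sf
      rw [Fintype.sum_sum_type]
      simp only [Sum.elim_inl, Sum.elim_inr]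
      congr 1
      have e1 : ∀ ℓ : Option G → ZMod p,
          dot (∑ o, ℓ o • L o) A = ∑ o, ℓ o * dot (L o) A := by
        intro ℓ
        rw [dot_sum]
        exact sum_congr rfl (fun o _ => dot_smul _ _ _)
      simp only [e1]
      rw [← hψ' (fun o => dot (L o) A)]
      have e2 : (dot (L none) A = 1) ↔ q.1 ∈ A := by
        show dot (Pi.single q.1 1 : Vec p X) A = 1 ↔ _
        rw [ogrp_dot_single]
        by_cases hA : q.1 ∈ A <;> simp [hA]
      simp only [e2]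
      rfl

/-- the normal part of a program value is a short sum of ridge functions. -/
theorem group_data (G : Type) [Group G] [Finite G] (N : Subgroup G) [N.Normal]
    (hN : Nat.Coprime (Nat.card N) p) (hP : IsPGroup p (G ⧸ N))
    (hpow : ∀ g : G, ∀ a ∈ N, g ^ p * a = a * g ^ p)
    (hcom : ∀ g h : G, ∀ a ∈ N, g * h * g⁻¹ * h⁻¹ * a = a * (g * h * g⁻¹ * h⁻¹)) :
    ∃ (M : Type) (_ : AddCommGroup M) (_ : Fintype M) (ν : G → M) (C : ℕ),
      Nat.Coprime (Fintype.card M) p ∧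
      (∀ g g' : G, ν g = ν g' → (g : G ⧸ N) = (g' : G ⧸ N) → g = g') ∧
      ∀ (X : Type) [Fintype X] [DecidableEq X] (l : List (X × G × G)),
        ∃ (T : Type) (_ : Fintype T) (lam : T → Vec p X) (phi : T → ZMod p → M),
          Fintype.card T ≤ C * l.length ∧ (∀ t, SZ (phi t)) ∧
          ∀ A, ν (prog l A) = Sf lam phi A := by
  obtain ⟨M, iM, fM, Q, iQ, α, c, ν, hM, hQ, h1, hν, hinj⟩ := cocycle_data G N hN hP hpow hcom
  have : Fintype G := Fintype.ofFinite G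
  refine ⟨M, iM, fM, ν, Fintype.card (Option G → ZMod p), hM, hinj, ?_⟩
  intro X _ _ l
  exact ogrp_sparse hM α hQ c ν h1 hν l

end Pool.Agent.P.MP_85fe51_lc.OD
end

-- part Pool.Agent.P.MP_85fe51_lc.OMain
section

set_option autoImplicit false

namespace Pool.Agent.P.MP_85fe51_lc.OD

open Finset
open scoped Classical

theorem arith (B y0 C : ℕ) (hB : 1 ≤ B) : ∃ B' n0 : ℕ, 1 ≤ B' ∧ ∀ n L : ℕ, n0 ≤ n →
    (∀ y, y0 ≤ y → (2 ^ y) ^ B ≤ n → n ≤ (2 ^ y) ^ (B + 1) → (2 ^ y) ^ (B + 1) < C * L) →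
    n ^ (B' + 1) ≤ L ^ B' := by
  refine ⟨2 * B, (2 ^ B) ^ (y0 + 2 * B + 1 + 2 * C), by omega, fun n L hn h => ?_⟩
  have hb : 1 < 2 ^ B := Nat.one_lt_two_pow (by omega)
  have hn0 : n ≠ 0 := by
    have : 0 < (2 ^ B) ^ (y0 + 2 * B + 1 + 2 * C) := by positivity
    omega
  obtain ⟨y, hy⟩ : ∃ y, y = Nat.log (2 ^ B) n := ⟨_, rfl⟩
  have h1 : (2 ^ B) ^ y ≤ n := hy ▸ Nat.pow_log_le_self _ hn0
  have h2 : n < (2 ^ B) ^ (y + 1) := hy ▸ Nat.lt_pow_succ_log_self hb n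
  have h3 : y0 + 2 * B + 1 + 2 * C ≤ y := hy ▸ Nat.le_log_of_pow_le hb hn
  have h4 : n ≤ 2 ^ (B * (y + 1)) := by
    rw [pow_mul]
    exact h2.le
  have h5 := h y (by omega) (by rw [← pow_mul, mul_comm, pow_mul]; exact h1) (by
    rw [← pow_mul]
    refine h4.trans (Nat.pow_le_pow_right (by norm_num) ?_)
    have : B ≤ y := by omega
    nlinarith)
  have hC : C ≤ y * (B + 1) := by
    have : C ≤ y := by omega
    nlinarith [Nat.zero_le (y * B)]
  obtain ⟨w, hw⟩ := Nat.exists_eq_add_of_le hC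
  have h6 : 2 ^ w ≤ L := by
    rw [← pow_mul, hw, pow_add] at h5
    have h7 : C * L ≤ 2 ^ C * L := Nat.mul_le_mul_right _ (Nat.lt_two_pow_self).le
    exact (Nat.lt_of_mul_lt_mul_left (h5.trans_le h7)).le
  have h8 : (y + 1) * (2 * B + 1) ≤ 2 * w := by
    have : 2 * B + 1 + 2 * C ≤ y := by omega
    nlinarith
  calc n ^ (2 * B + 1) ≤ (2 ^ (B * (y + 1))) ^ (2 * B + 1) := Nat.pow_le_pow_left h4 _
    _ = 2 ^ (B * ((y + 1) * (2 * B + 1))) := by rw [← pow_mul, mul_assoc]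
    _ ≤ 2 ^ (B * (2 * w)) := Nat.pow_le_pow_right (by norm_num) (Nat.mul_le_mul_left _ h8)
    _ = (2 ^ w) ^ (2 * B) := by
      rw [← pow_mul]
      congr 1
      ring
    _ ≤ L ^ (2 * B) := Nat.pow_le_pow_left h6 _

/-- a program that isolates the empty set is long. -/
theorem omain_isolate {p : ℕ} [Fact p.Prime] (hc : Core p) (G : Type) [Group G] [Finite G]
    (N : Subgroup G) [N.Normal] (hN : Nat.Coprime (Nat.card N) p) (hP : IsPGroup p (G ⧸ N))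
    (hpow : ∀ g : G, ∀ a ∈ N, g ^ p * a = a * g ^ p)
    (hcom : ∀ g h : G, ∀ a ∈ N, g * h * g⁻¹ * h⁻¹ * a = a * (g * h * g⁻¹ * h⁻¹)) :
    ∃ B y0 C : ℕ, 1 ≤ B ∧ ∀ (n : ℕ) (l : List (Fin n × G × G)),
      (∀ S : Finset (Fin n), S.Nonempty → prog l S ≠ prog l ∅) →
      ∀ y, y0 ≤ y → (2 ^ y) ^ B ≤ n → n ≤ (2 ^ y) ^ (B + 1) →
        (2 ^ y) ^ (B + 1) < C * l.length := by
  have : NeZero p := ⟨(Fact.out : p.Prime).ne_zero⟩
  have : Fintype (G ⧸ N) := Fintype.ofFinite _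
  obtain ⟨M, _, _, ν, C, hM, hinj, hdata⟩ := group_data G N hN hP hpow hcom
  obtain ⟨d, hd⟩ := p_group_deg (G ⧸ N) hP
  obtain ⟨B, y0, hB, hcore⟩ := hc M (G ⧸ N → ZMod p) hM d
  refine ⟨B, y0, C, hB, fun n l hiso y hy h1 h2 => ?_⟩
  by_contra hlt
  obtain ⟨T, _, lam, phi, hT, hSZ, hν⟩ := hdata (Fin n) l
  let π : G →* G ⧸ N := QuotientGroup.mk' N
  obtain ⟨S, hS, hS1, hS2⟩ := hcore y hy (Fin n) T lam phi _ hSZ (by simpa using h1)
    (by simpa using h2) (hT.trans (not_lt.mp hlt))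
    (hd (Fin n) univ (l.map (fun q => (q.1, π q.2.1, π q.2.2))))
  refine hiso S hS (hinj _ _ (by rw [hν, hν, hS1]) ?_)
  have h3 := congrFun hS2 (π (prog l S))
  simp only [prog_map, if_true] at h3
  by_contra hne
  have hne' : ¬ π (prog l S) = π (prog l ∅) := hne
  rw [if_neg hne'] at h3
  exact one_ne_zero h3

theorem main_of_core {p : ℕ} [Fact p.Prime] (hc : Core p) (G : Type) [Group G] [Finite G]
    (N : Subgroup G) [N.Normal] (hN : Nat.Coprime (Nat.card N) p) (hP : IsPGroup p (G ⧸ N))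
    (hpow : ∀ g : G, ∀ a ∈ N, g ^ p * a = a * g ^ p)
    (hcom : ∀ g h : G, ∀ a ∈ N, g * h * g⁻¹ * h⁻¹ * a = a * (g * h * g⁻¹ * h⁻¹)) :
    ∃ B n0 : ℕ, 1 ≤ B ∧ ∀ (n L : ℕ) (var : Fin L → Fin n) (a b : Fin L → G) (A : Set G)
      (y : Fin n → Bool), n0 ≤ n →
      (∀ x : Fin n → Bool, x = y ↔
        (List.ofFn (fun j : Fin L => if x (var j) then a j else b j)).prod ∈ A) →
      n ^ (B + 1) ≤ L ^ B := by
  obtain ⟨B, y0, C, hB, hC⟩ := omain_isolate hc G N hN hP hpow hcom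
  obtain ⟨B', n0, hB', hC'⟩ := arith B y0 C hB
  refine ⟨B', n0, hB', fun n L var a b A y hn hA => hC' n L hn ?_⟩
  let inp : Finset (Fin n) → Fin n → Bool := fun S i => if i ∈ S then !(y i) else y i
  let l : List (Fin n × G × G) := List.ofFn (fun j : Fin L =>
    (var j, (if y (var j) then b j else a j), (if y (var j) then a j else b j)))
  have hprog : ∀ S : Finset (Fin n), prog l S =
      (List.ofFn (fun j : Fin L => if inp S (var j) then a j else b j)).prod := by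
    intro S
    simp only [prog, l, List.map_ofFn]
    congr 1
    refine congrArg List.ofFn (funext fun j => ?_)
    simp only [Function.comp, inp]
    by_cases h1 : var j ∈ S <;> by_cases hy : y (var j) = true <;> simp [h1, hy]
  have hinp0 : inp ∅ = y := by
    funext i
    simp [inp]
  have hlen : l.length = L := by simp [l]
  rw [← hlen]
  refine hC n l ?_
  rintro S ⟨i, hi⟩ heq
  have h0 : prog l ∅ ∈ A := by
    rw [hprog, hinp0]
    exact (hA y).1 rfl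
  rw [← heq, hprog] at h0
  have := congrFun ((hA (inp S)).2 h0) i
  simp only [inp, if_pos hi] at this
  cases hy : y i <;> simp [hy] at this

end Pool.Agent.P.MP_85fe51_lc.OD
end

-- part Pool.Agent.P.MP_85fe51_lc.OBour
section

set_option autoImplicit false

namespace Pool.Agent.P.MP_85fe51_lc.OD

open Finset
open scoped Classical

variable {p : ℕ} [Fact p.Prime]

theorem obour_bound (s : Finset ℝ) : ∃ γ : ℝ, 0 ≤ γ ∧ γ < 1 ∧ ∀ x ∈ s, x < 1 → x ≤ γ := by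
  induction s using Finset.induction_on with
  | empty => exact ⟨0, le_rfl, one_pos, by simp⟩
  | insert a s _ ih =>
    obtain ⟨γ, h0, h1, h⟩ := ih
    by_cases ha : a < 1
    · refine ⟨max γ a, le_max_of_le_left h0, max_lt h1 ha, fun x hx hx1 => ?_⟩
      rcases mem_insert.1 hx with rfl | hx
      · exact le_max_right _ _
      · exact le_max_of_le_left (h x hx hx1)
    · refine ⟨γ, h0, h1, fun x hx hx1 => ?_⟩
      rcases mem_insert.1 hx with rfl | hx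
      · exact absurd hx1 ha
      · exact h x hx hx1

theorem obour_pos {m : ℕ} (hm : Nat.Coprime m p) : 0 < m := by
  refine Nat.pos_of_ne_zero fun h => ?_
  rw [h, Nat.coprime_zero_left] at hm
  exact (Fact.out : p.Prime).ne_one hm

theorem obour_cast {m : ℕ} (hm : Nat.Coprime m p) : (m : ZMod p) ≠ 0 := by
  rw [Ne, ZMod.natCast_eq_zero_iff]
  exact ((Fact.out : p.Prime).coprime_iff_not_dvd).1 hm.symm

theorem obour_pow {V : Type} [AddCommGroup V] {m : ℕ} (hV : ∀ v : V, m • v = 0)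
    (τ : AddChar V ℂ) (v : V) : τ v ^ m = 1 := by
  rw [← AddChar.map_nsmul_eq_pow, hV, AddChar.map_zero_eq_one]

theorem obour_ch_sum {ι : Type} (I : Finset ι) (f : ι → ZMod p) :
    ch (∑ i ∈ I, f i) = ∏ i ∈ I, ch (f i) := by
  induction I using Finset.induction_on with
  | empty => simp [ch_zero]
  | insert a s ha ih => rw [sum_insert ha, prod_insert ha, ch_add, ih]

theorem obour_tau_sum {V ι : Type} [AddCommGroup V] (τ : AddChar V ℂ) (I : Finset ι) (f : ι → V) :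
    τ (∑ i ∈ I, f i) = ∏ i ∈ I, τ (f i) := by
  induction I using Finset.induction_on with
  | empty => simp
  | insert a s ha ih => rw [sum_insert ha, prod_insert ha, AddChar.map_add_eq_mul, ih]

theorem obour_norm {Ω : Type} (s : Finset Ω) (f : Ω → ℂ) :
    ‖s.expect f‖ ≤ s.expect (fun x => ‖f x‖) := by
  rw [expect_eq_sum_div_card, expect_eq_sum_div_card, norm_div, Complex.norm_natCast]
  exact div_le_div_of_nonneg_right (norm_sum_le _ _) (Nat.cast_nonneg _)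

section
variable {X : Type} [DecidableEq X]

theorem obour_split {K : Type} [Field K] [CharZero K] (a : Finset X) (f g : X → K) :
    a.powerset.expect (fun A => (∏ i ∈ A, f i) * ∏ i ∈ a \ A, g i) =
      ∏ i ∈ a, (f i + g i) / 2 := by
  rw [expect_eq_sum_div_card, ← prod_add, card_powerset, prod_div_distrib, prod_const]
  push_cast
  rfl

theorem obour_out {a T : Finset X} (hT : T ⊆ a) (θ : ℝ) :
    a.powerset.expect (fun A => θ ^ (T \ A).card) = ((1 + θ) / 2) ^ T.card := by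
  have h := obour_split a (fun _ => (1 : ℝ)) (fun i => if i ∈ T then θ else 1)
  have e1 : ∀ A : Finset X, (∏ _i ∈ A, (1 : ℝ)) * ∏ i ∈ a \ A, (if i ∈ T then θ else 1) =
      θ ^ (T \ A).card := by
    intro A
    rw [prod_const_one, one_mul, prod_ite_mem, prod_const]
    congr 2
    ext i
    simp only [mem_inter, mem_sdiff]
    exact ⟨fun h => ⟨h.2, h.1.2⟩, fun h => ⟨⟨hT h.1, h.2⟩, h.1⟩⟩
  have e2 : ∀ i : X, ((1 : ℝ) + if i ∈ T then θ else 1) / 2 =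
      if i ∈ T then (1 + θ) / 2 else 1 := by
    intro i
    split_ifs <;> norm_num
  simp only [e1, e2] at h
  rw [h, prod_ite_mem, prod_const, inter_eq_right.2 hT]

theorem obour_outs {m : ℕ} {a T : Finset X} (hT : T ⊆ a) (J : Finset (Fin m)) : ∀ θ : ℝ,
    (Fintype.piFinset fun _ : Fin m => a.powerset).expect
      (fun x => θ ^ (T \ J.biUnion x).card) = (1 - (1 - θ) / 2 ^ J.card) ^ T.card := by
  have hne : (Fintype.piFinset fun _ : Fin m => a.powerset).Nonempty :=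
    Fintype.piFinset_nonempty.2 fun _ => ⟨∅, empty_mem_powerset a⟩
  induction J using Finset.induction_on with
  | empty =>
    intro θ
    simp only [biUnion_empty, sdiff_empty, card_empty, pow_zero, div_one, sub_sub_cancel]
    exact expect_const hne _
  | insert j J hj ih =>
    intro θ
    rw [expect_update _ j]
    have e : ∀ x : Fin m → Finset X, a.powerset.expect
        (fun y => θ ^ (T \ (insert j J).biUnion (Function.update x j y)).card) =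
          ((1 + θ) / 2) ^ (T \ J.biUnion x).card := by
      intro x
      rw [← obour_out (sdiff_subset.trans hT) θ]
      refine expect_congr rfl fun y _ => ?_
      have e1 : J.biUnion (Function.update x j y) = J.biUnion x :=
        biUnion_congr rfl fun i hi => Function.update_of_ne (fun h : i = j => hj (h ▸ hi)) _ _
      rw [biUnion_insert, Function.update_self, e1, union_comm, sdiff_sdiff_left]
      rfl
    simp only [e]
    rw [ih, card_insert_of_notMem hj]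
    congr 1
    rw [pow_succ]
    field_simp
    ring

/-- the coordinates of `a` on which all the sets agree. -/
noncomputable def obourS {m : ℕ} (a : Finset X) (x : Fin m → Finset X) : Finset X :=
  a.filter fun i => ∀ j j', i ∈ x j → i ∈ x j'

theorem obour_class {m : ℕ} (hm : 0 < m) (a : Finset X) (G : (Fin m → Finset X) → ℂ) :
    (Fintype.piFinset fun _ : Fin m => a.powerset).expect G =
      (Fintype.piFinset fun _ : Fin m => a.powerset).expect (fun x =>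
        (obourS a x).powerset.expect fun C => G fun j => C ∪ (x j \ obourS a x)) := by
  rw [expect_cond _ (fun x => (obourS a x, fun j => x j \ obourS a x)) G]
  refine expect_congr rfl fun x hx => ?_
  have hxa : ∀ j, x j ⊆ a := fun j => mem_powerset.1 (Fintype.mem_piFinset.1 hx j)
  have hS : obourS a x ⊆ a := filter_subset _ _
  let j0 : Fin m := ⟨0, hm⟩
  have hinj : Set.InjOn (fun (C : Finset X) (j : Fin m) => C ∪ (x j \ obourS a x))
      ((obourS a x).powerset : Set (Finset X)) := by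
    intro C hC C' hC' h
    have h1 : C ⊆ obourS a x := mem_powerset.1 hC
    have h2 : C' ⊆ obourS a x := mem_powerset.1 hC'
    have h3 : C ∪ (x j0 \ obourS a x) = C' ∪ (x j0 \ obourS a x) := congrFun h j0
    ext i
    have h4 := congrArg (fun s => i ∈ s) h3
    simp only [mem_union, mem_sdiff, eq_iff_iff] at h4
    have := @h1 i
    have := @h2 i
    tauto
  rw [← expect_image hinj]
  refine expect_congr ?_ fun _ _ => rfl
  ext y
  simp only [mem_filter, mem_image, Fintype.mem_piFinset, mem_powerset, Prod.mk.injEq]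
  constructor
  · rintro ⟨-, h1, h2⟩
    refine ⟨y j0 ∩ obourS a x, inter_subset_right, funext fun j => ?_⟩
    have h3 : y j \ obourS a y = x j \ obourS a x := congrFun h2 j
    rw [← h3, ← h1]
    ext i
    simp only [mem_union, mem_inter, mem_sdiff]
    by_cases hi : i ∈ obourS a y
    · have h4 := (mem_filter.1 hi).2
      have := h4 j j0
      have := h4 j0 j
      tauto
    · tauto
  · rintro ⟨C, hC, rfl⟩
    have h1 : obourS a (fun j => C ∪ (x j \ obourS a x)) = obourS a x := by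
      ext i
      by_cases hi : i ∈ obourS a x
      · refine iff_of_true (mem_filter.2 ⟨hS hi, fun j j' h => ?_⟩) hi
        simp only [mem_union, mem_sdiff] at h ⊢
        tauto
      · refine iff_of_false (fun h => hi (mem_filter.2 ⟨(mem_filter.1 h).1, fun j j' h' => ?_⟩)) hi
        have h2 := (mem_filter.1 h).2 j j'
        simp only [mem_union, mem_sdiff] at h2
        have := @hC i
        tauto
    refine ⟨fun j => union_subset (hC.trans hS) (sdiff_subset.trans (hxa j)), h1, ?_⟩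
    funext j
    rw [h1]
    ext i
    simp only [mem_union, mem_sdiff]
    have := @hC i
    tauto

end

theorem obour_zero {m : ℕ} (hm : Nat.Coprime m p) : ∃ θ, ThB p m 0 θ := by
  obtain ⟨θ, h0, h1, h⟩ := obour_bound (univ.image fun s : ZMod p => ‖(ch s + 1) / 2‖)
  refine ⟨θ, h0, h1, fun X _ _ V _ hV τ a P μ hP => ?_⟩
  have hc : ∀ B, B ⊆ a → P B = P ∅ := by
    intro B hB
    have h2 : P (∅ ∪ B) - P ∅ ∈ (⊥ : AddSubgroup V) := hP B hB trivial ∅ (empty_subset _) trivial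
    rw [AddSubgroup.mem_bot, empty_union, sub_eq_zero] at h2
    exact h2
  have e : a.powerset.expect (fun A => τ (P A) * ch (dot μ A)) =
      τ (P ∅) * ∏ i ∈ a, (ch (μ i) + 1) / 2 := by
    rw [← obour_split a (fun i => ch (μ i)) (fun _ => 1), mul_expect]
    refine expect_congr rfl fun A hA => ?_
    rw [hc A (mem_powerset.1 hA), dot, obour_ch_sum, prod_const_one, mul_one]
  rw [e, norm_mul, Complex.norm_eq_one_of_pow_eq_one (obour_pow hV τ _) (obour_pos hm).ne',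
    one_mul, norm_prod, inter_comm, ← prod_const, ← prod_ite_mem]
  refine prod_le_prod (fun _ _ => norm_nonneg _) fun i _ => ?_
  split_ifs with hi
  · refine h _ (mem_image.2 ⟨μ i, mem_univ _, rfl⟩) ?_
    have h2 : ch (μ i) ≠ 1 := fun h => (mem_filter.1 hi).2 (ch_eq_one.1 h)
    have h3 := norm_add_le (ch (μ i)) 1
    have h4 : ‖ch (μ i) + 1‖ ≠ ‖ch (μ i)‖ + ‖(1 : ℂ)‖ := fun h =>
      h2 (eq_of_norm_eq_of_norm_add_eq (by rw [norm_ch, norm_one]) h)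
    have h5 := lt_of_le_of_ne h3 h4
    rw [norm_ch, norm_one] at h5
    rw [norm_div, Complex.norm_ofNat]
    linarith
  · have h3 := norm_add_le (ch (μ i)) 1
    rw [norm_ch, norm_one] at h3
    rw [norm_div, Complex.norm_ofNat]
    linarith

theorem obour_step {m : ℕ} (hm : Nat.Coprime m p) {c : ℕ} {θ : ℝ} (h : ThB p m c θ) :
    ∃ θ', ThB p m (c + 1) θ' := by
  obtain ⟨h0, h1, h⟩ := h
  have hm0 := obour_pos hm
  have hm1 : (1 : ℝ) ≤ m := by exact_mod_cast hm0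
  set δ : ℝ := (1 - θ) / 2 ^ m with hδ
  have hδ0 : 0 < δ := div_pos (by linarith) (by positivity)
  have hδ1 : δ ≤ 1 := by
    rw [hδ, div_le_one (by positivity)]
    have : (1 : ℝ) ≤ 2 ^ m := one_le_pow₀ (by norm_num)
    linarith
  have hq0 : 0 < δ / m := by positivity
  have hq1 : δ / m ≤ 1 := by
    rw [div_le_one (by linarith)]
    linarith
  refine ⟨1 - δ / m, by linarith, by linarith, fun X _ _ V _ hV τ a P μ hP => ?_⟩
  have hb : 1 - δ ≤ (1 - δ / m) ^ m := by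
    have h2 := one_add_mul_le_pow (a := -(δ / m)) (by linarith) m
    have h3 : (m : ℝ) * -(δ / m) = -δ := by field_simp
    rw [h3] at h2
    simpa only [sub_eq_add_neg] using h2
  refine le_of_pow_le_pow_left₀ hm0.ne' (pow_nonneg (by linarith) _) ?_
  rw [← pow_mul, mul_comm, pow_mul, ← norm_pow, expect_pow, obour_class hm0]
  refine (obour_norm _ _).trans (le_trans ?_ (pow_le_pow_left₀ (by linarith) hb _))
  have h2 := obour_outs (m := m) (T := supp μ ∩ a) inter_subset_right univ θ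
  rw [card_univ, Fintype.card_fin] at h2
  rw [hδ, ← h2]
  refine expect_le_expect fun x hx => ?_
  have hxa : ∀ j, x j ⊆ a := fun j => mem_powerset.1 (Fintype.mem_piFinset.1 hx j)
  have hS : obourS a x ⊆ a := filter_subset _ _
  have hD : DL ⊥ (fun _ => True) (c + 1) (obourS a x)
      (fun C => ∑ j, (P (C ∪ (x j \ obourS a x)) - P C)) :=
    DL_sum _ _ fun j _ => DL.mono_set (hP _ (sdiff_subset.trans (hxa j)) trivial) fun i hi =>
      mem_sdiff.2 ⟨hS hi, fun h' => (mem_sdiff.1 h').2 hi⟩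
  have h3 := h X V hV τ _ _ ((m : ZMod p) • μ) hD
  have e : (obourS a x).powerset.expect (fun C => ∏ j, τ (P (C ∪ (x j \ obourS a x))) *
      ch (dot μ (C ∪ (x j \ obourS a x)))) = ch (∑ j, dot μ (x j \ obourS a x)) *
        (obourS a x).powerset.expect (fun C => τ (∑ j, (P (C ∪ (x j \ obourS a x)) - P C)) *
          ch (dot ((m : ZMod p) • μ) C)) := by
    rw [mul_expect]
    refine expect_congr rfl fun C hC => ?_
    have hd : ∀ j, dot μ (C ∪ (x j \ obourS a x)) = dot μ C + dot μ (x j \ obourS a x) := fun j =>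
      dot_union μ (disjoint_left.2 fun i hi h' => (mem_sdiff.1 h').2 (mem_powerset.1 hC hi))
    simp only [hd]
    rw [prod_mul_distrib, ← obour_tau_sum, ← obour_ch_sum, sum_sub_distrib, sum_const, card_univ,
      Fintype.card_fin, hV, sub_zero, sum_add_distrib, sum_const, card_univ, Fintype.card_fin,
      nsmul_eq_mul, ch_add, dot_smul]
    ring
  rw [e, norm_mul, norm_ch, one_mul]
  refine h3.trans (pow_le_pow_of_le_one h0 h1.le (card_le_card fun i hi => ?_))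
  obtain ⟨hi1, hi2⟩ := mem_sdiff.1 hi
  obtain ⟨hi3, hi4⟩ := mem_inter.1 hi1
  refine mem_inter.2 ⟨mem_filter.2 ⟨mem_univ _, ?_⟩, mem_filter.2 ⟨hi4, fun j _ hj => ?_⟩⟩
  · exact mul_ne_zero (obour_cast hm) (mem_filter.1 hi3).2
  · exact absurd (mem_biUnion.2 ⟨j, mem_univ _, hj⟩) hi2

theorem exists_thB {m : ℕ} (hm : Nat.Coprime m p) (c : ℕ) : ∃ θ, ThB p m c θ := by
  induction c with
  | zero => exact obour_zero hm
  | succ c ih =>
    obtain ⟨θ, h⟩ := ih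
    exact obour_step hm h

theorem obour_eq {Ω : Type} [Fintype Ω] (z : Ω → ℂ) (hz : ∀ s, ‖z s‖ = 1)
    (h : 1 ≤ ‖(univ : Finset Ω).expect z‖) (s t : Ω) : z s = z t := by
  by_contra hne
  have hst : s ≠ t := fun e => hne (e ▸ rfl)
  have h1 : ‖z s + z t‖ < 2 := by
    have h3 := norm_add_le (z s) (z t)
    have h4 : ‖z s + z t‖ ≠ ‖z s‖ + ‖z t‖ := fun h =>
      hne (eq_of_norm_eq_of_norm_add_eq (by rw [hz, hz]) h)
    have h5 := lt_of_le_of_ne h3 h4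
    rw [hz, hz] at h5
    linarith
  have hsub : ({s, t} : Finset Ω) ⊆ univ := subset_univ _
  have h2 : ‖∑ x ∈ univ \ {s, t}, z x‖ ≤ ((univ \ {s, t} : Finset Ω).card : ℝ) := by
    refine (norm_sum_le _ _).trans (le_of_eq ?_)
    simp only [hz, sum_const, nsmul_eq_mul, mul_one]
  have h3 : ((univ \ {s, t} : Finset Ω).card : ℝ) + 2 = (univ : Finset Ω).card := by
    have := card_sdiff_add_card_eq_card hsub
    rw [card_pair hst] at this
    exact_mod_cast this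
  have h4 : (0 : ℝ) < (univ : Finset Ω).card := by
    have : (0 : ℝ) ≤ ((univ \ {s, t} : Finset Ω).card : ℝ) := Nat.cast_nonneg _
    linarith
  rw [expect_eq_sum_div_card, norm_div, Complex.norm_natCast, one_le_div h4, ← sum_sdiff hsub,
    sum_pair hst] at h
  have h5 := norm_add_le (∑ x ∈ univ \ {s, t}, z x) (z s + z t)
  linarith

theorem exists_gam {m : ℕ} (hm : Nat.Coprime m p) : ∃ γ, Gam p m γ := by
  have hm0 := obour_pos hm
  obtain ⟨γ, h0, h1, h⟩ := obour_bound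
    (((Fintype.piFinset fun _ : ZMod p => Polynomial.nthRootsFinset m (1 : ℂ)) ×ˢ
      (univ : Finset (ZMod p))).image fun q =>
        ‖(univ : Finset (ZMod p)).expect (fun s => ch (-(q.2 * s)) * q.1 s)‖)
  refine ⟨γ, h0, h1, fun V _ hV ψ hψ w hw hw0 i => ?_⟩
  refine h _ (mem_image.2 ⟨(fun s => ψ (w s), i), mem_product.2 ⟨Fintype.mem_piFinset.2 fun s =>
    (Polynomial.mem_nthRootsFinset hm0 1).2 (obour_pow hV ψ _), mem_univ _⟩, rfl⟩) ?_
  by_contra hn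
  have hz := obour_eq (fun s => ch (-(i * s)) * ψ (w s)) (fun s => by
    rw [norm_mul, norm_ch, Complex.norm_eq_one_of_pow_eq_one (obour_pow hV ψ _) hm0.ne', one_mul])
    (not_lt.1 hn)
  have hi : i = 0 := by
    have h2 := congrArg (fun z => z ^ m) (hz 1 0)
    simp only [mul_pow, obour_pow hV, mul_one, mul_zero, neg_zero, ch_zero, one_pow] at h2
    have h3 : ch (∑ _j : Fin m, -i) = 1 := by
      rw [obour_ch_sum, prod_const, card_univ, Fintype.card_fin, h2]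
    rw [ch_eq_one, sum_const, card_univ, Fintype.card_fin, nsmul_eq_mul, mul_eq_zero] at h3
    exact neg_eq_zero.1 (h3.resolve_left (obour_cast hm))
  have hc : ∀ s, w s = w 0 := by
    intro s
    have h2 := hz s 0
    simp only [hi, zero_mul, neg_zero, ch_zero, one_mul] at h2
    refine sub_eq_zero.1 (hψ _ ?_)
    have h3 : ψ (w s - w 0) * ψ (w 0) = ψ (w 0) := by
      rw [← AddChar.map_add_eq_mul, sub_add_cancel, h2]
    have h4 : ψ (w 0) ≠ 0 := fun e => by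
      have := obour_pow hV ψ (w 0)
      rw [e, zero_pow hm0.ne'] at this
      exact zero_ne_one this
    exact mul_right_cancel₀ h4 (by rw [h3, one_mul])
  have h5 : w 0 = 0 := by
    refine noP_of_coprime hm hV _ ?_
    have h6 : ∑ s, w s = ∑ _s : ZMod p, w 0 := sum_congr rfl fun s _ => hc s
    rw [sum_const, card_univ, ZMod.card] at h6
    rw [← h6]
    exact hw
  exact hw0 (funext fun s => (hc s).trans h5)

end Pool.Agent.P.MP_85fe51_lc.OD
end

-- part Pool.Agent.P.MP_85fe51_lc.OTop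
section

set_option autoImplicit false

namespace Pool.Agent.P.MP_85fe51_lc.OD

open Finset
open scoped Classical

theorem otop_E1 (p j : ℕ) (hp : 2 ≤ p) (hj : 1 ≤ j) :
    ∃ E1 : ℕ, 32 * j * ((p : ℝ) - 1) ^ E1 ≤ (p : ℝ) ^ E1 := by
  have hp0 : (0 : ℝ) < p := by exact_mod_cast (by omega : 0 < p)
  have hj0 : (0 : ℝ) < 32 * j := by
    have : (0 : ℝ) < j := by exact_mod_cast (by omega : 0 < j)
    positivity
  obtain ⟨E1, hE⟩ := exists_pow_lt_of_lt_one (x := 1 / (32 * j : ℝ)) (y := ((p : ℝ) - 1) / p)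
    (by positivity) ((div_lt_one hp0).2 (by linarith))
  refine ⟨E1, ?_⟩
  rw [div_pow, div_lt_div_iff₀ (by positivity) hj0] at hE
  linarith

theorem core (p : ℕ) [Fact p.Prime] : Core p := by
  intro N V0 _ _ _ _ hN c0
  have hp : 2 ≤ p := (Fact.out : p.Prime).two_le
  have hs : 1 ≤ Fintype.card N := Fintype.card_pos
  obtain ⟨j, hj1, hj⟩ := exists_olsJ (max c0 (9 * Fintype.card N + 16)) (Fintype.card (V0 × N))
  obtain ⟨E1, hE⟩ := otop_E1 p j hp hj1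
  obtain ⟨c1, hc1⟩ := exists_num p (Fintype.card N) (max c0 (9 * Fintype.card N + 16)) j E1 hp hs
    (le_max_right _ _) hj1
  obtain ⟨θ, hθ⟩ := exists_thB hN c1
  obtain ⟨γ, hγ⟩ := exists_gam hN
  obtain ⟨B, y0, hB, hnum⟩ := hc1 θ γ hθ.1 hθ.2.1 hγ.1 hγ.2.1
  refine ⟨B, y0, hB, fun y hy X T _ _ _ lam phi f0 hphi h1 h2 h3 hf => ?_⟩
  obtain ⟨ν⟩ := hnum y hy _ _ h1 h2 h3
  by_contra hcon
  have hno : ∀ A : Finset X, Sf lam phi A = Sf lam phi ∅ → f0 A = f0 ∅ → A = ∅ := by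
    intro A hA hA'
    by_contra hne
    exact hcon ⟨A, nonempty_iff_ne_empty.2 hne, hA, hA'⟩
  have hf' := hf.of_le clo_true (Nat.succ_le_succ (le_max_left c0 (9 * Fintype.card N + 16)))
  have key : ∀ i, i ≤ Fintype.card N → ∃ (Y : Finset X) (U : Sub p X) (N0 : AddSubgroup N),
      co Yᶜ ≤ U ∧ Fintype.card X ≤ ν.W ^ i * Y.card ∧ dO U Yᶜ ≤ 3 * i * ν.n1 ∧
      DL N0 (KerP U) (max c0 (9 * Fintype.card N + 16) + 1) Y (Sf lam phi) ∧
      Nat.card N0 + i ≤ Fintype.card N := by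
    intro i
    induction i with
    | zero =>
      intro _
      refine ⟨univ, ⊥, ⊤, fun η hη => ?_, by simp, ?_, ?_, by simp⟩
      · rw [Submodule.mem_bot]
        funext x
        exact hη x (by simp)
      · rw [dO, Submodule.map_bot, finrank_bot]
        exact Nat.zero_le _
      · exact DL_of_mem (fun _ _ h hA hB => kerP_union h hA hB) fun _ _ _ => AddSubgroup.mem_top _
    | succ i ih =>
      intro hi
      obtain ⟨Y, U, N0, k1, k2, k3, k4, k5⟩ := ih (by omega)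
      have hW : 0 < ν.W ^ Fintype.card N := pow_pos ν.hW1 _
      have hYc : ν.Ylo ≤ Y.card := by
        refine Nat.le_of_mul_le_mul_left (ν.xW.trans (k2.trans ?_)) hW
        exact Nat.mul_le_mul_right _ (Nat.pow_le_pow_right ν.hW1 (by omega))
      obtain ⟨Y2, U2, N2, l1, l2, l3, l4, l5⟩ := phase hN hθ hγ hj1 hj hE ν lam phi hphi f0 hf' hno
        Y U N0 k1 hYc (k3.trans (Nat.mul_le_mul_right _ (by omega))) k4
      refine ⟨Y2, U2, N2, l2, k2.trans ?_, l4.trans ?_, l5, ?_⟩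
      · rw [pow_succ, mul_assoc]
        exact Nat.mul_le_mul_left _ l3
      · rw [Nat.mul_succ, add_mul]
        exact Nat.add_le_add_right k3 _
      · have : Nat.card N2 < Nat.card N0 := by
          refine lt_of_not_ge fun h => l1.ne ?_
          exact AddSubgroup.eq_of_le_of_card_ge l1.le h
        omega
  obtain ⟨-, -, N0, -, -, -, -, h⟩ := key _ le_rfl
  have : 0 < Nat.card N0 := Nat.card_pos
  omega

end Pool.Agent.P.MP_85fe51_lc.OD
end
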