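import Mathlib

-- part Pool.Agent.P.MP_85fe51_lc.Words
section

set_option autoImplicit false

namespace Pool.Agent.P.MP_85fe51_lc

open Finset

section words
variable {ι : Type} [DecidableEq ι] {G : Type} [Group G]

/-- product of the letters of the word whose variable lies in `S` -/
def val (w : List (ι × G)) (S : Finset ι) : G :=
  (w.map (fun p => if p.1 ∈ S then p.2 else 1)).prod

/-- number of letters of the word carrying the variable `v` -/
def occ (w : List (ι × G)) (v : ι) : ℕ := w.countP (fun p => p.1 = v)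

@[simp] lemma val_nil (S : Finset ι) : val ([] : List (ι × G)) S = 1 := rfl

@[simp] lemma val_cons (p : ι × G) (w : List (ι × G)) (S : Finset ι) :
    val (p :: w) S = (if p.1 ∈ S then p.2 else 1) * val w S := by
  simp [val]

omit [Group G] in
@[simp] lemma occ_nil (v : ι) : occ ([] : List (ι × G)) v = 0 := rfl

omit [Group G] in
lemma occ_cons (p : ι × G) (w : List (ι × G)) (v : ι) :
    occ (p :: w) v = occ w v + if p.1 = v then 1 else 0 := by
  simp [occ, List.countP_cons]

lemma val_append (w w' : List (ι × G)) (S : Finset ι) :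
    val (w ++ w') S = val w S * val w' S := by
  simp [val]

omit [Group G] in
lemma occ_append (w w' : List (ι × G)) (v : ι) :
    occ (w ++ w') v = occ w v + occ w' v := by
  simp [occ]

lemma val_congr (w : List (ι × G)) (S S' : Finset ι)
    (h : ∀ v, occ w v ≠ 0 → (v ∈ S ↔ v ∈ S')) : val w S = val w S' := by
  induction w with
  | nil => simp
  | cons p w ih =>
    rw [val_cons, val_cons, ih]
    · have := h p.1 (by simp [occ_cons])
      simp only [this]
    · intro v hv
      exact h v (by rw [occ_cons]; omega)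

lemma val_empty (w : List (ι × G)) : val w (∅ : Finset ι) = 1 := by
  induction w with
  | nil => simp
  | cons p w ih => simp [ih]

lemma val_eq_one (w : List (ι × G)) (S : Finset ι) (h : ∀ v ∈ S, occ w v = 0) :
    val w S = 1 := by
  rw [val_congr w S ∅, val_empty]
  intro v hv
  simp only [Finset.notMem_empty, iff_false]
  exact fun hs => hv (h v hs)

lemma val_flatten_ofFn {q : ℕ} (c : Fin q → List (ι × G)) (S : Finset ι) :
    val (List.ofFn c).flatten S = (List.ofFn (fun t => val (c t) S)).prod := by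
  induction q with
  | zero => simp
  | succ q ih =>
    rw [List.ofFn_succ, List.ofFn_succ, List.flatten_cons, val_append, List.prod_cons, ih]

omit [Group G] in
lemma occ_flatten_ofFn {q : ℕ} (c : Fin q → List (ι × G)) (v : ι) :
    occ (List.ofFn c).flatten v = ∑ t, occ (c t) v := by
  induction q with
  | zero => simp
  | succ q ih =>
    rw [List.ofFn_succ, List.flatten_cons, occ_append, ih, Fin.sum_univ_succ]

lemma exists_chunks {α : Type} (l : ℕ) : ∀ (q : ℕ) (w : List α), w.length ≤ q * l →
    ∃ c : Fin q → List α, (List.ofFn c).flatten = w ∧ ∀ t, (c t).length ≤ l := by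
  intro q
  induction q with
  | zero =>
    intro w hw
    refine ⟨fun _ => [], ?_, fun t => t.elim0⟩
    have : w = [] := List.eq_nil_of_length_eq_zero (by omega)
    simp [this]
  | succ q ih =>
    intro w hw
    obtain ⟨c, hc, hl⟩ := ih (w.drop l) (by
      rw [List.length_drop]; rw [Nat.succ_mul] at hw; omega)
    refine ⟨Fin.cons (w.take l) c, ?_, ?_⟩
    · rw [List.ofFn_succ, List.flatten_cons]
      simp only [Fin.cons_zero, Fin.cons_succ]
      rw [hc, List.take_append_drop]
    · intro t
      refine Fin.cases ?_ (fun t => ?_) t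
      · simp
      · simpa using hl t

/-- keep the letters whose variable lies in `V` -/
def keep (w : List (ι × G)) (V : Finset ι) : List (ι × G) := w.filter (fun p => p.1 ∈ V)

lemma val_keep (w : List (ι × G)) (V S : Finset ι) (h : S ⊆ V) :
    val (keep w V) S = val w S := by
  induction w with
  | nil => simp [keep]
  | cons p w ih =>
    unfold keep at ih ⊢
    by_cases hp : p.1 ∈ V
    · rw [List.filter_cons_of_pos (by simpa using hp), val_cons, val_cons, ih]
    · rw [List.filter_cons_of_neg (by simpa using hp), val_cons, ih, if_neg (fun h' => hp (h h')),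
        one_mul]

omit [Group G] in
lemma occ_keep_le (w : List (ι × G)) (V : Finset ι) (v : ι) : occ (keep w V) v ≤ occ w v := by
  unfold occ keep
  exact List.Sublist.countP_le List.filter_sublist

omit [Group G] in
lemma length_keep (w : List (ι × G)) (V : Finset ι) :
    (keep w V).length = ∑ v ∈ V, occ w v := by
  induction w with
  | nil => simp [keep]
  | cons p w ih =>
    unfold keep at ih ⊢
    simp only [occ_cons, Finset.sum_add_distrib, ← ih]
    by_cases hp : p.1 ∈ V
    · rw [List.filter_cons_of_pos (by simpa using hp)]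
      simp [hp]
    · rw [List.filter_cons_of_neg (by simpa using hp)]
      simp [hp]

omit [Group G] in
lemma sum_occ_le (w : List (ι × G)) (V : Finset ι) : ∑ v ∈ V, occ w v ≤ w.length := by
  rw [← length_keep]
  exact List.length_filter_le _ _

omit [Group G] in
lemma card_occ_ne_le (w : List (ι × G)) (V : Finset ι) :
    (V.filter (fun v => occ w v ≠ 0)).card ≤ w.length := by
  refine le_trans ?_ (sum_occ_le w (V.filter (fun v => occ w v ≠ 0)))
  rw [Finset.card_eq_sum_ones]
  refine Finset.sum_le_sum (fun v hv => ?_)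
  have := (Finset.mem_filter.1 hv).2
  omega

lemma val_map {H : Type} [Group H] (φ : G →* H) (w : List (ι × G)) (S : Finset ι) :
    val (w.map (fun p => (p.1, φ p.2))) S = φ (val w S) := by
  induction w with
  | nil => simp
  | cons p w ih =>
    rw [List.map_cons, val_cons, val_cons, ih, map_mul]
    by_cases hp : p.1 ∈ S <;> simp [hp]

omit [Group G] in
lemma occ_map {H : Type} (φ : G → H) (w : List (ι × G)) (v : ι) :
    occ (w.map (fun p => (p.1, φ p.2))) v = occ w v := by
  induction w with
  | nil => simp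
  | cons p w ih => rw [List.map_cons, occ_cons, occ_cons, ih]

end words

end Pool.Agent.P.MP_85fe51_lc
end

-- part Pool.Agent.P.MP_85fe51_lc.ZeroSum
section

set_option autoImplicit false

namespace Pool.Agent.P.MP_85fe51_lc

open Finset MvPolynomial

/-- zero sums of vectors over `ZMod p` (Olson), by Chevalley-Warning -/
lemma zero_sum_zmod (p : ℕ) [Fact p.Prime] {σ τ : Type} [Fintype σ] [Fintype τ]
    (y : σ → τ → ZMod p) (h : Fintype.card τ * (p - 1) < Fintype.card σ) :
    ∃ T : Finset σ, T.Nonempty ∧ ∀ t, ∑ a ∈ T, y a t = 0 := by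
  classical
  let f : τ → MvPolynomial σ (ZMod p) := fun t => ∑ a : σ, y a t • X a ^ (p - 1)
  have hdeg : ∑ t, (f t).totalDegree < Fintype.card σ := by
    refine lt_of_le_of_lt ?_ h
    calc ∑ t, (f t).totalDegree ≤ ∑ _t : τ, (p - 1) := by
          refine Finset.sum_le_sum (fun t _ => ?_)
          apply totalDegree_finsetSum_le
          intro i _
          exact (totalDegree_smul_le ..).trans (totalDegree_X_pow ..).le
      _ = Fintype.card τ * (p - 1) := by simp
  have hp := char_dvd_card_solutions_of_fintype_sum_lt p hdeg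
  let z : {x : σ → ZMod p // ∀ t, eval x (f t) = 0} :=
    ⟨0, by simp [f, map_sum, (Fact.out : p.Prime).one_lt, tsub_eq_zero_iff_le]⟩
  have h0 : 0 < Fintype.card {x : σ → ZMod p // ∀ t, eval x (f t) = 0} :=
    @Fintype.card_pos _ _ ⟨z⟩
  obtain ⟨x, hx⟩ := Fintype.exists_ne_of_one_lt_card ((Fact.out : p.Prime).one_lt.trans_le <|
    Nat.le_of_dvd h0 hp) z
  refine ⟨Finset.univ.filter (fun a => x.1 a ≠ 0), ?_, ?_⟩
  · rw [← Subtype.coe_ne_coe, Function.ne_iff] at hx
    obtain ⟨a, ha⟩ := hx
    exact ⟨a, Finset.mem_filter.2 ⟨Finset.mem_univ _, ha⟩⟩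
  · intro t
    simpa [f, ZMod.pow_card_sub_one, Finset.sum_filter] using x.2 t

lemma zero_sum_module (p : ℕ) [Fact p.Prime] (M : Type) [AddCommGroup M] [Module (ZMod p) M]
    [Finite M] :
    ∃ d : ℕ, ∀ (σ κ : Type) [Fintype σ] [Fintype κ] (y : σ → κ → M),
      d * Fintype.card κ < Fintype.card σ →
      ∃ T : Finset σ, T.Nonempty ∧ ∀ i, ∑ a ∈ T, y a i = 0 := by
  classical
  have : Module.Finite (ZMod p) M := Module.Finite.of_finite
  let b := Module.finBasis (ZMod p) M
  refine ⟨Module.finrank (ZMod p) M * (p - 1), ?_⟩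
  intro σ κ _ _ y h
  obtain ⟨T, hT, hsum⟩ := zero_sum_zmod p (σ := σ)
    (τ := κ × Fin (Module.finrank (ZMod p) M))
    (fun a t => b.repr (y a t.1) t.2) (by
      rw [Fintype.card_prod, Fintype.card_fin]
      calc _ = Module.finrank (ZMod p) M * (p - 1) * Fintype.card κ := by ring
        _ < _ := h)
  refine ⟨T, hT, fun i => ?_⟩
  apply b.repr.injective
  ext j
  have := hsum (i, j)
  simpa [map_sum, Finsupp.finsetSum_apply] using this

/-- zero sums in powers of a finite abelian group of prime exponent -/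
lemma zero_sum_group (N : Type) [CommGroup N] [Finite N] (p : ℕ) (hp : p.Prime)
    (hN : ∀ x : N, x ^ p = 1) :
    ∃ d : ℕ, ∀ (σ κ : Type) [Fintype σ] [Fintype κ] (y : σ → κ → N),
      d * Fintype.card κ < Fintype.card σ →
      ∃ T : Finset σ, T.Nonempty ∧ ∀ i, ∏ a ∈ T, y a i = 1 := by
  have : Fact p.Prime := ⟨hp⟩
  have hz : ∀ x : Additive N, p • x = 0 := by
    intro x
    have := hN (Additive.toMul x)
    rw [← ofMul_toMul x, ← ofMul_pow, this]
    rfl
  obtain ⟨d, hd⟩ := @zero_sum_module p _ (Additive N) _ (AddCommGroup.zmodModule hz) _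
  refine ⟨d, fun σ κ _ _ y h => ?_⟩
  obtain ⟨T, hT, hs⟩ := hd σ κ (fun a i => Additive.ofMul (y a i)) h
  refine ⟨T, hT, fun i => ?_⟩
  have := hs i
  rw [← ofMul_prod] at this
  exact this

/-- a nontrivial finite solvable group has a nontrivial normal abelian subgroup of prime exponent -/
lemma exists_elem_abelian (G : Type) [Group G] [Finite G] [Nontrivial G]
    (hG : Group.IsSolvable G) :
    ∃ (N : Subgroup G) (p : ℕ), N.Normal ∧ N ≠ ⊥ ∧ p.Prime ∧
      (∀ x ∈ N, ∀ y ∈ N, x * y = y * x) ∧ ∀ x ∈ N, x ^ p = 1 := by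
  classical
  have hex := hG.solvable
  have h0 : Nat.find hex ≠ 0 := by
    intro h
    have := Nat.find_spec hex
    rw [h, derivedSeries_zero] at this
    exact top_ne_bot this
  obtain ⟨m, hm⟩ := Nat.exists_eq_succ_of_ne_zero h0
  have hA : derivedSeries G m ≠ ⊥ := Nat.find_min hex (by omega)
  have hA2 : derivedSeries G (m + 1) = ⊥ := by
    have := Nat.find_spec hex
    rwa [hm] at this
  set A := derivedSeries G m with hAdef
  have hAn : A.Normal := derivedSeries_normal G m
  have hcomm : ∀ x ∈ A, ∀ y ∈ A, x * y = y * x := by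
    rw [derivedSeries_succ, Subgroup.commutator_eq_bot_iff_le_centralizer] at hA2
    intro x hx y hy
    exact ((Subgroup.mem_centralizer_iff.1 (hA2 hx)) y hy).symm
  have hcard : Nat.card A ≠ 1 := by
    intro h
    exact hA (Subgroup.eq_bot_of_card_eq A h)
  obtain ⟨p, hp, hdvd⟩ := Nat.exists_prime_and_dvd hcard
  have : Fact p.Prime := ⟨hp⟩
  obtain ⟨g, hg⟩ := exists_prime_orderOf_dvd_card' p hdvd
  let N : Subgroup G :=
    { carrier := {x | x ∈ A ∧ x ^ p = 1}
      mul_mem' := by
        rintro x y ⟨hx, hx'⟩ ⟨hy, hy'⟩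
        refine ⟨A.mul_mem hx hy, ?_⟩
        have : Commute x y := hcomm x hx y hy
        rw [this.mul_pow, hx', hy', one_mul]
      one_mem' := ⟨A.one_mem, one_pow _⟩
      inv_mem' := by
        rintro x ⟨hx, hx'⟩
        exact ⟨A.inv_mem hx, by rw [inv_pow, hx', inv_one]⟩ }
  refine ⟨N, p, ⟨?_⟩, ?_, hp, fun x hx y hy => hcomm x hx.1 y hy.1, fun x hx => hx.2⟩
  · rintro x ⟨hx, hx'⟩ g
    refine ⟨hAn.conj_mem x hx g, ?_⟩
    rw [conj_pow, hx', mul_one, mul_inv_cancel]
  · intro hN
    have hmem : (g : G) ∈ N := by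
      refine ⟨g.2, ?_⟩
      have : g ^ p = 1 := by rw [← hg]; exact pow_orderOf_eq_one g
      exact_mod_cast congrArg Subtype.val this
    rw [hN, Subgroup.mem_bot] at hmem
    have : g = 1 := Subtype.ext hmem
    rw [this, orderOf_one] at hg
    exact hp.one_lt.ne hg

end Pool.Agent.P.MP_85fe51_lc
end

-- part Pool.Agent.P.MP_85fe51_lc.Step
section

set_option autoImplicit false

namespace Pool.Agent.P.MP_85fe51_lc

open Finset

lemma card_small_sets (K : Type) [Fintype K] [DecidableEq K] (k Q : ℕ) (hQ : 1 ≤ Q)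
    (hK : Fintype.card K ≤ Q) :
    ((Finset.univ : Finset (Finset K)).filter (fun T => T.card ≤ k)).card ≤ (k + 1) * Q ^ k := by
  have hsub : (Finset.univ : Finset (Finset K)).filter (fun T => T.card ≤ k) ⊆
      (Finset.range (k + 1)).biUnion (fun j => Finset.powersetCard j Finset.univ) := by
    intro T hT
    simp only [Finset.mem_filter, Finset.mem_univ, true_and] at hT
    simp only [Finset.mem_biUnion, Finset.mem_range, Finset.mem_powersetCard]
    exact ⟨T.card, by omega, Finset.subset_univ _, rfl⟩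
  refine (Finset.card_le_card hsub).trans (Finset.card_biUnion_le.trans ?_)
  calc ∑ j ∈ Finset.range (k + 1), (Finset.powersetCard j (Finset.univ : Finset K)).card
      ≤ ∑ _j ∈ Finset.range (k + 1), Q ^ k := by
        refine Finset.sum_le_sum (fun j hj => ?_)
        rw [Finset.card_powersetCard, Finset.card_univ]
        have hj' : j ≤ k := by have := Finset.mem_range.1 hj; omega
        calc (Fintype.card K).choose j ≤ (Fintype.card K) ^ j := Nat.choose_le_pow _ _
          _ ≤ Q ^ j := Nat.pow_le_pow_left hK _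
          _ ≤ Q ^ k := Nat.pow_le_pow_right hQ hj'
    _ = (k + 1) * Q ^ k := by simp

/-- greedy choice of large classes with pairwise disjoint types -/
lemma greedy {ι K : Type} [DecidableEq ι] [Fintype K] [DecidableEq K] (V : Finset ι)
    (τ : ι → Finset K) (k l M R F : ℕ) (hF : 1 ≤ F)
    (hτ : ∀ v ∈ V, (τ v).card ≤ k)
    (hl : ∀ c : K, (V.filter (fun v => c ∈ τ v)).card ≤ l)
    (hR : ((Finset.univ : Finset (Finset K)).filter (fun T => T.card ≤ k)).card ≤ R)
    (h1 : 2 * (M * k * l) ≤ V.card) (h2 : 2 * (R * F) ≤ V.card) :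
    ∀ j ≤ M, ∃ T : ℕ → Finset K, (∀ a < j, ∀ b < j, a ≠ b → Disjoint (T a) (T b)) ∧
      ∀ a < j, (T a).card ≤ k ∧ F ≤ (V.filter (fun v => τ v = T a)).card := by
  intro j
  induction j with
  | zero => exact fun _ => ⟨fun _ => ∅, by simp, by simp⟩
  | succ j ih =>
    intro hj
    obtain ⟨T, hdis, hT⟩ := ih (by omega)
    set U : Finset K := (Finset.range j).biUnion T with hU
    have hUc : U.card ≤ M * k := by
      refine Finset.card_biUnion_le.trans ?_
      calc ∑ a ∈ Finset.range j, (T a).card ≤ ∑ _a ∈ Finset.range j, k :=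
            Finset.sum_le_sum (fun a ha => (hT a (Finset.mem_range.1 ha)).1)
        _ = j * k := by simp
        _ ≤ M * k := Nat.mul_le_mul_right _ (by omega)
    set B : Finset ι := U.biUnion (fun c => V.filter (fun v => c ∈ τ v)) with hB
    have hBc : B.card ≤ M * k * l := by
      refine Finset.card_biUnion_le.trans ?_
      calc ∑ c ∈ U, (V.filter (fun v => c ∈ τ v)).card ≤ ∑ _c ∈ U, l :=
            Finset.sum_le_sum (fun c _ => hl c)
        _ = U.card * l := by simp
        _ ≤ M * k * l := Nat.mul_le_mul_right _ hUc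
    have hV' : R * F ≤ (V \ B).card := by
      have := Finset.le_card_sdiff B V
      omega
    obtain ⟨T', hT'mem, hT'⟩ := Finset.exists_le_card_fiber_of_mul_le_card_of_maps_to
      (s := V \ B) (t := (Finset.univ : Finset (Finset K)).filter (fun T => T.card ≤ k))
      (f := τ) (n := F)
      (fun v hv => Finset.mem_filter.2 ⟨Finset.mem_univ _, hτ v (Finset.mem_sdiff.1 hv).1⟩)
      ⟨∅, by simp⟩ ((Nat.mul_le_mul_right _ hR).trans hV')
    obtain ⟨v, hv⟩ : ((V \ B).filter (fun v => τ v = T')).Nonempty :=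
      Finset.card_pos.1 (by omega)
    obtain ⟨hv1, hv2⟩ := Finset.mem_filter.1 hv
    obtain ⟨hvV, hvB⟩ := Finset.mem_sdiff.1 hv1
    have hd : ∀ a < j, Disjoint T' (T a) := by
      intro a ha
      rw [Finset.disjoint_left]
      intro c hc hc'
      apply hvB
      refine Finset.mem_biUnion.2 ⟨c, Finset.mem_biUnion.2 ⟨a, Finset.mem_range.2 ha, hc'⟩, ?_⟩
      exact Finset.mem_filter.2 ⟨hvV, hv2 ▸ hc⟩
    refine ⟨fun a => if a = j then T' else T a, ?_, ?_⟩
    · intro a ha b hb hab
      by_cases haj : a = j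
      · have hbj : b ≠ j := fun h => hab (haj.trans h.symm)
        simp only [haj, hbj, if_true, if_false]
        exact hd b (by omega)
      · by_cases hbj : b = j
        · simp only [haj, hbj, if_true, if_false]
          exact (hd a (by omega)).symm
        · simp only [haj, hbj, if_false]
          exact hdis a (by omega) b (by omega) hab
    · intro a ha
      by_cases haj : a = j
      · simp only [haj, if_true]
        refine ⟨(Finset.mem_filter.1 hT'mem).2, hT'.trans (Finset.card_le_card ?_)⟩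
        exact Finset.filter_subset_filter _ Finset.sdiff_subset
      · simp only [haj, if_false]
        exact hT a (by omega)

/-- `Z G ι f`: at most `k` words over `G`, and at least `f k` variables each occurring at most
`k` times in total; then some nonempty set of these variables evaluates all words to `1`. -/
def Z (G : Type) [Group G] (ι : Type) [DecidableEq ι] (f : ℕ → ℕ) : Prop :=
  ∀ (k : ℕ) (κ : Type) [Fintype κ] (w : κ → List (ι × G)) (V : Finset ι),
    1 ≤ k → Fintype.card κ ≤ k → (∀ v ∈ V, ∑ i, occ (w i) v ≤ k) → f k ≤ V.card →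
    ∃ S ⊆ V, S.Nonempty ∧ ∀ i, val (w i) S = 1

lemma step (G : Type) [Group G] (ι : Type) [DecidableEq ι] (N : Subgroup G) [N.Normal]
    (hcomm : ∀ x ∈ N, ∀ y ∈ N, x * y = y * x) (d : ℕ)
    (hd : ∀ (σ κ : Type) [Fintype σ] [Fintype κ] (y : σ → κ → N),
      d * Fintype.card κ < Fintype.card σ →
      ∃ T : Finset σ, T.Nonempty ∧ ∀ i,
        (letI : CommGroup N := { (inferInstance : Group N) with
          mul_comm := fun x y => Subtype.ext (hcomm x x.2 y y.2) }; ∏ a ∈ T, y a i) = 1)
    (f f' : ℕ → ℕ) (hf : ∀ k, 1 ≤ f k) (hZ : Z (G ⧸ N) ι f)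
    (h1 : ∀ k, 2 * ((d * k + 1) * k) ≤ f' k)
    (h2 : ∀ k, 2 * ((k + 1) * (4 * (d * k + 1) * k ^ 3) ^ k * f k) ≤ f' k) :
    Z G ι f' := by
  classical
  let _ : CommGroup N := { (inferInstance : Group N) with
          mul_comm := fun x y => Subtype.ext (hcomm x x.2 y y.2) }
  intro k κ _ w V hk hκ hocc hV
  set M := d * k + 1 with hM
  set m := V.card with hm
  set l := m / (2 * (M * k)) with hl
  set q := 4 * M * k ^ 2 with hq
  have hMk : 0 < 2 * (M * k) := by positivity
  have hm1 : 2 * (M * k) ≤ m := (h1 k).trans hV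
  have hl1 : 2 * (M * k * l) ≤ m := by
    have := Nat.mul_div_le m (2 * (M * k))
    calc 2 * (M * k * l) = 2 * (M * k) * l := by ring
      _ ≤ m := this
  have hl2 : k * m ≤ q * l := by
    have h3 : m < 2 * (M * k) * (l + 1) := Nat.lt_mul_div_succ m hMk
    have h4 : 1 ≤ l := (Nat.le_div_iff_mul_le hMk).2 (by omega)
    have h5 : m ≤ 4 * (M * k) * l := by nlinarith
    calc k * m ≤ k * (4 * (M * k) * l) := Nat.mul_le_mul_left _ h5
      _ = q * l := by rw [hq]; ring
  -- cut the words
  have hlen : ∀ i, (keep (w i) V).length ≤ q * l := by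
    intro i
    rw [length_keep]
    refine le_trans ?_ hl2
    calc ∑ v ∈ V, occ (w i) v ≤ ∑ _v ∈ V, k := by
          refine Finset.sum_le_sum (fun v hv => le_trans ?_ (hocc v hv))
          exact Finset.single_le_sum (f := fun i => occ (w i) v) (fun _ _ => Nat.zero_le _)
            (Finset.mem_univ i)
      _ = k * m := by simp [hm, mul_comm]
  choose c hc hcl using fun i => exists_chunks l q (keep (w i) V) (hlen i)
  let ch : κ × Fin q → List (ι × G) := fun t => c t.1 t.2
  have hocc' : ∀ v ∈ V, ∑ t, occ (ch t) v ≤ k := by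
    intro v hv
    refine le_trans ?_ (hocc v hv)
    rw [Fintype.sum_prod_type]
    refine Finset.sum_le_sum (fun i _ => ?_)
    have := occ_flatten_ofFn (c i) v
    rw [hc] at this
    exact (le_of_eq this.symm).trans (occ_keep_le _ _ _)
  let τ : ι → Finset (κ × Fin q) := fun v => Finset.univ.filter (fun t => occ (ch t) v ≠ 0)
  have hτ : ∀ v ∈ V, (τ v).card ≤ k := by
    intro v hv
    refine le_trans ?_ (hocc' v hv)
    rw [Finset.card_eq_sum_ones]
    calc ∑ _t ∈ τ v, 1 ≤ ∑ t ∈ τ v, occ (ch t) v := by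
          refine Finset.sum_le_sum (fun t ht => ?_)
          have := (Finset.mem_filter.1 ht).2
          omega
      _ ≤ _ := Finset.sum_le_sum_of_subset (Finset.subset_univ _)
  have hcl' : ∀ t : κ × Fin q, (V.filter (fun v => t ∈ τ v)).card ≤ l := by
    intro t
    refine le_trans ?_ ((card_occ_ne_le (ch t) V).trans (hcl t.1 t.2))
    refine Finset.card_le_card (fun v hv => ?_)
    simp only [Finset.mem_filter, τ, Finset.mem_univ, true_and] at hv ⊢
    exact hv
  have hR := card_small_sets (κ × Fin q) k (4 * M * k ^ 3)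
    (Nat.one_le_iff_ne_zero.2 (by positivity)) (by
      rw [Fintype.card_prod, Fintype.card_fin]
      calc Fintype.card κ * q ≤ k * q := Nat.mul_le_mul_right _ hκ
        _ = 4 * M * k ^ 3 := by rw [hq]; ring)
  obtain ⟨T, hdis, hT⟩ := greedy V τ k l M _ (f k) (hf k) hτ hcl' hR hl1 ((h2 k).trans hV) M le_rfl
  -- the induction hypothesis inside each class
  have hS : ∀ a : Fin M, ∃ S ⊆ V.filter (fun v => τ v = T a), S.Nonempty ∧
      ∀ t, val (ch t) S ∈ N := by
    intro a
    obtain ⟨S, hS, hne, hval⟩ := hZ k (T a)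
      (fun t => (ch t.1).map (fun p => (p.1, QuotientGroup.mk' N p.2)))
      (V.filter (fun v => τ v = T a)) hk (by simpa using (hT a a.2).1) (by
        intro v hv
        simp only [occ_map]
        rw [Finset.sum_coe_sort (T a) (fun t => occ (ch t) v)]
        exact (Finset.sum_le_sum_of_subset (Finset.subset_univ _)).trans
          (hocc' v (Finset.mem_filter.1 hv).1)) (hT a a.2).2
    refine ⟨S, hS, hne, fun t => ?_⟩
    by_cases ht : t ∈ T a
    · have := hval ⟨t, ht⟩
      rw [val_map] at this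
      exact (QuotientGroup.eq_one_iff _).1 this
    · rw [val_eq_one]
      · exact N.one_mem
      · intro v hv
        by_contra hne
        apply ht
        rw [← (Finset.mem_filter.1 (hS hv)).2]
        exact Finset.mem_filter.2 ⟨Finset.mem_univ _, hne⟩
  choose S hSsub hSne hSN using hS
  have hSocc : ∀ a t v, v ∈ S a → occ (ch t) v ≠ 0 → t ∈ T a := by
    intro a t v hv hne
    rw [← (Finset.mem_filter.1 (hSsub a hv)).2]
    exact Finset.mem_filter.2 ⟨Finset.mem_univ _, hne⟩
  let nn : Fin M → κ × Fin q → N := fun a t => ⟨val (ch t) (S a), hSN a t⟩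
  obtain ⟨T0, hT0, hprod⟩ := hd (Fin M) κ (fun a i => ∏ t : Fin q, nn a (i, t)) (by
    rw [Fintype.card_fin]
    have := Nat.mul_le_mul_left d hκ
    omega)
  have hsubV : T0.biUnion S ⊆ V := by
    intro v hv
    obtain ⟨a, _, hva⟩ := Finset.mem_biUnion.1 hv
    exact (Finset.mem_filter.1 (hSsub a hva)).1
  refine ⟨T0.biUnion S, hsubV, ?_, fun i => ?_⟩
  · obtain ⟨a, ha⟩ := hT0
    obtain ⟨v, hv⟩ := hSne a
    exact ⟨v, Finset.mem_biUnion.2 ⟨a, ha, hv⟩⟩
  have hchunk : ∀ t, val (ch t) (T0.biUnion S) = ((∏ a ∈ T0, nn a t : N) : G) := by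
    intro t
    have hone : ∀ a : Fin M, t ∉ T a → nn a t = 1 := by
      intro a ha
      apply Subtype.ext
      exact val_eq_one _ _ (fun v hv => by
        by_contra hne
        exact ha (hSocc a t v hv hne))
    by_cases h : ∃ a ∈ T0, t ∈ T a
    · obtain ⟨a, ha, hta⟩ := h
      have huniq : ∀ b : Fin M, b ≠ a → t ∉ T b := by
        intro b hb htb
        exact Finset.disjoint_left.1 (hdis b b.2 a a.2 (fun h => hb (Fin.ext h))) htb hta
      rw [Finset.prod_eq_single a (fun b _ hb => hone b (huniq b hb)) (fun h => absurd ha h)]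
      apply val_congr
      intro v hv
      constructor
      · intro h
        obtain ⟨b, _, hvb⟩ := Finset.mem_biUnion.1 h
        by_cases hb : b = a
        · exact hb ▸ hvb
        · exact absurd (hSocc b t v hvb hv) (huniq b hb)
      · exact fun h => Finset.mem_biUnion.2 ⟨a, ha, h⟩
    · push Not at h
      rw [Finset.prod_eq_one (fun a ha => hone a (h a ha))]
      refine val_eq_one _ _ (fun v hv => ?_)
      by_contra hne
      obtain ⟨b, hb, hvb⟩ := Finset.mem_biUnion.1 hv
      exact h b hb (hSocc b t v hvb hne)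
  rw [← val_keep (w i) V _ hsubV, ← hc i, val_flatten_ofFn]
  have e1 : (List.ofFn (fun t => val (c i t) (T0.biUnion S))) =
      (List.ofFn (fun t : Fin q => (∏ a ∈ T0, nn a (i, t) : N))).map N.subtype := by
    rw [List.map_ofFn]
    congr 1
    funext t
    exact hchunk (i, t)
  rw [e1, ← map_list_prod, List.prod_ofFn, Finset.prod_comm, hprod i, map_one]

end Pool.Agent.P.MP_85fe51_lc
end

-- part Pool.Agent.P.MP_85fe51_lc.Main
section

set_option autoImplicit false

namespace Pool.Agent.P.MP_85fe51_lc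

open Finset

lemma num_bound (d k : ℕ) : 4 * (d * k + 1) * k ^ 3 ≤ (k + 2) ^ (d + 6) := by
  have h1 : d + 1 ≤ (k + 2) ^ d :=
    (Nat.succ_le_of_lt (Nat.lt_two_pow_self)).trans (Nat.pow_le_pow_left (by omega) d)
  have h2 : d * k + 1 ≤ (k + 2) ^ d * (k + 2) := by nlinarith
  have h3 : 4 ≤ (k + 2) ^ 2 := by nlinarith
  have h4 : k ^ 3 ≤ (k + 2) ^ 3 := Nat.pow_le_pow_left (by omega) 3
  calc 4 * (d * k + 1) * k ^ 3 ≤ (k + 2) ^ 2 * ((k + 2) ^ d * (k + 2)) * (k + 2) ^ 3 := by
        gcongr
    _ = (k + 2) ^ (d + 6) := by ring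

lemma num_bound1 (d k : ℕ) : 2 * ((d * k + 1) * k) ≤ (k + 2) ^ (d + 6) := by
  rcases Nat.eq_zero_or_pos k with rfl | hk
  · simp
  · refine le_trans ?_ (num_bound d k)
    have : k ≤ k ^ 3 := Nat.le_self_pow (by norm_num) k
    nlinarith [Nat.zero_le (d * k)]

theorem main_Z : ∀ (m : ℕ) (G : Type) [Group G] [Finite G], Nat.card G ≤ m →
    Group.IsSolvable G →
    ∃ a : ℕ, ∀ (ι : Type) [DecidableEq ι], Z G ι (fun k => (k + 2) ^ (a * (k + 1))) := by
  intro m
  induction m with
  | zero =>
    intro G _ _ h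
    have := Nat.card_pos (α := G)
    omega
  | succ m ih =>
    intro G _ _ hm hG
    rcases subsingleton_or_nontrivial G with hs | hn
    · refine ⟨0, fun ι _ k κ _ w V _ _ _ hV => ⟨V, Finset.Subset.refl _, ?_, fun i => ?_⟩⟩
      · exact Finset.card_pos.1 (by simpa using hV)
      · exact Subsingleton.elim _ _
    obtain ⟨N, p, hN, hNb, hp, hcomm, hexp⟩ := exists_elem_abelian G hG
    have hcard : Nat.card (G ⧸ N) ≤ m := by
      have h1 := Subgroup.card_eq_card_quotient_mul_card_subgroup N
      have h2 : 1 < Nat.card N := (Subgroup.one_lt_card_iff_ne_bot N).2 hNb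
      have h3 := Nat.card_pos (α := G ⧸ N)
      nlinarith
    obtain ⟨a, ha⟩ := ih (G ⧸ N) hcard inferInstance
    obtain ⟨d, hd⟩ := @zero_sum_group N { (inferInstance : Group N) with
          mul_comm := fun x y => Subtype.ext (hcomm x x.2 y y.2) } _ p hp
          (fun x => Subtype.ext (hexp x x.2))
    refine ⟨a + (d + 6), fun ι _ => ?_⟩
    refine step G ι N hcomm d hd (fun k => (k + 2) ^ (a * (k + 1))) _
      (fun k => Nat.one_le_pow _ _ (by omega)) (ha ι) (fun k => ?_) (fun k => ?_)
    · refine (num_bound1 d k).trans (Nat.pow_le_pow_right (by omega) ?_)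
      nlinarith [Nat.zero_le (a * (k + 1)), Nat.zero_le ((d + 6) * k)]
    · have h1 : (4 * (d * k + 1) * k ^ 3) ^ k ≤ ((k + 2) ^ (d + 6)) ^ k :=
        Nat.pow_le_pow_left (num_bound d k) k
      have h2 : 2 * (k + 1) ≤ (k + 2) ^ (d + 6) :=
        le_trans (by nlinarith) (Nat.pow_le_pow_right (by omega) (by omega : 2 ≤ d + 6))
      calc 2 * ((k + 1) * (4 * (d * k + 1) * k ^ 3) ^ k * (k + 2) ^ (a * (k + 1)))
          = 2 * (k + 1) * (4 * (d * k + 1) * k ^ 3) ^ k * (k + 2) ^ (a * (k + 1)) := by ring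
        _ ≤ (k + 2) ^ (d + 6) * ((k + 2) ^ (d + 6)) ^ k * (k + 2) ^ (a * (k + 1)) := by
          gcongr
        _ = (k + 2) ^ ((a + (d + 6)) * (k + 1)) := by
          rw [← pow_mul, ← pow_add, ← pow_add]; congr 1; ring

lemma exists_word {ι : Type} [DecidableEq ι] {G : Type} [Group G] :
    ∀ (L : ℕ) (var : Fin L → ι) (g h : Fin L → G), ∃ w : List (ι × G), w.length = L ∧
      ∀ S : Finset ι, (List.ofFn (fun j => if var j ∈ S then h j else g j)).prod =
        val w S * (List.ofFn g).prod := by
  intro L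
  induction L with
  | zero => exact fun _ _ _ => ⟨[], rfl, fun S => by simp⟩
  | succ L ih =>
    intro var g h
    obtain ⟨w, hw, hS⟩ := ih (fun j => var j.succ) (fun j => g j.succ) (fun j => h j.succ)
    refine ⟨(var 0, h 0 * (g 0)⁻¹) ::
      w.map (fun p => (p.1, (MulAut.conj (g 0)).toMonoidHom p.2)), by simp [hw], fun S => ?_⟩
    rw [List.ofFn_succ, List.ofFn_succ, List.prod_cons, List.prod_cons, hS S, val_cons, val_map]
    by_cases hv : var 0 ∈ S <;> simp [hv, mul_assoc]

/-- explicit form: a program that isolates the input `y` is long -/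
theorem collision (G : Type) [Group G] [Finite G] (hG : Group.IsSolvable G) :
    ∃ A : ℕ, ∀ (n L : ℕ) (var : Fin L → Fin n) (a b : Fin L → G) (y : Fin n → Bool),
      2 * (2 * L / n + 3) ^ (A * (2 * L / n + 2)) ≤ n →
      ∃ x : Fin n → Bool, x ≠ y ∧
        (List.ofFn (fun j : Fin L => if x (var j) then a j else b j)).prod =
        (List.ofFn (fun j : Fin L => if y (var j) then a j else b j)).prod := by
  classical
  obtain ⟨A, hA⟩ := main_Z _ G le_rfl hG
  refine ⟨A, fun n L var a b y hn => ?_⟩
  obtain ⟨w, hw, hS⟩ := exists_word L var (fun j => if y (var j) then a j else b j)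
    (fun j => if !y (var j) then a j else b j)
  set k := 2 * L / n + 1 with hk
  have hn0 : 0 < n := lt_of_lt_of_le (by positivity) hn
  let V : Finset (Fin n) := Finset.univ.filter (fun v => occ w v ≤ k)
  have hVc : n ≤ 2 * V.card := by
    have h1 : V.card + (Finset.univ.filter (fun v => ¬ occ w v ≤ k)).card = n := by
      rw [Finset.card_filter_add_card_filter_not]; simp
    have h2 := sum_occ_le w (Finset.univ.filter (fun v => ¬ occ w v ≤ k))
    have h3 : (Finset.univ.filter (fun v => ¬ occ w v ≤ k)).card * k ≤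
        ∑ v ∈ Finset.univ.filter (fun v => ¬ occ w v ≤ k), occ w v := by
      rw [← smul_eq_mul]
      refine Finset.card_nsmul_le_sum _ _ _ (fun v hv => ?_)
      have := (Finset.mem_filter.1 hv).2
      omega
    have h4 : 2 * L < n * k := Nat.lt_mul_div_succ _ hn0
    have h5 : 2 * (Finset.univ.filter (fun v => ¬ occ w v ≤ k)).card * k < n * k := by
      rw [hw] at h2; nlinarith
    have h6 := Nat.lt_of_mul_lt_mul_right h5
    omega
  obtain ⟨S, -, hne, hval⟩ := hA (Fin n) k Unit (fun _ => w) V (Nat.le_add_left _ _) (by simp [hk])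
    (fun v hv => by simpa using (Finset.mem_filter.1 hv).2) (by
      have e1 : k + 2 = 2 * L / n + 3 := by omega
      have e2 : k + 1 = 2 * L / n + 2 := by omega
      simp only [e1, e2]
      omega)
  refine ⟨fun i => if i ∈ S then !y i else y i, ?_, ?_⟩
  · obtain ⟨v, hv⟩ := hne
    intro h
    have := congrFun h v
    simp [hv] at this
  · have := hS S
    rw [hval (), one_mul] at this
    rw [← this]
    congr 2
    funext j
    by_cases hj : var j ∈ S <;> simp [hj]

lemma eventually_ratio (C : ℝ) :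
    ∀ᶠ n : ℕ in Filter.atTop, C * Real.log (Real.log n) ≤ Real.log n ∧ 1 ≤ Real.log (Real.log n) ∧
      1 ≤ Real.log n := by
  have hlog : Filter.Tendsto (fun n : ℕ => Real.log n) Filter.atTop Filter.atTop :=
    Real.tendsto_log_atTop.comp tendsto_natCast_atTop_atTop
  have hll : Filter.Tendsto (fun n : ℕ => Real.log (Real.log n)) Filter.atTop Filter.atTop :=
    Real.tendsto_log_atTop.comp hlog
  have h1 : ∀ᶠ x : ℝ in Filter.atTop, C * Real.log x ≤ x := by
    have hb := Real.isLittleO_log_id_atTop.bound (c := 1 / (|C| + 1)) (by positivity)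
    filter_upwards [hb, Filter.eventually_ge_atTop 1] with x hx hx1
    have hl : 0 ≤ Real.log x := Real.log_nonneg hx1
    rw [Real.norm_of_nonneg hl, id, Real.norm_of_nonneg (by linarith), one_div,
      ← div_eq_inv_mul, le_div_iff₀ (by positivity)] at hx
    nlinarith [le_abs_self C]
  filter_upwards [hlog.eventually h1, hll.eventually_ge_atTop 1, hlog.eventually_ge_atTop 1]
    with n a b c
  exact ⟨a, b, c⟩

lemma asymptotic (A : ℕ) : ∃ c : ℝ, 0 < c ∧ ∃ n₀ : ℕ, ∀ n ≥ n₀, ∀ L : ℕ,
    (L : ℝ) ≤ c * n * Real.log n / Real.log (Real.log n) →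
    2 * (2 * L / n + 3) ^ (A * (2 * L / n + 2)) ≤ n := by
  obtain ⟨n₀, hn₀⟩ := Filter.eventually_atTop.1 (eventually_ratio (6 * (A + 1)))
  refine ⟨1 / (4 * (A + 1)), by positivity, n₀, fun n hn L hL => ?_⟩
  obtain ⟨h1, h2, h3⟩ := hn₀ n hn
  set K : ℕ := 2 * L / n + 3 with hK
  set x := Real.log n with hx
  set z := Real.log x with hz
  have hn0 : (0 : ℝ) < n := by
    rcases Nat.eq_zero_or_pos n with h | h
    · rw [hx, h] at h3; norm_num at h3
    · exact_mod_cast h
  have hA : (0 : ℝ) < A + 1 := by positivity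
  have hz0 : 0 < z := by linarith
  -- `K ≤ x / ((A+1) z)`
  have hK1 : (K : ℝ) * ((A + 1) * z) ≤ x := by
    have e1 : ((2 * L / n : ℕ) : ℝ) ≤ 2 * L / n := by
      have := Nat.cast_div_le (α := ℝ) (m := 2 * L) (n := n)
      simpa using this
    have e2 : (2 * L / n : ℝ) * ((A + 1) * z) ≤ x / 2 := by
      rw [le_div_iff₀ hz0] at hL
      rw [div_mul_eq_mul_div, div_le_iff₀ hn0]
      have : 1 / (4 * ((A : ℝ) + 1)) * n * x * (A + 1) = n * x / 4 := by field_simp
      nlinarith
    have e3 : (K : ℝ) = ((2 * L / n : ℕ) : ℝ) + 3 := by rw [hK]; push_cast; ring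
    have e4 : 0 < ((A : ℝ) + 1) * z := by positivity
    rw [e3]
    nlinarith
  have hK0 : (3 : ℝ) ≤ K := by rw [hK]; push_cast; linarith [Nat.cast_nonneg (α := ℝ) (2 * L / n)]
  have hKx : (K : ℝ) ≤ x := by
    have : 1 ≤ ((A : ℝ) + 1) * z := by nlinarith [Nat.cast_nonneg (α := ℝ) A]
    nlinarith
  have hlogK : Real.log K ≤ z := Real.log_le_log (by linarith) hKx
  have hfin : K ^ ((A + 1) * K) ≤ n := by
    have : ((K ^ ((A + 1) * K) : ℕ) : ℝ) ≤ n := by
      rw [← Real.log_le_log_iff (by positivity) hn0]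
      push_cast
      rw [Real.log_pow]
      push_cast
      have : ((A : ℝ) + 1) * K * Real.log K ≤ ((A : ℝ) + 1) * K * z := by gcongr
      linarith
    exact_mod_cast this
  refine le_trans ?_ hfin
  have hK3 : 3 ≤ K := Nat.le_add_left _ _
  have hK4 : 2 * L / n + 2 ≤ K := Nat.le_succ _
  calc 2 * K ^ (A * (2 * L / n + 2)) ≤ K ^ K * K ^ (A * K) :=
        Nat.mul_le_mul (le_trans (by omega) (Nat.le_self_pow (by omega) K))
          (Nat.pow_le_pow_right (by omega) (Nat.mul_le_mul_left _ hK4))
    _ = K ^ ((A + 1) * K) := by ring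

end Pool.Agent.P.MP_85fe51_lc
end
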