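import Mathlib
import Pool.Agent.K.MP_85fe51_lc.C0

-- part Pool.Agent.P.MP_85fe51_lc.DLin
section

set_option autoImplicit false

namespace Pool.Agent.P.MP_85fe51_lc.DA

open Finset
open scoped Classical

variable {V : Type} [AddCommGroup V] [Module F2 V]

theorem f2_cases (a : F2) : a = 0 ∨ a = 1 := by
  revert a
  decide

theorem f2_add_self (a : F2) : a + a = 0 := by
  revert a
  decide

theorem dlin_eq_of_add {a b : F2} (h : a + b = 0) : a = b := by
  revert a b
  decide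

theorem dlin_add_one {a c : F2} (h : ¬ a = c) : a + 1 = c := by
  revert a c
  decide

theorem dlin_add_one_ne {a c : F2} (h : a = c) : ¬ a + 1 = c := by
  revert a c
  decide

theorem v_add_self (x : V) : x + x = 0 := by
  have h : (2 : F2) = 0 := by decide
  rw [← two_smul F2 x, h, zero_smul]

theorem InSp.mono {H H' : Finset (Du V)} {γ : Du V} (hs : H ⊆ H') (h : InSp H γ) :
    InSp H' γ := by
  intro x hx
  exact h x (fun χ hχ => hx χ (hs hχ))

theorem inSp_of_mem {H : Finset (Du V)} {γ : Du V} (h : γ ∈ H) : InSp H γ := by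
  intro x hx
  exact hx γ h

theorem InSp.trans {H H' : Finset (Du V)} {γ : Du V} (hs : ∀ χ ∈ H, InSp H' χ) (h : InSp H γ) :
    InSp H' γ := by
  intro x hx
  exact h x (fun χ hχ => hs χ hχ x hx)

theorem exists_of_not_inSp {H : Finset (Du V)} {γ : Du V} (h : ¬ InSp H γ) :
    ∃ x : V, (∀ χ ∈ H, χ x = 0) ∧ γ x = 1 := by
  by_contra hne
  apply h
  intro x hx
  rcases f2_cases (γ x) with h0 | h1
  · exact h0
  · exact absurd ⟨x, hx, h1⟩ hne

theorem indep_empty : Indep (∅ : Finset (Du V)) := by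
  intro c
  exact ⟨0, fun χ hχ => absurd hχ (Finset.notMem_empty χ)⟩

theorem Indep.mono {H H' : Finset (Du V)} (hs : H ⊆ H') (h : Indep H') : Indep H := by
  intro c
  obtain ⟨x, hx⟩ := h c
  exact ⟨x, fun χ hχ => hx χ (hs hχ)⟩

theorem Indep.insert {H : Finset (Du V)} {γ : Du V} (h : Indep H) (hγ : ¬ InSp H γ) :
    Indep (insert γ H) := by
  intro c
  obtain ⟨x, hx⟩ := h c
  obtain ⟨x0, hx0, hγ0⟩ := exists_of_not_inSp hγ
  by_cases hc : γ x = c γ
  · refine ⟨x, fun χ hχ => ?_⟩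
    rcases Finset.mem_insert.1 hχ with rfl | hχ
    · exact hc
    · exact hx χ hχ
  · refine ⟨x + x0, fun χ hχ => ?_⟩
    rcases Finset.mem_insert.1 hχ with rfl | hχ
    · rw [map_add, hγ0]
      exact dlin_add_one hc
    · rw [map_add, hx0 χ hχ, add_zero]
      exact hx χ hχ

theorem Indep.not_inSp {H : Finset (Du V)} {γ : Du V} (h : Indep H) (hγ : γ ∈ H) :
    ¬ InSp (H.erase γ) γ := by
  intro hin
  obtain ⟨x, hx⟩ := h (fun χ => if χ = γ then 1 else 0)
  have h1 : γ x = 1 := by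
    have := hx γ hγ
    rwa [if_pos rfl] at this
  have h0 : γ x = 0 := by
    apply hin x
    intro χ hχ
    have hm := Finset.mem_erase.1 hχ
    have := hx χ hm.2
    rwa [if_neg hm.1] at this
  rw [h0] at h1
  exact absurd h1 (by decide)

theorem inSp_add {H : Finset (Du V)} {γ δ : Du V} (h1 : ¬ InSp H γ)
    (h2 : InSp (insert δ H) γ) : InSp H (γ + δ) := by
  obtain ⟨x0, hx0, hγ0⟩ := exists_of_not_inSp h1
  have key : ∀ x : V, (∀ χ ∈ H, χ x = 0) → δ x = 0 → γ x = 0 := by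
    intro x hx hδ
    apply h2 x
    intro χ hχ
    rcases Finset.mem_insert.1 hχ with rfl | hχ
    · exact hδ
    · exact hx χ hχ
  have hδ0 : δ x0 = 1 := by
    rcases f2_cases (δ x0) with h0 | h0
    · have := key x0 hx0 h0
      rw [this] at hγ0
      exact absurd hγ0 (by decide)
    · exact h0
  intro x hx
  rw [LinearMap.add_apply]
  rcases f2_cases (δ x) with h0 | h0
  · rw [key x hx h0, h0, add_zero]
  · have hk : γ (x + x0) = 0 := by
      apply key
      · intro χ hχ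
        rw [map_add, hx χ hχ, hx0 χ hχ, add_zero]
      · rw [map_add, h0, hδ0]
        exact f2_add_self 1
    rw [map_add, hγ0] at hk
    rw [h0]
    exact hk

/-- basis extension. -/
theorem exists_basis_mod {G : Finset (Du V)} (hG : Indep G) (W : Finset (Du V)) :
    ∃ B : Finset (Du V), B ⊆ W ∧ Disjoint B G ∧ Indep (G ∪ B) ∧ ∀ w ∈ W, InSp (G ∪ B) w := by
  induction W using Finset.induction_on with
  | empty =>
    refine ⟨∅, Finset.Subset.refl _, Finset.disjoint_empty_left _, ?_, ?_⟩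
    · rwa [Finset.union_empty]
    · intro w hw
      exact absurd hw (Finset.notMem_empty w)
  | insert a W _ ih =>
    obtain ⟨B, hBW, hBG, hI, hsp⟩ := ih
    by_cases ha : InSp (G ∪ B) a
    · refine ⟨B, hBW.trans (Finset.subset_insert a W), hBG, hI, fun w hw => ?_⟩
      rcases Finset.mem_insert.1 hw with rfl | hw
      · exact ha
      · exact hsp w hw
    · refine ⟨insert a B, Finset.insert_subset_insert a hBW, ?_, ?_, fun w hw => ?_⟩
      · rw [Finset.disjoint_insert_left]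
        exact ⟨fun haG => ha (inSp_of_mem (Finset.mem_union_left _ haG)), hBG⟩
      · rw [Finset.union_insert]
        exact hI.insert ha
      · rcases Finset.mem_insert.1 hw with rfl | hw
        · exact inSp_of_mem (Finset.mem_union_right _ (Finset.mem_insert_self _ _))
        · exact (hsp w hw).mono
            (Finset.union_subset_union (Finset.Subset.refl _) (Finset.subset_insert a B))

theorem dlin_first {G : Finset (Du V)} {γ : Du V} (h1 : ¬ InSp G γ) (W : Finset (Du V))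
    (h2 : InSp (G ∪ W) γ) :
    ∃ B : Finset (Du V), B ⊆ W ∧ ∃ δ ∈ W, ¬ InSp (G ∪ B) γ ∧ InSp (insert δ (G ∪ B)) γ := by
  induction W using Finset.induction_on with
  | empty =>
    rw [Finset.union_empty] at h2
    exact absurd h2 h1
  | insert a W _ ih =>
    by_cases h : InSp (G ∪ W) γ
    · obtain ⟨B, hBW, δ, hδ, h3, h4⟩ := ih h
      exact ⟨B, hBW.trans (Finset.subset_insert a W), δ, Finset.mem_insert_of_mem hδ, h3, h4⟩
    · refine ⟨W, Finset.subset_insert a W, a, Finset.mem_insert_self a W, h, ?_⟩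
      rwa [Finset.union_insert] at h2

/-- an edge inside `W`. -/
theorem extract {G W : Finset (Du V)} {γ : Du V} (hG : Indep G) (h1 : ¬ InSp G γ)
    (h2 : InSp (G ∪ W) γ) :
    ∃ B : Finset (Du V), B ⊆ W ∧ γ ∉ B ∧ Disjoint (insert γ B) G ∧ Indep (G ∪ insert γ B) ∧
      ∃ δ ∈ W, InSp (G ∪ B) (γ + δ) := by
  obtain ⟨B1, hB1, δ, hδ, h3, h4⟩ := dlin_first h1 W h2
  obtain ⟨B, hB, hBG, hI, hsp⟩ := exists_basis_mod hG B1
  have h5 : ¬ InSp (G ∪ B) γ := fun h =>
    h3 (h.mono (Finset.union_subset_union (Finset.Subset.refl _) hB))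
  refine ⟨B, hB.trans hB1, fun h => h5 (inSp_of_mem (Finset.mem_union_right _ h)), ?_, ?_,
    δ, hδ, ?_⟩
  · rw [Finset.disjoint_insert_left]
    exact ⟨fun h => h5 (inSp_of_mem (Finset.mem_union_left _ h)), hBG⟩
  · rw [Finset.union_insert]
    exact hI.insert h5
  · refine InSp.trans (fun χ hχ => ?_) (inSp_add h3 h4)
    rcases Finset.mem_union.1 hχ with hχ | hχ
    · exact inSp_of_mem (Finset.mem_union_left _ hχ)
    · exact hsp χ hχ

theorem img_le_star (S U : Finset (Du V)) : img S U ≤ (star S U).card := by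
  unfold img
  refine le_trans (Finset.card_le_card ?_)
    (Finset.card_image_le (s := star S U)
      (f := fun χ : Du V => (χ.domRestrict (kerS U) : Du (kerS U))))
  intro b hb
  obtain ⟨hb0, hb1⟩ := Finset.mem_erase.1 hb
  obtain ⟨χ, hχ, rfl⟩ := Finset.mem_image.1 hb1
  refine Finset.mem_image.2 ⟨χ, mem_star.2 ⟨hχ, fun hin => hb0 ?_⟩, rfl⟩
  refine LinearMap.ext (fun x => ?_)
  exact hin x.1 x.2

theorem img_le_card (S U : Finset (Du V)) : img S U ≤ S.card := by
  refine (img_le_star S U).trans (Finset.card_le_card ?_)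
  intro χ hχ
  exact (mem_star.1 hχ).1

theorem dlin_fibres {α β : Type} [DecidableEq β] (f : α → β) (S P : Finset α) (hP : P ⊆ S)
    (h : ∀ a ∈ P, ∃ b ∈ S, b ≠ a ∧ f a = f b) :
    2 * (S.image f).card + P.card ≤ 2 * S.card := by
  have hS : S.card = ∑ b ∈ S.image f, (S.filter (fun a => f a = b)).card :=
    Finset.card_eq_sum_card_fiberwise (fun a ha => Finset.mem_image_of_mem f ha)
  have hP' : P.card = ∑ b ∈ S.image f, (P.filter (fun a => f a = b)).card :=
    Finset.card_eq_sum_card_fiberwise (fun a ha => Finset.mem_image_of_mem f (hP ha))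
  have h2 : 2 * (S.image f).card = ∑ _b ∈ S.image f, 2 := by
    rw [Finset.sum_const, smul_eq_mul, mul_comm]
  rw [hP', h2, hS, Finset.mul_sum, ← Finset.sum_add_distrib]
  refine Finset.sum_le_sum (fun b hb => ?_)
  obtain ⟨a0, ha0, hfa0⟩ := Finset.mem_image.1 hb
  have hpos : 0 < (S.filter (fun a => f a = b)).card :=
    Finset.card_pos.2 ⟨a0, Finset.mem_filter.2 ⟨ha0, hfa0⟩⟩
  have hle : (P.filter (fun a => f a = b)).card ≤ (S.filter (fun a => f a = b)).card :=
    Finset.card_le_card (Finset.filter_subset_filter _ hP)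
  rcases Nat.eq_zero_or_pos (P.filter (fun a => f a = b)).card with h0 | h0
  · omega
  · obtain ⟨a, ha⟩ := Finset.card_pos.1 h0
    obtain ⟨haP, hab⟩ := Finset.mem_filter.1 ha
    obtain ⟨a', ha', hne, hf⟩ := h a haP
    have h1 : 1 < (S.filter (fun a => f a = b)).card :=
      Finset.one_lt_card.2 ⟨a', Finset.mem_filter.2 ⟨ha', hf.symm.trans hab⟩, a,
        Finset.mem_filter.2 ⟨hP haP, hab⟩, hne⟩
    omega

theorem img_add_folded (S U : Finset (Du V)) :
    2 * img S U + (folded S U).card ≤ 2 * S.card := by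
  have h := dlin_fibres (fun χ : Du V => (χ.domRestrict (kerS U) : Du (kerS U))) S (folded S U)
    (fun χ hχ => (mem_folded.1 hχ).1) (by
      intro γ hγ
      obtain ⟨_, δ, hδ, hne, hin⟩ := mem_folded.1 hγ
      refine ⟨δ, hδ, hne, LinearMap.ext (fun x => ?_)⟩
      exact dlin_eq_of_add (hin x.1 x.2))
  have h1 : img S U ≤
      (S.image (fun χ : Du V => (χ.domRestrict (kerS U) : Du (kerS U)))).card :=
    Finset.card_le_card (Finset.erase_subset _ _)
  omega

variable [Fintype V]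

theorem halving {H : Finset (Du V)} {γ : Du V} (hγ : ¬ InSp H γ) (X : Finset V)
    (hX : ∀ x ∈ X, ∀ z : V, (∀ χ ∈ H, χ z = 0) → x + z ∈ X) (c : F2) :
    2 * (X.filter (fun x => γ x = c)).card = X.card := by
  obtain ⟨x0, hx0, hγ0⟩ := exists_of_not_inSp hγ
  have h1 : (X.filter (fun x => γ x = c)).card = (X.filter (fun x => ¬ γ x = c)).card := by
    refine Finset.card_nbij' (fun x => x + x0) (fun x => x + x0) ?_ ?_ ?_ ?_
    · intro x hx
      obtain ⟨hx1, hx2⟩ := Finset.mem_filter.1 (Finset.mem_coe.1 hx)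
      refine Finset.mem_coe.2 (Finset.mem_filter.2 ⟨hX x hx1 x0 hx0, ?_⟩)
      rw [map_add, hγ0]
      exact dlin_add_one_ne hx2
    · intro x hx
      obtain ⟨hx1, hx2⟩ := Finset.mem_filter.1 (Finset.mem_coe.1 hx)
      refine Finset.mem_coe.2 (Finset.mem_filter.2 ⟨hX x hx1 x0 hx0, ?_⟩)
      rw [map_add, hγ0]
      exact dlin_add_one hx2
    · intro x _
      show x + x0 + x0 = x
      rw [add_assoc, v_add_self, add_zero]
    · intro x _
      show x + x0 + x0 = x
      rw [add_assoc, v_add_self, add_zero]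
  have h2 := Finset.card_filter_add_card_filter_not (s := X) (fun x => γ x = c)
  omega

theorem dlin_kerF_insert (H : Finset (Du V)) (γ : Du V) :
    kerF (insert γ H) = (kerF H).filter (fun x => γ x = 0) := by
  ext x
  rw [Finset.mem_filter, mem_kerF, mem_kerF, Finset.forall_mem_insert, and_comm]

theorem dlin_oneF_insert (H : Finset (Du V)) (γ : Du V) :
    oneF (insert γ H) = (oneF H).filter (fun x => γ x = 1) := by
  ext x
  rw [Finset.mem_filter, mem_oneF, mem_oneF, Finset.forall_mem_insert, and_comm]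

theorem dlin_kerF_half {H : Finset (Du V)} {γ : Du V} (hγ : ¬ InSp H γ) :
    2 * (kerF (insert γ H)).card = (kerF H).card := by
  rw [dlin_kerF_insert]
  refine halving hγ (kerF H) (fun x hx z hz => mem_kerF.2 (fun χ hχ => ?_)) 0
  rw [map_add, mem_kerF.1 hx χ hχ, hz χ hχ, add_zero]

theorem card_oneF {H : Finset (Du V)} (h : Indep H) :
    (oneF H).card * 2 ^ H.card = Fintype.card V := by
  induction H using Finset.induction_on with
  | empty =>
    have : oneF (∅ : Finset (Du V)) = Finset.univ := by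
      ext x
      simp only [mem_oneF, Finset.notMem_empty, Finset.mem_univ, false_imp_iff, implies_true]
    rw [this, Finset.card_empty, pow_zero, mul_one, Finset.card_univ]
  | insert a H ha ih =>
    have hI := ih (h.mono (Finset.subset_insert a H))
    have hn : ¬ InSp H a := by
      intro hin
      refine h.not_inSp (Finset.mem_insert_self a H) (hin.mono (fun χ hχ => ?_))
      simp only [Finset.mem_erase, Finset.mem_insert]
      exact ⟨fun he => ha (he ▸ hχ), Or.inr hχ⟩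
    have hh : 2 * (oneF (insert a H)).card = (oneF H).card := by
      rw [dlin_oneF_insert]
      refine halving hn (oneF H) (fun x hx z hz => mem_oneF.2 (fun χ hχ => ?_)) 1
      rw [map_add, mem_oneF.1 hx χ hχ, hz χ hχ, add_zero]
    rw [Finset.card_insert_of_notMem ha, ← hI, ← hh, pow_succ]
    ring

theorem card_kerF_le (G I : Finset (Du V)) :
    (kerF G).card ≤ 2 ^ I.card * (kerF (G ∪ I)).card := by
  induction I using Finset.induction_on with
  | empty => rw [Finset.union_empty, Finset.card_empty, pow_zero, one_mul]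
  | insert a I ha ih =>
    have hh : (kerF (G ∪ I)).card ≤ 2 * (kerF (insert a (G ∪ I))).card := by
      by_cases hin : InSp (G ∪ I) a
      · have : (kerF (G ∪ I)).card ≤ (kerF (insert a (G ∪ I))).card := by
          refine Finset.card_le_card (fun x hx => mem_kerF.2 (fun χ hχ => ?_))
          rcases Finset.mem_insert.1 hχ with rfl | hχ
          · exact hin x (mem_kerF.1 hx)
          · exact mem_kerF.1 hx χ hχ
        omega
      · exact (dlin_kerF_half hin).ge
    rw [Finset.union_insert, Finset.card_insert_of_notMem ha, pow_succ, mul_assoc]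
    exact ih.trans (Nat.mul_le_mul_left _ hh)

theorem card_le_kerS (U : Finset (Du V)) :
    Fintype.card V ≤ 2 ^ U.card * Fintype.card (kerS U) := by
  have h := card_kerF_le (∅ : Finset (Du V)) U
  have h1 : kerF (∅ : Finset (Du V)) = Finset.univ := by
    ext x
    simp only [mem_kerF, Finset.notMem_empty, Finset.mem_univ, false_imp_iff, implies_true]
  have h2 : Fintype.card (kerS U) = (kerF U).card :=
    Fintype.card_of_subtype (kerF U) (fun x => mem_kerF.trans mem_kerS.symm)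
  rw [h1, Finset.card_univ, Finset.empty_union] at h
  rw [h2]
  exact h

theorem dlin_coloop_card (G X C : Finset (Du V))
    (hC : ∀ γ ∈ C, γ ∈ X ∧ ¬ InSp (G ∪ X.erase γ) γ) :
    2 ^ C.card * (kerF (G ∪ C)).card = (kerF G).card := by
  induction C using Finset.induction_on with
  | empty => rw [Finset.union_empty, Finset.card_empty, pow_zero, one_mul]
  | insert a C ha ih =>
    have hI := ih (fun γ hγ => hC γ (Finset.mem_insert_of_mem hγ))
    have hn : ¬ InSp (G ∪ C) a := by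
      intro hin
      refine (hC a (Finset.mem_insert_self a C)).2 (hin.mono ?_)
      refine Finset.union_subset_union (Finset.Subset.refl _) (fun γ hγ => ?_)
      refine Finset.mem_erase.2 ⟨fun he => ha (he ▸ hγ), (hC γ (Finset.mem_insert_of_mem hγ)).1⟩
    rw [Finset.union_insert, Finset.card_insert_of_notMem ha, pow_succ, mul_assoc,
      dlin_kerF_half hn, hI]

/-- coloop bound. -/
theorem coloops_le (G I X : Finset (Du V)) (hX : ∀ γ ∈ X, InSp (G ∪ I) γ) :
    (X.filter (fun γ => ¬ InSp (G ∪ X.erase γ) γ)).card ≤ I.card := by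
  set C := X.filter (fun γ => ¬ InSp (G ∪ X.erase γ) γ) with hCdef
  have hC : ∀ γ ∈ C, γ ∈ X ∧ ¬ InSp (G ∪ X.erase γ) γ := fun γ hγ => Finset.mem_filter.1 hγ
  have h1 := dlin_coloop_card G X C hC
  have h2 := card_kerF_le G I
  have h3 : (kerF (G ∪ I)).card ≤ (kerF (G ∪ C)).card := by
    refine Finset.card_le_card (fun x hx => mem_kerF.2 (fun χ hχ => ?_))
    rcases Finset.mem_union.1 hχ with hχ | hχ
    · exact mem_kerF.1 hx χ (Finset.mem_union_left _ hχ)
    · exact hX χ (hC χ hχ).1 x (mem_kerF.1 hx)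
  have h4 : 0 < (kerF (G ∪ C)).card :=
    Finset.card_pos.2 ⟨0, mem_kerF.2 (fun χ _ => map_zero χ)⟩
  have h5 : 2 ^ C.card * (kerF (G ∪ C)).card ≤ 2 ^ I.card * (kerF (G ∪ C)).card := by
    rw [h1]
    exact h2.trans (Nat.mul_le_mul_left _ h3)
  have h6 : 2 ^ C.card ≤ 2 ^ I.card := Nat.le_of_mul_le_mul_right h5 h4
  exact (Nat.pow_le_pow_iff_right (by norm_num)).1 h6

end Pool.Agent.P.MP_85fe51_lc.DA
end

-- part Pool.Agent.P.MP_85fe51_lc.DCs
section

set_option autoImplicit false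

namespace Pool.Agent.P.MP_85fe51_lc.DA

open Finset
open scoped Classical

theorem dcs_norm_one {m : ℕ} (hm : Odd m) {z : ℂ} (hz : z ^ m = 1) : ‖z‖ = 1 :=
  Complex.norm_eq_one_of_pow_eq_one hz hm.pos.ne'

theorem dcs_lt_two {z : ℂ} (h1 : ‖z‖ = 1) (hz : z ≠ 1) : ‖1 + z‖ < 2 := by
  have e1 : z.re ^ 2 + z.im ^ 2 = 1 := by
    have := Complex.sq_norm z
    rw [h1, Complex.normSq_apply] at this
    nlinarith
  have e2 : ‖1 + z‖ ^ 2 = 2 + 2 * z.re := by
    rw [Complex.sq_norm, Complex.normSq_apply]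
    simp only [Complex.add_re, Complex.one_re, Complex.add_im, Complex.one_im]
    nlinarith
  have e3 : z.re < 1 := by
    by_contra hc
    push Not at hc
    have h2 : z.re = 1 := by nlinarith [sq_nonneg z.im]
    have h3 : z.im = 0 := by
      rw [h2] at e1
      nlinarith [sq_nonneg z.im]
    exact hz (Complex.ext (by simpa using h2) (by simpa using h3))
  nlinarith [norm_nonneg (1 + z)]

theorem dcs_max {α : Type} (f : α → ℝ) (R : Finset α) :
    (∀ z ∈ R, f z < 1) → ∃ g : ℝ, 0 ≤ g ∧ g < 1 ∧ ∀ z ∈ R, f z ≤ g := by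
  induction R using Finset.induction_on with
  | empty => intro _; exact ⟨0, le_rfl, one_pos, by simp⟩
  | insert a s ha ih =>
    intro h
    obtain ⟨g, h0, h1, h2⟩ := ih fun z hz => h z (mem_insert_of_mem hz)
    refine ⟨max g (f a), le_max_of_le_left h0, max_lt h1 (h a (mem_insert_self _ _)), ?_⟩
    intro z hz
    rcases mem_insert.1 hz with rfl | hz
    · exact le_max_right _ _
    · exact le_max_of_le_left (h2 z hz)

theorem exists_gap {m : ℕ} (hm : Odd m) :
    ∃ (E0 : ℕ) (g : ℝ), 0 ≤ g ∧ g ≤ 1 ∧ g ^ E0 ≤ 1 / 2 ∧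
      ∀ z : ℂ, z ^ m = 1 → z ≠ 1 → ‖1 + z‖ ≤ 2 * g := by
  obtain ⟨g, h0, h1, h2⟩ := dcs_max (fun z : ℂ => ‖1 + z‖ / 2)
    ((Polynomial.nthRootsFinset m (1 : ℂ)).erase 1) (fun z hz => by
      obtain ⟨a, b⟩ := mem_erase.1 hz
      have := dcs_lt_two (dcs_norm_one hm ((Polynomial.mem_nthRootsFinset hm.pos _).1 b)) a
      linarith)
  obtain ⟨E0, hE⟩ := exists_pow_lt_of_lt_one (show (0 : ℝ) < 1 / 2 by norm_num) h1
  refine ⟨E0, g, h0, h1.le, hE.le, fun z hz hz1 => ?_⟩
  have := h2 z (mem_erase.2 ⟨hz1, (Polynomial.mem_nthRootsFinset hm.pos _).2 hz⟩)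
  linarith

variable {V : Type} [AddCommGroup V] [Module F2 V] [Fintype V]

omit [Fintype V] in
theorem dcs_norm_Phi {m : ℕ} (hm : Odd m) {S : Finset (Du V)} {ζ : Du V → ℂ}
    (hζ : Roots m S ζ) (x : V) : ‖Phi S ζ x‖ = 1 := by
  unfold Phi
  rw [norm_prod]
  refine prod_eq_one fun χ hχ => ?_
  split_ifs
  · exact dcs_norm_one hm (hζ χ hχ).1
  · exact norm_one

theorem dcs_split {T : Finset (Du V)} {γ : Du V} (hγ : γ ∈ T) (h : ¬ InSp (T.erase γ) γ)
    (ζ : Du V → ℂ) :
    2 * ∑ x : V, Phi T ζ x = (1 + ζ γ) * ∑ x : V, Phi (T.erase γ) ζ x := by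
  obtain ⟨x0, h0, h1⟩ := exists_of_not_inSp h
  have e1 : ∀ x, Phi T ζ x = (if γ x = 1 then ζ γ else 1) * Phi (T.erase γ) ζ x := fun x =>
    (mul_prod_erase T (fun χ : Du V => if χ x = 1 then ζ χ else 1) hγ).symm
  have e2 : ∀ x, Phi (T.erase γ) ζ (x + x0) = Phi (T.erase γ) ζ x := fun x =>
    prod_congr rfl fun χ hχ => by rw [map_add, h0 χ hχ, add_zero]
  have e3 : ∑ x : V, Phi T ζ x = ∑ x : V, Phi T ζ (x + x0) :=
    (Equiv.sum_comp (Equiv.addRight x0) (Phi T ζ)).symm
  rw [two_mul, mul_sum]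
  nth_rewrite 2 [e3]
  rw [← sum_add_distrib]
  refine sum_congr rfl fun x _ => ?_
  rw [e1 x, e1 (x + x0), e2, map_add, h1, ← add_mul]
  congr 1
  rcases f2_cases (γ x) with e | e
  · rw [e, zero_add, if_neg zero_ne_one, if_pos rfl]
  · rw [e, f2_add_self, if_neg zero_ne_one, if_pos rfl, add_comm]

theorem dcs_gen {m : ℕ} (hm : Odd m) {g : ℝ} (hg0 : 0 ≤ g)
    (hg : ∀ z : ℂ, z ^ m = 1 → z ≠ 1 → ‖1 + z‖ ≤ 2 * g) (ζ : Du V → ℂ) (C : Finset (Du V)) :
    ∀ T : Finset (Du V), C ⊆ T → (∀ γ ∈ C, ¬ InSp (T.erase γ) γ) → Roots m T ζ →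
      ‖∑ x : V, Phi T ζ x‖ ≤ g ^ C.card * Fintype.card V := by
  induction C using Finset.induction_on with
  | empty =>
    intro T _ _ hζ
    refine (norm_sum_le _ _).trans (le_of_eq ?_)
    simp [dcs_norm_Phi hm hζ]
  | insert γ C hγ ih =>
    intro T hT hC hζ
    have hγT : γ ∈ T := hT (mem_insert_self _ _)
    have h1 := ih (T.erase γ)
      (fun δ hδ => mem_erase.2 ⟨fun e => hγ (e ▸ hδ), hT (mem_insert_of_mem hδ)⟩)
      (fun δ hδ hs => hC δ (mem_insert_of_mem hδ)
        (hs.mono (erase_subset_erase δ (erase_subset γ T))))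
      (fun χ hχ => hζ χ (mem_of_mem_erase hχ))
    have h2 := congrArg norm (dcs_split hγT (hC γ (mem_insert_self _ _)) ζ)
    rw [norm_mul, norm_mul, Complex.norm_two] at h2
    have h3 := mul_le_mul (hg _ (hζ γ hγT).1 (hζ γ hγT).2) h1 (norm_nonneg _) (by positivity)
    rw [card_insert_of_notMem hγ, pow_succ]
    nlinarith

theorem norm_sum_Phi_le {m : ℕ} (hm : Odd m) {g : ℝ} (hg0 : 0 ≤ g)
    (hg : ∀ z : ℂ, z ^ m = 1 → z ≠ 1 → ‖1 + z‖ ≤ 2 * g)
    (S : Finset (Du V)) (ζ : Du V → ℂ) (hζ : Roots m S ζ) :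
    ‖∑ x : V, Phi S ζ x‖ ≤ g ^ col S * Fintype.card V :=
  dcs_gen hm hg0 hg ζ _ S (filter_subset _ _)
    (fun _ hγ hs => (mem_filter.1 hγ).2 (hs.mono fun χ hχ => by simpa using hχ)) hζ

omit [Module F2 V] in
theorem dcs_sq (f : V → ℂ) :
    ‖∑ x, f x‖ ^ 2 ≤ ∑ y : V, ‖∑ x : V, f (x + y) * (starRingEnd ℂ) (f x)‖ := by
  have e : (∑ x, f x) * (starRingEnd ℂ) (∑ x, f x) =
      ∑ y : V, ∑ x : V, f (x + y) * (starRingEnd ℂ) (f x) := by
    rw [map_sum, mul_sum, sum_comm]
    refine sum_congr rfl fun x _ => ?_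
    rw [← sum_mul]
    congr 1
    exact (Equiv.sum_comp (Equiv.addLeft x) f).symm
  calc ‖∑ x, f x‖ ^ 2 = ‖(∑ x, f x) * (starRingEnd ℂ) (∑ x, f x)‖ := by
        rw [norm_mul, Complex.norm_conj, sq]
    _ ≤ _ := by rw [e]; exact norm_sum_le _ _

theorem dcs_sg (a b : F2) : sg a * (starRingEnd ℂ) (sg b) = sg (a + b) := by
  unfold sg
  rcases f2_cases a with rfl | rfl <;> rcases f2_cases b with rfl | rfl
  · simp
  · simp
  · simp
  · rw [f2_add_self]; simp

omit [Fintype V] in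
theorem dcs_Phi {m : ℕ} (hm : Odd m) {S : Finset (Du V)} {ζ : Du V → ℂ} (hζ : Roots m S ζ)
    (x y : V) :
    Phi S ζ (x + y) * (starRingEnd ℂ) (Phi S ζ x) =
      (∏ χ ∈ S.filter (fun χ : Du V => χ y = 1), ζ χ) *
        Phi (S.filter (fun χ : Du V => χ y = 1)) (fun χ => (starRingEnd ℂ) (ζ χ) ^ 2) x := by
  unfold Phi
  rw [map_prod, ← prod_mul_distrib, ← prod_mul_distrib, prod_filter]
  refine prod_congr rfl fun χ hχ => ?_
  have h1 : ζ χ * (starRingEnd ℂ) (ζ χ) = 1 := by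
    rw [Complex.mul_conj, Complex.normSq_eq_norm_sq, dcs_norm_one hm (hζ χ hχ).1]
    simp
  rw [map_add]
  rcases f2_cases (χ x) with a | a <;> rcases f2_cases (χ y) with b | b <;> rw [a, b]
  · simp
  · simp
  · simp [h1]
  · rw [f2_add_self, if_neg zero_ne_one, if_pos rfl, if_pos rfl, if_pos rfl]
    beta_reduce
    rw [sq, ← mul_assoc, h1]

omit [Fintype V] in
theorem dcs_roots {m : ℕ} (hm : Odd m) {S : Finset (Du V)} {ζ : Du V → ℂ} (hζ : Roots m S ζ)
    (y : V) :
    Roots m (S.filter (fun χ : Du V => χ y = 1)) (fun χ => (starRingEnd ℂ) (ζ χ) ^ 2) := by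
  intro χ hχ
  obtain ⟨h1, h2⟩ := hζ χ (mem_filter.1 hχ).1
  refine ⟨?_, fun e => h2 ?_⟩
  · rw [← pow_mul, mul_comm, pow_mul, ← map_pow, h1, map_one, one_pow]
  · have e2 : ζ χ ^ 2 = 1 := by
      have := congrArg (starRingEnd ℂ) e
      simpa using this
    obtain ⟨j, rfl⟩ := hm
    rwa [pow_succ, pow_mul, e2, one_pow, one_mul] at h1

theorem dcs_step {m : ℕ} (hm : Odd m) (h : V → F2) {S : Finset (Du V)} {ζ : Du V → ℂ}
    (hζ : Roots m S ζ) :
    bias h S ζ ^ 2 ≤ ∑ y : V, bias (fun x => h (x + y) + h x)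
      (S.filter (fun χ : Du V => χ y = 1)) (fun χ => (starRingEnd ℂ) (ζ χ) ^ 2) := by
  unfold bias
  refine (dcs_sq _).trans (le_of_eq (sum_congr rfl fun y _ => ?_))
  have hu : ‖∏ χ ∈ S.filter (fun χ : Du V => χ y = 1), ζ χ‖ = 1 := by
    rw [norm_prod]
    exact prod_eq_one fun χ hχ => dcs_norm_one hm (hζ χ (mem_filter.1 hχ).1).1
  rw [← one_mul ‖∑ x : V, sg (h (x + y) + h x) * _‖, ← hu, ← norm_mul, mul_sum]
  congr 1
  refine sum_congr rfl fun x _ => ?_
  rw [map_mul, mul_mul_mul_comm, dcs_sg, dcs_Phi hm hζ]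
  ring

omit [Fintype V] in
theorem dcs_Aset (S : Finset (Du V)) (k : ℕ) (y0 : V) (y : Fin k → V) :
    Aset (S.filter (fun χ : Du V => χ y0 = 1)) k y =
      Aset S (k + 1) (Fin.cons y0 y : Fin (k + 1) → V) := by
  ext χ
  rw [mem_Aset, mem_Aset, mem_filter, Fin.forall_fin_succ]
  simp only [Fin.cons_zero, Fin.cons_succ, Fin.val_zero, Fin.val_succ, Nat.add_lt_add_iff_right,
    Nat.zero_lt_succ, forall_const, and_assoc]

theorem cs_bound {m : ℕ} (hm : Odd m) {g : ℝ} (hg0 : 0 ≤ g)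
    (hg : ∀ z : ℂ, z ^ m = 1 → z ≠ 1 → ‖1 + z‖ ≤ 2 * g) (k : ℕ) :
    ∀ (h : V → F2) (S : Finset (Du V)) (ζ : Du V → ℂ), degLt k h → Roots m S ζ →
      (bias h S ζ / Fintype.card V) ^ (2 ^ k) ≤
        (∑ y : Fin k → V, g ^ col (Aset S k y)) / (Fintype.card V : ℝ) ^ k := by
  have hN : (0 : ℝ) < Fintype.card V := by exact_mod_cast Fintype.card_pos
  induction k with
  | zero =>
    intro h S ζ hh hζ
    have e1 : bias h S ζ = ‖∑ x : V, Phi S ζ x‖ := by
      unfold bias
      congr 1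
      refine sum_congr rfl fun x _ => ?_
      rw [hh x, sg, if_neg zero_ne_one, one_mul]
    have e2 : ∀ y : Fin 0 → V, Aset S 0 y = S := fun y => by
      ext χ
      rw [mem_Aset]
      simp
    simp only [e2, pow_zero, pow_one, div_one, univ_unique, sum_const, card_singleton, one_smul]
    rw [div_le_iff₀ hN, e1]
    exact norm_sum_Phi_le hm hg0 hg S ζ hζ
  | succ k ih =>
    intro h S ζ hh hζ
    set b : V → ℝ := fun y => bias (fun x => h (x + y) + h x)
      (S.filter (fun χ : Du V => χ y = 1)) (fun χ => (starRingEnd ℂ) (ζ χ) ^ 2) /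
        Fintype.card V with hb
    have hb0 : ∀ y, 0 ≤ b y := fun y => div_nonneg (norm_nonneg _) hN.le
    have h1 : (bias h S ζ / Fintype.card V) ^ 2 ≤ ∑ y : V, (1 / Fintype.card V : ℝ) * b y := by
      rw [← mul_sum, hb, ← sum_div, div_pow, one_div_mul_eq_div, div_div, ← sq]
      exact div_le_div_of_nonneg_right (dcs_step hm h hζ) (by positivity)
    have h2 := Real.pow_arith_mean_le_arith_mean_pow univ (fun _ : V => (1 / Fintype.card V : ℝ)) b
      (fun _ _ => by positivity) (by simp [hN.ne']) (fun y _ => hb0 y) (2 ^ k)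
    have h3 : ∀ y0 : V, b y0 ^ 2 ^ k ≤
        (∑ y : Fin k → V, g ^ col (Aset S (k + 1) (Fin.cons y0 y : Fin (k + 1) → V))) /
          (Fintype.card V : ℝ) ^ k := fun y0 => by
      have := ih _ _ _ (hh y0) (dcs_roots hm hζ y0)
      simpa only [dcs_Aset] using this
    have h4 : ∑ y : Fin (k + 1) → V, g ^ col (Aset S (k + 1) y) =
        ∑ y0 : V, ∑ y : Fin k → V, g ^ col (Aset S (k + 1) (Fin.cons y0 y : Fin (k + 1) → V)) := by
      rw [← Fintype.sum_prod_type', ← Equiv.sum_comp (Fin.consEquiv fun _ : Fin (k + 1) => V)]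
      rfl
    calc (bias h S ζ / Fintype.card V) ^ 2 ^ (k + 1)
        = ((bias h S ζ / Fintype.card V) ^ 2) ^ 2 ^ k := by rw [← pow_mul, pow_succ']
      _ ≤ (∑ y : V, (1 / Fintype.card V : ℝ) * b y) ^ 2 ^ k :=
          pow_le_pow_left₀ (sq_nonneg _) h1 _
      _ ≤ ∑ y : V, (1 / Fintype.card V : ℝ) * b y ^ 2 ^ k := h2
      _ ≤ ∑ y0 : V, (1 / Fintype.card V : ℝ) *
          ((∑ y : Fin k → V, g ^ col (Aset S (k + 1) (Fin.cons y0 y : Fin (k + 1) → V))) /
            (Fintype.card V : ℝ) ^ k) :=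
          sum_le_sum fun y _ => mul_le_mul_of_nonneg_left (h3 y) (by positivity)
      _ = _ := by
          rw [← mul_sum, ← sum_div, h4, one_div_mul_eq_div, div_div, pow_succ]

theorem bad_dense {m : ℕ} (hm : Odd m) {g : ℝ} {E0 : ℕ} (hg0 : 0 ≤ g) (hg1 : g ≤ 1)
    (hE : g ^ E0 ≤ 1 / 2) (hg : ∀ z : ℂ, z ^ m = 1 → z ≠ 1 → ‖1 + z‖ ≤ 2 * g)
    (k D : ℕ) (h : V → F2) (S : Finset (Du V)) (ζ : Du V → ℂ) (hh : degLt k h)
    (hζ : Roots m S ζ) (hb : (Fintype.card V : ℝ) ≤ 2 ^ D * bias h S ζ) :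
    Fintype.card V ^ k ≤ 2 ^ (D * 2 ^ k + 1) *
      (univ.filter (fun y : Fin k → V => col (Aset S k y) < E0 * (D * 2 ^ k + 1))).card := by
  have hN : (0 : ℝ) < Fintype.card V := by exact_mod_cast Fintype.card_pos
  have h1 := cs_bound hm hg0 hg k h S ζ hh hζ
  have h2 : (1 / 2 : ℝ) ^ D ≤ bias h S ζ / Fintype.card V := by
    rw [le_div_iff₀ hN, one_div, inv_pow, inv_mul_le_iff₀ (by positivity)]
    exact hb
  have h3 : (1 / 2 : ℝ) ^ (D * 2 ^ k) ≤ (bias h S ζ / Fintype.card V) ^ 2 ^ k := by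
    rw [pow_mul]
    exact pow_le_pow_left₀ (by positivity) h2 _
  have h4 : ∑ y : Fin k → V, g ^ col (Aset S k y) ≤
      ∑ y : Fin k → V, ((if col (Aset S k y) < E0 * (D * 2 ^ k + 1) then (1 : ℝ) else 0) +
        (1 / 2 : ℝ) ^ (D * 2 ^ k + 1)) := by
    refine sum_le_sum fun y _ => ?_
    split_ifs with hy
    · exact le_add_of_le_of_nonneg (pow_le_one₀ hg0 hg1) (by positivity)
    · rw [zero_add]
      refine (pow_le_pow_of_le_one hg0 hg1 (not_lt.1 hy)).trans ?_
      rw [pow_mul]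
      exact pow_le_pow_left₀ (by positivity) hE _
  rw [sum_add_distrib, sum_boole, sum_const, card_univ, Fintype.card_fun, Fintype.card_fin,
    nsmul_eq_mul, Nat.cast_pow] at h4
  have h5 := (le_div_iff₀ (pow_pos hN k)).1 (h3.trans h1)
  have h6 : (2 : ℝ) ^ (D * 2 ^ k + 1) * (1 / 2 : ℝ) ^ (D * 2 ^ k + 1) = 1 := by
    rw [← mul_pow]; norm_num
  have h7 : (1 / 2 : ℝ) ^ (D * 2 ^ k) = 2 * (1 / 2 : ℝ) ^ (D * 2 ^ k + 1) := by
    rw [pow_succ]; ring
  rw [h7] at h5
  have h8 : (0 : ℝ) < 2 ^ (D * 2 ^ k + 1) := by positivity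
  have h9 := mul_le_mul_of_nonneg_left (h5.trans h4) h8.le
  have h10 : (Fintype.card V : ℝ) ^ k ≤ 2 ^ (D * 2 ^ k + 1) *
      ((univ.filter (fun y : Fin k → V => col (Aset S k y) < E0 * (D * 2 ^ k + 1))).card : ℝ) := by
    generalize (1 / 2 : ℝ) ^ (D * 2 ^ k + 1) = a at h6 h9
    generalize (2 : ℝ) ^ (D * 2 ^ k + 1) = A at h6 h9 ⊢
    have e1 : A * (2 * a * (Fintype.card V : ℝ) ^ k) = 2 * (Fintype.card V : ℝ) ^ k := by
      rw [show A * (2 * a * (Fintype.card V : ℝ) ^ k) = 2 * (A * a) * (Fintype.card V : ℝ) ^ k by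
        ring, h6, mul_one]
    have e2 : A * ((Fintype.card V : ℝ) ^ k * a) = (Fintype.card V : ℝ) ^ k := by
      rw [show A * ((Fintype.card V : ℝ) ^ k * a) = (A * a) * (Fintype.card V : ℝ) ^ k by
        ring, h6, one_mul]
    rw [e1, mul_add, e2] at h9
    linarith
  exact_mod_cast h10

end Pool.Agent.P.MP_85fe51_lc.DA
end

-- part Pool.Agent.P.MP_85fe51_lc.DRest
section

set_option autoImplicit false

namespace Pool.Agent.P.MP_85fe51_lc.DA

open Finset
open scoped Classical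

variable {V : Type} [AddCommGroup V] [Module F2 V] [Fintype V]

theorem card_cyl {k : ℕ} (Gs : Fin k → Finset (Du V)) (h : ∀ i, Indep (Gs i)) :
    (cyl Gs).card * 2 ^ (∑ i, (Gs i).card) = Fintype.card V ^ k := by
  have e : cyl Gs = Fintype.piFinset (fun i => oneF (Gs i)) := by
    ext y
    simp only [mem_cyl, Fintype.mem_piFinset, mem_oneF]
  rw [e, Fintype.card_piFinset, ← prod_pow_eq_pow_sum, ← prod_mul_distrib,
    prod_congr rfl fun i _ => card_oneF (h i), prod_const, card_univ, Fintype.card_fin]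

theorem drest_ext {k : ℕ} (G H : Finset (Du V)) (Gs : Fin k → Finset (Du V))
    (hGs : ∀ i, Gs i ⊆ G) (hd : Disjoint H G) (P : Finset (Fin k)) :
    ∃ Gs' : Fin k → Finset (Du V), (∀ i, Gs' i ⊆ G ∪ H) ∧
      ∑ i, (Gs' i).card = ∑ i, (Gs i).card + P.card * H.card ∧
      ∀ y, y ∈ cyl Gs' ↔ y ∈ cyl Gs ∧ ∀ i ∈ P, ∀ χ ∈ H, χ (y i) = 1 := by
  refine ⟨fun i => if i ∈ P then Gs i ∪ H else Gs i, fun i => ?_, ?_, fun y => ?_⟩
  · dsimp only
    split_ifs
    · exact union_subset_union_left (hGs i)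
    · exact (hGs i).trans subset_union_left
  · have h1 : ∀ i, (if i ∈ P then Gs i ∪ H else Gs i).card =
        (Gs i).card + if i ∈ P then H.card else 0 := fun i => by
      split_ifs
      · exact card_union_of_disjoint (hd.symm.mono_left (hGs i))
      · rfl
    simp only [h1, sum_add_distrib, sum_ite_mem, univ_inter, sum_const, smul_eq_mul]
  · simp only [mem_cyl]
    refine ⟨fun h => ⟨fun i χ hχ => h i χ ?_, fun i hi χ hχ => h i χ ?_⟩, fun h i χ hχ => ?_⟩
    · split_ifs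
      · exact mem_union_left _ hχ
      · exact hχ
    · rw [if_pos hi]
      exact mem_union_right _ hχ
    · split_ifs at hχ with hi
      · exact (mem_union.1 hχ).elim (h.1 i χ) (h.2 i hi χ)
      · exact h.1 i χ hχ

theorem drest_lt {k j : ℕ} (hj : j ≤ k) : (univ.filter fun i : Fin k => i.val < j).card = j := by
  rw [Fin.card_filter_val_lt, min_eq_right hj]

theorem drest_le (k j : ℕ) : (univ.filter fun i : Fin k => j ≤ i.val).card = k - j := by
  have h := card_filter_add_card_filter_not (s := (univ : Finset (Fin k))) fun i => i.val < j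
  simp only [not_lt, Fin.card_filter_val_lt, card_univ, Fintype.card_fin] at h
  omega

theorem card_cyl_ext {k : ℕ} (G H : Finset (Du V)) (Gs : Fin k → Finset (Du V))
    (hGs : ∀ i, Gs i ⊆ G) (hd : Disjoint H G) (hi : Indep (G ∪ H)) (j : ℕ) :
    ((cyl Gs).filter (fun y => ∀ i : Fin k, j ≤ i.val → ∀ χ ∈ H, χ (y i) = 1)).card *
      2 ^ ((k - j) * H.card) = (cyl Gs).card := by
  obtain ⟨Gs', h1, h2, h3⟩ := drest_ext G H Gs hGs hd (univ.filter fun i : Fin k => j ≤ i.val)
  have h4 := card_cyl Gs' fun i => hi.mono (h1 i)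
  have h5 := card_cyl Gs fun i => hi.mono ((hGs i).trans subset_union_left)
  have e : (cyl Gs).filter (fun y => ∀ i : Fin k, j ≤ i.val → ∀ χ ∈ H, χ (y i) = 1) = cyl Gs' := by
    ext y
    simp only [h3, mem_filter, mem_univ, true_and]
  rw [h2, drest_le, ← h5, pow_add] at h4
  refine Nat.eq_of_mul_eq_mul_right (pow_pos two_pos (∑ i, (Gs i).card)) ?_
  rw [e, ← h4]
  ring

/-- density restoring. -/
theorem restore {k v : ℕ} (S : Finset (Du V)) (Bad : Finset (Fin k → V))
    (hB : Fintype.card V ^ k ≤ 2 ^ v * Bad.card) :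
    ∃ (G : Finset (Du V)) (Gs : Fin k → Finset (Du V)) (B : Finset (Fin k → V)),
      Indep G ∧ (∀ i, Gs i ⊆ G) ∧ G.card ≤ v ∧ B ⊆ Bad ∧ B ⊆ cyl Gs ∧ B.Nonempty ∧
      (cyl Gs).card ≤ 2 ^ v * B.card ∧
      ∀ j ≤ k, ∀ H : Finset (Du V), H ⊆ S → Disjoint H G → Indep (G ∪ H) →
        (B.filter (fun y => H ⊆ Aset S j y)).card * 2 ^ (j * H.card) ≤ 2 ^ H.card * B.card := by
  let P : ℕ → Prop := fun n => ∃ (G : Finset (Du V)) (Gs : Fin k → Finset (Du V)),
    Indep G ∧ (∀ i, Gs i ⊆ G) ∧ G.card = n ∧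
      2 ^ n * Bad.card ≤ (Bad ∩ cyl Gs).card * 2 ^ (∑ i, (Gs i).card)
  have hpos : 0 < Bad.card := by
    have h : 0 < Fintype.card V ^ k := pow_pos Fintype.card_pos k
    exact Nat.pos_of_mul_pos_left (h.trans_le hB)
  have h0 : P 0 := by
    refine ⟨∅, fun _ => ∅, indep_empty, fun _ => Subset.rfl, rfl, ?_⟩
    rw [inter_eq_left.2 fun y _ => mem_cyl.2 fun i χ h => absurd h (notMem_empty χ)]
    simp
  have hv : ∀ n, P n → n ≤ v := by
    rintro n ⟨G, Gs, h1, h2, -, h4⟩
    have h5 := h4.trans (Nat.mul_le_mul_right _ (card_le_card inter_subset_right))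
    rw [card_cyl Gs fun i => h1.mono (h2 i)] at h5
    exact (Nat.pow_le_pow_iff_right one_lt_two).1 (Nat.le_of_mul_le_mul_right (h5.trans hB) hpos)
  obtain ⟨n, ⟨G, Gs, h1, h2, rfl, h4⟩, hn⟩ : ∃ n, P n ∧ ∀ m, P m → m ≤ n :=
    ⟨Nat.findGreatest P v, Nat.findGreatest_spec (Nat.zero_le v) h0,
      fun m hm => Nat.le_findGreatest (hv m hm) hm⟩
  have hw := pow_pos (two_pos (α := ℕ)) (∑ i, (Gs i).card)
  have h5 : Bad.card ≤ (Bad ∩ cyl Gs).card * 2 ^ (∑ i, (Gs i).card) :=
    (Nat.le_mul_of_pos_left _ (pow_pos two_pos _)).trans h4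
  refine ⟨G, Gs, Bad ∩ cyl Gs, h1, h2, hv _ ⟨G, Gs, h1, h2, rfl, h4⟩, inter_subset_left,
    inter_subset_right, card_pos.1 (Nat.pos_of_mul_pos_right (hpos.trans_le h5)), ?_,
    fun j hj H _ hd hi => ?_⟩
  · refine Nat.le_of_mul_le_mul_right ?_ hw
    rw [card_cyl Gs fun i => h1.mono (h2 i), mul_assoc]
    exact hB.trans (Nat.mul_le_mul_left _ h5)
  · by_contra hc
    rw [not_le] at hc
    obtain ⟨Gs', a1, a2, a3⟩ := drest_ext G H Gs h2 hd (univ.filter fun i : Fin k => i.val < j)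
    have a4 : ((Bad ∩ cyl Gs).filter (fun y => H ⊆ Aset S j y)).card ≤ (Bad ∩ cyl Gs').card := by
      refine card_le_card fun y hy => ?_
      rw [mem_filter, mem_inter] at hy
      exact mem_inter.2 ⟨hy.1.1, (a3 y).2 ⟨hy.1.2, fun i hi χ hχ =>
        (mem_Aset.1 (hy.2 hχ)).2 i (mem_filter.1 hi).2⟩⟩
    have a5 := hn _ ⟨G ∪ H, Gs', hi, a1, card_union_of_disjoint hd.symm, by
      rw [a2, drest_lt hj, pow_add, pow_add]
      calc _ = 2 ^ H.card * (2 ^ G.card * Bad.card) := by ring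
        _ ≤ 2 ^ H.card * (Bad ∩ cyl Gs).card * 2 ^ (∑ i, (Gs i).card) := by
          rw [mul_assoc]
          exact Nat.mul_le_mul_left _ h4
        _ ≤ (Bad ∩ cyl Gs').card * 2 ^ (j * H.card) * 2 ^ (∑ i, (Gs i).card) :=
          Nat.mul_le_mul_right _ (hc.le.trans (Nat.mul_le_mul_right _ a4))
        _ = _ := by ring⟩
    rw [show H.card = 0 by omega, mul_zero, pow_zero, mul_one, one_mul] at hc
    exact hc.not_ge (card_filter_le _ _)

/-- the hybrid points are spread. -/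
theorem spread_hyb {k j : ℕ} (hj : j ≤ k) (S G H : Finset (Du V)) (Gs : Fin k → Finset (Du V))
    (B : Finset (Fin k → V)) (hGs : ∀ i, Gs i ⊆ G) (hd : Disjoint H G) (hi : Indep (G ∪ H))
    (hB : (B.filter (fun y => H ⊆ Aset S j y)).card * 2 ^ (j * H.card) ≤ 2 ^ H.card * B.card) :
    ((B ×ˢ cyl Gs).filter (fun p => H ⊆ Aset S k (hyb j p.1 p.2))).card * 2 ^ (k * H.card) ≤
      2 ^ H.card * (B ×ˢ cyl Gs).card := by
  obtain ⟨C, h3, hC⟩ : ∃ C : Finset (Fin k → V), C.card * 2 ^ ((k - j) * H.card) = (cyl Gs).card ∧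
      ∀ y ∈ cyl Gs, (∀ i : Fin k, j ≤ i.val → ∀ χ ∈ H, χ (y i) = 1) → y ∈ C :=
    ⟨_, card_cyl_ext G H Gs hGs hd hi j, fun y a b => by simp only [mem_filter]; exact ⟨a, b⟩⟩
  have h1 : (B ×ˢ cyl Gs).filter (fun p => H ⊆ Aset S k (hyb j p.1 p.2)) ⊆
      B.filter (fun y => H ⊆ Aset S j y) ×ˢ C := by
    intro p hp
    rw [mem_filter, mem_product] at hp
    have h := fun χ (hχ : χ ∈ H) => mem_Aset.1 (hp.2 hχ)
    refine mem_product.2 ⟨mem_filter.2 ⟨hp.1.1, fun χ hχ => mem_Aset.2 ⟨(h χ hχ).1, fun i hi => ?_⟩⟩,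
      hC _ hp.1.2 fun i hi χ hχ => ?_⟩
    · have h2 := (h χ hχ).2 i i.2
      rwa [hyb, if_pos hi] at h2
    · have h2 := (h χ hχ).2 i i.2
      rwa [hyb, if_neg hi.not_gt] at h2
  have h2 := card_le_card h1
  have h4 : k * H.card = j * H.card + (k - j) * H.card := by
    rw [← add_mul, Nat.add_sub_cancel' hj]
  rw [card_product] at h2
  refine (Nat.mul_le_mul_right _ h2).trans ?_
  rw [card_product, h4, pow_add, mul_mul_mul_comm, h3, ← mul_assoc]
  exact Nat.mul_le_mul_right _ hB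

end Pool.Agent.P.MP_85fe51_lc.DA
end

-- part Pool.Agent.P.MP_85fe51_lc.DSplit
section

set_option autoImplicit false

namespace Pool.Agent.P.MP_85fe51_lc.DA

open Finset
open scoped Classical

variable {V : Type} [AddCommGroup V] [Module F2 V]

/-- no small part of `T` spans a large part of `T` modulo `G`. -/
def NonRigid (G T : Finset (Du V)) (k r : ℕ) : Prop :=
  ∀ I : Finset (Du V), I ⊆ T → I.card ≤ r →
    8 * k * (T.filter (fun γ => InSp (G ∪ I) γ)).card ≤ T.card

/-- a bad split at level `j`. -/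
def BadAt (T : Finset (Du V)) {k : ℕ} (j : ℕ) (y : Fin k → V) : Prop :=
  4 * k * (Aset T (j + 1) y).card + (Aset T j y).card < 2 * k * (Aset T j y).card

theorem big_of_no_bad (T : Finset (Du V)) {k : ℕ} (hk : 1 ≤ k) (y : Fin k → V) (j : ℕ)
    (hj : j ≤ k) (h : ∀ i < j, ¬ BadAt T i y) : T.card ≤ 2 * 2 ^ j * (Aset T j y).card := by
  have hk' : (1 : ℝ) ≤ k := by exact_mod_cast hk
  have key : ∀ i ≤ j, (2 * (k : ℝ) - i) * T.card ≤ 2 * k * 2 ^ i * (Aset T i y).card := by
    intro i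
    induction i with
    | zero =>
      intro _
      have e : Aset T 0 y = T := by
        ext χ
        simp [mem_Aset]
      simp [e]
    | succ i ih =>
      intro hi
      have h2 : 2 * (k : ℝ) * (Aset T i y).card ≤
          4 * k * (Aset T (i + 1) y).card + (Aset T i y).card := by
        exact_mod_cast not_lt.1 (h i (by omega))
      refine le_of_mul_le_mul_left ?_ (show (0 : ℝ) < 2 * k by linarith)
      have h3 := mul_le_mul_of_nonneg_left (ih (by omega)) (show (0 : ℝ) ≤ 2 * k - 1 by linarith)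
      have h4 := mul_le_mul_of_nonneg_left h2 (show (0 : ℝ) ≤ 2 * k * 2 ^ i by positivity)
      have h5 : (0 : ℝ) ≤ i * T.card := by positivity
      push_cast
      rw [pow_succ]
      linarith
  have h1 := key j le_rfl
  have h2 : (j : ℝ) ≤ k := by exact_mod_cast hj
  have h3 := mul_le_mul_of_nonneg_right h2 (Nat.cast_nonneg (α := ℝ) T.card)
  have h4 : (T.card : ℝ) ≤ 2 * 2 ^ j * (Aset T j y).card :=
    le_of_mul_le_mul_left (a := (k : ℝ)) (by linarith) (by linarith)
  exact_mod_cast h4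

variable [Fintype V]

theorem split_lemma (G Gj T : Finset (Du V)) (hGj : Gj ⊆ G) {k r : ℕ} (hk : 1 ≤ k)
    (hT : NonRigid G T k r) :
    (((oneF Gj).filter (fun v =>
        4 * k * (T.filter (fun χ => χ v = 1)).card + T.card < 2 * k * T.card)).card : ℝ) *
      (1 + 1 / (4 * (k : ℝ))) ^ r ≤ (oneF Gj).card := by
  have hk' : (0 : ℝ) < k := by exact_mod_cast hk
  set bad : V → Prop := fun v =>
    4 * k * (T.filter (fun χ => χ v = 1)).card + T.card < 2 * k * T.card with hbad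
  set e : ℝ := 1 + 1 / (4 * (k : ℝ)) with he
  have he0 : 0 ≤ e := by positivity
  let X : Finset (Du V) → Finset V := fun I => (oneF Gj).filter (fun v => ∀ χ ∈ I, χ v = 0)
  have mX : ∀ I v, v ∈ X I ↔ (∀ χ ∈ Gj, χ v = 1) ∧ ∀ χ ∈ I, χ v = 0 := fun I v => by
    simp only [X, mem_filter, mem_oneF]
  have key : ∀ (i : ℕ) (I : Finset (Du V)), I ⊆ T → I.card + i ≤ r →
      (((X I).filter bad).card : ℝ) * e ^ i ≤ (X I).card := by
    intro i
    induction i with
    | zero =>
      intro I _ _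
      simpa using card_filter_le _ _
    | succ i ih =>
      intro I hI hr
      rcases T.eq_empty_or_nonempty with rfl | hne
      · have : (X I).filter bad = ∅ := filter_eq_empty_iff.2 fun v _ => by simp [hbad]
        simp [this]
      have hT0 : (0 : ℝ) < T.card := by exact_mod_cast hne.card_pos
      set T0 := T.filter (fun γ => ¬ InSp (G ∪ I) γ) with hT0d
      set B := (X I).filter bad with hB
      have h1 : ∀ v ∈ B, e * T.card / 2 ≤ ((T0.filter (fun χ => χ v = 0)).card : ℝ) := by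
        intro v hv
        have a1 : (4 * k * (T.filter (fun χ => χ v = 1)).card + T.card : ℝ) < 2 * k * T.card := by
          exact_mod_cast (mem_filter.1 hv).2
        have a2 : (8 * k * (T.filter (fun γ => InSp (G ∪ I) γ)).card : ℝ) ≤ T.card := by
          have a0 : 8 * k * (T.filter (fun γ => InSp (G ∪ I) γ)).card ≤ T.card :=
            le_trans (Nat.mul_le_mul_left _ (card_le_card fun γ hγ => mem_filter.2
              ⟨(mem_filter.1 hγ).1, InSp.mono (fun x hx => by simpa using hx)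
                (mem_filter.1 hγ).2⟩)) (hT I hI (by omega))
          exact_mod_cast a0
        have a3 : T.card ≤ (T0.filter (fun χ => χ v = 0)).card +
            (T.filter (fun χ => χ v = 1)).card + (T.filter (fun γ => InSp (G ∪ I) γ)).card := by
          refine le_trans (card_le_card fun χ hχ => ?_)
            ((card_union_le _ _).trans (Nat.add_le_add_right (card_union_le _ _) _))
          simp only [hT0d, mem_union, mem_filter]
          have := f2_cases (χ v)
          tauto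
        have a4 := mul_le_mul_of_nonneg_left (Nat.cast_le (α := ℝ).2 a3)
          (show (0 : ℝ) ≤ 8 * k by positivity)
        push_cast at a4
        refine le_of_mul_le_mul_left ?_ (show (0 : ℝ) < 8 * k by positivity)
        have a5 : 8 * (k : ℝ) * (e * T.card / 2) = (4 * k + 1) * T.card := by
          rw [he]
          field_simp
          ring
        rw [a5]
        linarith
      have h2 : ∀ χ ∈ T0, ((B.filter (fun v => χ v = 0)).card : ℝ) * e ^ i ≤ (X I).card / 2 := by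
        intro χ hχ
        obtain ⟨c1, c2⟩ := mem_filter.1 hχ
        have b1 := ih (insert χ I) (insert_subset c1 hI) (by
          have := card_insert_le χ I
          omega)
        have b2 := halving c2 (X I) (fun x hx z hz => (mX I _).2 ⟨fun ξ hξ => by
          rw [map_add, ((mX I x).1 hx).1 ξ hξ, hz ξ (mem_union_left _ (hGj hξ)), add_zero],
          fun ξ hξ => by
          rw [map_add, ((mX I x).1 hx).2 ξ hξ, hz ξ (mem_union_right _ hξ), add_zero]⟩) 0
        have b3 : (X I).filter (fun x => χ x = 0) = X (insert χ I) := by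
          ext x
          simp only [mem_filter, mX, forall_mem_insert]
          tauto
        have b4 : B.filter (fun v => χ v = 0) = (X (insert χ I)).filter bad := by
          rw [← b3, hB, filter_comm]
        rw [b3] at b2
        have b5 : (2 * (X (insert χ I)).card : ℝ) = (X I).card := by exact_mod_cast b2
        rw [b4]
        linarith
      have h3 : ∑ v ∈ B, ((T0.filter (fun χ => χ v = 0)).card : ℝ) =
          ∑ χ ∈ T0, ((B.filter (fun v => χ v = 0)).card : ℝ) := by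
        simp only [card_filter, Nat.cast_sum]
        exact sum_comm
      have h4 := card_nsmul_le_sum B _ _ h1
      have h5 := sum_le_card_nsmul T0 _ _ h2
      rw [← sum_mul, ← h3] at h5
      rw [nsmul_eq_mul] at h4 h5
      have h6 := mul_le_mul_of_nonneg_right h4 (pow_nonneg he0 i)
      have h7 : (T0.card : ℝ) ≤ T.card := Nat.cast_le.2 (card_filter_le _ _)
      have h8 := mul_le_mul_of_nonneg_right h7 (Nat.cast_nonneg (α := ℝ) (X I).card)
      refine le_of_mul_le_mul_left ?_ hT0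
      rw [pow_succ]
      linarith
  have h := key r ∅ (empty_subset _) (by simp)
  have e0 : X ∅ = oneF Gj := by
    ext v
    simp only [mX, mem_oneF, notMem_empty, false_imp_iff, implies_true, and_true]
  rwa [e0] at h

theorem few_nonrigid {k : ℕ} (hk : 1 ≤ k) (G T : Finset (Du V)) (Gs : Fin k → Finset (Du V))
    (hGs : ∀ i, Gs i ⊆ G) (j : ℕ) (hj : j < k) (u : ℕ) :
    ((cyl Gs).filter (fun y => BadAt T j y ∧ NonRigid G (Aset T j y) k (4 * k * u))).card * 2 ^ u ≤
      (cyl Gs).card := by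
  have hk' : (0 : ℝ) < k := by exact_mod_cast hk
  set Pd : (Fin k → V) → Prop := fun y =>
    BadAt T j y ∧ NonRigid G (Aset T j y) k (4 * k * u) with hPd
  let i0 : Fin k := ⟨j, hj⟩
  have u1 : ∀ (y : Fin k → V) v, Aset T j (Function.update y i0 v) = Aset T j y := fun y v => by
    ext χ
    simp only [mem_Aset]
    refine and_congr_right fun _ => forall_congr' fun i => imp_congr_right fun hi => ?_
    rw [Function.update_of_ne fun h => by simp [h, i0] at hi]
  have u2 : ∀ (y : Fin k → V) v, Aset T (j + 1) (Function.update y i0 v) =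
      (Aset T j y).filter (fun χ => χ v = 1) := fun y v => by
    ext χ
    rw [← u1 y v]
    simp only [mem_Aset, mem_filter, and_assoc]
    refine and_congr_right fun _ => ⟨fun h => ⟨fun i hi => h i (by omega), ?_⟩, fun h i hi => ?_⟩
    · simpa using h i0 (Nat.lt_succ_self j)
    · by_cases e : i = i0
      · simpa [e] using h.2
      · exact h.1 i (lt_of_le_of_ne (by omega) fun e' => e (Fin.ext e'))
  have h1 : ∀ y ∈ cyl Gs, ((oneF (Gs i0)).filter
      (fun v => Pd (Function.update y i0 v))).card * 2 ^ u ≤ (oneF (Gs i0)).card := by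
    intro y _
    by_cases hy : NonRigid G (Aset T j y) k (4 * k * u)
    · have a1 := split_lemma G (Gs i0) _ (hGs i0) hk hy
      have a2 : (2 : ℝ) ^ u ≤ (1 + 1 / (4 * (k : ℝ))) ^ (4 * k * u) := by
        rw [pow_mul]
        refine pow_le_pow_left₀ (by norm_num) (le_trans (le_of_eq ?_)
          (one_add_mul_le_pow (le_trans (by norm_num : (-2 : ℝ) ≤ 0) (by positivity)) _)) u
        push_cast
        field_simp
        norm_num
      refine Nat.cast_le (α := ℝ).1 (le_trans ?_ a1)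
      push_cast
      refine mul_le_mul (Nat.cast_le.2 (card_le_card fun v hv => ?_)) a2 (by positivity)
        (by positivity)
      have a3 := (mem_filter.1 hv).2.1
      rw [BadAt, u1, u2] at a3
      exact mem_filter.2 ⟨(mem_filter.1 hv).1, a3⟩
    · rw [filter_eq_empty_iff.2 fun v _ hv => hy (u1 y v ▸ hv.2)]
      simp
  have inv : Function.Involutive fun p : (Fin k → V) × V =>
      (Function.update p.1 i0 p.2, p.1 i0) := fun p => by simp
  have h2 : (((cyl Gs).filter Pd) ×ˢ oneF (Gs i0)).card ≤ ((cyl Gs ×ˢ oneF (Gs i0)).filter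
      (fun p => Pd (Function.update p.1 i0 p.2))).card := by
    refine card_le_card_of_injOn _ (fun p hp => ?_) inv.injective.injOn
    simp only [coe_product, Set.mem_prod, mem_coe, mem_filter, mem_product, mem_cyl,
      mem_oneF] at hp ⊢
    refine ⟨⟨fun i χ hχ => ?_, hp.1.1 i0⟩, by simpa using hp.1.2⟩
    by_cases e : i = i0
    · subst e
      simpa using hp.2 χ hχ
    · rw [Function.update_of_ne e]
      exact hp.1.1 i χ hχ
  rw [card_product, card_filter _ (_ ×ˢ _), sum_product] at h2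
  replace h2 := h2.trans (le_of_eq (sum_congr rfl fun y _ => (card_filter _ _).symm))
  have h3 := sum_le_card_nsmul _ _ _ h1
  rw [← sum_mul, smul_eq_mul] at h3
  rcases (cyl Gs).eq_empty_or_nonempty with e | ⟨y, hy⟩
  · simp [e]
  have h4 : 0 < (oneF (Gs i0)).card := card_pos.2 ⟨y i0, mem_oneF.2 (mem_cyl.1 hy i0)⟩
  refine Nat.le_of_mul_le_mul_right (le_trans ?_ h3) h4
  rw [mul_right_comm]
  exact Nat.mul_le_mul_right _ h2

/-- one class of points: large at the last level, or large and rigid at level `j`. -/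
theorem classify {k v : ℕ} (hk : 1 ≤ k) (G T : Finset (Du V)) (Gs : Fin k → Finset (Du V))
    (hGs : ∀ i, Gs i ⊆ G) (B : Finset (Fin k → V)) (hB : B ⊆ cyl Gs)
    (hv : (cyl Gs).card ≤ 2 ^ v * B.card) :
    ∃ j ≤ k, ∃ B' : Finset (Fin k → V), B' ⊆ B ∧ B.card ≤ 2 * (k + 1) * B'.card ∧
      ∀ y ∈ B', T.card ≤ 2 * 2 ^ j * (Aset T j y).card ∧
        (j = k ∨ ¬ NonRigid G (Aset T j y) k (4 * k * (v + k + 1))) := by
  have ex : ∀ y : Fin k → V, ∃ j, j = k ∨ BadAt T j y := fun y => ⟨k, Or.inl rfl⟩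
  have hm : ∀ y ∈ B, Nat.find (ex y) ∈ range (k + 1) := fun y _ =>
    mem_range.2 (Nat.lt_succ_of_le (Nat.find_min' _ (Or.inl rfl)))
  obtain ⟨j, hj, hmax⟩ := exists_max_image (range (k + 1))
    (fun j => (B.filter (fun y => Nat.find (ex y) = j)).card) ⟨0, by simp⟩
  have hj' : j ≤ k := Nat.le_of_lt_succ (mem_range.1 hj)
  have h1 := sum_le_card_nsmul _ _ _ hmax
  rw [← card_eq_sum_card_fiberwise hm, card_range, smul_eq_mul] at h1
  set C := B.filter (fun y => Nat.find (ex y) = j) with hC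
  have h2 : ∀ y ∈ C, T.card ≤ 2 * 2 ^ j * (Aset T j y).card := fun y hy =>
    big_of_no_bad T hk y j hj' fun i hi hb =>
      Nat.find_min (ex y) (by rwa [(mem_filter.1 hy).2]) (Or.inr hb)
  rcases hj'.eq_or_lt with e | hlt
  · exact ⟨j, hj', C, filter_subset _ _, h1.trans (Nat.mul_le_mul_right _ (by omega)),
      fun y hy => ⟨h2 y hy, Or.inl e⟩⟩
  refine ⟨j, hj', C.filter (fun y => ¬ NonRigid G (Aset T j y) k (4 * k * (v + k + 1))),
    (filter_subset _ _).trans (filter_subset _ _), ?_,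
    fun y hy => ⟨h2 y (mem_filter.1 hy).1, Or.inr (mem_filter.1 hy).2⟩⟩
  have h3 := (few_nonrigid hk G T Gs hGs j hlt (v + k + 1)).trans hv
  set n := ((cyl Gs).filter
    (fun y => BadAt T j y ∧ NonRigid G (Aset T j y) k (4 * k * (v + k + 1)))).card with hn
  have h4 : C.card ≤ (C.filter
      (fun y => ¬ NonRigid G (Aset T j y) k (4 * k * (v + k + 1)))).card + n := by
    refine le_trans (card_le_card fun y hy => ?_) (card_union_le _ _)
    by_cases hr : NonRigid G (Aset T j y) k (4 * k * (v + k + 1))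
    · have a := Nat.find_spec (ex y)
      rw [(mem_filter.1 hy).2] at a
      exact mem_union_right _ (mem_filter.2 ⟨hB (mem_filter.1 hy).1, a.resolve_left hlt.ne, hr⟩)
    · exact mem_union_left _ (mem_filter.2 ⟨hy, hr⟩)
  have h5 : n * (2 * 2 ^ k) ≤ B.card := by
    refine Nat.le_of_mul_le_mul_left (le_trans (le_of_eq ?_) h3) (Nat.two_pow_pos v)
    ring
  have h6 := Nat.mul_le_mul_left (2 * n) (Nat.succ_le_of_lt (Nat.lt_two_pow_self (n := k)))
  have h7 := Nat.mul_le_mul_left (k + 1) h4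
  rw [Nat.succ_eq_add_one] at h6
  nlinarith

end Pool.Agent.P.MP_85fe51_lc.DA
end

-- part Pool.Agent.P.MP_85fe51_lc.DMass
section

set_option autoImplicit false

namespace Pool.Agent.P.MP_85fe51_lc.DA

open Finset
open scoped Classical

variable {V : Type} [AddCommGroup V] [Module F2 V]

theorem nc_add_col (S G : Finset (Du V)) {k : ℕ} (y : Fin k → V) :
    (Aset (star S G) k y).card ≤ nc G (Aset S k y) + col (Aset S k y) := by
  refine le_trans (card_le_card ?_) (card_union_le _ _)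
  intro γ hγ
  obtain ⟨h1, h2⟩ := mem_Aset.1 hγ
  obtain ⟨h3, h4⟩ := mem_star.1 h1
  have h5 : γ ∈ Aset S k y := mem_Aset.2 ⟨h3, h2⟩
  by_cases h : InSp ((Aset S k y).erase γ) γ
  · exact mem_union_left _ (mem_filter.2 ⟨h5, h4, h.mono subset_union_right⟩)
  · exact mem_union_right _ (mem_filter.2 ⟨h5, h⟩)

variable [Fintype V]

theorem nc_add_rank (G I X A : Finset (Du V)) (hXA : X ⊆ A) (hX : ∀ γ ∈ X, InSp (G ∪ I) γ)
    (hG : ∀ γ ∈ X, ¬ InSp G γ) : X.card ≤ nc G A + I.card := by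
  refine le_trans ?_ (Nat.add_le_add_left (coloops_le G I X hX) _)
  refine le_trans (card_le_card ?_) (card_union_le _ _)
  intro γ hγ
  by_cases h : InSp (G ∪ X.erase γ) γ
  · refine mem_union_left _ (mem_filter.2 ⟨hXA hγ, hG γ hγ, h.mono fun x hx => ?_⟩)
    simp only [mem_union, mem_erase] at hx ⊢
    exact hx.imp_right fun a => ⟨a.1, hXA a.2⟩
  · exact mem_union_right _ (mem_filter.2 ⟨hγ, h⟩)

theorem mass_rigid {k j r : ℕ} (hk : 1 ≤ k) (hj : j ≤ k) (S G : Finset (Du V)) (hG : Indep G)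
    (Gs : Fin k → Finset (Du V)) (hGs : ∀ i, Gs i ⊆ G) (y : Fin k → V)
    (hs : S.card ≤ 2 * (star S G).card)
    (hbig : (star S G).card ≤ 2 * 2 ^ j * (Aset (star S G) j y).card)
    (hrig : ¬ NonRigid G (Aset (star S G) j y) k r) (hr : 64 * k * r * 2 ^ k ≤ S.card) :
    S.card * (cyl Gs).card ≤
      64 * k * 2 ^ k * ∑ y' ∈ cyl Gs, nc G (Aset S k (hyb j y y')) := by
  obtain ⟨I, -, hI, hT⟩ : ∃ I : Finset (Du V), I ⊆ Aset (star S G) j y ∧ I.card ≤ r ∧
      (Aset (star S G) j y).card <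
        8 * k * ((Aset (star S G) j y).filter (fun γ => InSp (G ∪ I) γ)).card := by
    by_contra h
    refine hrig fun I h1 h2 => not_lt.1 fun h3 => h ⟨I, h1, h2, h3.trans_le
      (Nat.mul_le_mul_left _ (card_le_card fun γ hγ => ?_))⟩
    refine mem_filter.2 ⟨(mem_filter.1 hγ).1, (mem_filter.1 hγ).2.mono fun x hx => ?_⟩
    simpa only [mem_union] using hx
  set T := (Aset (star S G) j y).filter (fun γ => InSp (G ∪ I) γ) with hTd
  have hm : ∀ γ ∈ T, γ ∈ S ∧ ¬ InSp G γ ∧ InSp (G ∪ I) γ ∧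
      ∀ i : Fin k, i.val < j → γ (y i) = 1 := fun γ hγ => by
    obtain ⟨h1, h2⟩ := mem_filter.1 hγ
    obtain ⟨h3, h4⟩ := mem_Aset.1 h1
    exact ⟨(mem_star.1 h3).1, (mem_star.1 h3).2, h2, h4⟩
  have h1 : ∀ y' : Fin k → V, (T.filter (fun γ => ∀ i : Fin k, j ≤ i.val → γ (y' i) = 1)).card ≤
      nc G (Aset S k (hyb j y y')) + r := fun y' => by
    refine le_trans (nc_add_rank G I _ _ (fun γ hγ => ?_)
      (fun γ hγ => (hm γ (mem_filter.1 hγ).1).2.2.1)
      fun γ hγ => (hm γ (mem_filter.1 hγ).1).2.1) (Nat.add_le_add_left hI _)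
    obtain ⟨a, b⟩ := mem_filter.1 hγ
    refine mem_Aset.2 ⟨(hm γ a).1, fun i _ => ?_⟩
    unfold hyb
    split_ifs with h
    · exact (hm γ a).2.2.2 i h
    · exact b i (not_lt.1 h)
  have h2 : ∀ γ ∈ T, ((cyl Gs).filter (fun y' => ∀ i : Fin k, j ≤ i.val → γ (y' i) = 1)).card *
      2 ^ (k - j) = (cyl Gs).card := fun γ hγ => by
    have a := (hm γ hγ).2.1
    have b := card_cyl_ext G {γ} Gs hGs (disjoint_singleton_left.2 fun h => a (inSp_of_mem h))
      ((hG.insert a).mono fun x hx => by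
        simp only [mem_union, mem_insert, mem_singleton] at hx ⊢
        exact hx.symm) j
    simpa only [mem_singleton, forall_eq, card_singleton, mul_one] using b
  have h3 : (∑ y' ∈ cyl Gs, (T.filter (fun γ => ∀ i : Fin k, j ≤ i.val → γ (y' i) = 1)).card) *
      2 ^ (k - j) = T.card * (cyl Gs).card := by
    simp only [card_filter]
    rw [sum_comm, sum_mul, ← smul_eq_mul, ← sum_const]
    refine sum_congr rfl fun γ hγ => ?_
    rw [← h2 γ hγ, card_filter]
  have h4 := sum_le_sum fun y' (_ : y' ∈ cyl Gs) => h1 y'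
  rw [sum_add_distrib, sum_const, smul_eq_mul] at h4
  have h5 : 2 ^ k = 2 ^ j * 2 ^ (k - j) := by rw [← pow_add, Nat.add_sub_cancel' hj]
  rw [h5] at hr ⊢
  generalize ∑ y' ∈ cyl Gs, nc G (Aset S k (hyb j y y')) = n at *
  generalize ∑ y' ∈ cyl Gs, (T.filter (fun γ => ∀ i : Fin k, j ≤ i.val → γ (y' i) = 1)).card = x
    at *
  generalize (cyl Gs).card = c at *
  generalize 2 ^ (k - j) = b at *
  generalize 2 ^ j = a at *
  have h6 : S.card ≤ 32 * k * a * T.card := by nlinarith [Nat.mul_le_mul_left (4 * a) hT.le]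
  have h7 := Nat.mul_le_mul_right c h6
  have h8 := Nat.mul_le_mul_right c hr
  have h9 := Nat.mul_le_mul_left (32 * k * a * b) h4
  have h10 : 32 * k * a * T.card * c = 32 * k * a * b * x := by
    rw [mul_assoc, ← h3]; ring
  nlinarith

theorem mass {k v m0 : ℕ} (hk : 1 ≤ k) (S G : Finset (Du V)) (hG : Indep G)
    (Gs : Fin k → Finset (Du V)) (hGs : ∀ i, Gs i ⊆ G) (B : Finset (Fin k → V))
    (hB : B ⊆ cyl Gs) (hv : (cyl Gs).card ≤ 2 ^ v * B.card)
    (hcol : ∀ y ∈ B, col (Aset S k y) < m0) (hs : S.card ≤ 2 * (star S G).card)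
    (h1 : 8 * m0 * 2 ^ k ≤ S.card) (h2 : 64 * k * (4 * k * (v + k + 1)) * 2 ^ k ≤ S.card) :
    ∃ j ≤ k, S.card * (B ×ˢ cyl Gs).card ≤
      256 * k ^ 2 * 2 ^ k * ∑ p ∈ B ×ˢ cyl Gs, nc G (Aset S k (hyb j p.1 p.2)) := by
  obtain ⟨j, hj, B', hB', hc, h⟩ := classify hk G (star S G) Gs hGs B hB hv
  refine ⟨j, hj, ?_⟩
  have h3 : ∀ y ∈ B', S.card * (cyl Gs).card ≤
      64 * k * 2 ^ k * ∑ y' ∈ cyl Gs, nc G (Aset S k (hyb j y y')) := fun y hy => by
    obtain ⟨a, rfl | b⟩ := h y hy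
    · have e : ∀ y', hyb j y y' = y := fun y' => funext fun i => if_pos i.2
      have b := nc_add_col S G y
      have c := (hcol y (hB' hy)).le
      simp only [e, sum_const, smul_eq_mul]
      generalize nc G (Aset S j y) = n at *
      generalize 2 ^ j = t at *
      have d : S.card ≤ 8 * t * n := by
        nlinarith [Nat.mul_le_mul_left (4 * t) (b.trans (Nat.add_le_add_left c n))]
      have f := Nat.mul_le_mul_right (cyl Gs).card d
      nlinarith [Nat.mul_le_mul_right (8 * t * n * (cyl Gs).card) hk]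
    · exact mass_rigid hk hj S G hG Gs hGs y hs a b h2
  have h4 := sum_le_sum h3
  rw [sum_const, smul_eq_mul, ← mul_sum] at h4
  have h5 := sum_le_sum_of_subset
    (f := fun y => ∑ y' ∈ cyl Gs, nc G (Aset S k (hyb j y y'))) hB'
  rw [card_product, sum_product]
  have h6 : B.card ≤ 4 * k * B'.card := hc.trans (Nat.mul_le_mul_right _ (by omega))
  calc S.card * (B.card * (cyl Gs).card) ≤ S.card * (4 * k * B'.card * (cyl Gs).card) :=
        Nat.mul_le_mul_left _ (Nat.mul_le_mul_right _ h6)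
    _ = 4 * k * (B'.card * (S.card * (cyl Gs).card)) := by ring
    _ ≤ 4 * k * (64 * k * 2 ^ k * _) :=
        Nat.mul_le_mul_left _ (h4.trans (Nat.mul_le_mul_left _ h5))
    _ = _ := by ring

end Pool.Agent.P.MP_85fe51_lc.DA
end

-- part Pool.Agent.P.MP_85fe51_lc.DFold
section

set_option autoImplicit false

namespace Pool.Agent.P.MP_85fe51_lc.DA

open Finset
open scoped Classical

variable {V : Type} [AddCommGroup V] [Module F2 V]

/-- the edges for `γ`. -/
noncomputable def edges (S G : Finset (Du V)) (γ : Du V) : Finset (Finset (Du V)) :=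
  S.powerset.filter (fun B => γ ∉ B ∧ Disjoint (insert γ B) G ∧ Indep (G ∪ insert γ B) ∧
    ∃ δ ∈ S, δ ≠ γ ∧ InSp (G ∪ B) (γ + δ))

theorem dfold_mem_edges {S G B : Finset (Du V)} {γ : Du V} :
    B ∈ edges S G γ ↔ B ⊆ S ∧ γ ∉ B ∧ Disjoint (insert γ B) G ∧ Indep (G ∪ insert γ B) ∧
      ∃ δ ∈ S, δ ≠ γ ∧ InSp (G ∪ B) (γ + δ) := by
  simp only [edges, mem_filter, mem_powerset]

theorem dfold_pow_le {p κ : ℝ} (hp : 0 < p) (hκ : 0 < κ) (hκ1 : κ ≤ 1) {n : ℕ} (hn : n ≠ 0) :
    p ^ (n + 1) ≤ κ * p / 2 * (2 * p / κ) ^ n := by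
  have e : p = κ / 2 * (2 * p / κ) := by field_simp
  have hq : 0 ≤ (2 * p / κ) ^ n := by positivity
  have h1 : (κ / 2) ^ n ≤ κ / 2 := pow_le_of_le_one (by positivity) (by linarith) hn
  calc p ^ (n + 1) = p ^ n * p := pow_succ _ _
    _ = ((κ / 2) ^ n * (2 * p / κ) ^ n) * p := by rw [← mul_pow, ← e]
    _ ≤ (κ / 2 * (2 * p / κ) ^ n) * p := by gcongr
    _ = _ := by ring

theorem dfold_sum_nc {ι : Type} (Ω : Finset ι) (A : ι → Finset (Du V))
    (S G : Finset (Du V)) (hA : ∀ ω ∈ Ω, A ω ⊆ S) :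
    ∑ ω ∈ Ω, nc G (A ω) = ∑ γ ∈ star S G,
      (Ω.filter (fun ω => γ ∈ A ω ∧ InSp (G ∪ (A ω).erase γ) γ)).card := by
  have h1 : ∀ ω ∈ Ω, nc G (A ω) = ∑ γ ∈ star S G,
      if γ ∈ A ω ∧ InSp (G ∪ (A ω).erase γ) γ then 1 else 0 := by
    intro ω hω
    rw [← card_filter, nc]
    congr 1
    ext γ
    simp only [mem_filter, mem_star]
    constructor
    · rintro ⟨a, b, c⟩
      exact ⟨⟨hA ω hω a, b⟩, a, c⟩
    · rintro ⟨⟨-, b⟩, a, c⟩
      exact ⟨a, b, c⟩
  rw [sum_congr rfl h1, sum_comm]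
  refine sum_congr rfl fun γ _ => ?_
  rw [card_filter]

theorem costly_edges {ι : Type} (Ω : Finset ι) (hΩ : Ω.Nonempty) (A : ι → Finset (Du V))
    (S G : Finset (Du V)) (hG : Indep G) (hA : ∀ ω ∈ Ω, A ω ⊆ S) {p κ : ℝ} (hp : 0 < p)
    (hκ : 0 < κ) (hκ1 : κ ≤ 1)
    (hspread : ∀ H : Finset (Du V), H ⊆ S → Disjoint H G → Indep (G ∪ H) →
      ((Ω.filter (fun ω => H ⊆ A ω)).card : ℝ) ≤ p ^ H.card * Ω.card)
    (γ : Du V) (hγ : γ ∈ star S G)
    (he : κ * p / 2 * Ω.card ≤
      ((Ω.filter (fun ω => γ ∈ A ω ∧ InSp (G ∪ (A ω).erase γ) γ)).card : ℝ)) :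
    Costly (2 * p / κ) 1 (edges S G γ) := by
  intro U h1 h2
  obtain ⟨hγS, hγG⟩ := mem_star.1 hγ
  have hq : 0 < 2 * p / κ := by positivity
  by_cases h0 : ∅ ∈ U
  · have := single_le_sum (f := fun H : Finset (Du V) => (2 * p / κ) ^ H.card)
      (fun H _ => by positivity) h0
    simpa using this
  have hsub : Ω.filter (fun ω => γ ∈ A ω ∧ InSp (G ∪ (A ω).erase γ) γ) ⊆
      U.biUnion (fun H => Ω.filter (fun ω => insert γ H ⊆ A ω)) := by
    intro ω hω
    obtain ⟨hωΩ, hγA, hsp⟩ := mem_filter.1 hω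
    obtain ⟨B, b1, b2, b3, b4, δ, d1, d2⟩ := extract hG hγG hsp
    have hBA : B ⊆ A ω := b1.trans (erase_subset _ _)
    have hB : B ∈ edges S G γ := dfold_mem_edges.2
      ⟨hBA.trans (hA ω hωΩ), b2, b3, b4, δ, hA ω hωΩ (mem_of_mem_erase d1), ne_of_mem_erase d1, d2⟩
    obtain ⟨H, hH, hHB⟩ := h2 B hB
    exact mem_biUnion.2 ⟨H, hH, mem_filter.2 ⟨hωΩ, insert_subset hγA (hHB.trans hBA)⟩⟩
  have hc : ((Ω.filter (fun ω => γ ∈ A ω ∧ InSp (G ∪ (A ω).erase γ) γ)).card : ℝ) ≤
      ∑ H ∈ U, ((Ω.filter (fun ω => insert γ H ⊆ A ω)).card : ℝ) := by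
    exact_mod_cast (card_le_card hsub).trans card_biUnion_le
  have hH : ∀ H ∈ U, ((Ω.filter (fun ω => insert γ H ⊆ A ω)).card : ℝ) ≤
      κ * p / 2 * Ω.card * (2 * p / κ) ^ H.card := by
    intro H hHU
    obtain ⟨B, hB, hHB⟩ := h1 H hHU
    obtain ⟨b1, b2, b3, b4, -⟩ := dfold_mem_edges.1 hB
    have hi : insert γ H ⊆ insert γ B := insert_subset_insert _ hHB
    have h3 := hspread (insert γ H) (insert_subset hγS (hHB.trans b1))
      (disjoint_of_subset_left hi b3) (b4.mono (union_subset_union_right hi))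
    rw [card_insert_of_notMem (fun h => b2 (hHB h))] at h3
    have hn : H.card ≠ 0 := fun h => h0 (card_eq_zero.1 h ▸ hHU)
    have h4 := dfold_pow_le hp hκ hκ1 hn
    calc _ ≤ p ^ (H.card + 1) * Ω.card := h3
      _ ≤ κ * p / 2 * (2 * p / κ) ^ H.card * Ω.card := by gcongr
      _ = _ := by ring
  have h5 := (he.trans hc).trans (sum_le_sum hH)
  rw [← mul_sum] at h5
  have hpos : 0 < κ * p / 2 * (Ω.card : ℝ) := by
    have : (0 : ℝ) < Ω.card := by exact_mod_cast hΩ.card_pos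
    positivity
  exact (le_mul_iff_one_le_right hpos).1 h5

theorem fold {ι : Type} (Ω : Finset ι) (hΩ : Ω.Nonempty) (A : ι → Finset (Du V))
    (S G : Finset (Du V)) (hG : Indep G) (hA : ∀ ω ∈ Ω, A ω ⊆ S) {p κ : ℝ} (hp : 0 < p)
    (hκ : 0 < κ) (hκ1 : κ ≤ 1)
    (hspread : ∀ H : Finset (Du V), H ⊆ S → Disjoint H G → Indep (G ∪ H) →
      ((Ω.filter (fun ω => H ⊆ A ω)).card : ℝ) ≤ p ^ H.card * Ω.card)
    (hmass : κ * p * S.card * Ω.card ≤ ∑ ω ∈ Ω, (nc G (A ω) : ℝ))
    (t : ℕ) (ht : 1 ≤ t) (hS : S.card < 2 ^ t) :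
    ∃ R : Finset (Du V), (R.card : ℝ) ≤ 2 * t * (64 * p / κ) * S.card + 2 ∧
      κ * S.card / 4 ≤ ((folded S (G ∪ R)).card : ℝ) := by
  have hΩp : (0 : ℝ) < Ω.card := by exact_mod_cast hΩ.card_pos
  set e : Du V → ℝ := fun γ =>
    ((Ω.filter (fun ω => γ ∈ A ω ∧ InSp (G ∪ (A ω).erase γ) γ)).card : ℝ) with he
  have hsum : ∑ ω ∈ Ω, (nc G (A ω) : ℝ) = ∑ γ ∈ star S G, e γ := by
    have := congrArg (Nat.cast : ℕ → ℝ) (dfold_sum_nc Ω A S G hA)
    rwa [Nat.cast_sum, Nat.cast_sum] at this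
  have hle : ∀ γ ∈ star S G, e γ ≤ p * Ω.card := by
    intro γ hγ
    obtain ⟨hγS, hγG⟩ := mem_star.1 hγ
    have h3 := hspread {γ} (singleton_subset_iff.2 hγS)
      (disjoint_singleton_left.2 fun h => hγG (inSp_of_mem h))
      ((hG.insert hγG).mono (by
        intro x hx
        rcases mem_union.1 hx with h | h
        · exact mem_insert_of_mem h
        · rw [mem_singleton.1 h]; exact mem_insert_self _ _))
    rw [card_singleton, pow_one] at h3
    refine le_trans ?_ h3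
    simp only [he]
    refine Nat.cast_le.2 (card_le_card ?_)
    intro ω hω
    obtain ⟨a, b, -⟩ := mem_filter.1 hω
    exact mem_filter.2 ⟨a, singleton_subset_iff.2 b⟩
  set Good : Finset (Du V) := (star S G).filter (fun γ => κ * p / 2 * Ω.card ≤ e γ) with hGood
  have hbig : κ * S.card / 2 ≤ (Good.card : ℝ) := by
    have h1 : ∑ γ ∈ star S G, e γ ≤ ∑ γ ∈ star S G,
        ((if κ * p / 2 * Ω.card ≤ e γ then p * Ω.card else 0) + κ * p / 2 * Ω.card) := by
      refine sum_le_sum fun γ hγ => ?_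
      have h2 := hle γ hγ
      have h3 : 0 ≤ κ * p / 2 * (Ω.card : ℝ) := by positivity
      split_ifs with h
      · linarith
      · linarith [not_le.1 h]
    rw [sum_add_distrib, ← sum_filter, sum_const, sum_const, nsmul_eq_mul, nsmul_eq_mul] at h1
    have h4 : ((star S G).card : ℝ) ≤ S.card := by
      exact_mod_cast card_le_card fun γ hγ => (mem_star.1 hγ).1
    have h5 : ((star S G).card : ℝ) * (κ * p / 2 * Ω.card) ≤ S.card * (κ * p / 2 * Ω.card) := by
      gcongr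
    have h6 : κ * S.card / 2 * (p * Ω.card) ≤ Good.card * (p * Ω.card) := by
      rw [hsum] at hmass
      linarith
    exact le_of_mul_le_mul_right h6 (by positivity)
  obtain ⟨R, -, hR2, hR3⟩ := pp_select (q := 2 * p / κ) (by positivity) S t ht Good (edges S G)
    (fun γ _ B hB => ⟨(dfold_mem_edges.1 hB).1,
      lt_of_le_of_lt (card_le_card (dfold_mem_edges.1 hB).1) hS⟩)
    (fun γ hγ => costly_edges Ω hΩ A S G hG hA hp hκ hκ1 hspread γ (mem_filter.1 hγ).1
      (mem_filter.1 hγ).2)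
  refine ⟨R, ?_, ?_⟩
  · have e1 : 64 * p / κ = 32 * (2 * p / κ) := by ring
    rw [e1]
    exact hR2
  · have h7 : Good.card ≤ 2 * (folded S (G ∪ R)).card := by
      refine hR3.trans (Nat.mul_le_mul_left _ (card_le_card ?_))
      intro γ hγ
      obtain ⟨g1, B, hB, hBR⟩ := mem_filter.1 hγ
      obtain ⟨-, -, -, -, δ, d1, d2, d3⟩ := dfold_mem_edges.1 hB
      exact mem_folded.2 ⟨(mem_star.1 (mem_filter.1 g1).1).1, δ, d1, d2,
        d3.mono (union_subset_union_right hBR)⟩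
    have h8 : (Good.card : ℝ) ≤ 2 * (folded S (G ∪ R)).card := by exact_mod_cast h7
    linarith

end Pool.Agent.P.MP_85fe51_lc.DA
end

-- part Pool.Agent.P.MP_85fe51_lc.DDeg
section

set_option autoImplicit false

namespace Pool.Agent.P.MP_85fe51_lc.DA

open Finset
open scoped Classical

variable {V : Type} [AddCommGroup V] [Module F2 V]

theorem ddeg_congr {d : ℕ} {f g : V → F2} (h : ∀ x, f x = g x) (hf : degLt d f) : degLt d g := by
  have e : f = g := funext h
  rw [← e]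
  exact hf

theorem degLt_zero_fun (d : ℕ) : degLt d (fun _ : V => (0 : F2)) := by
  induction d with
  | zero => intro x; rfl
  | succ d ih =>
    intro y
    exact ddeg_congr (fun _ => (add_zero (0 : F2)).symm) ih

theorem degLt_const (c : F2) : degLt 1 (fun _ : V => c) := by
  intro y x
  exact f2_add_self c

theorem degLt_form (χ : Du V) (c : F2) : degLt 2 (fun x : V => χ x + c) := by
  intro y
  refine ddeg_congr (fun x => ?_) (degLt_const (χ y))
  have h1 := f2_add_self (χ x)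
  have h2 := f2_add_self c
  show χ y = χ (x + y) + c + (χ x + c)
  rw [map_add]
  linear_combination -h1 - h2

theorem ddeg_succ {d : ℕ} {h : V → F2} (hh : degLt d h) : degLt (d + 1) h := by
  induction d generalizing h with
  | zero =>
    intro y x
    show h (x + y) + h x = 0
    rw [hh (x + y), hh x, add_zero]
  | succ d ih =>
    intro y
    exact ih (hh y)

theorem degLt_of_le {d e : ℕ} (hde : d ≤ e) {h : V → F2} (hh : degLt d h) : degLt e h := by
  induction hde with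
  | refl => exact hh
  | step _ ih => exact ddeg_succ ih

theorem degLt_add {d : ℕ} {f g : V → F2} (hf : degLt d f) (hg : degLt d g) :
    degLt d (fun x => f x + g x) := by
  induction d generalizing f g with
  | zero =>
    intro x
    show f x + g x = 0
    rw [hf x, hg x, add_zero]
  | succ d ih =>
    intro y
    refine ddeg_congr (fun x => ?_) (ih (hf y) (hg y))
    show f (x + y) + f x + (g (x + y) + g x) = f (x + y) + g (x + y) + (f x + g x)
    ring

theorem degLt_shift {d : ℕ} {f : V → F2} (hf : degLt d f) (z : V) :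
    degLt d (fun x => f (x + z)) := by
  induction d generalizing f with
  | zero =>
    intro x
    exact hf (x + z)
  | succ d ih =>
    intro y
    refine ddeg_congr (fun x => ?_) (ih (hf y))
    show f (x + z + y) + f (x + z) = f (x + y + z) + f (x + z)
    rw [add_right_comm x z y]

theorem ddeg_mul (n : ℕ) : ∀ (a b : ℕ) (f g : V → F2), a + b = n → degLt a f → degLt b g →
    degLt n (fun x => f x * g x) := by
  induction n with
  | zero =>
    intro a b f g hab hf _
    have ha : a = 0 := by omega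
    subst ha
    intro x
    show f x * g x = 0
    rw [hf x, zero_mul]
  | succ n ih =>
    intro a b f g hab hf hg
    cases a with
    | zero =>
      refine ddeg_congr (fun x => ?_) (degLt_zero_fun (n + 1))
      show (0 : F2) = f x * g x
      rw [hf x, zero_mul]
    | succ a =>
      cases b with
      | zero =>
        refine ddeg_congr (fun x => ?_) (degLt_zero_fun (n + 1))
        show (0 : F2) = f x * g x
        rw [hg x, mul_zero]
      | succ b =>
        intro y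
        have h1 := ih a (b + 1) _ _ (by omega) (hf y) (degLt_shift hg y)
        have h2 := ih (a + 1) b _ _ (by omega) hf (hg y)
        refine ddeg_congr (fun x => ?_) (degLt_add h1 h2)
        have h3 := f2_add_self (f x * g (x + y))
        show (f (x + y) + f x) * g (x + y) + f x * (g (x + y) + g x)
          = f (x + y) * g (x + y) + f x * g x
        linear_combination h3

theorem degLt_mul {a b : ℕ} {f g : V → F2} (hf : degLt a f) (hg : degLt b g) :
    degLt (a + b) (fun x => f x * g x) := by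
  exact ddeg_mul (a + b) a b f g rfl hf hg

theorem degLt_comp {W : Type} [AddCommGroup W] [Module F2 W] (φ : W →ₗ[F2] V) {d : ℕ}
    {f : V → F2} (hf : degLt d f) : degLt d (fun w => f (φ w)) := by
  induction d generalizing f with
  | zero =>
    intro x
    exact hf (φ x)
  | succ d ih =>
    intro y
    refine ddeg_congr (fun x => ?_) (ih (hf (φ y)))
    show f (φ x + φ y) + f (φ x) = f (φ (x + y)) + f (φ x)
    rw [map_add]

theorem rm_dense [Fintype V] {d : ℕ} {h : V → F2} (hh : degLt d h) (x0 : V) (h0 : h x0 = 1) :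
    Fintype.card V ≤ 2 ^ d * (univ.filter (fun x => h x = 1)).card := by
  induction d generalizing h x0 with
  | zero =>
    have e := hh x0
    rw [h0] at e
    exact absurd e one_ne_zero
  | succ d ih =>
    by_cases hex : ∃ y x1 : V, h (x1 + y) + h x1 = 1
    · obtain ⟨y, x1, hx1⟩ := hex
      have h1 := ih (hh y) x1 hx1
      have hsub : univ.filter (fun x => h (x + y) + h x = 1) ⊆
          univ.filter (fun x => h x = 1) ∪
            (univ.filter (fun x => h x = 1)).image (fun x => x - y) := by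
        intro x hx
        rw [mem_filter] at hx
        rw [mem_union]
        rcases f2_cases (h x) with e | e
        · right
          rw [mem_image]
          refine ⟨x + y, ?_, add_sub_cancel_right x y⟩
          rw [mem_filter]
          refine ⟨mem_univ _, ?_⟩
          have e2 := hx.2
          rwa [e, add_zero] at e2
        · left
          rw [mem_filter]
          exact ⟨mem_univ _, e⟩
      have h2 := (card_le_card hsub).trans (card_union_le _ _)
      have h3 : ((univ.filter (fun x => h x = 1)).image (fun x => x - y)).card ≤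
          (univ.filter (fun x => h x = 1)).card := card_image_le
      have h4 : (univ.filter (fun x => h (x + y) + h x = 1)).card ≤
          2 * (univ.filter (fun x => h x = 1)).card := by omega
      calc Fintype.card V ≤ 2 ^ d * (univ.filter (fun x => h (x + y) + h x = 1)).card := h1
        _ ≤ 2 ^ d * (2 * (univ.filter (fun x => h x = 1)).card) := Nat.mul_le_mul_left _ h4
        _ = 2 ^ (d + 1) * (univ.filter (fun x => h x = 1)).card := by ring
    · have hall : ∀ x, h x = 1 := by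
        intro x
        rcases f2_cases (h x) with e | e
        · exfalso
          apply hex
          refine ⟨x - x0, x0, ?_⟩
          rw [add_sub_cancel, e, h0, zero_add]
        · exact e
      have e : univ.filter (fun x => h x = 1) = univ := by
        ext x
        simp only [mem_filter, mem_univ, true_and, hall x]
      rw [e, card_univ]
      exact Nat.le_mul_of_pos_left _ (by positivity)

theorem prog_nil {G : Type} [Group G] (x : V) : prog ([] : List (Du V × G × G)) x = 1 := by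
  simp only [prog, List.map_nil, List.prod_nil]

theorem prog_snoc {G : Type} [Group G] (l : List (Du V × G × G)) (p : Du V × G × G) (x : V) :
    prog (l ++ [p]) x = prog l x * (if p.1 x = 1 then p.2.1 else p.2.2) := by
  simp only [prog, List.map_append, List.prod_append, List.map_cons, List.map_nil,
    List.prod_cons, List.prod_nil, mul_one]

theorem prog_map {G H : Type} [Group G] [Group H] (φ : G →* H) (l : List (Du V × G × G)) (x : V) :
    prog (l.map (fun p => (p.1, φ p.2.1, φ p.2.2))) x = φ (prog l x) := by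
  induction l using List.reverseRecOn with
  | nil => rw [List.map_nil, prog_nil, prog_nil, map_one]
  | append_singleton l p ih =>
    rw [List.map_append, List.map_singleton, prog_snoc, prog_snoc, ih, map_mul]
    congr 1
    by_cases e : p.1 x = 1
    · simp only [e, if_true]
    · simp only [e, if_false]

theorem ddeg_sub {H : Type} [Group H] (z : H) (hz2 : z * z = 1) (hc : ∀ g, g * z = z * g) :
    ∃ N : Subgroup H, N.Normal ∧ ∀ h, h ∈ N ↔ h = 1 ∨ h = z := by
  refine ⟨{ carrier := {h | h = 1 ∨ h = z}, mul_mem' := ?_, one_mem' := ?_, inv_mem' := ?_ },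
    ⟨?_⟩, fun h => Iff.rfl⟩
  · intro a b ha hb
    rcases ha with ha | ha <;> rcases hb with hb | hb
    · left; rw [ha, hb, one_mul]
    · right; rw [ha, hb, one_mul]
    · right; rw [ha, hb, mul_one]
    · left; rw [ha, hb, hz2]
  · left; rfl
  · intro a ha
    rcases ha with ha | ha
    · left; rw [ha, inv_one]
    · right; rw [ha]; exact inv_eq_of_mul_eq_one_right hz2
  · intro a ha g
    rcases ha with ha | ha
    · left; rw [ha, mul_one, mul_inv_cancel]
    · right; rw [ha, hc g, mul_assoc, mul_inv_cancel, mul_one]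

theorem ddeg_step {H Q : Type} [Group H] [Group Q] (π : H →* Q) (s : Q → H) (z : H)
    (hs : ∀ q, π (s q) = q) (hker : ∀ h, π h = 1 ↔ h = 1 ∨ h = z) (hz1 : z ≠ 1)
    (hz2 : z * z = 1) (hc : ∀ g, g * z = z * g) (d : ℕ)
    (hQ : ∀ (β : Q → F2) (l : List (Du V × Q × Q)), degLt d (fun x => β (prog l x)))
    (β : H → F2) (l : List (Du V × H × H)) :
    degLt (d + 2 + d) (fun x => β (prog l x)) := by
  obtain ⟨b0, hb0, hb1⟩ : ∃ b0 : H → F2, (∀ h, h = s (π h) → b0 h = 0) ∧
      (∀ h, h ≠ s (π h) → b0 h = 1) :=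
    ⟨fun h => if h = s (π h) then 0 else 1, fun h e => if_pos e, fun h e => if_neg e⟩
  have hA : ∀ h, h ≠ s (π h) → h = s (π h) * z := by
    intro h hne
    have e : π ((s (π h))⁻¹ * h) = 1 := by
      rw [map_mul, map_inv, hs, inv_mul_cancel]
    rcases (hker _).1 e with e1 | e1
    · exact absurd (inv_mul_eq_one.1 e1).symm hne
    · rw [← e1, mul_inv_cancel_left]
  have hπz : π z = 1 := (hker z).2 (Or.inr rfl)
  have hC : ∀ u, b0 (u * z) = 1 + b0 u := by
    intro u
    have e : π (u * z) = π u := by rw [map_mul, hπz, mul_one]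
    by_cases hu : u = s (π u)
    · have hne : u * z ≠ s (π (u * z)) := by
        rw [e, ← hu]
        intro e2
        exact hz1 (mul_left_cancel (e2.trans (mul_one u).symm))
      rw [hb1 _ hne, hb0 _ hu, add_zero]
    · have e2 : u * z = s (π (u * z)) := by
        rw [e]
        have e3 := hA u hu
        calc u * z = s (π u) * z * z := by rw [← e3]
          _ = s (π u) := by rw [mul_assoc, hz2, mul_one]
      rw [hb0 _ e2, hb1 _ hu, f2_add_self]
  have hB : ∀ h g, b0 (h * g) = b0 h + b0 (s (π h) * g) := by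
    intro h g
    by_cases hu : h = s (π h)
    · rw [hb0 _ hu, zero_add, ← hu]
    · have e3 := hA h hu
      have e4 : h * g = s (π h) * g * z := by
        calc h * g = s (π h) * z * g := by rw [← e3]
          _ = s (π h) * g * z := by rw [mul_assoc, ← hc g, mul_assoc]
      rw [hb1 _ hu, e4, hC]
  have hQ' : ∀ (γ : Q → F2) (l : List (Du V × H × H)),
      degLt d (fun x => γ (π (prog l x))) := by
    intro γ l
    refine ddeg_congr (fun x => ?_) (hQ γ (l.map (fun p => (p.1, π p.2.1, π p.2.2))))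
    rw [prog_map]
  have hD : ∀ l : List (Du V × H × H), degLt (d + 2) (fun x => b0 (prog l x)) := by
    intro l
    induction l using List.reverseRecOn with
    | nil =>
      refine ddeg_congr (fun x => ?_) (degLt_of_le (by omega) (degLt_const (b0 1)))
      rw [prog_nil]
    | append_singleton l p ih =>
      have h1 := degLt_mul (hQ' (fun q => b0 (s q * p.2.1)) l) (degLt_form p.1 0)
      have h2 := degLt_mul (hQ' (fun q => b0 (s q * p.2.2)) l) (degLt_form p.1 1)
      refine ddeg_congr (fun x => ?_) (degLt_add ih (degLt_add h1 h2))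
      show b0 (prog l x) + (b0 (s (π (prog l x)) * p.2.1) * (p.1 x + 0) +
        b0 (s (π (prog l x)) * p.2.2) * (p.1 x + 1)) = b0 (prog (l ++ [p]) x)
      rw [prog_snoc, hB (prog l x)]
      rcases f2_cases (p.1 x) with e | e
      · have e1 : ¬ p.1 x = 1 := by rw [e]; exact zero_ne_one
        rw [if_neg e1, e]
        ring
      · rw [if_pos e, e, f2_add_self]
        ring
  have h1 := hQ' (fun q => β (s q)) l
  have h2 := hQ' (fun q => β (s q * z) + β (s q)) l
  have h3 := degLt_mul (hD l) h2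
  refine ddeg_congr (fun x => ?_) (degLt_add (degLt_of_le (by omega) h1) h3)
  show β (s (π (prog l x))) + b0 (prog l x) * (β (s (π (prog l x)) * z) + β (s (π (prog l x))))
    = β (prog l x)
  by_cases hu : prog l x = s (π (prog l x))
  · rw [hb0 _ hu, zero_mul, add_zero, ← hu]
  · have e3 := hA _ hu
    have e4 := f2_add_self (β (s (π (prog l x))))
    rw [hb1 _ hu, ← e3]
    linear_combination e4

/-- functions of a program over a finite 2-group have bounded degree. -/
theorem two_group_deg (n : ℕ) : ∀ (H : Type) [Group H] [Finite H], Nat.card H ≤ n → IsPGroup 2 H →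
    ∃ d : ℕ, ∀ (W : Type) [AddCommGroup W] [Module F2 W] (β : H → F2) (l : List (Du W × H × H)),
      degLt d (fun x => β (prog l x)) := by
  induction n with
  | zero =>
    intro H _ _ hc _
    have : 0 < Nat.card H := Nat.card_pos
    omega
  | succ n ih =>
    intro H _ _ hc hH
    rcases subsingleton_or_nontrivial H with hs | hs
    · refine ⟨1, fun W _ _ β l => ?_⟩
      refine ddeg_congr (fun x => ?_) (degLt_const (β 1))
      rw [Subsingleton.elim (prog l x) 1]
    · haveI : Fact (Nat.Prime 2) := ⟨Nat.prime_two⟩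
      have hZ : Nontrivial (Subgroup.center H) := hH.center_nontrivial
      have hZp : IsPGroup 2 (Subgroup.center H) := hH.to_subgroup _
      obtain ⟨k, hk, hcard⟩ := hZp.nontrivial_iff_card.1 hZ
      have hdvd : 2 ∣ Nat.card (Subgroup.center H) := by
        rw [hcard]
        exact dvd_pow_self 2 (by omega)
      obtain ⟨w, hw⟩ := exists_prime_orderOf_dvd_card' 2 hdvd
      have hw1 : (w : H) ≠ 1 := by
        intro e
        have e1 : w = 1 := Subtype.ext e
        rw [e1, orderOf_one] at hw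
        omega
      have hw2 : (w : H) * w = 1 := by
        have e := pow_orderOf_eq_one w
        rw [hw, pow_two] at e
        exact congrArg Subtype.val e
      have hwc : ∀ g : H, g * w = w * g := fun g => Subgroup.mem_center_iff.1 w.2 g
      obtain ⟨N, hN, hmem⟩ := ddeg_sub (w : H) hw2 hwc
      haveI := hN
      have hNt : Nontrivial N := by
        refine ⟨⟨w, (hmem _).2 (Or.inr rfl)⟩, 1, fun e => hw1 ?_⟩
        exact congrArg Subtype.val e
      have h2 : 1 < Nat.card N := Finite.one_lt_card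
      have h3 := Subgroup.card_eq_card_quotient_mul_card_subgroup N
      have h4 : 0 < Nat.card (H ⧸ N) := Nat.card_pos
      have h5 : Nat.card (H ⧸ N) ≤ n := by nlinarith
      obtain ⟨d, hd⟩ := ih (H ⧸ N) h5 (hH.to_quotient N)
      refine ⟨d + 2 + d, fun W _ _ β l => ?_⟩
      refine ddeg_step (QuotientGroup.mk' N) Quotient.out (w : H) ?_ ?_ hw1 hw2 hwc d
        (fun γ l' => hd W γ l') β l
      · intro q
        exact QuotientGroup.out_eq' q
      · intro h
        rw [QuotientGroup.mk'_apply, QuotientGroup.eq_one_iff, hmem]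

end Pool.Agent.P.MP_85fe51_lc.DA
end

-- part Pool.Agent.P.MP_85fe51_lc.DThmA
section

set_option autoImplicit false

namespace Pool.Agent.P.MP_85fe51_lc.DA

open Finset
open scoped Classical

theorem dthma_h1 {D E k M s : ℕ} (hk : 1 ≤ k) (hM : 1 ≤ M)
    (hs : 256 * (D + 2) * (E + 1) * k ^ 2 * (M * M) ≤ s) : 8 * (E * (D * M + 1)) * M ≤ s := by
  refine le_trans ?_ hs
  have a : D * M + 1 ≤ (D + 2) * M := by nlinarith
  have b : 1 ≤ k ^ 2 := Nat.one_le_pow _ _ hk
  calc 8 * (E * (D * M + 1)) * M ≤ 256 * ((E + 1) * ((D + 2) * M)) * M := by gcongr <;> omega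
    _ = 256 * (D + 2) * (E + 1) * 1 * (M * M) := by ring
    _ ≤ _ := by gcongr

theorem dthma_h2 {D E k M s : ℕ} (hM : k + 1 ≤ M)
    (hs : 256 * (D + 2) * (E + 1) * k ^ 2 * (M * M) ≤ s) :
    64 * k * (4 * k * (D * M + 1 + k + 1)) * M ≤ s := by
  refine le_trans ?_ hs
  have a : D * M + 1 + k + 1 ≤ (D + 2) * M := by nlinarith
  calc 64 * k * (4 * k * (D * M + 1 + k + 1)) * M ≤ 64 * k * (4 * k * ((D + 2) * M)) * M := by gcongr
    _ = 256 * (D + 2) * 1 * k ^ 2 * (M * M) := by ring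
    _ ≤ _ := by gcongr; omega

theorem dthma_u {D M u R X : ℕ} (hM : 1 ≤ M) (hu : u ≤ D * M + 1 + R) (hR : R * M ≤ X + 2 * M) :
    u * M ≤ (D + 3) * (M * M) + X := by
  have a := Nat.mul_le_mul_right M hu
  have b := Nat.mul_le_mul_right M hM
  nlinarith

theorem dthma_f {q i f s : ℕ} (h : 2 * i + f ≤ 2 * s) (hf : s ≤ 2048 * q * f) :
    4096 * q * i + s ≤ 4096 * q * s := by
  have a := Nat.mul_le_mul_left (2048 * q) h
  nlinarith

theorem dthma_fold {V : Type} [AddCommGroup V] [Module F2 V] {ι : Type} (Ω : Finset ι)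
    (hΩ : Ω.Nonempty) (A : ι → Finset (Du V)) (S G : Finset (Du V)) (hG : Indep G)
    (hA : ∀ ω ∈ Ω, A ω ⊆ S) {k t : ℕ} (hk : 1 ≤ k) (ht : 1 ≤ t) (hS : S.card < 2 ^ t)
    (hsp : ∀ H : Finset (Du V), H ⊆ S → Disjoint H G → Indep (G ∪ H) →
      (Ω.filter (fun ω => H ⊆ A ω)).card * 2 ^ (k * H.card) ≤ 2 ^ H.card * Ω.card)
    (hmass : S.card * Ω.card ≤ 256 * k ^ 2 * 2 ^ k * ∑ p ∈ Ω, nc G (A p)) :
    ∃ (U : Finset (Du V)) (R : ℕ), U.card ≤ G.card + R ∧
      R * 2 ^ k ≤ 2 ^ 17 * t * k ^ 2 * S.card + 2 * 2 ^ k ∧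
      S.card ≤ 2048 * k ^ 2 * (folded S U).card := by
  have k0 : (0 : ℝ) < k := by exact_mod_cast hk
  have k1 : (1 : ℝ) ≤ (k : ℝ) ^ 2 := by exact_mod_cast Nat.one_le_pow _ _ hk
  have M0 : (0 : ℝ) < 2 ^ k := by positivity
  obtain ⟨R, hR, hF⟩ := fold Ω hΩ A S G hG hA
    (p := 2 / 2 ^ k) (κ := 1 / (512 * (k : ℝ) ^ 2)) (by positivity) (by positivity)
    (by rw [div_le_one (by positivity)]; linarith)
    (fun H h1 h2 h3 => by
      rw [div_pow, ← pow_mul, div_mul_eq_mul_div, le_div_iff₀ (by positivity)]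
      exact_mod_cast hsp H h1 h2 h3)
    (by
      have e : 1 / (512 * (k : ℝ) ^ 2) * (2 / 2 ^ k) * S.card * Ω.card =
          (S.card : ℝ) * Ω.card / (256 * (k : ℝ) ^ 2 * 2 ^ k) := by
        field_simp
        ring
      rw [e, div_le_iff₀ (by positivity), mul_comm (∑ p ∈ _, _)]
      exact_mod_cast hmass) t ht hS
  refine ⟨G ∪ R, R.card, card_union_le _ _, ?_, ?_⟩
  · have e : (2 * t * (64 * (2 / 2 ^ k) / (1 / (512 * (k : ℝ) ^ 2))) * S.card + 2) * 2 ^ k =
        2 ^ 17 * t * (k : ℝ) ^ 2 * S.card + 2 * 2 ^ k := by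
      field_simp
      ring
    have := mul_le_mul_of_nonneg_right hR M0.le
    rw [e] at this
    exact_mod_cast this
  · have e : 1 / (512 * (k : ℝ) ^ 2) * S.card / 4 = S.card / (2048 * (k : ℝ) ^ 2) := by
      field_simp
      ring
    rw [e, div_le_iff₀ (by positivity), mul_comm] at hF
    exact_mod_cast hF

/-- one folding step at a fixed depth `k`. -/
theorem step_k {m : ℕ} (hm : Odd m) {g : ℝ} {E0 : ℕ} (hg0 : 0 ≤ g) (hg1 : g ≤ 1)
    (hE : g ^ E0 ≤ 1 / 2) (hg : ∀ z : ℂ, z ^ m = 1 → z ≠ 1 → ‖1 + z‖ ≤ 2 * g)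
    {V : Type} [AddCommGroup V] [Module F2 V] [Fintype V]
    (k D t : ℕ) (hk : 1 ≤ k) (ht : 1 ≤ t) (h : V → F2) (S : Finset (Du V)) (ζ : Du V → ℂ)
    (hh : degLt k h) (hζ : Roots m S ζ) (hb : (Fintype.card V : ℝ) ≤ 2 ^ D * bias h S ζ)
    (hS : S.card < 2 ^ t) (hs : 256 * (D + 2) * (E0 + 1) * k ^ 2 * 4 ^ k ≤ S.card) :
    ∃ U : Finset (Du V),
      U.card * 2 ^ k ≤ (D + 3) * 4 ^ k + 2 ^ 17 * t * k ^ 2 * S.card ∧
      4096 * k ^ 2 * img S U + S.card ≤ 4096 * k ^ 2 * S.card := by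
  have e4 : 4 ^ k = 2 ^ k * 2 ^ k := mul_pow 2 2 k
  have hM : k + 1 ≤ 2 ^ k := Nat.lt_two_pow_self
  have hk2 : 1 ≤ k ^ 2 := Nat.one_le_pow _ _ hk
  rw [e4] at hs ⊢
  obtain ⟨G, Gs, B, hG, hGs, hGv, hBB, hBc, hBn, hv, hsp⟩ :=
    restore S _ (bad_dense hm hg0 hg1 hE hg k D h S ζ hh hζ hb)
  by_cases c : 2 * (star S G).card < S.card
  · refine ⟨G, ?_, ?_⟩
    · exact dthma_u (R := 0) (by omega) hGv (by omega)
    · have := img_le_star S G
      exact dthma_f (f := S.card) (by omega) (Nat.le_mul_of_pos_left _ (by omega))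
  obtain ⟨j, hj, hmass⟩ := mass (m0 := E0 * (D * 2 ^ k + 1)) hk S G hG Gs hGs B hBc hv
    (fun y hy => (mem_filter.1 (hBB hy)).2) (not_lt.1 c) (dthma_h1 hk (by omega) hs)
    (dthma_h2 hM hs)
  obtain ⟨U, R, hU, hR', hF'⟩ := dthma_fold (B ×ˢ cyl Gs) (hBn.product (hBn.mono hBc))
    (fun p => Aset S k (hyb j p.1 p.2)) S G hG (fun _ _ => filter_subset _ _) hk ht hS
    (fun H h1 h2 h3 => by
      have h4 : Indep (G ∪ H) := h3.mono fun x => by simp only [mem_union]; exact id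
      refine le_trans (Nat.mul_le_mul_right _ (card_le_card fun x => ?_))
        (spread_hyb hj S G H Gs B hGs h2 h4 (hsp j hj H h1 h2 h4))
      simp only [mem_filter]
      exact id) hmass
  exact ⟨U, dthma_u (by omega) (hU.trans (Nat.add_le_add_right hGv _)) hR',
    dthma_f (img_add_folded S U) hF'⟩

theorem dthma_size {c1 D K k s u : ℕ} (hk : 1 ≤ k) (hK : k ≤ K)
    (hs : s ≤ c1 * (k + 1) ^ 2 * 4 ^ (k + 1))
    (hu : u * 2 ^ k ≤ (D + 3) * 4 ^ k + 2 ^ 17 * (2 * K + 1) * k ^ 2 * s) :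
    u ≤ (D + 3 + 3 * 2 ^ 21 * c1) * K ^ 5 * 2 ^ K := by
  have e4 : 4 ^ k = 2 ^ k * 2 ^ k := mul_pow 2 2 k
  have a : s ≤ c1 * (2 * K) ^ 2 * (2 ^ k * 2 ^ k * 4) := by
    rw [← e4, ← pow_succ]
    refine hs.trans ?_
    gcongr
    omega
  have b : 2 ^ k ≤ 2 ^ K := Nat.pow_le_pow_right (by norm_num) hK
  have c : 1 ≤ K ^ 5 := Nat.one_le_pow _ _ (by omega)
  refine Nat.le_of_mul_le_mul_right (c := 2 ^ k) (hu.trans ?_) (by positivity)
  rw [e4]
  generalize 2 ^ K = N at *
  generalize 2 ^ k = M at *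
  calc (D + 3) * (M * M) + 2 ^ 17 * (2 * K + 1) * k ^ 2 * s
      ≤ (D + 3) * (K ^ 5 * N * M) + 2 ^ 17 * (3 * K) * K ^ 2 * (c1 * (2 * K) ^ 2 * (N * M * 4)) := by
        have d : M ≤ K ^ 5 * N := by nlinarith
        have f : s ≤ c1 * (2 * K) ^ 2 * (N * M * 4) := a.trans (by gcongr)
        gcongr
        omega
    _ = _ := by ring

theorem thmA {m : ℕ} (hm : Odd m) (D d : ℕ) :
    ∃ c : ℕ, ∀ (K : ℕ) (V : Type) [AddCommGroup V] [Module F2 V] [Fintype V]
      (h : V → F2) (S : Finset (Du V)) (ζ : Du V → ℂ), 1 ≤ K → S.card ≤ 4 ^ K →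
      degLt d h → Roots m S ζ → (Fintype.card V : ℝ) ≤ 2 ^ D * bias h S ζ →
      ∃ U : Finset (Du V), U.card ≤ c * K ^ 5 * 2 ^ K ∧
        4096 * K ^ 2 * img S U + S.card ≤ 4096 * K ^ 2 * S.card := by
  obtain ⟨E0, g, hg0, hg1, hE, hg⟩ := exists_gap hm
  obtain ⟨c1, hc⟩ : ∃ c1, c1 = 256 * (D + 2) * (E0 + 1) := ⟨_, rfl⟩
  have c0 : 1 ≤ c1 := by rw [hc]; exact Nat.succ_le_of_lt (by positivity)
  refine ⟨c1 * (d + 1) ^ 2 * 4 ^ (d + 1) + (D + 3 + 3 * 2 ^ 21 * c1), ?_⟩
  intro K V _ _ _ h S ζ hK hS hh hζ hb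
  have K2 : 1 ≤ K ^ 2 := Nat.one_le_pow _ _ hK
  by_cases c : S.card < c1 * (d + 1) ^ 2 * 4 ^ (d + 1)
  · refine ⟨S, ?_, ?_⟩
    · have a : 1 ≤ K ^ 5 * 2 ^ K := Nat.succ_le_of_lt (by positivity)
      rw [mul_assoc _ (K ^ 5)]
      exact (c.le.trans (Nat.le_add_right _ _)).trans (Nat.le_mul_of_pos_right _ a)
    · have a : (star S S).card = 0 := by
        rw [card_eq_zero, eq_empty_iff_forall_notMem]
        exact fun γ x => (mem_star.1 x).2 (inSp_of_mem (mem_star.1 x).1)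
      have b := img_le_star S S
      have e : img S S = 0 := by omega
      rw [e]
      nlinarith
  have pw : ∀ k, 1 ≤ k → 4 ^ k ≤ c1 * k ^ 2 * 4 ^ k := fun k hk =>
    Nat.le_mul_of_pos_left _ (by positivity)
  have ex : ∃ k, S.card < c1 * (k + 1) ^ 2 * 4 ^ (k + 1) :=
    ⟨K, hS.trans_lt ((Nat.pow_lt_pow_right (by norm_num) (Nat.lt_succ_self K)).trans_le
      (pw _ (by omega)))⟩
  have s1 := Nat.find_spec ex
  have s2 := fun j => Nat.find_min ex (m := j)
  generalize Nat.find ex = k at s1 s2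
  have dk : d + 1 ≤ k := by
    by_contra n
    refine c (s1.trans_le ?_)
    have : k + 1 ≤ d + 1 := by omega
    gcongr
    norm_num
  have lo : c1 * k ^ 2 * 4 ^ k ≤ S.card := by
    have := not_lt.1 (s2 (k - 1) (by omega))
    rwa [Nat.sub_add_cancel (by omega)] at this
  have k1 : 1 ≤ k := le_trans (Nat.le_add_left 1 d) dk
  have kK : k ≤ K := (Nat.pow_le_pow_iff_right (by norm_num)).1 ((pw k k1).trans (lo.trans hS))
  have ht : S.card < 2 ^ (2 * K + 1) := by
    refine hS.trans_lt ?_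
    rw [pow_succ, pow_mul]
    have : 0 < 4 ^ K := by positivity
    change 4 ^ K < 4 ^ K * 2
    omega
  obtain ⟨U, u1, u2⟩ := step_k hm hg0 hg1 hE hg k D (2 * K + 1) k1 (Nat.le_add_left _ _) h S ζ
    (degLt_of_le (Nat.le_of_succ_le dk) hh) hζ hb ht (by rw [← hc]; exact lo)
  refine ⟨U, (dthma_size k1 kK s1.le u1).trans
    (Nat.mul_le_mul_right _ (Nat.mul_le_mul_right _ (Nat.le_add_left _ _))), ?_⟩
  obtain ⟨x, hx⟩ := Nat.exists_eq_add_of_le (img_le_card S U)
  have a : k ^ 2 * x ≤ K ^ 2 * x := by gcongr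
  rw [hx] at u2 ⊢
  nlinarith

end Pool.Agent.P.MP_85fe51_lc.DA
end

-- part Pool.Agent.P.MP_85fe51_lc.DThmB
section

set_option autoImplicit false

namespace Pool.Agent.P.MP_85fe51_lc.DA

open Finset
open scoped Classical

theorem dthmb_zero_ne_one : (0 : F2) ≠ 1 := by decide

/-- merging equal forms. -/
theorem rep_of_index {V : Type} [AddCommGroup V] [Module F2 V] {J : Type} (m : ℕ) (I : Finset J)
    (χ : J → Du V) (z : J → ℂ) (hz : ∀ j ∈ I, z j ^ m = 1) :
    ∃ (S : Finset (Du V)) (ζ : Du V → ℂ), S ⊆ (I.image χ).erase 0 ∧ Roots m S ζ ∧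
      ∀ x : V, Phi S ζ x = ∏ j ∈ I, if χ j x = 1 then z j else 1 := by
  refine ⟨((I.image χ).erase 0).filter
      (fun γ => (∏ j ∈ I.filter (fun j => χ j = γ), z j) ≠ 1),
    fun γ => ∏ j ∈ I.filter (fun j => χ j = γ), z j, filter_subset _ _, ?_, ?_⟩
  · intro γ hγ
    refine ⟨?_, (mem_filter.1 hγ).2⟩
    rw [← prod_pow]
    exact prod_eq_one (fun j hj => hz j (mem_filter.1 hj).1)
  · intro x
    have h1 : (∏ j ∈ I, if χ j x = 1 then z j else 1) =
        ∏ γ ∈ I.image χ, ∏ j ∈ I.filter (fun j => χ j = γ), if χ j x = 1 then z j else 1 :=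
      (prod_fiberwise_of_maps_to (fun j hj => mem_image_of_mem χ hj) _).symm
    have h2 : ∀ γ ∈ I.image χ,
        (∏ j ∈ I.filter (fun j => χ j = γ), if χ j x = 1 then z j else 1) =
          if γ x = 1 then ∏ j ∈ I.filter (fun j => χ j = γ), z j else 1 := by
      intro γ _
      by_cases hx : γ x = 1
      · rw [if_pos hx]
        refine prod_congr rfl (fun j hj => ?_)
        rw [(mem_filter.1 hj).2, if_pos hx]
      · rw [if_neg hx]
        refine prod_eq_one (fun j hj => ?_)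
        rw [(mem_filter.1 hj).2, if_neg hx]
    rw [h1, prod_congr rfl h2]
    unfold Phi
    refine prod_subset ((filter_subset _ _).trans (erase_subset _ _)) ?_
    intro γ hγ hn
    by_cases h0 : γ = 0
    · rw [if_neg]
      rw [h0, LinearMap.zero_apply]
      exact dthmb_zero_ne_one
    · have h3 : (∏ j ∈ I.filter (fun j => χ j = γ), z j) = 1 := by
        by_contra h4
        exact hn (mem_filter.2 ⟨mem_erase.2 ⟨h0, hγ⟩, h4⟩)
      simp only [h3, ite_self]

theorem rep_restrict {V : Type} [AddCommGroup V] [Module F2 V] (m : ℕ) (S U : Finset (Du V))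
    (ζ : Du V → ℂ) (hζ : Roots m S ζ) :
    ∃ (S' : Finset (Du (kerS U))) (ζ' : Du (kerS U) → ℂ), S'.card ≤ img S U ∧ Roots m S' ζ' ∧
      ∀ x : kerS U, Phi S' ζ' x = Phi S ζ (x : V) := by
  obtain ⟨S', ζ', h1, h2, h3⟩ := rep_of_index (V := kerS U) m S
    (fun χ : Du V => (χ.domRestrict (kerS U) : Du (kerS U))) ζ (fun j hj => (hζ j hj).1)
  refine ⟨S', ζ', ?_, h2, fun x => ?_⟩
  · unfold img
    refine card_le_card (fun γ hγ => ?_)
    have h4 := h1 hγ
    rw [mem_erase, mem_image] at h4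
    rw [mem_erase, mem_image]
    exact h4
  · rw [h3 x]
    unfold Phi
    refine prod_congr rfl (fun γ _ => ?_)
    exact if_congr Iff.rfl rfl rfl

theorem dthmb_Phi_zero {V : Type} [AddCommGroup V] [Module F2 V] (S : Finset (Du V))
    (ζ : Du V → ℂ) : Phi S ζ 0 = 1 := by
  unfold Phi
  refine prod_eq_one (fun γ _ => ?_)
  rw [if_neg]
  rw [map_zero]
  exact dthmb_zero_ne_one

theorem dthmb_split {V : Type} [Fintype V] (h : V → F2) (f : V → ℂ) :
    2 * ∑ x ∈ univ.filter (fun x => h x = 1), f x =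
      ∑ x : V, sg 0 * f x - ∑ x : V, sg (h x) * f x := by
  rw [sum_filter, mul_sum, ← sum_sub_distrib]
  refine sum_congr rfl (fun x _ => ?_)
  have h0 : sg 0 = 1 := by
    unfold sg
    rw [if_neg dthmb_zero_ne_one]
  rw [h0]
  unfold sg
  by_cases hx : h x = 1
  · rw [if_pos hx, if_pos hx]
    ring
  · rw [if_neg hx, if_neg hx]
    ring

theorem dthmb_neg {Ψ : Type} [Fintype Ψ] (ψ0 : Ψ) (a : Ψ → ℝ) (z : ℝ)
    (hs : ∑ ψ, a ψ = Fintype.card Ψ) (h0 : a ψ0 = z) (hz : 2 * (Fintype.card Ψ : ℝ) ≤ z) :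
    ∃ ψ, a ψ * (2 * Fintype.card Ψ) ≤ -z := by
  by_contra hc
  have hp : (0 : ℝ) < Fintype.card Ψ := by
    have : 0 < Fintype.card Ψ := Fintype.card_pos_iff.2 ⟨ψ0⟩
    exact_mod_cast this
  have h1 : ∀ ψ, 0 ≤ a ψ * (2 * Fintype.card Ψ) + z := by
    intro ψ
    by_contra h2
    exact hc ⟨ψ, by linarith⟩
  have h2 : a ψ0 * (2 * Fintype.card Ψ) + z ≤ ∑ ψ, (a ψ * (2 * Fintype.card Ψ) + z) :=
    single_le_sum (f := fun ψ => a ψ * (2 * Fintype.card Ψ) + z) (fun ψ _ => h1 ψ) (mem_univ ψ0)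
  rw [sum_add_distrib, ← sum_mul, hs, sum_const, card_univ, nsmul_eq_mul, h0] at h2
  nlinarith

/-- a biased member of the family. -/
theorem exists_biased {V : Type} [AddCommGroup V] [Module F2 V] [Fintype V] {Ψ : Type} [Fintype Ψ]
    (ψ0 : Ψ) (d P : ℕ) (hP : Fintype.card Ψ ≤ P) (S : Ψ → Finset (Du V)) (ζ : Ψ → Du V → ℂ)
    (h : V → F2) (h0 : ∀ x, Phi (S ψ0) (ζ ψ0) x = 1) (hd : degLt d h) (hh : h 0 = 1)
    (hsum : ∀ x : V, x ≠ 0 → h x = 1 → ∑ ψ, Phi (S ψ) (ζ ψ) x = 0)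
    (hV : 2 ^ (d + 1 + P) < Fintype.card V) :
    ∃ (ψ : Ψ) (h' : V → F2), 1 ≤ (S ψ).card ∧ degLt d h' ∧
      (Fintype.card V : ℝ) ≤ 2 ^ (d + 1 + P) * bias h' (S ψ) (ζ ψ) := by
  have hrm := rm_dense hd 0 hh
  set Z : Finset V := univ.filter (fun x => h x = 1) with hZ
  have hPP : P ≤ 2 ^ P := Nat.lt_two_pow_self.le
  have hp0 : 0 < Fintype.card Ψ := Fintype.card_pos_iff.2 ⟨ψ0⟩
  have hZ1 : 2 * Fintype.card Ψ ≤ Z.card := by
    have h1 : 2 ^ d * (2 * 2 ^ P) < 2 ^ d * Z.card := by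
      calc 2 ^ d * (2 * 2 ^ P) = 2 ^ (d + 1 + P) := by ring
        _ < Fintype.card V := hV
        _ ≤ 2 ^ d * Z.card := hrm
    have h2 := Nat.lt_of_mul_lt_mul_left h1
    omega
  have h0Z : (0 : V) ∈ Z := mem_filter.2 ⟨mem_univ _, hh⟩
  have htot : ∑ ψ, ∑ x ∈ Z, Phi (S ψ) (ζ ψ) x = (Fintype.card Ψ : ℂ) := by
    rw [sum_comm, sum_eq_single_of_mem 0 h0Z
      (fun x hx hx0 => hsum x hx0 (mem_filter.1 hx).2)]
    rw [sum_congr rfl (fun ψ _ => dthmb_Phi_zero (S ψ) (ζ ψ)), sum_const, card_univ,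
      nsmul_eq_mul, mul_one]
  have hone : ∀ ψ, (∀ x, Phi (S ψ) (ζ ψ) x = 1) →
      (∑ x ∈ Z, Phi (S ψ) (ζ ψ) x).re = (Z.card : ℝ) := by
    intro ψ hψ
    rw [sum_congr rfl (fun x _ => hψ x), sum_const, nsmul_eq_mul, mul_one, Complex.natCast_re]
  have hZR : 2 * (Fintype.card Ψ : ℝ) ≤ (Z.card : ℝ) := by exact_mod_cast hZ1
  have hpR : (0 : ℝ) < Fintype.card Ψ := by exact_mod_cast hp0
  obtain ⟨ψ, hψ⟩ := dthmb_neg ψ0 (fun ψ => (∑ x ∈ Z, Phi (S ψ) (ζ ψ) x).re) (Z.card : ℝ)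
    (by rw [← Complex.re_sum, htot, Complex.natCast_re]) (hone ψ0 h0) hZR
  have hne : 1 ≤ (S ψ).card := by
    by_contra hc
    have h1 : S ψ = ∅ := card_eq_zero.1 (by omega)
    have h2 := hone ψ (fun x => by rw [h1]; unfold Phi; exact prod_empty)
    rw [h2] at hψ
    nlinarith
  have hnorm : -(∑ x ∈ Z, Phi (S ψ) (ζ ψ) x).re ≤ ‖∑ x ∈ Z, Phi (S ψ) (ζ ψ) x‖ :=
    (neg_le_abs _).trans (Complex.abs_re_le_norm _)
  have hb : 2 * ‖∑ x ∈ Z, Phi (S ψ) (ζ ψ) x‖ ≤
      bias (fun _ => 0) (S ψ) (ζ ψ) + bias h (S ψ) (ζ ψ) := by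
    have h1 := dthmb_split h (Phi (S ψ) (ζ ψ))
    have h2 : 2 * ‖∑ x ∈ Z, Phi (S ψ) (ζ ψ) x‖ = ‖2 * ∑ x ∈ Z, Phi (S ψ) (ζ ψ) x‖ := by
      rw [norm_mul, Complex.norm_two]
    rw [h2, hZ, h1]
    exact norm_sub_le _ _
  have hVR : (Fintype.card V : ℝ) ≤ 2 ^ d * (Z.card : ℝ) := by exact_mod_cast hrm
  have hPR : (Fintype.card Ψ : ℝ) ≤ 2 ^ P := by exact_mod_cast hP.trans hPP
  have hn0 : 0 ≤ ‖∑ x ∈ Z, Phi (S ψ) (ζ ψ) x‖ := norm_nonneg _
  have hfin : (Fintype.card V : ℝ) ≤ 2 ^ (d + 1 + P) * ‖∑ x ∈ Z, Phi (S ψ) (ζ ψ) x‖ := by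
    have h1 : (Z.card : ℝ) ≤ ‖∑ x ∈ Z, Phi (S ψ) (ζ ψ) x‖ * (2 * 2 ^ P) := by
      calc (Z.card : ℝ) ≤ -(∑ x ∈ Z, Phi (S ψ) (ζ ψ) x).re * (2 * Fintype.card Ψ) := by
            linarith
        _ ≤ ‖∑ x ∈ Z, Phi (S ψ) (ζ ψ) x‖ * (2 * Fintype.card Ψ) :=
            mul_le_mul_of_nonneg_right hnorm (by positivity)
        _ ≤ ‖∑ x ∈ Z, Phi (S ψ) (ζ ψ) x‖ * (2 * 2 ^ P) :=
            mul_le_mul_of_nonneg_left (by linarith) hn0
    calc (Fintype.card V : ℝ) ≤ 2 ^ d * (Z.card : ℝ) := hVR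
      _ ≤ 2 ^ d * (‖∑ x ∈ Z, Phi (S ψ) (ζ ψ) x‖ * (2 * 2 ^ P)) :=
          mul_le_mul_of_nonneg_left h1 (by positivity)
      _ = 2 ^ (d + 1 + P) * ‖∑ x ∈ Z, Phi (S ψ) (ζ ψ) x‖ := by ring
  by_cases hc : ‖∑ x ∈ Z, Phi (S ψ) (ζ ψ) x‖ ≤ bias h (S ψ) (ζ ψ)
  · exact ⟨ψ, h, hne, hd, hfin.trans (mul_le_mul_of_nonneg_left hc (by positivity))⟩
  · refine ⟨ψ, fun _ => 0, hne, degLt_zero_fun d,
      hfin.trans (mul_le_mul_of_nonneg_left ?_ (by positivity))⟩
    linarith

/-- the potential drops by a fixed factor. -/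
theorem dthmb_pot {Ψ : Type} [Fintype Ψ] (N : ℕ) (hN : 1 ≤ N) (s s' : Ψ → ℕ) (ψ1 : Ψ)
    (hle : ∀ ψ, s' ψ ≤ s ψ) (h1 : 1 ≤ s ψ1) (h2 : N * s' ψ1 + s ψ1 ≤ N * s ψ1) :
    ∏ ψ, (1 + (s' ψ : ℝ)) ≤ (∏ ψ, (1 + (s ψ : ℝ))) * (1 - 1 / (2 * (N : ℝ))) := by
  rw [← mul_prod_erase univ _ (mem_univ ψ1), ← mul_prod_erase univ _ (mem_univ ψ1)]
  have hNR : (1 : ℝ) ≤ N := by exact_mod_cast hN
  have h1R : (1 : ℝ) ≤ s ψ1 := by exact_mod_cast h1
  have h2R : (N : ℝ) * s' ψ1 + s ψ1 ≤ N * s ψ1 := by exact_mod_cast h2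
  have ha : 1 + (s' ψ1 : ℝ) ≤ (1 + (s ψ1 : ℝ)) * (1 - 1 / (2 * (N : ℝ))) := by
    have h3 : (1 + (s ψ1 : ℝ)) * (1 - 1 / (2 * (N : ℝ))) =
        ((1 + (s ψ1 : ℝ)) * (2 * N - 1)) / (2 * N) := by
      field_simp
    rw [h3, le_div_iff₀ (by linarith)]
    nlinarith
  have hb : ∏ ψ ∈ univ.erase ψ1, (1 + (s' ψ : ℝ)) ≤ ∏ ψ ∈ univ.erase ψ1, (1 + (s ψ : ℝ)) := by
    refine prod_le_prod (fun ψ _ => by positivity) (fun ψ _ => ?_)
    have : (s' ψ : ℝ) ≤ s ψ := by exact_mod_cast hle ψ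
    linarith
  have hc : 0 ≤ ∏ ψ ∈ univ.erase ψ1, (1 + (s' ψ : ℝ)) := prod_nonneg (fun ψ _ => by positivity)
  have hd : 0 ≤ 1 + (s' ψ1 : ℝ) := by positivity
  calc (1 + (s' ψ1 : ℝ)) * ∏ ψ ∈ univ.erase ψ1, (1 + (s' ψ : ℝ))
      ≤ ((1 + (s ψ1 : ℝ)) * (1 - 1 / (2 * (N : ℝ)))) *
          ∏ ψ ∈ univ.erase ψ1, (1 + (s ψ : ℝ)) := mul_le_mul ha hb hc (hd.trans ha)
    _ = _ := by ring

/-- the iteration. -/
theorem dthmb_iter (m d P B N s0 : ℕ) (hN : 1 ≤ N) {Ψ : Type} [Fintype Ψ] (ψ0 : Ψ)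
    (hP : Fintype.card Ψ ≤ P)
    (hA : ∀ (V : Type) [AddCommGroup V] [Module F2 V] [Fintype V]
      (h : V → F2) (S : Finset (Du V)) (ζ : Du V → ℂ), S.card ≤ s0 →
      degLt d h → Roots m S ζ → (Fintype.card V : ℝ) ≤ 2 ^ (d + 1 + P) * bias h S ζ →
      ∃ U : Finset (Du V), U.card ≤ B ∧ N * img S U + S.card ≤ N * S.card) (R : ℕ) :
    ∀ (V : Type) [AddCommGroup V] [Module F2 V] [Fintype V]
      (S : Ψ → Finset (Du V)) (ζ : Ψ → Du V → ℂ) (h : V → F2),
      (∀ ψ, (S ψ).card ≤ s0) → (∀ ψ, Roots m (S ψ) (ζ ψ)) →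
      (∀ x, Phi (S ψ0) (ζ ψ0) x = 1) → degLt d h → h 0 = 1 →
      (∀ x : V, x ≠ 0 → h x = 1 → ∑ ψ, Phi (S ψ) (ζ ψ) x = 0) →
      (∏ ψ, (1 + ((S ψ).card : ℝ))) * (1 - 1 / (2 * (N : ℝ))) ^ R < 1 →
      Fintype.card V ≤ 2 ^ (d + 1 + P + R * B) := by
  induction R with
  | zero =>
    intro V _ _ _ S ζ h _ _ _ _ _ _ hpot
    exfalso
    rw [pow_zero, mul_one] at hpot
    have h1 : ∏ _ψ : Ψ, (1 : ℝ) ≤ ∏ ψ, (1 + ((S ψ).card : ℝ)) :=
      prod_le_prod (fun _ _ => zero_le_one) (fun ψ _ => le_add_of_nonneg_right (by positivity))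
    rw [prod_const_one] at h1
    linarith
  | succ R ih =>
    intro V _ _ _ S ζ h hs hr h0 hd hh hsum hpot
    by_cases hV : Fintype.card V ≤ 2 ^ (d + 1 + P)
    · exact hV.trans (Nat.pow_le_pow_right (by norm_num) (Nat.le_add_right _ _))
    obtain ⟨ψ1, h', hne, hd', hb⟩ := exists_biased ψ0 d P hP S ζ h h0 hd hh hsum (not_le.1 hV)
    obtain ⟨U, hU, hUi⟩ := hA V h' (S ψ1) (ζ ψ1) (hs ψ1) hd' (hr ψ1) hb
    choose S' ζ' hc hr' hΦ using fun ψ => rep_restrict m (S ψ) U (ζ ψ) (hr ψ)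
    have hle : ∀ ψ, (S' ψ).card ≤ (S ψ).card := fun ψ => (hc ψ).trans (img_le_card _ _)
    have hlam : (0 : ℝ) ≤ 1 - 1 / (2 * (N : ℝ)) := by
      have hNR : (1 : ℝ) ≤ N := by exact_mod_cast hN
      rw [sub_nonneg, div_le_one (by linarith)]
      linarith
    have hdrop := dthmb_pot N hN (fun ψ => (S ψ).card) (fun ψ => (S' ψ).card) ψ1 hle hne
      (le_trans (Nat.add_le_add_right (Nat.mul_le_mul_left N (hc ψ1)) _) hUi)
    have hk := ih (kerS U) S' ζ' (fun w => h ((kerS U).subtype w))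
      (fun ψ => (hle ψ).trans (hs ψ)) hr' (fun x => by rw [hΦ, h0])
      (degLt_comp (kerS U).subtype hd) (by rw [map_zero]; exact hh)
      (fun x hx0 hx => by
        rw [sum_congr rfl (fun ψ _ => hΦ ψ x)]
        exact hsum (x : V) (fun h1 => hx0 (Subtype.ext h1)) hx)
      (by
        refine lt_of_le_of_lt ?_ hpot
        rw [pow_succ', ← mul_assoc]
        exact mul_le_mul_of_nonneg_right hdrop (pow_nonneg hlam R))
    calc Fintype.card V ≤ 2 ^ U.card * Fintype.card (kerS U) := card_le_kerS U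
      _ ≤ 2 ^ B * 2 ^ (d + 1 + P + R * B) :=
          Nat.mul_le_mul (Nat.pow_le_pow_right (by norm_num) hU) hk
      _ = 2 ^ (d + 1 + P + (R + 1) * B) := by ring

theorem dthmb_lam (N : ℕ) (hN : 1 ≤ N) : (1 - 1 / (2 * (N : ℝ))) ^ (2 * N) ≤ 1 / 2 := by
  have hNR : (1 : ℝ) ≤ N := by exact_mod_cast hN
  have ht0 : (0 : ℝ) ≤ 1 / (2 * (N : ℝ)) := by positivity
  have ht1 : 1 / (2 * (N : ℝ)) ≤ 1 := by
    rw [div_le_one (by linarith)]
    linarith
  have h1 : 1 + ((2 * N : ℕ) : ℝ) * (1 / (2 * (N : ℝ))) ≤ (1 + 1 / (2 * (N : ℝ))) ^ (2 * N) :=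
    one_add_mul_le_pow (by linarith) _
  have h2 : ((2 * N : ℕ) : ℝ) * (1 / (2 * (N : ℝ))) = 1 := by
    push_cast
    field_simp
  rw [h2] at h1
  have h3 : (1 - 1 / (2 * (N : ℝ))) ^ (2 * N) * (1 + 1 / (2 * (N : ℝ))) ^ (2 * N) ≤ 1 := by
    rw [← mul_pow]
    refine pow_le_one₀ (mul_nonneg (by linarith) (by linarith)) ?_
    nlinarith
  have h4 : 0 ≤ (1 - 1 / (2 * (N : ℝ))) ^ (2 * N) := pow_nonneg (by linarith) _
  nlinarith

theorem thmB {m : ℕ} (hm : Odd m) (d P : ℕ) :
    ∃ C : ℕ, ∀ (K : ℕ) (V : Type) [AddCommGroup V] [Module F2 V] [Fintype V]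
      (Ψ : Type) [Fintype Ψ] (ψ0 : Ψ) (S : Ψ → Finset (Du V)) (ζ : Ψ → Du V → ℂ) (h : V → F2),
      1 ≤ K → Fintype.card Ψ ≤ P → (∀ ψ, (S ψ).card ≤ 4 ^ K) → (∀ ψ, Roots m (S ψ) (ζ ψ)) →
      (∀ x, Phi (S ψ0) (ζ ψ0) x = 1) → degLt d h → h 0 = 1 →
      (∀ x : V, x ≠ 0 → h x = 1 → ∑ ψ, Phi (S ψ) (ζ ψ) x = 0) →
      Fintype.card V ≤ 2 ^ (C * K ^ 8 * 2 ^ K) := by
  obtain ⟨c, hc⟩ := thmA hm (d + 1 + P) d
  refine ⟨d + 1 + P + 8192 * (3 * P + 1) * c, ?_⟩
  intro K V _ _ _ Ψ _ ψ0 S ζ h hK hP hs hr h0 hd hh hsum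
  have hK2 : 1 ≤ K ^ 2 := Nat.one_le_pow _ _ hK
  have hN : 1 ≤ 4096 * K ^ 2 := by omega
  have hlam := dthmb_lam (4096 * K ^ 2) hN
  have hlam0 : (0 : ℝ) ≤ 1 - 1 / (2 * ((4096 * K ^ 2 : ℕ) : ℝ)) := by
    have hNR : (1 : ℝ) ≤ ((4096 * K ^ 2 : ℕ) : ℝ) := by exact_mod_cast hN
    rw [sub_nonneg, div_le_one (by linarith)]
    linarith
  have hpot : ∏ ψ, (1 + ((S ψ).card : ℝ)) ≤ 2 ^ ((2 * K + 1) * P) := by
    have h1 : ∀ ψ, 1 + ((S ψ).card : ℝ) ≤ 2 ^ (2 * K + 1) := by
      intro ψ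
      have h2 : 1 + (S ψ).card ≤ 2 ^ (2 * K + 1) := by
        have h3 := hs ψ
        have h4 : 2 ^ (2 * K + 1) = 2 * 4 ^ K := by
          rw [pow_succ, pow_mul]
          norm_num [mul_comm]
        have h5 : 1 ≤ 4 ^ K := Nat.one_le_pow _ _ (by norm_num)
        omega
      exact_mod_cast h2
    calc ∏ ψ, (1 + ((S ψ).card : ℝ)) ≤ ∏ _ψ : Ψ, (2 : ℝ) ^ (2 * K + 1) :=
          prod_le_prod (fun ψ _ => by positivity) (fun ψ _ => h1 ψ)
      _ = 2 ^ ((2 * K + 1) * Fintype.card Ψ) := by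
          rw [prod_const, card_univ, ← pow_mul]
      _ ≤ 2 ^ ((2 * K + 1) * P) :=
          pow_le_pow_right₀ (by norm_num) (Nat.mul_le_mul_left _ hP)
  have hmain := dthmb_iter m d P (c * K ^ 5 * 2 ^ K) (4096 * K ^ 2) (4 ^ K) hN ψ0 hP
    (fun W _ _ _ h1 S1 ζ1 a1 a2 a3 a4 => hc K W h1 S1 ζ1 hK a1 a2 a3 a4)
    (2 * (4096 * K ^ 2) * ((2 * K + 1) * P + 1)) V S ζ h hs hr h0 hd hh hsum
    (by
      rw [pow_mul]
      calc (∏ ψ, (1 + ((S ψ).card : ℝ))) *
            ((1 - 1 / (2 * ((4096 * K ^ 2 : ℕ) : ℝ))) ^ (2 * (4096 * K ^ 2))) ^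
              ((2 * K + 1) * P + 1)
          ≤ 2 ^ ((2 * K + 1) * P) * (1 / 2) ^ ((2 * K + 1) * P + 1) :=
            mul_le_mul hpot (pow_le_pow_left₀ (pow_nonneg hlam0 _) hlam _)
              (pow_nonneg (pow_nonneg hlam0 _) _) (by positivity)
        _ = 1 / 2 := by
            rw [pow_succ, ← mul_assoc, ← mul_pow]
            norm_num
        _ < 1 := by norm_num)
  refine hmain.trans (Nat.pow_le_pow_right (by norm_num) ?_)
  have h1 : 1 ≤ K ^ 8 * 2 ^ K :=
    Nat.mul_pos (Nat.one_le_pow _ _ hK) (Nat.one_le_pow _ _ (by norm_num))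
  have h2 : (2 * K + 1) * P + 1 ≤ (3 * P + 1) * K := by
    have h3 : P ≤ P * K := Nat.le_mul_of_pos_right _ hK
    nlinarith
  calc d + 1 + P + 2 * (4096 * K ^ 2) * ((2 * K + 1) * P + 1) * (c * K ^ 5 * 2 ^ K)
      ≤ (d + 1 + P) * (K ^ 8 * 2 ^ K) +
          2 * (4096 * K ^ 2) * ((3 * P + 1) * K) * (c * K ^ 5 * 2 ^ K) :=
        Nat.add_le_add (Nat.le_mul_of_pos_right _ h1)
          (Nat.mul_le_mul_right _ (Nat.mul_le_mul_left _ h2))
    _ = (d + 1 + P + 8192 * (3 * P + 1) * c) * K ^ 8 * 2 ^ K := by ring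

end Pool.Agent.P.MP_85fe51_lc.DA
end

-- part Pool.Agent.P.MP_85fe51_lc.DGrp
section

set_option autoImplicit false

namespace Pool.Agent.P.MP_85fe51_lc.DA

open Finset
open scoped Classical

theorem dgrp_comm {G : Type} [Group G] (N : Subgroup G) (hodd : Odd (Nat.card N))
    (hsq : ∀ g : G, ∀ a ∈ N, g * g * a = a * (g * g)) (a b : N) : a * b = b * a := by
  obtain ⟨k, hk⟩ := hodd
  have h1 : a ^ (k + 1) * a ^ (k + 1) = a := by
    rw [← pow_add]
    have : k + 1 + (k + 1) = Nat.card N + 1 := by omega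
    rw [this, pow_succ, pow_card_eq_one', one_mul]
  have h2 := hsq ((a ^ (k + 1) : N) : G) b b.2
  apply Subtype.ext
  have h3 : ((a ^ (k + 1) : N) : G) * ((a ^ (k + 1) : N) : G) = (a : G) := by
    rw [← Subgroup.coe_mul, h1]
  rw [h3] at h2
  simpa using h2

theorem dgrp_comm2 {Q : Type} [Group Q] (hQ : ∀ q : Q, q * q = 1) (a b : Q) : a * b = b * a := by
  have h : ∀ q : Q, q⁻¹ = q := fun q => inv_eq_of_mul_eq_one_right (hQ q)
  calc a * b = (a * b)⁻¹ := (h _).symm
    _ = b⁻¹ * a⁻¹ := mul_inv_rev a b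
    _ = b * a := by rw [h, h]

theorem cocycle_data (G : Type) [Group G] [Finite G] (N : Subgroup G) [N.Normal]
    (hodd : Odd (Nat.card N)) (h2 : IsPGroup 2 (G ⧸ N))
    (hsq : ∀ g : G, ∀ a ∈ N, g * g * a = a * (g * g)) :
    ∃ (M : Type) (_ : AddCommGroup M) (_ : Fintype M) (Q : Type) (_ : CommGroup Q)
      (α : G →* Q) (c : Q → G → M) (ν : G → M),
      Odd (Fintype.card M) ∧ (∀ q : Q, q * q = 1) ∧ ν 1 = 0 ∧
      (∀ g g' : G, ν (g * g') = ν g + c (α g) g') ∧
      ∀ g g' : G, ν g = ν g' → (g : G ⧸ N) = (g' : G ⧸ N) → g = g' := by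
  have hcomm := dgrp_comm N hodd hsq
  have : Fact (Nat.Prime 2) := ⟨Nat.prime_two⟩
  obtain ⟨e, he⟩ := IsPGroup.exists_card_eq h2
  have hcop : Nat.Coprime (Nat.card N) N.index := by
    rw [Subgroup.index_eq_card, he]
    exact Nat.Coprime.pow_right e ((Nat.coprime_two_right).mpr hodd)
  obtain ⟨H, hH⟩ := Subgroup.exists_right_complement'_of_coprime hcop
  have hex : ∀ g : G, ∃ n : N, ∃ h : H, (n : G) * (h : G) = g := by
    intro g
    obtain ⟨⟨n, h⟩, hnh⟩ := hH.2 g
    exact ⟨n, h, hnh⟩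
  have huniq : ∀ (n n' : N) (h h' : H), (n : G) * (h : G) = (n' : G) * (h' : G) → n = n' := by
    intro n n' h h' hnh
    have := hH.1 (a₁ := (n, h)) (a₂ := (n', h')) hnh
    exact congrArg Prod.fst this
  choose nu eta hne using hex
  let cN : CommGroup N := { (inferInstance : Group N) with mul_comm := hcomm }
  let A : G →* MulAut N := MulAut.conjNormal
  have hQ : ∀ q : A.range, q * q = 1 := by
    rintro ⟨q, g, rfl⟩
    apply Subtype.ext
    show A g * A g = 1
    rw [← map_mul]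
    ext a
    simp only [A, MulAut.conjNormal_apply, MulAut.one_apply]
    rw [hsq g a a.2]
    group
  let cQ : CommGroup A.range :=
    { (inferInstance : Group A.range) with mul_comm := dgrp_comm2 hQ }
  refine ⟨Additive N, Additive.addCommGroup, Fintype.ofFinite _, A.range, cQ, A.rangeRestrict,
    fun q g' => Additive.ofMul (q.1 (nu g')), fun g => Additive.ofMul (nu g), ?_, hQ, ?_, ?_, ?_⟩
  · rw [← @Nat.card_eq_fintype_card _ (Fintype.ofFinite _)]
    exact hodd
  · have : nu 1 = 1 := huniq (nu 1) 1 (eta 1) 1 (by rw [hne]; simp)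
    show Additive.ofMul (nu 1) = 0
    rw [this]
    rfl
  · intro g g'
    have key : nu (g * g') = nu g * A g (nu g') := by
      apply huniq _ _ (eta (g * g')) (eta g * eta g')
      rw [hne]
      have hc : ((nu g : N) : G) * (A g (nu g') : N) = (A g (nu g') : N) * (nu g : N) := by
        rw [← Subgroup.coe_mul, ← Subgroup.coe_mul, hcomm]
      rw [Subgroup.coe_mul, Subgroup.coe_mul, hc]
      simp only [A, MulAut.conjNormal_apply]
      have e1 := hne g
      have e2 := hne g'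
      calc g * g' = g * ((nu g' : G) * (eta g' : G)) := by rw [e2]
        _ = g * (nu g' : G) * g⁻¹ * g * (eta g' : G) := by group
        _ = g * (nu g' : G) * g⁻¹ * ((nu g : G) * (eta g : G)) * (eta g' : G) := by rw [e1]
        _ = g * (nu g' : G) * g⁻¹ * (nu g : G) * ((eta g : G) * (eta g' : G)) := by group
    show Additive.ofMul (nu (g * g')) = Additive.ofMul (nu g) + Additive.ofMul (A g (nu g'))
    rw [key]
    rfl
  · intro g g' hν hq
    have hn : nu g = nu g' := Additive.ofMul.injective hν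
    have hmem : g⁻¹ * g' ∈ N := QuotientGroup.eq.mp hq
    have e1 := hne g
    have e2 := hne g'
    have e3 : g⁻¹ * g' = ((eta g)⁻¹ * eta g' : H) := by
      rw [Subgroup.coe_mul, Subgroup.coe_inv]
      calc g⁻¹ * g' = ((nu g : G) * (eta g : G))⁻¹ * ((nu g' : G) * (eta g' : G)) := by
            rw [e1, e2]
        _ = (eta g : G)⁻¹ * (eta g' : G) := by rw [hn]; group
    have hmemH : g⁻¹ * g' ∈ H := by
      rw [e3]
      exact Subtype.property _
    have h1 : g⁻¹ * g' = 1 := Subgroup.disjoint_def.mp hH.disjoint hmem hmemH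
    exact inv_mul_eq_one.mp h1

theorem dgrp_f2 (a : F2) : a = 0 ∨ a = 1 := by
  revert a
  decide

theorem dgrp_f2_add (a b : F2) : a + b = 1 ↔ ¬ (a = 1 ↔ b = 1) := by
  revert a b
  decide

theorem dgrp_f2_ne (a b : F2) (h : a ≠ b) : b = a + 1 := by
  revert a b
  decide

theorem dgrp_f2_two (a : F2) : a + 1 + 1 = a := by
  revert a
  decide

variable {V : Type} [AddCommGroup V] [Module F2 V]

theorem dgrp_pm_append {M : Type} [AddCommGroup M] (J J' : List (Du V × M)) (x : V) :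
    pm (J ++ J') x = pm J x + pm J' x := by
  simp only [pm, List.map_append, List.sum_append]

theorem dgrp_pm_cons {M : Type} [AddCommGroup M] (p : Du V × M) (J : List (Du V × M)) (x : V) :
    pm (p :: J) x = (if p.1 x = 1 then -p.2 else p.2) + pm J x := by
  simp only [pm, List.map_cons, List.sum_cons]

theorem dgrp_pm_twist {M : Type} [AddCommGroup M] (χ : Du V) (J : List (Du V × M)) (x : V) :
    pm (J.map (fun p => (p.1 + χ, p.2))) x = if χ x = 1 then -pm J x else pm J x := by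
  induction J with
  | nil => simp [pm]
  | cons p J ih =>
    rw [List.map_cons, dgrp_pm_cons, dgrp_pm_cons, ih]
    simp only [LinearMap.add_apply, dgrp_f2_add]
    by_cases h1 : χ x = 1 <;> by_cases h2 : p.1 x = 1 <;> simp [h1, h2, add_comm]

theorem junta {M : Type} [AddCommGroup M] [Fintype M] (hM : Odd (Fintype.card M))
    (X : Finset (Du V)) : ∀ φ : V → M, (∀ x x' : V, (∀ χ ∈ X, χ x = χ x') → φ x = φ x') →
      ∃ J : List (Du V × M), J.length ≤ 2 ^ X.card ∧ ∀ x, φ x = pm J x := by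
  obtain ⟨k, hk⟩ := hM
  have hhalf : ∀ c : M, (k + 1) • c + (k + 1) • c = c := by
    intro c
    rw [← add_nsmul]
    have : k + 1 + (k + 1) = Fintype.card M + 1 := by omega
    rw [this, succ_nsmul, card_nsmul_eq_zero, zero_add]
  induction X using Finset.induction_on with
  | empty =>
    intro φ hφ
    refine ⟨[(0, φ 0)], by simp, fun x => ?_⟩
    rw [hφ x 0 (by simp)]
    simp [pm]
  | insert χ X0 hχ ih =>
    intro φ hφ
    rw [card_insert_of_notMem hχ]
    by_cases hin : InSp X0 χ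
    · obtain ⟨J, hJ, hJ'⟩ := ih φ (by
        intro x x' hx
        apply hφ
        intro ψ hψ
        rcases mem_insert.mp hψ with rfl | hψ
        · have := hin (x - x') (fun ρ hρ => by rw [map_sub, hx ρ hρ, sub_self])
          rw [map_sub] at this
          exact sub_eq_zero.mp this
        · exact hx ψ hψ)
      exact ⟨J, hJ.trans (Nat.pow_le_pow_right (by norm_num) (Nat.le_succ _)), hJ'⟩
    · simp only [InSp, not_forall] at hin
      obtain ⟨x0, hx0, hx1⟩ := hin
      have hx1' : χ x0 = 1 := (dgrp_f2 _).resolve_left hx1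
      have hsame : ∀ x x' : V, (∀ ψ ∈ X0, ψ x = ψ x') → χ x = χ x' →
          φ x = φ x' ∧ φ (x + x0) = φ (x' + x0) := by
        intro x x' hx hc
        constructor
        · apply hφ
          intro ψ hψ
          rcases mem_insert.mp hψ with rfl | hψ
          · exact hc
          · exact hx ψ hψ
        · apply hφ
          intro ψ hψ
          rcases mem_insert.mp hψ with rfl | hψ
          · rw [map_add, map_add, hc]
          · rw [map_add, map_add, hx ψ hψ]
      have hdiff : ∀ x x' : V, (∀ ψ ∈ X0, ψ x = ψ x') → χ x ≠ χ x' →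
          φ x = φ (x' + x0) ∧ φ (x + x0) = φ x' := by
        intro x x' hx hc
        have hc' := dgrp_f2_ne _ _ hc
        constructor
        · apply hφ
          intro ψ hψ
          rcases mem_insert.mp hψ with rfl | hψ
          · rw [map_add, hc', hx1', dgrp_f2_two]
          · rw [map_add, hx0 ψ hψ, add_zero, hx ψ hψ]
        · apply hφ
          intro ψ hψ
          rcases mem_insert.mp hψ with rfl | hψ
          · rw [map_add, hc', hx1']
          · rw [map_add, hx0 ψ hψ, add_zero, hx ψ hψ]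
      obtain ⟨J1, hJ1, hJ1'⟩ := ih (fun x => (k + 1) • (φ x + φ (x + x0))) (by
        intro x x' hx
        by_cases hc : χ x = χ x'
        · obtain ⟨e1, e2⟩ := hsame x x' hx hc
          simp only [e1, e2]
        · obtain ⟨e1, e2⟩ := hdiff x x' hx hc
          show (k + 1) • (φ x + φ (x + x0)) = (k + 1) • (φ x' + φ (x' + x0))
          rw [e1, e2, add_comm (φ x')])
      obtain ⟨J2, hJ2, hJ2'⟩ := ih (fun x => if χ x = 1 then -((k + 1) • (φ x - φ (x + x0)))
          else (k + 1) • (φ x - φ (x + x0))) (by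
        intro x x' hx
        by_cases hc : χ x = χ x'
        · obtain ⟨e1, e2⟩ := hsame x x' hx hc
          simp only [e1, e2, hc]
        · obtain ⟨e1, e2⟩ := hdiff x x' hx hc
          have hs : (k + 1) • (φ x - φ (x + x0)) = -((k + 1) • (φ x' - φ (x' + x0))) := by
            rw [e1, e2, ← smul_neg, neg_sub]
          by_cases h1 : χ x = 1
          · have h2 : ¬ χ x' = 1 := fun h => hc (h1.trans h.symm)
            simp only [if_pos h1, if_neg h2, hs, neg_neg]
          · have h2 : χ x' = 1 := by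
              rw [dgrp_f2_ne _ _ hc, (dgrp_f2 _).resolve_right h1, zero_add]
            simp only [if_neg h1, if_pos h2, hs])
      refine ⟨J1 ++ J2.map (fun p => (p.1 + χ, p.2)), ?_, fun x => ?_⟩
      · rw [List.length_append, List.length_map, pow_succ]
        omega
      · rw [dgrp_pm_append, dgrp_pm_twist, ← hJ1' x, ← hJ2' x]
        have hfin : φ x = (k + 1) • (φ x + φ (x + x0)) + (k + 1) • (φ x - φ (x + x0)) := by
          rw [← smul_add]
          have : φ x + φ (x + x0) + (φ x - φ (x + x0)) = φ x + φ x := by abel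
          rw [this, smul_add, hhalf]
        by_cases h1 : χ x = 1
        · simp only [if_pos h1, neg_neg]
          exact hfin
        · simp only [if_neg h1]
          exact hfin

theorem dgrp_ite_add {Q : Type} [CommGroup Q] (q : Q) (hq : q * q = 1) (s t : F2) :
    (if s + t = 1 then q else 1) = (if s = 1 then q else 1) * (if t = 1 then q else 1) := by
  simp only [dgrp_f2_add]
  by_cases h1 : s = 1 <;> by_cases h2 : t = 1 <;> simp [h1, h2, hq]

theorem dgrp_form {G Q : Type} [Group G] [Fintype G] [CommGroup Q] (α : G →* Q)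
    (hQ : ∀ q : Q, q * q = 1) (l : List (Du V × G × G)) :
    ∃ (lam : G → Du V) (k : Q), ∀ x : V,
      α (prog l x) = k * ∏ g : G, if lam g x = 1 then α g else 1 := by
  induction l using List.reverseRecOn with
  | nil =>
    refine ⟨fun _ => 0, 1, fun x => ?_⟩
    rw [prog_nil]
    simp
  | append_singleton l p ih =>
    obtain ⟨lam, k, hk⟩ := ih
    refine ⟨fun g => lam g + if g = p.2.2⁻¹ * p.2.1 then p.1 else 0, k * α p.2.2, fun x => ?_⟩
    rw [prog_snoc, map_mul, hk]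
    have e1 : ∀ g : G, (if (lam g + if g = p.2.2⁻¹ * p.2.1 then p.1 else 0) x = 1 then α g else 1)
        = (if lam g x = 1 then α g else 1) *
          (if g = p.2.2⁻¹ * p.2.1 then (if p.1 x = 1 then α g else 1) else 1) := by
      intro g
      rw [LinearMap.add_apply, dgrp_ite_add _ (hQ _)]
      by_cases hg : g = p.2.2⁻¹ * p.2.1
      · simp only [if_pos hg]
      · simp only [if_neg hg, LinearMap.zero_apply, zero_ne_one, if_false]
    rw [prod_congr rfl (fun g _ => e1 g), prod_mul_distrib, prod_ite_eq']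
    simp only [mem_univ, if_true]
    have e2 : α (if p.1 x = 1 then p.2.1 else p.2.2)
        = α p.2.2 * (if p.1 x = 1 then α (p.2.2⁻¹ * p.2.1) else 1) := by
      by_cases h1 : p.1 x = 1
      · simp only [if_pos h1, ← map_mul, mul_inv_cancel_left]
      · simp only [if_neg h1, mul_one]
    rw [e2]
    ac_rfl

theorem dep_prog {G Q : Type} [Group G] [Fintype G] [CommGroup Q] (α : G →* Q)
    (hQ : ∀ q : Q, q * q = 1) (l : List (Du V × G × G)) :
    ∃ X : Finset (Du V), X.card ≤ Fintype.card G ∧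
      ∀ x x' : V, (∀ χ ∈ X, χ x = χ x') → α (prog l x) = α (prog l x') := by
  obtain ⟨lam, k, hk⟩ := dgrp_form α hQ l
  refine ⟨univ.image lam, card_image_le.trans (by rw [card_univ]), fun x x' hx => ?_⟩
  rw [hk, hk]
  congr 1
  apply prod_congr rfl
  intro g _
  rw [hx (lam g) (mem_image_of_mem _ (mem_univ g))]

theorem sparse_prog {G Q M : Type} [Group G] [Fintype G] [CommGroup Q] [AddCommGroup M] [Fintype M]
    (hM : Odd (Fintype.card M)) (α : G →* Q) (hQ : ∀ q : Q, q * q = 1) (c : Q → G → M) (ν : G → M)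
    (h1 : ν 1 = 0) (hν : ∀ g g' : G, ν (g * g') = ν g + c (α g) g') (l : List (Du V × G × G)) :
    ∃ J : List (Du V × M), J.length ≤ 2 ^ (Fintype.card G + 1) * l.length ∧
      ∀ x, ν (prog l x) = pm J x := by
  induction l using List.reverseRecOn with
  | nil =>
    refine ⟨[], by simp, fun x => ?_⟩
    rw [prog_nil, h1]
    simp [pm]
  | append_singleton l p ih =>
    obtain ⟨J, hJ, hJ'⟩ := ih
    obtain ⟨X, hX, hX'⟩ := dep_prog α hQ l
    obtain ⟨J2, hJ2, hJ2'⟩ := junta hM (insert p.1 X)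
      (fun x => c (α (prog l x)) (if p.1 x = 1 then p.2.1 else p.2.2)) (by
        intro x x' hx
        have e1 := hX' x x' (fun χ hχ => hx χ (mem_insert_of_mem hχ))
        have e2 := hx p.1 (mem_insert_self _ _)
        simp only [e1, e2])
    refine ⟨J ++ J2, ?_, fun x => ?_⟩
    · have h3 : 2 ^ (insert p.1 X).card ≤ 2 ^ (Fintype.card G + 1) :=
        Nat.pow_le_pow_right (by norm_num) ((card_insert_le _ _).trans (by omega))
      rw [List.length_append, List.length_append, List.length_singleton, Nat.mul_succ]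
      omega
    · rw [prog_snoc, hν, dgrp_pm_append, ← hJ' x, ← hJ2' x]

end Pool.Agent.P.MP_85fe51_lc.DA
end

-- part Pool.Agent.P.MP_85fe51_lc.DMain
section

set_option autoImplicit false

namespace Pool.Agent.P.MP_85fe51_lc.DA

open Finset
open scoped Classical

theorem dmain_pm_char {V : Type} [AddCommGroup V] [Module F2 V] {M : Type} [AddCommGroup M]
    (J : List (Du V × M)) (ψ : AddChar M ℂ) (x : V) :
    ψ (pm J x - pm J 0) =
      (J.map (fun p => if p.1 x = 1 then ψ (-p.2 - p.2) else 1)).prod := by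
  induction J with
  | nil => simp [pm]
  | cons p J ih =>
    have h0 : ¬ (p.1 (0 : V) = 1) := by
      rw [map_zero]
      exact zero_ne_one
    have e : pm (p :: J) x - pm (p :: J) 0 =
        (if p.1 x = 1 then -p.2 - p.2 else 0) + (pm J x - pm J 0) := by
      simp only [pm, List.map_cons, List.sum_cons, if_neg h0]
      split_ifs <;> abel
    rw [e, AddChar.map_add_eq_mul, ih, List.map_cons, List.prod_cons]
    split_ifs
    · rfl
    · rw [AddChar.map_zero_eq_one]

theorem char_pm {V : Type} [AddCommGroup V] [Module F2 V] {M : Type} [AddCommGroup M] [Fintype M]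
    (J : List (Du V × M)) (ψ : AddChar M ℂ) :
    ∃ (S : Finset (Du V)) (ζ : Du V → ℂ), S.card ≤ J.length ∧ Roots (Fintype.card M) S ζ ∧
      ∀ x : V, Phi S ζ x = ψ (pm J x - pm J 0) := by
  obtain ⟨S, ζ, hS, hR, hP⟩ := rep_of_index (V := V) (Fintype.card M) (univ : Finset (Fin J.length))
    (fun j => (J.get j).1) (fun j => ψ (-(J.get j).2 - (J.get j).2)) (by
      intro j _
      rw [← AddChar.map_nsmul_eq_pow, card_nsmul_eq_zero, AddChar.map_zero_eq_one])
  refine ⟨S, ζ, ?_, hR, fun x => ?_⟩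
  · calc S.card ≤ _ := card_le_card hS
      _ ≤ _ := card_erase_le
      _ ≤ (univ : Finset (Fin J.length)).card := card_image_le
      _ = J.length := by simp
  · rw [hP x, dmain_pm_char, ← List.prod_ofFn]
    have : (List.ofFn fun j : Fin J.length =>
        if (J.get j).1 x = 1 then ψ (-(J.get j).2 - (J.get j).2) else 1) =
        (List.ofFn J.get).map (fun p => if p.1 x = 1 then ψ (-p.2 - p.2) else 1) := by
      rw [List.map_ofFn]
      rfl
    rw [this, List.ofFn_get]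

/-- a program that isolates the point `0` lives on a small space. -/
theorem isolate (G : Type) [Group G] [Finite G] (N : Subgroup G) [N.Normal]
    (hodd : Odd (Nat.card N)) (h2 : IsPGroup 2 (G ⧸ N))
    (hsq : ∀ g : G, ∀ a ∈ N, g * g * a = a * (g * g)) :
    ∃ C e : ℕ, ∀ (K : ℕ) (V : Type) [AddCommGroup V] [Module F2 V] [Fintype V]
      (l : List (Du V × G × G)), 1 ≤ K → 2 ^ e * l.length ≤ 4 ^ K →
      (∀ x : V, x ≠ 0 → prog l x ≠ prog l 0) → Fintype.card V ≤ 2 ^ (C * K ^ 8 * 2 ^ K) := by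
  have : Fintype G := Fintype.ofFinite G
  obtain ⟨M, _, _, Q, _, α, c, ν, hM, hQ, hν1, hν, hinj⟩ := cocycle_data G N hodd h2 hsq
  obtain ⟨d, hd⟩ := two_group_deg (Nat.card (G ⧸ N)) (G ⧸ N) le_rfl h2
  obtain ⟨C, hC⟩ := thmB hM d (Fintype.card (AddChar M ℂ))
  refine ⟨C, Fintype.card G + 1, ?_⟩
  intro K V _ _ _ l hK hl hiso
  obtain ⟨J, hJ, hpm⟩ := sparse_prog hM α hQ c ν hν1 hν l
  choose S ζ hS hR hP using fun ψ : AddChar M ℂ => char_pm J ψ
  let π : G →* G ⧸ N := QuotientGroup.mk' N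
  let β : G ⧸ N → F2 := fun q => if q = π (prog l 0) then 1 else 0
  have hdeg := hd V β (l.map (fun p => (p.1, π p.2.1, π p.2.2)))
  have hfun : (fun x => β (prog (l.map (fun p => (p.1, π p.2.1, π p.2.2))) x)) =
      fun x => β (π (prog l x)) := by
    funext x
    rw [prog_map]
  rw [hfun] at hdeg
  refine hC K V (AddChar M ℂ) 0 S ζ (fun x => β (π (prog l x))) hK le_rfl
    (fun ψ => (hS ψ).trans (hJ.trans hl)) hR ?_ hdeg ?_ ?_
  · intro x
    rw [hP]
    rfl
  · simp [β]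
  · intro x hx hβ
    have hq : π (prog l x) = π (prog l 0) := by
      by_contra hne
      simp only [β, if_neg hne] at hβ
      exact zero_ne_one hβ
    have hne : pm J x - pm J 0 ≠ 0 := by
      intro h0
      apply hiso x hx
      refine hinj _ _ ?_ hq
      rw [hpm, hpm]
      exact sub_eq_zero.mp h0
    simp only [hP]
    exact AddChar.sum_apply_eq_zero_iff_ne_zero.mpr hne

theorem arith (C e : ℕ) : ∃ C' : ℕ, ∀ n L : ℕ,
    (∀ K : ℕ, 1 ≤ K → 2 ^ e * L ≤ 4 ^ K → n ≤ C * K ^ 8 * 2 ^ K) →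
    n ^ 2 ≤ C' * (L + 1) * (Nat.log 2 (L + 1) + 1) ^ 16 := by
  refine ⟨C ^ 2 * (e + 1) ^ 16 * 4 ^ (e + 1), fun n L h => ?_⟩
  set u := Nat.log 2 (L + 1) with hu
  have h1 : L + 1 < 2 ^ (u + 1) := Nat.lt_pow_succ_log_self (by norm_num) _
  have h2 : 2 ^ u ≤ L + 1 := Nat.pow_log_le_self 2 (by omega)
  have h4 : ∀ a : ℕ, 4 ^ a = 2 ^ (2 * a) := fun a => by
    rw [pow_mul]
    norm_num
  have hK := h (u / 2 + 1 + e) (by omega) (by
    calc 2 ^ e * L ≤ 2 ^ e * 2 ^ (u + 1) := Nat.mul_le_mul_left _ (by omega)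
      _ = 2 ^ (e + (u + 1)) := (pow_add _ _ _).symm
      _ ≤ 2 ^ (2 * (u / 2 + 1 + e)) := Nat.pow_le_pow_right (by norm_num) (by omega)
      _ = 4 ^ (u / 2 + 1 + e) := (h4 _).symm)
  set K := u / 2 + 1 + e with hKdef
  have hKle : K ≤ (e + 1) * (u + 1) := by
    have : u / 2 ≤ u := Nat.div_le_self _ _
    nlinarith [Nat.zero_le (e * u)]
  have hpow : (2 ^ K) ^ 2 ≤ 4 ^ (e + 1) * (L + 1) := by
    calc (2 ^ K) ^ 2 = 2 ^ (K * 2) := (pow_mul _ _ _).symm
      _ ≤ 2 ^ (2 * (e + 1) + u) := Nat.pow_le_pow_right (by norm_num) (by omega)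
      _ = 4 ^ (e + 1) * 2 ^ u := by rw [pow_add, h4]
      _ ≤ 4 ^ (e + 1) * (L + 1) := Nat.mul_le_mul_left _ h2
  calc n ^ 2 ≤ (C * K ^ 8 * 2 ^ K) ^ 2 := Nat.pow_le_pow_left hK 2
    _ = C ^ 2 * K ^ 16 * (2 ^ K) ^ 2 := by ring
    _ ≤ C ^ 2 * ((e + 1) * (u + 1)) ^ 16 * (4 ^ (e + 1) * (L + 1)) :=
        Nat.mul_le_mul (Nat.mul_le_mul_left _ (Nat.pow_le_pow_left hKle 16)) hpow
    _ = C ^ 2 * (e + 1) ^ 16 * 4 ^ (e + 1) * (L + 1) * (u + 1) ^ 16 := by ring

theorem main (G : Type) [Group G] [Finite G] (N : Subgroup G) [N.Normal]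
    (hodd : Odd (Nat.card N)) (h2 : IsPGroup 2 (G ⧸ N))
    (hsq : ∀ g : G, ∀ a ∈ N, g * g * a = a * (g * g)) :
    ∃ C : ℕ, ∀ (n L : ℕ) (var : Fin L → Fin n) (a b : Fin L → G) (A : Set G) (y : Fin n → Bool),
      (∀ x : Fin n → Bool, x = y ↔
        (List.ofFn (fun j : Fin L => if x (var j) then a j else b j)).prod ∈ A) →
      n ^ 2 ≤ C * (L + 1) * (Nat.log 2 (L + 1) + 1) ^ 16 := by
  obtain ⟨C, e, hC⟩ := isolate G N hodd h2 hsq
  obtain ⟨C', hC'⟩ := arith C e
  refine ⟨C', fun n L var a b A y hA => hC' n L fun K hK hL => ?_⟩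
  let inp : (Fin n → F2) → Fin n → Bool := fun x i => if x i = 1 then !(y i) else y i
  let l : List (Du (Fin n → F2) × G × G) := List.ofFn (fun j : Fin L =>
    ((LinearMap.proj (var j) : Du (Fin n → F2)), (if y (var j) then b j else a j),
      (if y (var j) then a j else b j)))
  have hprog : ∀ x : Fin n → F2, prog l x =
      (List.ofFn (fun j : Fin L => if inp x (var j) then a j else b j)).prod := by
    intro x
    simp only [prog, l, List.map_ofFn]
    congr 1
    refine congrArg List.ofFn (funext fun j => ?_)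
    simp only [Function.comp, LinearMap.proj_apply, inp]
    by_cases h1 : x (var j) = 1 <;> by_cases hy : y (var j) = true <;> simp [h1, hy]
  have hinp0 : inp 0 = y := by
    funext i
    simp [inp]
  have hlen : l.length = L := by simp [l]
  have hcard := hC K (Fin n → F2) l hK (by rw [hlen]; exact hL) (by
    intro x hx heq
    have h0 : prog l 0 ∈ A := by
      rw [hprog, hinp0]
      exact (hA y).1 rfl
    rw [← heq, hprog] at h0
    have hxy := (hA (inp x)).2 h0
    apply hx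
    funext i
    rcases f2_cases (x i) with h | h
    · exact h
    · have := congrFun hxy i
      simp only [inp, if_pos h] at this
      cases hy : y i <;> simp [hy] at this)
  have hc : Fintype.card (Fin n → F2) = 2 ^ n := by
    simp [F2]
  rw [hc] at hcard
  exact (Nat.pow_le_pow_iff_right (by norm_num)).mp hcard

end Pool.Agent.P.MP_85fe51_lc.DA
end
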